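import Pool.Agent.R927.TwistPt

set_option autoImplicit false

/-!
The dual of a system with vanishing `p`-curvature.
-/

namespace Pool.Agent.R927

open Finset Pool.Agent.W432.PC Polynomial Pool.Agent.TH571.GP Pool.Agent.TH295.FO

section full

variable {k : Type*} [Field k] {n r : ℕ} {α : Fin n → k} {A : Fin n → Matrix (Fin r) (Fin r) k}

/-- a full set of polynomial solutions forces the `p`-curvature to vanish -/
theorem pCurvZero_of_full {p : ℕ} (hp : p.Prime) [CharP k p] (h : Full α A) : PCurvZero α A := by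
  obtain ⟨Y, hY, hdet⟩ := h
  have hch : ringChar k = p := ringChar.eq k p
  have : CharP (RatFunc k) p := charP_of_injective_algebraMap
    (algebraMap k (RatFunc k)).injective p
  let w : RatFunc k →+ RatFunc k :=
    { toFun := fun f => ddx k f, map_zero' := map_zero _, map_add' := fun f g => map_add _ f g }
  let N : (Fin r → RatFunc k) →+ (Fin r → RatFunc k) :=
    { toFun := nabla α A
      map_zero' := by
        ext1 i
        simp [nabla]
      map_add' := by
        intro y z
        ext1 i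
        simp only [nabla, Pi.add_apply, map_add, Matrix.mulVec_add]
        ring }
  have hN : ∀ f y, N (f • y) = w f • y + f • N y := by
    intro f y
    ext1 i
    change ddx k (f * y i) - (G α A).mulVec (f • y) i =
      ddx k f * y i + f * (ddx k (y i) - (G α A).mulVec y i)
    rw [(ddx k).leibniz, Matrix.mulVec_smul, Pi.smul_apply, smul_eq_mul, smul_eq_mul, smul_eq_mul]
    ring
  have hT : algebraMap k[X] (RatFunc k) (T α) ≠ 0 := by
    rw [Ne, map_eq_zero_iff _ (IsFractionRing.injective k[X] (RatFunc k))]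
    exact T_ne
  let Z : Matrix (Fin r) (Fin r) (RatFunc k) := Y.map (algebraMap k[X] (RatFunc k))
  have hZ : ∀ i, N (Z i) = 0 := by
    intro i
    ext1 l
    change ddx k (algebraMap k[X] (RatFunc k) (Y i l)) - (G α A).mulVec (Z i) l = 0
    have h1 := congrArg (algebraMap k[X] (RatFunc k)) (hY i l)
    rw [map_mul] at h1
    have h2 : algebraMap k[X] (RatFunc k) (T α) * (G α A).mulVec (Z i) l =
        algebraMap k[X] (RatFunc k) ((B α A).mulVec (Y i) l) := by
      simp only [Matrix.mulVec, dotProduct, map_sum, map_mul, mul_sum]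
      refine sum_congr rfl fun m _ => ?_
      rw [← G_T]
      simp only [Z, Matrix.map_apply]
      ring
    rw [ddx_algebraMap]
    apply mul_left_cancel₀ hT
    rw [mul_sub, h1, h2, sub_self, mul_zero]
  have hZdet : Z.det ≠ 0 := by
    have h1 : Z.det = algebraMap k[X] (RatFunc k) Y.det := by
      change (Y.map (algebraMap k[X] (RatFunc k))).det = _
      exact ((algebraMap k[X] (RatFunc k)).map_det Y).symm
    rw [h1, Ne, map_eq_zero_iff _ (IsFractionRing.injective k[X] (RatFunc k))]
    exact hdet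
  intro y
  rw [hch]
  have h2 : ∀ (s : Finset (Fin r)) (F : Fin r → Fin r → RatFunc k), N^[p] (∑ c ∈ s, F c) =
      ∑ c ∈ s, N^[p] (F c) := by
    intro s F
    induction s using Finset.induction_on with
    | empty => simp only [sum_empty]; exact iterate_map_zero _ p
    | insert a s ha ih => rw [sum_insert ha, sum_insert ha, iterate_map_add, ih]
  set c : Fin r → RatFunc k := Matrix.vecMul y Z⁻¹ with hc
  have h3 : y = ∑ i, c i • Z i := by
    have h4 : Matrix.vecMul c Z = y := by
      rw [hc, Matrix.vecMul_vecMul, Matrix.nonsing_inv_mul _ (isUnit_iff_ne_zero.2 hZdet),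
        Matrix.vecMul_one]
    rw [← h4]
    ext1 l
    simp [Matrix.vecMul, dotProduct, Finset.sum_apply]
  have hbasis : ∀ i, N^[p] (Z i) = 0 := by
    intro i
    obtain ⟨q, hq⟩ : ∃ q, p = q + 1 := ⟨p - 1, by have := hp.pos; omega⟩
    rw [hq, Function.iterate_succ_apply, hZ]
    exact iterate_map_zero _ q
  change N^[p] y = 0
  rw [h3, h2]
  refine sum_eq_zero fun i _ => ?_
  rw [iter_p w N hN hp, hbasis, smul_zero, add_zero]
  have h4 : w^[p] (c i) = 0 := ddx_iter_p hp (c i)
  rw [h4, zero_smul]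

end full

/-- the dual system has vanishing `p`-curvature at the same closed points -/
theorem pCurvZeroAt_dual {R : Type*} [CommRing R] {n r : ℕ} {α : Fin n → R}
    {A : Fin n → Matrix (Fin r) (Fin r) R} {p : ℕ} (hp : p.Prime) (𝔪 : Ideal R)
    [h𝔪 : 𝔪.IsMaximal] (hpm : (p : R) ∈ 𝔪) (h : PCurvZeroAt α A 𝔪) :
    PCurvZeroAt α (fun j => -(A j).transpose) 𝔪 := by
  let ifld : Field (R ⧸ 𝔪) := Ideal.Quotient.field 𝔪
  have hch : CharP (R ⧸ 𝔪) p := charP_quot' 𝔪 hp hpm
  have hfact : Fact p.Prime := ⟨hp⟩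
  let K := AlgebraicClosure (R ⧸ 𝔪)
  let ι : (R ⧸ 𝔪) →+* K := algebraMap (R ⧸ 𝔪) K
  have hK : CharP K p := charP_of_injective_algebraMap (algebraMap (R ⧸ 𝔪) K).injective p
  set β : Fin n → R ⧸ 𝔪 := fun j => Ideal.Quotient.mk 𝔪 (α j) with hβ
  set A₁ : Fin n → Matrix (Fin r) (Fin r) (R ⧸ 𝔪) := fun j => (A j).map (Ideal.Quotient.mk 𝔪)
    with hA₁
  have h0 : PCurvZero β A₁ := h
  have h1 := Q_eq_zero_of_pCurvZero h0
  rw [ringChar.eq (R ⧸ 𝔪) p] at h1
  have h2 := Q_map ι β A₁ p
  rw [h1] at h2
  have h3 : Pool.Agent.W432.PC.Q (fun j => ι (β j)) (fun j => (A₁ j).map ι) p = 0 := by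
    rw [← h2]
    ext1 i l
    simp
  have hfull : Full (fun j => ι (β j)) (fun j => (A₁ j).map ι) := exists_full (p := p) h3
  have hdual := Full.dual (p := p) hfull
  have h4 := Q_eq_zero_of_pCurvZero (pCurvZero_of_full hp hdual)
  rw [ringChar.eq K p] at h4
  have h5 := Q_map ι β (fun j => -(A₁ j).transpose) p
  have h6 : (fun j => (-(A₁ j).transpose).map ι) = fun j => -((A₁ j).map ι).transpose := by
    ext1 j
    ext1 i l
    simp
  rw [h6, h4] at h5
  have h7 : Pool.Agent.W432.PC.Q β (fun j => -(A₁ j).transpose) p = 0 := by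
    ext1 i l
    have h8 := congrFun (congrFun h5 i) l
    rw [Matrix.map_apply, Matrix.zero_apply] at h8
    rw [Matrix.zero_apply]
    exact (map_eq_zero_iff _ (Polynomial.map_injective ι ι.injective)).1 h8
  have h9 := pCurvZero_of_Q β (fun j => -(A₁ j).transpose) hp h7
  have h10 : (fun j => (-(A j).transpose).map (Ideal.Quotient.mk 𝔪)) =
      fun j => -(A₁ j).transpose := by
    ext1 j
    ext1 i l
    simp [hA₁]
  unfold PCurvZeroAt
  rw [h10]
  exact h9

end Pool.Agent.R927
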