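import Pool.Agent.R927.Hinge3

set_option autoImplicit false

/-!
The quadratic inequality which follows from the hinge inequalities.
-/

namespace Pool.Agent.R927

open Finset Pool.Agent.W280.PC

/-- The hinge inequalities for the cut `c` of the first leg: `x`, `y` are the weights at the two
finite points and `e` at infinity, multiplied with `D`. -/
def HingeData (D : ℕ) {r : ℕ} (x y e : Fin r → ℤ) (c : ℤ) : Prop :=
  ∃ (Y Z : Fin r → ℤ) (ρ : Equiv.Perm (Fin r)),
    (∀ i, ∃ m : ℤ, Y i = y (ρ i) + D * m) ∧ (∀ i, ∃ m : ℤ, Z i = e i - c + D * m) ∧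
    ∑ l, (x l - c) % D + ∑ i, Y i = ∑ i, Z i ∧
    ∀ θ : ℤ, ∑ i, max (Y i - Z i - θ) 0 ≤ ∑ l, max (-((x l - c) % D) - θ) 0 ∧
      ((∃ l, θ < -((x l - c) % D)) → (∃ l, -((x l - c) % D) < θ) →
        ∑ i, max (Y i - Z i - θ) 0 < ∑ l, max (-((x l - c) % D) - θ) 0)

lemma emod_cut {D : ℕ} (hD : 0 < D) (x x0 δ : ℤ) (h0 : 0 < δ) (h1 : δ < D)
    (hne : (x0 - x) % D ≠ δ) :
    (x - (x0 - δ)) % D = δ - (x0 - x) % D + if δ ≤ (x0 - x) % D then (D : ℤ) else 0 := by
  have hD' : (0 : ℤ) < D := by exact_mod_cast hD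
  have h2 := Int.emod_nonneg (x0 - x) hD'.ne'
  have h3 := Int.emod_lt_of_pos (x0 - x) hD'
  have h4 := Int.emod_add_mul_ediv (x0 - x) D
  have h5 : x - (x0 - δ) = (δ - (x0 - x) % D + if δ ≤ (x0 - x) % D then (D : ℤ) else 0) +
      D * (-((x0 - x) / D) - if δ ≤ (x0 - x) % D then (1 : ℤ) else 0) := by
    split_ifs <;> linarith
  rw [h5, Int.add_mul_emod_self_left]
  apply Int.emod_eq_of_lt
  · split_ifs <;> omega
  · split_ifs <;> omega

section main

variable {r : ℕ} {D : ℕ}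

/-- The inequality at one cut. -/
lemma hinge_star (hD : 0 < D) (x y e : Fin r → ℤ) (hsum : ∑ l, x l + ∑ l, y l = ∑ l, e l) (x0 δ : ℤ)
    (h0 : 0 < δ) (h1 : δ < D) (hne : ∀ l, (x0 - x l) % D ≠ δ)
    (H : HingeData D x y e (x0 - δ)) :
    ∑ s ∈ range D, max ((∑ i, (y i - (s : ℤ)) / (D : ℤ) - ∑ i, ((e i - x0) - (s : ℤ)) / (D : ℤ)
      - ∑ l, (x0 - x l) / (D : ℤ)) - ((univ.filter fun l => δ ≤ (x0 - x l) % D).card : ℤ)) 0 ≤
      (∑ l, if (x0 - x l) % D < δ then (x0 - x l) % D else 0) ∧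
    ((∃ l, 0 < (x0 - x l) % D ∧ (x0 - x l) % D < δ) → (∃ l, δ < (x0 - x l) % D) →
      ∑ s ∈ range D, max ((∑ i, (y i - (s : ℤ)) / (D : ℤ) - ∑ i, ((e i - x0) - (s : ℤ)) / (D : ℤ)
      - ∑ l, (x0 - x l) / (D : ℤ)) - ((univ.filter fun l => δ ≤ (x0 - x l) % D).card : ℤ)) 0 <
      (∑ l, if (x0 - x l) % D < δ then (x0 - x l) % D else 0)) := by
  classical
  have hD' : (0 : ℤ) < D := by exact_mod_cast hD
  obtain ⟨Y, Z, ρ, hY, hZ, htot, hθ⟩ := H
  choose m hm using hY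
  choose m' hm' using hZ
  obtain ⟨k1, k2⟩ := hθ (-δ)
  have hcut : ∀ l, (x l - (x0 - δ)) % D =
      δ - (x0 - x l) % D + if δ ≤ (x0 - x l) % D then (D : ℤ) else 0 := fun l =>
    emod_cut hD (x l) x0 δ h0 h1 (hne l)
  have hdn : ∀ l, 0 ≤ (x0 - x l) % D := fun l => Int.emod_nonneg _ hD'.ne'
  have hdl : ∀ l, (x0 - x l) % D < D := fun l => Int.emod_lt_of_pos _ hD'
  -- the right hand side
  have hr : ∑ l, max (-((x l - (x0 - δ)) % D) - -δ) 0 =
      ∑ l, if (x0 - x l) % D < δ then (x0 - x l) % D else 0 := by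
    refine sum_congr rfl fun l _ => ?_
    rw [hcut l]
    have h2 := hdn l
    have h3 := hdl l
    split_ifs with h4 h5 h5
    · omega
    · exact max_eq_right (by linarith)
    · rw [max_eq_left (by linarith)]; ring
    · omega
  -- the sum of the shifts
  have hmm : ∑ i, m i - ∑ i, m' i = -∑ l, (x0 - x l) / (D : ℤ) -
      ((univ.filter fun l => δ ≤ (x0 - x l) % D).card : ℤ) := by
    have e1 : ∑ l, (x l - (x0 - δ)) % D = r * δ - ∑ l, (x0 - x l) % D +
        D * ((univ.filter fun l => δ ≤ (x0 - x l) % D).card : ℤ) := by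
      rw [sum_congr rfl fun l _ => hcut l, sum_add_distrib, sum_sub_distrib, sum_const, card_univ,
        Fintype.card_fin, nsmul_eq_mul, ← sum_filter, sum_const, nsmul_eq_mul]
      ring
    have e2 : ∑ i, Y i = ∑ i, y i + D * ∑ i, m i := by
      rw [sum_congr rfl fun i _ => hm i, sum_add_distrib, Equiv.sum_comp ρ y, mul_sum]
    have e3 : ∑ i, Z i = ∑ i, e i - r * (x0 - δ) + D * ∑ i, m' i := by
      rw [sum_congr rfl fun i _ => hm' i, sum_add_distrib, sum_sub_distrib, sum_const, card_univ,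
        Fintype.card_fin, nsmul_eq_mul, mul_sum]
    have e4 : r * x0 - ∑ l, x l = ∑ l, (x0 - x l) % D + D * ∑ l, (x0 - x l) / (D : ℤ) := by
      rw [mul_sum, ← sum_add_distrib]
      rw [sum_congr rfl fun l _ => Int.emod_add_mul_ediv (x0 - x l) D, sum_sub_distrib, sum_const,
        card_univ, Fintype.card_fin, nsmul_eq_mul]
    rw [e1, e2, e3, ← hsum] at htot
    have e5 : (D : ℤ) * (∑ i, m i - ∑ i, m' i) = D * (-∑ l, (x0 - x l) / (D : ℤ) -
      ((univ.filter fun l => δ ≤ (x0 - x l) % D).card : ℤ)) := by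
      linear_combination htot - e4
    exact mul_left_cancel₀ hD'.ne' e5
  -- the left hand side
  have hl : ∑ s ∈ range D, max ((∑ i, (y i - (s : ℤ)) / (D : ℤ) -
      ∑ i, ((e i - x0) - (s : ℤ)) / (D : ℤ)
      - ∑ l, (x0 - x l) / (D : ℤ)) - ((univ.filter fun l => δ ≤ (x0 - x l) % D).card : ℤ)) 0 ≤
      ∑ i, max (Y i - Z i - -δ) 0 := by
    have e1 : ∀ i, max (Y i - Z i - -δ) 0 = ∑ s ∈ range D,
        max ((Y i - (s : ℤ)) / (D : ℤ) - ((Z i - δ) - (s : ℤ)) / (D : ℤ)) 0 := fun i => by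
      rw [← pos_part hD]
      congr 1
      ring
    rw [sum_congr rfl fun i _ => e1 i, sum_comm]
    refine sum_le_sum fun s _ => ?_
    have e2 : ∑ i, ((Y i - (s : ℤ)) / (D : ℤ) - ((Z i - δ) - (s : ℤ)) / (D : ℤ)) =
        ∑ i, (y i - (s : ℤ)) / (D : ℤ) - ∑ i, ((e i - x0) - (s : ℤ)) / (D : ℤ) +
        (∑ i, m i - ∑ i, m' i) := by
      rw [sum_sub_distrib]
      have e3 : ∀ i, (Y i - (s : ℤ)) / (D : ℤ) = (y (ρ i) - (s : ℤ)) / (D : ℤ) + m i := fun i => by
        rw [hm i, show y (ρ i) + D * m i - (s : ℤ) = (y (ρ i) - s) + D * m i by ring,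
          Int.add_mul_ediv_left _ _ hD'.ne']
      have e4 : ∀ i, ((Z i - δ) - (s : ℤ)) / (D : ℤ) =
          ((e i - x0) - (s : ℤ)) / (D : ℤ) + m' i := fun i => by
        rw [hm' i, show e i - (x0 - δ) + D * m' i - δ - (s : ℤ) = (e i - x0 - s) + D * m' i by
          ring, Int.add_mul_ediv_left _ _ hD'.ne']
      rw [sum_congr rfl fun i _ => e3 i, sum_congr rfl fun i _ => e4 i, sum_add_distrib,
        sum_add_distrib, Equiv.sum_comp ρ fun i => (y i - (s : ℤ)) / (D : ℤ)]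
      ring
    have e5 : (∑ i, (y i - (s : ℤ)) / (D : ℤ) - ∑ i, ((e i - x0) - (s : ℤ)) / (D : ℤ)
      - ∑ l, (x0 - x l) / (D : ℤ)) - ((univ.filter fun l => δ ≤ (x0 - x l) % D).card : ℤ) =
      ∑ i, ((Y i - (s : ℤ)) / (D : ℤ) - ((Z i - δ) - (s : ℤ)) / (D : ℤ)) := by
      rw [e2, hmm]
      ring
    rw [e5]
    refine max_le (sum_le_sum fun i _ => le_max_left _ _) (sum_nonneg fun i _ => le_max_right _ _)
  rw [hr] at k1 k2
  refine ⟨hl.trans k1, ?_⟩
  rintro ⟨l, hl1, hl2⟩ ⟨l', hl'⟩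
  refine lt_of_le_of_lt hl (k2 ⟨l, ?_⟩ ⟨l', ?_⟩)
  · rw [hcut l, if_neg (by omega)]
    omega
  · rw [hcut l', if_pos (by omega)]
    have := hdl l'
    omega

/-- The quadratic inequality. -/
theorem quad_ineq (hD : 0 < D) (hD2 : (2 : ℤ) ∣ D) (x y e : Fin r → ℤ) (hx : ∀ l, 2 ∣ x l)
    (hsum : ∑ l, x l + ∑ l, y l = ∑ l, e l) (x0 : ℤ) (hx0 : 2 ∣ x0)
    (H : ∀ δ : ℤ, ¬ 2 ∣ δ → 0 < δ → δ < D → HingeData D x y e (x0 - δ)) :
    ∑ i, ∑ j, Q D (y i - y j) + ∑ i, ∑ j, Q D (e i - e j) -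
        2 * ∑ i, ∑ j, Q D (x0 + y i - e j) ≤
      ∑ i, ∑ j, Q D (x i - x j) - 2 * r * ∑ l, Q D (x0 - x l) ∧
    ((∃ l l', 0 < (x0 - x l) % D ∧ (x0 - x l) % D < (x0 - x l') % D) →
      ∑ i, ∑ j, Q D (y i - y j) + ∑ i, ∑ j, Q D (e i - e j) -
        2 * ∑ i, ∑ j, Q D (x0 + y i - e j) <
      ∑ i, ∑ j, Q D (x i - x j) - 2 * r * ∑ l, Q D (x0 - x l)) := by
  classical
  have hD' : (0 : ℤ) < D := by exact_mod_cast hD
  set d : Fin r → ℤ := fun l => (x0 - x l) % D with hd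
  set K : ℤ := ∑ l, (x0 - x l) / (D : ℤ) with hK
  set n : ℕ → ℤ := fun s => ∑ i, (y i - (s : ℤ)) / (D : ℤ) - ∑ i, ((e i - x0) - (s : ℤ)) / (D : ℤ)
    - K with hn
  set M : ℕ → ℤ := fun k => ((univ.filter fun l => ((k : ℤ) + 1 ≤ d l)).card : ℤ) with hM
  have hdn : ∀ l, 0 ≤ d l := fun l => Int.emod_nonneg _ hD'.ne'
  have hdl : ∀ l, d l < D := fun l => Int.emod_lt_of_pos _ hD'
  have hd2 : ∀ l, 2 ∣ d l := fun l =>
    (Int.dvd_emod_sub_self.trans (dvd_refl _) |> fun h => by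
      have h1 : (2 : ℤ) ∣ (x0 - x l) % D - (x0 - x l) := hD2.trans h
      have h2 : (2 : ℤ) ∣ x0 - x l := dvd_sub hx0 (hx l)
      exact (dvd_sub_left h2).1 h1)
  have hDe : D = D / 2 * 2 := by omega
  have hanti : Antitone M := by
    intro k k' hkk
    simp only [hM]
    have : (k : ℤ) ≤ k' := by exact_mod_cast hkk
    exact_mod_cast card_le_card (fun l hl => by
      rw [mem_filter] at hl ⊢
      exact ⟨hl.1, by have := hl.2; push_cast at this; omega⟩)
  have hMD : M (D - 1) = 0 := by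
    simp only [hM]
    rw [filter_false_of_mem, card_empty, Nat.cast_zero]
    intro l _
    have := hdl l
    omega
  have hsumd : ∑ i, y i - ∑ i, (e i - x0) - D * K = ∑ l, d l := by
    have e4 : r * x0 - ∑ l, x l = ∑ l, (x0 - x l) % D + D * ∑ l, (x0 - x l) / (D : ℤ) := by
      rw [mul_sum, ← sum_add_distrib]
      rw [sum_congr rfl fun l _ => Int.emod_add_mul_ediv (x0 - x l) D, sum_sub_distrib, sum_const,
        card_univ, Fintype.card_fin, nsmul_eq_mul]
    rw [sum_sub_distrib, sum_const, card_univ, Fintype.card_fin, nsmul_eq_mul, ← hsum]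
    linear_combination e4
  have hns : ∑ s ∈ range D, n s = ∑ k ∈ range D, M k := by
    rw [sum_layer d hdn hdl, ← hsumd]
    simp only [hn]
    rw [sum_sub_distrib, sum_sub_distrib, sum_comm, sum_comm (s := range D) (t := univ),
      sum_const, card_range, nsmul_eq_mul]
    have h1 := fun (u : ℤ) => sum_ediv hD u
    rw [sum_congr rfl fun i _ => h1 (y i), sum_congr rfl fun i _ => h1 (e i - x0),
      sum_add_distrib, sum_add_distrib]
    ring
  have hstar : ∀ k ∈ range D, ¬ 2 ∣ ((k : ℤ) + 1) →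
      ∑ s ∈ range D, max (n s - M k) 0 ≤ ∑ k' ∈ range D, max (M k' - M k) 0 ∧
      ((∃ l, 0 < d l ∧ d l < (k : ℤ) + 1) → (∃ l, (k : ℤ) + 1 < d l) →
      ∑ s ∈ range D, max (n s - M k) 0 < ∑ k' ∈ range D, max (M k' - M k) 0) := by
    intro k hk hk2
    have hkD := mem_range.1 hk
    rw [sum_layer_hinge d hdn hkD]
    have hlt : (k : ℤ) + 1 < D := by omega
    exact hinge_star hD x y e hsum x0 ((k : ℤ) + 1) (by positivity) hlt (fun l h => hk2 (h ▸ hd2 l))
      (H _ hk2 (by positivity) hlt)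
  have hall : ∀ k ∈ range D,
      ∑ s ∈ range D, max (n s - M k) 0 ≤ ∑ k' ∈ range D, max (M k' - M k) 0 := by
    intro k hk
    by_cases hk2 : 2 ∣ ((k : ℤ) + 1)
    · have hk0 : 1 ≤ k := by omega
      have hMk : M k = M (k - 1) := by
        simp only [hM]
        congr 2
        ext l
        simp only [mem_filter, mem_univ, true_and]
        have h3 := hd2 l
        omega
      have hk3 : ¬ 2 ∣ (((k - 1 : ℕ) : ℤ) + 1) := by omega
      rw [hMk]
      exact (hstar (k - 1) (mem_range.2 (by have := mem_range.1 hk; omega)) hk3).1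
    · exact (hstar k hk hk2).1
  obtain ⟨m1, m2⟩ := majorize hD n M hanti hMD hns hall
  have hMsq : ∑ k ∈ range D, M k ^ 2 = ∑ l, ∑ l', min (d l) (d l') := sum_layer_sq d hdn hdl
  have hnsq := sum_n_sq hD y (fun i => e i - x0) K
  rw [hsumd] at hnsq
  have hQ1 : ∑ i, ∑ j, Q D ((e i - x0) - (e j - x0)) = ∑ i, ∑ j, Q D (e i - e j) := by
    refine sum_congr rfl fun i _ => sum_congr rfl fun j _ => ?_
    congr 1
    ring
  have hQ2 : ∑ i, ∑ j, Q D (y i - (e j - x0)) = ∑ i, ∑ j, Q D (x0 + y i - e j) := by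
    refine sum_congr rfl fun i _ => sum_congr rfl fun j _ => ?_
    congr 1
    ring
  rw [hQ1, hQ2] at hnsq
  have hmin : 2 * (D : ℤ) * ∑ l, ∑ l', min (d l) (d l') = 2 * (∑ l, d l) ^ 2 +
      ∑ i, ∑ j, Q D (x i - x j) - 2 * r * ∑ l, Q D (x0 - x l) := by
    have h1 : ∀ l l', 2 * (D : ℤ) * min (d l) (d l') =
        2 * (d l * d l') + Q D (x l' - x l) - Q D (x0 - x l) - Q D (x0 - x l') := by
      intro l l'
      rw [two_mul_min (hdn l) (hdl l) (hdn l') (hdl l')]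
      have h2 : Q D (d l - d l') = Q D (x l' - x l) := by
        apply Q_congr
        have h3 : (D : ℤ) ∣ (x0 - x l) % D - (x0 - x l) := Int.dvd_emod_sub_self
        have h4 : (D : ℤ) ∣ (x0 - x l') % D - (x0 - x l') := Int.dvd_emod_sub_self
        have h5 : d l - d l' - (x l' - x l) = ((x0 - x l) % D - (x0 - x l)) -
          ((x0 - x l') % D - (x0 - x l')) := by
          simp only [hd]
          ring
        rw [h5]
        exact dvd_sub h3 h4
      have h6 : ∀ l, Q D (d l) = Q D (x0 - x l) := fun l =>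
        Q_congr Int.dvd_emod_sub_self
      rw [h2, h6, h6]
      ring
    have h7 : ∀ l, 2 * (D : ℤ) * ∑ l', min (d l) (d l') =
        2 * (d l * ∑ l', d l') + ∑ l', Q D (x l' - x l) - r * Q D (x0 - x l) -
        ∑ l', Q D (x0 - x l') := by
      intro l
      rw [mul_sum, sum_congr rfl fun l' _ => h1 l l', sum_sub_distrib, sum_sub_distrib,
        sum_add_distrib, sum_const, card_univ, Fintype.card_fin, nsmul_eq_mul, ← mul_sum,
        ← mul_sum]
    rw [mul_sum, sum_congr rfl fun l _ => h7 l, sum_sub_distrib, sum_sub_distrib,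
      sum_add_distrib, sum_const, card_univ, Fintype.card_fin, nsmul_eq_mul, ← mul_sum, ← mul_sum,
      ← sum_mul, sum_comm (f := fun l l' => Q D (x l' - x l))]
    ring
  have hD2' : (0 : ℤ) < 2 * D := by linarith
  refine ⟨?_, ?_⟩
  · have h1 := mul_le_mul_of_nonneg_left m1 hD2'.le
    rw [hMsq, hmin] at h1
    simp only [hn] at h1
    rw [hnsq] at h1
    linarith
  · rintro ⟨l, l', hl, hl'⟩
    change 0 < d l at hl
    change d l < d l' at hl'
    have h1 := mul_lt_mul_of_pos_left (m2 ⟨(d l).toNat, mem_range.2 (by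
      have := hdl l
      omega), ?_, ?_⟩) hD2'
    · rw [hMsq, hmin] at h1
      simp only [hn] at h1
      rw [hnsq] at h1
      linarith
    · have h2 : l' ∈ univ.filter fun l'' => ((((d l).toNat : ℕ) : ℤ) + 1 ≤ d l'') := by
        rw [mem_filter]
        exact ⟨mem_univ _, by omega⟩
      have h3 := card_pos.2 ⟨l', h2⟩
      simp only [hM]
      omega
    · have h2 := hd2 l
      have h3 := hd2 l'
      refine (hstar (d l).toNat (mem_range.2 (by
        have := hdl l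
        omega)) (by omega)).2 ⟨l, hl, by omega⟩ ⟨l', by omega⟩

end main

end Pool.Agent.R927
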