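import Pool.Agent.R927.Star2

set_option autoImplicit false

/-!
The inequalities for arbitrary systems.
-/

namespace Pool.Agent.R927

open Finset Pool.Agent.Y227.SS Pool.Agent.W432.PC Pool.Agent.W280.PC Polynomial

universe u

variable {R : Type u} [CommRing R] [IsDomain R] [CharZero R] {n r : ℕ}

/-- The inequalities for all systems. -/
theorem ineq_all (α : Fin n → R) (hα : ∀ i j, i ≠ j → IsUnit (α i - α j))
    (A : Fin n → Matrix (Fin r) (Fin r) R)
    (lam : Fin n → Fin r → ℚ) (phi : Fin r → ℚ)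
    (hlam : ∀ j, HasExponents (A j) (lam j)) (hphi : HasExponents (∑ j, A j) phi)
    (N : ℕ) (hN : 1 < N) (e : Fin n → Fin r → ℤ) (e' : Fin r → ℤ)
    (he : ∀ j l, (N : ℚ) * lam j l = e j l) (he' : ∀ l, (N : ℚ) * phi l = e' l)
    (a : ℤ)
    (hno : ¬ ∃ P₀ : ℕ, ∀ p : ℕ, p.Prime → P₀ < p → (N : ℤ) ∣ a * p + 1 →
      ∀ (𝔪 : Ideal R) [𝔪.IsMaximal], (p : R) ∈ 𝔪 → ¬ PCurvZeroAt α A 𝔪) :
    ∃ (σ : Fin n → Equiv.Perm (Fin r)) (τ : Equiv.Perm (Fin r)),
      (∀ j, Monotone fun l => wI N a (e j (σ j l))) ∧ (Monotone fun l => wI N a (e' (τ l))) ∧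
      ∀ (m q : ℤ) (κ : Fin n → Fin r) (s : Fin r),
        ∑ j, ∑ l, wI N a (e j l) - ∑ l, wI N a (e' l) = m * N →
        m + ∑ j, ((κ j : ℕ) : ℤ) = r * q + (s : ℕ) →
        ∑ j, wI N a (e j (σ j (κ j))) ≤ q * N + wI N a (e' (τ s)) := by
  have hN0 : 0 < N := by omega
  have hNq : (0 : ℚ) < N := by exact_mod_cast hN0
  choose σ hσ using fun j => exists_sorted a (lam j)
  obtain ⟨τ, hτ⟩ := exists_sorted a phi
  have hmono : ∀ {x y : ℚ} {u v : ℤ}, (N : ℚ) * x = u → (N : ℚ) * y = v → lexLE a x y →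
      wI N a u ≤ wI N a v := by
    intro x y u v hx hy hxy
    have h1 : wt a x ≤ wt a y := by
      rcases hxy with h | h
      · exact h.le
      · exact h.1.le
    have h2 := mul_le_mul_of_nonneg_left h1 hNq.le
    rw [wt_wI hN0 hx, wt_wI hN0 hy] at h2
    exact_mod_cast h2
  refine ⟨σ, τ, fun j l l' h => hmono (he j _) (he j _) (hσ j l l' h),
    fun l l' h => hmono (he' _) (he' _) (hτ l l' h), ?_⟩
  intro m q κ s hm hq
  by_contra hcon
  push Not at hcon
  apply hno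
  have hw : ∀ j l, wt a (lam j l) = (wI N a (e j l) : ℚ) / N := fun j l => by
    rw [← wt_wI hN0 (he j l)]; field_simp
  have hw' : ∀ l, wt a (phi l) = (wI N a (e' l) : ℚ) / N := fun l => by
    rw [← wt_wI hN0 (he' l)]; field_simp
  have hq' : ∑ j, ∑ l, wt a (lam j (σ j l)) - ∑ l, wt a (phi (τ l)) + ∑ j, ((κ j : ℕ) : ℚ) =
      q * r + (s : ℕ) := by
    have h1 : ∀ j, ∑ l, wt a (lam j (σ j l)) = ∑ l, wt a (lam j l) := fun j =>
      Equiv.sum_comp (σ j) (fun l => wt a (lam j l))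
    have h2 : ∑ l, wt a (phi (τ l)) = ∑ l, wt a (phi l) :=
      Equiv.sum_comp τ (fun l => wt a (phi l))
    rw [Finset.sum_congr rfl (fun j _ => h1 j), h2]
    simp only [hw, hw']
    have h3 := congrArg (fun x : ℤ => (x : ℚ)) hm
    have h4 := congrArg (fun x : ℤ => (x : ℚ)) hq
    push_cast at h3 h4
    simp only [← Finset.sum_div]
    rw [← sub_div, h3]
    have h5 : (m : ℚ) * N / N = m := by field_simp
    rw [h5]
    linarith
  have hlt' : q + wt a (phi (τ s)) < ∑ j, wt a (lam j (σ j (κ j))) := by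
    simp only [hw, hw']
    rw [← Finset.sum_div, lt_div_iff₀ hNq]
    have h3 : ((q * N + wI N a (e' (τ s)) : ℤ) : ℚ) < ((∑ j, wI N a (e j (σ j (κ j))) : ℤ) : ℚ) := by
      exact_mod_cast hcon
    push_cast at h3
    calc ((q : ℚ) + (wI N a (e' (τ s)) : ℚ) / N) * N = q * N + wI N a (e' (τ s)) := by field_simp
      _ < _ := h3
  obtain ⟨g, -, hg1, P₀, hP⟩ := main α hα A A (Or.inl rfl) (fun j l => lam j (σ j l))
    (fun l => phi (τ l)) (fun j => hasExponents_perm (hlam j) (σ j))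
    (hasExponents_perm hphi τ) N hN0
    (fun j l => ⟨_, he j _⟩) (fun l => ⟨_, he' _⟩) a hσ hτ κ s q hq' hlt'.le
    (fun heq => absurd heq hlt'.ne)
  have hg : g = 1 := hg1 hlt'
  refine ⟨P₀, fun p hp hpP hap 𝔪 h𝔪 hpm => hP p hp hpP hap 𝔪 hpm ?_⟩
  rw [hg]
  exact fun h1 => h𝔪.ne_top ((Ideal.eq_top_iff_one _).2 h1)

/-- If the inequality is violated, by exponents whose sum is not an integer, all the `p`-curvatures
in the residue class are nonzero. -/
theorem star_gen (hr : 0 < r) (α : Fin n → R) (hα : ∀ i j, i ≠ j → IsUnit (α i - α j))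
    (A : Fin n → Matrix (Fin r) (Fin r) R)
    (N : ℕ) (hN : 1 < N) (e : Fin n → Fin r → ℤ) (e' : Fin r → ℤ)
    (he : ∀ j, HasExponents (A j) (fun l => (e j l : ℚ) / N))
    (he' : HasExponents (∑ j, A j) (fun l => (e' l : ℚ) / N))
    (a : ℤ) (κ : Fin n → Fin r) (s : Fin r)
    (hres : ¬ (N : ℤ) ∣ a * (∑ j, e j (κ j) - e' s))
    (hviol : ∑ j, ∑ l, ((a * (e j l - e j (κ j))) % N) + ∑ l, ((a * (e' s - e' l)) % N) +
      r * ((a * (∑ j, e j (κ j) - e' s)) % N) < (r : ℤ) * N) :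
    ∃ P₀ : ℕ, ∀ p : ℕ, p.Prime → P₀ < p → (N : ℤ) ∣ a * p + 1 →
      ∀ (𝔪 : Ideal R) [𝔪.IsMaximal], (p : R) ∈ 𝔪 → ¬ PCurvZeroAt α A 𝔪 := by
  by_contra hno
  have hN0 : 0 < N := by omega
  have hN' : (0 : ℤ) < N := by exact_mod_cast hN0
  have hr' : (0 : ℤ) < r := by exact_mod_cast hr
  have htr := trace_rel A N hN e e' he he'
  obtain ⟨σ, τ, m1, m2, hI⟩ := ineq_all α hα A (fun j l => (e j l : ℚ) / N)
    (fun l => (e' l : ℚ) / N) he he' N hN e e' (fun j l => by field_simp)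
    (fun l => by field_simp) a hno
  -- the integer m
  obtain ⟨m, hm⟩ : ∃ m : ℤ, ∑ j, ∑ l, wI N a (e j l) - ∑ l, wI N a (e' l) = m * N := by
    have hd : ∀ e : Fin r → ℤ, (N : ℤ) ∣ ∑ l, wI N a (e l) - a * ∑ l, e l := by
      intro e
      rw [Finset.mul_sum, ← Finset.sum_sub_distrib]
      exact Finset.dvd_sum fun l _ => wI_mod a (e l)
    have h1 : (N : ℤ) ∣ ∑ j, (∑ l, wI N a (e j l) - a * ∑ l, e j l) :=
      Finset.dvd_sum fun j _ => hd (e j)
    obtain ⟨u1, h1⟩ := h1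
    obtain ⟨u2, h2⟩ := hd e'
    rw [Finset.sum_sub_distrib, ← Finset.mul_sum] at h1
    exact ⟨u1 - u2, by linear_combination h1 - h2 + a * htr⟩
  have hL := hI m
  -- bounds
  have bnd : ∀ (f : Fin r → ℤ) (ρ : Equiv.Perm (Fin r)) (l l' : Fin r),
      wI N a (f (ρ l)) ≤ wI N a (f (ρ l')) + N := by
    intro f ρ l l'
    have k1 := wI_le hN0 a (f (ρ l))
    have k2 := wI_nonneg hN0 a (f (ρ l'))
    linarith
  -- the staircases
  have hX : ∀ j, ∃ i, ext N hr (fun l => wI N a (e j (σ j l))) i = wI N a (e j (κ j)) ∧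
      (N : ℤ) * i = r * wI N a (e j (κ j)) + ∑ l, ((a * (e j l - e j (κ j))) % N) -
        ∑ l, wI N a (e j l) := by
    intro j
    have h0 : ext N hr (fun l => wI N a (e j (σ j l))) ((((σ j).symm (κ j) : Fin r) : ℕ) : ℤ) =
        wI N a (e j (κ j)) := by
      have := ext_apply (D := (N : ℤ)) (hr := hr) (x := fun l => wI N a (e j (σ j l)))
        ((σ j).symm (κ j)) 0
      rw [mul_zero, add_zero, mul_zero, add_zero] at this
      rw [this]
      simp
    obtain ⟨i, h1, h2⟩ := exists_min hN' (m1 j) (fun l l' => bnd (e j) (σ j) l l') h0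
    refine ⟨i, h1, ?_⟩
    rw [h2, Equiv.sum_comp (σ j) (fun l => wI N a (e j l)),
      Equiv.sum_comp (σ j) (fun l => ((wI N a (e j l) - wI N a (e j (κ j))) % (N : ℤ)))]
    congr 2
    refine Finset.sum_congr rfl fun l _ => ?_
    apply Int.ModEq.symm
    rw [Int.modEq_iff_dvd]
    obtain ⟨y1, hy1⟩ := wI_mod (D := N) a (e j l)
    obtain ⟨y2, hy2⟩ := wI_mod (D := N) a (e j (κ j))
    exact ⟨y1 - y2, by linear_combination hy1 - hy2⟩
  choose I hI1 hI2 using hX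
  set D0 : ℤ := (a * (∑ j, e j (κ j) - e' s)) % N with hD0
  have hD0' : 0 < D0 := by
    rcases (Int.emod_nonneg (a * (∑ j, e j (κ j) - e' s)) hN'.ne').lt_or_eq with h | h
    · exact h
    · exact absurd (Int.dvd_of_emod_eq_zero h.symm) hres
  set v' : ℤ := ∑ j, wI N a (e j (κ j)) - D0 with hv'
  -- v' is a value
  obtain ⟨z, hz⟩ : ∃ z, v' - wI N a (e' s) = N * z := by
    have h1 : (N : ℤ) ∣ ∑ j, (wI N a (e j (κ j)) - a * e j (κ j)) :=
      Finset.dvd_sum fun j _ => wI_mod a _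
    obtain ⟨y1, hy1⟩ := h1
    rw [Finset.sum_sub_distrib, ← Finset.mul_sum] at hy1
    obtain ⟨y2, hy2⟩ := wI_mod (D := N) a (e' s)
    have h3 := Int.mul_ediv_add_emod (a * (∑ j, e j (κ j) - e' s)) N
    rw [← hD0] at h3
    exact ⟨y1 - y2 + (a * (∑ j, e j (κ j) - e' s)) / N, by
      rw [hv']; linear_combination hy1 - hy2 - h3⟩
  have h0 : ext N hr (fun l => wI N a (e' (τ l))) (((τ.symm s : Fin r) : ℕ) + r * z) = v' := by
    rw [ext_apply]
    simp only [Equiv.apply_symm_apply]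
    linarith
  obtain ⟨k, hkv, -, hk2⟩ := exists_max hN' m2 (fun l l' => bnd e' τ l l') h0
  have hk3 : ∑ l, ((v' - wI N a (e' (τ l))) % (N : ℤ)) = ∑ l, ((a * (e' s - e' l)) % N) := by
    rw [Equiv.sum_comp τ (fun l => ((v' - wI N a (e' l)) % (N : ℤ)))]
    refine Finset.sum_congr rfl fun l _ => ?_
    apply Int.ModEq.symm
    rw [Int.modEq_iff_dvd]
    obtain ⟨y1, hy1⟩ := wI_mod (D := N) a (e' l)
    obtain ⟨y2, hy2⟩ := wI_mod (D := N) a (e' s)
    exact ⟨z + y2 - y1, by linear_combination hz + hy2 - hy1⟩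
  rw [hk3, Equiv.sum_comp τ (fun l => wI N a (e' l))] at hk2
  -- the inequality
  have hstrict : ∑ j, wI N a (e j (κ j)) ≤
      ext N hr (fun l => wI N a (e' (τ l))) (∑ j, I j + m) := by
    choose t ht1 ht2 using fun j =>
      ext_eq (D := (N : ℤ)) (hr := hr) (x := fun l => wI N a (e j (σ j l))) (I j)
    obtain ⟨t', ht1', ht2'⟩ :=
      ext_eq (D := (N : ℤ)) (hr := hr) (x := fun l => wI N a (e' (τ l))) (∑ j, I j + m)
    have hdec : ∀ j, I j = r * (I j / r) + (t j : ℕ) := fun j => by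
      rw [ht1 j]; exact (Int.mul_ediv_add_emod _ _).symm
    have hdec' : ∑ j, I j + m = r * ((∑ j, I j + m) / r) + (t' : ℕ) := by
      rw [ht1']; exact (Int.mul_ediv_add_emod _ _).symm
    have h1 := hL ((∑ j, I j + m) / r - ∑ j, (I j / r)) t t' hm (by
      have h2 : ∑ j, I j = r * ∑ j, (I j / r) + ∑ j, ((t j : ℕ) : ℤ) := by
        rw [Finset.mul_sum, ← Finset.sum_add_distrib]
        exact Finset.sum_congr rfl fun j _ => hdec j
      linear_combination hdec' - h2)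
    rw [ht2']
    have h3 : ∑ j, wI N a (e j (κ j)) = ∑ j, wI N a (e j (σ j (t j))) + N * ∑ j, (I j / r) := by
      rw [Finset.mul_sum, ← Finset.sum_add_distrib]
      refine Finset.sum_congr rfl fun j _ => ?_
      rw [← hI1 j, ht2 j]
    rw [h3]
    linarith
  have hkm : k + 1 ≤ ∑ j, I j + m := by
    by_contra hcon
    push Not at hcon
    have h1 : ∑ j, I j + m ≤ k := by linarith
    have hm2 := ext_mono (hr := hr) hN'.le m2 (fun l l' => bnd e' τ l l')
    linarith [hm2 h1]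
  have hfin := mul_le_mul_of_nonneg_left hkm hN'.le
  rw [hk2, mul_add, Finset.mul_sum, Finset.sum_congr rfl (fun j _ => hI2 j),
    Finset.sum_sub_distrib, Finset.sum_add_distrib, ← Finset.mul_sum] at hfin
  rw [hv'] at hfin
  linarith

end Pool.Agent.R927
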