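import Pool.Agent.R927.Pigeon2
import Pool.Agent.R927.StarGen

set_option autoImplicit false
set_option maxHeartbeats 4000000

/-!
The multiplier which violates the inequality: arithmetic form.
-/

namespace Pool.Agent.R927

open Finset

/-- Simultaneous approximation with a small multiplier. -/
lemma pigeonD {D : ℕ} (hD : 0 < D) {I : Type*} [Fintype I] (B : ℕ) (hB : 0 < B) (k : I → ℤ) :
    ∃ (d : ℤ) (s : I → ℤ), d ≠ 0 ∧ d.natAbs ≤ B ^ Fintype.card I ∧ (∀ i, |s i| * B < D) ∧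
      ∀ i, (D : ℤ) ∣ d * k i - s i := by
  classical
  have hD' : (0 : ℤ) < D := by exact_mod_cast hD
  have hB' : (0 : ℤ) < B := by exact_mod_cast hB
  have hx0 : ∀ (j : ℕ) (i : I), 0 ≤ (j * k i) % (D : ℤ) := fun j i => Int.emod_nonneg _ hD'.ne'
  have hx1 : ∀ (j : ℕ) (i : I), (j * k i) % (D : ℤ) < D := fun j i => Int.emod_lt_of_pos _ hD'
  let f : Fin (B ^ Fintype.card I + 1) → (I → Fin B) := fun j i =>
    ⟨((((j : ℕ) * k i) % (D : ℤ)) * B / D).toNat, by
      have h1 : ((((j : ℕ) * k i) % (D : ℤ)) * B / D) < B := by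
        refine Int.ediv_lt_of_lt_mul hD' ?_
        rw [mul_comm (B : ℤ)]
        exact mul_lt_mul_of_pos_right (hx1 j i) hB'
      have h2 : 0 ≤ ((((j : ℕ) * k i) % (D : ℤ)) * B / D) :=
        Int.ediv_nonneg (mul_nonneg (hx0 j i) hB'.le) hD'.le
      omega⟩
  obtain ⟨u1, u2, hne, hf⟩ := Fintype.exists_ne_map_eq_of_card_lt f (by
    rw [Fintype.card_fun, Fintype.card_fin, Fintype.card_fin]
    omega)
  refine ⟨((u1 : ℕ) : ℤ) - (u2 : ℕ), fun i => (((u1 : ℕ) * k i) % (D : ℤ)) -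
    (((u2 : ℕ) * k i) % (D : ℤ)), ?_, ?_, fun i => ?_, fun i => ?_⟩
  · intro h
    apply hne
    apply Fin.ext
    omega
  · have h1 := u1.2
    have h2 := u2.2
    omega
  · have h1 := congrArg (fun g : I → Fin B => ((g i : Fin B) : ℕ)) hf
    simp only [f] at h1
    have n1 : 0 ≤ ((((u1 : ℕ) * k i) % (D : ℤ)) * B / D) :=
      Int.ediv_nonneg (mul_nonneg (hx0 u1 i) hB'.le) hD'.le
    have n2 : 0 ≤ ((((u2 : ℕ) * k i) % (D : ℤ)) * B / D) :=
      Int.ediv_nonneg (mul_nonneg (hx0 u2 i) hB'.le) hD'.le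
    have h1' : ((((u1 : ℕ) * k i) % (D : ℤ)) * B / D) = ((((u2 : ℕ) * k i) % (D : ℤ)) * B / D) := by
      omega
    have h2 := Int.mul_ediv_add_emod ((((u1 : ℕ) * k i) % (D : ℤ)) * B) D
    have h3 := Int.mul_ediv_add_emod ((((u2 : ℕ) * k i) % (D : ℤ)) * B) D
    have h4 := Int.emod_lt_of_pos ((((u1 : ℕ) * k i) % (D : ℤ)) * B) hD'
    have h5 := Int.emod_lt_of_pos ((((u2 : ℕ) * k i) % (D : ℤ)) * B) hD'
    have h6 := Int.emod_nonneg ((((u1 : ℕ) * k i) % (D : ℤ)) * B) hD'.ne'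
    have h7 := Int.emod_nonneg ((((u2 : ℕ) * k i) % (D : ℤ)) * B) hD'.ne'
    rw [h1'] at h2
    rw [← abs_of_pos hB', ← abs_mul, sub_mul, abs_lt]
    constructor <;> linarith
  · have h2 := Int.mul_ediv_add_emod (((u1 : ℕ) : ℤ) * k i) D
    have h3 := Int.mul_ediv_add_emod (((u2 : ℕ) : ℤ) * k i) D
    refine ⟨((u1 : ℕ) : ℤ) * k i / D - ((u2 : ℕ) : ℤ) * k i / D, ?_⟩
    linear_combination h3 - h2

/-- A lift of a unit modulo a divisor to an integer prime to `N`. -/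
lemma lift_coprime {D N : ℕ} (hN : 0 < N) (hDN : D ∣ N) {d : ℤ} (hd : IsCoprime d (D : ℤ)) :
    ∃ a : ℤ, IsCoprime a (N : ℤ) ∧ (D : ℤ) ∣ a - d := by
  have : NeZero N := ⟨hN.ne'⟩
  have h0 : IsUnit ((d : ℤ) : ZMod D) := (ZMod.coe_int_isUnit_iff_isCoprime d D).2 hd.symm
  obtain ⟨v, hv⟩ := ZMod.unitsMap_surjective hDN h0.unit
  refine ⟨(((v : ZMod N).val : ℕ) : ℤ), Nat.isCoprime_iff_coprime.2 (ZMod.val_coe_unit_coprime v), ?_⟩
  have h1 := congrArg (fun w : (ZMod D)ˣ => (w : ZMod D)) hv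
  simp only [IsUnit.unit_spec] at h1
  rw [← ZMod.intCast_zmod_eq_zero_iff_dvd, Int.cast_sub, ← h1, ZMod.unitsMap_def, Units.coe_map]
  simp [ZMod.natCast_val]

lemma coprime_of_rough {D : ℕ} {M : ℕ} (hrough : ∀ q : ℕ, q.Prime → q ∣ D → M < q) {d : ℤ}
    (hd : d ≠ 0) (hdM : d.natAbs ≤ M) : IsCoprime d (D : ℤ) := by
  rw [Int.isCoprime_iff_gcd_eq_one]
  by_contra hcon
  obtain ⟨q, hq, hqd⟩ := Nat.exists_prime_and_dvd hcon
  have h1 : q ∣ D := by
    have : q ∣ Int.gcd d D := hqd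
    exact this.trans (by simpa using Int.gcd_dvd_natAbs_right d D)
  have h2 : q ∣ d.natAbs := hqd.trans (Int.gcd_dvd_natAbs_left d D)
  have h3 := Nat.le_of_dvd (Int.natAbs_pos.2 hd) h2
  have := hrough q hq h1
  omega

/-- The arithmetic: a multiplier which violates the inequality. -/
theorem exists_viol {n r D N₀ : ℕ} (hr : 0 < r) (hD : 0 < D) (hN₀ : 0 < N₀)
    (hrough : ∀ q : ℕ, q.Prime → q ∣ D → (4 * r ^ 2 * (n + 1)) ^ ((n + 1) * (r - 1)) < q)
    (e : Fin n → Fin r → ℤ) (e' : Fin r → ℤ) (htr : ∑ j, ∑ l, e j l = ∑ l, e' l)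
    (h1 : ∀ j l l', (N₀ : ℤ) ∣ e j l - e j l') (h2 : ∀ l l', (N₀ : ℤ) ∣ e' l - e' l')
    (κ₀ : Fin n → Fin r) (s₀ : Fin r) (h3 : ¬ (N₀ : ℤ) ∣ ∑ j, e j (κ₀ j) - e' s₀) :
    ∃ (a : ℤ) (κ : Fin n → Fin r) (s : Fin r), IsCoprime a ((N₀ * D : ℕ) : ℤ) ∧
      ¬ ((N₀ * D : ℕ) : ℤ) ∣ a * (∑ j, e j (κ j) - e' s) ∧
      ∑ j, ∑ l, ((a * (e j l - e j (κ j))) % ((N₀ * D : ℕ) : ℤ)) +
        ∑ l, ((a * (e' s - e' l)) % ((N₀ * D : ℕ) : ℤ)) +
        r * ((a * (∑ j, e j (κ j) - e' s)) % ((N₀ * D : ℕ) : ℤ)) < (r : ℤ) * ((N₀ * D : ℕ) : ℤ) := by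
  classical
  have hr' : (0 : ℤ) < r := by exact_mod_cast hr
  -- all points together
  set E : Option (Fin n) → Fin r → ℤ := fun x => x.elim (fun l => -e' l) (fun j => e j) with hE
  have hEs : ∀ j l, E (some j) l = e j l := fun j l => rfl
  have hEn : ∀ l, E none l = -e' l := fun l => rfl
  have hdiv : ∀ x l l', (N₀ : ℤ) ∣ E x l - E x l' := by
    intro x l l'
    rcases x with _ | j
    · rw [hEn, hEn]
      have := h2 l' l
      rwa [show -e' l - -e' l' = e' l' - e' l by ring]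
    · exact h1 j l l'
  have htrE : ∑ x, ∑ l, E x l = 0 := by
    rw [Fintype.sum_option]
    simp only [hEs, hEn, sum_neg_distrib]
    rw [htr]; ring
  set c₀ : Option (Fin n) → Fin r := fun x => x.elim s₀ κ₀ with hc₀
  choose k hk using fun x l => hdiv x l (c₀ x)
  -- `r` is prime to `D`
  have hrD : IsCoprime (r : ℤ) (D : ℤ) := by
    refine coprime_of_rough hrough hr'.ne' ?_
    rw [Int.natAbs_natCast]
    rcases Nat.lt_or_ge 1 r with h5 | h5
    · calc r ≤ 4 * r ^ 2 * (n + 1) := by nlinarith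
        _ = (4 * r ^ 2 * (n + 1)) ^ 1 := (pow_one _).symm
        _ ≤ _ := Nat.pow_le_pow_right (by positivity)
          (Nat.mul_pos (by omega) (by omega))
    · have h6 : r = 1 := by omega
      subst h6
      exact Nat.one_le_pow _ _ (by positivity)
  obtain ⟨r', z, hrr⟩ := hrD
  have hB0 : 0 < 4 * r ^ 2 * (n + 1) := by positivity
  have hcard : Fintype.card {y : Option (Fin n) × Fin r // y.2 ≠ c₀ y.1} = (n + 1) * (r - 1) := by
    have h4 : ∀ x : Option (Fin n), (univ.filter fun l : Fin r => l ≠ c₀ x).card = r - 1 := by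
      intro x
      rw [filter_ne' univ (c₀ x), card_erase_of_mem (mem_univ _), card_univ, Fintype.card_fin]
    rw [Fintype.card_subtype]
    have h5 : (univ.filter fun y : Option (Fin n) × Fin r => y.2 ≠ c₀ y.1).card =
        ∑ x : Option (Fin n), (univ.filter fun l : Fin r => l ≠ c₀ x).card := by
      simp only [card_filter]
      rw [← univ_product_univ, sum_product]
    rw [h5, sum_congr rfl fun x _ => h4 x, sum_const, card_univ, Fintype.card_option,
      Fintype.card_fin, smul_eq_mul]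
  obtain ⟨d, s', hd0, hd1, hs1, hs2⟩ := pigeonD (D := D) hD (4 * r ^ 2 * (n + 1)) hB0
    (fun y : {y : Option (Fin n) × Fin r // y.2 ≠ c₀ y.1} => k y.1.1 y.1.2 * r')
  rw [hcard] at hd1
  obtain ⟨a, ha, had⟩ := lift_coprime (D := D) (N := N₀ * D) (Nat.mul_pos hN₀ hD)
    (Dvd.intro_left _ rfl) (coprime_of_rough hrough hd0 hd1)
  -- extend to all indices
  set t : Option (Fin n) → Fin r → ℤ := fun x l =>
    if h : l ≠ c₀ x then s' ⟨(x, l), h⟩ else 0 with ht
  have hD1 : (0 : ℤ) < D := by exact_mod_cast hD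
  have hk0 : ∀ x, k x (c₀ x) = 0 := by
    intro x
    have := hk x (c₀ x)
    rw [sub_self] at this
    rcases mul_eq_zero.1 this.symm with h | h
    · exact absurd h (by exact_mod_cast hN₀.ne')
    · exact h
  have ht2 : ∀ x l, (D : ℤ) ∣ a * k x l - r * t x l := by
    intro x l
    obtain ⟨w, hw⟩ := had
    simp only [ht]
    split_ifs with h
    · obtain ⟨v, hv⟩ := hs2 ⟨(x, l), h⟩
      refine ⟨w * k x l + r * v + d * k x l * z, ?_⟩
      dsimp only at hv
      linear_combination k x l * hw + r * hv - d * k x l * hrr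
    · push Not at h
      rw [h, hk0]
      simp
  choose Q hQ using ht2
  have hNe : ((N₀ * D : ℕ) : ℤ) = N₀ * D := by push_cast; ring
  have hN₀' : (0 : ℤ) < N₀ := by exact_mod_cast hN₀
  obtain ⟨c, hc1, hc2⟩ := viol_core (X := Option (Fin n)) (r := r) (q := D) (N₀ := N₀) (m := n + 1)
    hr (by positivity) (by rw [Fintype.card_option, Fintype.card_fin]; push_cast; ring) hD1 hN₀'
    E htrE c₀ a t Q (by
      intro x l
      rw [hk]
      linear_combination (N₀ : ℤ) * hQ x l) (by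
      intro x l
      have h4 : |t x l| * ((4 * r ^ 2 * (n + 1) : ℕ) : ℤ) < D := by
        simp only [ht]
        split_ifs with h
        · exact hs1 ⟨(x, l), h⟩
        · simp only [abs_zero, zero_mul]; linarith
      push_cast at h4
      linarith [Int.add_one_le_iff.2 h4]) (by
      refine ha.of_isCoprime_of_dvd_right ?_
      rw [hNe]; exact Dvd.intro _ rfl) (by
      have h4 : ∑ x, E x (c₀ x) = ∑ j, e j (κ₀ j) - e' s₀ := by
        rw [Fintype.sum_option]
        simp only [hEs, hEn, hc₀, Option.elim]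
        ring
      rw [h4]; exact h3)
  have hform : ∑ x, E x (c x) = ∑ j, e j (c (some j)) - e' (c none) := by
    rw [Fintype.sum_option]
    simp only [hEs, hEn]
    ring
  refine ⟨a, fun j => c (some j), c none, ha, ?_, ?_⟩
  · rw [← hform, hNe]
    exact hc1
  · rw [← hform, hNe]
    have h4 : ∑ j, ∑ l, ((a * (e j l - e j (c (some j)))) % ((N₀ : ℤ) * D)) +
        ∑ l, ((a * (e' (c none) - e' l)) % ((N₀ : ℤ) * D)) =
        ∑ x, ∑ l, ((a * (E x l - E x (c x))) % ((N₀ : ℤ) * D)) := by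
      rw [Fintype.sum_option]
      simp only [hEs, hEn]
      rw [add_comm]
      congr 1
      refine sum_congr rfl fun l _ => ?_
      congr 2; ring
    rw [h4]
    exact hc2

end Pool.Agent.R927
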