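import Pool.Agent.R927.OPDefs
import Pool.Agent.W432.PC.Final
import Pool.Agent.TH571.PCV.Defs

set_option autoImplicit false

/-!
Definitions for systems with few nonintegral exponents away from one of the singular points.
-/

namespace Pool.Agent.R927

open Finset Pool.Agent.TH571.PCV Pool.Agent.W432.PC

/-- The number of the `D x l` with `x ≠ x₀` which are not integers. -/
def nonintAway {n r : ℕ} (x₀ : Option (Fin n)) (D : Option (Fin n) → Fin r → ℚ) : ℕ :=
  ∑ x ∈ univ.erase x₀, (univ.filter fun l => (D x l).den ≠ 1).card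

/-- One of the following holds: less than `r` of the `D x l` with `x ≠ x₀` are not integers; or some
`D x₀ k` is an integer; or the sum of `1 - gam (D x l)` over all `x ≠ x₀` and `l` is at most the sum of
`1 - gam (D x₀ k)` over all `k` plus `1 / (14 r ^ 2)`; or all the `D x l` (for all `x` and `l`) which are
not integers have denominators at least `28 r ^ 3`; or some `D x l` with `x ≠ x₀` is not an integer and
has a denominator at least as large as all the `D x₀ k`; or all the `D x l` (for all `x` and `l`) are in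
`(1 / N) ℤ` for some prime number `N`. -/
def Unbalanced {n r : ℕ} (x₀ : Option (Fin n)) (D : Option (Fin n) → Fin r → ℚ) : Prop :=
  nonintAway x₀ D < r ∨ (∃ k, (D x₀ k).den = 1) ∨
    ∑ x ∈ univ.erase x₀, ∑ l, (1 - gam (D x l)) ≤
      ∑ k, (1 - gam (D x₀ k)) + 1 / (14 * (r : ℚ) ^ 2) ∨
    (∀ x l, (D x l).den = 1 ∨ 28 * r ^ 3 ≤ (D x l).den) ∨
    (∃ x l, x ≠ x₀ ∧ (D x l).den ≠ 1 ∧ ∀ k, (D x₀ k).den ≤ (D x l).den) ∨
    ∃ N : ℕ, N.Prime ∧ ∀ x l, ∃ z : ℤ, (N : ℚ) * D x l = z

/-- Exactly `r` of the `D x l` with `x ≠ x₀` are not integers, no `D x₀ k` is an integer, and for every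
common denominator `q` of all the `D x l` and every integer `u` prime to `q` the fractional parts of the
numbers `-u D x₀ k` strictly majorize those of the numbers `u D x l`, `x ≠ x₀`. -/
def MajorAll {n r : ℕ} (x₀ : Option (Fin n)) (D : Option (Fin n) → Fin r → ℚ) : Prop :=
  nonintAway x₀ D = r ∧ (∀ k, (D x₀ k).den ≠ 1) ∧
    ∀ q : ℕ, 0 < q → (∀ x l, ∃ z : ℤ, (q : ℚ) * D x l = z) → ∀ u : ℤ, IsCoprime u (q : ℤ) →
      StrictMajor x₀ (fun x l => Int.fract ((u : ℚ) * D x l))
        (fun k => Int.fract (-((u : ℚ) * D x₀ k)))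

/-- The `D x l` are the differences of the exponents (`lam j l` at the finite points and `-phi l` at
infinity) with the numbers `ε x`, which have sum zero (the exponents of a system of rank one). -/
def IsTwist {n r : ℕ} (lam : Fin n → Fin r → ℚ) (phi : Fin r → ℚ) (ε : Option (Fin n) → ℚ)
    (D : Option (Fin n) → Fin r → ℚ) : Prop :=
  ∑ x, ε x = 0 ∧ (∀ j l, D (some j) l = lam j l - ε (some j)) ∧ ∀ l, D none l = -phi l - ε none

/-- `B` is a common denominator of the exponents. -/
def ExpDen {n r : ℕ} (lam : Fin n → Fin r → ℚ) (phi : Fin r → ℚ) (B : ℕ) : Prop :=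
  0 < B ∧ (∀ j l, ∃ m : ℤ, (B : ℚ) * lam j l = m) ∧ ∀ l, ∃ m : ℤ, (B : ℚ) * phi l = m

/-- There are a residue class modulo `B`, prime to `B` (the class of the primes `p` with `a p = -1`
modulo `B`), and a nonzero `g` such that the `p`-curvature is nonzero at every closed point of
`Spec R[1/g]` whose residue characteristic is a large prime in that class. -/
def BadMod {R : Type*} [CommRing R] {n r : ℕ} (α : Fin n → R)
    (A : Fin n → Matrix (Fin r) (Fin r) R) (B : ℕ) : Prop :=
  ∃ a : ℤ, IsCoprime a (B : ℤ) ∧ ∃ g : R, g ≠ 0 ∧ ∃ P₀ : ℕ,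
    ∀ p : ℕ, p.Prime → P₀ < p → (B : ℤ) ∣ a * p + 1 →
      ∀ (𝔪 : Ideal R) [𝔪.IsMaximal], (p : R) ∈ 𝔪 → g ∉ 𝔪 → ¬ PCurvZeroAt α A 𝔪

end Pool.Agent.R927
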