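import Pool.Agent.R927.OK10
import Pool.Agent.R340.MI.Op

set_option autoImplicit false

/-!
Majorization for families of weights of stable bundles, and for operators.
-/

namespace Pool.Agent.R927

open Finset Pool.Agent.Y227.SS Pool.Agent.TH571.PCV
open Pool.Agent.R340.HK (stableWeights_shift stableWeights_congr)
open Pool.Agent.R340.MI (stableWeights_swap)

section weights

variable {n r : ℕ}

/-- shifts at all the finite points -/
theorem shift_all {K : Type*} [Field K] {x : Fin n → Fin r → ℝ} {y : Fin r → ℝ}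
    (h : StableWeights K x y) (c : Fin n → ℝ) :
    StableWeights K (fun j l => x j l + c j) (fun l => y l + ∑ j, c j) := by
  classical
  have key : ∀ s : Finset (Fin n), StableWeights K (fun j l => x j l + if j ∈ s then c j else 0)
      (fun l => y l + ∑ j ∈ s, c j) := by
    intro s
    induction s using Finset.induction_on with
    | empty =>
      refine stableWeights_congr h (fun j l => ⟨0, ?_⟩) (fun l => ⟨0, ?_⟩)
      · simp
      · simp
    | insert a s ha ih =>
      refine stableWeights_congr (stableWeights_shift ih a (c a)) (fun j l => ⟨0, ?_⟩)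
        (fun l => ⟨0, ?_⟩)
      · by_cases hj : j = a
        · subst hj
          simp [ha]
        · simp [hj]
      · rw [sum_insert ha]
        push_cast
        ring
  refine stableWeights_congr (key univ) (fun j l => ⟨0, ?_⟩) (fun l => ⟨0, ?_⟩)
  · simp
  · simp

/-- the weights with half-integral shifts -/
theorem shifted_wdata {lam : Fin n → Fin r → ℚ} {phi : Fin r → ℚ} {B : ℕ} (hB : 0 < B)
    (hst : ∀ a : ℤ, IsCoprime a (B : ℤ) →
      StableWeights ℂ (fun j l => (a : ℝ) * lam j l) (fun l => (a : ℝ) * phi l))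
    {t : Fin n → ℚ} {N : ℕ} (hN : 0 < N) {e : Fin n → Fin r → ℤ} {e' : Fin r → ℤ}
    (hl : ∀ j l, lam j l = (e j l : ℚ) / N + t j) (hp : ∀ l, phi l = (e' l : ℚ) / N + ∑ j, t j)
    (a s : ℤ) (ha : IsCoprime a ((2 * N : ℕ) : ℤ)) :
    WData True ℂ (fun j l => ((a * (2 * e j l + s) : ℤ) : ℝ) / ((2 * N : ℕ) : ℝ))
      (fun l => ((a * (2 * e' l + ∑ _j : Fin n, s) : ℤ) : ℝ) / ((2 * N : ℕ) : ℝ)) := by
  have hNR : (N : ℝ) ≠ 0 := by exact_mod_cast hN.ne'
  obtain ⟨a', ha', hk⟩ := lift_coprime (D := 2 * N) (N := 2 * N * B)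
    (Nat.mul_pos (by omega) hB) (dvd_mul_right _ _) ha
  have ha'B : IsCoprime a' (B : ℤ) := ha'.of_isCoprime_of_dvd_right (by
    push_cast
    exact dvd_mul_left _ _)
  obtain ⟨k, hk⟩ := hk
  have haR : (a' : ℝ) = a + 2 * N * k := by
    have h1 : a' = a + ((2 * N : ℕ) : ℤ) * k := by linarith
    rw [h1]
    push_cast
    ring
  have hlR : ∀ j l, (lam j l : ℝ) = (e j l : ℝ) / N + (t j : ℝ) := fun j l => by
    rw [hl]
    push_cast
    rfl
  have hpR : ∀ l, (phi l : ℝ) = (e' l : ℝ) / N + ∑ j, (t j : ℝ) := fun l => by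
    rw [hp]
    push_cast
    rfl
  refine WData.of_stable (stableWeights_congr (shift_all (hst a' ha'B)
    (fun j => -((a' : ℝ) * t j) + (a' : ℝ) * s / (2 * N)))
    (fun j l => ⟨k * (2 * e j l + s), ?_⟩) (fun l => ⟨k * (2 * e' l + ∑ _j : Fin n, s), ?_⟩))
  · rw [hlR, haR]
    push_cast
    field_simp
    ring
  · rw [hpR, sum_add_distrib, sum_neg_distrib, ← mul_sum, sum_const, haR]
    simp only [card_univ, Fintype.card_fin, nsmul_eq_mul]
    push_cast
    rw [sum_const]
    simp only [card_univ, Fintype.card_fin, nsmul_eq_mul]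
    field_simp
    ring

/-- Majorization for the conjugates of the weights. -/
theorem major_abs {lam : Fin n → Fin r → ℚ} {phi : Fin r → ℚ} {B : ℕ} (hB : 0 < B)
    (hst : ∀ a : ℤ, IsCoprime a (B : ℤ) →
      StableWeights ℂ (fun j l => (a : ℝ) * lam j l) (fun l => (a : ℝ) * phi l))
    {t : Fin n → ℚ} {N : ℕ} (hN : 0 < N) {e : Fin n → Fin r → ℤ} {e' : Fin r → ℤ}
    (hl : ∀ j l, lam j l = (e j l : ℚ) / N + t j) (hp : ∀ l, phi l = (e' l : ℚ) / N + ∑ j, t j)
    (hr : 1 < r) (hfew : nonint lam t ≤ r) (a : ℤ) (ha : IsCoprime a ((2 * N : ℕ) : ℤ)) :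
    (univ.filter fun x : Fin n × Fin r => ¬ (N : ℤ) ∣ e x.1 x.2).card = r ∧
      (∀ k, ¬ (N : ℤ) ∣ e' k) ∧
      Major True (fun j l => (a * e j l) % N) (fun k => (a * e' k) % N) := by
  classical
  have haN : IsCoprime a (N : ℤ) := ha.of_isCoprime_of_dvd_right (by
    exact_mod_cast Dvd.intro_left 2 rfl)
  have ha2 := ha
  obtain ⟨s, v, hsv⟩ := ha2
  have has : a * s = 1 + 2 * N * (-v) := by
    push_cast at hsv
    linear_combination hsv
  obtain ⟨F, hF1, hF2, hF3⟩ := single_mult N hN a s (-v) has e e'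
    (shifted_wdata hB hst hN hl hp a s ha)
  have hw' := shifted_wdata hB hst hN hl hp (-a) (-s) ha.neg_left
  have e1 : (fun (j : Fin n) (l : Fin r) => ((-a * (2 * e j l + -s) : ℤ) : ℝ) / ((2 * N : ℕ) : ℝ)) =
      fun j l => ((a * (2 * (-e j l) + s) : ℤ) : ℝ) / ((2 * N : ℕ) : ℝ) := by
    ext j l
    congr 2
    ring
  have e2 : (fun (l : Fin r) => ((-a * (2 * e' l + ∑ _j : Fin n, -s) : ℤ) : ℝ) /
      ((2 * N : ℕ) : ℝ)) =
      fun l => ((a * (2 * (-e' l) + ∑ _j : Fin n, s) : ℤ) : ℝ) / ((2 * N : ℕ) : ℝ) := by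
    ext l
    congr 2
    rw [sum_neg_distrib]
    ring
  rw [e1, e2] at hw'
  obtain ⟨F', hF1', hF2', hF3'⟩ := single_mult N hN a s (-v) has (fun j l => -e j l)
    (fun l => -e' l) hw'
  exact major_of True True N hN a haN e e' F F' hF1 hF2 hF3 hF1' hF2' hF3'
    (by rw [← nonint_eq hN hl]; exact hfew) (Or.inr ⟨trivial, trivial, hr⟩)

/-- The contradiction in the cases of the theorem. -/
theorem few_abs {lam : Fin n → Fin r → ℚ} {phi : Fin r → ℚ} {B : ℕ} (hB : 0 < B)
    (hst : ∀ a : ℤ, IsCoprime a (B : ℤ) →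
      StableWeights ℂ (fun j l => (a : ℝ) * lam j l) (fun l => (a : ℝ) * phi l))
    (hr : 1 < r) (t : Fin n → ℚ) (hfew : nonint lam t ≤ r)
    (h : nonint lam t < r ∨ (∃ k, (phi k - ∑ j, t j).den = 1) ∨ 0 ≤ excess lam phi t ∨
      ∃ j l, (lam j l - t j).den ≠ 1 ∧ ∀ k, (phi k - ∑ j, t j).den ≤ (lam j l - t j).den) :
    False := by
  obtain ⟨N, hN, hNlam, hNphi⟩ := exists_clear lam phi t
  have hNQ : (N : ℚ) ≠ 0 := by exact_mod_cast hN.ne'
  choose e he using hNlam
  choose e' he' using hNphi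
  have hl : ∀ j l, lam j l = (e j l : ℚ) / N + t j := by
    intro j l
    rw [← he]
    field_simp
    ring
  have hp : ∀ l, phi l = (e' l : ℚ) / N + ∑ j, t j := by
    intro l
    rw [← he']
    field_simp
    ring
  exact few_arith hN (B := 2 * N) (by omega) (Dvd.intro_left 2 rfl) hl hp hr
    (fun a ha => major_abs hB hst hN hl hp hr hfew a ha) h

end weights

end Pool.Agent.R927
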