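import Pool.Agent.R927.GP2
import Pool.Agent.R927.OP

set_option autoImplicit false

/-!
The gap, continued: stable weights, large denominators.
-/

namespace Pool.Agent.R927

open Finset Pool.Agent.Y227.SS Pool.Agent.TH571.PCV

variable {n r : ℕ}

theorem gap_abs {lam : Fin n → Fin r → ℚ} {phi : Fin r → ℚ} {B : ℕ} (hB : 0 < B)
    (hst : ∀ a : ℤ, IsCoprime a (B : ℤ) →
      StableWeights ℂ (fun j l => (a : ℝ) * lam j l) (fun l => (a : ℝ) * phi l))
    (hr : 1 < r) (t : Fin n → ℚ) (hfew : nonint lam t ≤ r) :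
    14 * (r : ℚ) ^ 2 * excess lam phi t < -1 := by
  obtain ⟨N, hN, hNlam, hNphi⟩ := exists_clear lam phi t
  have hNQ : (N : ℚ) ≠ 0 := by exact_mod_cast hN.ne'
  choose e he using hNlam
  choose e' he' using hNphi
  have hl : ∀ j l, lam j l = (e j l : ℚ) / N + t j := by
    intro j l
    rw [← he]
    field_simp
    ring
  have hp : ∀ l, phi l = (e' l : ℚ) / N + ∑ j, t j := by
    intro l
    rw [← he']
    field_simp
    ring
  exact gap_arith hN (B := 2 * N) (by omega) (Dvd.intro_left 2 rfl) hl hp hr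
    (fun a ha => major_abs hB hst hN hl hp hr hfew a ha)

lemma gam_abs_le (q : ℚ) : |gam q| ≤ 1 / (q.den : ℚ) := by
  have hd : (0 : ℚ) < q.den := by exact_mod_cast q.den_pos
  have h1 : |∏ p ∈ q.den.primeFactors, (-(p : ℚ))| ≤ q.den := by
    rw [abs_prod]
    have h2 : ∏ p ∈ q.den.primeFactors, |(-(p : ℚ))| = ((∏ p ∈ q.den.primeFactors, p : ℕ) : ℚ) := by
      push_cast
      refine prod_congr rfl fun p _ => ?_
      rw [abs_neg, abs_of_nonneg (by positivity)]
    rw [h2]
    exact_mod_cast Nat.le_of_dvd q.den_pos (Nat.prod_primeFactors_dvd _)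
  unfold gam
  rw [abs_div, abs_of_pos (pow_pos hd 2), div_le_div_iff₀ (pow_pos hd 2) hd, one_mul, sq]
  exact mul_le_mul_of_nonneg_right h1 hd.le

end Pool.Agent.R927
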