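import Pool.Agent.R927.OP2
import Pool.Agent.R927.FWDefs
import Pool.Agent.R927.GP3

set_option autoImplicit false

/-!
Systems with few nonintegral exponents away from one of the singular points.
-/

namespace Pool.Agent.R927

open Finset Pool.Agent.Y227.SS Pool.Agent.TH571.PCV
open Pool.Agent.W432.PC (HasExponents PCurvZeroAt CondII)
open Pool.Agent.R340.HK (stableWeights_congr)
open Pool.Agent.R340.MI (stableWeights_swap)
open Pool.Agent.R340.SY (expo)

universe u

section abs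

variable {n r : ℕ} {lam : Fin n → Fin r → ℚ} {phi : Fin r → ℚ}

lemma IsTwist.eq {ε : Option (Fin n) → ℚ} {D : Option (Fin n) → Fin r → ℚ}
    (h : IsTwist lam phi ε D) (x : Option (Fin n)) (l : Fin r) : D x l = expo lam phi x l - ε x := by
  cases x with
  | none => exact h.2.2 l
  | some j => exact h.2.1 j l

/-- The weights, with `x₀` in the role of infinity. -/
theorem swap_stable {K : Type*} [Field K] {a : ℤ}
    (hst : StableWeights K (fun j l => (a : ℝ) * lam j l) (fun l => (a : ℝ) * phi l))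
    (x₀ : Option (Fin n)) :
    StableWeights K (fun j l => (a : ℝ) * ((expo lam phi (oth x₀ j) l : ℚ) : ℝ))
      (fun l => (a : ℝ) * ((-expo lam phi x₀ l : ℚ) : ℝ)) := by
  cases x₀ with
  | none =>
    refine stableWeights_congr hst (fun j l => ⟨0, ?_⟩) (fun l => ⟨0, ?_⟩)
    · simp [oth, expo]
    · simp [expo]
  | some j0 =>
    refine stableWeights_congr (stableWeights_swap hst j0) (fun j l => ⟨0, ?_⟩) (fun l => ⟨0, ?_⟩)
    · by_cases hj : j = j0
      · subst hj
        simp [oth, expo]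
      · have h1 : oth (some j0) j = some j := by
          unfold oth
          rw [Equiv.swap_apply_of_ne_of_ne (by simp) (by simpa using hj)]
        rw [h1]
        simp [expo, hj]
    · simp [expo]

/-- **Stable weights with few nonintegral exponents away from one point.** -/
theorem abs_five {B : ℕ} (hB : 0 < B) (hst : ∀ a : ℤ, IsCoprime a (B : ℤ) →
      StableWeights ℂ (fun j l => (a : ℝ) * lam j l) (fun l => (a : ℝ) * phi l)) (hr : 1 < r)
    (x₀ : Option (Fin n)) {ε : Option (Fin n) → ℚ} {D : Option (Fin n) → Fin r → ℚ}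
    (hD : IsTwist lam phi ε D) (hfew : nonintAway x₀ D ≤ r) :
    MajorAll x₀ D ∧
    ∑ k, (1 - gam (D x₀ k)) + 1 / (14 * (r : ℚ) ^ 2) <
      ∑ x ∈ univ.erase x₀, ∑ l, (1 - gam (D x l)) ∧
    ∀ x l, x ≠ x₀ → (D x l).den ≠ 1 → ∃ k, (D x l).den < (D x₀ k).den := by
  classical
  have hst' := fun a ha => swap_stable (hst a ha) x₀
  set lam' : Fin n → Fin r → ℚ := fun j l => expo lam phi (oth x₀ j) l with hlam'
  set phi' : Fin r → ℚ := fun l => -expo lam phi x₀ l with hphi'
  set t : Fin n → ℚ := fun j => ε (oth x₀ j) with ht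
  have hsum : ∑ j, t j = -ε x₀ := by
    have h1 := sum_oth x₀ ε
    have h2 := add_sum_erase univ ε (mem_univ x₀)
    rw [hD.1] at h2
    rw [ht]
    simp only
    rw [h1]
    linarith
  have h1 : ∀ j l, lam' j l - t j = D (oth x₀ j) l := fun j l => by rw [hD.eq]
  have h2 : ∀ k, phi' k - ∑ j, t j = -D x₀ k := fun k => by
    rw [hsum, hD.eq, hphi']
    ring
  have hnon : nonint lam' t = nonintAway x₀ D := by
    unfold nonint
    simp only [h1]
    exact card_oth x₀ D
  have hexc : excess lam' phi' t =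
      ∑ k, (1 - gam (D x₀ k)) - ∑ x ∈ univ.erase x₀, ∑ l, (1 - gam (D x l)) := by
    unfold excess
    simp only [h1, h2, gam_neg]
    rw [sum_oth x₀ (fun x => ∑ l, (1 - gam (D x l)))]
  have hfew' : nonint lam' t ≤ r := by rw [hnon]; exact hfew
  have hgap := gap_abs (lam := lam') (phi := phi') hB hst' hr t hfew'
  rw [hexc] at hgap
  have key := fun h => few_abs (lam := lam') (phi := phi') hB hst' hr t hfew' h
  rw [hnon, hexc] at key
  simp only [h1, h2, Rat.den_neg_eq_den] at key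
  refine ⟨⟨?_, fun k hk => key (Or.inr (Or.inl ⟨k, hk⟩)), ?_⟩, ?_, ?_⟩
  · by_contra h
    exact key (Or.inl (lt_of_le_of_ne hfew h))
  · intro q hq hqD u hu
    have hqQ : (q : ℚ) ≠ 0 := by exact_mod_cast hq.ne'
    choose E hE using hqD
    have hEq : ∀ x l, D x l = (E x l : ℚ) / q := fun x l => by
      rw [← hE]
      field_simp
    have hl : ∀ j l, lam' j l = ((E (oth x₀ j) l : ℤ) : ℚ) / q + t j := by
      intro j l
      rw [← hEq, ← h1]
      ring
    have hp : ∀ l, phi' l = ((-E x₀ l : ℤ) : ℚ) / q + ∑ j, t j := by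
      intro l
      have h3 := h2 l
      rw [hEq] at h3
      push_cast
      rw [neg_div]
      linarith
    obtain ⟨a, ha, hau⟩ := lift_coprime (D := q) (N := 2 * q) (by omega) (dvd_mul_left _ _) hu
    obtain ⟨-, -, h4⟩ := major_abs (lam := lam') (phi := phi') hB hst' hq hl hp hr hfew' a ha
    have h5 : (fun (j : Fin n) (l : Fin r) => (a * E (oth x₀ j) l) % (q : ℤ)) =
        fun j l => (u * E (oth x₀ j) l) % (q : ℤ) := by
      ext j l
      exact mod_mul_congr hau _
    have h6 : (fun (k : Fin r) => (a * -E x₀ k) % (q : ℤ)) =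
        fun k => (u * -E x₀ k) % (q : ℤ) := by
      ext k
      exact mod_mul_congr hau _
    rw [h5, h6] at h4
    refine strictMajor_of x₀ hq (fun j l => ?_) (fun k => ?_) h4
    · rw [hEq, ← fract_eq hq]
    · rw [hEq, ← fract_eq hq]
      congr 1
      push_cast
      ring
  · have hr2 : (0 : ℚ) < 14 * (r : ℚ) ^ 2 := by
      have : (0 : ℚ) < r := by exact_mod_cast (by omega : 0 < r)
      positivity
    have h3 : 1 / (14 * (r : ℚ) ^ 2) < ∑ x ∈ univ.erase x₀, ∑ l, (1 - gam (D x l)) -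
        ∑ k, (1 - gam (D x₀ k)) := by
      rw [div_lt_iff₀ hr2]
      linarith
    linarith
  · intro x l hx hxl
    by_contra h
    push Not at h
    obtain ⟨j, hj⟩ := exists_oth hx
    refine key (Or.inr (Or.inr (Or.inr ⟨j, l, ?_, fun k => ?_⟩)))
    · rw [hj]
      exact hxl
    · rw [hj]
      exact h k

/-- large denominators -/
theorem large_den {x₀ : Option (Fin n)} {D : Option (Fin n) → Fin r → ℚ} (hr : 0 < r)
    (hfew : nonintAway x₀ D ≤ r) (hx₀ : ∀ k, (D x₀ k).den ≠ 1)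
    (h : ∀ x l, (D x l).den = 1 ∨ 28 * r ^ 3 ≤ (D x l).den) :
    ∑ x ∈ univ.erase x₀, ∑ l, (1 - gam (D x l)) ≤
      ∑ k, (1 - gam (D x₀ k)) + 1 / (14 * (r : ℚ) ^ 2) := by
  have hrQ : (0 : ℚ) < r := by exact_mod_cast hr
  have hbd : ∀ x l, (D x l).den ≠ 1 → |gam (D x l)| ≤ 1 / (28 * (r : ℚ) ^ 3) := by
    intro x l hxl
    refine (gam_abs_le _).trans (one_div_le_one_div_of_le (by positivity) ?_)
    exact_mod_cast (h x l).resolve_left hxl
  have h1 : ∀ x l, 1 - gam (D x l) ≤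
      if (D x l).den ≠ 1 then 1 + 1 / (28 * (r : ℚ) ^ 3) else 0 := by
    intro x l
    split_ifs with hxl
    · linarith [(abs_le.1 (hbd x l hxl)).1]
    · rw [gam_int _ (not_not.1 hxl), sub_self]
  have h2 : ∑ x ∈ univ.erase x₀, ∑ l, (1 - gam (D x l)) ≤ r * (1 + 1 / (28 * (r : ℚ) ^ 3)) := by
    refine (sum_le_sum fun x _ => sum_le_sum fun l _ => h1 x l).trans ?_
    simp only [← sum_filter, sum_const, nsmul_eq_mul, ← sum_mul]
    refine mul_le_mul_of_nonneg_right ?_ (by positivity)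
    unfold nonintAway at hfew
    exact_mod_cast hfew
  have h3 : r * (1 - 1 / (28 * (r : ℚ) ^ 3)) ≤ ∑ k, (1 - gam (D x₀ k)) := by
    have h4 : ∑ _k : Fin r, (1 - 1 / (28 * (r : ℚ) ^ 3)) ≤ ∑ k, (1 - gam (D x₀ k)) :=
      sum_le_sum fun k _ => by linarith [(abs_le.1 (hbd x₀ k (hx₀ k))).2]
    rw [sum_const, card_univ, Fintype.card_fin, nsmul_eq_mul] at h4
    exact h4
  have h5 : r * (1 + 1 / (28 * (r : ℚ) ^ 3)) =
      r * (1 - 1 / (28 * (r : ℚ) ^ 3)) + 1 / (14 * (r : ℚ) ^ 2) := by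
    field_simp
    ring
  linarith

/-- the cases -/
theorem Unbalanced.false {x₀ : Option (Fin n)} {D : Option (Fin n) → Fin r → ℚ}
    (h : Unbalanced x₀ D) (hr : 0 < r) (h1 : MajorAll x₀ D)
    (h3 : ∑ k, (1 - gam (D x₀ k)) + 1 / (14 * (r : ℚ) ^ 2) <
      ∑ x ∈ univ.erase x₀, ∑ l, (1 - gam (D x l)))
    (h4 : ∀ x l, x ≠ x₀ → (D x l).den ≠ 1 → ∃ k, (D x l).den < (D x₀ k).den) : False := by
  rcases h with h | ⟨k, hk⟩ | h | h | ⟨x, l, hx, hxl, hmax⟩ | ⟨N, hN, hND⟩
  · exact absurd h1.1 h.ne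
  · exact h1.2.1 k hk
  · exact absurd h3 (not_lt.2 h)
  · exact absurd h3 (not_lt.2 (large_den hr h1.1.le h1.2.1 h))
  · obtain ⟨k, hk⟩ := h4 x l hx hxl
    exact absurd hk (not_lt.2 (hmax k))
  · have hne : ∃ x ∈ univ.erase x₀, (univ.filter fun l => (D x l).den ≠ 1).card ≠ 0 := by
      by_contra hcon
      push Not at hcon
      have h5 := h1.1
      unfold nonintAway at h5
      rw [sum_eq_zero hcon] at h5
      omega
    obtain ⟨x, hx, hx2⟩ := hne
    obtain ⟨l, hl⟩ := card_pos.1 (Nat.pos_of_ne_zero hx2)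
    have hl2 := (mem_filter.1 hl).2
    obtain ⟨k, hk⟩ := h4 x l (ne_of_mem_erase hx) hl2
    rw [(den_prime hN (hND x l)).resolve_left hl2] at hk
    rcases den_prime hN (hND x₀ k) with h5 | h5
    · rw [h5] at hk
      exact absurd hk (not_lt.2 hN.one_lt.le)
    · rw [h5] at hk
      exact absurd hk (lt_irrefl _)

end abs

section systems

variable {R : Type u} [CommRing R] [IsDomain R] [CharZero R] [Algebra.FiniteType ℤ R] {n r : ℕ}

lemma exists_expDen (lam : Fin n → Fin r → ℚ) (phi : Fin r → ℚ) : ∃ B, ExpDen lam phi B := by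
  obtain ⟨N, hN, h1, h2⟩ := exists_clear lam phi (fun _ => 0)
  exact ⟨N, hN, fun j l => by simpa using h1 j l, fun l => by simpa using h2 l⟩

omit [IsDomain R] [CharZero R] [Algebra.FiniteType ℤ R] in
lemma BadMod.badSome {α : Fin n → R} {A : Fin n → Matrix (Fin r) (Fin r) R} {B : ℕ} (hB : 0 < B)
    (h : BadMod α A B) : BadSome α A := by
  obtain ⟨a, ha, g, hg, P₀, hP⟩ := h
  exact ⟨B, a, hB, ha, g, hg, P₀, hP⟩

theorem sys_stable (α : Fin n → R) (hα : ∀ i j, i ≠ j → IsUnit (α i - α j))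
    (A : Fin n → Matrix (Fin r) (Fin r) R) (lam : Fin n → Fin r → ℚ) (phi : Fin r → ℚ)
    (hlam : ∀ j, HasExponents (A j) (lam j)) (hphi : HasExponents (∑ j, A j) phi)
    (hirr : AbsIrreducible α A) {B : ℕ} (hB : ExpDen lam phi B) (hbad : ¬ BadMod α A B) (a : ℤ)
    (ha : IsCoprime a (B : ℤ)) :
    StableWeights ℂ (fun j l => (a : ℝ) * lam j l) (fun l => (a : ℝ) * phi l) := by
  have hinf : DenseZero α A B a := by
    intro g hg P₀
    by_contra h
    apply hbad
    refine ⟨a, ha, g, hg, P₀, fun p hp hpP hap 𝔪 h𝔪 hpm hgm hpc => h ?_⟩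
    exact ⟨p, hp, hpP, hap, 𝔪, h𝔪, hpm, hgm, hpc⟩
  have h1 := stableWeights_twist α hα A lam phi hlam hphi hirr B hB.1 hB.2.1 hB.2.2
    (fun _ => 0) a hinf
  refine stableWeights_congr h1 (fun j l => ⟨0, ?_⟩) (fun l => ⟨0, ?_⟩)
  · simp
  · simp

/-- Irreducible systems: nonzero `p`-curvatures or majorization. -/
theorem sys_major_all (hr : 1 < r) (α : Fin n → R) (hα : ∀ i j, i ≠ j → IsUnit (α i - α j))
    (A : Fin n → Matrix (Fin r) (Fin r) R) (lam : Fin n → Fin r → ℚ) (phi : Fin r → ℚ)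
    (hlam : ∀ j, HasExponents (A j) (lam j)) (hphi : HasExponents (∑ j, A j) phi)
    (hirr : AbsIrreducible α A) (x₀ : Option (Fin n)) {ε : Option (Fin n) → ℚ}
    {D : Option (Fin n) → Fin r → ℚ} (hD : IsTwist lam phi ε D) (hfew : nonintAway x₀ D ≤ r) :
    (∀ B, ExpDen lam phi B → BadMod α A B) ∨ MajorAll x₀ D := by
  by_cases h : ∀ B, ExpDen lam phi B → BadMod α A B
  · exact Or.inl h
  · right
    push Not at h
    obtain ⟨B, hB, hbad⟩ := h
    exact (abs_five hB.1 (sys_stable α hα A lam phi hlam hphi hirr hB hbad) hr x₀ hD hfew).1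

theorem sys_unbalanced (hr : 1 < r) (α : Fin n → R) (hα : ∀ i j, i ≠ j → IsUnit (α i - α j))
    (A : Fin n → Matrix (Fin r) (Fin r) R) (lam : Fin n → Fin r → ℚ) (phi : Fin r → ℚ)
    (hlam : ∀ j, HasExponents (A j) (lam j)) (hphi : HasExponents (∑ j, A j) phi)
    (hirr : AbsIrreducible α A) (x₀ : Option (Fin n)) {ε : Option (Fin n) → ℚ}
    {D : Option (Fin n) → Fin r → ℚ} (hD : IsTwist lam phi ε D) (hfew : nonintAway x₀ D ≤ r)
    (h : Unbalanced x₀ D) (B : ℕ) (hB : ExpDen lam phi B) : BadMod α A B := by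
  by_contra hbad
  obtain ⟨h1, h2, h3⟩ := abs_five hB.1 (sys_stable α hα A lam phi hlam hphi hirr hB hbad) hr x₀ hD
    hfew
  exact h.false (by omega) h1 h2 h3

theorem not_condII_of_badMod {α : Fin n → R} {A : Fin n → Matrix (Fin r) (Fin r) R}
    {lam : Fin n → Fin r → ℚ} {phi : Fin r → ℚ} (h : ∀ B, ExpDen lam phi B → BadMod α A B) :
    ¬ CondII α A := by
  obtain ⟨B, hB⟩ := exists_expDen lam phi
  exact ((h B hB).badSome hB.1).not_condII

end systems

end Pool.Agent.R927
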