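import Pool.Agent.Y227.SS.StableFinal

set_option autoImplicit false

/-!
A Bruhat decomposition for weighted flags, and the inequalities for stable parabolic bundles with
trivial underlying bundle which come from constant subbundles.
-/

namespace Pool.Agent.R927

open Finset Matrix Pool.Agent.Y227.SS

section bruhat

variable {K : Type*} [Field K] {r : ℕ}

/-- for every invertible matrix there is a basis of the row space which is adapted to two flags -/
theorem bruhat_sorted (M : Matrix (Fin r) (Fin r) K) (hM : M.det ≠ 0) :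
    ∃ (b : Matrix (Fin r) (Fin r) K) (π : Equiv.Perm (Fin r)), b.det ≠ 0 ∧
      (∀ i l, b i l ≠ 0 → l ≤ i) ∧ (∀ i l, (b * M) i l ≠ 0 → π i ≤ l) := by
  classical
  let S : Fin r → Set (Fin r → K) := fun i => {y | y i = 1 ∧ ∀ l, i < l → y l = 0}
  let P : Fin r → ℕ → Prop := fun i k => ∃ y ∈ S i, ∀ l : Fin r, l.val < k → (y ᵥ* M) l = 0
  have hinj : ∀ y : Fin r → K, y ᵥ* M = 0 → y = 0 := fun y hy =>
    Matrix.eq_zero_of_vecMul_eq_zero hM hy
  have hP0 : ∀ i, P i 0 := fun i => ⟨Pi.single i 1, ⟨by simp, fun l hl => by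
    rw [Pi.single_eq_of_ne (ne_of_gt hl)]⟩, fun l hl => absurd hl (Nat.not_lt_zero _)⟩
  have hPr : ∀ i, ¬ P i r := by
    rintro i ⟨y, hy, h⟩
    have h1 : y = 0 := hinj y (by
      ext l
      exact h l l.isLt)
    have h2 := hy.1
    rw [h1] at h2
    simp at h2
  let k : Fin r → ℕ := fun i => Nat.findGreatest (P i) r
  have hk : ∀ i, P i (k i) := fun i => Nat.findGreatest_spec (Nat.zero_le r) (hP0 i)
  have hk1 : ∀ i, k i < r := fun i => lt_of_le_of_ne (Nat.findGreatest_le r) fun h => by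
    have := hk i
    rw [h] at this
    exact hPr i this
  have hk2 : ∀ i, ¬ P i (k i + 1) := fun i =>
    Nat.findGreatest_is_greatest (Nat.lt_succ_self _) (hk1 i)
  choose y hy hyM using hk
  have hne : ∀ i, (y i ᵥ* M) ⟨k i, hk1 i⟩ ≠ 0 := by
    intro i h0
    refine hk2 i ⟨y i, hy i, fun l hl => ?_⟩
    rcases Nat.lt_succ_iff_lt_or_eq.1 hl with h | h
    · exact hyM i l h
    · have : l = ⟨k i, hk1 i⟩ := Fin.ext h
      rw [this]
      exact h0
  have hki : Function.Injective fun i => (⟨k i, hk1 i⟩ : Fin r) := by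
    have key : ∀ i i', i' < i → (⟨k i, hk1 i⟩ : Fin r) ≠ ⟨k i', hk1 i'⟩ := by
      intro i i' hlt heq
      have hkk : k i = k i' := congrArg Fin.val heq
      refine hk2 i ⟨y i - ((y i ᵥ* M) ⟨k i, hk1 i⟩ / (y i' ᵥ* M) ⟨k i, hk1 i⟩) • y i', ⟨?_, ?_⟩,
        fun l hl => ?_⟩
      · rw [Pi.sub_apply, Pi.smul_apply, (hy i).1, (hy i').2 i hlt, smul_zero, sub_zero]
      · intro l hl
        rw [Pi.sub_apply, Pi.smul_apply, (hy i).2 l hl, (hy i').2 l (hlt.trans hl), smul_zero,
          sub_zero]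
      · rw [Matrix.sub_vecMul, Matrix.smul_vecMul, Pi.sub_apply, Pi.smul_apply, smul_eq_mul]
        rcases Nat.lt_succ_iff_lt_or_eq.1 hl with h | h
        · rw [hyM i l h, hyM i' l (hkk ▸ h), mul_zero, sub_zero]
        · have h1 : l = ⟨k i, hk1 i⟩ := Fin.ext h
          have h2 : (y i' ᵥ* M) ⟨k i, hk1 i⟩ ≠ 0 := by
            rw [heq]
            exact hne i'
          rw [h1, div_mul_cancel₀ _ h2, sub_self]
    intro i i' heq
    rcases lt_trichotomy i i' with h | h | h
    · exact absurd heq.symm (key i' i h)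
    · exact h
    · exact absurd heq (key i i' h)
  refine ⟨Matrix.of y, Equiv.ofBijective _ (Finite.injective_iff_bijective.1 hki), ?_, ?_, ?_⟩
  · have h1 : (Matrix.of y).det = ∏ i, (Matrix.of y) i i := by
      refine Matrix.det_of_isLowerTriangular _ ?_
      intro i j hij
      exact (hy i).2 j hij
    rw [h1]
    refine prod_ne_zero_iff.2 fun i _ => ?_
    rw [Matrix.of_apply, (hy i).1]
    exact one_ne_zero
  · intro i l h
    by_contra hlt
    exact h ((hy i).2 l (not_le.1 hlt))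
  · intro i l h
    by_contra hlt
    refine h ?_
    have h1 : (Matrix.of y * M) i l = (y i ᵥ* M) l := rfl
    rw [h1]
    refine hyM i l ?_
    exact not_le.1 hlt

/-- the same with weights -/
theorem bruhat (M : Matrix (Fin r) (Fin r) K) (hM : M.det ≠ 0) (e v : Fin r → ℝ) :
    ∃ (b : Matrix (Fin r) (Fin r) K) (π : Equiv.Perm (Fin r)), b.det ≠ 0 ∧
      (∀ i l, b i l ≠ 0 → e l ≤ e i) ∧ (∀ i l, (b * M) i l ≠ 0 → v (π i) ≤ v l) := by
  classical
  set σ := Tuple.sort e with hσ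
  set ρ := Tuple.sort v with hρ
  have hσm : Monotone (e ∘ σ) := Tuple.monotone_sort e
  have hρm : Monotone (v ∘ ρ) := Tuple.monotone_sort v
  obtain ⟨b, π, h1, h2, h3⟩ := bruhat_sorted (M.submatrix σ ρ) (by
    have h := Matrix.det_permute' ρ (M.submatrix σ id)
    have h' := Matrix.det_permute σ M
    rw [Matrix.submatrix_submatrix] at h
    simp only [Function.comp_id, Function.id_comp] at h
    rw [h, h']
    refine mul_ne_zero ?_ (mul_ne_zero ?_ hM)
    · rcases Int.units_eq_one_or (Equiv.Perm.sign ρ) with h | h <;> simp [h]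
    · rcases Int.units_eq_one_or (Equiv.Perm.sign σ) with h | h <;> simp [h])
  refine ⟨b.submatrix σ.symm σ.symm, (σ.symm.trans π).trans ρ, ?_, ?_, ?_⟩
  · rw [Matrix.det_submatrix_equiv_self]
    exact h1
  · intro i l h
    have h4 := h2 _ _ h
    have h5 := hσm h4
    simpa using h5
  · intro i l h
    have h4 : (b.submatrix σ.symm σ.symm * M) i l = (b * M.submatrix σ ρ) (σ.symm i) (ρ.symm l) := by
      rw [Matrix.mul_apply, Matrix.mul_apply]
      rw [← Equiv.sum_comp σ]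
      refine sum_congr rfl fun m _ => ?_
      simp
    rw [h4] at h
    have h5 := hρm (h3 _ _ h)
    simpa using h5

end bruhat

section stable

variable {K : Type*} [Field K] {r : ℕ}

lemma exists_perm_of_det {s : ℕ} {M : Matrix (Fin s) (Fin s) K} (h : M.det ≠ 0) :
    ∃ σ : Equiv.Perm (Fin s), ∀ i, M (σ i) i ≠ 0 := by
  rw [Matrix.det_apply'] at h
  obtain ⟨σ, _, hσ⟩ := exists_ne_zero_of_sum_ne_zero h
  exact ⟨σ, fun i => prod_ne_zero_iff.1 (right_ne_zero_of_mul hσ) i (mem_univ i)⟩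

lemma exists_minor_of_mul {s : ℕ} (M : Matrix (Fin s) (Fin r) K) (N : Matrix (Fin r) (Fin s) K)
    (h : M * N = 1) : ∃ J, (M.submatrix id J).det ≠ 0 := by
  have h1 := det_mul_expand M N
  rw [h, Matrix.det_one] at h1
  obtain ⟨J, _, hJ⟩ := exists_ne_zero_of_sum_ne_zero (h1 ▸ one_ne_zero)
  exact ⟨J, right_ne_zero_of_mul hJ⟩

lemma mnr_C {s : ℕ} (M : Matrix (Fin s) (Fin r) K) (J : Fin s → Fin r) :
    mnr (M.map Polynomial.C) J = Polynomial.C (M.submatrix id J).det := by
  unfold mnr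
  have h1 : (M.map Polynomial.C).submatrix id J =
      (Polynomial.C : K →+* Polynomial K).mapMatrix (M.submatrix id J) := by
    ext i j
    simp
  rw [h1, ← RingHom.map_det]

/-- The stability inequalities for the constant subbundles: `j0` and `j1` are the two finite
singular points. -/
theorem stable_const {β : Fin 2 → K} {P : Fin 2 → Matrix (Fin r) (Fin r) K}
    {w : Fin 2 → Fin r → ℝ} {e : Fin r → ℝ} (hdet : ∀ j, (P j).det ≠ 0)
    (hst : Stable β P w e) {j0 j1 : Fin 2} (hj : j0 ≠ j1) :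
    ∃ π : Equiv.Perm (Fin r), ∀ I : Finset (Fin r), 0 < I.card → I.card < r →
      ∃ A : Finset (Fin r), A.card = I.card ∧
        ∑ a ∈ A, w j0 a + ∑ i ∈ I, w j1 (π i) < ∑ i ∈ I, e i := by
  classical
  obtain ⟨b, π, hb, hbe, hbv⟩ := bruhat (P j1) (hdet j1) e (w j1)
  refine ⟨π, fun I hI hIr => ?_⟩
  set s := I.card with hs
  let ι : Fin s ↪o Fin r := I.orderEmbOfFin rfl
  let U₀ : Matrix (Fin s) (Fin r) K := b.submatrix ι id
  have hone : ∀ (X : Matrix (Fin r) (Fin r) K), b * X = 1 → U₀ * X.submatrix id ι = 1 := by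
    intro X hX
    have h1 : U₀ * X.submatrix id ι = (b * X).submatrix ι ι := by
      ext i j
      simp [U₀, Matrix.mul_apply]
    rw [h1, hX, Matrix.submatrix_one _ ι.injective]
  have hbu : IsUnit b.det := isUnit_iff_ne_zero.2 hb
  have hPu : IsUnit (P j0).det := isUnit_iff_ne_zero.2 (hdet j0)
  obtain ⟨J₁, hJ₁⟩ := exists_minor_of_mul U₀ _ (hone _ (Matrix.mul_nonsing_inv b hbu))
  obtain ⟨J₂, hJ₂⟩ := exists_minor_of_mul (U₀ * P j0) ((P j0)⁻¹ * (b⁻¹).submatrix id ι) (by
    rw [Matrix.mul_assoc, ← Matrix.mul_assoc (P j0), Matrix.mul_nonsing_inv _ hPu, Matrix.one_mul]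
    exact hone _ (Matrix.mul_nonsing_inv b hbu))
  obtain ⟨J₀, hJ₀m, hJ₀⟩ := exists_min_image
    (univ.filter fun J : Fin s → Fin r => ((U₀ * P j0).submatrix id J).det ≠ 0)
    (fun J => ∑ i, w j0 (J i)) ⟨J₂, mem_filter.2 ⟨mem_univ _, hJ₂⟩⟩
  have hJ₀d := (mem_filter.1 hJ₀m).2
  have hJ₀i : Function.Injective J₀ := by
    intro i i' hii
    by_contra hne
    exact hJ₀d (Matrix.det_zero_of_column_eq hne fun k => by simp [hii])
  have hmul : ∀ j, U₀.map Polynomial.C * (P j).map Polynomial.C =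
      (U₀ * P j).map (Polynomial.C : K →+* Polynomial K) := fun j => by
    rw [Matrix.map_mul]
  obtain ⟨J, hJ, hlt⟩ := hst s hI hIr (U₀.map Polynomial.C) ⟨J₁, by
      rw [mnr_C]
      exact (Polynomial.C_ne_zero).2 hJ₁⟩
    (fun j => if j = j0 then ∑ i, w j0 (J₀ i) else ∑ i, w j1 (π (ι i))) (by
      intro j J hJ
      rw [hmul] at hJ ⊢
      have hJ' : ((U₀ * P j).submatrix id J).det ≠ 0 := by
        intro h0
        apply hJ
        have := mnr_C (U₀ * P j) J
        rw [h0, map_zero] at this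
        exact this
      have hrm : (0 : ℝ) ≤ ((mnr ((U₀ * P j).map (Polynomial.C : K →+* Polynomial K)) J).rootMultiplicity
        (β j) : ℝ) := Nat.cast_nonneg _
      have hgoal : (if j = j0 then ∑ i, w j0 (J₀ i) else ∑ i, w j1 (π (ι i))) ≤
          ∑ i, w j (J i) := by
        split_ifs with h
        · subst h
          exact hJ₀ J (mem_filter.2 ⟨mem_univ _, hJ'⟩)
        · have h1 : j = j1 := by omega
          subst h1
          obtain ⟨σ, hσ⟩ := exists_perm_of_det hJ'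
          rw [← Equiv.sum_comp σ]
          refine sum_le_sum fun i _ => ?_
          refine hbv (ι (σ i)) (J i) ?_
          have h2 := hσ i
          simpa [U₀, Matrix.mul_apply] using h2
      linarith)
  have hJd : (U₀.submatrix id J).det ≠ 0 := by
    intro h0
    apply hJ
    rw [mnr_C, h0, map_zero]
  have hnd : (mnr (U₀.map Polynomial.C) J).natDegree = 0 := by
    rw [mnr_C]
    exact Polynomial.natDegree_C _
  rw [hnd] at hlt
  have hle : ∑ i, e (J i) ≤ ∑ i, e (ι i) := by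
    obtain ⟨σ, hσ⟩ := exists_perm_of_det hJd
    rw [← Equiv.sum_comp σ (fun i => e (ι i))]
    refine sum_le_sum fun i _ => ?_
    exact hbe _ _ (hσ i)
  have hsumI : ∀ f : Fin r → ℝ, ∑ i, f (ι i) = ∑ i ∈ I, f i := by
    intro f
    have h1 := I.map_orderEmbOfFin_univ (rfl : I.card = I.card)
    conv_rhs => rw [← h1]
    rw [sum_map]
    rfl
  refine ⟨univ.image J₀, ?_, ?_⟩
  · rw [card_image_of_injective _ hJ₀i, card_univ, Fintype.card_fin]
  · rw [sum_image fun _ _ _ _ h => hJ₀i h, ← hsumI fun i => w j1 (π i), ← hsumI e]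
    have h2 : ∑ j, (if j = j0 then ∑ i, w j0 (J₀ i) else ∑ i, w j1 (π (ι i))) =
        ∑ i, w j0 (J₀ i) + ∑ i, w j1 (π (ι i)) := by
      have h3 : j0 = 0 ∧ j1 = 1 ∨ j0 = 1 ∧ j1 = 0 := by omega
      rcases h3 with ⟨rfl, rfl⟩ | ⟨rfl, rfl⟩
      · rw [Fin.sum_univ_two]
        simp
      · rw [Fin.sum_univ_two]
        simp [add_comm]
    rw [h2] at hlt
    push_cast at hlt
    linarith

/-- The hinge inequalities. -/
theorem stable_hinge {β : Fin 2 → K} {P : Fin 2 → Matrix (Fin r) (Fin r) K}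
    {w : Fin 2 → Fin r → ℝ} {e : Fin r → ℝ} (hdet : ∀ j, (P j).det ≠ 0)
    (hsum : ∑ j, ∑ l, w j l = ∑ l, e l)
    (hst : Stable β P w e) {j0 j1 : Fin 2} (hj : j0 ≠ j1) :
    ∃ π : Equiv.Perm (Fin r), ∀ θ : ℝ,
      ∑ i, max (w j1 (π i) - e i - θ) 0 ≤ ∑ l, max (-w j0 l - θ) 0 ∧
      ((∃ l, θ < -w j0 l) → (∃ l, -w j0 l < θ) →
        ∑ i, max (w j1 (π i) - e i - θ) 0 < ∑ l, max (-w j0 l - θ) 0) := by
  classical
  obtain ⟨π, hπ⟩ := stable_const hdet hst hj
  have htot : ∑ l, w j0 l + ∑ i, w j1 (π i) = ∑ i, e i := by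
    rw [Equiv.sum_comp π (w j1), ← hsum]
    have h3 : j0 = 0 ∧ j1 = 1 ∨ j0 = 1 ∧ j1 = 0 := by omega
    rcases h3 with ⟨rfl, rfl⟩ | ⟨rfl, rfl⟩
    · rw [Fin.sum_univ_two]
    · rw [Fin.sum_univ_two, add_comm]
  refine ⟨π, fun θ => ?_⟩
  set I := univ.filter fun i => 0 < w j1 (π i) - e i - θ with hI
  have hlhs : ∑ i, max (w j1 (π i) - e i - θ) 0 = ∑ i ∈ I, (w j1 (π i) - e i - θ) := by
    rw [hI, sum_filter]
    refine sum_congr rfl fun i _ => ?_
    split_ifs with h
    · exact max_eq_left h.le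
    · exact max_eq_right (not_lt.1 h)
  have hnn : ∀ l, 0 ≤ max (-w j0 l - θ) 0 := fun l => le_max_right _ _
  rcases Nat.eq_zero_or_pos I.card with h0 | hpos
  · rw [hlhs, card_eq_zero.1 h0, sum_empty]
    refine ⟨sum_nonneg fun l _ => hnn l, fun ⟨l, hl⟩ _ => ?_⟩
    refine sum_pos' (fun l _ => hnn l) ⟨l, mem_univ l, ?_⟩
    exact lt_max_of_lt_left (by linarith)
  · rcases (card_le_univ I).lt_or_eq with hlt | heq
    · rw [Fintype.card_fin] at hlt
      obtain ⟨A, hA, hAI⟩ := hπ I hpos hlt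
      have h1 : ∑ i ∈ I, (w j1 (π i) - e i - θ) < ∑ a ∈ A, (-w j0 a - θ) := by
        rw [sum_sub_distrib, sum_sub_distrib, sum_sub_distrib, sum_const, sum_const, hA,
          sum_neg_distrib]
        linarith
      have h2 : ∑ a ∈ A, (-w j0 a - θ) ≤ ∑ l, max (-w j0 l - θ) 0 :=
        (sum_le_sum fun a _ => le_max_left _ _).trans
          (sum_le_sum_of_subset_of_nonneg (subset_univ A) fun l _ _ => hnn l)
      rw [hlhs]
      exact ⟨(h1.trans_le h2).le, fun _ _ => h1.trans_le h2⟩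
    · have hIu : I = univ := (card_eq_iff_eq_univ I).1 heq
      have h1 : ∑ i ∈ I, (w j1 (π i) - e i - θ) = ∑ l, (-w j0 l - θ) := by
        rw [hIu, sum_sub_distrib, sum_sub_distrib, sum_sub_distrib, sum_neg_distrib]
        linarith
      rw [hlhs, h1]
      refine ⟨sum_le_sum fun a _ => le_max_left _ _, fun _ ⟨l, hl⟩ => ?_⟩
      exact sum_lt_sum (fun a _ => le_max_left _ _) ⟨l, mem_univ l, lt_max_of_lt_right (by
        linarith)⟩

end stable

end Pool.Agent.R927
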