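import Pool.Agent.R927.Bru

set_option autoImplicit false

/-!
The hinge inequalities for integers.
-/

namespace Pool.Agent.R927

open Finset Matrix Pool.Agent.Y227.SS

lemma max_cast_mul (D : ℝ) (hD : 0 < D) (x y : ℝ) (k : ℤ) (h : D * x - D * y = k) :
    D * max (x - y) 0 = ((max k 0 : ℤ) : ℝ) := by
  rw [Int.cast_max, Int.cast_zero, ← h, ← mul_sub, mul_max_of_nonneg _ _ hD.le, mul_zero]

/-- the hinge inequalities for integers: `j0` and `j1` are the two finite points -/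
theorem int_hinge {r : ℕ} (D : ℕ) (hD : 0 < D) (X : Fin 2 → Fin r → ℤ) (E' : Fin r → ℤ)
    (hst : StableWeights ℂ (fun j l => (X j l : ℝ) / D) (fun l => (E' l : ℝ) / D))
    {j0 j1 : Fin 2} (hj : j0 ≠ j1) (hX0 : ∀ l, ¬ (D : ℤ) ∣ X j0 l) :
    ∃ (Y Z : Fin r → ℤ) (ρ : Equiv.Perm (Fin r)),
      (∀ i, ∃ m : ℤ, Y i = X j1 (ρ i) + D * m) ∧ (∀ i, ∃ m : ℤ, Z i = E' i + D * m) ∧
      ∑ l, X j0 l % D + ∑ i, Y i = ∑ i, Z i ∧
      ∀ θ : ℤ, ∑ i, max (Y i - Z i - θ) 0 ≤ ∑ l, max (-(X j0 l % D) - θ) 0 ∧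
        ((∃ l, θ < -(X j0 l % D)) → (∃ l, -(X j0 l % D) < θ) →
          ∑ i, max (Y i - Z i - θ) 0 < ∑ l, max (-(X j0 l % D) - θ) 0) := by
  classical
  obtain ⟨β, P, w, e, _, hdet, hw, hwx, hey, hsum, _, hst⟩ := hst
  obtain ⟨π, hπ⟩ := stable_hinge hdet hsum hst hj
  choose σ hσ using hwx
  choose m hm using hσ
  obtain ⟨σ', hσ'⟩ := hey
  choose m' hm' using hσ'
  have hDR : (0 : ℝ) < D := by exact_mod_cast hD
  have hD0 : (D : ℝ) ≠ 0 := hDR.ne'
  let W : Fin 2 → Fin r → ℤ := fun j l => X j (σ j l) + D * m j l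
  let E : Fin r → ℤ := fun l => E' (σ' l) + D * m' l
  have hW : ∀ j l, (D : ℝ) * w j l = W j l := by
    intro j l
    rw [hm j l]
    simp only [W]
    push_cast
    field_simp
  have hE : ∀ l, (D : ℝ) * e l = E l := by
    intro l
    rw [hm' l]
    simp only [E]
    push_cast
    field_simp
  have hW0 : ∀ l, W j0 l = X j0 (σ j0 l) % D := by
    intro l
    have h1 : (0 : ℝ) ≤ W j0 l := by
      rw [← hW]
      exact mul_nonneg hDR.le (hw j0 l).1
    have h2 : (W j0 l : ℝ) ≤ D := by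
      rw [← hW]
      calc (D : ℝ) * w j0 l ≤ D * 1 := mul_le_mul_of_nonneg_left (hw j0 l).2 hDR.le
        _ = D := mul_one _
    have h1' : 0 ≤ W j0 l := by exact_mod_cast h1
    have h2' : W j0 l ≤ D := by exact_mod_cast h2
    have h3 : W j0 l ≠ D := by
      intro h
      apply hX0 (σ j0 l)
      refine ⟨1 - m j0 l, ?_⟩
      simp only [W] at h
      linarith
    have h4 : W j0 l % D = X j0 (σ j0 l) % D := by
      simp only [W]
      rw [Int.add_mul_emod_self_left]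
    rw [← h4]
    exact (Int.emod_eq_of_lt h1' (lt_of_le_of_ne h2' h3)).symm
  -- the hinge inequality for integers
  have hH : ∀ θ : ℤ, ∑ i, max (W j1 (π i) - E i - θ) 0 ≤ ∑ l, max (-(X j0 l % D) - θ) 0 ∧
        ((∃ l, θ < -(X j0 l % D)) → (∃ l, -(X j0 l % D) < θ) →
          ∑ i, max (W j1 (π i) - E i - θ) 0 < ∑ l, max (-(X j0 l % D) - θ) 0) := by
    intro θ
    obtain ⟨h1, h2⟩ := hπ ((θ : ℝ) / D)
    have hl : (D : ℝ) * ∑ i, max (w j1 (π i) - e i - (θ : ℝ) / D) 0 =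
        ((∑ i, max (W j1 (π i) - E i - θ) 0 : ℤ) : ℝ) := by
      rw [mul_sum]
      push_cast
      refine sum_congr rfl fun i _ => ?_
      rw [max_cast_mul D hDR (w j1 (π i) - e i) ((θ : ℝ) / D) (W j1 (π i) - E i - θ) (by
        push_cast
        rw [mul_sub, hW, hE, mul_div_cancel₀ _ hD0])]
      push_cast
      rfl
    have hr0 : ∑ l, max (-(X j0 l % D) - θ) 0 = ∑ l, max (-W j0 l - θ) 0 := by
      rw [← Equiv.sum_comp (σ j0)]
      refine sum_congr rfl fun l _ => ?_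
      rw [hW0 l]
    have hr : (D : ℝ) * ∑ l, max (-w j0 l - (θ : ℝ) / D) 0 =
        ((∑ l, max (-(X j0 l % D) - θ) 0 : ℤ) : ℝ) := by
      rw [hr0, mul_sum]
      push_cast
      refine sum_congr rfl fun i _ => ?_
      rw [max_cast_mul D hDR (-w j0 i) ((θ : ℝ) / D) (-W j0 i - θ) (by
        push_cast
        rw [mul_neg, hW, mul_div_cancel₀ _ hD0])]
      push_cast
      rfl
    refine ⟨?_, ?_⟩
    · have h3 := mul_le_mul_of_nonneg_left h1 hDR.le
      rw [hl, hr] at h3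
      exact_mod_cast h3
    · rintro ⟨l, hl1⟩ ⟨l', hl2⟩
      have h3 : ∀ l, -(X j0 l % D : ℤ) = -W j0 ((σ j0).symm l) := by
        intro l
        rw [hW0, Equiv.apply_symm_apply]
      have h4 := h2 ⟨(σ j0).symm l, by
        rw [h3] at hl1
        have h5 : (θ : ℝ) < -(W j0 ((σ j0).symm l) : ℝ) := by exact_mod_cast hl1
        rw [← hW] at h5
        rw [div_lt_iff₀ hDR]
        linarith⟩ ⟨(σ j0).symm l', by
        rw [h3] at hl2
        have h5 : -(W j0 ((σ j0).symm l') : ℝ) < θ := by exact_mod_cast hl2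
        rw [← hW] at h5
        rw [lt_div_iff₀ hDR]
        linarith⟩
      have h5 := mul_lt_mul_of_pos_left h4 hDR
      rw [hl, hr] at h5
      exact_mod_cast h5
  refine ⟨fun i => W j1 (π (σ'.symm i)), fun i => E (σ'.symm i), (σ'.symm.trans π).trans (σ j1),
    fun i => ⟨m j1 (π (σ'.symm i)), rfl⟩, fun i => ⟨m' (σ'.symm i), ?_⟩, ?_, fun θ => ?_⟩
  · simp only [E]
    rw [Equiv.apply_symm_apply]
  · have h1 : ((∑ l, W j0 l + ∑ i, W j1 i : ℤ) : ℝ) = ((∑ i, E i : ℤ) : ℝ) := by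
      push_cast
      have h2 : ∑ i, (E i : ℝ) = D * ∑ j, ∑ l, w j l := by
        rw [hsum, mul_sum]
        exact sum_congr rfl fun i _ => (hE i).symm
      have h3 : ∀ j, ∑ l, (W j l : ℝ) = D * ∑ l, w j l := by
        intro j
        rw [mul_sum]
        exact sum_congr rfl fun i _ => (hW j i).symm
      rw [h2, h3, h3, ← mul_add]
      congr 1
      have h3 : j0 = 0 ∧ j1 = 1 ∨ j0 = 1 ∧ j1 = 0 := by omega
      rcases h3 with ⟨rfl, rfl⟩ | ⟨rfl, rfl⟩
      · rw [Fin.sum_univ_two]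
      · rw [Fin.sum_univ_two, add_comm]
    have h2 : ∑ l, W j0 l + ∑ i, W j1 i = ∑ i, E i := by exact_mod_cast h1
    have h3 : ∑ l, W j0 l = ∑ l, X j0 l % D := by
      rw [← Equiv.sum_comp (σ j0) fun l => X j0 l % D]
      exact sum_congr rfl fun l _ => hW0 l
    rw [← h3]
    have h4 : ∑ i, W j1 (π (σ'.symm i)) = ∑ i, W j1 i := by
      rw [Equiv.sum_comp σ'.symm fun i => W j1 (π i), Equiv.sum_comp π]
    have h5 : ∑ i, E (σ'.symm i) = ∑ i, E i := Equiv.sum_comp σ'.symm E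
    rw [h4, h5]
    exact h2
  · have h1 : ∑ i, max (W j1 (π (σ'.symm i)) - E (σ'.symm i) - θ) 0 =
        ∑ i, max (W j1 (π i) - E i - θ) 0 :=
      Equiv.sum_comp σ'.symm fun i => max (W j1 (π i) - E i - θ) 0
    rw [h1]
    exact hH θ

end Pool.Agent.R927
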