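import Pool.Agent.R927.FW

set_option autoImplicit false

/-!
Okubo systems.
-/

namespace Pool.Agent.R927

open Finset Pool.Agent.Y227.SS Pool.Agent.TH571.PCV
open Pool.Agent.W432.PC (HasExponents PCurvZeroAt CondII)

universe u

/-- The numbers `D` of an Okubo system, with `x₀` infinity. -/
def okD {n r : ℕ} (c : Fin r → Fin n) (μ ρ : Fin r → ℚ) : Option (Fin n) → Fin r → ℚ
  | some j => fun l => if c l = j then μ l else 0
  | none => fun l => -ρ l

theorem okubo_few {R : Type u} [CommRing R] [IsDomain R] [CharZero R] [Algebra.FiniteType ℤ R]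
    {n r : ℕ} (hr : 1 < r) (α : Fin n → R) (hα : ∀ i j, i ≠ j → IsUnit (α i - α j))
    (c : Fin r → Fin n) (M : Matrix (Fin r) (Fin r) R) (μ ρ : Fin r → ℚ)
    (hμ : ∀ j, HasExponents (okubo c M j) (fun l => if c l = j then μ l else 0))
    (hρ : HasExponents M ρ) (hirr : AbsIrreducible α (okubo c M))
    (h : (∃ l, (μ l).den = 1) ∨ (∃ k, (ρ k).den = 1) ∨
      ((∀ l, 28 * r ^ 3 ≤ (μ l).den) ∧ ∀ k, 28 * r ^ 3 ≤ (ρ k).den) ∨
      ∑ k, gam (ρ k) ≤ ∑ l, gam (μ l) + 1 / (14 * (r : ℚ) ^ 2) ∨
      (∃ l, ∀ k, (ρ k).den ≤ (μ l).den) ∨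
      ∃ N : ℕ, N.Prime ∧ (∀ l, ∃ m : ℤ, (N : ℚ) * μ l = m) ∧ ∀ k, ∃ m : ℤ, (N : ℚ) * ρ k = m)
    (B : ℕ) (hB : 0 < B) (hBμ : ∀ l, ∃ m : ℤ, (B : ℚ) * μ l = m)
    (hBρ : ∀ k, ∃ m : ℤ, (B : ℚ) * ρ k = m) : BadMod α (okubo c M) B := by
  classical
  have hM : HasExponents (∑ j, okubo c M j) ρ := by
    rw [sum_okubo]
    exact hρ
  have hD : IsTwist (fun (j : Fin n) l => if c l = j then μ l else 0) ρ (fun _ => 0)
      (okD c μ ρ) := by
    refine ⟨by simp, fun j l => ?_, fun l => ?_⟩
    · simp [okD]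
    · simp [okD]
  have hnon : nonintAway none (okD c μ ρ) = (univ.filter fun l => (μ l).den ≠ 1).card := by
    have h1 := nonint_okubo c μ
    have h2 := card_oth none (okD c μ ρ)
    have h3 : ∀ j : Fin n, oth none j = some j := fun j => by simp [oth]
    simp only [h3] at h2
    unfold nonintAway
    rw [← h2, ← h1]
    unfold nonint
    congr 1
    ext x
    simp [okD]
  have hle : (univ.filter fun l => (μ l).den ≠ 1).card ≤ r :=
    (card_le_univ _).trans (by simp)
  have hden : ExpDen (fun (j : Fin n) l => if c l = j then μ l else 0) ρ B := by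
    refine ⟨hB, fun j l => ?_, hBρ⟩
    by_cases h1 : c l = j
    · simp only [h1, if_true]
      exact hBμ l
    · simp only [h1, if_false]
      exact ⟨0, by simp⟩
  refine sys_unbalanced hr α hα (okubo c M) _ ρ hμ hM hirr none hD (by rw [hnon]; exact hle) ?_ B
    hden
  have hsum : ∀ f : ℚ → ℚ, f 0 = 0 →
      ∑ x ∈ univ.erase (none : Option (Fin n)), ∑ l, f (okD c μ ρ x l) = ∑ l, f (μ l) := by
    intro f hf
    rw [← sum_oth none (fun x => ∑ l, f (okD c μ ρ x l))]
    have h3 : ∀ j : Fin n, oth none j = some j := fun j => by simp [oth]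
    simp only [h3, okD]
    rw [sum_comm]
    refine sum_congr rfl fun l _ => ?_
    rw [sum_eq_single (c l)]
    · simp
    · intro j _ hj
      rw [if_neg (Ne.symm hj), hf]
    · intro h; exact absurd (mem_univ _) h
  rcases h with ⟨l, hl⟩ | ⟨k, hk⟩ | ⟨h1, h2⟩ | h | ⟨l, hl⟩ | ⟨N, hN, h1, h2⟩
  · left
    rw [hnon]
    have h1 : (univ.filter fun l => (μ l).den ≠ 1) ⊂ univ := by
      rw [ssubset_univ_iff]
      intro h0
      have := h0 ▸ mem_univ l
      exact (mem_filter.1 this).2 hl
    have h2 := card_lt_card h1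
    rw [card_univ, Fintype.card_fin] at h2
    exact h2
  · right; left
    exact ⟨k, by simpa [okD] using hk⟩
  · right; right; right; left
    intro x l
    cases x with
    | none => exact Or.inr (by simpa [okD] using h2 l)
    | some j =>
      by_cases h3 : c l = j
      · exact Or.inr (by simpa [okD, h3] using h1 l)
      · exact Or.inl (by simp [okD, h3])
  · right; right; left
    rw [hsum (fun q => 1 - gam q) (by rw [gam_int (0 : ℚ) (by simp)]; norm_num)]
    simp only [okD, gam_neg, sum_sub_distrib]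
    linarith
  · by_cases h0 : (μ l).den = 1
    · left
      rw [hnon]
      have h1 : (univ.filter fun l => (μ l).den ≠ 1) ⊂ univ := by
        rw [ssubset_univ_iff]
        intro h2
        have := h2 ▸ mem_univ l
        exact (mem_filter.1 this).2 h0
      have h2 := card_lt_card h1
      rw [card_univ, Fintype.card_fin] at h2
      exact h2
    · right; right; right; right; left
      refine ⟨some (c l), l, by simp, by simpa [okD] using h0, fun k => ?_⟩
      simpa [okD] using hl k
  · right; right; right; right; right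
    refine ⟨N, hN, fun x l => ?_⟩
    cases x with
    | none =>
      obtain ⟨m, hm⟩ := h2 l
      exact ⟨-m, by simp only [okD]; push_cast; rw [← hm]; ring⟩
    | some j =>
      by_cases h3 : c l = j
      · obtain ⟨m, hm⟩ := h1 l
        exact ⟨m, by simp only [okD, h3, if_true]; exact hm⟩
      · exact ⟨0, by simp [okD, h3]⟩

end Pool.Agent.R927
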