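import Pool.Agent.R927.Three2

set_option autoImplicit false

/-!
Irreducible systems with three singular points and index of rigidity at least zero, without
resonances.
-/

namespace Pool.Agent.R927

open Finset Polynomial Pool.Agent.W432.PC Pool.Agent.TH295.FO Pool.Agent.Y227.SS

universe u

/-- the trace is the sum of the exponents -/
lemma trace_eq_sum {R : Type*} [CommRing R] [IsDomain R] {r : ℕ} {M : Matrix (Fin r) (Fin r) R}
    {lam : Fin r → ℚ} (h : HasExponents M lam) :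
    algebraMap R (FractionRing R) M.trace = ∑ l, ((lam l : ℚ) : FractionRing R) := by
  rcases Nat.eq_zero_or_pos r with h0 | h0
  · subst h0
    simp [Matrix.trace]
  · unfold HasExponents at h
    have h1 := congrArg nextCoeff h
    have hinj : Function.Injective (algebraMap R (FractionRing R)) := IsFractionRing.injective _ _
    rw [nextCoeff_map hinj, prod_X_sub_C_nextCoeff] at h1
    rw [Matrix.trace_eq_neg_charpoly_nextCoeff, map_neg, h1, neg_neg]

/-- Fuchs' relation: the sums of the exponents agree -/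
lemma sum_exponents {R : Type*} [CommRing R] [IsDomain R] [CharZero R] {n r : ℕ}
    {A : Fin n → Matrix (Fin r) (Fin r) R} {lam : Fin n → Fin r → ℚ} {phi : Fin r → ℚ}
    (hlam : ∀ j, HasExponents (A j) (lam j)) (hphi : HasExponents (∑ j, A j) phi) :
    ∑ j, ∑ l, lam j l = ∑ l, phi l := by
  have hch : CharZero (FractionRing R) :=
    charZero_of_injective_algebraMap (IsFractionRing.injective R (FractionRing R))
  have h1 := trace_eq_sum hphi
  rw [Matrix.trace_sum, map_sum, sum_congr rfl fun j _ => trace_eq_sum (hlam j)] at h1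
  have h2 : ((∑ j, ∑ l, lam j l : ℚ) : FractionRing R) = ((∑ l, phi l : ℚ) : FractionRing R) := by
    push_cast
    exact h1
  exact_mod_cast h2

theorem three_final {R : Type u} [CommRing R] [IsDomain R] [CharZero R] [Algebra.FiniteType ℤ R]
    {r : ℕ} (hr : 0 < r) (α : Fin 2 → R) (hα : ∀ i j, i ≠ j → IsUnit (α i - α j))
    (A : Fin 2 → Matrix (Fin r) (Fin r) R) (hirr : AbsIrreducible α A) (N : ℕ) (hN : 1 < N)
    (e : Fin 2 → Fin r → ℤ) (e' : Fin r → ℤ) (t : Fin 2 → ℚ)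
    (hlam : ∀ j, HasExponents (A j) (fun l => (e j l : ℚ) / N + t j))
    (hphi : HasExponents (∑ j, A j) (fun l => (e' l : ℚ) / N + ∑ j, t j))
    (h1 : ∀ j i k, IsCoprime (e j i - e j k) (N : ℤ) ∨ (N : ℤ) ∣ e j i - e j k)
    (h2 : ∀ i k, IsCoprime (e' i - e' k) (N : ℤ) ∨ (N : ℤ) ∣ e' i - e' k)
    (h3 : ∀ i j k, IsCoprime (e 0 i + e 1 j - e' k) (N : ℤ))
    (h4 : (r : ℤ) ^ 2 ≤ cong N (e 0) + cong N (e 1) + cong N e') :
    ∃ (B : ℕ) (a : ℤ), 0 < B ∧ IsCoprime a (B : ℤ) ∧ ∃ g : R, g ≠ 0 ∧ ∃ P₀ : ℕ,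
      ∀ p : ℕ, p.Prime → P₀ < p → (B : ℤ) ∣ a * p + 1 →
        ∀ (𝔪 : Ideal R) [𝔪.IsMaximal], (p : R) ∈ 𝔪 → g ∉ 𝔪 → ¬ PCurvZeroAt α A 𝔪 := by
  by_contra hcon
  have hN0 : 0 < N := by omega
  have hNQ : (N : ℚ) ≠ 0 := by exact_mod_cast hN0.ne'
  -- the common denominator of `t`
  set b : ℕ := (t 0).den * (t 1).den with hb
  have hb0 : 0 < b := Nat.mul_pos (t 0).den_pos (t 1).den_pos
  have hbQ : (b : ℚ) ≠ 0 := by exact_mod_cast hb0.ne'
  have hT : ∃ T : Fin 2 → ℤ, ∀ j, t j = (T j : ℚ) / b := by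
    have h5 : ∀ j, ∃ k : ℤ, t j = (k : ℚ) / b := by
      intro j
      have h6 : ∀ j, (t j).den ∣ b := by
        intro j
        fin_cases j
        · exact Dvd.intro _ rfl
        · exact Dvd.intro_left _ rfl
      obtain ⟨c, hc⟩ := h6 j
      refine ⟨(t j).num * c, ?_⟩
      rw [eq_div_iff hbQ, hc]
      push_cast
      rw [← mul_assoc, Rat.mul_den_eq_num]
    choose T hT using h5
    exact ⟨T, hT⟩
  obtain ⟨T, hT⟩ := hT
  have hTs : ∑ j, t j = ((∑ j, T j : ℤ) : ℚ) / b := by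
    push_cast
    rw [sum_div]
    exact sum_congr rfl fun j _ => hT j
  have hsum : ∑ l, e 0 l + ∑ l, e 1 l = ∑ l, e' l := by
    have h5 := sum_exponents hlam hphi
    rw [Fin.sum_univ_two] at h5
    simp only [sum_add_distrib, ← sum_div, sum_const, card_univ, Fintype.card_fin, nsmul_eq_mul,
      Fin.sum_univ_two] at h5
    have h6 : (∑ l, (e 0 l : ℚ)) / N + (∑ l, (e 1 l : ℚ)) / N = (∑ l, (e' l : ℚ)) / N := by
      linarith
    rw [← add_div, div_left_inj' hNQ] at h6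
    exact_mod_cast h6
  rw [hTs] at hphi
  simp only [hT] at hlam
  have hB : 0 < 2 * N * b := Nat.mul_pos (by omega) hb0
  have hinf : ∀ a : ℤ, IsCoprime a ((2 * N * b : ℕ) : ℤ) → DenseZero α A (2 * N * b) a := by
    intro a ha g hg P₀
    by_contra h
    apply hcon
    refine ⟨2 * N * b, a, hB, ha, g, hg, P₀, fun p hp hpP hap 𝔪 h𝔪 hpm hgm hpc => h ?_⟩
    exact ⟨p, hp, hpP, hap, 𝔪, h𝔪, hpm, hgm, hpc⟩
  exact arith_three hN hr e e' hsum h1 h2 h3 h4 hB ⟨2 * b, by ring⟩ fun a ha j0 j1 hj τ hτ =>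
    hingeData α hα A N hN0 b hb0 T e e' hlam hphi hirr a ha (hinf a ha) hj τ hτ

end Pool.Agent.R927
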