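import Pool.Agent.R927.Fol
import Pool.Agent.R927.ThreeFinal

set_option autoImplicit false

/-!
Foliations with three invariant fibres: projectivizations of irreducible Fuchsian systems with three
singular points and index of rigidity at least zero.
-/

namespace Pool.Agent.R927

open Finset Pool.Agent.W432.PC Pool.Agent.TH295.FO Pool.Agent.Y227.SS

universe u

theorem absIrreducible_traceless {R : Type u} [CommRing R] {n m : ℕ} {α : Fin n → R}
    {A : Fin n → Matrix (Fin m) (Fin m) R} (h : AbsIrreducible α A) (u : R) :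
    AbsIrreducible α (fun j => traceless u (A j)) := by
  have h1 := absIrreducible_twist (RingHom.id R) Function.injective_id h
    (fun j => -(u * (A j).trace))
  have h2 : twist (fun j => (A j).map (RingHom.id R)) (fun j => -(u * (A j).trace)) =
      fun j => traceless u (A j) := by
    ext1 j
    unfold traceless twist
    rw [neg_smul, sub_eq_add_neg]
    congr 1
  rw [h2] at h1
  exact h1

theorem fol_three (r : ℕ)
    (R : Type u) [CommRing R] [IsDomain R] [CharZero R] [Algebra.FiniteType ℤ R]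
    (α : Fin 2 → R) (A : Fin 2 → Matrix (Fin (r + 1)) (Fin (r + 1)) R) (u : R)
    (hu : ((r + 1 : ℕ) : R) * u = 1) (hα : ∀ i j, i ≠ j → IsUnit (α i - α j))
    (hirr : AbsIrreducible α A) (N : ℕ) (hN : 1 < N)
    (e : Fin 2 → Fin (r + 1) → ℤ) (e' : Fin (r + 1) → ℤ) (t : Fin 2 → ℚ)
    (hlam : ∀ j, RationalExponents (traceless u (A j)) (fun l => (e j l : ℚ) / N + t j))
    (hphi : RationalExponents (∑ j, traceless u (A j)) (fun l => (e' l : ℚ) / N + ∑ j, t j))
    (h1 : ∀ j i k, IsCoprime (e j i - e j k) (N : ℤ) ∨ (N : ℤ) ∣ e j i - e j k)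
    (h2 : ∀ i k, IsCoprime (e' i - e' k) (N : ℤ) ∨ (N : ℤ) ∣ e' i - e' k)
    (h3 : ∀ i j k, IsCoprime (e 0 i + e 1 j - e' k) (N : ℤ))
    (h4 : ((r + 1 : ℕ) : ℤ) ^ 2 ≤ cong N (e 0) + cong N (e 1) + cong N e') :
    (∃ (B : ℕ) (a : ℤ), 0 < B ∧ IsCoprime a (B : ℤ) ∧ ∃ g : R, g ≠ 0 ∧ ∃ P₀ : ℕ,
      ∀ p : ℕ, p.Prime → P₀ < p → (B : ℤ) ∣ a * p + 1 →
        ∀ (𝔪 : Ideal R) [𝔪.IsMaximal], (p : R) ∈ 𝔪 → g ∉ 𝔪 →
        ¬ PClosed p (fol (fun i => MvPolynomial.map (Ideal.Quotient.mk 𝔪) (projField α A i)))) ∧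
    ¬ AlmostAll (projField α A) := by
  obtain ⟨B, a, hB, ha, g, hg, P₀, hP⟩ := three_final (Nat.succ_pos r) α hα
    (fun j => traceless u (A j)) (absIrreducible_traceless hirr u) N hN e e' t hlam hphi h1 h2 h3 h4
  refine ⟨⟨B, a, hB, ha, g, hg, P₀, fun p hp hpP hap 𝔪 h𝔪 hpm hgm hcl =>
    hP p hp hpP hap 𝔪 hpm hgm ?_⟩, fun hall => ?_⟩
  · rw [← projField_traceless α A u] at hcl
    exact pCurvZeroAt_of_pClosed two_pos α hα (fun j => traceless u (A j))
      (fun j => trace_traceless hu (A j)) (IsUnit.of_mul_eq_one u hu) 𝔪 hp hpm hcl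
  · rw [← projField_traceless α A u] at hall
    have hQ := qAll_of_almostAll two_pos α hα (fun j => traceless u (A j))
      (fun j => trace_traceless hu (A j)) (IsUnit.of_mul_eq_one u hu) hall
    exact not_condII_of α (fun j => traceless u (A j)) B hB a ha ⟨g, hg, P₀, hP⟩
      (condII_of_qAll hQ)

end Pool.Agent.R927
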