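import Pool.Agent.R927.FWDefs

set_option autoImplicit false

/-!
Definition for systems which need not be irreducible.
-/

namespace Pool.Agent.R927

open Finset

/-- The numbers `D x l` with `x ≠ none` which are not integers and the numbers `-D none k` do not agree
modulo `ℤ` up to their order: for some rational number `q` the number of `k` such that `-D none k - q` is
an integer is different from the number of the `D x l` with `x ≠ none` which are not integers and differ
from `q` by an integer. -/
def Differ {n r : ℕ} (D : Option (Fin n) → Fin r → ℚ) : Prop :=
  ∃ q : ℚ, (univ.filter fun k => (-D none k - q).den = 1).card ≠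
    (univ.filter fun x : Fin n × Fin r => (D (some x.1) x.2).den ≠ 1 ∧
      (D (some x.1) x.2 - q).den = 1).card

/-- One of the following holds: all the `D x l` (for all `x` and `l`) which are not integers have
denominators at least `28 r ^ 3`; or the sum of `1 - gam (D x l)` over all `x ≠ none` and `l` is at most
the sum of `1 - gam (D none k)` over all `k` plus `1 / (14 r ^ 2)`. -/
def LargeDen {n r : ℕ} (D : Option (Fin n) → Fin r → ℚ) : Prop :=
  (∀ x l, (D x l).den = 1 ∨ 28 * r ^ 3 ≤ (D x l).den) ∨
    ∑ x ∈ univ.erase none, ∑ l, (1 - Pool.Agent.TH571.PCV.gam (D x l)) ≤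
      ∑ k, (1 - Pool.Agent.TH571.PCV.gam (D none k)) + 1 / (14 * (r : ℚ) ^ 2)

end Pool.Agent.R927
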