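import Pool.Agent.R927.GP5
import Pool.Agent.R927.FW2
import Pool.Agent.R927.FW4Defs

set_option autoImplicit false

/-!
Systems which need not be irreducible.
-/

namespace Pool.Agent.R927

open Finset Pool.Agent.TH571.PCV Pool.Agent.Y227.SS
open Pool.Agent.W432.PC (HasExponents PCurvZeroAt CondII)

universe u

variable {R : Type u} [CommRing R] [IsDomain R] [CharZero R] [Algebra.FiniteType ℤ R] {n r : ℕ}

theorem sys_semi (hr : 0 < r) (α : Fin n → R) (hα : ∀ i j, i ≠ j → IsUnit (α i - α j))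
    (A : Fin n → Matrix (Fin r) (Fin r) R) (lam : Fin n → Fin r → ℚ) (phi : Fin r → ℚ)
    (hlam : ∀ j, HasExponents (A j) (lam j)) (hphi : HasExponents (∑ j, A j) phi)
    {ε : Option (Fin n) → ℚ} {D : Option (Fin n) → Fin r → ℚ} (hD : IsTwist lam phi ε D)
    (hfew : nonintAway none D ≤ r) (hz : ∀ k, (D none k).den ≠ 1) (hdiff : Differ D)
    (hlarge : LargeDen D) (N : ℕ) (hN : 0 < N) (hND : ∀ x l, ∃ m : ℤ, (N : ℚ) * D x l = m) :
    ∃ v : (ZMod N)ˣ, NonzeroFor α A N {v} := by
  classical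
  obtain ⟨hε, h1, h2⟩ := hD
  set t : Fin n → ℚ := fun j => ε (some j) with ht
  have hsum : ∑ j, t j = -ε none := by
    have h3 := Fintype.sum_option ε
    rw [hε] at h3
    rw [ht]
    linarith
  have e1 : ∀ j l, lam j l - t j = D (some j) l := fun j l => by rw [h1]
  have e2 : ∀ k, phi k - ∑ j, t j = -D none k := fun k => by
    rw [hsum, h2]
    ring
  have h3 : ∀ j : Fin n, oth none j = some j := fun j => by simp [oth]
  have hnon : nonint lam t = nonintAway none D := by
    have h4 := card_oth none D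
    unfold nonint nonintAway
    simp only [e1]
    simp only [h3] at h4
    exact h4
  obtain ⟨q, hq⟩ := hdiff
  refine few_semi_gap hr α hα A lam phi hlam hphi t (by rw [hnon]; exact hfew)
    (fun k => by rw [e2, Rat.den_neg_eq_den]; exact hz k) q (by
      simp only [e1, e2]
      exact hq) ?_ N hN (fun j l => by rw [e1]; exact hND _ _)
    (fun l => by
      obtain ⟨m, hm⟩ := hND none l
      exact ⟨-m, by rw [e2]; push_cast; rw [← hm]; ring⟩)
  have h5 : excess lam phi t =
      ∑ k, (1 - gam (D none k)) - ∑ x ∈ univ.erase none, ∑ l, (1 - gam (D x l)) := by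
    unfold excess
    simp only [e1, e2, gam_neg]
    rw [← sum_oth none (fun x => ∑ l, (1 - gam (D x l)))]
    simp only [h3]
  have h6 : ∑ x ∈ univ.erase none, ∑ l, (1 - gam (D x l)) ≤
      ∑ k, (1 - gam (D none k)) + 1 / (14 * (r : ℚ) ^ 2) := by
    rcases hlarge with h | h
    · exact large_den hr hfew hz h
    · exact h
  have hr2 : (0 : ℚ) < 14 * (r : ℚ) ^ 2 := by
    have : (0 : ℚ) < r := by exact_mod_cast hr
    positivity
  rw [h5]
  have h7 : -(1 / (14 * (r : ℚ) ^ 2)) ≤ ∑ k, (1 - gam (D none k)) -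
      ∑ x ∈ univ.erase none, ∑ l, (1 - gam (D x l)) := by linarith
  have h8 := mul_le_mul_of_nonneg_left h7 hr2.le
  have h9 : 14 * (r : ℚ) ^ 2 * -(1 / (14 * (r : ℚ) ^ 2)) = -1 := by
    field_simp
  linarith

end Pool.Agent.R927
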