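import Pool.Agent.R927.FW4

set_option autoImplicit false

/-!
Okubo systems with exponents of large denominators.
-/

namespace Pool.Agent.R927

open Finset Pool.Agent.TH571.PCV Pool.Agent.Y227.SS
open Pool.Agent.W432.PC (HasExponents PCurvZeroAt CondII)

universe u

section

variable {R : Type u} [CommRing R] {n r : ℕ}

lemma NonzeroFor.badMod [Nontrivial R] {α : Fin n → R} {A : Fin n → Matrix (Fin r) (Fin r) R} {N : ℕ} (hN : 0 < N)
    {v : (ZMod N)ˣ} (h : NonzeroFor α A N {v}) : BadMod α A N := by
  have : NeZero N := ⟨hN.ne'⟩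
  obtain ⟨P₀, hP⟩ := h
  refine ⟨((((-v⁻¹ : (ZMod N)ˣ) : ZMod N).val : ℕ) : ℤ),
    Nat.isCoprime_iff_coprime.2 (ZMod.val_coe_unit_coprime _), 1, one_ne_zero, P₀,
    fun p hp hpP hap 𝔪 h𝔪 hpm _ => hP p hp hpP v (mem_singleton_self v) ?_ 𝔪 hpm⟩
  have h1 := (ZMod.intCast_zmod_eq_zero_iff_dvd _ N).2 hap
  rw [Int.cast_add, Int.cast_mul, Int.cast_natCast, Int.cast_natCast, Int.cast_one,
    ZMod.natCast_zmod_val] at h1
  have h2 : ((v : ZMod N)) * ((-v⁻¹ : (ZMod N)ˣ) : ZMod N) = -1 := by
    rw [← Units.val_mul]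
    simp
  have h3 : (v : ZMod N) * (((-v⁻¹ : (ZMod N)ˣ) : ZMod N) * p + 1) = -p + v := by
    rw [mul_add, ← mul_assoc, h2, mul_one, neg_one_mul]
  rw [h1, mul_zero] at h3
  linear_combination h3

end

variable {R : Type u} [CommRing R] [IsDomain R] [CharZero R] [Algebra.FiniteType ℤ R] {n r : ℕ}

/-- **Okubo systems with exponents of large denominators.** -/
theorem okubo_large (hr : 1 < r) (α : Fin n → R) (hα : ∀ i j, i ≠ j → IsUnit (α i - α j))
    (c : Fin r → Fin n) (M : Matrix (Fin r) (Fin r) R) (μ ρ : Fin r → ℚ)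
    (hμ : ∀ j, HasExponents (okubo c M j) (fun l => if c l = j then μ l else 0))
    (hρ : HasExponents M ρ) (h1 : ∀ l, 28 * r ^ 3 ≤ (μ l).den) (h2 : ∀ k, 28 * r ^ 3 ≤ (ρ k).den)
    (h : AbsIrreducible α (okubo c M) ∨ ∃ q : ℚ,
      (univ.filter fun l => (μ l - q).den = 1).card ≠ (univ.filter fun k => (ρ k - q).den = 1).card)
    (B : ℕ) (hB : 0 < B) (hBμ : ∀ l, ∃ m : ℤ, (B : ℚ) * μ l = m)
    (hBρ : ∀ k, ∃ m : ℤ, (B : ℚ) * ρ k = m) : BadMod α (okubo c M) B := by
  classical
  rcases h with h | ⟨q, hq⟩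
  · exact okubo_few hr α hα c M μ ρ hμ hρ h (Or.inr (Or.inr (Or.inl ⟨h1, h2⟩))) B hB hBμ hBρ
  have hbig : 1 < 28 * r ^ 3 := by
    have : 1 ≤ r ^ 3 := Nat.one_le_pow _ _ (by omega)
    omega
  have hμ1 : ∀ l, (μ l).den ≠ 1 := fun l => by have := h1 l; omega
  have hρ1 : ∀ l, (ρ l).den ≠ 1 := fun l => by have := h2 l; omega
  have hM : HasExponents (∑ j, okubo c M j) ρ := by
    rw [sum_okubo]
    exact hρ
  have hD : IsTwist (fun (j : Fin n) l => if c l = j then μ l else 0) ρ (fun _ => 0)
      (okD c μ ρ) := by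
    refine ⟨by simp, fun j l => ?_, fun l => ?_⟩
    · simp [okD]
    · simp [okD]
  -- sums over the pairs
  have hpairs : ∀ P : ℚ → Prop, ¬ P 0 →
      (univ.filter fun x : Fin n × Fin r => P (if c x.2 = x.1 then μ x.2 else 0)).card =
        (univ.filter fun l => P (μ l)).card := by
    intro P hP
    have h3 : (univ.filter fun x : Fin n × Fin r => P (if c x.2 = x.1 then μ x.2 else 0)) =
        (univ.filter fun l => P (μ l)).map ⟨fun l => (c l, l), fun a b hab => (Prod.ext_iff.1 hab).2⟩ := by
      ext x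
      simp only [mem_filter, mem_univ, true_and, mem_map, Function.Embedding.coeFn_mk]
      constructor
      · intro h4
        by_cases h5 : c x.2 = x.1
        · rw [if_pos h5] at h4
          exact ⟨x.2, h4, Prod.ext h5 rfl⟩
        · rw [if_neg h5] at h4
          exact absurd h4 hP
      · rintro ⟨l, hl, rfl⟩
        simpa using hl
    rw [h3, card_map]
  have hnon : nonintAway none (okD c μ ρ) ≤ r := by
    have h3 : nonintAway none (okD c μ ρ) =
        (univ.filter fun x : Fin n × Fin r => (if c x.2 = x.1 then μ x.2 else 0).den ≠ 1).card := by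
      have h2 := card_oth none (okD c μ ρ)
      have h3 : ∀ j : Fin n, oth none j = some j := fun j => by simp [oth]
      simp only [h3] at h2
      unfold nonintAway
      rw [← h2]
      rfl
    have h4 := hpairs (fun q => q.den ≠ 1) (by simp)
    have h5 : (univ.filter fun x : Fin n × Fin r => (if c x.2 = x.1 then μ x.2 else 0).den ≠ 1).card
        = (univ.filter fun l => (μ l).den ≠ 1).card := by convert h4
    rw [h3, h5]
    exact (card_le_univ _).trans (by simp)
  obtain ⟨v, hv⟩ := sys_semi (by omega) α hα (okubo c M) _ ρ hμ hM hD hnon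
    (fun k => by simpa [okD] using hρ1 k) ⟨q, by
      have e1 : (univ.filter fun k => (-okD c μ ρ none k - q).den = 1) =
          univ.filter fun k => (ρ k - q).den = 1 := by
        ext k
        simp [okD]
      have e4 := hpairs (fun z => z.den ≠ 1 ∧ (z - q).den = 1) (by simp)
      have e2 : (univ.filter fun x : Fin n × Fin r => (okD c μ ρ (some x.1) x.2).den ≠ 1 ∧
          (okD c μ ρ (some x.1) x.2 - q).den = 1).card =
          (univ.filter fun l => (μ l).den ≠ 1 ∧ (μ l - q).den = 1).card := by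
        refine Eq.trans ?_ (e4.trans ?_)
        · congr 1
          ext x
          simp [okD]
        · congr 1
          ext x
          simp
      have e3 : (univ.filter fun l => (μ l).den ≠ 1 ∧ (μ l - q).den = 1) =
          univ.filter fun l => (μ l - q).den = 1 := by
        ext l
        simp [hμ1 l]
      rw [e1, e2, e3]
      exact fun h => hq h.symm⟩
    (Or.inl fun x l => by
      cases x with
      | none => exact Or.inr (by simpa [okD] using h2 l)
      | some j =>
        by_cases h3 : c l = j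
        · exact Or.inr (by simpa [okD, h3] using h1 l)
        · exact Or.inl (by simp [okD, h3])) B hB (fun x l => by
      cases x with
      | none =>
        obtain ⟨m, hm⟩ := hBρ l
        exact ⟨-m, by simp only [okD]; push_cast; rw [← hm]; ring⟩
      | some j =>
        by_cases h3 : c l = j
        · obtain ⟨m, hm⟩ := hBμ l
          exact ⟨m, by simp only [okD, h3, if_true]; exact hm⟩
        · exact ⟨0, by simp [okD, h3]⟩)
  exact hv.badMod hB

end Pool.Agent.R927
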