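import Pool.Agent.R927.PigeonFinal
import Pool.Agent.TH295.FO.Esbt

set_option autoImplicit false

/-!
Projectivizations of Fuchsian systems whose exponent differences have a denominator without small
prime factors.
-/

namespace Pool.Agent.R927

open Finset Pool.Agent.W432.PC Pool.Agent.TH295.FO

universe u

/-- for systems of trace zero, `p`-closedness of the projectivization at a closed point gives
vanishing `p`-curvature -/
theorem pCurvZeroAt_of_pClosed {R : Type*} [CommRing R] {n r : ℕ} (hn : 0 < n) (α : Fin n → R)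
    (hα : ∀ i j, i ≠ j → IsUnit (α i - α j))
    (A : Fin n → Matrix (Fin (r + 1)) (Fin (r + 1)) R) (htr : ∀ j, (A j).trace = 0)
    (hr : IsUnit ((r + 1 : ℕ) : R)) (𝔪 : Ideal R) [h𝔪 : 𝔪.IsMaximal] {p : ℕ} (hp : p.Prime)
    (hpm : (p : R) ∈ 𝔪)
    (h1 : PClosed p (fol (fun i => MvPolynomial.map (Ideal.Quotient.mk 𝔪) (projField α A i)))) :
    PCurvZeroAt α A 𝔪 := by
  have hch : CharP (R ⧸ 𝔪) p := charP_quot' 𝔪 hp hpm
  have h3 : (fun i => MvPolynomial.map (Ideal.Quotient.mk 𝔪) (projField α A i)) =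
      projField (fun j => Ideal.Quotient.mk 𝔪 (α j))
        (fun j => (A j).map (Ideal.Quotient.mk 𝔪)) := by
    ext1 i
    exact projField_map _ _ _ _
  rw [h3] at h1
  let ifld : Field (R ⧸ 𝔪) := Ideal.Quotient.field 𝔪
  refine pCurvZero_of_Q _ _ hp (Q_zero_of_trace _ _ hp hn (injective_quot hα 𝔪) ?_ ?_ h1)
  · intro j
    have h4 : ((A j).map (Ideal.Quotient.mk 𝔪)).trace = Ideal.Quotient.mk 𝔪 (A j).trace := by
      simp [Matrix.trace, map_sum]
    rw [h4, htr, map_zero]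
  · have h5 := hr.map (Ideal.Quotient.mk 𝔪)
    rw [map_natCast] at h5
    exact h5.ne_zero

/-- the exponents of the trace zero parts are rational if the foliation is closed under `p`-th
powers for almost all `p` -/
theorem fol_rational (n r : ℕ) (hn : 0 < n)
    (R : Type u) [CommRing R] [IsDomain R] [CharZero R] [Algebra.FiniteType ℤ R]
    (α : Fin n → R) (A : Fin n → Matrix (Fin (r + 1)) (Fin (r + 1)) R) (u : R)
    (hu : ((r + 1 : ℕ) : R) * u = 1) (hα : ∀ i j, i ≠ j → IsUnit (α i - α j))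
    (hall : AlmostAll (projField α A)) :
    ∃ (lam : Fin n → Fin (r + 1) → ℚ) (phi : Fin (r + 1) → ℚ),
      (∀ j, RationalExponents (traceless u (A j)) (lam j)) ∧
      RationalExponents (∑ j, traceless u (A j)) phi := by
  rw [← projField_traceless α A u] at hall
  have htr : ∀ j, (traceless u (A j)).trace = 0 := fun j => trace_traceless hu (A j)
  have hQ := qAll_of_almostAll hn α hα (fun j => traceless u (A j)) htr (IsUnit.of_mul_eq_one u hu)
    hall
  have hlam : ∀ j, ∃ lam : Fin (r + 1) → ℚ, HasExponents (traceless u (A j)) lam := fun j => by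
    obtain ⟨g, hg, h⟩ := qAll_residue hα hQ j
    exact hasExponents_of_residues (traceless u (A j)) hg h
  choose lam hlam using hlam
  obtain ⟨g, hg, hinf⟩ := qAll_infinity hn hQ
  obtain ⟨phi, hphi⟩ := hasExponents_of_residues (∑ j, traceless u (A j)) hg hinf
  exact ⟨lam, phi, hlam, hphi⟩

/-- the projectivization is not closed under `p`-th powers -/
theorem fol_point (n r : ℕ) (hn : 0 < n)
    (R : Type u) [CommRing R] [IsDomain R] [CharZero R] [Algebra.FiniteType ℤ R]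
    (α : Fin n → R) (A : Fin n → Matrix (Fin (r + 1)) (Fin (r + 1)) R) (u : R)
    (hu : ((r + 1 : ℕ) : R) * u = 1) (hα : ∀ i j, i ≠ j → IsUnit (α i - α j))
    (lam : Fin n → Fin (r + 1) → ℚ) (phi : Fin (r + 1) → ℚ)
    (hlam : ∀ j, RationalExponents (traceless u (A j)) (lam j))
    (hphi : RationalExponents (∑ j, traceless u (A j)) phi)
    (D : ℕ) (hD : 0 < D)
    (hrough : ∀ q : ℕ, q.Prime → q ∣ D → (4 * (r + 1) ^ 2 * (n + 1)) ^ ((n + 1) * r) < q)
    (h1 : ∀ j l l', ∃ m : ℤ, (D : ℚ) * (lam j l - lam j l') = m)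
    (h2 : ∀ l l', ∃ m : ℤ, (D : ℚ) * (phi l - phi l') = m)
    (κ : Fin n → Fin (r + 1)) (s : Fin (r + 1))
    (hclass : ¬ ∃ m : ℤ, (D : ℚ) * (∑ j, lam j (κ j) - phi s) = m) :
    ∃ (N : ℕ) (a : ℤ), 0 < N ∧ IsCoprime a (N : ℤ) ∧ ∃ P₀ : ℕ, ∀ p : ℕ, p.Prime → P₀ < p →
      (N : ℤ) ∣ a * p + 1 → ∀ (𝔪 : Ideal R) [𝔪.IsMaximal], (p : R) ∈ 𝔪 →
        ¬ PClosed p (fol (fun i => MvPolynomial.map (Ideal.Quotient.mk 𝔪) (projField α A i))) := by
  obtain ⟨N, a, hN, ha, P₀, hP⟩ := rough_final (Nat.succ_pos r) α hα (fun j => traceless u (A j))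
    lam phi hlam hphi D hD (by simpa using hrough) h1 h2 κ s hclass
  refine ⟨N, a, hN, ha, P₀, fun p hp hpP hap 𝔪 h𝔪 hpm hcl => hP p hp hpP hap 𝔪 hpm ?_⟩
  rw [← projField_traceless α A u] at hcl
  exact pCurvZeroAt_of_pClosed hn α hα (fun j => traceless u (A j))
    (fun j => trace_traceless hu (A j)) (IsUnit.of_mul_eq_one u hu) 𝔪 hp hpm hcl

/-- the integrality -/
theorem fol_rough (n r : ℕ) (hn : 0 < n)
    (R : Type u) [CommRing R] [IsDomain R] [CharZero R] [Algebra.FiniteType ℤ R]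
    (α : Fin n → R) (A : Fin n → Matrix (Fin (r + 1)) (Fin (r + 1)) R) (u : R)
    (hu : ((r + 1 : ℕ) : R) * u = 1) (hα : ∀ i j, i ≠ j → IsUnit (α i - α j))
    (hall : AlmostAll (projField α A))
    (lam : Fin n → Fin (r + 1) → ℚ) (phi : Fin (r + 1) → ℚ)
    (hlam : ∀ j, RationalExponents (traceless u (A j)) (lam j))
    (hphi : RationalExponents (∑ j, traceless u (A j)) phi)
    (D : ℕ) (hD : 0 < D)
    (hrough : ∀ q : ℕ, q.Prime → q ∣ D → (4 * (r + 1) ^ 2 * (n + 1)) ^ ((n + 1) * r) < q)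
    (h1 : ∀ j l l', ∃ m : ℤ, (D : ℚ) * (lam j l - lam j l') = m)
    (h2 : ∀ l l', ∃ m : ℤ, (D : ℚ) * (phi l - phi l') = m)
    (κ : Fin n → Fin (r + 1)) (s : Fin (r + 1)) :
    ∃ m : ℤ, (D : ℚ) * (∑ j, lam j (κ j) - phi s) = m := by
  by_contra hcon
  rw [← projField_traceless α A u] at hall
  have htr : ∀ j, (traceless u (A j)).trace = 0 := fun j => trace_traceless hu (A j)
  have hQ := qAll_of_almostAll hn α hα (fun j => traceless u (A j)) htr (IsUnit.of_mul_eq_one u hu)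
    hall
  obtain ⟨N, a, hN, ha, P₀, hP⟩ := rough_final (Nat.succ_pos r) α hα (fun j => traceless u (A j))
    lam phi hlam hphi D hD (by simpa using hrough) h1 h2 κ s hcon
  exact not_condII_of α (fun j => traceless u (A j)) N hN a ha
    ⟨1, one_ne_zero, P₀, fun p hp hpP hap 𝔪 _ hpm _ => hP p hp hpP hap 𝔪 hpm⟩ (condII_of_qAll hQ)

end Pool.Agent.R927
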