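import Pool.Agent.R927.NT
import Pool.Agent.W280.PC.Affine
import Pool.Agent.Y227.SS.StableFinal
import Pool.Agent.Y227.RT.Bundle

set_option autoImplicit false

/-!
Irreducible systems of rank two with four singular points and exponents of prime denominator.
-/

namespace Pool.Agent.R927

open Finset Pool.Agent.H916R2 Pool.Agent.Y227.RT Pool.Agent.Y227.SS Pool.Agent.W432.PC

/-- The combinatorial lemma: four integers whose sum is an even multiple of `N` and such that no
integral point with odd sum is within distance one of the quotients by `N`. -/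
lemma four_comb {ι : Type*} [Fintype ι] [DecidableEq ι] (hι : Fintype.card ι = 4) {N : ℕ}
    (hN : 0 < N) (b : ι → ℤ) (c : ℤ) (hsum : ∑ x, b x = 2 * c * N)
    (hno : ∀ μ : ι → ℤ, (∃ E : ℤ, ∑ x, μ x = 2 * E + 1) →
      1 < ∑ x, |(b x : ℝ) / N - μ x|) :
    (∀ x, ¬ (N : ℤ) ∣ b x) ∧ ∑ x, (b x % N) = 2 * N := by
  have hN' : (0 : ℤ) < N := by exact_mod_cast hN
  have hNr : (0 : ℝ) < N := by exact_mod_cast hN
  set q : ι → ℤ := fun x => b x / N with hq
  set ρ : ι → ℤ := fun x => b x % N with hρ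
  have hb : ∀ x, b x = N * q x + ρ x := fun x => (Int.mul_ediv_add_emod (b x) N).symm
  have hρ0 : ∀ x, 0 ≤ ρ x := fun x => Int.emod_nonneg _ hN'.ne'
  have hρ1 : ∀ x, ρ x < N := fun x => Int.emod_lt_of_pos _ hN'
  have hne : (univ : Finset ι).Nonempty := by
    rw [← card_pos, card_univ, hι]; norm_num
  have hs : ∑ x, ρ x = (2 * c - ∑ x, q x) * N := by
    have h1 : ∑ x, b x = N * ∑ x, q x + ∑ x, ρ x := by
      rw [mul_sum, ← sum_add_distrib]
      exact sum_congr rfl fun x _ => hb x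
    rw [hsum] at h1
    linear_combination -h1
  set t : ℤ := 2 * c - ∑ x, q x with ht
  have ht0 : 0 ≤ t := by
    by_contra h
    have h1 : 0 ≤ ∑ x, ρ x := sum_nonneg fun x _ => hρ0 x
    rw [hs] at h1
    nlinarith
  have ht4 : t < 4 := by
    by_contra h
    have h1 : ∑ x, ρ x < ∑ _x : ι, (N : ℤ) := sum_lt_sum_of_nonempty hne fun x _ => hρ1 x
    rw [hs, sum_const, card_univ, hι] at h1
    have h2 : (4 : ℕ) • (N : ℤ) = 4 * N := by simp
    rw [h2] at h1
    nlinarith
  -- the distance to a vertex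
  have hdist : ∀ δ : ι → ℤ, (∀ x, δ x = 0 ∨ δ x = 1) →
      ∑ x, |(b x : ℝ) / N - ((q x + δ x : ℤ) : ℝ)| =
        ((∑ x, (ρ x + δ x * (N - 2 * ρ x)) : ℤ) : ℝ) / N := by
    intro δ hδ
    push_cast
    rw [sum_div]
    refine sum_congr rfl fun x _ => ?_
    have e1 : (b x : ℝ) = N * q x + ρ x := by exact_mod_cast hb x
    have e2 : (0 : ℝ) ≤ ρ x := by exact_mod_cast hρ0 x
    have e3 : (ρ x : ℝ) < N := by exact_mod_cast hρ1 x
    rcases hδ x with h | h
    · rw [h, e1]
      have : ((N : ℝ) * q x + ρ x) / N - ((q x : ℝ) + ((0 : ℤ) : ℝ)) = ρ x / N := by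
        field_simp; push_cast; ring
      rw [this, abs_of_nonneg (div_nonneg e2 hNr.le)]
      push_cast; ring
    · rw [h, e1]
      have : ((N : ℝ) * q x + ρ x) / N - ((q x : ℝ) + ((1 : ℤ) : ℝ)) = -((N - ρ x) / N) := by
        field_simp; push_cast; ring
      rw [this, abs_neg, abs_of_nonneg (div_nonneg (by linarith) hNr.le)]
      push_cast; ring
  have hkey : ∀ δ : ι → ℤ, (∀ x, δ x = 0 ∨ δ x = 1) →
      (∃ E : ℤ, ∑ x, (q x + δ x) = 2 * E + 1) →
      ∑ x, (ρ x + δ x * (N - 2 * ρ x)) ≤ N → False := by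
    intro δ hδ hodd hle
    have h1 := hno (fun x => q x + δ x) hodd
    rw [hdist δ hδ, lt_div_iff₀ hNr, one_mul] at h1
    have h2 : ((∑ x, (ρ x + δ x * (N - 2 * ρ x)) : ℤ) : ℝ) ≤ N := by exact_mod_cast hle
    linarith
  have hqt : ∑ x, q x = 2 * c - t := by rw [ht]; ring
  have hcard : ∀ z : ℤ, ∑ _x : ι, z = 4 * z := by
    intro z
    rw [sum_const, card_univ, hι]; simp
  -- t = 2
  have ht2 : t = 2 := by
    by_contra hne2
    have h01 : t = 0 ∨ t = 1 ∨ t = 3 := by omega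
    rcases h01 with h | h | h
    · obtain ⟨x0, -⟩ := hne
      rw [h, zero_mul] at hs
      have hz : ∀ x, ρ x = 0 := fun x =>
        (sum_eq_zero_iff_of_nonneg (fun x _ => hρ0 x)).1 hs x (mem_univ x)
      refine hkey (fun x => if x = x0 then 1 else 0) (fun x => ?_) ⟨c, ?_⟩ ?_
      · split_ifs <;> simp
      · rw [sum_add_distrib, hqt, h]
        simp
      · simp [hz]
    · refine hkey (fun _ => 0) (fun x => Or.inl rfl) ⟨c - 1, ?_⟩ ?_
      · simp only [add_zero]
        rw [hqt, h]; ring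
      · simp only [zero_mul, add_zero]
        rw [hs, h, one_mul]
    · refine hkey (fun _ => 1) (fun x => Or.inr rfl) ⟨c, ?_⟩ ?_
      · rw [sum_add_distrib, hqt, hcard, h]; ring
      · have : ∑ x, (ρ x + 1 * ((N : ℤ) - 2 * ρ x)) = 4 * N - ∑ x, ρ x := by
          rw [← hcard, ← sum_sub_distrib]
          exact sum_congr rfl fun x _ => by ring
        rw [this, hs, h]
        linarith
  refine ⟨fun x0 hdvd => ?_, ?_⟩
  · have hx0 : ρ x0 = 0 := Int.emod_eq_zero_of_dvd hdvd
    refine hkey (fun x => if x = x0 then 0 else 1) (fun x => ?_) ⟨c, ?_⟩ ?_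
    · split_ifs <;> simp
    · have h1 : ∑ x, (if x = x0 then (0 : ℤ) else 1) = 3 := by
        have : ∀ x, (if x = x0 then (0 : ℤ) else 1) = 1 - (if x = x0 then 1 else 0) := by
          intro x; split_ifs <;> ring
        rw [sum_congr rfl fun x _ => this x, sum_sub_distrib, hcard]
        simp
      rw [sum_add_distrib, hqt, h1, ht2]; ring
    · have : ∀ x, (ρ x + (if x = x0 then (0 : ℤ) else 1) * ((N : ℤ) - 2 * ρ x)) =
          (N - ρ x) - (if x = x0 then (N : ℤ) else 0) := by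
        intro x
        split_ifs with h
        · rw [h, hx0]; ring
        · ring
      rw [sum_congr rfl fun x _ => this x, sum_sub_distrib, sum_sub_distrib, hcard, hs, ht2]
      simp only [sum_ite_eq', mem_univ, if_true]
      linarith
  · rw [hs, ht2]

/-- The sawtooth function of a residue. -/
lemma saw_intCast {N : ℕ} [NeZero N] (z : ℤ) (hz : ¬ (N : ℤ) ∣ z) :
    saw ((z : ℤ) : ZMod N) = 2 * (z % N) - N := by
  unfold saw
  rw [if_neg (by rwa [ZMod.intCast_zmod_eq_zero_iff_dvd]), ZMod.val_intCast]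

/-- A tuple of four integers with the property of `four_comb` for all multiples prime to `N`. -/
theorem four_pairs {ι : Type*} [Fintype ι] [DecidableEq ι] (hι : Fintype.card ι = 4) {N : ℕ}
    (hN : N.Prime) (d : ι → ℤ) (c : ℤ) (hsum : ∑ x, d x = 2 * c * N)
    (hno : ∀ a : ℤ, IsCoprime a (N : ℤ) → ∀ μ : ι → ℤ, (∃ E : ℤ, ∑ x, μ x = 2 * E + 1) →
      1 < ∑ x, |((a * d x : ℤ) : ℝ) / N - μ x|) (x0 : ι) :
    ∃ y z w, (y ≠ x0 ∧ z ≠ x0 ∧ w ≠ x0 ∧ y ≠ z ∧ y ≠ w ∧ z ≠ w) ∧
      (N : ℤ) ∣ d x0 + d y ∧ (N : ℤ) ∣ d z + d w := by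
  have : Fact N.Prime := ⟨hN⟩
  have hN0 : 0 < N := hN.pos
  have hall : ∀ a : ℤ, IsCoprime a (N : ℤ) →
      (∀ x, ¬ (N : ℤ) ∣ a * d x) ∧ ∑ x, ((a * d x) % N) = 2 * N := by
    intro a ha
    refine four_comb hι hN0 (fun x => a * d x) (a * c) ?_ (hno a ha)
    rw [← mul_sum, hsum]; ring
  set D : ι → ZMod N := fun x => ((d x : ℤ) : ZMod N) with hDdef
  have hD : ∀ x, D x ≠ 0 := by
    intro x
    have := (hall 1 isCoprime_one_left).1 x
    rw [one_mul] at this
    simp only [hDdef]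
    rwa [Ne, ZMod.intCast_zmod_eq_zero_iff_dvd]
  have hs : ∀ u : (ZMod N)ˣ, ∑ x, saw ((u : ZMod N) * D x) = 0 := by
    intro u
    have hc : IsCoprime (((u : ZMod N).val : ℕ) : ℤ) (N : ℤ) :=
      Nat.isCoprime_iff_coprime.2 (ZMod.val_coe_unit_coprime u)
    obtain ⟨h1, h2⟩ := hall _ hc
    have h3 : ∀ x, saw ((u : ZMod N) * D x) =
        2 * (((((u : ZMod N).val : ℕ) : ℤ) * d x) % N) - N := by
      intro x
      rw [← saw_intCast _ (h1 x)]
      congr 1
      simp only [hDdef]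
      push_cast
      rw [ZMod.natCast_zmod_val]
    rw [sum_congr rfl fun x _ => h3 x, sum_sub_distrib, ← mul_sum, h2, sum_const, card_univ, hι]
    simp only [nsmul_eq_mul]
    push_cast
    ring
  -- the first pair
  obtain ⟨y, hy, hxy⟩ : ∃ y, y ≠ x0 ∧ D y = -D x0 := by
    by_cases hN2 : N = 2
    · have h1 : ((univ : Finset ι).erase x0).Nonempty := by
        rw [← card_pos, card_erase_of_mem (mem_univ _), card_univ, hι]; norm_num
      obtain ⟨y, hy⟩ := h1
      refine ⟨y, (mem_erase.1 hy).1, ?_⟩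
      have key : ∀ p q : ZMod 2, p ≠ 0 → q ≠ 0 → p = -q := by decide
      subst hN2
      exact key _ _ (hD y) (hD x0)
    · exact exists_partner D hD hs hN2 x0
  -- the others
  have hcard : ((univ.erase x0).erase y).card = 2 := by
    rw [card_erase_of_mem (mem_erase.2 ⟨hy, mem_univ _⟩), card_erase_of_mem (mem_univ _), card_univ,
      hι]
  obtain ⟨z, w, hzw, hset⟩ := card_eq_two.1 hcard
  have hz : z ∈ (univ.erase x0).erase y := by rw [hset]; simp
  have hw : w ∈ (univ.erase x0).erase y := by rw [hset]; simp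
  simp only [mem_erase, mem_univ, and_true] at hz hw
  have hsplit : ∀ {M : Type} [AddCommMonoid M] (f : ι → M), ∑ x, f x = f x0 + (f y + (f z + f w)) := by
    intro M _ f
    rw [← add_sum_erase univ f (mem_univ x0),
      ← add_sum_erase (univ.erase x0) f (mem_erase.2 ⟨hy, mem_univ _⟩), hset,
      sum_pair hzw]
  refine ⟨y, z, w, ⟨hy, hz.2, hw.2, hz.1.symm, hw.1.symm, hzw⟩, ?_, ?_⟩
  · rw [← ZMod.intCast_zmod_eq_zero_iff_dvd]
    push_cast
    have : ((d y : ℤ) : ZMod N) = -((d x0 : ℤ) : ZMod N) := hxy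
    rw [this]; ring
  · rw [← ZMod.intCast_zmod_eq_zero_iff_dvd]
    push_cast
    have h1 := hs 1
    rw [hsplit] at h1
    simp only [Units.val_one, one_mul] at h1
    rw [hxy, saw_neg] at h1
    have h2 : saw (D z) + saw (D w) = 0 := by linarith
    have h3 := eq_neg_of_saw (hD z) (hD w) h2
    have h4 : ((d z : ℤ) : ZMod N) = -((d w : ℤ) : ZMod N) := h3
    rw [h4]; ring

end Pool.Agent.R927
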