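import Pool.Agent.R927.Four

set_option autoImplicit false

/-!
Irreducible systems of rank two with four singular points and exponents of prime denominator: the
main theorem.
-/

namespace Pool.Agent.R927

open Finset Pool.Agent.H916R2 Pool.Agent.Y227.RT Pool.Agent.Y227.SS Pool.Agent.W432.PC

universe u

/-- The `p`-curvature is nonzero at all closed points of `Spec R[1/g]`, for a nonzero `g`, whose
residue characteristic is a large prime in a certain residue class modulo `N`, prime to `N`. -/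
def BadClass {R : Type*} [CommRing R] {n r : ℕ} (α : Fin n → R)
    (A : Fin n → Matrix (Fin r) (Fin r) R) (N : ℕ) : Prop :=
  ∃ (a : ℤ) (g : R), IsCoprime a (N : ℤ) ∧ g ≠ 0 ∧ ∃ P₀ : ℕ, ∀ p : ℕ, p.Prime → P₀ < p →
    (N : ℤ) ∣ a * p + 1 → ∀ (𝔪 : Ideal R) [𝔪.IsMaximal], (p : R) ∈ 𝔪 → g ∉ 𝔪 →
      ¬ PCurvZeroAt α A 𝔪

lemma coprime_or_dvd {N : ℕ} (hN : N.Prime) (z : ℤ) : IsCoprime z (N : ℤ) ∨ (N : ℤ) ∣ z := by
  rcases em ((N : ℤ) ∣ z) with h | h
  · exact Or.inr h
  · left
    have hp : Prime (N : ℤ) := Nat.prime_iff_prime_int.1 hN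
    exact ((Prime.coprime_iff_not_dvd hp).2 h).symm

section

variable {R : Type u} [CommRing R] [IsDomain R] [CharZero R] [Algebra.FiniteType ℤ R]

/-- The region for the residues. -/
lemma noLe_of_stable (N : ℕ) (hN : 0 < N)
    (e : Fin 3 → Fin 2 → ℤ) (e' : Fin 2 → ℤ) (htr : ∑ j, ∑ l, e j l = ∑ l, e' l) (a : ℤ)
    (hst : StableWeights ℂ (fun j l => (a : ℝ) * (((e j l : ℚ) / N : ℚ) : ℝ))
      (fun l => (a : ℝ) * (((e' l : ℚ) / N : ℚ) : ℝ))) (ε : Option (Fin 3) → ℤ)
    (hε : ∀ x, ε x = 1 ∨ ε x = -1) (μ : Option (Fin 3) → ℤ) (hμ : ∃ E : ℤ, ∑ x, μ x = 2 * E + 1) :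
    1 < ∑ x : Option (Fin 3), |((a * (ε x * x.elim (e' 0 - e' 1) (fun j => e j 0 - e j 1)) : ℤ) : ℝ)
      / N - μ x| := by
  have hNr : (0 : ℝ) < N := by exact_mod_cast hN
  by_contra hcon
  push Not at hcon
  apply stable_not_le hst
  refine ⟨fun x => ε x * μ x, ?_, le_trans (le_of_eq ?_) hcon⟩
  · obtain ⟨E, hE⟩ := hμ
    have h1 : ∀ x, ε x * μ x = μ x + 2 * (if ε x = 1 then 0 else -μ x) := by
      intro x
      rcases hε x with h | h
      · rw [h]; simp
      · rw [h]; norm_num; ring
    refine ⟨E + ∑ x, (if ε x = 1 then 0 else -μ x), ?_⟩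
    rw [sum_congr rfl fun x _ => h1 x, sum_add_distrib, ← mul_sum, hE]
    have h2 : 2 * zz (fun j l => (a : ℝ) * (((e j l : ℚ) / N : ℚ) : ℝ))
        (fun l => (a : ℝ) * (((e' l : ℚ) / N : ℚ) : ℝ)) none -
        ∑ i, zz (fun j l => (a : ℝ) * (((e j l : ℚ) / N : ℚ) : ℝ))
        (fun l => (a : ℝ) * (((e' l : ℚ) / N : ℚ) : ℝ)) (some i) = 0 := by
      rw [Fintype.sum_option]
      simp only [zz, Fin.sum_univ_three, Fin.sum_univ_two] at htr ⊢
      have h3 : ((e 0 0 : ℝ) + e 0 1 + (e 1 0 + e 1 1) + (e 2 0 + e 2 1)) = e' 0 + e' 1 := by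
        exact_mod_cast htr
      push_cast
      field_simp
      linear_combination (a : ℝ) * h3
    rw [h2]
    push_cast
    ring
  · refine sum_congr rfl fun x _ => ?_
    have h3 : zz (fun j l => (a : ℝ) * (((e j l : ℚ) / N : ℚ) : ℝ))
        (fun l => (a : ℝ) * (((e' l : ℚ) / N : ℚ) : ℝ)) (some x) =
        ((a * x.elim (e' 0 - e' 1) (fun j => e j 0 - e j 1) : ℤ) : ℝ) / N := by
      rcases x with _ | j
      · simp only [zz, Option.elim]
        push_cast
        ring
      · simp only [zz, Option.elim]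
        push_cast
        ring
    rw [h3]
    change |_ - ((ε x * μ x : ℤ) : ℝ)| = _
    rcases hε x with h | h
    · rw [h, one_mul, one_mul]
    · rw [h, ← abs_neg]
      congr 1
      push_cast
      ring

theorem four_final (α : Fin 3 → R) (hα : ∀ i j, i ≠ j → IsUnit (α i - α j))
    (A : Fin 3 → Matrix (Fin 2) (Fin 2) R) (lam : Fin 3 → Fin 2 → ℚ) (phi : Fin 2 → ℚ)
    (hlam : ∀ j, HasExponents (A j) (lam j)) (hphi : HasExponents (∑ j, A j) phi)
    (N : ℕ) (hN : N.Prime) (hNlam : ∀ j l, ∃ m : ℤ, (N : ℚ) * lam j l = m)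
    (hNphi : ∀ l, ∃ m : ℤ, (N : ℚ) * phi l = m) (hirr : AbsIrreducible α A)
    (hsp : ¬ Splits (theta lam phi)) : BadClass α A N := by
  have hNq : (N : ℚ) ≠ 0 := by exact_mod_cast hN.ne_zero
  choose e he using hNlam
  choose e' he' using hNphi
  obtain rfl : lam = fun j l => (e j l : ℚ) / N := by
    funext j l
    rw [← he j l]; field_simp
  obtain rfl : phi = fun l => (e' l : ℚ) / N := by
    funext l
    rw [← he' l]; field_simp
  have htr := Pool.Agent.W280.PC.trace_rel A N hN.one_lt e e' hlam hphi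
  by_cases hres : ∃ (κ : Fin 3 → Fin 2) (s : Fin 2), (N : ℤ) ∣ ∑ j, e j (κ j) - e' s
  · by_contra hcon
    obtain ⟨κ, s, c, hc⟩ := hres
    have hst : ∀ a : ℤ, IsCoprime a (N : ℤ) →
        StableWeights ℂ (fun j l => (a : ℝ) * (((e j l : ℚ) / N : ℚ) : ℝ))
          (fun l => (a : ℝ) * (((e' l : ℚ) / N : ℚ) : ℝ)) := by
      intro a ha
      by_contra hno
      apply hcon
      obtain ⟨g, hg, h⟩ := (final α hα A _ _ hlam hphi N hN.pos
        (fun j l => ⟨e j l, he j l⟩) (fun l => ⟨e' l, he' l⟩) a).2.1 hirr hno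
      exact ⟨a, g, ha, hg, h⟩
    set ε : Option (Fin 3) → ℤ :=
      fun x => x.elim (if s = 0 then -1 else 1) (fun j => if κ j = 0 then 1 else -1) with hεdef
    have hε : ∀ x, ε x = 1 ∨ ε x = -1 := by
      intro x
      rcases x with _ | j
      · simp only [hεdef, Option.elim]
        split_ifs <;> simp
      · simp only [hεdef, Option.elim]
        split_ifs <;> simp
    set b : Option (Fin 3) → ℤ := fun x => x.elim (e' 0 - e' 1) (fun j => e j 0 - e j 1) with hb
    have h01 : ∀ i : Fin 2, i = 0 ∨ i = 1 := by decide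
    have hsum : ∑ x, ε x * b x = 2 * c * N := by
      rw [Fintype.sum_option]
      have h1 : ε none * b none = (e' 0 + e' 1) - 2 * e' s := by
        simp only [hεdef, hb, Option.elim]
        rcases h01 s with h | h <;> rw [h] <;> simp <;> ring
      have h2 : ∀ j, ε (some j) * b (some j) = 2 * e j (κ j) - (e j 0 + e j 1) := by
        intro j
        simp only [hεdef, hb, Option.elim]
        rcases h01 (κ j) with h | h <;> rw [h] <;> simp <;> ring
      rw [h1, sum_congr rfl fun j _ => h2 j]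
      simp only [Fin.sum_univ_three, Fin.sum_univ_two] at htr hc ⊢
      linear_combination 2 * hc - htr
    obtain ⟨y, z, w, ⟨hy, hz, hw, hyz, hyw, hzw⟩, hp1, hp2⟩ := four_pairs
      (by simp) hN (fun x => ε x * b x) c hsum
      (fun a ha μ hμ => noLe_of_stable N hN.pos e e' htr a (hst a ha) ε hε μ hμ) none
    apply hsp
    have hθ : ∀ x, theta (fun j l => (e j l : ℚ) / N) (fun l => (e' l : ℚ) / N) x = (b x : ℚ) / N := by
      intro x
      rcases x with _ | j
      · simp only [theta, hb, Option.elim]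
        push_cast; ring
      · simp only [theta, hb, Option.elim]
        push_cast; ring
    have hS : ({none, y} : Finset (Option (Fin 3))).card = 2 := card_pair hy.symm
    have hSc : ({none, y} : Finset (Option (Fin 3)))ᶜ.card = 2 := by
      rw [card_compl, hS]; simp
    have hset : ({none, y} : Finset (Option (Fin 3)))ᶜ = {z, w} := by
      symm
      apply eq_of_subset_of_card_le
      · intro x hx
        simp only [mem_insert, mem_singleton] at hx
        simp only [mem_compl, mem_insert, mem_singleton]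
        rcases hx with rfl | rfl
        · rintro (h | h)
          · exact hz h
          · exact hyz h.symm
        · rintro (h | h)
          · exact hw h
          · exact hyw h.symm
      · rw [hSc, card_pair hzw]
    refine ⟨{none, y}, ε, hε, hS.ge, hSc.ge, ?_, ?_⟩
    · obtain ⟨m, hm⟩ := hp1
      refine ⟨m, ?_⟩
      rw [sum_pair hy.symm, hθ, hθ]
      have : ((ε none * b none + ε y * b y : ℤ) : ℚ) = ((N * m : ℤ) : ℚ) := by rw [hm]
      push_cast at this
      field_simp
      linear_combination this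
    · obtain ⟨m, hm⟩ := hp2
      refine ⟨m, ?_⟩
      rw [hset, sum_pair hzw, hθ, hθ]
      have : ((ε z * b z + ε w * b w : ℤ) : ℚ) = ((N * m : ℤ) : ℚ) := by rw [hm]
      push_cast at this
      field_simp
      linear_combination this
  · push Not at hres
    obtain ⟨a, ha, P₀, hP⟩ := Pool.Agent.W280.PC.affine (by norm_num) α hα A N hN.one_lt e e' hlam
      hphi (fun j l l' => coprime_or_dvd hN _) (fun l l' => coprime_or_dvd hN _)
      (fun κ s => (coprime_or_dvd hN _).resolve_right (hres κ s))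
    exact ⟨a, 1, ha, one_ne_zero, P₀, fun p hp hpP hap 𝔪 _ hpm _ => hP p hp hpP hap 𝔪 hpm⟩

end

end Pool.Agent.R927
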