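import Pool.Agent.R927.Bru2

set_option autoImplicit false

/-!
The inequalities for semistable and stable parabolic bundles with trivial underlying bundle which come
from constant subbundles, for any number of points.
-/

namespace Pool.Agent.R927

open Finset Matrix Pool.Agent.Y227.SS

section gen

variable {K : Type*} [Field K] {r n : ℕ}

/-- The constant subbundles spanned by parts of a basis adapted to the flags at `β j1` and at
infinity. -/
theorem const_data {β : Fin n → K} {P : Fin n → Matrix (Fin r) (Fin r) K}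
    (w : Fin n → Fin r → ℝ) (e : Fin r → ℝ) (hdet : ∀ j, (P j).det ≠ 0) (j1 : Fin n) :
    ∃ π : Equiv.Perm (Fin r), ∀ I : Finset (Fin r), ∃ A : Fin n → Finset (Fin r),
      (∀ j, (A j).card = I.card) ∧ ∃ U : Matrix (Fin I.card) (Fin r) (Polynomial K),
        (∃ J, mnr U J ≠ 0) ∧
        (∀ j J, mnr (U * (P j).map Polynomial.C) J ≠ 0 →
          (if j = j1 then ∑ i ∈ I, w j1 (π i) else ∑ a ∈ A j, w j a) ≤
            (mnr (U * (P j).map Polynomial.C) J).rootMultiplicity (β j) + ∑ i, w j (J i)) ∧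
        ∀ J, mnr U J ≠ 0 → (mnr U J).natDegree = 0 ∧ ∑ i, e (J i) ≤ ∑ i ∈ I, e i := by
  classical
  obtain ⟨b, π, hb, hbe, hbv⟩ := bruhat (P j1) (hdet j1) e (w j1)
  refine ⟨π, fun I => ?_⟩
  set s := I.card with hs
  let ι : Fin s ↪o Fin r := I.orderEmbOfFin rfl
  let U₀ : Matrix (Fin s) (Fin r) K := b.submatrix ι id
  have hone : ∀ (X : Matrix (Fin r) (Fin r) K), b * X = 1 → U₀ * X.submatrix id ι = 1 := by
    intro X hX
    have h1 : U₀ * X.submatrix id ι = (b * X).submatrix ι ι := by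
      ext i j
      simp [U₀, Matrix.mul_apply]
    rw [h1, hX, Matrix.submatrix_one _ ι.injective]
  have hbu : IsUnit b.det := isUnit_iff_ne_zero.2 hb
  obtain ⟨J₁, hJ₁⟩ := exists_minor_of_mul U₀ _ (hone _ (Matrix.mul_nonsing_inv b hbu))
  have hmin : ∀ j, ∃ J₀ : Fin s → Fin r, ((U₀ * P j).submatrix id J₀).det ≠ 0 ∧
      ∀ J, ((U₀ * P j).submatrix id J).det ≠ 0 → ∑ i, w j (J₀ i) ≤ ∑ i, w j (J i) := by
    intro j
    have hPu : IsUnit (P j).det := isUnit_iff_ne_zero.2 (hdet j)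
    obtain ⟨J₂, hJ₂⟩ := exists_minor_of_mul (U₀ * P j) ((P j)⁻¹ * (b⁻¹).submatrix id ι) (by
      rw [Matrix.mul_assoc, ← Matrix.mul_assoc (P j), Matrix.mul_nonsing_inv _ hPu, Matrix.one_mul]
      exact hone _ (Matrix.mul_nonsing_inv b hbu))
    obtain ⟨J₀, hJ₀m, hJ₀⟩ := exists_min_image
      (univ.filter fun J : Fin s → Fin r => ((U₀ * P j).submatrix id J).det ≠ 0)
      (fun J => ∑ i, w j (J i)) ⟨J₂, mem_filter.2 ⟨mem_univ _, hJ₂⟩⟩
    exact ⟨J₀, (mem_filter.1 hJ₀m).2, fun J hJ => hJ₀ J (mem_filter.2 ⟨mem_univ _, hJ⟩)⟩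
  choose J₀ hJ₀d hJ₀ using hmin
  have hJ₀i : ∀ j, Function.Injective (J₀ j) := by
    intro j i i' hii
    by_contra hne
    exact hJ₀d j (Matrix.det_zero_of_column_eq hne fun k => by simp [hii])
  have hmul : ∀ j, U₀.map Polynomial.C * (P j).map Polynomial.C =
      (U₀ * P j).map (Polynomial.C : K →+* Polynomial K) := fun j => by
    rw [Matrix.map_mul]
  have hsumI : ∀ f : Fin r → ℝ, ∑ i, f (ι i) = ∑ i ∈ I, f i := by
    intro f
    have h1 := I.map_orderEmbOfFin_univ (rfl : I.card = I.card)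
    conv_rhs => rw [← h1]
    rw [sum_map]
    rfl
  refine ⟨fun j => univ.image (J₀ j), fun j => ?_, U₀.map Polynomial.C, ⟨J₁, ?_⟩, ?_, ?_⟩
  · rw [card_image_of_injective _ (hJ₀i j), card_univ, Fintype.card_fin]
  · rw [mnr_C]
    exact (Polynomial.C_ne_zero).2 hJ₁
  · intro j J hJ
    rw [hmul] at hJ ⊢
    have hJ' : ((U₀ * P j).submatrix id J).det ≠ 0 := by
      intro h0
      apply hJ
      have := mnr_C (U₀ * P j) J
      rw [h0, map_zero] at this
      exact this
    have hrm : (0 : ℝ) ≤ ((mnr ((U₀ * P j).map (Polynomial.C : K →+* Polynomial K)) J).rootMultiplicity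
      (β j) : ℝ) := Nat.cast_nonneg _
    have hgoal : (if j = j1 then ∑ i ∈ I, w j1 (π i) else ∑ a ∈ univ.image (J₀ j), w j a) ≤
        ∑ i, w j (J i) := by
      split_ifs with h
      · subst h
        rw [← hsumI fun i => w j (π i)]
        obtain ⟨σ, hσ⟩ := exists_perm_of_det hJ'
        rw [← Equiv.sum_comp σ]
        refine sum_le_sum fun i _ => ?_
        refine hbv (ι (σ i)) (J i) ?_
        have h2 := hσ i
        simpa [U₀, Matrix.mul_apply] using h2
      · rw [sum_image fun _ _ _ _ h => hJ₀i j h]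
        exact hJ₀ j J hJ'
    linarith
  · intro J hJ
    have hJd : (U₀.submatrix id J).det ≠ 0 := by
      intro h0
      apply hJ
      rw [mnr_C, h0, map_zero]
    refine ⟨?_, ?_⟩
    · rw [mnr_C]
      exact Polynomial.natDegree_C _
    · rw [← hsumI e]
      obtain ⟨σ, hσ⟩ := exists_perm_of_det hJd
      rw [← Equiv.sum_comp σ (fun i => e (ι i))]
      refine sum_le_sum fun i _ => ?_
      exact hbe _ _ (hσ i)

lemma sum_ite_split (j1 : Fin n) (f : Fin n → ℝ) (c : ℝ) :
    ∑ j, (if j = j1 then c else f j) = ∑ j ∈ univ.erase j1, f j + c := by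
  rw [← sum_erase_add _ _ (mem_univ j1), if_pos rfl]
  congr 1
  exact sum_congr rfl fun j hj => if_neg (ne_of_mem_erase hj)

/-- The hinge inequalities. -/
theorem gen_hinge {β : Fin n → K} {P : Fin n → Matrix (Fin r) (Fin r) K}
    {w : Fin n → Fin r → ℝ} {e : Fin r → ℝ} (hdet : ∀ j, (P j).det ≠ 0)
    (hsum : ∑ j, ∑ l, w j l = ∑ l, e l)
    (hst : Semistable β P w e) {st : Prop} (hs : st → Stable β P w e) (j1 : Fin n) :
    ∃ π : Equiv.Perm (Fin r), ∀ δ : ℝ,
      ∑ i, max (w j1 (π i) - e i + (univ.erase j1).card * δ) 0 ≤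
        ∑ j ∈ univ.erase j1, ∑ l, max (δ - w j l) 0 ∧
      (st → (∃ j ∈ univ.erase j1, ∃ l, w j l < δ) → (∃ j ∈ univ.erase j1, ∃ l, δ < w j l) →
        ∑ i, max (w j1 (π i) - e i + (univ.erase j1).card * δ) 0 <
          ∑ j ∈ univ.erase j1, ∑ l, max (δ - w j l) 0) := by
  classical
  obtain ⟨π, hπ⟩ := const_data (β := β) w e hdet j1
  have htot : ∑ j ∈ univ.erase j1, ∑ l, w j l + ∑ i, w j1 (π i) = ∑ i, e i := by
    rw [Equiv.sum_comp π (w j1), ← hsum, sum_erase_add _ _ (mem_univ j1)]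
  refine ⟨π, fun δ => ?_⟩
  set θ : ℝ := (univ.erase j1).card * δ with hθ
  set I := univ.filter fun i => 0 < w j1 (π i) - e i + θ with hI
  have hlhs : ∑ i, max (w j1 (π i) - e i + θ) 0 = ∑ i ∈ I, (w j1 (π i) - e i + θ) := by
    rw [hI, sum_filter]
    refine sum_congr rfl fun i _ => ?_
    split_ifs with h
    · exact max_eq_left h.le
    · exact max_eq_right (not_lt.1 h)
  have hnn : ∀ j l, 0 ≤ max (δ - w j l) 0 := fun j l => le_max_right _ _
  rcases Nat.eq_zero_or_pos I.card with h0 | hpos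
  · rw [hlhs, card_eq_zero.1 h0, sum_empty]
    refine ⟨sum_nonneg fun j _ => sum_nonneg fun l _ => hnn j l, fun _ ⟨j, hj, l, hl⟩ _ => ?_⟩
    refine sum_pos' (fun j _ => sum_nonneg fun l _ => hnn j l) ⟨j, hj, ?_⟩
    refine sum_pos' (fun l _ => hnn j l) ⟨l, mem_univ l, ?_⟩
    exact lt_max_of_lt_left (by linarith)
  · rcases (card_le_univ I).lt_or_eq with hlt | heq
    · rw [Fintype.card_fin] at hlt
      obtain ⟨A, hA, U, hU1, hU2, hU3⟩ := hπ I
      have hA2 : ∑ j ∈ univ.erase j1, ∑ a ∈ A j, (δ - w j a) ≤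
          ∑ j ∈ univ.erase j1, ∑ l, max (δ - w j l) 0 := by
        refine sum_le_sum fun j _ => ?_
        exact (sum_le_sum fun a _ => le_max_left _ _).trans
          (sum_le_sum_of_subset_of_nonneg (subset_univ (A j)) fun l _ _ => hnn j l)
      have hA1 : ∑ j ∈ univ.erase j1, ∑ a ∈ A j, (δ - w j a) =
          I.card * θ - ∑ j ∈ univ.erase j1, ∑ a ∈ A j, w j a := by
        have h1 : ∀ j ∈ univ.erase j1, ∑ a ∈ A j, (δ - w j a) =
            I.card * δ - ∑ a ∈ A j, w j a := fun j _ => by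
          rw [sum_sub_distrib, sum_const, hA, nsmul_eq_mul]
        rw [sum_congr rfl h1, sum_sub_distrib, sum_const, nsmul_eq_mul, hθ]
        ring
      have hI1 : ∑ i ∈ I, (w j1 (π i) - e i + θ) =
          ∑ i ∈ I, w j1 (π i) - ∑ i ∈ I, e i + I.card * θ := by
        rw [sum_add_distrib, sum_sub_distrib, sum_const, nsmul_eq_mul]
      rw [hlhs]
      refine ⟨?_, fun hst' _ _ => ?_⟩
      · obtain ⟨J, hJ, hle⟩ := hst I.card U hU1 _ hU2
        obtain ⟨h2, h3⟩ := hU3 J hJ
        rw [sum_ite_split, h2] at hle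
        push_cast at hle
        linarith
      · obtain ⟨J, hJ, hle⟩ := hs hst' I.card hpos hlt U hU1 _ hU2
        obtain ⟨h2, h3⟩ := hU3 J hJ
        rw [sum_ite_split, h2] at hle
        push_cast at hle
        linarith
    · have hIu : I = univ := (card_eq_iff_eq_univ I).1 heq
      have h1 : ∑ i ∈ I, (w j1 (π i) - e i + θ) =
          ∑ j ∈ univ.erase j1, ∑ l, (δ - w j l) := by
        rw [hIu, sum_add_distrib, sum_sub_distrib, sum_const, card_univ, Fintype.card_fin,
          nsmul_eq_mul]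
        have h2 : ∀ j ∈ univ.erase j1, ∑ l, (δ - w j l) = r * δ - ∑ l, w j l := fun j _ => by
          rw [sum_sub_distrib, sum_const, card_univ, Fintype.card_fin, nsmul_eq_mul]
        rw [sum_congr rfl h2, sum_sub_distrib, sum_const, nsmul_eq_mul, ← htot, hθ]
        ring
      rw [hlhs, h1]
      refine ⟨sum_le_sum fun j _ => sum_le_sum fun a _ => le_max_left _ _,
        fun _ _ ⟨j, hj, l, hl⟩ => ?_⟩
      refine sum_lt_sum (fun j _ => sum_le_sum fun a _ => le_max_left _ _) ⟨j, hj, ?_⟩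
      exact sum_lt_sum (fun a _ => le_max_left _ _) ⟨l, mem_univ l, lt_max_of_lt_right (by
        linarith)⟩

end gen

end Pool.Agent.R927
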