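import Pool.Agent.R927.GB1

set_option autoImplicit false

/-!
The hinge inequalities for integers, for any number of points.
-/

namespace Pool.Agent.R927

open Finset Matrix Pool.Agent.Y227.SS

/-- The weights of a semistable parabolic bundle of parabolic degree zero, and of a stable one if `st`
holds. -/
def WData (st : Prop) (K : Type*) [Field K] {n r : ℕ} (x : Fin n → Fin r → ℝ) (y : Fin r → ℝ) :
    Prop :=
  ∃ (β : Fin n → K) (P : Fin n → Matrix (Fin r) (Fin r) K) (w : Fin n → Fin r → ℝ)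
    (e : Fin r → ℝ),
    Function.Injective β ∧ (∀ j, (P j).det ≠ 0) ∧ (∀ j l, 0 ≤ w j l ∧ w j l ≤ 1) ∧
    (∀ j, ∃ σ : Equiv.Perm (Fin r), ∀ l, ∃ m : ℤ, w j l = x j (σ l) + m) ∧
    (∃ σ : Equiv.Perm (Fin r), ∀ l, ∃ m : ℤ, e l = y (σ l) + m) ∧
    ∑ j, ∑ l, w j l = ∑ l, e l ∧ Semistable β P w e ∧ (st → Stable β P w e)

lemma WData.of_semi {K : Type*} [Field K] {n r : ℕ} {x : Fin n → Fin r → ℝ} {y : Fin r → ℝ}
    (h : SemistableWeights K x y) : WData False K x y := by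
  obtain ⟨β, P, w, e, h1, h2, h3, h4, h5, h6, h7⟩ := h
  exact ⟨β, P, w, e, h1, h2, h3, h4, h5, h6, h7, fun h => h.elim⟩

lemma WData.of_stable {K : Type*} [Field K] {n r : ℕ} {x : Fin n → Fin r → ℝ} {y : Fin r → ℝ}
    (h : StableWeights K x y) : WData True K x y := by
  obtain ⟨β, P, w, e, h1, h2, h3, h4, h5, h6, h7, h8⟩ := h
  exact ⟨β, P, w, e, h1, h2, h3, h4, h5, h6, h7, fun _ => h8⟩

/-- the hinge inequalities for integers -/
theorem int_hinge_gen {st : Prop} {n r : ℕ} (D : ℕ) (hD : 0 < D) (X : Fin n → Fin r → ℤ)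
    (E' : Fin r → ℤ)
    (hst : WData st ℂ (fun j l => (X j l : ℝ) / D) (fun l => (E' l : ℝ) / D))
    (j1 : Fin n) (hX0 : ∀ j, j ≠ j1 → ∀ l, ¬ (D : ℤ) ∣ X j l) :
    ∃ (Y Z : Fin r → ℤ) (ρ : Equiv.Perm (Fin r)),
      (∀ i, ∃ m : ℤ, Y i = X j1 (ρ i) + D * m) ∧ (∀ i, ∃ m : ℤ, Z i = E' i + D * m) ∧
      ∑ j ∈ univ.erase j1, ∑ l, X j l % D + ∑ i, Y i = ∑ i, Z i ∧
      ∀ δ : ℤ, ∑ i, max (Y i - Z i + ((univ.erase j1).card : ℤ) * δ) 0 ≤
          ∑ j ∈ univ.erase j1, ∑ l, max (δ - X j l % D) 0 ∧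
        (st → (∃ j ∈ univ.erase j1, ∃ l, X j l % D < δ) →
          (∃ j ∈ univ.erase j1, ∃ l, δ < X j l % D) →
          ∑ i, max (Y i - Z i + ((univ.erase j1).card : ℤ) * δ) 0 <
            ∑ j ∈ univ.erase j1, ∑ l, max (δ - X j l % D) 0) := by
  classical
  obtain ⟨β, P, w, e, _, hdet, hw, hwx, hey, hsum, hss, hst⟩ := hst
  obtain ⟨π, hπ⟩ := gen_hinge hdet hsum hss hst j1
  choose σ hσ using hwx
  choose m hm using hσ
  obtain ⟨σ', hσ'⟩ := hey
  choose m' hm' using hσ'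
  have hDR : (0 : ℝ) < D := by exact_mod_cast hD
  have hD0 : (D : ℝ) ≠ 0 := hDR.ne'
  let W : Fin n → Fin r → ℤ := fun j l => X j (σ j l) + D * m j l
  let E : Fin r → ℤ := fun l => E' (σ' l) + D * m' l
  have hW : ∀ j l, (D : ℝ) * w j l = W j l := by
    intro j l
    rw [hm j l]
    simp only [W]
    push_cast
    field_simp
  have hE : ∀ l, (D : ℝ) * e l = E l := by
    intro l
    rw [hm' l]
    simp only [E]
    push_cast
    field_simp
  have hW0 : ∀ j, j ≠ j1 → ∀ l, W j l = X j (σ j l) % D := by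
    intro j hj l
    have h1 : (0 : ℝ) ≤ W j l := by
      rw [← hW]
      exact mul_nonneg hDR.le (hw j l).1
    have h2 : (W j l : ℝ) ≤ D := by
      rw [← hW]
      calc (D : ℝ) * w j l ≤ D * 1 := mul_le_mul_of_nonneg_left (hw j l).2 hDR.le
        _ = D := mul_one _
    have h1' : 0 ≤ W j l := by exact_mod_cast h1
    have h2' : W j l ≤ D := by exact_mod_cast h2
    have h3 : W j l ≠ D := by
      intro h
      apply hX0 j hj (σ j l)
      refine ⟨1 - m j l, ?_⟩
      simp only [W] at h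
      linarith
    have h4 : W j l % D = X j (σ j l) % D := by
      simp only [W]
      rw [Int.add_mul_emod_self_left]
    rw [← h4]
    exact (Int.emod_eq_of_lt h1' (lt_of_le_of_ne h2' h3)).symm
  -- the hinge inequality for integers
  have hH : ∀ δ : ℤ, ∑ i, max (W j1 (π i) - E i + ((univ.erase j1).card : ℤ) * δ) 0 ≤
          ∑ j ∈ univ.erase j1, ∑ l, max (δ - X j l % D) 0 ∧
        (st → (∃ j ∈ univ.erase j1, ∃ l, X j l % D < δ) →
          (∃ j ∈ univ.erase j1, ∃ l, δ < X j l % D) →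
          ∑ i, max (W j1 (π i) - E i + ((univ.erase j1).card : ℤ) * δ) 0 <
            ∑ j ∈ univ.erase j1, ∑ l, max (δ - X j l % D) 0) := by
    intro δ
    obtain ⟨h1, h2⟩ := hπ ((δ : ℝ) / D)
    have hl : (D : ℝ) * ∑ i, max (w j1 (π i) - e i + ((univ.erase j1).card : ℝ) * ((δ : ℝ) / D)) 0 =
        ((∑ i, max (W j1 (π i) - E i + ((univ.erase j1).card : ℤ) * δ) 0 : ℤ) : ℝ) := by
      rw [mul_sum]
      push_cast
      refine sum_congr rfl fun i _ => ?_
      have h3 := max_cast_mul D hDR (w j1 (π i) - e i + ((univ.erase j1).card : ℝ) * ((δ : ℝ) / D)) 0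
        (W j1 (π i) - E i + ((univ.erase j1).card : ℤ) * δ) (by
        push_cast
        rw [mul_add, mul_sub, hW, hE]
        field_simp
        ring)
      rw [sub_zero] at h3
      rw [h3]
      push_cast
      rfl
    have hr0 : ∀ j ∈ univ.erase j1, ∑ l, max (δ - X j l % D) 0 = ∑ l, max (δ - W j l) 0 := by
      intro j hj
      rw [← Equiv.sum_comp (σ j)]
      refine sum_congr rfl fun l _ => ?_
      rw [hW0 j (ne_of_mem_erase hj) l]
    have hr : (D : ℝ) * ∑ j ∈ univ.erase j1, ∑ l, max ((δ : ℝ) / D - w j l) 0 =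
        ((∑ j ∈ univ.erase j1, ∑ l, max (δ - X j l % D) 0 : ℤ) : ℝ) := by
      rw [sum_congr rfl hr0, mul_sum]
      push_cast
      refine sum_congr rfl fun j _ => ?_
      rw [mul_sum]
      refine sum_congr rfl fun i _ => ?_
      rw [max_cast_mul D hDR ((δ : ℝ) / D) (w j i) (δ - W j i) (by
        push_cast
        rw [hW, mul_div_cancel₀ _ hD0])]
      push_cast
      rfl
    refine ⟨?_, ?_⟩
    · have h3 := mul_le_mul_of_nonneg_left h1 hDR.le
      rw [hl, hr] at h3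
      exact_mod_cast h3
    · rintro hst' ⟨j, hj, l, hl1⟩ ⟨j', hj', l', hl2⟩
      have h3 : ∀ j ∈ univ.erase j1, ∀ l, (X j l % D : ℤ) = W j ((σ j).symm l) := by
        intro j hj l
        rw [hW0 j (ne_of_mem_erase hj), Equiv.apply_symm_apply]
      have h4 := h2 hst' ⟨j, hj, (σ j).symm l, by
        rw [h3 j hj] at hl1
        have h5 : (W j ((σ j).symm l) : ℝ) < δ := by exact_mod_cast hl1
        rw [← hW] at h5
        rw [lt_div_iff₀ hDR]
        linarith⟩ ⟨j', hj', (σ j').symm l', by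
        rw [h3 j' hj'] at hl2
        have h5 : (δ : ℝ) < (W j' ((σ j').symm l') : ℝ) := by exact_mod_cast hl2
        rw [← hW] at h5
        rw [div_lt_iff₀ hDR]
        linarith⟩
      have h5 := mul_lt_mul_of_pos_left h4 hDR
      rw [hl, hr] at h5
      exact_mod_cast h5
  refine ⟨fun i => W j1 (π (σ'.symm i)), fun i => E (σ'.symm i), (σ'.symm.trans π).trans (σ j1),
    fun i => ⟨m j1 (π (σ'.symm i)), rfl⟩, fun i => ⟨m' (σ'.symm i), ?_⟩, ?_, fun δ => ?_⟩
  · simp only [E]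
    rw [Equiv.apply_symm_apply]
  · have h1 : ((∑ j, ∑ l, W j l : ℤ) : ℝ) = ((∑ i, E i : ℤ) : ℝ) := by
      push_cast
      have h2 : ∑ i, (E i : ℝ) = D * ∑ j, ∑ l, w j l := by
        rw [hsum, mul_sum]
        exact sum_congr rfl fun i _ => (hE i).symm
      rw [h2, mul_sum]
      refine sum_congr rfl fun j _ => ?_
      rw [mul_sum]
      exact sum_congr rfl fun i _ => (hW j i).symm
    have h2 : ∑ j, ∑ l, W j l = ∑ i, E i := by exact_mod_cast h1
    have h3 : ∀ j ∈ univ.erase j1, ∑ l, X j l % D = ∑ l, W j l := by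
      intro j hj
      rw [← Equiv.sum_comp (σ j) fun l => X j l % D]
      exact (sum_congr rfl fun l _ => hW0 j (ne_of_mem_erase hj) l).symm
    have h4 : ∑ i, W j1 (π (σ'.symm i)) = ∑ i, W j1 i := by
      rw [Equiv.sum_comp σ'.symm fun i => W j1 (π i), Equiv.sum_comp π]
    have h5 : ∑ i, E (σ'.symm i) = ∑ i, E i := Equiv.sum_comp σ'.symm E
    rw [sum_congr rfl h3, h4, h5, sum_erase_add _ _ (mem_univ j1)]
    exact h2
  · have h1 : ∑ i, max (W j1 (π (σ'.symm i)) - E (σ'.symm i) +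
          ((univ.erase j1).card : ℤ) * δ) 0 =
        ∑ i, max (W j1 (π i) - E i + ((univ.erase j1).card : ℤ) * δ) 0 :=
      Equiv.sum_comp σ'.symm fun i => max (W j1 (π i) - E i + ((univ.erase j1).card : ℤ) * δ) 0
    rw [h1]
    exact hH δ

end Pool.Agent.R927
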