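import Pool.Agent.W432.PC.Final

set_option autoImplicit false

/-!
The definitions for the inequality of the exponents at all the singular points.
-/

namespace Pool.Agent.R927

open Finset Pool.Agent.W432.PC

/-- The quadratic expression in the exponents `lam j l` at the finite points and `phi l` at infinity,
for a function `F` of rational numbers modulo `ℤ`: with `y i = lam j1 i + ∑ j ≠ j1, t j` and the
`(n - 1) r` numbers `X = lam j l - t j`, `j ≠ j1`, it is
`∑ F (y i - y k) + ∑ F (phi i - phi k) - 2 ∑ F (y i - phi k) -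
(((n - 1) r) ^ 2 + ∑ F (X - X') - 2 (n - 1) r ∑ F (X))`. -/
def expr {n r : ℕ} (F : ℚ → ℚ) (j1 : Fin n) (lam : Fin n → Fin r → ℚ) (phi : Fin r → ℚ)
    (t : Fin n → ℚ) : ℚ :=
  ∑ i, ∑ k, F (lam j1 i - lam j1 k) + ∑ i, ∑ k, F (phi i - phi k) -
    2 * ∑ i, ∑ k, F (lam j1 i - phi k + ∑ j ∈ univ.erase j1, t j) -
    (((n - 1 : ℕ) * r : ℚ) ^ 2 + (∑ j ∈ univ.erase j1, ∑ l, ∑ j' ∈ univ.erase j1, ∑ l',
      F ((lam j l - t j) - (lam j' l' - t j'))) -
      2 * ((n - 1 : ℕ) * r) * ∑ j ∈ univ.erase j1, ∑ l, F (lam j l - t j))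

/-- The function with the value `1` at the integers and `0` at the other rational numbers. -/
def int1 (q : ℚ) : ℚ := if q.den = 1 then 1 else 0

/-- The number of the `lam j l - t j`, `j ≠ j1`, which are not integers. -/
def nontriv {n r : ℕ} (j1 : Fin n) (lam : Fin n → Fin r → ℚ) (t : Fin n → ℚ) : ℚ :=
  ∑ j ∈ univ.erase j1, ∑ l, (1 - int1 (lam j l - t j))

section defs

variable {R : Type*} [CommRing R] {n r : ℕ}

/-- The residues of the Okubo system `(x - T) Y' = M Y`, where `T` is the diagonal matrix with the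
entries `α (c 0), …, α (c (r - 1))`: the matrix `okubo c M j` consists of the rows `k` of `M` with
`c k = j`, the other rows are zero. So `(x - T)⁻¹ M = ∑ j, okubo c M j / (x - α j)`. -/
def okubo (c : Fin r → Fin n) (M : Matrix (Fin r) (Fin r) R) (j : Fin n) :
    Matrix (Fin r) (Fin r) R :=
  Matrix.of fun k l => if c k = j then M k l else 0

/-- The `p`-curvature is nonzero at every closed point of `Spec R` whose residue characteristic is a
large prime in one of the classes of `S` modulo `N`. -/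
def NonzeroFor (α : Fin n → R) (A : Fin n → Matrix (Fin r) (Fin r) R) (N : ℕ)
    (S : Finset (ZMod N)ˣ) : Prop :=
  ∃ P₀ : ℕ, ∀ p : ℕ, p.Prime → P₀ < p → ∀ v ∈ S, (p : ZMod N) = (v : ZMod N) →
    ∀ (𝔪 : Ideal R) [𝔪.IsMaximal], (p : R) ∈ 𝔪 → ¬ PCurvZeroAt α A 𝔪

/-- There are a residue class modulo some `B`, prime to `B` (the class of the primes `p` with
`a p = -1` modulo `B`), and a nonzero `g` such that the `p`-curvature is nonzero at every closed point
of `Spec R[1/g]` whose residue characteristic is a large prime in that class. -/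
def BadSome (α : Fin n → R) (A : Fin n → Matrix (Fin r) (Fin r) R) : Prop :=
  ∃ (B : ℕ) (a : ℤ), 0 < B ∧ IsCoprime a (B : ℤ) ∧ ∃ g : R, g ≠ 0 ∧ ∃ P₀ : ℕ,
    ∀ p : ℕ, p.Prime → P₀ < p → (B : ℤ) ∣ a * p + 1 →
      ∀ (𝔪 : Ideal R) [𝔪.IsMaximal], (p : R) ∈ 𝔪 → g ∉ 𝔪 → ¬ PCurvZeroAt α A 𝔪

end defs

end Pool.Agent.R927
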