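import Pool.Agent.R927.GH1

set_option autoImplicit false

/-!
The gap in the quadratic inequality: a level at which the distribution functions differ.
-/

namespace Pool.Agent.R927

open Finset Pool.Agent.W280.PC

/-- the first level at which the distribution functions differ -/
lemma exists_level {D : ℕ} (n M : ℕ → ℤ)
    (hn : ∀ s ∈ range D, 0 ≤ n s) (hM : ∀ s ∈ range D, 0 ≤ M s)
    (hsum : ∑ s ∈ range D, n s = ∑ k ∈ range D, M k)
    (hall : ∀ x : ℤ, 0 ≤ x → ∑ s ∈ range D, max (n s - x) 0 ≤ ∑ k ∈ range D, max (M k - x) 0)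
    (hlt : ∑ s ∈ range D, n s ^ 2 < ∑ k ∈ range D, M k ^ 2) :
    ∃ h : ℤ, 1 ≤ h ∧
      (((range D).filter fun k => h ≤ M k).card : ℤ) <
        (((range D).filter fun s => h ≤ n s).card : ℤ) ∧
      0 < ((range D).filter fun k => h ≤ M k).card ∧
      2 * ((((range D).filter fun s => h ≤ n s).card : ℤ) -
        (((range D).filter fun k => h ≤ M k).card : ℤ)) ≤
        ∑ k ∈ range D, M k ^ 2 - ∑ s ∈ range D, n s ^ 2 := by
  classical
  set f : ℕ → ℤ := fun x => ∑ s ∈ range D, max (n s - (x : ℤ)) 0 with hf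
  set g : ℕ → ℤ := fun x => ∑ s ∈ range D, max (M s - (x : ℤ)) 0 with hg
  have hstep : ∀ (t : ℕ → ℤ) (x : ℕ), ∑ s ∈ range D, max (t s - (x : ℤ)) 0 -
      ∑ s ∈ range D, max (t s - ((x + 1 : ℕ) : ℤ)) 0 =
      (((range D).filter fun s => ((x : ℤ) + 1) ≤ t s).card : ℤ) := by
    intro t x
    rw [← sum_sub_distrib, card_filter]
    push_cast
    refine sum_congr rfl fun s _ => ?_
    split_ifs with h
    · rw [max_eq_left (by linarith), max_eq_left (by linarith)]
      ring
    · rw [max_eq_right (by linarith), max_eq_right (by linarith)]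
      ring
  obtain ⟨H, hH1, hH2⟩ : ∃ H : ℕ, (∀ s ∈ range D, n s ≤ H) ∧ ∀ s ∈ range D, M s ≤ H := by
    refine ⟨(∑ s ∈ range D, n s).toNat, fun s hs => ?_, fun s hs => ?_⟩
    · have h1 := single_le_sum hn hs
      have h2 := Int.self_le_toNat (∑ s ∈ range D, n s)
      linarith
    · have h1 := single_le_sum hM hs
      have h2 := Int.self_le_toNat (∑ s ∈ range D, n s)
      linarith
  have hsq : ∀ t : ℕ → ℤ, (∀ s ∈ range D, 0 ≤ t s) → (∀ s ∈ range D, t s ≤ H) →
      ∑ s ∈ range D, t s ^ 2 = ∑ s ∈ range D, t s +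
        2 * ∑ x ∈ range H, ∑ s ∈ range D, max (t s - ((x + 1 : ℕ) : ℤ)) 0 := by
    intro t h0 h1
    rw [sum_comm, mul_sum, ← sum_add_distrib]
    refine sum_congr rfl fun s hs => ?_
    have h2 := sq_eq_sum (h0 s hs) (h1 s hs)
    push_cast
    exact h2
  have e1 := hsq n hn hH1
  have e2 := hsq M hM hH2
  have hex : ∃ x, f (x + 1) < g (x + 1) ∧ x < H := by
    by_contra hcon
    push Not at hcon
    have h1 : ∑ x ∈ range H, g (x + 1) ≤ ∑ x ∈ range H, f (x + 1) := by
      refine sum_le_sum fun x hx => ?_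
      by_contra h2
      exact absurd (hcon x (not_le.1 h2)) (not_le.2 (mem_range.1 hx))
    simp only [hf, hg] at h1
    linarith
  set x0 := Nat.find hex with hx0
  obtain ⟨hx1, hx2⟩ : f (x0 + 1) < g (x0 + 1) ∧ x0 < H := Nat.find_spec hex
  have hfg : ∀ x, f x ≤ g x := fun x => hall x (by positivity)
  have heq : f x0 = g x0 := by
    rcases Nat.eq_zero_or_pos x0 with h | h
    · rw [h]
      simp only [hf, hg, Nat.cast_zero, sub_zero]
      rw [sum_congr rfl fun s hs => max_eq_left (hn s hs),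
        sum_congr rfl fun s hs => max_eq_left (hM s hs)]
      exact hsum
    · refine le_antisymm (hfg x0) (not_lt.1 fun h1 => ?_)
      refine Nat.find_min hex (m := x0 - 1) (by omega) ⟨?_, by omega⟩
      rw [show x0 - 1 + 1 = x0 by omega]
      exact h1
  have s1 := hstep n x0
  have s2 := hstep M x0
  refine ⟨(x0 : ℤ) + 1, by omega, ?_, ?_, ?_⟩
  · rw [← s1, ← s2]
    simp only [hf, hg] at heq hx1
    linarith
  · have h0 : 0 ≤ f (x0 + 1) := sum_nonneg fun _ _ => le_max_right _ _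
    have h1 : 0 < g (x0 + 1) := lt_of_le_of_lt h0 hx1
    obtain ⟨k, hk, hk2⟩ := exists_lt_of_sum_lt (s := range D) (f := fun _ => (0 : ℤ))
      (g := fun s => max (M s - ((x0 + 1 : ℕ) : ℤ)) 0) (by rw [sum_const_zero]; exact h1)
    rw [card_pos]
    refine ⟨k, mem_filter.2 ⟨hk, ?_⟩⟩
    rcases lt_max_iff.1 hk2 with h2 | h2
    · push_cast at h2
      linarith
    · exact absurd h2 (lt_irrefl _)
  · rw [← s1, ← s2]
    have h1 : g (x0 + 1) - f (x0 + 1) ≤ ∑ x ∈ range H, (g (x + 1) - f (x + 1)) :=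
      single_le_sum (f := fun x => g (x + 1) - f (x + 1))
        (fun x _ => sub_nonneg.2 (hfg (x + 1))) (mem_range.2 hx2)
    rw [sum_sub_distrib] at h1
    simp only [hf, hg] at heq h1
    linarith

lemma level_card {q D : ℕ} (hD : 0 < D) (d : Fin q → ℤ) (h1 : ∀ l, d l < D) (h : ℤ) (hh : 1 ≤ h)
    (hpos : 0 < ((range D).filter fun k : ℕ =>
      h ≤ ((univ.filter fun l => ((k : ℤ) + 1 ≤ d l)).card : ℤ)).card) :
    ∃ l, (((range D).filter fun k : ℕ =>
      h ≤ ((univ.filter fun l => ((k : ℤ) + 1 ≤ d l)).card : ℤ)).card : ℤ) = d l := by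
  classical
  set M : ℕ → ℤ := fun k => ((univ.filter fun l => ((k : ℤ) + 1 ≤ d l)).card : ℤ) with hM
  have hanti : Antitone M := by
    intro k k' hkk
    simp only [hM]
    have : (k : ℤ) ≤ k' := by exact_mod_cast hkk
    exact_mod_cast card_le_card (fun l hl => by
      rw [mem_filter] at hl ⊢
      exact ⟨hl.1, by have := hl.2; push_cast at this; omega⟩)
  have hMD : M (D - 1) = 0 := by
    simp only [hM]
    rw [filter_false_of_mem, card_empty, Nat.cast_zero]
    intro l _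
    have := h1 l
    omega
  have hex : ∃ k, M k < h := ⟨D - 1, by rw [hMD]; omega⟩
  set K := Nat.find hex with hK
  have hK1 : M K < h := Nat.find_spec hex
  have hK2 : K ≤ D - 1 := Nat.find_min' hex (by rw [hMD]; omega)
  have hset : ((range D).filter fun k : ℕ => h ≤ M k) = range K := by
    ext k
    rw [mem_filter, mem_range, mem_range]
    constructor
    · rintro ⟨-, h2⟩
      by_contra h3
      have h4 := hanti (not_lt.1 h3)
      linarith
    · intro h2
      exact ⟨by omega, not_lt.1 (Nat.find_min hex h2)⟩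
  change 0 < ((range D).filter fun k : ℕ => h ≤ M k).card at hpos
  change ∃ l, (((range D).filter fun k : ℕ => h ≤ M k).card : ℤ) = d l
  rw [hset, card_range] at hpos ⊢
  have hK3 : h ≤ M (K - 1) := not_lt.1 (Nat.find_min hex (by omega))
  by_contra hcon
  push Not at hcon
  have h2 : (univ.filter fun l => ((((K - 1 : ℕ) : ℤ)) + 1 ≤ d l)) =
      univ.filter fun l => ((K : ℤ) + 1 ≤ d l) := by
    ext l
    simp only [mem_filter, mem_univ, true_and]
    have := hcon l
    omega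
  have h3 : M (K - 1) = M K := by
    simp only [hM]
    rw [h2]
  linarith

lemma pick {r D : ℕ} (y : Fin r → ℤ) (P : Finset ℕ) (hP : ∀ s ∈ P, s < D)
    (h : ∀ s ∈ P, ∃ i, (D : ℤ) ∣ y i - s) :
    ∃ I : Finset (Fin r), (D : ℤ) ∣ ∑ i ∈ I, y i - ∑ s ∈ P, (s : ℤ) := by
  classical
  choose f hf using h
  refine ⟨P.attach.image fun s => f s.1 s.2, ?_⟩
  rw [sum_image, ← sum_attach P, ← sum_sub_distrib]
  · exact dvd_sum fun s _ => hf s.1 s.2
  · rintro ⟨a, ha⟩ - ⟨b, hb⟩ - hab
    have h1 := hf a ha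
    have h2 := hf b hb
    simp only at hab
    rw [← hab] at h2
    have h3 : (D : ℤ) ∣ (a : ℤ) - b := by
      have h4 := dvd_sub h2 h1
      have h5 : y (f a ha) - b - (y (f a ha) - a) = (a : ℤ) - b := by ring
      rwa [h5] at h4
    have h4 := hP a ha
    have h5 := hP b hb
    have h6 := Int.eq_zero_of_abs_lt_dvd h3 (by rw [abs_lt]; constructor <;> omega)
    have h7 : a = b := by omega
    subst h7
    rfl

lemma abel_aux (χ : ℕ → ℤ) (m : ℕ) :
    ∑ s ∈ range m, χ s = m * χ m - ∑ s ∈ range m, ((s : ℤ) + 1) * (χ (s + 1) - χ s) := by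
  induction m with
  | zero => simp
  | succ m ih =>
    rw [sum_range_succ, sum_range_succ, ih]
    push_cast
    ring

lemma sub_one_ediv {D : ℕ} (hD : 0 < D) {u : ℤ} (h : ¬ (D : ℤ) ∣ u) :
    (u - 1) / (D : ℤ) = u / (D : ℤ) := by
  have hD' : (0 : ℤ) < D := by exact_mod_cast hD
  have h1 := Int.emod_add_mul_ediv u D
  have h2 := Int.emod_nonneg u hD'.ne'
  have h3 := Int.emod_lt_of_pos u hD'
  have h4 : u % D ≠ 0 := fun h0 => h (Int.dvd_of_emod_eq_zero h0)
  have h5 : u - 1 = (u % D - 1) + D * (u / D) := by linarith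
  rw [h5, Int.add_mul_ediv_left _ _ hD'.ne', Int.ediv_eq_zero_of_lt (by omega) (by omega), zero_add]

/-- The number of the places at which the counting function is at least `h` is a difference of sums of
exponents. -/
lemma level_form {r D : ℕ} (hD : 0 < D) (y e : Fin r → ℤ) (K h : ℤ) :
    ∃ I I' : Finset (Fin r), (D : ℤ) ∣ (((range D).filter fun s : ℕ =>
      h ≤ ∑ i, (y i - (s : ℤ)) / (D : ℤ) - ∑ i, (e i - (s : ℤ)) / (D : ℤ) - K).card : ℤ) -
        (∑ i ∈ I, y i - ∑ i ∈ I', e i) := by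
  classical
  have hD' : (0 : ℤ) < D := by exact_mod_cast hD
  set ν : ℕ → ℤ := fun s => ∑ i, (y i - (s : ℤ)) / (D : ℤ) - ∑ i, (e i - (s : ℤ)) / (D : ℤ) - K
    with hν
  set χ : ℕ → ℤ := fun s => if h ≤ ν s then 1 else 0 with hχ
  have hcard : (((range D).filter fun s : ℕ => h ≤ ν s).card : ℤ) = ∑ s ∈ range D, χ s := by
    rw [card_filter]
    push_cast
    rfl
  have hper : χ D = χ 0 := by
    have h1 : ν D = ν 0 := by
      simp only [hν]
      have h2 : ∀ u : ℤ, (u - (D : ℤ)) / (D : ℤ) = (u - ((0 : ℕ) : ℤ)) / (D : ℤ) - 1 := by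
        intro u
        rw [show u - (D : ℤ) = (u - ((0 : ℕ) : ℤ)) + D * (-1) by push_cast; ring,
          Int.add_mul_ediv_left _ _ hD'.ne']
        ring
      simp only [h2, sum_sub_distrib]
      ring
    simp only [hχ, h1]
  have hmono : ∀ u : ℤ, (u - 1) / (D : ℤ) ≤ u / (D : ℤ) := fun u =>
    Int.ediv_le_ediv hD' (by linarith)
  have hdn : ∀ s : ℕ, ν (s + 1) < ν s → ∃ i, (D : ℤ) ∣ y i - s := by
    intro s hs
    by_contra hcon
    push Not at hcon
    have h1 : ∑ i, (y i - ((s + 1 : ℕ) : ℤ)) / (D : ℤ) = ∑ i, (y i - (s : ℤ)) / (D : ℤ) :=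
      sum_congr rfl fun i _ => by
        rw [show y i - ((s + 1 : ℕ) : ℤ) = (y i - s) - 1 by push_cast; ring]
        exact sub_one_ediv hD (hcon i)
    have h2 : ∑ i, (e i - ((s + 1 : ℕ) : ℤ)) / (D : ℤ) ≤ ∑ i, (e i - (s : ℤ)) / (D : ℤ) :=
      sum_le_sum fun i _ => by
        rw [show e i - ((s + 1 : ℕ) : ℤ) = (e i - s) - 1 by push_cast; ring]
        exact hmono _
    simp only [hν] at hs
    linarith
  have hup : ∀ s : ℕ, ν s < ν (s + 1) → ∃ i, (D : ℤ) ∣ e i - s := by
    intro s hs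
    by_contra hcon
    push Not at hcon
    have h1 : ∑ i, (e i - ((s + 1 : ℕ) : ℤ)) / (D : ℤ) = ∑ i, (e i - (s : ℤ)) / (D : ℤ) :=
      sum_congr rfl fun i _ => by
        rw [show e i - ((s + 1 : ℕ) : ℤ) = (e i - s) - 1 by push_cast; ring]
        exact sub_one_ediv hD (hcon i)
    have h2 : ∑ i, (y i - ((s + 1 : ℕ) : ℤ)) / (D : ℤ) ≤ ∑ i, (y i - (s : ℤ)) / (D : ℤ) :=
      sum_le_sum fun i _ => by
        rw [show y i - ((s + 1 : ℕ) : ℤ) = (y i - s) - 1 by push_cast; ring]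
        exact hmono _
    simp only [hν] at hs
    linarith
  set P := (range D).filter fun s => χ (s + 1) < χ s with hP
  set P' := (range D).filter fun s => χ s < χ (s + 1) with hP'
  obtain ⟨I, hI⟩ := pick (D := D) y P (fun s hs => mem_range.1 (mem_filter.1 hs).1) (fun s hs => by
    refine hdn s (not_le.1 fun h1 => ?_)
    have h2 := (mem_filter.1 hs).2
    simp only [hχ] at h2
    split_ifs at h2 <;> omega)
  obtain ⟨I', hI'⟩ := pick (D := D) e P' (fun s hs => mem_range.1 (mem_filter.1 hs).1) (fun s hs => by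
    refine hup s (not_le.1 fun h1 => ?_)
    have h2 := (mem_filter.1 hs).2
    simp only [hχ] at h2
    split_ifs at h2 <;> omega)
  refine ⟨I, I', ?_⟩
  change (D : ℤ) ∣ (((range D).filter fun s : ℕ => h ≤ ν s).card : ℤ) - _
  rw [hcard, abel_aux]
  have h1 : ∑ s ∈ range D, ((s : ℤ) + 1) * (χ (s + 1) - χ s) =
      ∑ s ∈ P', (s : ℤ) - ∑ s ∈ P, (s : ℤ) := by
    have h2 : ∑ s ∈ range D, ((s : ℤ) + 1) * (χ (s + 1) - χ s) =
        ∑ s ∈ range D, (s : ℤ) * (χ (s + 1) - χ s) + ∑ s ∈ range D, (χ (s + 1) - χ s) := by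
      rw [← sum_add_distrib]
      exact sum_congr rfl fun s _ => by ring
    rw [h2, sum_range_sub, hper, sub_self, add_zero, hP, hP', sum_filter, sum_filter,
      ← sum_sub_distrib]
    refine sum_congr rfl fun s _ => ?_
    simp only [hχ]
    split_ifs <;> omega
  rw [h1]
  have h2 : (D : ℤ) * χ D - (∑ s ∈ P', (s : ℤ) - ∑ s ∈ P, (s : ℤ)) -
      (∑ i ∈ I, y i - ∑ i ∈ I', e i) = D * χ D - (∑ i ∈ I, y i - ∑ s ∈ P, (s : ℤ)) +
      (∑ i ∈ I', e i - ∑ s ∈ P', (s : ℤ)) := by ring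
  rw [h2]
  exact dvd_add (dvd_sub (Dvd.intro _ rfl) hI) hI'

end Pool.Agent.R927
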