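import Pool.Agent.R927.GG1

set_option autoImplicit false

/-!
The gap in the quadratic inequality: the first level at which the distribution functions differ is
the residue of a linear form in the exponents.
-/

namespace Pool.Agent.R927

open Finset Pool.Agent.W280.PC

theorem majorize_level {D : ℕ} (hD : 0 < D) (n M : ℕ → ℤ) (anti : Antitone M)
    (hM : M (D - 1) = 0) (hsum : ∑ s ∈ range D, n s = ∑ k ∈ range D, M k)
    (h : ∀ k ∈ range D, ∑ s ∈ range D, max (n s - M k) 0 ≤ ∑ k' ∈ range D, max (M k' - M k) 0)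
    (hst : ∃ k ∈ range D, 1 ≤ M k ∧
        ∑ s ∈ range D, max (n s - M k) 0 < ∑ k' ∈ range D, max (M k' - M k) 0) :
    ∃ h : ℤ, 1 ≤ h ∧
      (((range D).filter fun k => h ≤ M k).card : ℤ) <
        (((range D).filter fun s => h ≤ n s).card : ℤ) ∧
      0 < ((range D).filter fun k => h ≤ M k).card ∧
      2 * ((((range D).filter fun s => h ≤ n s).card : ℤ) -
        (((range D).filter fun k => h ≤ M k).card : ℤ)) ≤
        ∑ k ∈ range D, M k ^ 2 - ∑ s ∈ range D, n s ^ 2 := by
  classical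
  have hMnn : ∀ k ∈ range D, 0 ≤ M k := by
    intro k hk
    rw [← hM]
    exact anti (by have := mem_range.1 hk; omega)
  have hMle : ∀ k, M k ≤ M 0 := fun k => anti (Nat.zero_le k)
  have hM0 : 0 ≤ M 0 := hMnn 0 (mem_range.2 hD)
  have hnn : ∀ s ∈ range D, 0 ≤ n s := by
    have h1 := h (D - 1) (mem_range.2 (by omega))
    rw [hM] at h1
    simp only [sub_zero] at h1
    have h2 : ∑ k ∈ range D, max (M k) 0 = ∑ k ∈ range D, M k :=
      sum_congr rfl fun k hk => max_eq_left (hMnn k hk)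
    rw [h2, ← hsum] at h1
    intro s hs
    by_contra hneg
    have h3 : ∑ s ∈ range D, n s < ∑ s ∈ range D, max (n s) 0 :=
      sum_lt_sum (fun k _ => le_max_left _ _) ⟨s, hs, lt_max_of_lt_right (not_le.1 hneg)⟩
    linarith
  have hf0 : ∑ s ∈ range D, max (n s - M 0) 0 = 0 := by
    have h1 := h 0 (mem_range.2 hD)
    have h2 : ∑ k' ∈ range D, max (M k' - M 0) 0 = 0 :=
      sum_eq_zero fun k _ => max_eq_right (by linarith [hMle k])
    rw [h2] at h1
    exact le_antisymm h1 (sum_nonneg fun _ _ => le_max_right _ _)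
  have hnle : ∀ s ∈ range D, n s ≤ M 0 := by
    intro s hs
    have h1 := (sum_eq_zero_iff_of_nonneg fun _ _ => le_max_right _ _).1 hf0 s hs
    have h2 : n s - M 0 ≤ max (n s - M 0) 0 := le_max_left _ _
    rw [h1] at h2
    linarith
  -- the hinge inequalities at all nonnegative integers
  have hall : ∀ x : ℤ, 0 ≤ x →
      ∑ s ∈ range D, max (n s - x) 0 ≤ ∑ k ∈ range D, max (M k - x) 0 := by
    intro x hx
    rcases le_or_gt (M 0) x with hx0 | hx0
    · have h1 : ∑ s ∈ range D, max (n s - x) 0 = 0 :=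
        sum_eq_zero fun s hs => max_eq_right (by linarith [hnle s hs])
      rw [h1]
      exact sum_nonneg fun _ _ => le_max_right _ _
    · have hex : ∃ k, M k ≤ x := ⟨D - 1, by rw [hM]; exact hx⟩
      set k₀ := Nat.find hex with hk₀
      have h1 : M k₀ ≤ x := Nat.find_spec hex
      have h2 : k₀ ≤ D - 1 := Nat.find_min' hex (by rw [hM]; exact hx)
      have h3 : k₀ ≠ 0 := by
        intro h0
        rw [h0] at h1
        linarith
      have h4 : x < M (k₀ - 1) := not_le.1 (Nat.find_min hex (by omega))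
      have h5 := h k₀ (mem_range.2 (by omega))
      have h6 := h (k₀ - 1) (mem_range.2 (by omega))
      have h7 : (M (k₀ - 1) - M k₀) * ∑ s ∈ range D, max (n s - x) 0 ≤
          (M (k₀ - 1) - x) * ∑ s ∈ range D, max (n s - M k₀) 0 +
          (x - M k₀) * ∑ s ∈ range D, max (n s - M (k₀ - 1)) 0 := by
        rw [mul_sum, mul_sum, mul_sum, ← sum_add_distrib]
        exact sum_le_sum fun s _ => interp h1 h4.le
      have h8 : (M (k₀ - 1) - M k₀) * ∑ k ∈ range D, max (M k - x) 0 =
          (M (k₀ - 1) - x) * ∑ k ∈ range D, max (M k - M k₀) 0 +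
          (x - M k₀) * ∑ k ∈ range D, max (M k - M (k₀ - 1)) 0 := by
        rw [mul_sum, mul_sum, mul_sum, ← sum_add_distrib]
        refine sum_congr rfl fun k _ => interp_eq h1 h4.le ?_
        rcases le_or_gt k₀ k with hk | hk
        · exact Or.inl (anti hk)
        · exact Or.inr (anti (by omega))
      have h9 := mul_le_mul_of_nonneg_left h5 (by linarith : 0 ≤ M (k₀ - 1) - x)
      have h10 := mul_le_mul_of_nonneg_left h6 (by linarith : 0 ≤ x - M k₀)
      have h11 : (M (k₀ - 1) - M k₀) * ∑ s ∈ range D, max (n s - x) 0 ≤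
          (M (k₀ - 1) - M k₀) * ∑ k ∈ range D, max (M k - x) 0 := by linarith
      exact le_of_mul_le_mul_left h11 (by linarith)
  exact exists_level n M hnn hMnn hsum hall ((majorize hD n M anti hM hsum h).2 hst)

section main

variable {r q : ℕ} {D : ℕ}

/-- The level. -/
theorem quad_level_gen {st : Prop} {c : ℕ} (hD : 0 < D) (hD2 : (2 : ℤ) ∣ D) (hq : q = c * r)
    (x : Fin q → ℤ) (y e : Fin r → ℤ) (hx : ∀ l, 2 ∣ x l)
    (hsum : ∑ l, x l + ∑ l, y l = ∑ l, e l)
    (H : ∀ δ : ℤ, ¬ 2 ∣ δ → 0 < δ → δ < D → HData st D c x y e δ) (hst0 : st)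
    (hll : ∃ l l', 0 < (0 - x l) % D ∧ (0 - x l) % D < (0 - x l') % D) :
    ∃ (I I' : Finset (Fin r)) (l : Fin q) (w : ℤ), 0 < w ∧ w < D ∧
      (D : ℤ) ∣ w - (∑ i ∈ I, y i - ∑ i ∈ I', e i + x l) ∧
      4 * D * w ≤ (∑ i, ∑ j, Q D (x i - x j) - 2 * q * ∑ l, Q D (x l)) -
        (∑ i, ∑ j, Q D (y i - y j) + ∑ i, ∑ j, Q D (e i - e j) - 2 * ∑ i, ∑ j, Q D (y i - e j)) := by
  classical
  have hD' : (0 : ℤ) < D := by exact_mod_cast hD
  set d : Fin q → ℤ := fun l => (0 - x l) % D with hd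
  set K : ℤ := ∑ l, (0 - x l) / (D : ℤ) with hK
  set n : ℕ → ℤ := fun s => ∑ i, (y i - (s : ℤ)) / (D : ℤ) - ∑ i, (e i - (s : ℤ)) / (D : ℤ)
    - K with hn
  set M : ℕ → ℤ := fun k => ((univ.filter fun l => ((k : ℤ) + 1 ≤ d l)).card : ℤ) with hM
  have hdn : ∀ l, 0 ≤ d l := fun l => Int.emod_nonneg _ hD'.ne'
  have hdl : ∀ l, d l < D := fun l => Int.emod_lt_of_pos _ hD'
  have hd2 : ∀ l, 2 ∣ d l := fun l => by
    have h1 : (2 : ℤ) ∣ (0 - x l) % D - (0 - x l) := hD2.trans Int.dvd_emod_sub_self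
    have h2 : (2 : ℤ) ∣ 0 - x l := dvd_sub (dvd_zero _) (hx l)
    exact (dvd_sub_left h2).1 h1
  have hDe : D = D / 2 * 2 := by omega
  have hanti : Antitone M := by
    intro k k' hkk
    simp only [hM]
    have : (k : ℤ) ≤ k' := by exact_mod_cast hkk
    exact_mod_cast card_le_card (fun l hl => by
      rw [mem_filter] at hl ⊢
      exact ⟨hl.1, by have := hl.2; push_cast at this; omega⟩)
  have hMD : M (D - 1) = 0 := by
    simp only [hM]
    rw [filter_false_of_mem, card_empty, Nat.cast_zero]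
    intro l _
    have := hdl l
    omega
  have hsumd : ∑ i, y i - ∑ i, e i - D * K = ∑ l, d l := by
    have e4 : - ∑ l, x l = ∑ l, (0 - x l) % D + D * ∑ l, (0 - x l) / (D : ℤ) := by
      rw [mul_sum, ← sum_add_distrib]
      rw [sum_congr rfl fun l _ => Int.emod_add_mul_ediv (0 - x l) D, ← sum_neg_distrib]
      exact sum_congr rfl fun l _ => by ring
    rw [← hsum]
    linear_combination e4
  have hns : ∑ s ∈ range D, n s = ∑ k ∈ range D, M k := by
    rw [sum_layer d hdn hdl, ← hsumd]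
    simp only [hn]
    rw [sum_sub_distrib, sum_sub_distrib, sum_comm, sum_comm (s := range D) (t := univ),
      sum_const, card_range, nsmul_eq_mul]
    have h1 := fun (u : ℤ) => sum_ediv hD u
    rw [sum_congr rfl fun i _ => h1 (y i), sum_congr rfl fun i _ => h1 (e i),
      sum_add_distrib, sum_add_distrib]
    ring
  have hstar : ∀ k ∈ range D, ¬ 2 ∣ ((k : ℤ) + 1) →
      ∑ s ∈ range D, max (n s - M k) 0 ≤ ∑ k' ∈ range D, max (M k' - M k) 0 ∧
      (st → (∃ l, 0 < d l ∧ d l < (k : ℤ) + 1) → (∃ l, (k : ℤ) + 1 < d l) →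
      ∑ s ∈ range D, max (n s - M k) 0 < ∑ k' ∈ range D, max (M k' - M k) 0) := by
    intro k hk hk2
    have hkD := mem_range.1 hk
    rw [sum_layer_hinge d hdn hkD]
    have hlt : (k : ℤ) + 1 < D := by omega
    exact hinge_star_gen hD hq x y e hsum ((k : ℤ) + 1) (by positivity) hlt
      (fun l h => hk2 (h ▸ hd2 l)) (H _ hk2 (by positivity) hlt)
  have hall : ∀ k ∈ range D,
      ∑ s ∈ range D, max (n s - M k) 0 ≤ ∑ k' ∈ range D, max (M k' - M k) 0 := by
    intro k hk
    by_cases hk2 : 2 ∣ ((k : ℤ) + 1)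
    · have hk0 : 1 ≤ k := by omega
      have hMk : M k = M (k - 1) := by
        simp only [hM]
        congr 2
        ext l
        simp only [mem_filter, mem_univ, true_and]
        have h3 := hd2 l
        omega
      have hk3 : ¬ 2 ∣ (((k - 1 : ℕ) : ℤ) + 1) := by omega
      rw [hMk]
      exact (hstar (k - 1) (mem_range.2 (by have := mem_range.1 hk; omega)) hk3).1
    · exact (hstar k hk hk2).1
  have hMsq : ∑ k ∈ range D, M k ^ 2 = ∑ l, ∑ l', min (d l) (d l') := sum_layer_sq d hdn hdl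
  have hnsq := sum_n_sq hD y e K
  rw [hsumd] at hnsq
  have hmin : 2 * (D : ℤ) * ∑ l, ∑ l', min (d l) (d l') = 2 * (∑ l, d l) ^ 2 +
      ∑ i, ∑ j, Q D (x i - x j) - 2 * q * ∑ l, Q D (x l) := by
    have h1 : ∀ l l', 2 * (D : ℤ) * min (d l) (d l') =
        2 * (d l * d l') + Q D (x l' - x l) - Q D (x l) - Q D (x l') := by
      intro l l'
      rw [two_mul_min (hdn l) (hdl l) (hdn l') (hdl l')]
      have h2 : Q D (d l - d l') = Q D (x l' - x l) := by
        apply Q_congr
        have h3 : (D : ℤ) ∣ (0 - x l) % D - (0 - x l) := Int.dvd_emod_sub_self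
        have h4 : (D : ℤ) ∣ (0 - x l') % D - (0 - x l') := Int.dvd_emod_sub_self
        have h5 : d l - d l' - (x l' - x l) = ((0 - x l) % D - (0 - x l)) -
          ((0 - x l') % D - (0 - x l')) := by
          simp only [hd]
          ring
        rw [h5]
        exact dvd_sub h3 h4
      have h6 : ∀ l, Q D (d l) = Q D (x l) := fun l => by
        rw [← Q_neg hD (x l), ← zero_sub (x l)]
        exact Q_congr Int.dvd_emod_sub_self
      rw [h2, h6, h6]
      ring
    have h7 : ∀ l, 2 * (D : ℤ) * ∑ l', min (d l) (d l') =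
        2 * (d l * ∑ l', d l') + ∑ l', Q D (x l' - x l) - q * Q D (x l) -
        ∑ l', Q D (x l') := by
      intro l
      rw [mul_sum, sum_congr rfl fun l' _ => h1 l l', sum_sub_distrib, sum_sub_distrib,
        sum_add_distrib, sum_const, card_univ, Fintype.card_fin, nsmul_eq_mul, ← mul_sum,
        ← mul_sum]
    rw [mul_sum, sum_congr rfl fun l _ => h7 l, sum_sub_distrib, sum_sub_distrib,
      sum_add_distrib, sum_const, card_univ, Fintype.card_fin, nsmul_eq_mul, ← mul_sum, ← mul_sum,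
      ← sum_mul, sum_comm (f := fun l l' => Q D (x l' - x l))]
    ring
  have hD2' : (0 : ℤ) < 2 * D := by linarith
  obtain ⟨l, l', hl, hl'⟩ := hll
  change 0 < d l at hl
  change d l < d l' at hl'
  obtain ⟨h, hh1, hlt, hpos, hbd⟩ := majorize_level hD n M hanti hMD hns hall
    ⟨(d l).toNat, mem_range.2 (by
      have := hdl l
      omega), by
        have h2 : l' ∈ univ.filter fun l'' => ((((d l).toNat : ℕ) : ℤ) + 1 ≤ d l'') := by
          rw [mem_filter]
          exact ⟨mem_univ _, by omega⟩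
        have h3 := card_pos.2 ⟨l', h2⟩
        simp only [hM]
        omega, by
        have h2 := hd2 l
        have h3 := hd2 l'
        refine (hstar (d l).toNat (mem_range.2 (by
          have := hdl l
          omega)) (by omega)).2 hst0 ⟨l, hl, by omega⟩ ⟨l', by omega⟩⟩
  obtain ⟨I, I', hI⟩ := level_form hD y e K h
  obtain ⟨l₀, hl₀⟩ := level_card hD d hdl h hh1 hpos
  set a : ℤ := (((range D).filter fun s => h ≤ n s).card : ℤ) with ha
  set b : ℤ := (((range D).filter fun k => h ≤ M k).card : ℤ) with hb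
  have hI2 : (D : ℤ) ∣ a - (∑ i ∈ I, y i - ∑ i ∈ I', e i) := hI
  have hb2 : b = d l₀ := hl₀
  have haD : a ≤ D := by
    rw [ha]
    have h1 := card_filter_le (range D) fun s => h ≤ n s
    rw [card_range] at h1
    exact_mod_cast h1
  have hbpos : 0 < b := by
    rw [hb]
    exact_mod_cast hpos
  refine ⟨I, I', l₀, a - b, by linarith, by linarith, ?_, ?_⟩
  · have h1 : (D : ℤ) ∣ d l₀ - (0 - x l₀) := Int.dvd_emod_sub_self
    have h2 : a - b - (∑ i ∈ I, y i - ∑ i ∈ I', e i + x l₀) =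
        (a - (∑ i ∈ I, y i - ∑ i ∈ I', e i)) - (d l₀ - (0 - x l₀)) := by
      rw [hb2]
      ring
    rw [h2]
    exact dvd_sub hI2 h1
  · have h1 := mul_le_mul_of_nonneg_left hbd hD2'.le
    have h2 : 2 * (D : ℤ) * ∑ k ∈ range D, M k ^ 2 = 2 * (∑ l, d l) ^ 2 +
        ∑ i, ∑ j, Q D (x i - x j) - 2 * q * ∑ l, Q D (x l) := by
      rw [hMsq, hmin]
    have h3 : 2 * (D : ℤ) * (∑ k ∈ range D, M k ^ 2 - ∑ s ∈ range D, n s ^ 2) =
        2 * (D : ℤ) * ∑ k ∈ range D, M k ^ 2 - 2 * (D : ℤ) * ∑ s ∈ range D, n s ^ 2 := by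
      ring
    rw [h3, h2] at h1
    simp only [hn] at h1
    rw [hnsq] at h1
    linarith

end main

end Pool.Agent.R927
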