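import Mathlib

set_option autoImplicit false

/-!
Sums of roots of unity and majorization. The lemmas `aeval_conj` and `exists_prod_eq_int` are by
helper781 (`Pool.Agent.Helper781.CycHouse.Loxton`).
-/

namespace Pool.Agent.R927.GP

open Finset Polynomial

lemma aeval_conj {N : ℕ} (hN : 0 < N) (f : ℤ[X]) {z w : ℂ} (hz : IsPrimitiveRoot z N)
    (hw : IsPrimitiveRoot w N) (h : aeval z f = 0) : aeval w f = 0 := by
  have h1 := minpoly.isIntegrallyClosed_dvd (hz.isIntegral hN) h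
  rw [← cyclotomic_eq_minpoly hz hN, cyclotomic_eq_minpoly hw hN] at h1
  obtain ⟨g, rfl⟩ := h1
  simp

/-- The norm is a rational integer. -/
lemma exists_prod_eq_int {N : ℕ} (hN : 0 < N) (f : ℤ[X]) :
    ∃ m : ℤ, ∏ z ∈ primitiveRoots N ℂ, aeval z f = (m : ℂ) := by
  refine ⟨resultant (cyclotomic N ℤ) f (cyclotomic N ℤ).natDegree f.natDegree, ?_⟩
  have h := resultant_eq_prod_eval (cyclotomic N ℂ) (f.map (Int.castRingHom ℂ)) f.natDegree
    natDegree_map_le (IsAlgClosed.splits _)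
  have h2 : (cyclotomic N ℂ).leadingCoeff = 1 := (cyclotomic.monic N ℂ)
  have h3 : (cyclotomic N ℂ).roots = (primitiveRoots N ℂ).val := by
    have : NeZero N := ⟨hN.ne'⟩
    have : NeZero (N : ℂ) := ⟨by exact_mod_cast hN.ne'⟩
    exact cyclotomic.roots_eq_primitiveRoots_val
  rw [h2, one_pow, one_mul, h3] at h
  have h4 : ∏ z ∈ primitiveRoots N ℂ, aeval z f =
      ((primitiveRoots N ℂ).val.map (f.map (Int.castRingHom ℂ)).eval).prod := by
    rw [Finset.prod]
    congr 1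
    refine Multiset.map_congr rfl fun z _ => ?_
    rw [eval_map, aeval_def]; rfl
  rw [h4, ← h, ← map_cyclotomic_int N ℂ, natDegree_map_eq_of_injective
    (RingHom.injective_int (Int.castRingHom ℂ)), resultant_map_map]
  simp

/-- The mean of the absolute values of the conjugates of a nonzero algebraic integer is at least
one. -/
lemma totient_le_sum {N : ℕ} (hN : 0 < N) (f : ℤ[X]) {z : ℂ} (hz : IsPrimitiveRoot z N)
    (h : aeval z f ≠ 0) : (N.totient : ℝ) ≤ ∑ w ∈ primitiveRoots N ℂ, ‖aeval w f‖ := by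
  have hne : ∀ w ∈ primitiveRoots N ℂ, aeval w f ≠ 0 := by
    intro w hw h0
    rw [mem_primitiveRoots hN] at hw
    exact h (aeval_conj hN f hw hz h0)
  obtain ⟨m, hm⟩ := exists_prod_eq_int hN f
  have hm0 : m ≠ 0 := by
    rintro rfl
    rw [Int.cast_zero] at hm
    exact (prod_ne_zero_iff.mpr hne) hm
  have h1 : (1 : ℝ) ≤ ∏ w ∈ primitiveRoots N ℂ, ‖aeval w f‖ := by
    have : ∏ w ∈ primitiveRoots N ℂ, ‖aeval w f‖ = |(m : ℝ)| := by
      rw [← norm_prod, hm, Complex.norm_intCast]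
    rw [this]
    have : (1 : ℤ) ≤ |m| := Int.one_le_abs hm0
    exact_mod_cast this
  have h2 : (0 : ℝ) ≤ ∑ w ∈ primitiveRoots N ℂ, Real.log ‖aeval w f‖ := by
    rw [← Real.log_prod (fun w hw => by have := hne w hw; positivity)]
    exact Real.log_nonneg h1
  have h3 : ∑ w ∈ primitiveRoots N ℂ, Real.log ‖aeval w f‖ ≤
      ∑ w ∈ primitiveRoots N ℂ, (‖aeval w f‖ - 1) := by
    refine sum_le_sum fun w hw => Real.log_le_sub_one_of_pos ?_
    have := hne w hw
    positivity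
  rw [sum_sub_distrib, sum_const, Complex.card_primitiveRoots] at h3
  rw [nsmul_eq_mul, mul_one] at h3
  linarith

lemma sum_prim {N : ℕ} [NeZero N] {ζ : ℂ} (hζ : IsPrimitiveRoot ζ N) (g : ℂ → ℝ) :
    ∑ w ∈ primitiveRoots N ℂ, g w = ∑ u : (ZMod N)ˣ, g (ζ ^ (u : ZMod N).val) := by
  have hN : 0 < N := Nat.pos_of_ne_zero (NeZero.ne N)
  symm
  refine sum_bij (fun u _ => ζ ^ (u : ZMod N).val) ?_ ?_ ?_ ?_
  · intro u _
    rw [mem_primitiveRoots hN]
    exact hζ.pow_of_coprime _ (ZMod.val_coe_unit_coprime u)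
  · intro u _ v _ h
    have h1 := hζ.pow_inj (ZMod.val_lt _) (ZMod.val_lt _) h
    exact Units.ext (ZMod.val_injective N h1)
  · intro w hw
    rw [mem_primitiveRoots hN] at hw
    obtain ⟨i, hi, hc, hw2⟩ := hζ.isPrimitiveRoot_iff.1 hw
    refine ⟨ZMod.unitOfCoprime i hc, mem_univ _, ?_⟩
    rw [ZMod.coe_unitOfCoprime, ZMod.val_natCast, Nat.mod_eq_of_lt hi, hw2]
  · intro u _
    rfl

lemma layer_step (N y t : ℕ) : y + 1 - (t + 1) = y - (t + 1) + if t < y then 1 else 0 := by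
  split_ifs <;> omega

lemma pow_layer (ω : ℂ) (N : ℕ) : ∀ y : ℕ, y ≤ N →
    ω ^ y = 1 + y * (ω - 1) + (ω - 1) ^ 2 * ∑ t ∈ range N, ω ^ t * ((y - (t + 1) : ℕ) : ℂ) := by
  intro y
  induction y with
  | zero => intro _; simp
  | succ y ih =>
    intro hy
    have h1 : ∑ t ∈ range N, ω ^ t * ((y + 1 - (t + 1) : ℕ) : ℂ) =
        ∑ t ∈ range N, ω ^ t * ((y - (t + 1) : ℕ) : ℂ) + ∑ t ∈ range y, ω ^ t := by
      have h2 : ∑ t ∈ range y, ω ^ t = ∑ t ∈ range N, if t < y then ω ^ t else 0 := by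
        rw [← sum_filter]
        congr 1
        ext t
        simp only [mem_range, mem_filter]
        omega
      rw [h2, ← sum_add_distrib]
      refine sum_congr rfl fun t _ => ?_
      rw [layer_step N y t]
      split_ifs
      · push_cast
        ring
      · push_cast
        ring
    have h3 : (ω - 1) * ∑ t ∈ range y, ω ^ t = ω ^ y - 1 := mul_geom_sum ω y
    have h4 := ih (by omega)
    rw [h1, pow_succ]
    push_cast
    linear_combination ω * h4 - (ω - 1) * h4 + (-(ω - 1)) * h3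

lemma sq_layer' (N : ℕ) : ∀ y : ℕ, y ≤ N →
    (y : ℝ) ^ 2 = y + 2 * ∑ t ∈ range N, ((y - (t + 1) : ℕ) : ℝ) := by
  intro y
  induction y with
  | zero => intro _; simp
  | succ y ih =>
    intro hy
    have h1 : ∑ t ∈ range N, ((y + 1 - (t + 1) : ℕ) : ℝ) =
        ∑ t ∈ range N, ((y - (t + 1) : ℕ) : ℝ) + y := by
      have h2 : (y : ℝ) = ∑ t ∈ range N, if t < y then 1 else 0 := by
        rw [← sum_filter, sum_const, nsmul_eq_mul, mul_one]
        congr 1
        have : (range N).filter (fun t => t < y) = range y := by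
          ext t
          simp only [mem_range, mem_filter]
          omega
        rw [this, card_range]
      rw [h2, ← sum_add_distrib]
      refine sum_congr rfl fun t _ => ?_
      rw [layer_step N y t]
      split_ifs <;> push_cast <;> ring
    have h4 := ih (by omega)
    rw [h1]
    push_cast
    linear_combination h4

/-- The difference of two sums of powers of a number of absolute value one, for majorized
exponents. -/
lemma char_sum_le {ι κ : Type*} [Fintype ι] [Fintype κ] (N : ℕ) (x : ι → ℕ) (z : κ → ℕ)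
    (hx : ∀ i, x i ≤ N) (hz : ∀ k, z k ≤ N) (hsum : ∑ i, x i = ∑ k, z k)
    (hinge : ∀ t : ℕ, ∑ i, (x i - (t + 1)) ≤ ∑ k, (z k - (t + 1))) (ω : ℂ) (hω : ‖ω‖ = 1) :
    2 * ‖∑ k, ω ^ z k - ∑ i, ω ^ x i + ((Fintype.card ι : ℂ) - Fintype.card κ)‖ ≤
      ‖ω - 1‖ ^ 2 * (∑ k, (z k : ℝ) ^ 2 - ∑ i, (x i : ℝ) ^ 2) := by
  have h1 : ∑ k, ω ^ z k - ∑ i, ω ^ x i + ((Fintype.card ι : ℂ) - Fintype.card κ) =
      (ω - 1) ^ 2 * ∑ t ∈ range N, ω ^ t *
        (((∑ k, (z k - (t + 1)) : ℕ) : ℂ) - ((∑ i, (x i - (t + 1)) : ℕ) : ℂ)) := by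
    have h2 : ∑ k, ω ^ z k = Fintype.card κ + ((∑ k, z k : ℕ) : ℂ) * (ω - 1) +
        (ω - 1) ^ 2 * ∑ t ∈ range N, ω ^ t * ((∑ k, (z k - (t + 1)) : ℕ) : ℂ) := by
      rw [sum_congr rfl fun k _ => pow_layer ω N (z k) (hz k), sum_add_distrib, sum_add_distrib,
        ← mul_sum, ← sum_mul, sum_comm]
      simp only [sum_const, card_univ, nsmul_eq_mul, mul_one, Nat.cast_sum, ← mul_sum]
    have h3 : ∑ i, ω ^ x i = Fintype.card ι + ((∑ i, x i : ℕ) : ℂ) * (ω - 1) +
        (ω - 1) ^ 2 * ∑ t ∈ range N, ω ^ t * ((∑ i, (x i - (t + 1)) : ℕ) : ℂ) := by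
      rw [sum_congr rfl fun k _ => pow_layer ω N (x k) (hx k), sum_add_distrib, sum_add_distrib,
        ← mul_sum, ← sum_mul, sum_comm]
      simp only [sum_const, card_univ, nsmul_eq_mul, mul_one, Nat.cast_sum, ← mul_sum]
    rw [h2, h3, hsum]
    simp only [mul_sub, sum_sub_distrib]
    ring
  have h2 : ∑ k, (z k : ℝ) ^ 2 - ∑ i, (x i : ℝ) ^ 2 = 2 * ∑ t ∈ range N,
      (((∑ k, (z k - (t + 1)) : ℕ) : ℝ) - ((∑ i, (x i - (t + 1)) : ℕ) : ℝ)) := by
    have h3 : ∑ k, (z k : ℝ) ^ 2 = ((∑ k, z k : ℕ) : ℝ) +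
        2 * ∑ t ∈ range N, ((∑ k, (z k - (t + 1)) : ℕ) : ℝ) := by
      rw [sum_congr rfl fun k _ => sq_layer' N (z k) (hz k), sum_add_distrib, ← mul_sum, sum_comm]
      simp only [Nat.cast_sum]
    have h4 : ∑ i, (x i : ℝ) ^ 2 = ((∑ i, x i : ℕ) : ℝ) +
        2 * ∑ t ∈ range N, ((∑ i, (x i - (t + 1)) : ℕ) : ℝ) := by
      rw [sum_congr rfl fun k _ => sq_layer' N (x k) (hx k), sum_add_distrib, ← mul_sum, sum_comm]
      simp only [Nat.cast_sum]
    rw [h3, h4, hsum, sum_sub_distrib]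
    ring
  have h3 : ‖∑ t ∈ range N, ω ^ t *
      (((∑ k, (z k - (t + 1)) : ℕ) : ℂ) - ((∑ i, (x i - (t + 1)) : ℕ) : ℂ))‖ ≤
      ∑ t ∈ range N, (((∑ k, (z k - (t + 1)) : ℕ) : ℝ) - ((∑ i, (x i - (t + 1)) : ℕ) : ℝ)) := by
    refine (norm_sum_le _ _).trans (sum_le_sum fun t _ => ?_)
    rw [norm_mul, norm_pow, hω, one_pow, one_mul]
    have h4 : ((∑ i, (x i - (t + 1)) : ℕ) : ℝ) ≤ ((∑ k, (z k - (t + 1)) : ℕ) : ℝ) := by
      exact_mod_cast hinge t
    have h5 : (((∑ k, (z k - (t + 1)) : ℕ) : ℂ) - ((∑ i, (x i - (t + 1)) : ℕ) : ℂ)) =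
        ((((∑ k, (z k - (t + 1)) : ℕ) : ℝ) - ((∑ i, (x i - (t + 1)) : ℕ) : ℝ) : ℝ) : ℂ) := by
      push_cast
      ring
    rw [h5, Complex.norm_real, Real.norm_eq_abs, abs_of_nonneg (by linarith)]
  rw [h1, h2, norm_mul, norm_pow]
  have h4 := mul_le_mul_of_nonneg_left h3 (sq_nonneg ‖ω - 1‖)
  linarith

/-- Power sums of small exponent distinguish. -/
lemma exists_power {ι κ : Type*} [Fintype ι] [Fintype κ] (X : ι → ℂ) (Z : κ → ℂ) (k0 : κ)
    (hk : ∀ i, X i ≠ Z k0) :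
    ∃ m, m < Fintype.card ι + Fintype.card κ ∧ ∑ k, Z k ^ m ≠ ∑ i, X i ^ m := by
  classical
  by_contra hcon
  push Not at hcon
  set T : Finset ℂ := univ.image X ∪ univ.image Z with hT
  have hcard : T.card ≤ Fintype.card ι + Fintype.card κ :=
    (card_union_le _ _).trans (Nat.add_le_add (card_image_le.trans (by simp))
      (card_image_le.trans (by simp)))
  set c : ℂ → ℂ := fun v => (∑ k, if Z k = v then 1 else 0) - ∑ i, if X i = v then 1 else 0 with hc
  set f : Fin T.card → ℂ := fun j => (T.equivFin.symm j : ℂ) with hf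
  have hinj : Function.Injective f := fun a b h => T.equivFin.symm.injective (Subtype.ext h)
  have key : ∀ m, ∑ j, c (f j) * f j ^ m = ∑ k, Z k ^ m - ∑ i, X i ^ m := by
    intro m
    have h1 : ∑ j, c (f j) * f j ^ m = ∑ v ∈ T, c v * v ^ m := by
      rw [← sum_coe_sort T (fun v => c v * v ^ m)]
      exact Fintype.sum_equiv T.equivFin.symm _ _ (fun j => rfl)
    rw [h1, hc]
    simp only [sub_mul, sum_sub_distrib, sum_mul, ite_mul, one_mul, zero_mul]
    congr 1
    · rw [sum_comm]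
      refine sum_congr rfl fun k _ => ?_
      rw [sum_ite_eq]
      rw [if_pos (mem_union_right _ (mem_image_of_mem _ (mem_univ _)))]
    · rw [sum_comm]
      refine sum_congr rfl fun k _ => ?_
      rw [sum_ite_eq]
      rw [if_pos (mem_union_left _ (mem_image_of_mem _ (mem_univ _)))]
  have hv : (fun j => c (f j)) = 0 := by
    refine Matrix.eq_zero_of_forall_pow_sum_mul_pow_eq_zero hinj fun i => ?_
    rw [key, hcon i (lt_of_lt_of_le i.2 hcard), sub_self]
  have hmem : Z k0 ∈ T := mem_union_right _ (mem_image_of_mem _ (mem_univ _))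
  have h0 := congrFun hv (T.equivFin ⟨Z k0, hmem⟩)
  simp only [hf, Equiv.symm_apply_apply, Pi.zero_apply, hc] at h0
  rw [sum_eq_zero (f := fun i => if X i = Z k0 then (1 : ℂ) else 0)
    (fun i _ => if_neg (hk i)), sub_zero, sum_boole] at h0
  have h1 : (univ.filter fun k => Z k = Z k0).card = 0 := by exact_mod_cast h0
  rw [card_eq_zero] at h1
  have h2 : k0 ∈ univ.filter fun k => Z k = Z k0 := by simp
  rw [h1] at h2
  exact absurd h2 (notMem_empty _)

end Pool.Agent.R927.GP
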