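import Pool.Agent.R927.GT2
import Pool.Agent.R927.ThreeFinal

set_option autoImplicit false

/-!
The criterion for any number of singular points.
-/

namespace Pool.Agent.R927

open Finset Pool.Agent.Y227.SS Pool.Agent.TH571.PCV
open Pool.Agent.W432.PC (HasExponents PCurvZeroAt CondII)

universe u

section weights

variable {R : Type u} [CommRing R] [IsDomain R] [CharZero R] [Algebra.FiniteType ℤ R] {n r : ℕ}

lemma wdata_aux (N : ℕ) (hN : 0 < N) (b : ℕ) (hb : 0 < b) (t : Fin n → ℤ) (e : Fin n → Fin r → ℤ)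
    (e' : Fin r → ℤ) (a : ℤ) (T : Fin n → ℤ) {st : Prop}
    (hw : WData st ℂ (fun j l => (a : ℝ) * ((((e j l : ℚ) / N + (t j : ℚ) / b +
      ((T j * b - 2 * N * t j : ℤ) : ℚ) / ((2 * N * b : ℕ) : ℚ) : ℚ)) : ℝ))
      (fun l => (a : ℝ) * ((((e' l : ℚ) / N + ((∑ j, t j : ℤ) : ℚ) / b +
      ((∑ j, (T j * b - 2 * N * t j) : ℤ) : ℚ) / ((2 * N * b : ℕ) : ℚ) : ℚ)) : ℝ))) :
    WData st ℂ (fun j l => ((a * (2 * e j l + T j) : ℤ) : ℝ) / ((2 * N : ℕ) : ℝ))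
      (fun l => ((a * (2 * e' l + ∑ j, T j) : ℤ) : ℝ) / ((2 * N : ℕ) : ℝ)) := by
  have hT's : ∑ j, (T j * b - 2 * N * t j) = (∑ j, T j) * b - 2 * N * ∑ j, t j := by
    simp only [sum_sub_distrib, ← sum_mul, ← mul_sum]
  have hX : ∀ j l, (a : ℝ) * ((((e j l : ℚ) / N + (t j : ℚ) / b +
      ((T j * b - 2 * N * t j : ℤ) : ℚ) / ((2 * N * b : ℕ) : ℚ) : ℚ)) : ℝ) =
      ((a * (2 * e j l + T j) : ℤ) : ℝ) / ((2 * N : ℕ) : ℝ) := by
    intro j l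
    have h1 : (N : ℝ) ≠ 0 := by exact_mod_cast hN.ne'
    have h2 : (b : ℝ) ≠ 0 := by exact_mod_cast hb.ne'
    push_cast
    field_simp
    ring
  have hE : ∀ l, (a : ℝ) * ((((e' l : ℚ) / N + ((∑ j, t j : ℤ) : ℚ) / b +
      ((∑ j, (T j * b - 2 * N * t j) : ℤ) : ℚ) / ((2 * N * b : ℕ) : ℚ) : ℚ)) : ℝ) =
      ((a * (2 * e' l + ∑ j, T j) : ℤ) : ℝ) / ((2 * N : ℕ) : ℝ) := by
    intro l
    have h1 : (N : ℝ) ≠ 0 := by exact_mod_cast hN.ne'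
    have h2 : (b : ℝ) ≠ 0 := by exact_mod_cast hb.ne'
    rw [hT's]
    generalize ∑ j, T j = T₀
    generalize ∑ j, t j = t₀
    push_cast
    field_simp
    ring
  simp only [hX, hE] at hw
  exact hw

theorem wdata_semi (α : Fin n → R) (hα : ∀ i j, i ≠ j → IsUnit (α i - α j))
    (A : Fin n → Matrix (Fin r) (Fin r) R) (N : ℕ) (hN : 0 < N) (b : ℕ) (hb : 0 < b)
    (t : Fin n → ℤ) (e : Fin n → Fin r → ℤ)
    (e' : Fin r → ℤ) (hlam : ∀ j, HasExponents (A j) (fun l => (e j l : ℚ) / N + (t j : ℚ) / b))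
    (hphi : HasExponents (∑ j, A j) (fun l => (e' l : ℚ) / N + ((∑ j, t j : ℤ) : ℚ) / b))
    (a : ℤ) (hinf : InfZero α A (2 * N * b) a) (T : Fin n → ℤ) :
    WData False ℂ (fun j l => ((a * (2 * e j l + T j) : ℤ) : ℝ) / ((2 * N : ℕ) : ℝ))
      (fun l => ((a * (2 * e' l + ∑ j, T j) : ℤ) : ℝ) / ((2 * N : ℕ) : ℝ)) := by
  have hB : 0 < 2 * N * b := Nat.mul_pos (by omega) hb
  have hNQ : (N : ℚ) ≠ 0 := by exact_mod_cast hN.ne'
  have hbQ : (b : ℚ) ≠ 0 := by exact_mod_cast hb.ne'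
  exact wdata_aux N hN b hb t e e' a T (WData.of_semi (semistableWeights_twist α hα A
    (fun j l => (e j l : ℚ) / N + (t j : ℚ) / b)
    (fun l => (e' l : ℚ) / N + ((∑ j, t j : ℤ) : ℚ) / b)
    hlam hphi (2 * N * b) hB
    (fun j l => ⟨2 * b * e j l + 2 * N * t j, by push_cast; field_simp⟩)
    (fun l => ⟨2 * b * e' l + 2 * N * ∑ j, t j, by push_cast; field_simp⟩)
    (fun j => T j * b - 2 * N * t j) a hinf))

theorem wdata_stable (α : Fin n → R) (hα : ∀ i j, i ≠ j → IsUnit (α i - α j))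
    (A : Fin n → Matrix (Fin r) (Fin r) R) (N : ℕ) (hN : 0 < N) (b : ℕ) (hb : 0 < b)
    (t : Fin n → ℤ) (e : Fin n → Fin r → ℤ)
    (e' : Fin r → ℤ) (hlam : ∀ j, HasExponents (A j) (fun l => (e j l : ℚ) / N + (t j : ℚ) / b))
    (hphi : HasExponents (∑ j, A j) (fun l => (e' l : ℚ) / N + ((∑ j, t j : ℤ) : ℚ) / b))
    (hirr : AbsIrreducible α A)
    (a : ℤ) (hinf : DenseZero α A (2 * N * b) a) (T : Fin n → ℤ) :
    WData True ℂ (fun j l => ((a * (2 * e j l + T j) : ℤ) : ℝ) / ((2 * N : ℕ) : ℝ))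
      (fun l => ((a * (2 * e' l + ∑ j, T j) : ℤ) : ℝ) / ((2 * N : ℕ) : ℝ)) := by
  have hB : 0 < 2 * N * b := Nat.mul_pos (by omega) hb
  have hNQ : (N : ℚ) ≠ 0 := by exact_mod_cast hN.ne'
  have hbQ : (b : ℚ) ≠ 0 := by exact_mod_cast hb.ne'
  exact wdata_aux N hN b hb t e e' a T (WData.of_stable (stableWeights_twist α hα A
    (fun j l => (e j l : ℚ) / N + (t j : ℚ) / b)
    (fun l => (e' l : ℚ) / N + ((∑ j, t j : ℤ) : ℚ) / b)
    hlam hphi hirr (2 * N * b) hB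
    (fun j l => ⟨2 * b * e j l + 2 * N * t j, by push_cast; field_simp⟩)
    (fun l => ⟨2 * b * e' l + 2 * N * ∑ j, t j, by push_cast; field_simp⟩)
    (fun j => T j * b - 2 * N * t j) a hinf))

/-- a common denominator and numerators -/
lemma exists_numerators (t : Fin n → ℚ) : ∃ (b : ℕ) (T : Fin n → ℤ), 0 < b ∧
    ∀ j, t j = (T j : ℚ) / b := by
  refine ⟨∏ j, (t j).den, fun j => (t j).num * ∏ i ∈ univ.erase j, ((t i).den : ℤ),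
    Finset.prod_pos fun j _ => (t j).den_pos, fun j => ?_⟩
  have h1 : (0 : ℚ) < ∏ i ∈ univ.erase j, ((t i).den : ℚ) :=
    Finset.prod_pos fun i _ => by exact_mod_cast (t i).den_pos
  have h2 : ((t j).den : ℚ) ≠ 0 := by exact_mod_cast (t j).den_pos.ne'
  rw [← mul_prod_erase _ _ (mem_univ j)]
  push_cast
  rw [mul_div_mul_right _ _ h1.ne']
  exact (Rat.num_div_den (t j)).symm

/-- classes of primes modulo a multiple -/
lemma exists_multiplier (B N : ℕ) (hB : 0 < B) (hNB : N ∣ B) (v : (ZMod N)ˣ) (Z : ℕ → Prop)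
    (h : ∀ P₀ : ℕ, ∃ p : ℕ, p.Prime ∧ P₀ < p ∧ (p : ZMod N) = (v : ZMod N) ∧ Z p) :
    ∃ a : ℤ, IsCoprime a (B : ℤ) ∧ (a : ZMod N) = ((-v⁻¹ : (ZMod N)ˣ) : ZMod N) ∧
      ∀ P₀ : ℕ, ∃ p : ℕ, p.Prime ∧ P₀ < p ∧ (B : ℤ) ∣ a * p + 1 ∧ Z p := by
  classical
  have : NeZero B := ⟨hB.ne'⟩
  obtain ⟨w, hw⟩ : ∃ w : ZMod B, ∀ P₀ : ℕ, ∃ p : ℕ, p.Prime ∧ P₀ < p ∧
      (p : ZMod N) = (v : ZMod N) ∧ Z p ∧ (p : ZMod B) = w := by
    by_contra hcon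
    push Not at hcon
    choose P hP using hcon
    obtain ⟨p, hp, hpP, hpv, hZ⟩ := h (univ.sup P)
    exact hP (p : ZMod B) p hp (lt_of_le_of_lt (le_sup (f := P) (mem_univ _)) hpP) hpv hZ rfl
  obtain ⟨p₁, hp₁, hp₁B, hp₁v, -, hp₁w⟩ := hw B
  have hcop : IsCoprime (p₁ : ℤ) (B : ℤ) := by
    rw [Nat.isCoprime_iff_coprime]
    exact (Nat.Prime.coprime_iff_not_dvd hp₁).2 fun h' =>
      absurd (Nat.le_of_dvd hB h') (not_le.2 hp₁B)
  obtain ⟨x, y, hxy⟩ := hcop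
  have hx1 : (B : ℤ) ∣ (-x) * p₁ + 1 := ⟨y, by linear_combination -hxy⟩
  refine ⟨-x, ⟨-p₁, y, by linear_combination hxy⟩, ?_, fun P₀ => ?_⟩
  · have h1 : (N : ℤ) ∣ (-x) * p₁ + 1 := (Int.natCast_dvd_natCast.2 hNB).trans hx1
    rw [← ZMod.intCast_zmod_eq_zero_iff_dvd] at h1
    push_cast at h1 ⊢
    rw [hp₁v] at h1
    have h2 : -(x : ZMod N) * (v : ZMod N) = -1 := by linear_combination h1
    have h3 : -(x : ZMod N) * ((v : ZMod N) * ((v⁻¹ : (ZMod N)ˣ) : ZMod N)) =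
        -((v⁻¹ : (ZMod N)ˣ) : ZMod N) := by
      rw [← mul_assoc, h2]
      ring
    rw [Units.mul_inv, mul_one] at h3
    exact h3
  · obtain ⟨p, hp, hpP, -, hZ, hpw⟩ := hw P₀
    refine ⟨p, hp, hpP, ?_, hZ⟩
    have h1 : ((-x * p + 1 : ℤ) : ZMod B) = ((-x * p₁ + 1 : ℤ) : ZMod B) := by
      push_cast
      rw [hpw, hp₁w]
    rw [← ZMod.intCast_zmod_eq_zero_iff_dvd, h1, ZMod.intCast_zmod_eq_zero_iff_dvd]
    exact hx1

end weights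

section final

variable {R : Type u} [CommRing R] [IsDomain R] [CharZero R] [Algebra.FiniteType ℤ R] {n r : ℕ}

/-- integer data for the exponents -/
lemma exists_data (A : Fin n → Matrix (Fin r) (Fin r) R) (lam : Fin n → Fin r → ℚ)
    (phi : Fin r → ℚ) (hlam : ∀ j, HasExponents (A j) (lam j))
    (hphi : HasExponents (∑ j, A j) phi) (t : Fin n → ℚ) (N : ℕ) (hN : 0 < N)
    (hNlam : ∀ j l, ∃ m : ℤ, (N : ℚ) * (lam j l - t j) = m)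
    (hNphi : ∀ l, ∃ m : ℤ, (N : ℚ) * (phi l - ∑ j, t j) = m) :
    ∃ (b : ℕ) (T : Fin n → ℤ) (e : Fin n → Fin r → ℤ) (e' : Fin r → ℤ), 0 < b ∧
      (∀ j, t j = (T j : ℚ) / b) ∧ (∀ j l, lam j l = (e j l : ℚ) / N + t j) ∧
      (∀ l, phi l = (e' l : ℚ) / N + ∑ j, t j) ∧
      (∀ j, HasExponents (A j) (fun l => (e j l : ℚ) / N + (T j : ℚ) / b)) ∧
      HasExponents (∑ j, A j) (fun l => (e' l : ℚ) / N + ((∑ j, T j : ℤ) : ℚ) / b) ∧
      ∑ j, ∑ l, e j l = ∑ l, e' l := by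
  have hNQ : (N : ℚ) ≠ 0 := by exact_mod_cast hN.ne'
  obtain ⟨b, T, hb, hT⟩ := exists_numerators t
  choose e he using hNlam
  choose e' he' using hNphi
  have hTs : ∑ j, t j = ((∑ j, T j : ℤ) : ℚ) / b := by
    push_cast
    rw [sum_div]
    exact sum_congr rfl fun j _ => hT j
  have h1 : ∀ j l, lam j l = (e j l : ℚ) / N + t j := by
    intro j l
    rw [← he, mul_div_cancel_left₀ _ hNQ]
    ring
  have h2 : ∀ l, phi l = (e' l : ℚ) / N + ∑ j, t j := by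
    intro l
    rw [← he', mul_div_cancel_left₀ _ hNQ]
    ring
  refine ⟨b, T, e, e', hb, hT, h1, h2, fun j => ?_, ?_, ?_⟩
  · have h3 : (fun l => (e j l : ℚ) / N + (T j : ℚ) / b) = lam j := by
      ext l
      rw [h1, hT]
    rw [h3]
    exact hlam j
  · have h3 : (fun l => (e' l : ℚ) / N + ((∑ j, T j : ℤ) : ℚ) / b) = phi := by
      ext l
      rw [h2, hTs]
    rw [h3]
    exact hphi
  · have h5 := sum_exponents hlam hphi
    simp only [h1, h2, sum_add_distrib, sum_const, card_univ, Fintype.card_fin, nsmul_eq_mul,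
      ← mul_sum] at h5
    have h6 : ∑ j, ∑ l, (e j l : ℚ) / N = ∑ l, (e' l : ℚ) / N := by linarith
    simp only [← sum_div] at h6
    rw [div_left_inj' hNQ] at h6
    exact_mod_cast h6

/-- The classes of primes for which the `p`-curvature does not vanish. -/
theorem gen_final (α : Fin n → R) (hα : ∀ i j, i ≠ j → IsUnit (α i - α j))
    (A : Fin n → Matrix (Fin r) (Fin r) R) (lam : Fin n → Fin r → ℚ) (phi : Fin r → ℚ)
    (hlam : ∀ j, HasExponents (A j) (lam j)) (hphi : HasExponents (∑ j, A j) phi)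
    (j1 : Fin n) (t : Fin n → ℚ) (N : ℕ) (hN : 0 < N)
    (hNlam : ∀ j l, ∃ m : ℤ, (N : ℚ) * (lam j l - t j) = m)
    (hNphi : ∀ l, ∃ m : ℤ, (N : ℚ) * (phi l - ∑ j, t j) = m) :
    ∃ S : Finset (ZMod N)ˣ,
      (N.totient : ℚ) * expr gam j1 lam phi t ≤ 3 * (r : ℚ) ^ 2 * S.card ∧
      ∃ P₀ : ℕ, ∀ p : ℕ, p.Prime → P₀ < p → ∀ v ∈ S, (p : ZMod N) = (v : ZMod N) →
        ∀ (𝔪 : Ideal R) [𝔪.IsMaximal], (p : R) ∈ 𝔪 → ¬ PCurvZeroAt α A 𝔪 := by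
  classical
  have : NeZero N := ⟨hN.ne'⟩
  obtain ⟨b, T, e, e', hb, hT, hl1, hp1, hlam', hphi', hsum⟩ :=
    exists_data A lam phi hlam hphi t N hN hNlam hNphi
  have hB : 0 < 2 * N * b := Nat.mul_pos (by omega) hb
  let P : (ZMod N)ˣ → Prop := fun v => ∃ P₀ : ℕ, ∀ p : ℕ, p.Prime → P₀ < p →
    (p : ZMod N) = (v : ZMod N) → ∀ (𝔪 : Ideal R) [𝔪.IsMaximal], (p : R) ∈ 𝔪 →
      ¬ PCurvZeroAt α A 𝔪
  have hall : ∀ v : (ZMod N)ˣ, ¬ P v →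
      Phi1 N j1 e e' ((((-v⁻¹ : (ZMod N)ˣ) : ZMod N).val : ℕ) : ℤ) ≤ 0 := by
    intro v hv
    obtain ⟨a, ha, hav, hinf⟩ := exists_multiplier (2 * N * b) N hB
      (⟨2 * b, by ring⟩) v (fun p => ∃ (𝔪 : Ideal R) (_ : 𝔪.IsMaximal), (p : R) ∈ 𝔪 ∧
        PCurvZeroAt α A 𝔪) (by
      intro P₀
      by_contra hcon
      apply hv
      refine ⟨P₀, fun p hp hpP hpv 𝔪 h𝔪 hpm hpc => hcon ⟨p, hp, hpP, hpv, 𝔪, h𝔪, hpm, hpc⟩⟩)
    have ha2 : IsCoprime a ((2 * N : ℕ) : ℤ) := ha.of_isCoprime_of_dvd_right (by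
      exact_mod_cast Dvd.intro b rfl)
    have h1 := (phi_le N hN e e' a ha2 j1
      (wdata_semi α hα A N hN b hb T e e' hlam' hphi' a hinf) hsum).1
    have h2 : (N : ℤ) ∣ ((((-v⁻¹ : (ZMod N)ˣ) : ZMod N).val : ℕ) : ℤ) - a := by
      rw [← ZMod.intCast_zmod_eq_zero_iff_dvd, Int.cast_sub, Int.cast_natCast,
        ZMod.natCast_zmod_val, hav, sub_self]
    rw [Phi1_congr j1 e e' h2]
    unfold Phi1
    linarith
  set S : Finset (ZMod N)ˣ := Finset.univ.filter fun v => P v with hS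
  refine ⟨S, ?_, ?_⟩
  · have h1 : ∑ u : (ZMod N)ˣ, Phi1 N j1 e e' (((u : ZMod N).val : ℕ) : ℤ) =
        ∑ v : (ZMod N)ˣ, Phi1 N j1 e e' ((((-v⁻¹ : (ZMod N)ˣ) : ZMod N).val : ℕ) : ℤ) :=
      (Equiv.sum_comp ((Equiv.inv (ZMod N)ˣ).trans (Equiv.neg (ZMod N)ˣ))
        (fun u : (ZMod N)ˣ => Phi1 N j1 e e' (((u : ZMod N).val : ℕ) : ℤ))).symm
    have h2 : 2 * ∑ v : (ZMod N)ˣ, Phi1 N j1 e e' ((((-v⁻¹ : (ZMod N)ˣ) : ZMod N).val : ℕ) : ℤ) ≤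
        ∑ v : (ZMod N)ˣ, if v ∈ S then (r : ℤ) ^ 2 * (N : ℤ) ^ 2 else 0 := by
      rw [mul_sum]
      refine Finset.sum_le_sum fun v _ => ?_
      by_cases hv : v ∈ S
      · rw [if_pos hv]
        exact Phi1_le hN j1 e e' _
      · rw [if_neg hv]
        have := hall v (fun h => hv (Finset.mem_filter.2 ⟨Finset.mem_univ _, h⟩))
        linarith
    rw [← Finset.sum_filter, Finset.filter_mem_eq_inter, Finset.univ_inter,
      Finset.sum_const, nsmul_eq_mul, ← h1] at h2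
    have h3 := sum_Phi1 j1 e e' lam phi t hl1 hp1
    have h4 : ((2 * ∑ u : (ZMod N)ˣ, Phi1 N j1 e e' (((u : ZMod N).val : ℕ) : ℤ) : ℤ) : ℚ) ≤
        (((S.card : ℤ) * ((r : ℤ) ^ 2 * (N : ℤ) ^ 2) : ℤ) : ℚ) := by exact_mod_cast h2
    push_cast at h4 h3
    have h5 : (0 : ℚ) < (N : ℚ) ^ 2 := by positivity
    have h6 : (N : ℚ) ^ 2 * ((N.totient : ℚ) * expr gam j1 lam phi t) ≤
        (N : ℚ) ^ 2 * (3 * (r : ℚ) ^ 2 * S.card) := by
      linarith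
    exact le_of_mul_le_mul_left h6 h5
  · have h1 : ∀ v : (ZMod N)ˣ, ∃ P₀ : ℕ, v ∈ S → ∀ p : ℕ, p.Prime → P₀ < p →
        (p : ZMod N) = (v : ZMod N) → ∀ (𝔪 : Ideal R) [𝔪.IsMaximal], (p : R) ∈ 𝔪 →
          ¬ PCurvZeroAt α A 𝔪 := by
      intro v
      by_cases hv : v ∈ S
      · obtain ⟨P₀, hP₀⟩ := (Finset.mem_filter.1 hv).2
        exact ⟨P₀, fun _ => hP₀⟩
      · exact ⟨0, fun h => absurd h hv⟩
    choose P₀ hP₀ using h1
    refine ⟨univ.sup P₀, fun p hp hpP v hv hpv 𝔪 h𝔪 hpm => hP₀ v hv p hp ?_ hpv 𝔪 hpm⟩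
    exact lt_of_le_of_lt (le_sup (f := P₀) (mem_univ v)) hpP

/-- Irreducible systems in the boundary case. -/
theorem gen_irr (α : Fin n → R) (hα : ∀ i j, i ≠ j → IsUnit (α i - α j))
    (A : Fin n → Matrix (Fin r) (Fin r) R) (lam : Fin n → Fin r → ℚ) (phi : Fin r → ℚ)
    (hlam : ∀ j, HasExponents (A j) (lam j)) (hphi : HasExponents (∑ j, A j) phi)
    (j1 : Fin n) (t : Fin n → ℚ) (N : ℕ) (hN : 0 < N)
    (hNlam : ∀ j l, ∃ m : ℤ, (N : ℚ) * (lam j l - t j) = m)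
    (hNphi : ∀ l, ∃ m : ℤ, (N : ℚ) * (phi l - ∑ j, t j) = m) (hirr : AbsIrreducible α A)
    (h0 : 0 ≤ expr gam j1 lam phi t)
    (h3 : ∃ j ∈ univ.erase j1, ∃ l, ∃ j' ∈ univ.erase j1, ∃ l', (lam j l - t j).den ≠ 1 ∧
      (lam j' l' - t j').den ≠ 1 ∧ ((lam j l - t j) - (lam j' l' - t j')).den ≠ 1) :
    ∃ (B : ℕ) (a : ℤ), 0 < B ∧ IsCoprime a (B : ℤ) ∧ ∃ g : R, g ≠ 0 ∧ ∃ P₀ : ℕ,
      ∀ p : ℕ, p.Prime → P₀ < p → (B : ℤ) ∣ a * p + 1 →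
        ∀ (𝔪 : Ideal R) [𝔪.IsMaximal], (p : R) ∈ 𝔪 → g ∉ 𝔪 → ¬ PCurvZeroAt α A 𝔪 := by
  classical
  by_contra hcon
  have : NeZero N := ⟨hN.ne'⟩
  have hNQ : (N : ℚ) ≠ 0 := by exact_mod_cast hN.ne'
  obtain ⟨b, T, e, e', hb, hT, hl1, hp1, hlam', hphi', hsum⟩ :=
    exists_data A lam phi hlam hphi t N hN hNlam hNphi
  have hB : 0 < 2 * N * b := Nat.mul_pos (by omega) hb
  have hinf : ∀ a : ℤ, IsCoprime a ((2 * N * b : ℕ) : ℤ) → DenseZero α A (2 * N * b) a := by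
    intro a ha g hg P₀
    by_contra h
    apply hcon
    refine ⟨2 * N * b, a, hB, ha, g, hg, P₀, fun p hp hpP hap 𝔪 h𝔪 hpm hgm hpc => h ?_⟩
    exact ⟨p, hp, hpP, hap, 𝔪, h𝔪, hpm, hgm, hpc⟩
  have hden : ∀ z : ℤ, ((z : ℚ) / N).den ≠ 1 → ¬ (N : ℤ) ∣ z := by
    rintro z hz ⟨m, rfl⟩
    apply hz
    have : (((N : ℤ) * m : ℤ) : ℚ) / N = (m : ℚ) := by
      push_cast
      field_simp
    rw [this]
    exact Rat.den_intCast m
  have h3' : ∃ j ∈ univ.erase j1, ∃ l, ∃ j' ∈ univ.erase j1, ∃ l', ¬ (N : ℤ) ∣ e j l ∧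
        ¬ (N : ℤ) ∣ e j' l' ∧ ¬ (N : ℤ) ∣ e j l - e j' l' := by
    obtain ⟨j, hj, l, j', hj', l', k1, k2, k3⟩ := h3
    refine ⟨j, hj, l, j', hj', l', hden _ ?_, hden _ ?_, hden _ ?_⟩
    · rw [hl1, add_sub_cancel_right] at k1
      exact k1
    · rw [hl1, add_sub_cancel_right] at k2
      exact k2
    · rw [hl1, hl1, add_sub_cancel_right, add_sub_cancel_right, ← sub_div] at k3
      push_cast
      exact k3
  have hneg : ∀ u : (ZMod N)ˣ, Phi1 N j1 e e' (((u : ZMod N).val : ℕ) : ℤ) < 0 := by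
    intro u
    have hc : IsCoprime (((u : ZMod N).val : ℕ) : ℤ) (N : ℤ) :=
      Nat.isCoprime_iff_coprime.2 (ZMod.val_coe_unit_coprime u)
    obtain ⟨a, ha, hd⟩ := lift_coprime hB (⟨2 * b, by ring⟩ : N ∣ 2 * N * b) hc
    have ha2 : IsCoprime a ((2 * N : ℕ) : ℤ) := ha.of_isCoprime_of_dvd_right (by
      exact_mod_cast Dvd.intro b rfl)
    have h1 := (phi_le N hN e e' a ha2 j1
      (wdata_stable α hα A N hN b hb T e e' hlam' hphi' hirr a (hinf a ha)) hsum).2 trivial h3'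
    rw [← Phi1_congr j1 e e' hd]
    unfold Phi1
    linarith
  have h4 : ∑ u : (ZMod N)ˣ, Phi1 N j1 e e' (((u : ZMod N).val : ℕ) : ℤ) < 0 :=
    sum_neg (fun u _ => hneg u) univ_nonempty
  have h5 := sum_Phi1 j1 e e' lam phi t hl1 hp1
  have h6 : ((∑ u : (ZMod N)ˣ, Phi1 N j1 e e' (((u : ZMod N).val : ℕ) : ℤ) : ℤ) : ℚ) < 0 := by
    exact_mod_cast h4
  have h7 : (0 : ℚ) ≤ (N.totient : ℚ) * (N : ℚ) ^ 2 * expr gam j1 lam phi t := by positivity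
  linarith

end final

end Pool.Agent.R927
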