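import Pool.Agent.R927.GG2
import Pool.Agent.R927.GT3
import Pool.Agent.R927.GP2

set_option autoImplicit false

/-!
The gap in the quadratic inequality for the exponents of an irreducible system.
-/

namespace Pool.Agent.R927

open Finset Polynomial Pool.Agent.W280.PC Pool.Agent.TH571.PCV

section data

variable {n r : ℕ}

/-- the linear forms in the exponents -/
def lform (e : Fin n → Fin r → ℤ) (e' : Fin r → ℤ) (j1 : Fin n)
    (k : Finset (Fin r) × Finset (Fin r) × Fin n × Fin r) : ℤ :=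
  ∑ i ∈ k.1, e j1 i - ∑ i ∈ k.2.1, e' i + e k.2.2.1 k.2.2.2

/-- One of the forms is small. -/
theorem phi_level {st : Prop} (N : ℕ) (hN : 0 < N) (e : Fin n → Fin r → ℤ) (e' : Fin r → ℤ) (a : ℤ)
    (ha : IsCoprime a ((2 * N : ℕ) : ℤ)) (j1 : Fin n)
    (hW : ∀ T : Fin n → ℤ, WData st ℂ
      (fun j l => ((a * (2 * e j l + T j) : ℤ) : ℝ) / ((2 * N : ℕ) : ℝ))
      (fun l => ((a * (2 * e' l + ∑ j, T j) : ℤ) : ℝ) / ((2 * N : ℕ) : ℝ)))
    (hsum : ∑ j, ∑ l, e j l = ∑ l, e' l) (hst0 : st)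
    (h3' : ∃ j ∈ univ.erase j1, ∃ l, ∃ j' ∈ univ.erase j1, ∃ l', ¬ (N : ℤ) ∣ e j l ∧
        ¬ (N : ℤ) ∣ e j' l' ∧ ¬ (N : ℤ) ∣ e j l - e j' l') :
    ∃ (k : Finset (Fin r) × Finset (Fin r) × Fin n × Fin r) (w : ℤ), 0 < w ∧ w < N ∧
      (N : ℤ) ∣ w - a * lform e e' j1 k ∧ 4 * N * w ≤ -Phi1 N j1 e e' a := by
  classical
  have hD : 0 < 2 * N := by omega
  have hD2 : (2 : ℤ) ∣ ((2 * N : ℕ) : ℤ) := ⟨N, by push_cast; ring⟩
  set x := flat j1 fun j l => 2 * a * e j l with hx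
  have hx2 : ∀ k, ∃ j ∈ univ.erase j1, ∃ l, x k = 2 * a * e j l := fun k =>
    (exists_flat j1 (fun j l => 2 * a * e j l) (fun z => x k = z)).1 ⟨k, rfl⟩
  have hsum' : ∑ k, x k + ∑ l, 2 * a * e j1 l = ∑ l, 2 * a * e' l := by
    rw [hx, sum_flat j1 (fun j l => 2 * a * e j l) fun z => z, ← mul_sum, ← mul_sum, ← hsum,
      ← sum_erase_add _ _ (mem_univ j1), mul_add]
    congr 1
    simp only [mul_sum]
  have e1 : ∀ f : Fin r → ℤ, ∑ i, ∑ j, Q (2 * N) (2 * a * f i - 2 * a * f j) =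
      4 * ∑ i, ∑ j, Q N (a * (f i - f j)) := by
    intro f
    simp only [mul_sum]
    refine sum_congr rfl fun i _ => sum_congr rfl fun j _ => ?_
    rw [← Q_double]
    congr 1
    ring
  have e2 : ∑ i, ∑ j, Q (2 * N) (2 * a * e j1 i - 2 * a * e' j) =
      4 * ∑ i, ∑ j, Q N (a * (e j1 i - e' j)) := by
    simp only [mul_sum]
    refine sum_congr rfl fun i _ => sum_congr rfl fun j _ => ?_
    rw [← Q_double]
    congr 1
    ring
  have e3 : ∑ i, ∑ j, Q (2 * N) (x i - x j) = 4 * ∑ j ∈ univ.erase j1, ∑ l,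
      ∑ j' ∈ univ.erase j1, ∑ l', Q N (a * (e j l - e j' l')) := by
    have h1 : ∀ z : ℤ, ∑ k, Q (2 * N) (z - x k) =
        ∑ j' ∈ univ.erase j1, ∑ l', Q (2 * N) (z - 2 * a * e j' l') := fun z =>
      sum_flat j1 (fun j l => 2 * a * e j l) fun y => Q (2 * N) (z - y)
    rw [sum_congr rfl fun i _ => h1 (x i), hx, sum_flat j1 (fun j l => 2 * a * e j l) fun z =>
      ∑ j' ∈ univ.erase j1, ∑ l', Q (2 * N) (z - 2 * a * e j' l')]
    simp only [mul_sum]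
    refine sum_congr rfl fun j _ => sum_congr rfl fun l _ => sum_congr rfl fun j' _ =>
      sum_congr rfl fun l' _ => ?_
    rw [← Q_double]
    congr 1
    ring
  have e4 : ∑ k, Q (2 * N) (x k) = 4 * ∑ j ∈ univ.erase j1, ∑ l, Q N (a * e j l) := by
    rw [hx, sum_flat j1 (fun j l => 2 * a * e j l) fun z => Q (2 * N) z]
    simp only [mul_sum]
    refine sum_congr rfl fun j _ => sum_congr rfl fun l _ => ?_
    rw [← Q_double]
    congr 1
    ring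
  obtain ⟨j, hj, l, j', hj', l', h1, h2, h3⟩ := h3'
  obtain ⟨k, hk⟩ := (exists_flat j1 (fun j l => 2 * a * e j l)
    (fun z => z = 2 * a * e j l)).2 ⟨j, hj, l, rfl⟩
  obtain ⟨k', hk'⟩ := (exists_flat j1 (fun j l => 2 * a * e j l)
    (fun z => z = 2 * a * e j' l')).2 ⟨j', hj', l', rfl⟩
  change x k = _ at hk
  change x k' = _ at hk'
  have haN : IsCoprime (N : ℤ) a := (ha.of_isCoprime_of_dvd_right
    (⟨2, by push_cast; ring⟩ : (N : ℤ) ∣ ((2 * N : ℕ) : ℤ))).symm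
  have hndvd : ∀ z : ℤ, ¬ (N : ℤ) ∣ z → ¬ ((2 * N : ℕ) : ℤ) ∣ 2 * a * z := by
    intro z hz h
    apply hz
    obtain ⟨m, hm⟩ := h
    refine haN.dvd_of_dvd_mul_left ⟨m, ?_⟩
    push_cast at hm
    linarith
  have hpos : ∀ z : ℤ, ¬ (N : ℤ) ∣ z → 0 < (0 - 2 * a * z) % ((2 * N : ℕ) : ℤ) := by
    intro z hz
    refine lt_of_le_of_ne (Int.emod_nonneg _ (by exact_mod_cast hD.ne')) fun h0 => hndvd z hz ?_
    have h4 := Int.dvd_of_emod_eq_zero h0.symm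
    rw [zero_sub, dvd_neg] at h4
    exact h4
  have hne : (0 - 2 * a * e j l) % ((2 * N : ℕ) : ℤ) ≠ (0 - 2 * a * e j' l') % ((2 * N : ℕ) : ℤ) := by
    intro h0
    apply hndvd _ h3
    have h4 := Int.dvd_of_emod_eq_zero (Int.emod_eq_emod_iff_emod_sub_eq_zero.1 h0)
    have h5 : 2 * a * (e j l - e j' l') =
        -((0 - 2 * a * e j l) - (0 - 2 * a * e j' l')) := by ring
    rw [h5, dvd_neg]
    exact h4
  obtain ⟨I, I', k₀, w, hw0, hwD, hdvd, hbd⟩ := quad_level_gen hD hD2 rfl x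
    (fun l => 2 * a * e j1 l) (fun l => 2 * a * e' l)
    (fun k => by
      obtain ⟨j, _, l, h⟩ := hx2 k
      rw [h]
      exact ⟨a * e j l, by ring⟩) hsum'
    (fun δ hδ _ _ => hData N hN e e' a ha j1 hW δ hδ) hst0 (by
    rcases lt_or_gt_of_ne hne with h4 | h4
    · exact ⟨k, k', by rw [hk]; exact hpos _ h1, by rw [hk, hk']; exact h4⟩
    · exact ⟨k', k, by rw [hk']; exact hpos _ h2, by rw [hk, hk']; exact h4⟩)
  obtain ⟨j₀, _, l₀, hjl⟩ := hx2 k₀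
  rw [hjl] at hdvd
  have hdvd2 : ((2 * N : ℕ) : ℤ) ∣ w - 2 * (a * lform e e' j1 (I, I', j₀, l₀)) := by
    have h4 : w - 2 * (a * lform e e' j1 (I, I', j₀, l₀)) =
        w - (∑ i ∈ I, 2 * a * e j1 i - ∑ i ∈ I', 2 * a * e' i + 2 * a * e j₀ l₀) := by
      unfold lform
      rw [← mul_sum, ← mul_sum]
      ring
    rw [h4]
    exact hdvd
  obtain ⟨m, hm⟩ := hdvd2
  push_cast at hm hwD
  obtain ⟨v, hv⟩ : ∃ v : ℤ, w = 2 * v := ⟨a * lform e e' j1 (I, I', j₀, l₀) + N * m, by linarith⟩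
  refine ⟨(I, I', j₀, l₀), v, by omega, by omega, ⟨m, by
    have h4 : 2 * (v - a * lform e e' j1 (I, I', j₀, l₀)) = 2 * (N * m) := by
      rw [hv] at hm
      linarith
    exact mul_left_cancel₀ two_ne_zero h4⟩, ?_⟩
  rw [e1, e1, e2, e3, e4, hv] at hbd
  unfold Phi1
  push_cast at hbd
  linarith

end data

end Pool.Agent.R927
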