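import Pool.Agent.R927.GG3

set_option autoImplicit false

/-!
The gap in the quadratic inequality for the averages.
-/

namespace Pool.Agent.R927

open Finset Polynomial Pool.Agent.W280.PC Pool.Agent.TH571.PCV

variable {n r : ℕ}

lemma card_forms (n r : ℕ) :
    Fintype.card (Finset (Fin r) × Finset (Fin r) × Fin n × Fin r) = 4 ^ r * (n * r) := by
  simp only [Fintype.card_prod, Fintype.card_finset, Fintype.card_fin]
  rw [show (4 : ℕ) = 2 * 2 by norm_num, mul_pow]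
  ring

/-- **The gap.** -/
theorem gap_gen {lam : Fin n → Fin r → ℚ} {phi : Fin r → ℚ} {t : Fin n → ℚ}
    {N B : ℕ} (hN : 0 < N) (hB : 0 < B) (hNB : N ∣ B) {e : Fin n → Fin r → ℤ} {e' : Fin r → ℤ}
    (hl1 : ∀ j l, lam j l = (e j l : ℚ) / N + t j) (hp1 : ∀ l, phi l = (e' l : ℚ) / N + ∑ j, t j)
    (j1 : Fin n)
    (h : ∀ a : ℤ, IsCoprime a (B : ℤ) →
      ∃ (k : Finset (Fin r) × Finset (Fin r) × Fin n × Fin r) (w : ℤ), 0 < w ∧ w < N ∧
      (N : ℤ) ∣ w - a * lform e e' j1 k ∧ 4 * N * w ≤ -Phi1 N j1 e e' a) :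
    (2 : ℚ) ^ (4 ^ r * (n * r)) * expr gam j1 lam phi t < -7 := by
  classical
  have : NeZero N := ⟨hN.ne'⟩
  have hNZ : (0 : ℤ) < N := by exact_mod_cast hN
  have hNR : (0 : ℝ) < N := by exact_mod_cast hN
  set ζ : ℂ := Complex.exp (2 * Real.pi * Complex.I / N) with hζdef
  have hζ : IsPrimitiveRoot ζ N := Complex.isPrimitiveRoot_exp N hN.ne'
  set S := univ.filter fun k : Finset (Fin r) × Finset (Fin r) × Fin n × Fin r =>
    ¬ (N : ℤ) ∣ lform e e' j1 k with hS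
  set f : ℤ[X] := ∏ k ∈ S, (1 - X ^ ((lform e e' j1 k % (N : ℤ)).toNat)) with hf
  have heval : ∀ w : ℂ, aeval w f = ∏ k ∈ S, (1 - w ^ ((lform e e' j1 k % (N : ℤ)).toNat)) := by
    intro w
    rw [hf, map_prod]
    simp only [map_sub, map_one, map_pow, aeval_X]
  have hf0 : aeval ζ f ≠ 0 := by
    rw [heval]
    refine prod_ne_zero_iff.2 fun k hk h0 => (mem_filter.1 hk).2 ?_
    have h1 : ζ ^ ((lform e e' j1 k % (N : ℤ)).toNat) = 1 := (sub_eq_zero.1 h0).symm
    rw [hζ.pow_eq_one_iff_dvd] at h1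
    have h2 := Int.emod_nonneg (lform e e' j1 k) hNZ.ne'
    have h3 := Int.emod_lt_of_pos (lform e e' j1 k) hNZ
    have h4 : (lform e e' j1 k % (N : ℤ)).toNat = 0 :=
      Nat.eq_zero_of_dvd_of_lt h1 (by omega)
    exact Int.dvd_of_emod_eq_zero (by omega)
  have hbound : ∀ u : (ZMod N)ˣ, ‖aeval (ζ ^ (u : ZMod N).val) f‖ ≤
      (2 : ℝ) ^ (4 ^ r * (n * r)) * Real.pi / (4 * N ^ 2) *
        (-(Phi1 N j1 e e' (((u : ZMod N).val : ℕ) : ℤ) : ℝ)) := by
    intro u
    set v : ℕ := (u : ZMod N).val with hv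
    have hc : IsCoprime (v : ℤ) (N : ℤ) :=
      Nat.isCoprime_iff_coprime.2 (ZMod.val_coe_unit_coprime u)
    obtain ⟨a, ha, hd⟩ := lift_coprime hB hNB hc
    obtain ⟨k, w, hw0, hwN, hdv, hbd⟩ := h a ha
    rw [Phi1_congr j1 e e' hd] at hbd
    have hkS : k ∈ S := by
      refine mem_filter.2 ⟨mem_univ _, fun h1 => ?_⟩
      have h2 : (N : ℤ) ∣ w := (dvd_sub_left (h1.mul_left a)).1 hdv
      have h3 := Int.le_of_dvd hw0 h2
      omega
    have hdv' : (N : ℤ) ∣ w - v * lform e e' j1 k := by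
      have h1 : w - v * lform e e' j1 k = (w - a * lform e e' j1 k) +
          (a - v) * lform e e' j1 k := by ring
      rw [h1]
      exact dvd_add hdv (hd.mul_right _)
    have hwm : ((v : ℤ) * lform e e' j1 k) % (N : ℤ) = w := by
      have h1 := (Int.emod_emod_of_dvd w (dvd_refl (N : ℤ)))
      have h2 : w % (N : ℤ) = ((v : ℤ) * lform e e' j1 k) % (N : ℤ) :=
        Int.emod_eq_emod_iff_emod_sub_eq_zero.2 (Int.emod_eq_zero_of_dvd hdv')
      rw [← h2]
      exact Int.emod_eq_of_lt hw0.le hwN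
    have hfac : (ζ ^ v) ^ ((lform e e' j1 k % (N : ℤ)).toNat) = ζ ^ w.toNat := by
      have h1 := pow_toNat_eq hN hζ.pow_eq_one v 1 (lform e e' j1 k)
      rw [one_mul, pow_one, hwm] at h1
      exact h1
    have hwnat : ((w.toNat : ℕ) : ℝ) = (w : ℝ) := by
      have h1 : ((w.toNat : ℕ) : ℤ) = w := Int.toNat_of_nonneg hw0.le
      exact_mod_cast congrArg (fun z : ℤ => (z : ℝ)) h1
    have hω : ‖ζ ^ w.toNat - 1‖ ≤ 2 * Real.pi * w / N := by
      have h1 : ζ ^ w.toNat = Complex.exp (Complex.I * ((2 * Real.pi * w / N : ℝ) : ℂ)) := by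
        rw [hζdef, ← Complex.exp_nat_mul, ← hwnat]
        congr 1
        push_cast
        ring
      rw [h1]
      refine Real.norm_exp_I_mul_ofReal_sub_one_le.trans ?_
      rw [Real.norm_eq_abs, abs_of_nonneg]
      have : (0 : ℝ) ≤ w := by exact_mod_cast hw0.le
      positivity
    have hζ1 : ‖ζ‖ = 1 := hζ.norm'_eq_one hN.ne'
    have hother : ∀ k' ∈ S.erase k, ‖1 - (ζ ^ v) ^ ((lform e e' j1 k' % (N : ℤ)).toNat)‖ ≤ 2 := by
      intro k' _
      refine (norm_sub_le _ _).trans ?_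
      rw [norm_one, norm_pow, norm_pow, hζ1, one_pow, one_pow]
      norm_num
    have hcard : (S.erase k).card + 1 ≤ 4 ^ r * (n * r) := by
      rw [card_erase_add_one hkS, ← card_forms n r]
      exact card_le_univ S
    rw [heval, norm_prod, ← mul_prod_erase S _ hkS, hfac]
    have h1 : ∏ k' ∈ S.erase k, ‖1 - (ζ ^ v) ^ ((lform e e' j1 k' % (N : ℤ)).toNat)‖ ≤
        2 ^ (S.erase k).card := by
      refine (prod_le_prod (fun _ _ => norm_nonneg _) hother).trans ?_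
      rw [prod_const]
    have hw0R : (0 : ℝ) ≤ w := by exact_mod_cast hw0.le
    have h2 : ‖1 - ζ ^ w.toNat‖ * ∏ k' ∈ S.erase k,
        ‖1 - (ζ ^ v) ^ ((lform e e' j1 k' % (N : ℤ)).toNat)‖ ≤
        (2 * Real.pi * w / N) * 2 ^ (S.erase k).card := by
      refine mul_le_mul ?_ h1 (prod_nonneg fun _ _ => norm_nonneg _) (by positivity)
      rw [norm_sub_rev]
      exact hω
    refine h2.trans ?_
    have h3 : (2 * Real.pi * w / N) * 2 ^ (S.erase k).card =
        (2 : ℝ) ^ ((S.erase k).card + 1) * (Real.pi * w / N) := by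
      rw [pow_succ]
      ring
    rw [h3]
    have h4 : (2 : ℝ) ^ ((S.erase k).card + 1) ≤ 2 ^ (4 ^ r * (n * r)) :=
      pow_le_pow_right₀ (by norm_num) hcard
    refine (mul_le_mul_of_nonneg_right h4 (by positivity)).trans ?_
    have h5 : (4 : ℝ) * N * w ≤ -(Phi1 N j1 e e' (v : ℤ) : ℝ) := by exact_mod_cast hbd
    have h6 : (2 : ℝ) ^ (4 ^ r * (n * r)) * (Real.pi * w / N) =
        (2 : ℝ) ^ (4 ^ r * (n * r)) * Real.pi / (4 * N ^ 2) * (4 * N * w) := by
      field_simp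
    rw [h6]
    exact mul_le_mul_of_nonneg_left h5 (by positivity)
  have h1 := GP.totient_le_sum hN f hζ hf0
  rw [GP.sum_prim hζ] at h1
  have h2 : (N.totient : ℝ) ≤ (2 : ℝ) ^ (4 ^ r * (n * r)) * Real.pi / (4 * N ^ 2) *
      (-((∑ u : (ZMod N)ˣ, Phi1 N j1 e e' (((u : ZMod N).val : ℕ) : ℤ) : ℤ) : ℝ)) := by
    have h3 := sum_le_sum fun (u : (ZMod N)ˣ) (_ : u ∈ univ) => hbound u
    rw [← mul_sum, sum_neg_distrib] at h3
    push_cast
    linarith
  have h3 := sum_Phi1 j1 e e' lam phi t hl1 hp1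
  have h4 : 6 * ((∑ u : (ZMod N)ˣ, Phi1 N j1 e e' (((u : ZMod N).val : ℕ) : ℤ) : ℤ) : ℝ) =
      (N.totient : ℝ) * (N : ℝ) ^ 2 * (expr gam j1 lam phi t : ℝ) := by exact_mod_cast h3
  have hφ : (0 : ℝ) < N.totient := by exact_mod_cast Nat.totient_pos.2 hN
  generalize hP : (2 : ℝ) ^ (4 ^ r * (n * r)) = P at h2
  have hPpos : 0 < P := by
    rw [← hP]
    positivity
  generalize hE : (expr gam j1 lam phi t : ℝ) = E at h4
  have h5 : 24 ≤ P * Real.pi * (-E) := by
    have h7 : ((∑ u : (ZMod N)ˣ, Phi1 N j1 e e' (((u : ZMod N).val : ℕ) : ℤ) : ℤ) : ℝ) =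
        (N.totient : ℝ) * (N : ℝ) ^ 2 * E / 6 := by
      rw [← h4]
      ring
    rw [h7] at h2
    have h8 : P * Real.pi / (4 * (N : ℝ) ^ 2) * (-((N.totient : ℝ) * (N : ℝ) ^ 2 * E / 6)) =
        (N.totient : ℝ) * (P * Real.pi * (-E) / 24) := by
      field_simp
      ring
    rw [h8] at h2
    have h9 : (N.totient : ℝ) * 1 ≤ (N.totient : ℝ) * (P * Real.pi * (-E) / 24) := by linarith
    have h10 := le_of_mul_le_mul_left h9 hφ
    linarith
  have h6 : P * E < -7 := by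
    have hE0 : 0 < -E := by
      by_contra hcon
      have h7 : P * Real.pi * (-E) ≤ 0 :=
        mul_nonpos_of_nonneg_of_nonpos (by positivity) (not_lt.1 hcon)
      linarith
    have h7 : P * Real.pi * (-E) ≤ P * 3.15 * (-E) := by
      have h8 : P * Real.pi ≤ P * 3.15 := mul_le_mul_of_nonneg_left Real.pi_lt_d2.le hPpos.le
      exact mul_le_mul_of_nonneg_right h8 hE0.le
    nlinarith
  rw [← hP, ← hE] at h6
  exact_mod_cast h6

end Pool.Agent.R927
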