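import Pool.Agent.R927.FWDefs
import Pool.Agent.R927.GDefs

set_option autoImplicit false

/-!
Definitions for the balance of the exponents at two singular points and at the others.
-/

namespace Pool.Agent.R927

open Finset Pool.Agent.TH571.PCV Pool.Agent.W432.PC

/-- For two singular points `x₀`, `x₁` and a function `F` of rational numbers modulo `ℤ`: with the
`q = (n - 1) r` numbers `X = D x l`, `x ≠ x₀, x₁`, it is
`∑ F (D x₁ i - D x₁ k) + ∑ F (D x₀ i - D x₀ k) - 2 ∑ F (D x₁ i + D x₀ k) -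
(q ^ 2 + ∑ F (X - X') - 2 q ∑ F (X))`. -/
def balance {n r : ℕ} (F : ℚ → ℚ) (x₀ x₁ : Option (Fin n)) (D : Option (Fin n) → Fin r → ℚ) : ℚ :=
  ∑ i, ∑ k, F (D x₁ i - D x₁ k) + ∑ i, ∑ k, F (D x₀ i - D x₀ k) -
    2 * ∑ i, ∑ k, F (D x₁ i + D x₀ k) -
    (((n - 1 : ℕ) * r : ℚ) ^ 2 + (∑ x ∈ (univ.erase x₀).erase x₁, ∑ l,
      ∑ x' ∈ (univ.erase x₀).erase x₁, ∑ l', F (D x l - D x' l')) -
      2 * ((n - 1 : ℕ) * r) * ∑ x ∈ (univ.erase x₀).erase x₁, ∑ l, F (D x l))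

/-- Among the `D x l`, `x ≠ x₀, x₁`, are two which are not integers and do not differ by an integer. -/
def TwoClasses {n r : ℕ} (x₀ x₁ : Option (Fin n)) (D : Option (Fin n) → Fin r → ℚ) : Prop :=
  ∃ x ∈ (univ.erase x₀).erase x₁, ∃ l, ∃ x' ∈ (univ.erase x₀).erase x₁, ∃ l', (D x l).den ≠ 1 ∧
    (D x' l').den ≠ 1 ∧ (D x l - D x' l').den ≠ 1

/-- All the numbers in `balance` are integers or have denominators at least `d`. -/
def LargeArgs {n r : ℕ} (d : ℕ) (x₀ x₁ : Option (Fin n)) (D : Option (Fin n) → Fin r → ℚ) : Prop :=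
  (∀ i k, (D x₁ i - D x₁ k).den = 1 ∨ d ≤ (D x₁ i - D x₁ k).den) ∧
  (∀ i k, (D x₀ i - D x₀ k).den = 1 ∨ d ≤ (D x₀ i - D x₀ k).den) ∧
  (∀ i k, (D x₁ i + D x₀ k).den = 1 ∨ d ≤ (D x₁ i + D x₀ k).den) ∧
  (∀ x ∈ (univ.erase x₀).erase x₁, ∀ l, (D x l).den = 1 ∨ d ≤ (D x l).den) ∧
  ∀ x ∈ (univ.erase x₀).erase x₁, ∀ l, ∀ x' ∈ (univ.erase x₀).erase x₁, ∀ l',
    (D x l - D x' l').den = 1 ∨ d ≤ (D x l - D x' l').den

end Pool.Agent.R927
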