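import Pool.Agent.R927.GG4
import Pool.Agent.R927.GGDefs
import Pool.Agent.R927.FW

set_option autoImplicit false

/-!
The gap for stable weights and for irreducible systems.
-/

namespace Pool.Agent.R927

open Finset Pool.Agent.Y227.SS Pool.Agent.TH571.PCV
open Pool.Agent.W432.PC (HasExponents PCurvZeroAt CondII)
open Pool.Agent.R340.HK (stableWeights_shift stableWeights_congr)
open Pool.Agent.R340.SY (expo)

universe u

section weights

variable {n r : ℕ}

/-- the weights with half-integral shifts -/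
theorem shifted_wdata_gen {lam : Fin n → Fin r → ℚ} {phi : Fin r → ℚ} {B : ℕ} (hB : 0 < B)
    (hst : ∀ a : ℤ, IsCoprime a (B : ℤ) →
      StableWeights ℂ (fun j l => (a : ℝ) * lam j l) (fun l => (a : ℝ) * phi l))
    {t : Fin n → ℚ} {N : ℕ} (hN : 0 < N) {e : Fin n → Fin r → ℤ} {e' : Fin r → ℤ}
    (hl : ∀ j l, lam j l = (e j l : ℚ) / N + t j) (hp : ∀ l, phi l = (e' l : ℚ) / N + ∑ j, t j)
    (a : ℤ) (ha : IsCoprime a ((2 * N : ℕ) : ℤ)) (T : Fin n → ℤ) :
    WData True ℂ (fun j l => ((a * (2 * e j l + T j) : ℤ) : ℝ) / ((2 * N : ℕ) : ℝ))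
      (fun l => ((a * (2 * e' l + ∑ j, T j) : ℤ) : ℝ) / ((2 * N : ℕ) : ℝ)) := by
  have hNR : (N : ℝ) ≠ 0 := by exact_mod_cast hN.ne'
  obtain ⟨a', ha', hk⟩ := lift_coprime (D := 2 * N) (N := 2 * N * B)
    (Nat.mul_pos (by omega) hB) (dvd_mul_right _ _) ha
  have ha'B : IsCoprime a' (B : ℤ) := ha'.of_isCoprime_of_dvd_right (by
    push_cast
    exact dvd_mul_left _ _)
  obtain ⟨k, hk⟩ := hk
  have haR : (a' : ℝ) = a + 2 * N * k := by
    have h1 : a' = a + ((2 * N : ℕ) : ℤ) * k := by linarith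
    rw [h1]
    push_cast
    ring
  have hlR : ∀ j l, (lam j l : ℝ) = (e j l : ℝ) / N + (t j : ℝ) := fun j l => by
    rw [hl]
    push_cast
    rfl
  have hpR : ∀ l, (phi l : ℝ) = (e' l : ℝ) / N + ∑ j, (t j : ℝ) := fun l => by
    rw [hp]
    push_cast
    rfl
  refine WData.of_stable (stableWeights_congr (shift_all (hst a' ha'B)
    (fun j => -((a' : ℝ) * t j) + (a' : ℝ) * T j / (2 * N)))
    (fun j l => ⟨k * (2 * e j l + T j), ?_⟩) (fun l => ⟨k * (2 * e' l + ∑ j, T j), ?_⟩))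
  · rw [hlR, haR]
    push_cast
    field_simp
    ring
  · rw [hpR, sum_add_distrib, sum_neg_distrib, ← mul_sum, ← sum_div, ← mul_sum, haR]
    push_cast
    generalize ∑ j, (T j : ℝ) = T₀
    generalize ∑ j, (t j : ℝ) = t₀
    field_simp
    ring

/-- the gap for stable weights -/
theorem gen_gap_abs {lam : Fin n → Fin r → ℚ} {phi : Fin r → ℚ} {B : ℕ} (hB : 0 < B)
    (hst : ∀ a : ℤ, IsCoprime a (B : ℤ) →
      StableWeights ℂ (fun j l => (a : ℝ) * lam j l) (fun l => (a : ℝ) * phi l))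
    (hF : ∑ j, ∑ l, lam j l = ∑ l, phi l) (j1 : Fin n) (t : Fin n → ℚ)
    (h3 : ∃ j ∈ univ.erase j1, ∃ l, ∃ j' ∈ univ.erase j1, ∃ l', (lam j l - t j).den ≠ 1 ∧
      (lam j' l' - t j').den ≠ 1 ∧ ((lam j l - t j) - (lam j' l' - t j')).den ≠ 1) :
    (2 : ℚ) ^ (4 ^ r * (n * r)) * expr gam j1 lam phi t < -7 := by
  obtain ⟨N, hN, hNlam, hNphi⟩ := exists_clear lam phi t
  have hNQ : (N : ℚ) ≠ 0 := by exact_mod_cast hN.ne'
  choose e he using hNlam
  choose e' he' using hNphi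
  have hl : ∀ j l, lam j l = (e j l : ℚ) / N + t j := by
    intro j l
    rw [← he]
    field_simp
    ring
  have hp : ∀ l, phi l = (e' l : ℚ) / N + ∑ j, t j := by
    intro l
    rw [← he']
    field_simp
    ring
  have hsum : ∑ j, ∑ l, e j l = ∑ l, e' l := by
    have h5 := hF
    simp only [hl, hp, sum_add_distrib, sum_const, card_univ, Fintype.card_fin, nsmul_eq_mul,
      ← mul_sum] at h5
    have h6 : ∑ j, ∑ l, (e j l : ℚ) / N = ∑ l, (e' l : ℚ) / N := by linarith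
    simp only [← sum_div] at h6
    rw [div_left_inj' hNQ] at h6
    exact_mod_cast h6
  have hden : ∀ z : ℤ, ((z : ℚ) / N).den ≠ 1 → ¬ (N : ℤ) ∣ z := by
    rintro z hz ⟨m, rfl⟩
    apply hz
    have : (((N : ℤ) * m : ℤ) : ℚ) / N = (m : ℚ) := by
      push_cast
      field_simp
    rw [this]
    exact Rat.den_intCast m
  have h3' : ∃ j ∈ univ.erase j1, ∃ l, ∃ j' ∈ univ.erase j1, ∃ l', ¬ (N : ℤ) ∣ e j l ∧
        ¬ (N : ℤ) ∣ e j' l' ∧ ¬ (N : ℤ) ∣ e j l - e j' l' := by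
    obtain ⟨j, hj, l, j', hj', l', k1, k2, k3⟩ := h3
    refine ⟨j, hj, l, j', hj', l', hden _ ?_, hden _ ?_, hden _ ?_⟩
    · rw [hl, add_sub_cancel_right] at k1
      exact k1
    · rw [hl, add_sub_cancel_right] at k2
      exact k2
    · rw [hl, hl, add_sub_cancel_right, add_sub_cancel_right, ← sub_div] at k3
      push_cast
      exact k3
  exact gap_gen hN (B := 2 * N) (by omega) (Dvd.intro_left 2 rfl) hl hp j1
    (fun a ha => phi_level N hN e e' a ha j1
      (fun T => shifted_wdata_gen hB hst hN hl hp a ha T) hsum trivial h3')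

lemma sum_oth2 {M : Type*} [AddCommGroup M] {x₀ x₁ : Option (Fin n)} {j1 : Fin n}
    (hj : oth x₀ j1 = x₁) (hx : x₁ ≠ x₀) (g : Option (Fin n) → M) :
    ∑ j ∈ univ.erase j1, g (oth x₀ j) = ∑ x ∈ (univ.erase x₀).erase x₁, g x := by
  rw [sum_erase_eq_sub (mem_univ j1), sum_erase_eq_sub (mem_erase.2 ⟨hx, mem_univ x₁⟩),
    sum_oth x₀ g, hj]

/-- the gap for stable weights, in terms of the differences with the exponents of a rank one system -/
theorem balance_gap {lam : Fin n → Fin r → ℚ} {phi : Fin r → ℚ} {B : ℕ} (hB : 0 < B)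
    (hst : ∀ a : ℤ, IsCoprime a (B : ℤ) →
      StableWeights ℂ (fun j l => (a : ℝ) * lam j l) (fun l => (a : ℝ) * phi l))
    (hF : ∑ j, ∑ l, lam j l = ∑ l, phi l)
    {x₀ x₁ : Option (Fin n)} (hx : x₁ ≠ x₀) {ε : Option (Fin n) → ℚ}
    {D : Option (Fin n) → Fin r → ℚ} (hD : IsTwist lam phi ε D) (h3 : TwoClasses x₀ x₁ D) :
    (2 : ℚ) ^ (4 ^ r * (n * r)) * balance gam x₀ x₁ D < -7 := by
  classical
  have hst' := fun a ha => swap_stable (hst a ha) x₀
  obtain ⟨j1, hj1⟩ := exists_oth hx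
  set lam' : Fin n → Fin r → ℚ := fun j l => expo lam phi (oth x₀ j) l with hlam'
  set phi' : Fin r → ℚ := fun l => -expo lam phi x₀ l with hphi'
  set t : Fin n → ℚ := fun j => ε (oth x₀ j) with ht
  have hsum : ∑ j, t j = -ε x₀ := by
    have h1 := sum_oth x₀ ε
    have h2 := add_sum_erase univ ε (mem_univ x₀)
    rw [hD.1] at h2
    rw [ht]
    simp only
    rw [h1]
    linarith
  have h1 : ∀ j l, lam' j l - t j = D (oth x₀ j) l := fun j l => by rw [hD.eq]
  have hF' : ∑ j, ∑ l, lam' j l = ∑ l, phi' l := by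
    have h4 : ∑ x, ∑ l, expo lam phi x l = 0 := by
      rw [Fintype.sum_option]
      have h5 : ∑ l, expo lam phi none l = -∑ l, phi l := by
        rw [← sum_neg_distrib]
        rfl
      have h6 : ∑ j : Fin n, ∑ l, expo lam phi (some j) l = ∑ j, ∑ l, lam j l := rfl
      rw [h5, h6, hF]
      ring
    have h5 := sum_oth x₀ (fun x => ∑ l, expo lam phi x l)
    have h6 := add_sum_erase univ (fun x => ∑ l, expo lam phi x l) (mem_univ x₀)
    rw [h4] at h6
    simp only [hlam', hphi', sum_neg_distrib]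
    rw [h5]
    linarith
  have hrest : ∑ j ∈ univ.erase j1, t j = -ε x₀ - ε x₁ := by
    rw [sum_erase_eq_sub (mem_univ j1), hsum, ht]
    simp only [hj1]
  have key := gen_gap_abs (lam := lam') (phi := phi') hB hst' hF' j1 t (by
    obtain ⟨x, hx1, l, x', hx2, l', k1, k2, k3⟩ := h3
    obtain ⟨j, hj⟩ := exists_oth (ne_of_mem_erase (mem_of_mem_erase hx1))
    obtain ⟨j', hj'⟩ := exists_oth (ne_of_mem_erase (mem_of_mem_erase hx2))
    refine ⟨j, mem_erase.2 ⟨?_, mem_univ _⟩, l, j', mem_erase.2 ⟨?_, mem_univ _⟩, l', ?_, ?_, ?_⟩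
    · rintro rfl
      exact ne_of_mem_erase hx1 (hj.symm.trans hj1)
    · rintro rfl
      exact ne_of_mem_erase hx2 (hj'.symm.trans hj1)
    · rw [h1, hj]
      exact k1
    · rw [h1, hj']
      exact k2
    · rw [h1, h1, hj, hj']
      exact k3)
  have hexpr : expr gam j1 lam' phi' t = balance gam x₀ x₁ D := by
    unfold expr balance
    have a1 : ∀ i k, lam' j1 i - lam' j1 k = D x₁ i - D x₁ k := fun i k => by
      rw [← hj1, ← h1, ← h1]
      ring
    have a2 : ∀ i k, gam (phi' i - phi' k) = gam (D x₀ i - D x₀ k) := fun i k => by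
      rw [hD.eq, hD.eq, ← gam_neg]
      congr 1
      rw [hphi']
      ring
    have a3 : ∀ i k, lam' j1 i - phi' k + ∑ j ∈ univ.erase j1, t j = D x₁ i + D x₀ k :=
      fun i k => by
      rw [hrest, hD.eq, hD.eq, hlam', hphi']
      simp only [hj1]
      ring
    simp only [a1, a2, a3, h1]
    rw [sum_oth2 hj1 hx (fun x => ∑ l, gam (D x l))]
    have a4 : ∀ y : ℚ, ∑ j' ∈ univ.erase j1, ∑ l', gam (y - D (oth x₀ j') l') =
        ∑ x' ∈ (univ.erase x₀).erase x₁, ∑ l', gam (y - D x' l') := fun y =>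
      sum_oth2 hj1 hx (fun x' => ∑ l', gam (y - D x' l'))
    simp only [a4]
    rw [sum_oth2 hj1 hx (fun x => ∑ l, ∑ x' ∈ (univ.erase x₀).erase x₁, ∑ l',
      gam (D x l - D x' l'))]
  rw [← hexpr]
  exact key

end weights

end Pool.Agent.R927
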