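import Pool.Agent.R927.GG5

set_option autoImplicit false

/-!
The gap for irreducible systems: large denominators.
-/

namespace Pool.Agent.R927

open Finset Pool.Agent.Y227.SS Pool.Agent.TH571.PCV
open Pool.Agent.W432.PC (HasExponents PCurvZeroAt CondII)

universe u

lemma sum2_ge {ι κ : Type*} (s : Finset ι) (t : Finset κ) (f g : ι → κ → ℚ) (δ : ℚ)
    (h : ∀ i ∈ s, ∀ k ∈ t, f i k - δ ≤ g i k) :
    ∑ i ∈ s, ∑ k ∈ t, f i k - s.card * (t.card * δ) ≤ ∑ i ∈ s, ∑ k ∈ t, g i k := by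
  have h1 : ∑ i ∈ s, ∑ k ∈ t, (f i k - δ) ≤ ∑ i ∈ s, ∑ k ∈ t, g i k :=
    sum_le_sum fun i hi => sum_le_sum fun k hk => h i hi k hk
  simp only [sum_sub_distrib, sum_const, nsmul_eq_mul] at h1
  exact h1

lemma sum2_le {ι κ : Type*} (s : Finset ι) (t : Finset κ) (f g : ι → κ → ℚ) (δ : ℚ)
    (h : ∀ i ∈ s, ∀ k ∈ t, g i k ≤ f i k + δ) :
    ∑ i ∈ s, ∑ k ∈ t, g i k ≤ ∑ i ∈ s, ∑ k ∈ t, f i k + s.card * (t.card * δ) := by
  have h1 : ∑ i ∈ s, ∑ k ∈ t, g i k ≤ ∑ i ∈ s, ∑ k ∈ t, (f i k + δ) :=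
    sum_le_sum fun i hi => sum_le_sum fun k hk => h i hi k hk
  simp only [sum_add_distrib, sum_const, nsmul_eq_mul] at h1
  exact h1

section balance

variable {n r : ℕ}

lemma abs_gam_int1 {d : ℕ} (hd : 0 < d) {y : ℚ} (h : y.den = 1 ∨ d ≤ y.den) :
    |gam y - int1 y| ≤ 1 / d := by
  have hdQ : (0 : ℚ) < d := by exact_mod_cast hd
  unfold int1
  split_ifs with h1
  · rw [gam_int _ h1, sub_self, abs_zero]
    positivity
  · rw [sub_zero]
    refine (gam_abs_le y).trans (one_div_le_one_div_of_le hdQ ?_)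
    exact_mod_cast h.resolve_left h1

lemma balance_le {d : ℕ} (hd : 0 < d) {x₀ x₁ : Option (Fin n)} (hx : x₁ ≠ x₀)
    {D : Option (Fin n) → Fin r → ℚ} (h : LargeArgs d x₀ x₁ D) :
    balance int1 x₀ x₁ D - (4 * (r : ℚ) ^ 2 + 3 * ((n - 1 : ℕ) * r : ℚ) ^ 2) / d ≤
      balance gam x₀ x₁ D := by
  classical
  obtain ⟨h1, h2, h3, h4, h5⟩ := h
  have hcO : ((univ.erase x₀).erase x₁ : Finset (Option (Fin n))).card = n - 1 := by
    rw [card_erase_of_mem (mem_erase.2 ⟨hx, mem_univ x₁⟩), card_erase_of_mem (mem_univ x₀),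
      card_univ, Fintype.card_option, Fintype.card_fin]
    omega
  set O : Finset (Option (Fin n)) := (univ.erase x₀).erase x₁ with hO
  have hlo : ∀ y : ℚ, (y.den = 1 ∨ d ≤ y.den) → int1 y - 1 / d ≤ gam y := fun y hy => by
    linarith [(abs_le.1 (abs_gam_int1 hd hy)).1]
  have hhi : ∀ y : ℚ, (y.den = 1 ∨ d ≤ y.den) → gam y ≤ int1 y + 1 / d := fun y hy => by
    linarith [(abs_le.1 (abs_gam_int1 hd hy)).2]
  have s1 := sum2_ge (univ : Finset (Fin r)) (univ : Finset (Fin r))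
    (fun i k => int1 (D x₁ i - D x₁ k)) (fun i k => gam (D x₁ i - D x₁ k)) (1 / d)
    (fun i _ k _ => hlo _ (h1 i k))
  have s2 := sum2_ge (univ : Finset (Fin r)) (univ : Finset (Fin r))
    (fun i k => int1 (D x₀ i - D x₀ k)) (fun i k => gam (D x₀ i - D x₀ k)) (1 / d)
    (fun i _ k _ => hlo _ (h2 i k))
  have s3 := sum2_le (univ : Finset (Fin r)) (univ : Finset (Fin r))
    (fun i k => int1 (D x₁ i + D x₀ k)) (fun i k => gam (D x₁ i + D x₀ k)) (1 / d)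
    (fun i _ k _ => hhi _ (h3 i k))
  have s4 := sum2_ge O (univ : Finset (Fin r))
    (fun x l => int1 (D x l)) (fun x l => gam (D x l)) (1 / d)
    (fun x hx l _ => hlo _ (h4 x hx l))
  have s5 := sum2_le O (univ : Finset (Fin r))
    (fun x l => ∑ x' ∈ O, ∑ l', int1 (D x l - D x' l'))
    (fun x l => ∑ x' ∈ O, ∑ l', gam (D x l - D x' l'))
    (O.card * (((univ : Finset (Fin r)).card : ℚ) * (1 / d)))
    (fun x hx l _ => sum2_le O (univ : Finset (Fin r)) (fun x' l' => int1 (D x l - D x' l'))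
      (fun x' l' => gam (D x l - D x' l')) (1 / d) (fun x' hx' l' _ => hhi _ (h5 x hx l x' hx' l')))
  simp only [hcO, card_univ, Fintype.card_fin] at s1 s2 s3 s4 s5
  unfold balance
  rw [← hO]
  have hdQ : (0 : ℚ) < d := by exact_mod_cast hd
  have e1 : (4 * (r : ℚ) ^ 2 + 3 * ((n - 1 : ℕ) * r : ℚ) ^ 2) / d =
      (r : ℚ) * (r * (1 / d)) + r * (r * (1 / d)) + 2 * (r * (r * (1 / d))) +
      ((n - 1 : ℕ) : ℚ) * (r * (((n - 1 : ℕ) : ℚ) * (r * (1 / d)))) +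
      2 * ((n - 1 : ℕ) * r) * (((n - 1 : ℕ) : ℚ) * (r * (1 / d))) := by
    ring
  rw [e1]
  have s4' := mul_le_mul_of_nonneg_left s4 (by positivity : (0 : ℚ) ≤ 2 * ((n - 1 : ℕ) * r))
  rw [mul_sub] at s4'
  linarith

/-- the case of large denominators -/
theorem balance_large (hr : 0 < r) {x₀ x₁ : Option (Fin n)} (hx : x₁ ≠ x₀)
    {D : Option (Fin n) → Fin r → ℚ}
    (h : LargeArgs (2 ^ (4 ^ r * (n * r)) * (r ^ 2 + ((n - 1) * r) ^ 2)) x₀ x₁ D)
    (h0 : 0 ≤ balance int1 x₀ x₁ D) :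
    -7 ≤ (2 : ℚ) ^ (4 ^ r * (n * r)) * balance gam x₀ x₁ D := by
  have hd : 0 < 2 ^ (4 ^ r * (n * r)) * (r ^ 2 + ((n - 1) * r) ^ 2) := by positivity
  have h1 := balance_le hd hx h
  have hrQ : (0 : ℚ) < r := by exact_mod_cast hr
  have hP : (0 : ℚ) < (2 : ℚ) ^ (4 ^ r * (n * r)) := by positivity
  have hS : (0 : ℚ) < (r : ℚ) ^ 2 + ((n - 1 : ℕ) * r : ℚ) ^ 2 := by positivity
  push_cast at h1
  generalize (2 : ℚ) ^ (4 ^ r * (n * r)) = P at h1 hP
  have h2 : (4 * (r : ℚ) ^ 2 + 3 * ((n - 1 : ℕ) * r : ℚ) ^ 2) /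
      (P * ((r : ℚ) ^ 2 + ((n - 1 : ℕ) * r : ℚ) ^ 2)) ≤ 4 / P := by
    rw [div_le_div_iff₀ (mul_pos hP hS) hP]
    have h3 : (0 : ℚ) ≤ ((n - 1 : ℕ) * r : ℚ) ^ 2 := by positivity
    nlinarith
  have h3 : -(4 / P) ≤ balance gam x₀ x₁ D := by linarith
  have h4 := mul_le_mul_of_nonneg_left h3 hP.le
  have h5 : P * -(4 / P) = -4 := by field_simp
  rw [h5] at h4
  linarith

end balance

section systems

variable {R : Type u} [CommRing R] [IsDomain R] [CharZero R] [Algebra.FiniteType ℤ R] {n r : ℕ}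

/-- Irreducible systems: nonzero `p`-curvatures or a gap in the balance of the exponents. -/
theorem sys_balance (α : Fin n → R) (hα : ∀ i j, i ≠ j → IsUnit (α i - α j))
    (A : Fin n → Matrix (Fin r) (Fin r) R) (lam : Fin n → Fin r → ℚ) (phi : Fin r → ℚ)
    (hlam : ∀ j, HasExponents (A j) (lam j)) (hphi : HasExponents (∑ j, A j) phi)
    (hirr : AbsIrreducible α A) {x₀ x₁ : Option (Fin n)} (hx : x₁ ≠ x₀)
    {ε : Option (Fin n) → ℚ} {D : Option (Fin n) → Fin r → ℚ} (hD : IsTwist lam phi ε D)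
    (h3 : TwoClasses x₀ x₁ D) :
    (∀ B, ExpDen lam phi B → BadMod α A B) ∨
      (2 : ℚ) ^ (4 ^ r * (n * r)) * balance gam x₀ x₁ D < -7 := by
  by_cases h : ∀ B, ExpDen lam phi B → BadMod α A B
  · exact Or.inl h
  · right
    push Not at h
    obtain ⟨B, hB, hbad⟩ := h
    exact balance_gap hB.1 (sys_stable α hα A lam phi hlam hphi hirr hB hbad)
      (sum_exponents hlam hphi) hx hD h3

theorem sys_large (hr : 0 < r) (α : Fin n → R) (hα : ∀ i j, i ≠ j → IsUnit (α i - α j))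
    (A : Fin n → Matrix (Fin r) (Fin r) R) (lam : Fin n → Fin r → ℚ) (phi : Fin r → ℚ)
    (hlam : ∀ j, HasExponents (A j) (lam j)) (hphi : HasExponents (∑ j, A j) phi)
    (hirr : AbsIrreducible α A) {x₀ x₁ : Option (Fin n)} (hx : x₁ ≠ x₀)
    {ε : Option (Fin n) → ℚ} {D : Option (Fin n) → Fin r → ℚ} (hD : IsTwist lam phi ε D)
    (h3 : TwoClasses x₀ x₁ D)
    (h : LargeArgs (2 ^ (4 ^ r * (n * r)) * (r ^ 2 + ((n - 1) * r) ^ 2)) x₀ x₁ D)
    (h0 : 0 ≤ balance int1 x₀ x₁ D) : ∀ B, ExpDen lam phi B → BadMod α A B := by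
  rcases sys_balance α hα A lam phi hlam hphi hirr hx hD h3 with h1 | h1
  · exact h1
  · exact absurd h1 (not_lt.2 (balance_large hr hx h h0))

end systems

end Pool.Agent.R927
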