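import Pool.Agent.R927.GP4
import Pool.Agent.R927.FW

set_option autoImplicit false

/-!
Systems which need not be irreducible.
-/

namespace Pool.Agent.R927

open Finset Pool.Agent.TH571.PCV
open Pool.Agent.W432.PC (HasExponents PCurvZeroAt CondII)

universe u

lemma den_eq_one_iff (q : ℚ) : q.den = 1 ↔ ∃ m : ℤ, q = m := by
  constructor
  · intro h
    exact ⟨q.num, ((Rat.den_eq_one_iff q).1 h).symm⟩
  · rintro ⟨m, rfl⟩
    simp

/-- the residue class of a rational number -/
lemma class_iff {N : ℕ} (hN : 0 < N) {q : ℚ} {w : ℤ} (hw : ((w : ℚ) / N - q).den = 1) (z : ℤ) :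
    ((z : ℚ) / N - q).den = 1 ↔ (N : ℤ) ∣ z - w := by
  rw [← den_div hN, den_eq_one_iff, den_eq_one_iff]
  obtain ⟨m, hm⟩ := (den_eq_one_iff _).1 hw
  have hNQ : (N : ℚ) ≠ 0 := by exact_mod_cast hN.ne'
  constructor
  · rintro ⟨k, hk⟩
    refine ⟨k - m, ?_⟩
    push_cast
    rw [sub_div, ← hk, ← hm]
    ring
  · rintro ⟨k, hk⟩
    refine ⟨k + m, ?_⟩
    push_cast at hk ⊢
    rw [sub_div] at hk
    rw [← hk, ← hm]
    ring

variable {R : Type u} [CommRing R] [IsDomain R] [CharZero R] [Algebra.FiniteType ℤ R] {n r : ℕ}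

/-- The semistable case of the gap. -/
theorem few_semi_gap (hr : 0 < r) (α : Fin n → R) (hα : ∀ i j, i ≠ j → IsUnit (α i - α j))
    (A : Fin n → Matrix (Fin r) (Fin r) R) (lam : Fin n → Fin r → ℚ) (phi : Fin r → ℚ)
    (hlam : ∀ j, HasExponents (A j) (lam j)) (hphi : HasExponents (∑ j, A j) phi)
    (t : Fin n → ℚ) (hfew : nonint lam t ≤ r) (hz : ∀ k, (phi k - ∑ j, t j).den ≠ 1) (q : ℚ)
    (hq : (univ.filter fun k => (phi k - ∑ j, t j - q).den = 1).card ≠
      (univ.filter fun x : Fin n × Fin r => (lam x.1 x.2 - t x.1).den ≠ 1 ∧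
        (lam x.1 x.2 - t x.1 - q).den = 1).card)
    (hexc : -1 ≤ 14 * (r : ℚ) ^ 2 * excess lam phi t)
    (N : ℕ) (hN : 0 < N) (hNlam : ∀ j l, ∃ m : ℤ, (N : ℚ) * (lam j l - t j) = m)
    (hNphi : ∀ l, ∃ m : ℤ, (N : ℚ) * (phi l - ∑ j, t j) = m) :
    ∃ v : (ZMod N)ˣ, NonzeroFor α A N {v} := by
  classical
  by_contra hcon
  push Not at hcon
  have : NeZero N := ⟨hN.ne'⟩
  have hNZ : (0 : ℤ) < N := by exact_mod_cast hN
  have hNQ : (0 : ℚ) < N := by exact_mod_cast hN
  obtain ⟨h1, -, -⟩ := few_semi α hα A lam phi hlam hphi t hfew hz N hN hNlam hNphi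
  have h2 := fun u => (h1 u).resolve_left (hcon _)
  choose e he using hNlam
  choose e' he' using hNphi
  have hl : ∀ j l, lam j l = (e j l : ℚ) / N + t j := by
    intro j l
    rw [← he]
    field_simp
    ring
  have hp : ∀ l, phi l = (e' l : ℚ) / N + ∑ j, t j := by
    intro l
    rw [← he']
    field_simp
    ring
  have hlt : ∀ j l, lam j l - t j = (e j l : ℚ) / N := fun j l => by
    rw [hl, add_sub_cancel_right]
  have hpt : ∀ k, phi k - ∑ j, t j = (e' k : ℚ) / N := fun k => by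
    rw [hp, add_sub_cancel_right]
  have hcard : (univ.filter fun x : Fin n × Fin r => ¬ (N : ℤ) ∣ e x.1 x.2).card = r := by
    rw [← nonint_eq hN hl]
    exact (h2 1).1
  have hmaj : ∀ u : (ZMod N)ˣ,
      Major False (fun j l => ((((u : ZMod N).val : ℕ) : ℤ) * e j l) % N)
        (fun k => ((((u : ZMod N).val : ℕ) : ℤ) * e' k) % N) := by
    intro u
    obtain ⟨-, h3, h4⟩ := h2 u
    have hfx : ∀ j l, Int.fract ((((u : ZMod N).val : ℕ) : ℚ) * (lam j l - t j)) =
        ((((((u : ZMod N).val : ℕ) : ℤ) * e j l) % N : ℤ) : ℚ) / N := fun j l => by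
      rw [hlt, ← fract_eq hN]
      push_cast
      rfl
    have hfz : ∀ k, Int.fract ((((u : ZMod N).val : ℕ) : ℚ) * (phi k - ∑ j, t j)) =
        ((((((u : ZMod N).val : ℕ) : ℤ) * e' k) % N : ℤ) : ℚ) / N := fun k => by
      rw [hpt, ← fract_eq hN]
      push_cast
      rfl
    refine ⟨?_, fun J => ?_⟩
    · simp only [hfx, hfz, ← sum_div] at h3
      have h5 := (div_left_inj' hNQ.ne').1 h3
      exact_mod_cast h5
    · obtain ⟨A', hA', h5⟩ := h4 J
      simp only [hfx, hfz, ← sum_div] at h5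
      have h6 := (div_le_div_iff_of_pos_right hNQ).1 h5
      exact ⟨A', hA', by exact_mod_cast h6, fun h => h.elim⟩
  -- the class
  have hc : ∃ w : ℤ, ((w : ℚ) / N - q).den = 1 := by
    by_contra hno
    push Not at hno
    apply hq
    have e1 : (univ.filter fun k => (phi k - ∑ j, t j - q).den = 1) = ∅ :=
      filter_false_of_mem fun k _ hk => hno (e' k) (by rw [← hpt]; exact hk)
    have e2 : (univ.filter fun x : Fin n × Fin r => (lam x.1 x.2 - t x.1).den ≠ 1 ∧
        (lam x.1 x.2 - t x.1 - q).den = 1) = ∅ :=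
      filter_false_of_mem fun x _ hx => hno (e x.1 x.2) (by rw [← hlt]; exact hx.2)
    rw [e1, e2, card_empty, card_empty]
  obtain ⟨w, hw⟩ := hc
  have hgap := gap_core hN hl hp hr hcard hmaj w (by
    have e1 : (univ.filter fun k => (N : ℤ) ∣ e' k - w) =
        univ.filter fun k => (phi k - ∑ j, t j - q).den = 1 := by
      ext k
      simp only [mem_filter, mem_univ, true_and]
      rw [hpt, class_iff hN hw]
    have e2 : (univ.filter fun x : Fin n × Fin r => ¬ (N : ℤ) ∣ e x.1 x.2 ∧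
        (N : ℤ) ∣ e x.1 x.2 - w) = univ.filter fun x : Fin n × Fin r =>
          (lam x.1 x.2 - t x.1).den ≠ 1 ∧ (lam x.1 x.2 - t x.1 - q).den = 1 := by
      ext x
      simp only [mem_filter, mem_univ, true_and]
      rw [hlt, class_iff hN hw, ne_eq, den_div hN]
    rw [e1, e2]
    exact hq)
  linarith

end Pool.Agent.R927
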