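import Pool.Agent.R927.GG6
import Pool.Agent.R927.GP5

set_option autoImplicit false

/-!
Three singular points: large denominators.
-/

namespace Pool.Agent.R927

open Finset Pool.Agent.Y227.SS Pool.Agent.TH571.PCV
open Pool.Agent.W432.PC (HasExponents PCurvZeroAt CondII)
open Pool.Agent.R340.SY (expo)

universe u

lemma other_points : ∀ x₂ : Option (Fin 2), ∃ x₀ x₁ : Option (Fin 2), x₁ ≠ x₀ ∧ x₂ ≠ x₀ ∧ x₂ ≠ x₁ ∧
    (univ.erase x₀).erase x₁ = {x₂} := by decide

lemma sum_three_pts {M : Type*} [AddCommGroup M] {x₀ x₁ x₂ : Option (Fin 2)} (h : x₁ ≠ x₀)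
    (h2 : (univ.erase x₀).erase x₁ = {x₂}) (f : Option (Fin 2) → M) :
    ∑ x, f x = f x₀ + f x₁ + f x₂ := by
  rw [← add_sum_erase univ f (mem_univ x₀),
    ← add_sum_erase (univ.erase x₀) f (mem_erase.2 ⟨h, mem_univ x₁⟩), h2, sum_singleton]
  abel

lemma den_sub_one {a b : ℚ} (ha : a.den = 1) (hb : b.den = 1) : (a - b).den = 1 := by
  rw [den_eq_one_iff] at *
  obtain ⟨m, rfl⟩ := ha
  obtain ⟨k, rfl⟩ := hb
  exact ⟨m - k, by push_cast; rfl⟩

section systems

variable {R : Type u} [CommRing R] [IsDomain R] [CharZero R] [Algebra.FiniteType ℤ R] {r : ℕ}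

/-- Three singular points, index of rigidity at least zero, large denominators. -/
theorem three_large (hr : 0 < r) (α : Fin 2 → R) (hα : ∀ i j, i ≠ j → IsUnit (α i - α j))
    (A : Fin 2 → Matrix (Fin r) (Fin r) R) (lam : Fin 2 → Fin r → ℚ) (phi : Fin r → ℚ)
    (hlam : ∀ j, HasExponents (A j) (lam j)) (hphi : HasExponents (∑ j, A j) phi)
    (hirr : AbsIrreducible α A)
    (h3 : ∃ x l l' l'', (expo lam phi x l - expo lam phi x l').den ≠ 1 ∧
      (expo lam phi x l - expo lam phi x l'').den ≠ 1 ∧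
      (expo lam phi x l' - expo lam phi x l'').den ≠ 1)
    (hd : ∀ x l l', (expo lam phi x l - expo lam phi x l').den = 1 ∨
      2 ^ (4 ^ r * (2 * r)) * (2 * r ^ 2) ≤ (expo lam phi x l - expo lam phi x l').den)
    (hs : ∀ κ : Option (Fin 2) → Fin r,
      2 ^ (4 ^ r * (2 * r)) * (2 * r ^ 2) ≤ (∑ x, expo lam phi x (κ x)).den)
    (hrig : r ^ 2 ≤ (univ.filter fun p : Option (Fin 2) × Fin r × Fin r =>
      (expo lam phi p.1 p.2.1 - expo lam phi p.1 p.2.2).den = 1).card) :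
    ∀ B, ExpDen lam phi B → BadMod α A B := by
  classical
  obtain ⟨x₂, l1, l2, l3, k1, k2, k3⟩ := h3
  obtain ⟨x₀, x₁, h10, h20, h21, hO⟩ := other_points x₂
  set E := expo lam phi with hE
  have hne : (univ : Finset (Fin r)).Nonempty := ⟨⟨0, hr⟩, mem_univ _⟩
  obtain ⟨l₀, -, hmax⟩ := exists_max_image (univ : Finset (Fin r))
    (fun l => ∑ l', int1 (E x₂ l' - E x₂ l)) hne
  set ε : Option (Fin 2) → ℚ := fun x => if x = x₂ then E x₂ l₀ else if x = x₀ then -E x₂ l₀ else 0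
    with hε
  have hε2 : ε x₂ = E x₂ l₀ := if_pos rfl
  have hε0 : ε x₀ = -E x₂ l₀ := by
    have h1 : ε x₀ = if x₀ = x₂ then E x₂ l₀ else if x₀ = x₀ then -E x₂ l₀ else 0 := rfl
    rw [h1, if_neg h20.symm, if_pos rfl]
  have hε1 : ε x₁ = 0 := by
    have h1 : ε x₁ = if x₁ = x₂ then E x₂ l₀ else if x₁ = x₀ then -E x₂ l₀ else 0 := rfl
    rw [h1, if_neg h21.symm, if_neg h10]
  set D : Option (Fin 2) → Fin r → ℚ := fun x l => E x l - ε x with hD
  have hT : IsTwist lam phi ε D := by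
    refine ⟨?_, fun j l => rfl, fun l => rfl⟩
    rw [sum_three_pts h10 hO, hε2, hε0, hε1]
    ring
  have hDD : ∀ x l l', D x l - D x l' = E x l - E x l' := fun x l l' => by
    simp only [hD]
    ring
  have hD2 : ∀ l, D x₂ l = E x₂ l - E x₂ l₀ := fun l => by
    simp only [hD]
    rw [hε2]
  have hDs : ∀ i k, D x₁ i + D x₀ k = E x₀ k + E x₁ i + E x₂ l₀ := fun i k => by
    simp only [hD]
    rw [hε0, hε1]
    ring
  have hsum : ∀ i k, 2 ^ (4 ^ r * (2 * r)) * (2 * r ^ 2) ≤ (D x₁ i + D x₀ k).den := by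
    intro i k
    have h1 := hs (fun x => if x = x₀ then k else if x = x₁ then i else l₀)
    rw [sum_three_pts h10 hO, if_pos rfl, if_neg h10, if_pos rfl, if_neg h20, if_neg h21] at h1
    rw [hDs]
    exact h1
  have hΔ : 1 < 2 ^ (4 ^ r * (2 * r)) * (2 * r ^ 2) := by
    have h1 : 1 ≤ 2 ^ (4 ^ r * (2 * r)) := Nat.one_le_two_pow
    have h2 : 1 ≤ r ^ 2 := Nat.one_le_pow _ _ hr
    nlinarith
  have hmem : ∀ x : Option (Fin 2), x ∈ (univ.erase x₀).erase x₁ ↔ x = x₂ := fun x => by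
    rw [hO, mem_singleton]
  have hΔ' : 2 ^ (4 ^ r * (2 * r)) * (r ^ 2 + ((2 - 1) * r) ^ 2) =
      2 ^ (4 ^ r * (2 * r)) * (2 * r ^ 2) := by
    congr 1
    ring
  refine sys_large hr α hα A lam phi hlam hphi hirr h10 hT ?_ ?_ ?_
  · -- two classes
    have key : ∃ l l', (D x₂ l).den ≠ 1 ∧ (D x₂ l').den ≠ 1 ∧ (E x₂ l - E x₂ l').den ≠ 1 := by
      have hcomb : ∀ l l', (D x₂ l).den = 1 → (D x₂ l').den = 1 → (E x₂ l - E x₂ l').den = 1 := by
        intro l l' h1 h2
        rw [← hDD]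
        exact den_sub_one h1 h2
      by_cases c1 : (D x₂ l1).den = 1
      · exact ⟨l2, l3, fun h => k1 (hcomb _ _ c1 h), fun h => k2 (hcomb _ _ c1 h), k3⟩
      · by_cases c2 : (D x₂ l2).den = 1
        · exact ⟨l1, l3, c1, fun h => k3 (hcomb _ _ c2 h), k2⟩
        · exact ⟨l1, l2, c1, c2, k1⟩
    obtain ⟨l, l', h1, h2, h4⟩ := key
    exact ⟨x₂, (hmem _).2 rfl, l, x₂, (hmem _).2 rfl, l', h1, h2, by rw [hDD]; exact h4⟩
  · -- large denominators
    rw [hΔ']
    refine ⟨fun i k => ?_, fun i k => ?_, fun i k => Or.inr (hsum i k), fun x hx l => ?_,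
      fun x hx l x' hx' l' => ?_⟩
    · rw [hDD]
      exact hd _ _ _
    · rw [hDD]
      exact hd _ _ _
    · rw [(hmem x).1 hx, hD2]
      exact hd _ _ _
    · rw [(hmem x).1 hx, (hmem x').1 hx', hDD]
      exact hd _ _ _
  · -- the balance
    unfold balance
    rw [hO]
    simp only [sum_singleton, hDD]
    simp only [hD2]
    have e1 : ∑ i, ∑ k, int1 (D x₁ i + D x₀ k) = 0 := by
      refine sum_eq_zero fun i _ => sum_eq_zero fun k _ => ?_
      unfold int1
      rw [if_neg]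
      have := hsum i k
      omega
    rw [e1]
    set m : Option (Fin 2) → ℚ := fun x => ∑ l, ∑ l', int1 (E x l - E x l') with hm
    set μ : ℚ := ∑ l', int1 (E x₂ l' - E x₂ l₀) with hμ
    have hrigQ : (r : ℚ) ^ 2 ≤ m x₀ + m x₁ + m x₂ := by
      rw [← sum_three_pts h10 hO m]
      have h1 : ((univ.filter fun p : Option (Fin 2) × Fin r × Fin r =>
        (E p.1 p.2.1 - E p.1 p.2.2).den = 1).card : ℚ) = ∑ x, m x := by
        rw [card_filter, Fintype.sum_prod_type]
        push_cast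
        refine sum_congr rfl fun x _ => ?_
        rw [Fintype.sum_prod_type]
        rfl
      rw [← h1]
      exact_mod_cast hrig
    have hm2 : m x₂ ≤ r * μ := by
      have h1 : m x₂ ≤ ∑ _l : Fin r, μ := by
        refine sum_le_sum fun l _ => ?_
        refine le_trans (le_of_eq ?_) (hmax l (mem_univ l))
        refine sum_congr rfl fun l' _ => ?_
        rw [← int1_neg, neg_sub]
      rw [sum_const, card_univ, Fintype.card_fin, nsmul_eq_mul] at h1
      exact h1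
    have h21' : ((2 - 1 : ℕ) : ℚ) = 1 := by norm_num
    have g0 : ∑ l, ∑ l', int1 (E x₀ l - E x₀ l') = m x₀ := rfl
    have g1 : ∑ l, ∑ l', int1 (E x₁ l - E x₁ l') = m x₁ := rfl
    have g2 : ∑ l, ∑ l', int1 (E x₂ l - E x₂ l') = m x₂ := rfl
    rw [h21', g0, g1, g2]
    linarith

end systems

end Pool.Agent.R927
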