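import Pool.Agent.R927.GG7

set_option autoImplicit false

/-!
Three singular points, rank at most three.
-/

namespace Pool.Agent.R927

open Finset

lemma card_pairs {r : ℕ} (E : Option (Fin 2) → Fin r → ℚ) (hr : r ≤ 3) :
    r ^ 2 ≤ (univ.filter fun p : Option (Fin 2) × Fin r × Fin r =>
      (E p.1 p.2.1 - E p.1 p.2.2).den = 1).card := by
  classical
  have h1 : (univ.image fun p : Option (Fin 2) × Fin r => (p.1, p.2, p.2)) ⊆
      univ.filter fun p : Option (Fin 2) × Fin r × Fin r =>
        (E p.1 p.2.1 - E p.1 p.2.2).den = 1 := by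
    intro p hp
    obtain ⟨x, -, rfl⟩ := mem_image.1 hp
    refine mem_filter.2 ⟨mem_univ _, ?_⟩
    simp
  have h2 := card_le_card h1
  rw [card_image_of_injective _ (fun a b h => by
    simp only [Prod.mk.injEq] at h
    exact Prod.ext h.1 h.2.1), card_univ, Fintype.card_prod, Fintype.card_option, Fintype.card_fin,
    Fintype.card_fin] at h2
  nlinarith

end Pool.Agent.R927
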