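import Pool.Agent.R927.GG8

set_option autoImplicit false

/-!
The gap in terms of the average with respect to a finite singular point.
-/

namespace Pool.Agent.R927

open Finset Pool.Agent.Y227.SS Pool.Agent.TH571.PCV
open Pool.Agent.W432.PC (HasExponents PCurvZeroAt CondII)

universe u

variable {R : Type u} [CommRing R] [IsDomain R] [CharZero R] [Algebra.FiniteType ℤ R] {n r : ℕ}

theorem sys_expr (α : Fin n → R) (hα : ∀ i j, i ≠ j → IsUnit (α i - α j))
    (A : Fin n → Matrix (Fin r) (Fin r) R) (lam : Fin n → Fin r → ℚ) (phi : Fin r → ℚ)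
    (hlam : ∀ j, HasExponents (A j) (lam j)) (hphi : HasExponents (∑ j, A j) phi)
    (hirr : AbsIrreducible α A) (j1 : Fin n) (t : Fin n → ℚ)
    (h3 : ∃ j l j' l', j ≠ j1 ∧ j' ≠ j1 ∧ (lam j l - t j).den ≠ 1 ∧ (lam j' l' - t j').den ≠ 1 ∧
        ((lam j l - t j) - (lam j' l' - t j')).den ≠ 1)
    (he : -7 ≤ (2 : ℚ) ^ (4 ^ r * (n * r)) * expr gam j1 lam phi t) :
    ∀ B, ExpDen lam phi B → BadMod α A B := by
  intro B hB
  by_contra hbad
  obtain ⟨j, l, j', l', hj, hj', k1, k2, k3⟩ := h3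
  have h1 := gen_gap_abs hB.1 (sys_stable α hα A lam phi hlam hphi hirr hB hbad)
    (sum_exponents hlam hphi) j1 t
    ⟨j, mem_erase.2 ⟨hj, mem_univ _⟩, l, j', mem_erase.2 ⟨hj', mem_univ _⟩, l', k1, k2, k3⟩
  exact absurd h1 (not_lt.2 he)

end Pool.Agent.R927
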