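import Pool.Agent.R927.GP3

set_option autoImplicit false

/-!
The gap without irreducibility.
-/

namespace Pool.Agent.R927

open Finset Polynomial Pool.Agent.W280.PC Pool.Agent.TH571.PCV

namespace GP

/-- Power sums of small exponent distinguish. -/
lemma exists_power_count {ι κ : Type*} [Fintype ι] [Fintype κ] (X : ι → ℂ) (Z : κ → ℂ) (v0 : ℂ)
    (hv : (univ.filter fun k => Z k = v0).card ≠ (univ.filter fun i => X i = v0).card) :
    ∃ m, m < Fintype.card ι + Fintype.card κ ∧ ∑ k, Z k ^ m ≠ ∑ i, X i ^ m := by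
  classical
  by_contra hcon
  push Not at hcon
  set T : Finset ℂ := univ.image X ∪ univ.image Z with hT
  have hcard : T.card ≤ Fintype.card ι + Fintype.card κ :=
    (card_union_le _ _).trans (Nat.add_le_add (card_image_le.trans (by simp))
      (card_image_le.trans (by simp)))
  set c : ℂ → ℂ := fun v => (∑ k, if Z k = v then 1 else 0) - ∑ i, if X i = v then 1 else 0 with hc
  set f : Fin T.card → ℂ := fun j => (T.equivFin.symm j : ℂ) with hf
  have hinj : Function.Injective f := fun a b h => T.equivFin.symm.injective (Subtype.ext h)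
  have key : ∀ m, ∑ j, c (f j) * f j ^ m = ∑ k, Z k ^ m - ∑ i, X i ^ m := by
    intro m
    have h1 : ∑ j, c (f j) * f j ^ m = ∑ v ∈ T, c v * v ^ m := by
      rw [← sum_coe_sort T (fun v => c v * v ^ m)]
      exact Fintype.sum_equiv T.equivFin.symm _ _ (fun j => rfl)
    rw [h1, hc]
    simp only [sub_mul, sum_sub_distrib, sum_mul, ite_mul, one_mul, zero_mul]
    congr 1
    · rw [sum_comm]
      refine sum_congr rfl fun k _ => ?_
      rw [sum_ite_eq]
      rw [if_pos (mem_union_right _ (mem_image_of_mem _ (mem_univ _)))]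
    · rw [sum_comm]
      refine sum_congr rfl fun k _ => ?_
      rw [sum_ite_eq]
      rw [if_pos (mem_union_left _ (mem_image_of_mem _ (mem_univ _)))]
  have hv' : (fun j => c (f j)) = 0 := by
    refine Matrix.eq_zero_of_forall_pow_sum_mul_pow_eq_zero hinj fun i => ?_
    rw [key, hcon i (lt_of_lt_of_le i.2 hcard), sub_self]
  have hmem : v0 ∈ T := by
    by_contra h
    apply hv
    have e1 : (univ.filter fun k => Z k = v0) = ∅ := filter_false_of_mem fun k _ hk =>
      h (mem_union_right _ (hk ▸ mem_image_of_mem Z (mem_univ k)))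
    have e2 : (univ.filter fun k => X k = v0) = ∅ := filter_false_of_mem fun k _ hk =>
      h (mem_union_left _ (hk ▸ mem_image_of_mem X (mem_univ k)))
    rw [e1, e2, card_empty, card_empty]
  have h0 := congrFun hv' (T.equivFin ⟨v0, hmem⟩)
  simp only [hf, Equiv.symm_apply_apply, Pi.zero_apply, hc] at h0
  rw [sum_boole, sum_boole, sub_eq_zero] at h0
  exact hv (by exact_mod_cast h0)

end GP

variable {n r : ℕ}

/-- **The gap**, for different multisets of exponents. -/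
theorem gap_core {st : Prop} {lam : Fin n → Fin r → ℚ} {phi : Fin r → ℚ} {t : Fin n → ℚ}
    {N : ℕ} (hN : 0 < N) {e : Fin n → Fin r → ℤ} {e' : Fin r → ℤ}
    (hl1 : ∀ j l, lam j l = (e j l : ℚ) / N + t j) (hp1 : ∀ l, phi l = (e' l : ℚ) / N + ∑ j, t j)
    (hr : 0 < r)
    (hcard : (univ.filter fun x : Fin n × Fin r => ¬ (N : ℤ) ∣ e x.1 x.2).card = r)
    (hmaj2 : ∀ u : (ZMod N)ˣ,
      Major st (fun j l => ((((u : ZMod N).val : ℕ) : ℤ) * e j l) % N)
        (fun k => ((((u : ZMod N).val : ℕ) : ℤ) * e' k) % N)) (c : ℤ)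
    (hc : (univ.filter fun k => (N : ℤ) ∣ e' k - c).card ≠
      (univ.filter fun x : Fin n × Fin r => ¬ (N : ℤ) ∣ e x.1 x.2 ∧ (N : ℤ) ∣ e x.1 x.2 - c).card) :
    14 * (r : ℚ) ^ 2 * excess lam phi t < -1 := by
  classical
  have : NeZero N := ⟨hN.ne'⟩
  have hNZ : (0 : ℤ) < N := by exact_mod_cast hN
  set ζ : ℂ := Complex.exp (2 * Real.pi * Complex.I / N) with hζdef
  have hζ : IsPrimitiveRoot ζ N := Complex.isPrimitiveRoot_exp N hN.ne'
  -- the nonintegral exponents
  set S := univ.filter fun x : Fin n × Fin r => ¬ (N : ℤ) ∣ e x.1 x.2 with hS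
  have hone : ∀ (z : ℤ) (m : ℕ), (N : ℤ) ∣ z → ζ ^ (m * (z % N).toNat) = 1 := by
    intro z m hz
    rw [Int.emod_eq_zero_of_dvd hz]
    simp
  have hiff : ∀ z : ℤ, ζ ^ (z % (N : ℤ)).toNat = ζ ^ (c % (N : ℤ)).toNat ↔ (N : ℤ) ∣ z - c := by
    intro z
    have h1 : ∀ z : ℤ, (z % (N : ℤ)).toNat < N := fun z => by
      have h2 := Int.emod_nonneg z hNZ.ne'
      have h3 := Int.emod_lt_of_pos z hNZ
      omega
    have h6 := Int.emod_nonneg z hNZ.ne'
    have h7 := Int.emod_nonneg c hNZ.ne'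
    constructor
    · intro h
      have h4 := hζ.pow_inj (h1 _) (h1 _) h
      exact Int.ModEq.dvd (Int.ModEq.symm (by unfold Int.ModEq; omega))
    · intro h
      have h5 : z % (N : ℤ) = c % (N : ℤ) :=
        Int.emod_eq_emod_iff_emod_sub_eq_zero.2 (Int.emod_eq_zero_of_dvd h)
      rw [h5]
  -- the exponent `m`
  have hpow : ∃ m : ℕ, m < 2 * r ∧
      ∑ k, (ζ ^ (e' k % (N : ℤ)).toNat) ^ m ≠ ∑ x : S, (ζ ^ (e x.1.1 x.1.2 % (N : ℤ)).toNat) ^ m := by
    obtain ⟨m, hm, h⟩ := GP.exists_power_count (fun x : S => ζ ^ (e x.1.1 x.1.2 % (N : ℤ)).toNat)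
      (fun k => ζ ^ (e' k % (N : ℤ)).toNat) (ζ ^ (c % (N : ℤ)).toNat) (by
        simp only [hiff]
        intro h
        apply hc
        rw [h]
        have h1 : (univ.filter fun x : Fin n × Fin r => ¬ (N : ℤ) ∣ e x.1 x.2 ∧
            (N : ℤ) ∣ e x.1 x.2 - c) = (univ.filter fun i : S =>
              (N : ℤ) ∣ e i.1.1 i.1.2 - c).map (Function.Embedding.subtype _) := by
          ext x
          simp only [mem_filter, mem_univ, true_and, mem_map, Function.Embedding.coe_subtype,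
            Subtype.exists, exists_and_right, exists_eq_right, hS]
          constructor
          · rintro ⟨h1, h2⟩
            exact ⟨by simpa using h1, h2⟩
          · rintro ⟨h1, h2⟩
            exact ⟨by simpa using h1, h2⟩
        rw [h1, card_map])
    rw [Fintype.card_coe, hcard, Fintype.card_fin] at hm
    exact ⟨m, by omega, h⟩
  obtain ⟨m, hm, hne⟩ := hpow
  -- the polynomial
  set f : ℤ[X] := ∑ k, X ^ (m * (e' k % (N : ℤ)).toNat) -
    ∑ x : Fin n × Fin r, X ^ (m * (e x.1 x.2 % (N : ℤ)).toNat) + C (((n * r : ℕ) : ℤ) - r) with hf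
  have heval : ∀ w : ℂ, aeval w f = ∑ k, w ^ (m * (e' k % (N : ℤ)).toNat) -
      ∑ x : Fin n × Fin r, w ^ (m * (e x.1 x.2 % (N : ℤ)).toNat) + (((n * r : ℕ) : ℂ) - r) := by
    intro w
    rw [hf]
    simp only [map_add, map_sub, map_sum, map_pow, aeval_X, aeval_C]
    simp
  have hf0 : aeval ζ f ≠ 0 := by
    rw [heval]
    have h1 : ∑ x : Fin n × Fin r, ζ ^ (m * (e x.1 x.2 % (N : ℤ)).toNat) =
        ∑ x : S, (ζ ^ (e x.1.1 x.1.2 % (N : ℤ)).toNat) ^ m + (((n * r : ℕ) : ℂ) - r) := by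
      rw [sum_coe_sort S (fun x => (ζ ^ (e x.1 x.2 % (N : ℤ)).toNat) ^ m)]
      rw [← sum_filter_add_sum_filter_not univ (fun x : Fin n × Fin r => ¬ (N : ℤ) ∣ e x.1 x.2)]
      congr 1
      · refine sum_congr rfl fun x _ => ?_
        rw [← pow_mul, mul_comm m]
      · rw [sum_congr rfl (g := fun _ => (1 : ℂ)) fun x hx => hone _ m
          (not_not.1 (mem_filter.1 hx).2), sum_const, nsmul_eq_mul, mul_one]
        have h2 := card_filter_add_card_filter_not (s := (univ : Finset (Fin n × Fin r)))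
          (fun x : Fin n × Fin r => ¬ (N : ℤ) ∣ e x.1 x.2)
        rw [card_univ, Fintype.card_prod, Fintype.card_fin, Fintype.card_fin, hcard] at h2
        rw [← h2]
        push_cast
        ring
    have h2 : ∑ k, ζ ^ (m * (e' k % (N : ℤ)).toNat) = ∑ k, (ζ ^ (e' k % (N : ℤ)).toNat) ^ m :=
      sum_congr rfl fun k _ => by rw [← pow_mul, mul_comm m]
    rw [h1, h2]
    intro h3
    apply hne
    linear_combination h3
  -- the bound for a single unit
  have hω : ‖ζ ^ m - 1‖ ≤ 2 * Real.pi * m / N := by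
    have h1 : ζ ^ m = Complex.exp (Complex.I * ((2 * Real.pi * m / N : ℝ) : ℂ)) := by
      rw [hζdef, ← Complex.exp_nat_mul]
      congr 1
      push_cast
      ring
    rw [h1]
    refine Real.norm_exp_I_mul_ofReal_sub_one_le.trans ?_
    rw [Real.norm_eq_abs, abs_of_nonneg (by positivity)]
  have hω1 : ‖ζ ^ m‖ = 1 := by
    rw [norm_pow, hζ.norm'_eq_one hN.ne', one_pow]
  have hbound : ∀ u : (ZMod N)ˣ, 2 * ‖aeval (ζ ^ (u : ZMod N).val) f‖ ≤
      (2 * Real.pi * m / N) ^ 2 * (-(Phi2 N e e' (((u : ZMod N).val : ℕ) : ℤ) : ℝ)) := by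
    intro u
    set v : ℕ := (u : ZMod N).val with hv
    have hM := hmaj2 u
    rw [← hv] at hM
    set x : Fin n × Fin r → ℕ := fun i => (((v : ℤ) * e i.1 i.2) % N).toNat with hx
    set z : Fin r → ℕ := fun k => (((v : ℤ) * e' k) % N).toNat with hz
    have hxZ : ∀ i, ((x i : ℕ) : ℤ) = ((v : ℤ) * e i.1 i.2) % N := fun i =>
      Int.toNat_of_nonneg (Int.emod_nonneg _ hNZ.ne')
    have hzZ : ∀ k, ((z k : ℕ) : ℤ) = ((v : ℤ) * e' k) % N := fun k =>
      Int.toNat_of_nonneg (Int.emod_nonneg _ hNZ.ne')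
    have hxN : ∀ i, x i ≤ N := fun i => by
      have := hxZ i
      have h3 := Int.emod_lt_of_pos ((v : ℤ) * e i.1 i.2) hNZ
      omega
    have hzN : ∀ k, z k ≤ N := fun k => by
      have := hzZ k
      have h3 := Int.emod_lt_of_pos ((v : ℤ) * e' k) hNZ
      omega
    have hsum : ∑ i, x i = ∑ k, z k := by
      have h1 := hM.1
      rw [← Fintype.sum_prod_type' (f := fun (j : Fin n) (l : Fin r) =>
        ((v : ℤ) * e j l) % (N : ℤ))] at h1
      have h2 : ((∑ i, x i : ℕ) : ℤ) = ((∑ k, z k : ℕ) : ℤ) := by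
        push_cast
        rw [sum_congr rfl fun i _ => hxZ i, sum_congr rfl fun k _ => hzZ k]
        exact h1
      exact_mod_cast h2
    have hinge : ∀ s : ℕ, ∑ i, (x i - (s + 1)) ≤ ∑ k, (z k - (s + 1)) := by
      intro s
      have h1 := hM.hinge ((s : ℤ) + 1) (by positivity)
      have h2 : ((∑ i, (x i - (s + 1)) : ℕ) : ℤ) ≤ ((∑ k, (z k - (s + 1)) : ℕ) : ℤ) := by
        push_cast
        have e1 : ∀ i : Fin n × Fin r, ((x i - (s + 1) : ℕ) : ℤ) =
            max (((v : ℤ) * e i.1 i.2) % N - ((s : ℤ) + 1)) 0 := fun i => by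
          have := hxZ i
          omega
        have e2 : ∀ k, ((z k - (s + 1) : ℕ) : ℤ) =
            max (((v : ℤ) * e' k) % N - ((s : ℤ) + 1)) 0 := fun k => by
          have := hzZ k
          omega
        rw [sum_congr rfl fun i _ => e1 i, sum_congr rfl fun k _ => e2 k]
        exact h1
      exact_mod_cast h2
    have key := GP.char_sum_le N x z hxN hzN hsum hinge (ζ ^ m) hω1
    have e1 : aeval (ζ ^ v) f = ∑ k, (ζ ^ m) ^ z k - ∑ i, (ζ ^ m) ^ x i +
        ((Fintype.card (Fin n × Fin r) : ℂ) - Fintype.card (Fin r)) := by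
      rw [heval, Fintype.card_prod, Fintype.card_fin, Fintype.card_fin]
      rw [sum_congr rfl fun k _ => pow_toNat_eq hN hζ.pow_eq_one v m (e' k),
        sum_congr rfl fun (i : Fin n × Fin r) _ => pow_toNat_eq hN hζ.pow_eq_one v m (e i.1 i.2)]
    have e2 : ∑ k, (z k : ℝ) ^ 2 - ∑ i, (x i : ℝ) ^ 2 = -((Phi2 N e e' (v : ℤ) : ℤ) : ℝ) := by
      have h3 : Phi2 N e e' v = ∑ i : Fin n × Fin r, ((x i : ℕ) : ℤ) ^ 2 -
          ∑ k, ((z k : ℕ) : ℤ) ^ 2 := by
        have h4 : ∀ y : ℤ, Q N y = (y % (N : ℤ)) ^ 2 - N * (y % (N : ℤ)) := fun y => by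
          unfold Q
          ring
        have h5 := hM.1
        simp only at h5
        unfold Phi2
        simp only [h4, sum_sub_distrib, ← mul_sum, hxZ, hzZ]
        rw [h5, Fintype.sum_prod_type' (f := fun (j : Fin n) (l : Fin r) =>
          (((v : ℤ) * e j l) % (N : ℤ)) ^ 2)]
        ring
      rw [h3]
      push_cast
      ring
    rw [← e1, e2] at key
    refine key.trans ?_
    have hnn : 0 ≤ -((Phi2 N e e' (v : ℤ) : ℤ) : ℝ) := by
      have h6 := (Phi2_of_major hN e e' (v : ℤ) hM).1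
      have h7 : ((Phi2 N e e' (v : ℤ) : ℤ) : ℝ) ≤ 0 := by exact_mod_cast h6
      linarith
    exact mul_le_mul_of_nonneg_right (pow_le_pow_left₀ (norm_nonneg _) hω 2) hnn
  -- the sum
  have h1 := GP.totient_le_sum hN f hζ hf0
  rw [GP.sum_prim hζ] at h1
  have h2 : 2 * (N.totient : ℝ) ≤ (2 * Real.pi * m / N) ^ 2 *
      (-((∑ u : (ZMod N)ˣ, Phi2 N e e' (((u : ZMod N).val : ℕ) : ℤ) : ℤ) : ℝ)) := by
    have h3 := sum_le_sum fun (u : (ZMod N)ˣ) (_ : u ∈ univ) => hbound u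
    rw [← mul_sum, ← mul_sum, sum_neg_distrib] at h3
    push_cast
    linarith
  have h3 := sum_Phi2 e e' lam phi t hl1 hp1
  have h4 : 6 * ((∑ u : (ZMod N)ˣ, Phi2 N e e' (((u : ZMod N).val : ℕ) : ℤ) : ℤ) : ℝ) =
      (N.totient : ℝ) * (N : ℝ) ^ 2 * (excess lam phi t : ℝ) := by exact_mod_cast h3
  have hφ : (0 : ℝ) < N.totient := by exact_mod_cast Nat.totient_pos.2 hN
  have hNR : (0 : ℝ) < N := by exact_mod_cast hN
  have h5 : 3 ≤ Real.pi ^ 2 * (m : ℝ) ^ 2 * (-(excess lam phi t : ℝ)) := by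
    have h6 : (2 * Real.pi * m / N) ^ 2 *
        (-((∑ u : (ZMod N)ˣ, Phi2 N e e' (((u : ZMod N).val : ℕ) : ℤ) : ℤ) : ℝ)) =
        (N.totient : ℝ) * (2 / 3 * (Real.pi ^ 2 * (m : ℝ) ^ 2 * (-(excess lam phi t : ℝ)))) := by
      have h7 : ((∑ u : (ZMod N)ˣ, Phi2 N e e' (((u : ZMod N).val : ℕ) : ℤ) : ℤ) : ℝ) =
          (N.totient : ℝ) * (N : ℝ) ^ 2 * (excess lam phi t : ℝ) / 6 := by
        rw [← h4]
        ring
      rw [h7]
      field_simp
      ring
    rw [h6] at h2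
    have h8 : (N.totient : ℝ) * 2 ≤ (N.totient : ℝ) *
        (2 / 3 * (Real.pi ^ 2 * (m : ℝ) ^ 2 * (-(excess lam phi t : ℝ)))) := by linarith
    have h9 := le_of_mul_le_mul_left h8 hφ
    linarith
  have h6 : (14 : ℝ) * (r : ℝ) ^ 2 * (excess lam phi t : ℝ) < -1 := by
    have hE : 0 < -(excess lam phi t : ℝ) := by
      by_contra hcon
      have h7 : Real.pi ^ 2 * (m : ℝ) ^ 2 * (-(excess lam phi t : ℝ)) ≤ 0 :=
        mul_nonpos_of_nonneg_of_nonpos (by positivity) (not_lt.1 hcon)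
      linarith
    have hm2 : (m : ℝ) ^ 2 ≤ (2 * r) ^ 2 := by
      have : (m : ℝ) ≤ 2 * r := by exact_mod_cast hm.le
      exact pow_le_pow_left₀ (by positivity) this 2
    have hpi : Real.pi ^ 2 ≤ 3.15 ^ 2 :=
      pow_le_pow_left₀ Real.pi_pos.le Real.pi_lt_d2.le 2
    have h7 : Real.pi ^ 2 * (m : ℝ) ^ 2 ≤ 3.15 ^ 2 * (2 * r) ^ 2 :=
      mul_le_mul hpi hm2 (by positivity) (by positivity)
    have h8 := mul_le_mul_of_nonneg_right h7 hE.le
    have hrR : (0 : ℝ) < r := by exact_mod_cast hr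
    nlinarith
  exact_mod_cast h6

end Pool.Agent.R927
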