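import Pool.Agent.R927.Bru2

set_option autoImplicit false

/-!
The hinge inequalities for semistable parabolic bundles.
-/

namespace Pool.Agent.R927

open Finset Matrix Pool.Agent.Y227.SS

section semi

variable {K : Type*} [Field K] {r : ℕ}

/-- The semistability inequalities for the constant subbundles: `j0` and `j1` are the two finite
singular points. -/
theorem semi_const {β : Fin 2 → K} {P : Fin 2 → Matrix (Fin r) (Fin r) K}
    {w : Fin 2 → Fin r → ℝ} {e : Fin r → ℝ} (hdet : ∀ j, (P j).det ≠ 0)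
    (hst : Semistable β P w e) {j0 j1 : Fin 2} (hj : j0 ≠ j1) :
    ∃ π : Equiv.Perm (Fin r), ∀ I : Finset (Fin r), 0 < I.card → I.card < r →
      ∃ A : Finset (Fin r), A.card = I.card ∧
        ∑ a ∈ A, w j0 a + ∑ i ∈ I, w j1 (π i) ≤ ∑ i ∈ I, e i := by
  classical
  obtain ⟨b, π, hb, hbe, hbv⟩ := bruhat (P j1) (hdet j1) e (w j1)
  refine ⟨π, fun I hI hIr => ?_⟩
  set s := I.card with hs
  let ι : Fin s ↪o Fin r := I.orderEmbOfFin rfl
  let U₀ : Matrix (Fin s) (Fin r) K := b.submatrix ι id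
  have hone : ∀ (X : Matrix (Fin r) (Fin r) K), b * X = 1 → U₀ * X.submatrix id ι = 1 := by
    intro X hX
    have h1 : U₀ * X.submatrix id ι = (b * X).submatrix ι ι := by
      ext i j
      simp [U₀, Matrix.mul_apply]
    rw [h1, hX, Matrix.submatrix_one _ ι.injective]
  have hbu : IsUnit b.det := isUnit_iff_ne_zero.2 hb
  have hPu : IsUnit (P j0).det := isUnit_iff_ne_zero.2 (hdet j0)
  obtain ⟨J₁, hJ₁⟩ := exists_minor_of_mul U₀ _ (hone _ (Matrix.mul_nonsing_inv b hbu))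
  obtain ⟨J₂, hJ₂⟩ := exists_minor_of_mul (U₀ * P j0) ((P j0)⁻¹ * (b⁻¹).submatrix id ι) (by
    rw [Matrix.mul_assoc, ← Matrix.mul_assoc (P j0), Matrix.mul_nonsing_inv _ hPu, Matrix.one_mul]
    exact hone _ (Matrix.mul_nonsing_inv b hbu))
  obtain ⟨J₀, hJ₀m, hJ₀⟩ := exists_min_image
    (univ.filter fun J : Fin s → Fin r => ((U₀ * P j0).submatrix id J).det ≠ 0)
    (fun J => ∑ i, w j0 (J i)) ⟨J₂, mem_filter.2 ⟨mem_univ _, hJ₂⟩⟩
  have hJ₀d := (mem_filter.1 hJ₀m).2
  have hJ₀i : Function.Injective J₀ := by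
    intro i i' hii
    by_contra hne
    exact hJ₀d (Matrix.det_zero_of_column_eq hne fun k => by simp [hii])
  have hmul : ∀ j, U₀.map Polynomial.C * (P j).map Polynomial.C =
      (U₀ * P j).map (Polynomial.C : K →+* Polynomial K) := fun j => by
    rw [Matrix.map_mul]
  obtain ⟨J, hJ, hlt⟩ := hst s (U₀.map Polynomial.C) ⟨J₁, by
      rw [mnr_C]
      exact (Polynomial.C_ne_zero).2 hJ₁⟩
    (fun j => if j = j0 then ∑ i, w j0 (J₀ i) else ∑ i, w j1 (π (ι i))) (by
      intro j J hJ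
      rw [hmul] at hJ ⊢
      have hJ' : ((U₀ * P j).submatrix id J).det ≠ 0 := by
        intro h0
        apply hJ
        have := mnr_C (U₀ * P j) J
        rw [h0, map_zero] at this
        exact this
      have hrm : (0 : ℝ) ≤ ((mnr ((U₀ * P j).map (Polynomial.C : K →+* Polynomial K)) J).rootMultiplicity
        (β j) : ℝ) := Nat.cast_nonneg _
      have hgoal : (if j = j0 then ∑ i, w j0 (J₀ i) else ∑ i, w j1 (π (ι i))) ≤
          ∑ i, w j (J i) := by
        split_ifs with h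
        · subst h
          exact hJ₀ J (mem_filter.2 ⟨mem_univ _, hJ'⟩)
        · have h1 : j = j1 := by omega
          subst h1
          obtain ⟨σ, hσ⟩ := exists_perm_of_det hJ'
          rw [← Equiv.sum_comp σ]
          refine sum_le_sum fun i _ => ?_
          refine hbv (ι (σ i)) (J i) ?_
          have h2 := hσ i
          simpa [U₀, Matrix.mul_apply] using h2
      linarith)
  have hJd : (U₀.submatrix id J).det ≠ 0 := by
    intro h0
    apply hJ
    rw [mnr_C, h0, map_zero]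
  have hnd : (mnr (U₀.map Polynomial.C) J).natDegree = 0 := by
    rw [mnr_C]
    exact Polynomial.natDegree_C _
  rw [hnd] at hlt
  have hle : ∑ i, e (J i) ≤ ∑ i, e (ι i) := by
    obtain ⟨σ, hσ⟩ := exists_perm_of_det hJd
    rw [← Equiv.sum_comp σ (fun i => e (ι i))]
    refine sum_le_sum fun i _ => ?_
    exact hbe _ _ (hσ i)
  have hsumI : ∀ f : Fin r → ℝ, ∑ i, f (ι i) = ∑ i ∈ I, f i := by
    intro f
    have h1 := I.map_orderEmbOfFin_univ (rfl : I.card = I.card)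
    conv_rhs => rw [← h1]
    rw [sum_map]
    rfl
  refine ⟨univ.image J₀, ?_, ?_⟩
  · rw [card_image_of_injective _ hJ₀i, card_univ, Fintype.card_fin]
  · rw [sum_image fun _ _ _ _ h => hJ₀i h, ← hsumI fun i => w j1 (π i), ← hsumI e]
    have h2 : ∑ j, (if j = j0 then ∑ i, w j0 (J₀ i) else ∑ i, w j1 (π (ι i))) =
        ∑ i, w j0 (J₀ i) + ∑ i, w j1 (π (ι i)) := by
      have h3 : j0 = 0 ∧ j1 = 1 ∨ j0 = 1 ∧ j1 = 0 := by omega
      rcases h3 with ⟨rfl, rfl⟩ | ⟨rfl, rfl⟩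
      · rw [Fin.sum_univ_two]
        simp
      · rw [Fin.sum_univ_two]
        simp [add_comm]
    rw [h2] at hlt
    push_cast at hlt
    linarith

/-- The hinge inequalities. -/
theorem semi_hinge {β : Fin 2 → K} {P : Fin 2 → Matrix (Fin r) (Fin r) K}
    {w : Fin 2 → Fin r → ℝ} {e : Fin r → ℝ} (hdet : ∀ j, (P j).det ≠ 0)
    (hsum : ∑ j, ∑ l, w j l = ∑ l, e l)
    (hst : Semistable β P w e) {j0 j1 : Fin 2} (hj : j0 ≠ j1) :
    ∃ π : Equiv.Perm (Fin r), ∀ θ : ℝ,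
      ∑ i, max (w j1 (π i) - e i - θ) 0 ≤ ∑ l, max (-w j0 l - θ) 0 := by
  classical
  obtain ⟨π, hπ⟩ := semi_const hdet hst hj
  have htot : ∑ l, w j0 l + ∑ i, w j1 (π i) = ∑ i, e i := by
    rw [Equiv.sum_comp π (w j1), ← hsum]
    have h3 : j0 = 0 ∧ j1 = 1 ∨ j0 = 1 ∧ j1 = 0 := by omega
    rcases h3 with ⟨rfl, rfl⟩ | ⟨rfl, rfl⟩
    · rw [Fin.sum_univ_two]
    · rw [Fin.sum_univ_two, add_comm]
  refine ⟨π, fun θ => ?_⟩
  set I := univ.filter fun i => 0 < w j1 (π i) - e i - θ with hI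
  have hlhs : ∑ i, max (w j1 (π i) - e i - θ) 0 = ∑ i ∈ I, (w j1 (π i) - e i - θ) := by
    rw [hI, sum_filter]
    refine sum_congr rfl fun i _ => ?_
    split_ifs with h
    · exact max_eq_left h.le
    · exact max_eq_right (not_lt.1 h)
  have hnn : ∀ l, 0 ≤ max (-w j0 l - θ) 0 := fun l => le_max_right _ _
  rcases Nat.eq_zero_or_pos I.card with h0 | hpos
  · rw [hlhs, card_eq_zero.1 h0, sum_empty]
    exact sum_nonneg fun l _ => hnn l
  · rcases (card_le_univ I).lt_or_eq with hlt | heq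
    · rw [Fintype.card_fin] at hlt
      obtain ⟨A, hA, hAI⟩ := hπ I hpos hlt
      have h1 : ∑ i ∈ I, (w j1 (π i) - e i - θ) ≤ ∑ a ∈ A, (-w j0 a - θ) := by
        rw [sum_sub_distrib, sum_sub_distrib, sum_sub_distrib, sum_const, sum_const, hA,
          sum_neg_distrib]
        linarith
      have h2 : ∑ a ∈ A, (-w j0 a - θ) ≤ ∑ l, max (-w j0 l - θ) 0 :=
        (sum_le_sum fun a _ => le_max_left _ _).trans
          (sum_le_sum_of_subset_of_nonneg (subset_univ A) fun l _ _ => hnn l)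
      rw [hlhs]
      exact h1.trans h2
    · have hIu : I = univ := (card_eq_iff_eq_univ I).1 heq
      have h1 : ∑ i ∈ I, (w j1 (π i) - e i - θ) = ∑ l, (-w j0 l - θ) := by
        rw [hIu, sum_sub_distrib, sum_sub_distrib, sum_sub_distrib, sum_neg_distrib]
        linarith
      rw [hlhs, h1]
      exact sum_le_sum fun a _ => le_max_left _ _

end semi

/-- the hinge inequalities for integers: `j0` and `j1` are the two finite points -/
theorem int_hinge' {r : ℕ} (D : ℕ) (hD : 0 < D) (X : Fin 2 → Fin r → ℤ) (E' : Fin r → ℤ)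
    (hst : SemistableWeights ℂ (fun j l => (X j l : ℝ) / D) (fun l => (E' l : ℝ) / D))
    {j0 j1 : Fin 2} (hj : j0 ≠ j1) (hX0 : ∀ l, ¬ (D : ℤ) ∣ X j0 l) :
    ∃ (Y Z : Fin r → ℤ) (ρ : Equiv.Perm (Fin r)),
      (∀ i, ∃ m : ℤ, Y i = X j1 (ρ i) + D * m) ∧ (∀ i, ∃ m : ℤ, Z i = E' i + D * m) ∧
      ∑ l, X j0 l % D + ∑ i, Y i = ∑ i, Z i ∧
      ∀ θ : ℤ, ∑ i, max (Y i - Z i - θ) 0 ≤ ∑ l, max (-(X j0 l % D) - θ) 0 := by
  classical
  obtain ⟨β, P, w, e, _, hdet, hw, hwx, hey, hsum, hst⟩ := hst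
  obtain ⟨π, hπ⟩ := semi_hinge hdet hsum hst hj
  choose σ hσ using hwx
  choose m hm using hσ
  obtain ⟨σ', hσ'⟩ := hey
  choose m' hm' using hσ'
  have hDR : (0 : ℝ) < D := by exact_mod_cast hD
  have hD0 : (D : ℝ) ≠ 0 := hDR.ne'
  let W : Fin 2 → Fin r → ℤ := fun j l => X j (σ j l) + D * m j l
  let E : Fin r → ℤ := fun l => E' (σ' l) + D * m' l
  have hW : ∀ j l, (D : ℝ) * w j l = W j l := by
    intro j l
    rw [hm j l]
    simp only [W]
    push_cast
    field_simp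
  have hE : ∀ l, (D : ℝ) * e l = E l := by
    intro l
    rw [hm' l]
    simp only [E]
    push_cast
    field_simp
  have hW0 : ∀ l, W j0 l = X j0 (σ j0 l) % D := by
    intro l
    have h1 : (0 : ℝ) ≤ W j0 l := by
      rw [← hW]
      exact mul_nonneg hDR.le (hw j0 l).1
    have h2 : (W j0 l : ℝ) ≤ D := by
      rw [← hW]
      calc (D : ℝ) * w j0 l ≤ D * 1 := mul_le_mul_of_nonneg_left (hw j0 l).2 hDR.le
        _ = D := mul_one _
    have h1' : 0 ≤ W j0 l := by exact_mod_cast h1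
    have h2' : W j0 l ≤ D := by exact_mod_cast h2
    have h3 : W j0 l ≠ D := by
      intro h
      apply hX0 (σ j0 l)
      refine ⟨1 - m j0 l, ?_⟩
      simp only [W] at h
      linarith
    have h4 : W j0 l % D = X j0 (σ j0 l) % D := by
      simp only [W]
      rw [Int.add_mul_emod_self_left]
    rw [← h4]
    exact (Int.emod_eq_of_lt h1' (lt_of_le_of_ne h2' h3)).symm
  -- the hinge inequality for integers
  have hH : ∀ θ : ℤ, ∑ i, max (W j1 (π i) - E i - θ) 0 ≤ ∑ l, max (-(X j0 l % D) - θ) 0 := by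
    intro θ
    have h1 := hπ ((θ : ℝ) / D)
    have hl : (D : ℝ) * ∑ i, max (w j1 (π i) - e i - (θ : ℝ) / D) 0 =
        ((∑ i, max (W j1 (π i) - E i - θ) 0 : ℤ) : ℝ) := by
      rw [mul_sum]
      push_cast
      refine sum_congr rfl fun i _ => ?_
      rw [max_cast_mul D hDR (w j1 (π i) - e i) ((θ : ℝ) / D) (W j1 (π i) - E i - θ) (by
        push_cast
        rw [mul_sub, hW, hE, mul_div_cancel₀ _ hD0])]
      push_cast
      rfl
    have hr0 : ∑ l, max (-(X j0 l % D) - θ) 0 = ∑ l, max (-W j0 l - θ) 0 := by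
      rw [← Equiv.sum_comp (σ j0)]
      refine sum_congr rfl fun l _ => ?_
      rw [hW0 l]
    have hr : (D : ℝ) * ∑ l, max (-w j0 l - (θ : ℝ) / D) 0 =
        ((∑ l, max (-(X j0 l % D) - θ) 0 : ℤ) : ℝ) := by
      rw [hr0, mul_sum]
      push_cast
      refine sum_congr rfl fun i _ => ?_
      rw [max_cast_mul D hDR (-w j0 i) ((θ : ℝ) / D) (-W j0 i - θ) (by
        push_cast
        rw [mul_neg, hW, mul_div_cancel₀ _ hD0])]
      push_cast
      rfl
    have h3 := mul_le_mul_of_nonneg_left h1 hDR.le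
    rw [hl, hr] at h3
    exact_mod_cast h3
  refine ⟨fun i => W j1 (π (σ'.symm i)), fun i => E (σ'.symm i), (σ'.symm.trans π).trans (σ j1),
    fun i => ⟨m j1 (π (σ'.symm i)), rfl⟩, fun i => ⟨m' (σ'.symm i), ?_⟩, ?_, fun θ => ?_⟩
  · simp only [E]
    rw [Equiv.apply_symm_apply]
  · have h1 : ((∑ l, W j0 l + ∑ i, W j1 i : ℤ) : ℝ) = ((∑ i, E i : ℤ) : ℝ) := by
      push_cast
      have h2 : ∑ i, (E i : ℝ) = D * ∑ j, ∑ l, w j l := by
        rw [hsum, mul_sum]
        exact sum_congr rfl fun i _ => (hE i).symm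
      have h3 : ∀ j, ∑ l, (W j l : ℝ) = D * ∑ l, w j l := by
        intro j
        rw [mul_sum]
        exact sum_congr rfl fun i _ => (hW j i).symm
      rw [h2, h3, h3, ← mul_add]
      congr 1
      have h3 : j0 = 0 ∧ j1 = 1 ∨ j0 = 1 ∧ j1 = 0 := by omega
      rcases h3 with ⟨rfl, rfl⟩ | ⟨rfl, rfl⟩
      · rw [Fin.sum_univ_two]
      · rw [Fin.sum_univ_two, add_comm]
    have h2 : ∑ l, W j0 l + ∑ i, W j1 i = ∑ i, E i := by exact_mod_cast h1
    have h3 : ∑ l, W j0 l = ∑ l, X j0 l % D := by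
      rw [← Equiv.sum_comp (σ j0) fun l => X j0 l % D]
      exact sum_congr rfl fun l _ => hW0 l
    rw [← h3]
    have h4 : ∑ i, W j1 (π (σ'.symm i)) = ∑ i, W j1 i := by
      rw [Equiv.sum_comp σ'.symm fun i => W j1 (π i), Equiv.sum_comp π]
    have h5 : ∑ i, E (σ'.symm i) = ∑ i, E i := Equiv.sum_comp σ'.symm E
    rw [h4, h5]
    exact h2
  · have h1 : ∑ i, max (W j1 (π (σ'.symm i)) - E (σ'.symm i) - θ) 0 =
        ∑ i, max (W j1 (π i) - E i - θ) 0 :=
      Equiv.sum_comp σ'.symm fun i => max (W j1 (π i) - E i - θ) 0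
    rw [h1]
    exact hH θ

end Pool.Agent.R927
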