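import Pool.Agent.R927.Three1
import Pool.Agent.R927.SemiBru
import Pool.Agent.R927.SemiHinge

set_option autoImplicit false

/-!
Twists of systems with vanishing `p`-curvatures, and the hinge inequalities for all cuts
(semistable case).
-/

namespace Pool.Agent.R927

open Finset Polynomial Pool.Agent.W432.PC Pool.Agent.TH295.FO Pool.Agent.Y227.SS

universe u

section weights

variable {R : Type u} [CommRing R] [IsDomain R] [CharZero R] [Algebra.FiniteType ℤ R] {n r : ℕ}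

/-- for arbitrarily large primes `p` with `b ∣ a p + 1` the `p`-curvature vanishes at some closed
point of residue characteristic `p` -/
def InfZero {R : Type*} [CommRing R] {n r : ℕ} (α : Fin n → R)
    (A : Fin n → Matrix (Fin r) (Fin r) R) (b : ℕ) (a : ℤ) : Prop :=
  ∀ P₀ : ℕ, ∃ p : ℕ, p.Prime ∧ P₀ < p ∧ (b : ℤ) ∣ a * p + 1 ∧
    ∃ (𝔪 : Ideal R) (_ : 𝔪.IsMaximal), (p : R) ∈ 𝔪 ∧ PCurvZeroAt α A 𝔪

/-- The conjugate exponents of the twists are the weights of semistable parabolic bundles. -/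
theorem semistableWeights_twist (α : Fin n → R) (hα : ∀ i j, i ≠ j → IsUnit (α i - α j))
    (A : Fin n → Matrix (Fin r) (Fin r) R) (lam : Fin n → Fin r → ℚ) (phi : Fin r → ℚ)
    (hlam : ∀ j, HasExponents (A j) (lam j)) (hphi : HasExponents (∑ j, A j) phi)
    (b : ℕ) (hb : 0 < b)
    (hblam : ∀ j l, ∃ m : ℤ, (b : ℚ) * lam j l = m) (hbphi : ∀ l, ∃ m : ℤ, (b : ℚ) * phi l = m)
    (T : Fin n → ℤ) (a : ℤ) (hinf : InfZero α A b a) :
    SemistableWeights ℂ (fun j l => (a : ℝ) * ((lam j l + (T j : ℚ) / b : ℚ) : ℝ))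
      (fun l => (a : ℝ) * ((phi l + ((∑ j, T j : ℤ) : ℚ) / b : ℚ) : ℝ)) := by
  have hb0 : (b : R) ≠ 0 := by exact_mod_cast hb.ne'
  have hbQ : (b : ℚ) ≠ 0 := by exact_mod_cast hb.ne'
  have hle : Submonoid.powers (b : R) ≤ nonZeroDivisors R :=
    powers_le_nonZeroDivisors_of_noZeroDivisors hb0
  obtain ⟨S, iS, iA, iL⟩ : ∃ (S : Type u) (_ : CommRing S) (_ : Algebra R S),
      IsLocalization.Away (b : R) S :=
    ⟨Localization.Away (b : R), inferInstance, inferInstance, inferInstance⟩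
  have hdom : IsDomain S := IsLocalization.isDomain_of_le_nonZeroDivisors S hle
  have hinj : Function.Injective (algebraMap R S) := IsLocalization.injective S hle
  have hch : CharZero S := charZero_of_injective_algebraMap hinj
  have hft0 : Algebra.FiniteType R S :=
    IsLocalization.finiteType_of_monoid_fg (Submonoid.powers (b : R)) S
  have hft : Algebra.FiniteType ℤ S := Algebra.FiniteType.trans (S := R) ‹_› hft0
  have hbu : IsUnit (b : S) := by
    have := IsLocalization.Away.algebraMap_isUnit (S := S) (b : R)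
    rwa [map_natCast] at this
  obtain ⟨v, hv⟩ := hbu.exists_right_inv
  set c : Fin n → S := fun j => (T j : S) * v with hcdef
  have hc : ∀ j, (b : S) * c j = T j := by
    intro j
    rw [hcdef]
    linear_combination (T j : S) * hv
  set α' : Fin n → S := fun j => algebraMap R S (α j) with hα'def
  set A' : Fin n → Matrix (Fin r) (Fin r) S :=
    twist (fun j => (A j).map (algebraMap R S)) c with hA'def
  have hα' : ∀ i j, i ≠ j → IsUnit (α' i - α' j) := by
    intro i j hij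
    have := (hα i j hij).map (algebraMap R S)
    rwa [map_sub] at this
  have hlam' : ∀ j, HasExponents (A' j) (fun l => lam j l + (T j : ℚ) / b) := fun j =>
    hasExponents_twist (algebraMap R S) hinj (hlam j) hb (T j) (hc j)
  have hphi' : HasExponents (∑ j, A' j) (fun l => phi l + ((∑ j, T j : ℤ) : ℚ) / b) := by
    have h1 : ∑ j, A' j = (∑ j, A j).map (algebraMap R S) + (∑ j, c j) • 1 := by
      have h2 : (∑ j, A j).map (algebraMap R S) = ∑ j, (A j).map (algebraMap R S) :=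
        map_sum (algebraMap R S).mapMatrix A univ
      rw [h2, hA'def]
      unfold twist
      rw [sum_add_distrib, sum_smul]
    rw [h1]
    refine hasExponents_twist (algebraMap R S) hinj hphi hb (∑ j, T j) ?_
    rw [mul_sum, Int.cast_sum]
    exact sum_congr rfl fun j _ => hc j
  have hN1 : ∀ j l, ∃ z : ℤ, (b : ℚ) * (lam j l + (T j : ℚ) / b) = z := fun j l => by
    obtain ⟨m, hm⟩ := hblam j l
    refine ⟨m + T j, ?_⟩
    rw [mul_add, hm, mul_div_cancel₀ _ hbQ]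
    push_cast
    rfl
  have hN2 : ∀ l, ∃ z : ℤ, (b : ℚ) * (phi l + ((∑ j, T j : ℤ) : ℚ) / b) = z := fun l => by
    obtain ⟨m, hm⟩ := hbphi l
    refine ⟨m + ∑ j, T j, ?_⟩
    rw [mul_add, hm, mul_div_cancel₀ _ hbQ]
    push_cast
    rfl
  refine semistable_of_pCurv α' hα' A' (fun j l => lam j l + (T j : ℚ) / b)
    (fun l => phi l + ((∑ j, T j : ℤ) : ℚ) / b) hlam' hphi' b hb hN1 hN2 a ?_
  intro P₀
  obtain ⟨p, hp, hpP, hap, 𝔪, h𝔪, hpm, hpc⟩ := hinf (max P₀ b)
  have hpb : b < p := lt_of_le_of_lt (le_max_right _ _) hpP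
  refine ⟨p, hp, lt_of_le_of_lt (le_max_left _ _) hpP, hap, ?_⟩
  have hbm : (b : R) ∉ 𝔪 := by
    intro h
    have hcop : IsCoprime (b : ℤ) (p : ℤ) := by
      rw [Nat.isCoprime_iff_coprime]
      exact ((Nat.Prime.coprime_iff_not_dvd hp).2 fun h' =>
        absurd (Nat.le_of_dvd hb h') (not_le.2 hpb)).symm
    obtain ⟨u, v, huv⟩ := hcop
    apply h𝔪.ne_top
    rw [Ideal.eq_top_iff_one]
    have h1 : (1 : R) = (u : R) * (b : R) + (v : R) * (p : R) := by
      have := congrArg (fun z : ℤ => (z : R)) huv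
      push_cast at this
      exact this.symm
    rw [h1]
    exact Ideal.add_mem _ (Ideal.mul_mem_left _ _ h) (Ideal.mul_mem_left _ _ hpm)
  let ifld : Field (R ⧸ 𝔪) := Ideal.Quotient.field 𝔪
  have hbq : IsUnit (Ideal.Quotient.mk 𝔪 (b : R)) := by
    refine isUnit_iff_ne_zero.2 fun h => hbm (Ideal.Quotient.eq_zero_iff_mem.1 h)
  let ψ : S →+* R ⧸ 𝔪 := IsLocalization.Away.lift (b : R) hbq
  have hψ : ∀ y, ψ (algebraMap R S y) = Ideal.Quotient.mk 𝔪 y := fun y =>
    IsLocalization.Away.lift_eq (b : R) hbq y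
  have hsurj : Function.Surjective ψ := by
    intro y
    obtain ⟨y, rfl⟩ := Ideal.Quotient.mk_surjective y
    exact ⟨algebraMap R S y, hψ y⟩
  have hmax : (RingHom.ker ψ).IsMaximal := RingHom.ker_isMaximal_of_surjective ψ hsurj
  refine ⟨RingHom.ker ψ, hmax, ?_, ?_⟩
  · rw [RingHom.mem_ker, ← map_natCast (algebraMap R S), hψ]
    exact Ideal.Quotient.eq_zero_iff_mem.2 hpm
  · refine pCurvZeroAt_twist (algebraMap R S) c T hc 𝔪 (RingHom.ker ψ) ?_ ?_ hpc
    · ext y
      rw [Ideal.mem_comap, RingHom.mem_ker, hψ, Ideal.Quotient.eq_zero_iff_mem]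
    · intro h
      rw [RingHom.mem_ker, ← map_natCast (algebraMap R S), hψ] at h
      exact hbm (Ideal.Quotient.eq_zero_iff_mem.1 h)

end weights

section hinge

variable {R : Type u} [CommRing R] [IsDomain R] [CharZero R] [Algebra.FiniteType ℤ R] {r : ℕ}

/-- The hinge inequalities for all odd cuts. The exponents are `e j l / N + t j / b`. -/
theorem hingeData' (α : Fin 2 → R) (hα : ∀ i j, i ≠ j → IsUnit (α i - α j))
    (A : Fin 2 → Matrix (Fin r) (Fin r) R) (N : ℕ) (hN : 0 < N) (b : ℕ) (hb : 0 < b)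
    (t : Fin 2 → ℤ) (e : Fin 2 → Fin r → ℤ)
    (e' : Fin r → ℤ) (hlam : ∀ j, HasExponents (A j) (fun l => (e j l : ℚ) / N + (t j : ℚ) / b))
    (hphi : HasExponents (∑ j, A j) (fun l => (e' l : ℚ) / N + ((∑ j, t j : ℤ) : ℚ) / b))
    (a : ℤ) (ha : IsCoprime a ((2 * N * b : ℕ) : ℤ))
    (hinf : InfZero α A (2 * N * b) a)
    {j0 j1 : Fin 2} (hj : j0 ≠ j1) (τ : ℤ) (hτ : ¬ 2 ∣ τ) :
    HingeData' (2 * N) (fun l => 2 * a * e j0 l) (fun l => 2 * a * e j1 l)
      (fun l => 2 * a * e' l) τ := by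
  classical
  have hD : 0 < 2 * N := by omega
  have hB : 0 < 2 * N * b := Nat.mul_pos hD hb
  have hNQ : (N : ℚ) ≠ 0 := by exact_mod_cast hN.ne'
  have hbQ : (b : ℚ) ≠ 0 := by exact_mod_cast hb.ne'
  have ha2 : IsCoprime a ((2 * N : ℕ) : ℤ) := ha.of_isCoprime_of_dvd_right (by
    exact_mod_cast Dvd.intro b rfl)
  obtain ⟨s, w, hst⟩ := ha2
  -- the twist
  have haT : a * (-(τ * s)) = -τ + ((2 * N : ℕ) : ℤ) * (τ * w) := by
    linear_combination (-τ) * hst
  set T : Fin 2 → ℤ := fun j => if j = j0 then -(τ * s) else 0 with hT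
  have hT0 : T j0 = -(τ * s) := if_pos rfl
  have hT1 : T j1 = 0 := if_neg hj.symm
  have hTs : ∑ j, T j = -(τ * s) := by
    rw [hT]
    simp
  let T' : Fin 2 → ℤ := fun j => T j * b - 2 * N * t j
  have hT's : ∑ j, T' j = (∑ j, T j) * b - 2 * N * ∑ j, t j := by
    simp only [T', sum_sub_distrib, ← sum_mul, ← mul_sum]
  have hX : ∀ j l, (a : ℝ) * ((((e j l : ℚ) / N + (t j : ℚ) / b +
      (T' j : ℚ) / ((2 * N * b : ℕ) : ℚ) : ℚ)) : ℝ) =
      ((a * (2 * e j l + T j) : ℤ) : ℝ) / ((2 * N : ℕ) : ℝ) := by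
    intro j l
    have h1 : (N : ℝ) ≠ 0 := by exact_mod_cast hN.ne'
    have h2 : (b : ℝ) ≠ 0 := by exact_mod_cast hb.ne'
    simp only [T']
    push_cast
    field_simp
    ring
  have hE : ∀ l, (a : ℝ) * ((((e' l : ℚ) / N + ((∑ j, t j : ℤ) : ℚ) / b +
      ((∑ j, T' j : ℤ) : ℚ) / ((2 * N * b : ℕ) : ℚ) : ℚ)) : ℝ) =
      ((a * (2 * e' l + ∑ j, T j) : ℤ) : ℝ) / ((2 * N : ℕ) : ℝ) := by
    intro l
    have h1 : (N : ℝ) ≠ 0 := by exact_mod_cast hN.ne'
    have h2 : (b : ℝ) ≠ 0 := by exact_mod_cast hb.ne'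
    rw [hT's]
    generalize ∑ j, T j = T₀
    generalize ∑ j, t j = t₀
    push_cast
    field_simp
    ring
  have hw := semistableWeights_twist α hα A (fun j l => (e j l : ℚ) / N + (t j : ℚ) / b)
    (fun l => (e' l : ℚ) / N + ((∑ j, t j : ℤ) : ℚ) / b)
    hlam hphi (2 * N * b) hB
    (fun j l => ⟨2 * b * e j l + 2 * N * t j, by push_cast; field_simp⟩)
    (fun l => ⟨2 * b * e' l + 2 * N * ∑ j, t j, by push_cast; field_simp⟩) T' a hinf
  simp only [hX, hE] at hw
  have hcong : ∀ l, a * (2 * e j0 l + T j0) = 2 * a * e j0 l - τ + ((2 * N : ℕ) : ℤ) * (τ * w) := by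
    intro l
    rw [hT0]
    linear_combination haT
  have hmod : ∀ l, (a * (2 * e j0 l + T j0)) % ((2 * N : ℕ) : ℤ) =
      (2 * a * e j0 l - τ) % ((2 * N : ℕ) : ℤ) := by
    intro l
    rw [hcong l, Int.add_mul_emod_self_left]
  obtain ⟨Y, Z, ρ, hY, hZ, hs, hθ⟩ := int_hinge' (2 * N) hD (fun j l => a * (2 * e j l + T j))
    (fun l => a * (2 * e' l + ∑ j, T j)) hw hj (by
      intro l hdvd
      rw [hcong l] at hdvd
      have h1 : (((2 * N : ℕ) : ℤ)) ∣ 2 * a * e j0 l - τ := (dvd_add_left (dvd_mul_right _ _)).1 hdvd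
      have h2 : (2 : ℤ) ∣ ((2 * N : ℕ) : ℤ) := ⟨N, by push_cast; ring⟩
      have h3 : (2 : ℤ) ∣ 2 * a * e j0 l := ⟨a * e j0 l, by ring⟩
      exact hτ ((dvd_sub_right h3).1 (h2.trans h1)))
  simp only [hmod] at hs hθ
  refine ⟨Y, Z, ρ, ?_, ?_, hs, hθ⟩
  · intro i
    obtain ⟨m, hm⟩ := hY i
    refine ⟨m, ?_⟩
    rw [hm, hT1]
    ring
  · intro i
    obtain ⟨m, hm⟩ := hZ i
    refine ⟨m + τ * w, ?_⟩
    rw [hm, hTs]
    linear_combination haT

end hinge

end Pool.Agent.R927
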