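import Pool.Agent.R927.Three1
import Pool.Agent.R927.Pigeon3

set_option autoImplicit false

/-!
Three singular points: averaging over the multipliers.
-/

namespace Pool.Agent.R927

open Finset Pool.Agent.W280.PC

section leg

lemma Q_double {N : ℕ} (z : ℤ) : Q (2 * N) (2 * z) = 4 * Q N z := by
  unfold Q
  push_cast
  rw [Int.mul_emod_mul_of_pos _ _ (by norm_num : (0 : ℤ) < 2)]
  ring

variable {r : ℕ}

/-- The inequality for one multiplier. -/
theorem leg_ineq {N : ℕ} (hN : 0 < N) (a : ℤ) (f g h : Fin r → ℤ)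
    (hsum : ∑ l, f l + ∑ l, g l = ∑ l, h l)
    (H : ∀ τ : ℤ, ¬ 2 ∣ τ → HingeData (2 * N) (fun l => 2 * a * f l) (fun l => 2 * a * g l)
      (fun l => 2 * a * h l) τ) :
    r * (∑ i, ∑ j, Q N (a * (f i - f j)) + ∑ i, ∑ j, Q N (a * (g i - g j)) +
      ∑ i, ∑ j, Q N (a * (h i - h j))) ≤ 2 * ∑ k, ∑ i, ∑ j, Q N (a * (f k + g i - h j)) ∧
    ((∃ i j k, ¬ (N : ℤ) ∣ a * (f i - f j) ∧ ¬ (N : ℤ) ∣ a * (f i - f k) ∧
        ¬ (N : ℤ) ∣ a * (f j - f k)) →
      r * (∑ i, ∑ j, Q N (a * (f i - f j)) + ∑ i, ∑ j, Q N (a * (g i - g j)) +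
      ∑ i, ∑ j, Q N (a * (h i - h j))) < 2 * ∑ k, ∑ i, ∑ j, Q N (a * (f k + g i - h j))) := by
  have hD : 0 < 2 * N := by omega
  have hD2 : (2 : ℤ) ∣ ((2 * N : ℕ) : ℤ) := ⟨N, by push_cast; ring⟩
  have hsum' : ∑ l, 2 * a * f l + ∑ l, 2 * a * g l = ∑ l, 2 * a * h l := by
    rw [← mul_sum, ← mul_sum, ← mul_sum, ← hsum]
    ring
  have key : ∀ k, _ := fun k => quad_ineq hD hD2 (fun l => 2 * a * f l) (fun l => 2 * a * g l)
    (fun l => 2 * a * h l) (fun l => ⟨a * f l, by ring⟩) hsum' (2 * a * f k) ⟨a * f k, by ring⟩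
    (fun δ hδ _ _ => H (2 * a * f k - δ) (fun h0 => hδ (by
      have h1 : (2 : ℤ) ∣ 2 * a * f k := ⟨a * f k, by ring⟩
      exact (dvd_sub_right h1).1 h0)))
  have e1 : ∀ f : Fin r → ℤ, ∑ i, ∑ j, Q (2 * N) (2 * a * f i - 2 * a * f j) =
      4 * ∑ i, ∑ j, Q N (a * (f i - f j)) := by
    intro f
    simp only [mul_sum]
    refine sum_congr rfl fun i _ => sum_congr rfl fun j _ => ?_
    rw [← Q_double]
    congr 1
    ring
  have e2 : ∀ k, ∑ i, ∑ j, Q (2 * N) (2 * a * f k + 2 * a * g i - 2 * a * h j) =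
      4 * ∑ i, ∑ j, Q N (a * (f k + g i - h j)) := by
    intro k
    simp only [mul_sum]
    refine sum_congr rfl fun i _ => sum_congr rfl fun j _ => ?_
    rw [← Q_double]
    congr 1
    ring
  have e3 : ∀ k, ∑ l, Q (2 * N) (2 * a * f k - 2 * a * f l) =
      4 * ∑ l, Q N (a * (f k - f l)) := by
    intro k
    simp only [mul_sum]
    refine sum_congr rfl fun j _ => ?_
    rw [← Q_double]
    congr 1
    ring
  simp only [e1, e2] at key
  simp only [e3] at key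
  have hL : ∑ k : Fin r, (4 * ∑ i, ∑ j, Q N (a * (g i - g j)) + 4 * ∑ i, ∑ j, Q N (a * (h i - h j)) -
      2 * (4 * ∑ i, ∑ j, Q N (a * (f k + g i - h j)))) =
      4 * (r * (∑ i, ∑ j, Q N (a * (g i - g j)) + ∑ i, ∑ j, Q N (a * (h i - h j))) -
      2 * ∑ k, ∑ i, ∑ j, Q N (a * (f k + g i - h j))) := by
    rw [sum_sub_distrib, sum_const, card_univ, Fintype.card_fin, nsmul_eq_mul, ← mul_sum,
      ← mul_sum]
    ring
  have hR : ∑ k : Fin r, (4 * ∑ i, ∑ j, Q N (a * (f i - f j)) -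
      2 * r * (4 * ∑ l, Q N (a * (f k - f l)))) = 4 * (-r * ∑ i, ∑ j, Q N (a * (f i - f j))) := by
    rw [sum_sub_distrib, sum_const, card_univ, Fintype.card_fin, nsmul_eq_mul, ← mul_sum,
      ← mul_sum]
    ring
  refine ⟨?_, ?_⟩
  · have h1 := sum_le_sum fun (k : Fin r) (_ : k ∈ univ) => (key k).1
    rw [hL, hR] at h1
    linarith
  · rintro ⟨i, j, k, hij, hik, hjk⟩
    have h1 := sum_lt_sum (s := (univ : Finset (Fin r))) (fun k _ => (key k).1) ⟨i, mem_univ i,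
      (key i).2 (by
        have hpos : ∀ l, ¬ (N : ℤ) ∣ a * (f i - f l) →
            0 < (2 * a * f i - 2 * a * f l) % ((2 * N : ℕ) : ℤ) := by
          intro l hl
          refine lt_of_le_of_ne (Int.emod_nonneg _ (by exact_mod_cast hD.ne')) fun h0 => hl ?_
          have h2 := Int.dvd_of_emod_eq_zero h0.symm
          obtain ⟨m, hm⟩ := h2
          refine ⟨m, ?_⟩
          push_cast at hm
          linarith
        have hne : (2 * a * f i - 2 * a * f j) % ((2 * N : ℕ) : ℤ) ≠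
            (2 * a * f i - 2 * a * f k) % ((2 * N : ℕ) : ℤ) := by
          intro h0
          apply hjk
          have h2 := Int.emod_emod_of_dvd (2 * a * f i - 2 * a * f j) (dvd_refl ((2 * N : ℕ) : ℤ))
          have h3 := (Int.emod_eq_emod_iff_emod_sub_eq_zero.1 h0)
          obtain ⟨m, hm⟩ := Int.dvd_of_emod_eq_zero h3
          refine ⟨-m, ?_⟩
          push_cast at hm
          linarith
        rcases lt_or_gt_of_ne hne with h2 | h2
        · exact ⟨j, k, hpos j hij, h2⟩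
        · exact ⟨k, j, hpos k hik, h2⟩)⟩
    rw [hL, hR] at h1
    linarith

end leg

section average

variable {r : ℕ}

/-- the number of ordered pairs of congruent exponents -/
def cong (N : ℕ) (f : Fin r → ℤ) : ℤ := ∑ i, ∑ j, if (N : ℤ) ∣ f i - f j then 1 else 0

lemma two_class {N : ℕ} (hr : 0 < r) (f : Fin r → ℤ)
    (h : ¬ ∃ i j k, ¬ (N : ℤ) ∣ f i - f j ∧ ¬ (N : ℤ) ∣ f i - f k ∧ ¬ (N : ℤ) ∣ f j - f k) :
    (r : ℤ) ^ 2 ≤ 2 * cong N f := by
  classical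
  push Not at h
  let b : Fin r := ⟨0, hr⟩
  let χ : Fin r → ℤ := fun i => if (N : ℤ) ∣ f b - f i then 1 else -1
  have h1 : ∀ i j, 1 + χ i * χ j ≤ 2 * if (N : ℤ) ∣ f i - f j then 1 else 0 := by
    intro i j
    by_cases hi : (N : ℤ) ∣ f b - f i <;> by_cases hj : (N : ℤ) ∣ f b - f j
    · have h2 : (N : ℤ) ∣ f i - f j := by
        have := dvd_sub hj hi
        rwa [show f b - f j - (f b - f i) = f i - f j by ring] at this
      simp only [χ, if_pos hi, if_pos hj, if_pos h2]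
      norm_num
    · simp only [χ, if_pos hi, if_neg hj]
      split_ifs <;> norm_num
    · simp only [χ, if_neg hi, if_pos hj]
      split_ifs <;> norm_num
    · have h2 : (N : ℤ) ∣ f i - f j := h b i j hi hj
      simp only [χ, if_neg hi, if_neg hj, if_pos h2]
      norm_num
  have h2 : ∑ i, ∑ j, (1 + χ i * χ j) ≤ 2 * cong N f := by
    unfold cong
    simp only [mul_sum]
    exact sum_le_sum fun i _ => sum_le_sum fun j _ => h1 i j
  have h3 : ∑ i, ∑ j, (1 + χ i * χ j) = (r : ℤ) ^ 2 + (∑ i, χ i) ^ 2 := by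
    simp only [sum_add_distrib, sum_const, card_univ, Fintype.card_fin, nsmul_eq_mul, mul_one]
    rw [sq, sq, sum_mul_sum]
  rw [h3] at h2
  nlinarith [sq_nonneg (∑ i, χ i)]

lemma cong_ge {N : ℕ} (f : Fin r → ℤ) : (r : ℤ) ≤ cong N f := by
  unfold cong
  have h1 : ∀ i : Fin r, (1 : ℤ) ≤ ∑ j, if (N : ℤ) ∣ f i - f j then 1 else 0 := by
    intro i
    have h2 : (if (N : ℤ) ∣ f i - f i then (1 : ℤ) else 0) ≤
        ∑ j, if (N : ℤ) ∣ f i - f j then 1 else 0 :=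
      single_le_sum (f := fun j => if (N : ℤ) ∣ f i - f j then (1 : ℤ) else 0)
        (fun j _ => by split_ifs <;> norm_num) (mem_univ i)
    rwa [if_pos (by rw [sub_self]; exact dvd_zero _)] at h2
  have h2 := sum_le_sum fun (i : Fin r) (_ : i ∈ univ) => h1 i
  simpa using h2

lemma sum_units_pairs {N : ℕ} [NeZero N] (f : Fin r → ℤ)
    (hf : ∀ i j, IsCoprime (f i - f j) (N : ℤ) ∨ (N : ℤ) ∣ f i - f j) :
    ∑ u : (ZMod N)ˣ, ∑ i, ∑ j, F N ((u : ZMod N) * ((f i - f j : ℤ) : ZMod N)) =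
      (∑ u : (ZMod N)ˣ, F N (u : ZMod N)) * ((r : ℤ) ^ 2 - cong N f) := by
  rw [sum_comm]
  have h1 : ∀ i, ∑ u : (ZMod N)ˣ, ∑ j, F N ((u : ZMod N) * ((f i - f j : ℤ) : ZMod N)) =
      ∑ j, (∑ u : (ZMod N)ˣ, F N (u : ZMod N)) * (1 - if (N : ℤ) ∣ f i - f j then 1 else 0) := by
    intro i
    rw [sum_comm]
    refine sum_congr rfl fun j _ => ?_
    split_ifs with h
    · rw [sum_F_zero N h]
      ring
    · rw [sum_F_unit N ((hf i j).resolve_right h)]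
      ring
  rw [sum_congr rfl fun i _ => h1 i]
  simp only [← mul_sum, sum_sub_distrib, sum_const, card_univ, Fintype.card_fin, nsmul_eq_mul,
    mul_one]
  unfold cong
  ring

/-- The arithmetic contradiction. -/
theorem arith_three {N : ℕ} (hN : 1 < N) (hr : 0 < r) (e : Fin 2 → Fin r → ℤ) (e' : Fin r → ℤ)
    (hsum : ∑ l, e 0 l + ∑ l, e 1 l = ∑ l, e' l)
    (h1 : ∀ j i k, IsCoprime (e j i - e j k) (N : ℤ) ∨ (N : ℤ) ∣ e j i - e j k)
    (h2 : ∀ i k, IsCoprime (e' i - e' k) (N : ℤ) ∨ (N : ℤ) ∣ e' i - e' k)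
    (h3 : ∀ i j k, IsCoprime (e 0 i + e 1 j - e' k) (N : ℤ))
    (h4 : (r : ℤ) ^ 2 ≤ cong N (e 0) + cong N (e 1) + cong N e')
    {B : ℕ} (hB : 0 < B) (hNB : N ∣ B)
    (H : ∀ a : ℤ, IsCoprime a (B : ℤ) → ∀ j0 j1 : Fin 2, j0 ≠ j1 →
      ∀ τ : ℤ, ¬ 2 ∣ τ → HingeData (2 * N) (fun l => 2 * a * e j0 l) (fun l => 2 * a * e j1 l)
      (fun l => 2 * a * e' l) τ) : False := by
  classical
  have : NeZero N := ⟨by omega⟩
  have hN0 : 0 < N := by omega
  set K := ∑ u : (ZMod N)ˣ, F N (u : ZMod N) with hK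
  have hK0 : K < 0 := sum_F_neg hN
  let S : (Fin r → ℤ) → (ZMod N)ˣ → ℤ := fun f u =>
    ∑ i, ∑ j, F N ((u : ZMod N) * ((f i - f j : ℤ) : ZMod N))
  let S3 : (ZMod N)ˣ → ℤ := fun u =>
    ∑ k, ∑ i, ∑ j, F N ((u : ZMod N) * ((e 0 k + e 1 i - e' j : ℤ) : ZMod N))
  have hS3 : ∑ u, S3 u = (r : ℤ) ^ 3 * K := by
    simp only [S3]
    rw [sum_comm]
    have h5 : ∀ k, ∑ u : (ZMod N)ˣ, ∑ i, ∑ j,
        F N ((u : ZMod N) * ((e 0 k + e 1 i - e' j : ℤ) : ZMod N)) = (r : ℤ) ^ 2 * K := by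
      intro k
      rw [sum_comm]
      have h6 : ∀ i, ∑ u : (ZMod N)ˣ, ∑ j,
          F N ((u : ZMod N) * ((e 0 k + e 1 i - e' j : ℤ) : ZMod N)) = (r : ℤ) * K := by
        intro i
        rw [sum_comm, sum_congr rfl fun j _ => sum_F_unit N (h3 k i j), sum_const, card_univ,
          Fintype.card_fin, nsmul_eq_mul]
      rw [sum_congr rfl fun i _ => h6 i, sum_const, card_univ, Fintype.card_fin, nsmul_eq_mul]
      ring
    rw [sum_congr rfl fun i _ => h5 i, sum_const, card_univ, Fintype.card_fin, nsmul_eq_mul]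
    ring
  have hS : ∀ f : Fin r → ℤ, (∀ i j, IsCoprime (f i - f j) (N : ℤ) ∨ (N : ℤ) ∣ f i - f j) →
      ∑ u, S f u = K * ((r : ℤ) ^ 2 - cong N f) := fun f hf => sum_units_pairs f hf
  -- the lift of a unit
  have hlift : ∀ u : (ZMod N)ˣ, ∃ a : ℤ, IsCoprime a (B : ℤ) ∧
      IsCoprime a (N : ℤ) ∧ ((a : ℤ) : ZMod N) = (u : ZMod N) := by
    intro u
    have hc : IsCoprime (((u : ZMod N).val : ℕ) : ℤ) (N : ℤ) :=
      Nat.isCoprime_iff_coprime.2 (ZMod.val_coe_unit_coprime u)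
    obtain ⟨a, ha, hd⟩ := lift_coprime hB hNB hc
    refine ⟨a, ha, ha.of_isCoprime_of_dvd_right (by exact_mod_cast hNB), ?_⟩
    have h5 := (ZMod.intCast_zmod_eq_zero_iff_dvd _ _).2 hd
    rw [Int.cast_sub, sub_eq_zero] at h5
    rw [h5]
    simp
  have hQF : ∀ (u : (ZMod N)ˣ) (a : ℤ), ((a : ℤ) : ZMod N) = (u : ZMod N) → ∀ z : ℤ,
      Q N (a * z) = F N ((u : ZMod N) * (z : ZMod N)) := by
    intro u a hau z
    rw [Q_eq_F, Int.cast_mul, hau]
  have hpt : ∀ u : (ZMod N)ˣ,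
      r * (S (e 0) u + S (e 1) u + S e' u) ≤ 2 * S3 u ∧
      ((∃ j0 : Fin 2, ∃ i j k, ¬ (N : ℤ) ∣ e j0 i - e j0 j ∧ ¬ (N : ℤ) ∣ e j0 i - e j0 k ∧
        ¬ (N : ℤ) ∣ e j0 j - e j0 k) →
        r * (S (e 0) u + S (e 1) u + S e' u) < 2 * S3 u) := by
    intro u
    obtain ⟨a, ha, haN, hau⟩ := hlift u
    have hdv : ∀ z : ℤ, ¬ (N : ℤ) ∣ z → ¬ (N : ℤ) ∣ a * z := fun z hz h0 =>
      hz (haN.symm.dvd_of_dvd_mul_left h0)
    have l0 := leg_ineq hN0 a (e 0) (e 1) e' hsum (H a ha 0 1 (by decide))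
    have l1 := leg_ineq hN0 a (e 1) (e 0) e' (by rw [add_comm]; exact hsum)
      (H a ha 1 0 (by decide))
    simp only [hQF u a hau] at l0 l1
    have hswap : ∑ k, ∑ i, ∑ j, F N ((u : ZMod N) * ((e 1 k + e 0 i - e' j : ℤ) : ZMod N)) =
        S3 u := by
      simp only [S3]
      rw [sum_comm]
      refine sum_congr rfl fun i _ => sum_congr rfl fun k _ => sum_congr rfl fun j _ => ?_
      rw [add_comm (e 1 k)]
    rw [hswap] at l1
    refine ⟨l0.1, ?_⟩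
    rintro ⟨j0, i, j, k, hij, hik, hjk⟩
    have h01 : j0 = 0 ∨ j0 = 1 := by omega
    rcases h01 with rfl | rfl
    · exact l0.2 ⟨i, j, k, hdv _ hij, hdv _ hik, hdv _ hjk⟩
    · have h5 := l1.2 ⟨i, j, k, hdv _ hij, hdv _ hik, hdv _ hjk⟩
      have h6 : (r : ℤ) * (S (e 0) u + S (e 1) u + S e' u) =
          r * (S (e 1) u + S (e 0) u + S e' u) := by ring
      rw [h6]
      exact h5
  have htot : ∑ u, (r : ℤ) * (S (e 0) u + S (e 1) u + S e' u) =
      r * K * (3 * (r : ℤ) ^ 2 - (cong N (e 0) + cong N (e 1) + cong N e')) := by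
    rw [← mul_sum, sum_add_distrib, sum_add_distrib, hS _ (h1 0), hS _ (h1 1), hS _ h2]
    ring
  have htot3 : ∑ u, 2 * S3 u = 2 * (r : ℤ) ^ 3 * K := by
    rw [← mul_sum, hS3]
    ring
  have hr' : (0 : ℤ) < r := by exact_mod_cast hr
  have hrK : (r : ℤ) * K < 0 := mul_neg_of_pos_of_neg hr' hK0
  by_cases hthree : ∃ j0 : Fin 2, ∃ i j k, ¬ (N : ℤ) ∣ e j0 i - e j0 j ∧
      ¬ (N : ℤ) ∣ e j0 i - e j0 k ∧ ¬ (N : ℤ) ∣ e j0 j - e j0 k
  · have h5 : ∑ u, (r : ℤ) * (S (e 0) u + S (e 1) u + S e' u) < ∑ u, 2 * S3 u :=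
      sum_lt_sum_of_nonempty univ_nonempty fun u _ => (hpt u).2 hthree
    rw [htot, htot3] at h5
    nlinarith
  · have h5 : ∑ u, (r : ℤ) * (S (e 0) u + S (e 1) u + S e' u) ≤ ∑ u, 2 * S3 u :=
      sum_le_sum fun u _ => (hpt u).1
    rw [htot, htot3] at h5
    have h6 := two_class (N := N) hr (e 0) fun ⟨i, j, k, h⟩ => hthree ⟨0, i, j, k, h⟩
    have h7 := two_class (N := N) hr (e 1) fun ⟨i, j, k, h⟩ => hthree ⟨1, i, j, k, h⟩
    have h8 := cong_ge (N := N) e'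
    nlinarith

end average

end Pool.Agent.R927
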