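import Pool.Agent.R927.GH1
import Pool.Agent.R927.GB2
import Pool.Agent.R927.SemiTwist
import Pool.Agent.R927.Three2

set_option autoImplicit false

/-!
The quadratic inequality for the conjugate exponents of a system with vanishing `p`-curvatures, for any
number of singular points.
-/

namespace Pool.Agent.R927

open Finset Pool.Agent.Y227.SS Pool.Agent.W280.PC

universe u

section reindex

variable {n r : ℕ} (j1 : Fin n)

/-- the pairs of a point different from `j1` and an index, numbered -/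
noncomputable def pairEquiv (r : ℕ) :
    (↥((univ : Finset (Fin n)).erase j1) × Fin r) ≃
      Fin (((univ : Finset (Fin n)).erase j1).card * r) :=
  (((univ : Finset (Fin n)).erase j1).equivFin.prodCongr (Equiv.refl (Fin r))).trans
    finProdFinEquiv

/-- the exponents at the points different from `j1` in one tuple -/
noncomputable def flat (f : Fin n → Fin r → ℤ) :
    Fin (((univ : Finset (Fin n)).erase j1).card * r) → ℤ :=
  fun k => f ((pairEquiv j1 r).symm k).1 ((pairEquiv j1 r).symm k).2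

lemma sum_flat {M : Type*} [AddCommMonoid M] (f : Fin n → Fin r → ℤ) (F : ℤ → M) :
    ∑ k, F (flat j1 f k) = ∑ j ∈ univ.erase j1, ∑ l, F (f j l) := by
  unfold flat
  rw [Equiv.sum_comp (pairEquiv j1 r).symm fun x => F (f x.1 x.2), Fintype.sum_prod_type,
    sum_coe_sort (univ.erase j1) fun j => ∑ l, F (f j l)]

lemma exists_flat (f : Fin n → Fin r → ℤ) (p : ℤ → Prop) :
    (∃ k, p (flat j1 f k)) ↔ ∃ j ∈ univ.erase j1, ∃ l, p (f j l) := by
  constructor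
  · rintro ⟨k, hk⟩
    exact ⟨_, ((pairEquiv j1 r).symm k).1.2, _, hk⟩
  · rintro ⟨j, hj, l, hl⟩
    refine ⟨pairEquiv j1 r (⟨j, hj⟩, l), ?_⟩
    unfold flat
    rw [Equiv.symm_apply_apply]
    exact hl

end reindex

section data

variable {st : Prop} {n r : ℕ}

/-- The hinge inequalities for all odd cuts. -/
theorem hData (N : ℕ) (hN : 0 < N) (e : Fin n → Fin r → ℤ) (e' : Fin r → ℤ) (a : ℤ)
    (ha : IsCoprime a ((2 * N : ℕ) : ℤ)) (j1 : Fin n)
    (hW : ∀ T : Fin n → ℤ, WData st ℂ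
      (fun j l => ((a * (2 * e j l + T j) : ℤ) : ℝ) / ((2 * N : ℕ) : ℝ))
      (fun l => ((a * (2 * e' l + ∑ j, T j) : ℤ) : ℝ) / ((2 * N : ℕ) : ℝ)))
    (δ : ℤ) (hδ : ¬ 2 ∣ δ) :
    HData st (2 * N) ((univ : Finset (Fin n)).erase j1).card (flat j1 fun j l => 2 * a * e j l)
      (fun l => 2 * a * e j1 l) (fun l => 2 * a * e' l) δ := by
  classical
  have hD : 0 < 2 * N := by omega
  obtain ⟨s, w, hst⟩ := ha
  have haT : a * (δ * s) = δ - ((2 * N : ℕ) : ℤ) * (δ * w) := by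
    linear_combination δ * hst
  set T : Fin n → ℤ := fun j => if j = j1 then 0 else δ * s with hT
  have hT1 : T j1 = 0 := if_pos rfl
  have hT0 : ∀ j, j ≠ j1 → T j = δ * s := fun j hj => if_neg hj
  have hTs : ∑ j, T j = ((univ : Finset (Fin n)).erase j1).card * (δ * s) := by
    rw [← sum_erase_add _ _ (mem_univ j1), hT1, add_zero,
      sum_congr rfl fun j hj => hT0 j (ne_of_mem_erase hj), sum_const, nsmul_eq_mul]
  have hcong : ∀ j, j ≠ j1 → ∀ l, a * (2 * e j l + T j) =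
      2 * a * e j l + δ + ((2 * N : ℕ) : ℤ) * (-(δ * w)) := by
    intro j hj l
    rw [hT0 j hj]
    linear_combination haT
  have hmod : ∀ j, j ≠ j1 → ∀ l, (a * (2 * e j l + T j)) % ((2 * N : ℕ) : ℤ) =
      (2 * a * e j l + δ) % ((2 * N : ℕ) : ℤ) := by
    intro j hj l
    rw [hcong j hj l, Int.add_mul_emod_self_left]
  obtain ⟨Y, Z, ρ, hY, hZ, hs, hθ⟩ := int_hinge_gen (2 * N) hD (fun j l => a * (2 * e j l + T j))
    (fun l => a * (2 * e' l + ∑ j, T j)) (hW T) j1 (by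
      intro j hj l hdvd
      rw [hcong j hj l] at hdvd
      have h1 : (((2 * N : ℕ) : ℤ)) ∣ 2 * a * e j l + δ := (dvd_add_left (dvd_mul_right _ _)).1 hdvd
      have h2 : (2 : ℤ) ∣ ((2 * N : ℕ) : ℤ) := ⟨N, by push_cast; ring⟩
      have h3 : (2 : ℤ) ∣ 2 * a * e j l := ⟨a * e j l, by ring⟩
      exact hδ ((dvd_add_right h3).1 (h2.trans h1)))
  have hS : ∀ (F : ℤ → ℤ), ∑ j ∈ univ.erase j1, ∑ l, F ((a * (2 * e j l + T j)) % ((2 * N : ℕ) : ℤ)) =
      ∑ j ∈ univ.erase j1, ∑ l, F ((2 * a * e j l + δ) % ((2 * N : ℕ) : ℤ)) := by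
    intro F
    refine sum_congr rfl fun j hj => sum_congr rfl fun l _ => ?_
    rw [hmod j (ne_of_mem_erase hj)]
  refine ⟨Y, Z, ρ, ?_, ?_, ?_, ?_, ?_⟩
  · intro i
    obtain ⟨m, hm⟩ := hY i
    refine ⟨m, ?_⟩
    rw [hm, hT1]
    ring
  · intro i
    obtain ⟨m, hm⟩ := hZ i
    refine ⟨m - ((univ : Finset (Fin n)).erase j1).card * (δ * w), ?_⟩
    rw [hm, hTs]
    linear_combination (((univ : Finset (Fin n)).erase j1).card : ℤ) * haT
  · rw [sum_flat j1 (fun j l => 2 * a * e j l) fun x => (x + δ) % ((2 * N : ℕ) : ℤ), ← hs,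
      ← hS fun x => x]
  · rw [sum_flat j1 (fun j l => 2 * a * e j l) fun x => max (δ - (x + δ) % ((2 * N : ℕ) : ℤ)) 0,
      ← hS fun x => max (δ - x) 0]
    exact (hθ δ).1
  · intro hst' h1 h2
    rw [exists_flat j1 (fun j l => 2 * a * e j l) fun x => (x + δ) % ((2 * N : ℕ) : ℤ) < δ] at h1
    rw [exists_flat j1 (fun j l => 2 * a * e j l) fun x => δ < (x + δ) % ((2 * N : ℕ) : ℤ)] at h2
    rw [sum_flat j1 (fun j l => 2 * a * e j l) fun x => max (δ - (x + δ) % ((2 * N : ℕ) : ℤ)) 0,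
      ← hS fun x => max (δ - x) 0]
    obtain ⟨j, hj, l, hl⟩ := h1
    obtain ⟨j', hj', l', hl'⟩ := h2
    refine (hθ δ).2 hst' ⟨j, hj, l, ?_⟩ ⟨j', hj', l', ?_⟩
    · rw [hmod j (ne_of_mem_erase hj)]
      exact hl
    · rw [hmod j' (ne_of_mem_erase hj')]
      exact hl'

/-- The quadratic inequality for one multiplier. -/
theorem phi_le (N : ℕ) (hN : 0 < N) (e : Fin n → Fin r → ℤ) (e' : Fin r → ℤ) (a : ℤ)
    (ha : IsCoprime a ((2 * N : ℕ) : ℤ)) (j1 : Fin n)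
    (hW : ∀ T : Fin n → ℤ, WData st ℂ
      (fun j l => ((a * (2 * e j l + T j) : ℤ) : ℝ) / ((2 * N : ℕ) : ℝ))
      (fun l => ((a * (2 * e' l + ∑ j, T j) : ℤ) : ℝ) / ((2 * N : ℕ) : ℝ)))
    (hsum : ∑ j, ∑ l, e j l = ∑ l, e' l) :
    ∑ i, ∑ k, Q N (a * (e j1 i - e j1 k)) + ∑ i, ∑ k, Q N (a * (e' i - e' k)) -
        2 * ∑ i, ∑ k, Q N (a * (e j1 i - e' k)) ≤
      ∑ j ∈ univ.erase j1, ∑ l, ∑ j' ∈ univ.erase j1, ∑ l', Q N (a * (e j l - e j' l')) -
        2 * (((univ : Finset (Fin n)).erase j1).card * r : ℤ) *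
          ∑ j ∈ univ.erase j1, ∑ l, Q N (a * e j l) ∧
    (st → (∃ j ∈ univ.erase j1, ∃ l, ∃ j' ∈ univ.erase j1, ∃ l', ¬ (N : ℤ) ∣ e j l ∧
        ¬ (N : ℤ) ∣ e j' l' ∧ ¬ (N : ℤ) ∣ e j l - e j' l') →
      ∑ i, ∑ k, Q N (a * (e j1 i - e j1 k)) + ∑ i, ∑ k, Q N (a * (e' i - e' k)) -
        2 * ∑ i, ∑ k, Q N (a * (e j1 i - e' k)) <
      ∑ j ∈ univ.erase j1, ∑ l, ∑ j' ∈ univ.erase j1, ∑ l', Q N (a * (e j l - e j' l')) -
        2 * (((univ : Finset (Fin n)).erase j1).card * r : ℤ) *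
          ∑ j ∈ univ.erase j1, ∑ l, Q N (a * e j l)) := by
  classical
  have hD : 0 < 2 * N := by omega
  have hD2 : (2 : ℤ) ∣ ((2 * N : ℕ) : ℤ) := ⟨N, by push_cast; ring⟩
  set x := flat j1 fun j l => 2 * a * e j l with hx
  have hx2 : ∀ k, ∃ j ∈ univ.erase j1, ∃ l, x k = 2 * a * e j l := fun k =>
    (exists_flat j1 (fun j l => 2 * a * e j l) (fun z => x k = z)).1 ⟨k, rfl⟩
  have hsum' : ∑ k, x k + ∑ l, 2 * a * e j1 l = ∑ l, 2 * a * e' l := by
    rw [hx, sum_flat j1 (fun j l => 2 * a * e j l) fun z => z, ← mul_sum, ← mul_sum, ← hsum,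
      ← sum_erase_add _ _ (mem_univ j1), mul_add]
    congr 1
    simp only [mul_sum]
  obtain ⟨k1, k2⟩ := quad_ineq_gen hD hD2 rfl x (fun l => 2 * a * e j1 l) (fun l => 2 * a * e' l)
    (fun k => by
      obtain ⟨j, _, l, h⟩ := hx2 k
      rw [h]
      exact ⟨a * e j l, by ring⟩) hsum'
    (fun δ hδ _ _ => hData N hN e e' a ha j1 hW δ hδ)
  have e1 : ∀ f : Fin r → ℤ, ∑ i, ∑ j, Q (2 * N) (2 * a * f i - 2 * a * f j) =
      4 * ∑ i, ∑ j, Q N (a * (f i - f j)) := by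
    intro f
    simp only [mul_sum]
    refine sum_congr rfl fun i _ => sum_congr rfl fun j _ => ?_
    rw [← Q_double]
    congr 1
    ring
  have e2 : ∑ i, ∑ j, Q (2 * N) (2 * a * e j1 i - 2 * a * e' j) =
      4 * ∑ i, ∑ j, Q N (a * (e j1 i - e' j)) := by
    simp only [mul_sum]
    refine sum_congr rfl fun i _ => sum_congr rfl fun j _ => ?_
    rw [← Q_double]
    congr 1
    ring
  have e3 : ∑ i, ∑ j, Q (2 * N) (x i - x j) = 4 * ∑ j ∈ univ.erase j1, ∑ l,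
      ∑ j' ∈ univ.erase j1, ∑ l', Q N (a * (e j l - e j' l')) := by
    have h1 : ∀ z : ℤ, ∑ k, Q (2 * N) (z - x k) =
        ∑ j' ∈ univ.erase j1, ∑ l', Q (2 * N) (z - 2 * a * e j' l') := fun z =>
      sum_flat j1 (fun j l => 2 * a * e j l) fun y => Q (2 * N) (z - y)
    rw [sum_congr rfl fun i _ => h1 (x i), hx, sum_flat j1 (fun j l => 2 * a * e j l) fun z =>
      ∑ j' ∈ univ.erase j1, ∑ l', Q (2 * N) (z - 2 * a * e j' l')]
    simp only [mul_sum]
    refine sum_congr rfl fun j _ => sum_congr rfl fun l _ => sum_congr rfl fun j' _ =>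
      sum_congr rfl fun l' _ => ?_
    rw [← Q_double]
    congr 1
    ring
  have e4 : ∑ k, Q (2 * N) (x k) = 4 * ∑ j ∈ univ.erase j1, ∑ l, Q N (a * e j l) := by
    rw [hx, sum_flat j1 (fun j l => 2 * a * e j l) fun z => Q (2 * N) z]
    simp only [mul_sum]
    refine sum_congr rfl fun j _ => sum_congr rfl fun l _ => ?_
    rw [← Q_double]
    congr 1
    ring
  refine ⟨by
    rw [e1, e1, e2, e3, e4] at k1
    push_cast at k1
    linarith, ?_⟩
  rintro hst ⟨j, hj, l, j', hj', l', h1, h2, h3⟩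
  obtain ⟨k, hk⟩ := (exists_flat j1 (fun j l => 2 * a * e j l)
    (fun z => z = 2 * a * e j l)).2 ⟨j, hj, l, rfl⟩
  obtain ⟨k', hk'⟩ := (exists_flat j1 (fun j l => 2 * a * e j l)
    (fun z => z = 2 * a * e j' l')).2 ⟨j', hj', l', rfl⟩
  change x k = _ at hk
  change x k' = _ at hk'
  have haN : IsCoprime (N : ℤ) a := (ha.of_isCoprime_of_dvd_right
    (⟨2, by push_cast; ring⟩ : (N : ℤ) ∣ ((2 * N : ℕ) : ℤ))).symm
  have hndvd : ∀ z : ℤ, ¬ (N : ℤ) ∣ z → ¬ ((2 * N : ℕ) : ℤ) ∣ 2 * a * z := by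
    intro z hz h
    apply hz
    obtain ⟨m, hm⟩ := h
    refine haN.dvd_of_dvd_mul_left ⟨m, ?_⟩
    push_cast at hm
    linarith
  have hpos : ∀ z : ℤ, ¬ (N : ℤ) ∣ z → 0 < (0 - 2 * a * z) % ((2 * N : ℕ) : ℤ) := by
    intro z hz
    refine lt_of_le_of_ne (Int.emod_nonneg _ (by exact_mod_cast hD.ne')) fun h0 => hndvd z hz ?_
    have h4 := Int.dvd_of_emod_eq_zero h0.symm
    rw [zero_sub, dvd_neg] at h4
    exact h4
  have hne : (0 - 2 * a * e j l) % ((2 * N : ℕ) : ℤ) ≠ (0 - 2 * a * e j' l') % ((2 * N : ℕ) : ℤ) := by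
    intro h0
    apply hndvd _ h3
    have h4 := Int.dvd_of_emod_eq_zero (Int.emod_eq_emod_iff_emod_sub_eq_zero.1 h0)
    have h5 : 2 * a * (e j l - e j' l') =
        -((0 - 2 * a * e j l) - (0 - 2 * a * e j' l')) := by ring
    rw [h5, dvd_neg]
    exact h4
  have k3 := k2 hst (by
    rcases lt_or_gt_of_ne hne with h4 | h4
    · exact ⟨k, k', by rw [hk]; exact hpos _ h1, by rw [hk, hk']; exact h4⟩
    · exact ⟨k', k, by rw [hk']; exact hpos _ h2, by rw [hk, hk']; exact h4⟩)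
  rw [e1, e1, e2, e3, e4] at k3
  push_cast at k3
  linarith

end data

end Pool.Agent.R927
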