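import Pool.Agent.R927.GT1
import Pool.Agent.R927.GDefs
import Pool.Agent.TH571.PCV.UnitsSum

set_option autoImplicit false

/-!
The average of the quadratic form over the conjugates.
-/

namespace Pool.Agent.R927

open Finset Pool.Agent.W280.PC Pool.Agent.TH571.PCV

section variance

variable {q D : ℕ}

/-- the variance of a counting function -/
lemma var_nonneg (hD : 0 < D) (x : Fin q → ℤ) :
    0 ≤ ∑ i, ∑ j, Q D (x i - x j) - 2 * q * ∑ l, Q D (x l) := by
  classical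
  have hD' : (0 : ℤ) < D := by exact_mod_cast hD
  set d : Fin q → ℤ := fun l => (0 - x l) % D with hd
  have hdn : ∀ l, 0 ≤ d l := fun l => Int.emod_nonneg _ hD'.ne'
  have hdl : ∀ l, d l < D := fun l => Int.emod_lt_of_pos _ hD'
  have hmin : 2 * (D : ℤ) * ∑ l, ∑ l', min (d l) (d l') = 2 * (∑ l, d l) ^ 2 +
      ∑ i, ∑ j, Q D (x i - x j) - 2 * q * ∑ l, Q D (x l) := by
    have h1 : ∀ l l', 2 * (D : ℤ) * min (d l) (d l') =
        2 * (d l * d l') + Q D (x l' - x l) - Q D (x l) - Q D (x l') := by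
      intro l l'
      rw [two_mul_min (hdn l) (hdl l) (hdn l') (hdl l')]
      have h2 : Q D (d l - d l') = Q D (x l' - x l) := by
        apply Q_congr
        have h3 : (D : ℤ) ∣ (0 - x l) % D - (0 - x l) := Int.dvd_emod_sub_self
        have h4 : (D : ℤ) ∣ (0 - x l') % D - (0 - x l') := Int.dvd_emod_sub_self
        have h5 : d l - d l' - (x l' - x l) = ((0 - x l) % D - (0 - x l)) -
          ((0 - x l') % D - (0 - x l')) := by
          simp only [hd]
          ring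
        rw [h5]
        exact dvd_sub h3 h4
      have h6 : ∀ l, Q D (d l) = Q D (x l) := fun l => by
        rw [← Q_neg hD (x l), ← zero_sub (x l)]
        exact Q_congr Int.dvd_emod_sub_self
      rw [h2, h6, h6]
      ring
    have h7 : ∀ l, 2 * (D : ℤ) * ∑ l', min (d l) (d l') =
        2 * (d l * ∑ l', d l') + ∑ l', Q D (x l' - x l) - q * Q D (x l) -
        ∑ l', Q D (x l') := by
      intro l
      rw [mul_sum, sum_congr rfl fun l' _ => h1 l l', sum_sub_distrib, sum_sub_distrib,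
        sum_add_distrib, sum_const, card_univ, Fintype.card_fin, nsmul_eq_mul, ← mul_sum,
        ← mul_sum]
    rw [mul_sum, sum_congr rfl fun l _ => h7 l, sum_sub_distrib, sum_sub_distrib,
      sum_add_distrib, sum_const, card_univ, Fintype.card_fin, nsmul_eq_mul, ← mul_sum, ← mul_sum,
      ← sum_mul, sum_comm (f := fun l l' => Q D (x l' - x l))]
    ring
  have h1 := sq_sum_le_card_mul_sum_sq (s := range D)
    (f := fun k : ℕ => ((univ.filter fun l => ((k : ℤ) + 1 ≤ d l)).card : ℤ))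
  rw [sum_layer d hdn hdl, sum_layer_sq d hdn hdl, card_range] at h1
  linarith

end variance

section average

variable {N : ℕ} [NeZero N]

lemma six_Q (z : ℤ) : 6 * ((∑ u : (ZMod N)ˣ, Q N ((((u : ZMod N).val : ℕ) : ℤ) * z) : ℤ) : ℚ) =
    -((N.totient : ℚ) * (N : ℚ) ^ 2 * (1 - gam ((z : ℚ) / N))) := by
  have hNq : (N : ℚ) ≠ 0 := by exact_mod_cast NeZero.ne N
  have h1 := unit_sum N ((z : ℤ) : ZMod N)
  have h2 : gam ((((z : ℤ) : ZMod N).val : ℚ) / N) = gam ((z : ℚ) / N) := by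
    have h3 : ((((z : ℤ) : ZMod N).val : ℤ)) = z % N := ZMod.val_intCast z
    have h4 : z = z % N + N * (z / N) := (Int.emod_add_mul_ediv z N).symm
    have h5 : (z : ℚ) / N = (((z : ℤ) : ZMod N).val : ℚ) / N + ((z / N : ℤ) : ℚ) := by
      have h6 : (z : ℚ) = ((z % N : ℤ) : ℚ) + N * ((z / N : ℤ) : ℚ) := by
        exact_mod_cast h4
      rw [h6, ← h3]
      push_cast
      field_simp
    rw [h5, gam_add_int]
  rw [h2] at h1
  rw [← h1]
  have h3 : ∀ u : (ZMod N)ˣ, Q N ((((u : ZMod N).val : ℕ) : ℤ) * z) =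
      -((((u : ZMod N) * ((z : ℤ) : ZMod N)).val : ℤ) *
        (N - ((u : ZMod N) * ((z : ℤ) : ZMod N)).val)) := by
    intro u
    rw [Q_unit]
    unfold F
    ring
  rw [sum_congr rfl fun u _ => h3 u, sum_neg_distrib]
  push_cast
  ring

end average

section quantity

variable {n r : ℕ}

/-- the quadratic form for one multiplier -/
def Phi1 (N : ℕ) (j1 : Fin n) (e : Fin n → Fin r → ℤ) (e' : Fin r → ℤ) (a : ℤ) : ℤ :=
  ∑ i, ∑ k, Q N (a * (e j1 i - e j1 k)) + ∑ i, ∑ k, Q N (a * (e' i - e' k)) -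
    2 * ∑ i, ∑ k, Q N (a * (e j1 i - e' k)) -
    (∑ j ∈ univ.erase j1, ∑ l, ∑ j' ∈ univ.erase j1, ∑ l', Q N (a * (e j l - e j' l')) -
      2 * (((univ : Finset (Fin n)).erase j1).card * r : ℤ) *
          ∑ j ∈ univ.erase j1, ∑ l, Q N (a * e j l))

lemma card_erase' (j1 : Fin n) : ((univ : Finset (Fin n)).erase j1).card = n - 1 := by
  rw [card_erase_of_mem (mem_univ j1), card_univ, Fintype.card_fin]

lemma Phi1_congr {N : ℕ} (j1 : Fin n) (e : Fin n → Fin r → ℤ) (e' : Fin r → ℤ) {a b : ℤ}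
    (h : (N : ℤ) ∣ a - b) : Phi1 N j1 e e' a = Phi1 N j1 e e' b := by
  have h1 : ∀ z, Q N (a * z) = Q N (b * z) := fun z => Q_congr (by
    rw [← sub_mul]
    exact h.mul_right z)
  unfold Phi1
  simp only [h1]

lemma Q_ge {N : ℕ} (hN : 0 < N) (z : ℤ) : -((N : ℤ) ^ 2) ≤ 4 * Q N z := by
  unfold Q
  nlinarith [sq_nonneg (2 * (z % N) - N)]

/-- the trivial bound -/
lemma Phi1_le {N : ℕ} (hN : 0 < N) (j1 : Fin n) (e : Fin n → Fin r → ℤ) (e' : Fin r → ℤ) (a : ℤ) :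
    2 * Phi1 N j1 e e' a ≤ (r : ℤ) ^ 2 * (N : ℤ) ^ 2 := by
  have h1 : ∑ i, ∑ k, Q N (a * (e j1 i - e j1 k)) ≤ 0 :=
    sum_nonpos fun i _ => sum_nonpos fun k _ => Q_nonpos hN _
  have h2 : ∑ i, ∑ k, Q N (a * (e' i - e' k)) ≤ 0 :=
    sum_nonpos fun i _ => sum_nonpos fun k _ => Q_nonpos hN _
  have h3 : -((r : ℤ) ^ 2 * (N : ℤ) ^ 2) ≤ 4 * ∑ i, ∑ k, Q N (a * (e j1 i - e' k)) := by
    have h4 : ∑ i : Fin r, ∑ k : Fin r, (-((N : ℤ) ^ 2)) ≤
        ∑ i, ∑ k, 4 * Q N (a * (e j1 i - e' k)) :=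
      sum_le_sum fun i _ => sum_le_sum fun k _ => Q_ge hN _
    simp only [← mul_sum, sum_const, card_univ, Fintype.card_fin, nsmul_eq_mul] at h4
    linarith
  have h4 := var_nonneg hN (flat j1 fun j l => a * e j l)
  have h5 : ∑ i, ∑ j, Q N ((flat j1 fun j l => a * e j l) i - (flat j1 fun j l => a * e j l) j) =
      ∑ j ∈ univ.erase j1, ∑ l, ∑ j' ∈ univ.erase j1, ∑ l', Q N (a * (e j l - e j' l')) := by
    have h1 : ∀ z : ℤ, ∑ k, Q N (z - (flat j1 fun j l => a * e j l) k) =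
        ∑ j' ∈ univ.erase j1, ∑ l', Q N (z - a * e j' l') := fun z =>
      sum_flat j1 (fun j l => a * e j l) fun y => Q N (z - y)
    rw [sum_congr rfl fun i _ => h1 _, sum_flat j1 (fun j l => a * e j l) fun z =>
      ∑ j' ∈ univ.erase j1, ∑ l', Q N (z - a * e j' l')]
    simp only [mul_sub]
  have h6 : ∑ k, Q N ((flat j1 fun j l => a * e j l) k) =
      ∑ j ∈ univ.erase j1, ∑ l, Q N (a * e j l) :=
    sum_flat j1 (fun j l => a * e j l) fun z => Q N z
  rw [h5, h6] at h4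
  push_cast at h4
  unfold Phi1
  linarith

/-- the average -/
theorem sum_Phi1 {N : ℕ} [NeZero N] (j1 : Fin n) (e : Fin n → Fin r → ℤ) (e' : Fin r → ℤ)
    (lam : Fin n → Fin r → ℚ) (phi : Fin r → ℚ) (t : Fin n → ℚ)
    (hlam : ∀ j l, lam j l = (e j l : ℚ) / N + t j)
    (hphi : ∀ l, phi l = (e' l : ℚ) / N + ∑ j, t j) :
    6 * ((∑ u : (ZMod N)ˣ, Phi1 N j1 e e' (((u : ZMod N).val : ℕ) : ℤ) : ℤ) : ℚ) =
      (N.totient : ℚ) * (N : ℚ) ^ 2 * expr gam j1 lam phi t := by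
  have hN : 0 < N := Nat.pos_of_ne_zero (NeZero.ne N)
  have hNq : (N : ℚ) ≠ 0 := by exact_mod_cast hN.ne'
  have hs : ∑ j, t j = ∑ j ∈ univ.erase j1, t j + t j1 := (sum_erase_add _ _ (mem_univ j1)).symm
  have a1 : ∀ i k, gam (lam j1 i - lam j1 k) = gam (((e j1 i - e j1 k : ℤ) : ℚ) / N) := by
    intro i k
    rw [hlam, hlam]
    congr 1
    push_cast
    ring
  have a2 : ∀ i k, gam (phi i - phi k) = gam (((e' i - e' k : ℤ) : ℚ) / N) := by
    intro i k
    rw [hphi, hphi]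
    congr 1
    push_cast
    ring
  have a3 : ∀ i k, gam (lam j1 i - phi k + ∑ j ∈ univ.erase j1, t j) =
      gam (((e j1 i - e' k : ℤ) : ℚ) / N) := by
    intro i k
    rw [hlam, hphi, hs]
    congr 1
    push_cast
    ring
  have a4 : ∀ j l j' l', gam ((lam j l - t j) - (lam j' l' - t j')) =
      gam (((e j l - e j' l' : ℤ) : ℚ) / N) := by
    intro j l j' l'
    rw [hlam, hlam]
    congr 1
    push_cast
    ring
  have a5 : ∀ j l, gam (lam j l - t j) = gam (((e j l : ℤ) : ℚ) / N) := by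
    intro j l
    rw [hlam]
    congr 1
    ring
  set S : ℤ → ℚ := fun z => ((∑ u : (ZMod N)ˣ, Q N ((((u : ZMod N).val : ℕ) : ℤ) * z) : ℤ) : ℚ)
    with hS
  have hSz : ∀ z : ℤ, gam ((z : ℚ) / N) = 1 + 6 * S z / ((N.totient : ℚ) * (N : ℚ) ^ 2) := by
    intro z
    have h1 := six_Q (N := N) z
    have h2 : (N.totient : ℚ) ≠ 0 := by exact_mod_cast (Nat.totient_pos.2 hN).ne'
    rw [hS]
    simp only
    rw [h1]
    field_simp
    ring
  have h2 : (N.totient : ℚ) ≠ 0 := by exact_mod_cast (Nat.totient_pos.2 hN).ne'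
  have hc : ((univ : Finset (Fin n)).erase j1).card = n - 1 := card_erase' j1
  have hL : ((∑ u : (ZMod N)ˣ, Phi1 N j1 e e' (((u : ZMod N).val : ℕ) : ℤ) : ℤ) : ℚ) =
      ∑ i, ∑ k, S (e j1 i - e j1 k) + ∑ i, ∑ k, S (e' i - e' k) -
      2 * ∑ i, ∑ k, S (e j1 i - e' k) -
      (∑ j ∈ univ.erase j1, ∑ l, ∑ j' ∈ univ.erase j1, ∑ l', S (e j l - e j' l') -
      2 * (((univ : Finset (Fin n)).erase j1).card * r : ℚ) *
          ∑ j ∈ univ.erase j1, ∑ l, S (e j l)) := by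
    simp only [hS, Phi1]
    push_cast
    simp only [sum_sub_distrib, sum_add_distrib, ← mul_sum]
    have b1 : ∀ f : Fin r → Fin r → ℤ, ∑ u : (ZMod N)ˣ, ∑ i, ∑ k,
        ((Q N ((((u : ZMod N).val : ℕ) : ℤ) * f i k) : ℤ) : ℚ) =
        ∑ i, ∑ k, ∑ u : (ZMod N)ˣ, ((Q N ((((u : ZMod N).val : ℕ) : ℤ) * f i k) : ℤ) : ℚ) := by
      intro f
      rw [sum_comm]
      exact sum_congr rfl fun i _ => sum_comm
    have b2 : ∀ f : Fin n → Fin r → ℤ, ∑ u : (ZMod N)ˣ, ∑ j ∈ univ.erase j1, ∑ l,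
        ((Q N ((((u : ZMod N).val : ℕ) : ℤ) * f j l) : ℤ) : ℚ) =
        ∑ j ∈ univ.erase j1, ∑ l, ∑ u : (ZMod N)ˣ,
          ((Q N ((((u : ZMod N).val : ℕ) : ℤ) * f j l) : ℤ) : ℚ) := by
      intro f
      rw [sum_comm]
      exact sum_congr rfl fun i _ => sum_comm
    have b3 : ∀ f : Fin n → Fin r → Fin n → Fin r → ℤ, ∑ u : (ZMod N)ˣ, ∑ j ∈ univ.erase j1, ∑ l,
        ∑ j' ∈ univ.erase j1, ∑ l', ((Q N ((((u : ZMod N).val : ℕ) : ℤ) * f j l j' l') : ℤ) : ℚ) =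
        ∑ j ∈ univ.erase j1, ∑ l, ∑ j' ∈ univ.erase j1, ∑ l', ∑ u : (ZMod N)ˣ,
          ((Q N ((((u : ZMod N).val : ℕ) : ℤ) * f j l j' l') : ℤ) : ℚ) := by
      intro f
      rw [sum_comm]
      refine sum_congr rfl fun i _ => ?_
      rw [sum_comm]
      refine sum_congr rfl fun l _ => ?_
      rw [sum_comm]
      exact sum_congr rfl fun i _ => sum_comm
    rw [b1 fun i k => e j1 i - e j1 k, b1 fun i k => e' i - e' k, b1 fun i k => e j1 i - e' k,
      b2 fun j l => e j l, b3 fun j l j' l' => e j l - e j' l']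
  rw [hL]
  unfold expr
  simp only [a1, a2, a3, a4, a5, hSz]
  simp only [sum_add_distrib, sum_const, card_univ, Fintype.card_fin, nsmul_eq_mul, hc, mul_one,
    ← mul_sum, ← sum_div]
  field_simp
  ring

end quantity

end Pool.Agent.R927
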