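import Pool.Agent.R927.GT3

set_option autoImplicit false

/-!
Prime denominators.
-/

namespace Pool.Agent.R927

open Finset Pool.Agent.W280.PC Pool.Agent.TH571.PCV

lemma int1_nonneg (q : ℚ) : 0 ≤ int1 q := by
  unfold int1
  split_ifs <;> norm_num

lemma gam_int (q : ℚ) (h : q.den = 1) : gam q = 1 := by
  unfold gam
  rw [h]
  simp

lemma gam_prime_den {N : ℕ} (hN : N.Prime) (q : ℚ) (h : q.den = N) : gam q = -(1 / (N : ℚ)) := by
  have hNQ : (N : ℚ) ≠ 0 := by exact_mod_cast hN.ne_zero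
  unfold gam
  rw [h, Nat.Prime.primeFactors hN, prod_singleton]
  field_simp

lemma den_prime {N : ℕ} (hN : N.Prime) {q : ℚ} (h : ∃ m : ℤ, (N : ℚ) * q = m) :
    q.den = 1 ∨ q.den = N := by
  obtain ⟨m, hm⟩ := h
  have hNQ : (N : ℚ) ≠ 0 := by exact_mod_cast hN.ne_zero
  have h1 : q = (m : ℚ) / ((N : ℤ) : ℚ) := by
    push_cast
    rw [← hm]
    field_simp
  have h2 : (q.den : ℤ) ∣ (N : ℤ) := by
    rw [h1, ← Rat.divInt_eq_div]
    exact Rat.den_dvd m (N : ℤ)
  exact (Nat.dvd_prime hN).1 (Int.natCast_dvd_natCast.1 h2)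

lemma gam_prime {N : ℕ} (hN : N.Prime) {q : ℚ} (h : ∃ m : ℤ, (N : ℚ) * q = m) :
    gam q = -(1 / (N : ℚ)) + (1 + 1 / (N : ℚ)) * int1 q := by
  rcases den_prime hN h with h1 | h1
  · rw [gam_int q h1, int1, if_pos h1]
    ring
  · rw [gam_prime_den hN q h1, int1, if_neg (by rw [h1]; exact hN.one_lt.ne')]
    ring

section affine

variable {n r : ℕ}

lemma expr_affine (g : ℚ) (F G : ℚ → ℚ) (j1 : Fin n) (lam : Fin n → Fin r → ℚ) (phi : Fin r → ℚ)
    (t : Fin n → ℚ)
    (h1 : ∀ i k, F (lam j1 i - lam j1 k) = g + (1 - g) * G (lam j1 i - lam j1 k))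
    (h2 : ∀ i k, F (phi i - phi k) = g + (1 - g) * G (phi i - phi k))
    (h3 : ∀ i k, F (lam j1 i - phi k + ∑ j ∈ univ.erase j1, t j) =
      g + (1 - g) * G (lam j1 i - phi k + ∑ j ∈ univ.erase j1, t j))
    (h4 : ∀ j l j' l', F ((lam j l - t j) - (lam j' l' - t j')) =
      g + (1 - g) * G ((lam j l - t j) - (lam j' l' - t j')))
    (h5 : ∀ j l, F (lam j l - t j) = g + (1 - g) * G (lam j l - t j)) :
    expr F j1 lam phi t = (1 - g) * expr G j1 lam phi t := by
  unfold expr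
  simp only [h1, h2, h3, h4, h5, sum_add_distrib, sum_const, card_univ, Fintype.card_fin,
    nsmul_eq_mul, ← mul_sum, card_erase']
  ring

lemma expr_prime {N : ℕ} (hN : N.Prime) (j1 : Fin n) (lam : Fin n → Fin r → ℚ) (phi : Fin r → ℚ)
    (t : Fin n → ℚ) (hNlam : ∀ j l, ∃ m : ℤ, (N : ℚ) * (lam j l - t j) = m)
    (hNphi : ∀ l, ∃ m : ℤ, (N : ℚ) * (phi l - ∑ j, t j) = m) :
    expr gam j1 lam phi t = (1 + 1 / (N : ℚ)) * expr int1 j1 lam phi t := by
  have hsum : ∑ j, t j = t j1 + ∑ j ∈ univ.erase j1, t j :=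
    (add_sum_erase univ t (mem_univ j1)).symm
  have key : ∀ q : ℚ, (∃ m : ℤ, (N : ℚ) * q = m) →
      gam q = -(1 / (N : ℚ)) + (1 - -(1 / (N : ℚ))) * int1 q := by
    intro q hq
    rw [gam_prime hN hq]
    ring
  have h := expr_affine (-(1 / (N : ℚ))) gam int1 j1 lam phi t ?_ ?_ ?_ ?_ ?_
  · rw [h]
    ring
  · intro i k
    apply key
    obtain ⟨m, hm⟩ := hNlam j1 i
    obtain ⟨m', hm'⟩ := hNlam j1 k
    exact ⟨m - m', by push_cast; rw [← hm, ← hm']; ring⟩
  · intro i k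
    apply key
    obtain ⟨m, hm⟩ := hNphi i
    obtain ⟨m', hm'⟩ := hNphi k
    exact ⟨m - m', by push_cast; rw [← hm, ← hm']; ring⟩
  · intro i k
    apply key
    obtain ⟨m, hm⟩ := hNlam j1 i
    obtain ⟨m', hm'⟩ := hNphi k
    exact ⟨m - m', by push_cast; rw [← hm, ← hm', hsum]; ring⟩
  · intro j l j' l'
    apply key
    obtain ⟨m, hm⟩ := hNlam j l
    obtain ⟨m', hm'⟩ := hNlam j' l'
    exact ⟨m - m', by push_cast; rw [← hm, ← hm']; ring⟩
  · intro j l
    exact key _ (hNlam j l)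

end affine

section classes

variable {ι κ C : Type*} [Fintype ι] [Fintype κ] [Fintype C] [DecidableEq C]

lemma pairs_classes (u : ι → C) (v : κ → C) :
    (∑ i, ∑ k, if u i = v k then (1 : ℤ) else 0) =
      ∑ c, (∑ i, if u i = c then (1 : ℤ) else 0) * ∑ k, if v k = c then (1 : ℤ) else 0 := by
  simp only [sum_mul_sum]
  rw [sum_comm (s := univ (α := C))]
  refine sum_congr rfl fun i _ => ?_
  rw [sum_comm (s := univ (α := C))]
  refine sum_congr rfl fun k _ => ?_
  rw [sum_eq_single (u i)]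
  · by_cases h : u i = v k
    · simp [h]
    · rw [if_neg h, if_pos rfl, if_neg (fun h' => h h'.symm), mul_zero]
  · intro c _ hc
    rw [if_neg (fun h' => hc h'.symm), zero_mul]
  · intro h
    exact absurd (mem_univ _) h

lemma card_classes (u : ι → C) :
    (Fintype.card ι : ℤ) = ∑ c, ∑ i, if u i = c then (1 : ℤ) else 0 := by
  rw [sum_comm]
  simp

/-- The squared distance of two multiplicity functions. -/
lemma class_ineq (u : ι → C) (v : κ → C) :
    (Fintype.card κ : ℤ) - Fintype.card ι ≤ (∑ i, ∑ i', if u i = u i' then 1 else 0) +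
      (∑ k, ∑ k', if v k = v k' then 1 else 0) - 2 * ∑ i, ∑ k, if u i = v k then 1 else 0 := by
  rw [pairs_classes u u, pairs_classes v v, pairs_classes u v, card_classes u, card_classes v,
    mul_sum, ← sum_sub_distrib, ← sum_add_distrib, ← sum_sub_distrib]
  refine sum_le_sum fun c _ => ?_
  set a := ∑ i, if u i = c then (1 : ℤ) else 0
  set b := ∑ k, if v k = c then (1 : ℤ) else 0
  have h3 : b - a ≤ (b - a) ^ 2 := by
    rcases le_or_gt (b - a) 0 with h | h
    · exact h.trans (sq_nonneg _)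
    · nlinarith
  linarith

end classes

end Pool.Agent.R927
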