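import Pool.Agent.R927.GT4

set_option autoImplicit false

/-!
Okubo systems.
-/

namespace Pool.Agent.R927

open Finset Pool.Agent.W432.PC Pool.Agent.TH571.PCV Pool.Agent.Y227.SS

universe u

section okubo

variable {R : Type*} [CommRing R] {n r : ℕ}

lemma sum_okubo (c : Fin r → Fin n) (M : Matrix (Fin r) (Fin r) R) : ∑ j, okubo c M j = M := by
  ext k l
  rw [Matrix.sum_apply]
  simp [okubo]

end okubo

lemma int1_eq_zero {q : ℚ} (h : q.den ≠ 1) : int1 q = 0 := by
  unfold int1
  rw [if_neg h]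

lemma int1_zero : int1 0 = 1 := by
  unfold int1
  simp

lemma int1_neg (q : ℚ) : int1 (-q) = int1 q := by
  unfold int1
  rw [Rat.den_neg_eq_den]

lemma int1_sub {N : ℕ} (hN : 0 < N) {q q' : ℚ} {a b : ℤ} (h : (N : ℚ) * q = a)
    (h' : (N : ℚ) * q' = b) :
    int1 (q - q') = ((if (a : ZMod N) = (b : ZMod N) then 1 else 0 : ℤ) : ℚ) := by
  have hNQ : (N : ℚ) ≠ 0 := by exact_mod_cast hN.ne'
  have key : (q - q').den = 1 ↔ (a : ZMod N) = (b : ZMod N) := by
    rw [← sub_eq_zero (a := (a : ZMod N)), ← Int.cast_sub, ZMod.intCast_zmod_eq_zero_iff_dvd]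
    constructor
    · intro h1
      have h2 : q - q' = ((q - q').num : ℚ) := by
        conv_lhs => rw [← Rat.num_div_den (q - q'), h1]
        simp
      refine ⟨(q - q').num, ?_⟩
      have h3 : ((a - b : ℤ) : ℚ) = N * ((q - q').num : ℚ) := by
        rw [← h2, mul_sub, h, h']
        push_cast
        ring
      exact_mod_cast h3
    · rintro ⟨m, hm⟩
      have h3 : q - q' = (m : ℚ) := by
        have h4 : (N : ℚ) * (q - q') = N * m := by
          rw [mul_sub, h, h']
          exact_mod_cast hm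
        exact mul_left_cancel₀ hNQ h4
      rw [h3]
      exact Rat.den_intCast m
  unfold int1
  by_cases h1 : (q - q').den = 1
  · rw [if_pos h1, if_pos (key.1 h1)]
    norm_num
  · rw [if_neg h1, if_neg (fun h2 => h1 (key.2 h2))]
    norm_num

section count

variable {n r : ℕ}

/-- the exponents of an Okubo system -/
def okLam (c : Fin r → Fin n) (μ : Fin r → ℚ) (j : Fin n) (l : Fin r) : ℚ :=
  if c l = j then μ l else 0

lemma sum_ne (c : Fin r → Fin n) (j1 : Fin n) (l : Fin r) :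
    ∑ j ∈ univ.erase j1, (if c l = j then (1 : ℚ) else 0) = if c l = j1 then 0 else 1 := by
  rw [sum_ite_eq]
  by_cases h : c l = j1
  · simp [h]
  · simp [h]

/-- the contribution of the points different from the special ones -/
lemma expr_X (c : Fin r → Fin n) (μ : Fin r → ℚ) (j1 : Fin n)
    (h1 : ∀ l, c l ≠ j1 → (μ l).den ≠ 1)
    (h2 : ∀ l l', l ≠ l' → c l ≠ j1 → c l' ≠ j1 → (μ l - μ l').den ≠ 1) :
    ((n - 1 : ℕ) * r : ℚ) ^ 2 + (∑ j ∈ univ.erase j1, ∑ l, ∑ j' ∈ univ.erase j1, ∑ l',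
      int1 (okLam c μ j l - okLam c μ j' l')) -
      2 * ((n - 1 : ℕ) * r) * ∑ j ∈ univ.erase j1, ∑ l, int1 (okLam c μ j l) =
    (∑ l, if c l = j1 then (0 : ℚ) else 1) ^ 2 + ∑ l, if c l = j1 then (0 : ℚ) else 1 := by
  set e : Fin n → Fin r → ℚ := fun j l => if c l = j then 1 else 0 with he
  set m : ℚ := ∑ l, if c l = j1 then (0 : ℚ) else 1 with hm
  have hX : ∀ j ∈ univ.erase j1, ∀ l, int1 (okLam c μ j l) = 1 - e j l := by
    intro j hj l
    have hj1 := (mem_erase.1 hj).1
    simp only [he, okLam]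
    by_cases h : c l = j
    · rw [if_pos h, if_pos h, int1_eq_zero (h1 l (by rw [h]; exact hj1)), sub_self]
    · rw [if_neg h, if_neg h, int1_zero, sub_zero]
  have hXX : ∀ j ∈ univ.erase j1, ∀ l, ∀ j' ∈ univ.erase j1, ∀ l',
      int1 (okLam c μ j l - okLam c μ j' l') = (1 - e j l) * (1 - e j' l') +
        (if l = l' then e j l * e j' l' else 0) := by
    intro j hj l j' hj' l'
    have hj1 := (mem_erase.1 hj).1
    have hj1' := (mem_erase.1 hj').1
    simp only [he, okLam]
    by_cases h : c l = j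
    · by_cases h' : c l' = j'
      · rw [if_pos h, if_pos h', if_pos h, if_pos h']
        by_cases hl : l = l'
        · rw [if_pos hl, hl, sub_self, int1_zero]
          ring
        · rw [if_neg hl, int1_eq_zero (h2 l l' hl (by rw [h]; exact hj1) (by rw [h']; exact hj1'))]
          ring
      · rw [if_pos h, if_neg h', if_pos h, if_neg h', sub_zero,
          int1_eq_zero (h1 l (by rw [h]; exact hj1))]
        simp
    · by_cases h' : c l' = j'
      · rw [if_neg h, if_pos h', if_neg h, if_pos h', zero_sub, int1_neg,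
          int1_eq_zero (h1 l' (by rw [h']; exact hj1'))]
        simp
      · rw [if_neg h, if_neg h', if_neg h, if_neg h', sub_zero, int1_zero]
        simp
  have hse : ∑ j ∈ univ.erase j1, ∑ l, e j l = m := by
    rw [sum_comm]
    exact sum_congr rfl fun l _ => sum_ne c j1 l
  have hse1 : ∑ j ∈ univ.erase j1, ∑ l, (1 - e j l) = ((n - 1 : ℕ) : ℚ) * r - m := by
    simp only [sum_sub_distrib, sum_const, card_univ, Fintype.card_fin, nsmul_eq_mul, card_erase',
      hse, mul_one]
  have hdiag : ∑ j ∈ univ.erase j1, ∑ l, ∑ j' ∈ univ.erase j1, ∑ l',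
      (if l = l' then e j l * e j' l' else 0) = m := by
    have h3 : ∀ j l, ∑ j' ∈ univ.erase j1, ∑ l', (if l = l' then e j l * e j' l' else 0) =
        e j l * (if c l = j1 then (0 : ℚ) else 1) := by
      intro j l
      rw [sum_congr rfl fun j' _ => sum_ite_eq univ l (fun l' => e j l * e j' l')]
      simp only [mem_univ, if_true]
      rw [← mul_sum]
      congr 1
      exact sum_ne c j1 l
    simp only [h3]
    rw [sum_comm]
    refine sum_congr rfl fun l _ => ?_
    rw [← sum_mul, show ∑ j ∈ univ.erase j1, e j l = if c l = j1 then (0 : ℚ) else 1 from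
      sum_ne c j1 l]
    split_ifs <;> norm_num
  have hS1 : ∑ j ∈ univ.erase j1, ∑ l, int1 (okLam c μ j l) = ((n - 1 : ℕ) : ℚ) * r - m := by
    rw [← hse1]
    exact sum_congr rfl fun j hj => sum_congr rfl fun l _ => hX j hj l
  have hS2 : ∑ j ∈ univ.erase j1, ∑ l, ∑ j' ∈ univ.erase j1, ∑ l',
      int1 (okLam c μ j l - okLam c μ j' l') = (((n - 1 : ℕ) : ℚ) * r - m) ^ 2 + m := by
    have h3 : ∑ j ∈ univ.erase j1, ∑ l, ∑ j' ∈ univ.erase j1, ∑ l',
        int1 (okLam c μ j l - okLam c μ j' l') = ∑ j ∈ univ.erase j1, ∑ l,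
          ∑ j' ∈ univ.erase j1, ∑ l', ((1 - e j l) * (1 - e j' l') +
            (if l = l' then e j l * e j' l' else 0)) :=
      sum_congr rfl fun j hj => sum_congr rfl fun l _ => sum_congr rfl fun j' hj' =>
        sum_congr rfl fun l' _ => hXX j hj l j' hj' l'
    rw [h3]
    simp only [sum_add_distrib]
    rw [hdiag]
    congr 1
    simp only [← mul_sum, ← sum_mul]
    rw [hse1, sq]
  rw [hS1, hS2]
  ring

/-- the contribution of the two special points -/
lemma expr_Y (c : Fin r → Fin n) (μ ρ : Fin r → ℚ) (j1 : Fin n) (N : ℕ) (hN : 0 < N)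
    (hμ : ∀ l, ∃ m : ℤ, (N : ℚ) * μ l = m) (hρ : ∀ l, ∃ m : ℤ, (N : ℚ) * ρ l = m)
    (hρ1 : ∀ l, (ρ l).den ≠ 1) :
    ((∑ l, if c l = j1 then (0 : ℚ) else 1) ^ 2 + (∑ l, if c l = j1 then (0 : ℚ) else 1) ≤
      ∑ i, ∑ k, int1 (okLam c μ j1 i - okLam c μ j1 k) + ∑ i, ∑ k, int1 (ρ i - ρ k) -
        2 * ∑ i, ∑ k, int1 (okLam c μ j1 i - ρ k)) ∧
    ((∀ l k, c l = j1 → (μ l - ρ k).den ≠ 1) →
      (∑ l, if c l = j1 then (0 : ℚ) else 1) ^ 2 + (∑ l, if c l = j1 then (0 : ℚ) else 1) +
        2 * (∑ l, if c l = j1 then (1 : ℚ) else 0) ≤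
      ∑ i, ∑ k, int1 (okLam c μ j1 i - okLam c μ j1 k) + ∑ i, ∑ k, int1 (ρ i - ρ k) -
        2 * ∑ i, ∑ k, int1 (okLam c μ j1 i - ρ k)) := by
  classical
  have : NeZero N := ⟨hN.ne'⟩
  choose a ha using hμ
  choose b hb using hρ
  set f : Fin r → ℚ := fun l => if c l = j1 then 0 else 1 with hf
  set f' : Fin r → ℚ := fun l => if c l = j1 then 1 else 0 with hf'
  have hff : ∑ l, f l + ∑ l, f' l = r := by
    rw [← sum_add_distrib]
    have h1 : ∀ l, f l + f' l = 1 := by
      intro l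
      simp only [hf, hf']
      split_ifs <;> norm_num
    simp [h1]
  -- the first sum
  have hYY : (∑ l, f l) ^ 2 + ∑ i, ∑ k, (if c i = j1 then if c k = j1 then int1 (μ i - μ k)
      else 0 else 0) ≤ ∑ i, ∑ k, int1 (okLam c μ j1 i - okLam c μ j1 k) := by
    rw [sq, sum_mul_sum, ← sum_add_distrib]
    refine sum_le_sum fun i _ => ?_
    rw [← sum_add_distrib]
    refine sum_le_sum fun k _ => ?_
    simp only [hf, okLam]
    by_cases hi : c i = j1
    · by_cases hk : c k = j1
      · simp [hi, hk]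
      · simp only [hi, hk, if_true, if_false, zero_mul, zero_add]
        exact int1_nonneg _
    · by_cases hk : c k = j1
      · simp only [hi, hk, if_true, if_false, mul_zero, zero_add]
        exact int1_nonneg _
      · simp [hi, hk, int1_zero]
  have hYZ : ∑ i, ∑ k, int1 (okLam c μ j1 i - ρ k) =
      ∑ i, ∑ k, (if c i = j1 then int1 (μ i - ρ k) else 0) := by
    refine sum_congr rfl fun i _ => sum_congr rfl fun k _ => ?_
    simp only [okLam]
    by_cases hi : c i = j1
    · rw [if_pos hi, if_pos hi]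
    · rw [if_neg hi, if_neg hi, zero_sub, int1_neg, int1_eq_zero (hρ1 k)]
  have hsub : ∀ g : Fin r → ℚ, ∑ i : {i // c i = j1}, g i = ∑ i, if c i = j1 then g i else 0 := by
    intro g
    rw [← sum_filter]
    exact (sum_subtype (univ.filter fun i => c i = j1) (by simp) g).symm
  have hcard : ((Fintype.card {i // c i = j1} : ℕ) : ℚ) = ∑ l, f' l := by
    have h1 := hsub (fun _ => 1)
    rw [sum_const, card_univ, nsmul_eq_mul, mul_one] at h1
    exact h1
  have hcls := class_ineq (fun i : {i // c i = j1} => ((a i : ℤ) : ZMod N))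
    (fun k : Fin r => ((b k : ℤ) : ZMod N))
  rw [Fintype.card_fin] at hcls
  have hclsQ : (r : ℚ) - ∑ l, f' l ≤
      (∑ i : {i // c i = j1}, ∑ k : {i // c i = j1}, int1 (μ i - μ k)) +
        (∑ i, ∑ k, int1 (ρ i - ρ k)) -
        2 * ∑ i : {i // c i = j1}, ∑ k, int1 (μ i - ρ k) := by
    have h1 : ∀ i k, int1 (μ i - μ k) =
        ((if (a i : ZMod N) = (a k : ZMod N) then 1 else 0 : ℤ) : ℚ) :=
      fun i k => int1_sub hN (ha i) (ha k)
    have h2 : ∀ i k, int1 (ρ i - ρ k) =
        ((if (b i : ZMod N) = (b k : ZMod N) then 1 else 0 : ℤ) : ℚ) :=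
      fun i k => int1_sub hN (hb i) (hb k)
    have h3 : ∀ i k, int1 (μ i - ρ k) =
        ((if (a i : ZMod N) = (b k : ZMod N) then 1 else 0 : ℤ) : ℚ) :=
      fun i k => int1_sub hN (ha i) (hb k)
    simp only [h1, h2, h3]
    rw [← hcard]
    exact_mod_cast hcls
  have hs1 : ∑ i : {i // c i = j1}, ∑ k : {i // c i = j1}, int1 (μ i - μ k) =
      ∑ i, ∑ k, (if c i = j1 then if c k = j1 then int1 (μ i - μ k) else 0 else 0) := by
    have h1 : ∀ i : Fin r, ∑ k : {i // c i = j1}, int1 (μ i - μ k) =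
        ∑ k, if c k = j1 then int1 (μ i - μ k) else 0 := fun i => hsub fun k => int1 (μ i - μ k)
    rw [sum_congr rfl fun (i : {i // c i = j1}) _ => h1 i,
      hsub fun i => ∑ k, if c k = j1 then int1 (μ i - μ k) else 0]
    refine sum_congr rfl fun i _ => ?_
    by_cases hi : c i = j1
    · simp [hi]
    · simp [hi]
  have hs2 : ∑ i : {i // c i = j1}, ∑ k, int1 (μ i - ρ k) =
      ∑ i, ∑ k, (if c i = j1 then int1 (μ i - ρ k) else 0) := by
    rw [hsub fun i => ∑ k, int1 (μ i - ρ k)]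
    refine sum_congr rfl fun i _ => ?_
    by_cases hi : c i = j1
    · simp [hi]
    · simp [hi]
  rw [hs1, hs2] at hclsQ
  refine ⟨?_, fun hres => ?_⟩
  · rw [hYZ]
    linarith
  · -- without resonances
    have hz : ∑ i, ∑ k, int1 (okLam c μ j1 i - ρ k) = 0 := by
      rw [hYZ]
      refine sum_eq_zero fun i _ => sum_eq_zero fun k _ => ?_
      by_cases hi : c i = j1
      · rw [if_pos hi, int1_eq_zero (hres i k hi)]
      · rw [if_neg hi]
    have h5 : ∑ l, f' l ≤
        ∑ i, ∑ k, (if c i = j1 then if c k = j1 then int1 (μ i - μ k) else 0 else 0) := by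
      refine sum_le_sum fun i _ => ?_
      simp only [hf']
      by_cases hi : c i = j1
      · simp only [hi, if_true]
        refine le_trans (le_of_eq ?_) (single_le_sum (f := fun k => if c k = j1 then
          int1 (μ i - μ k) else 0) (fun k _ => ?_) (mem_univ i))
        · simp [hi, int1_zero]
        · split_ifs
          · exact int1_nonneg _
          · exact le_rfl
      · simp [hi]
    have h6 : (r : ℚ) ≤ ∑ i, ∑ k, int1 (ρ i - ρ k) := by
      have h7 : (r : ℚ) = ∑ i : Fin r, (1 : ℚ) := by simp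
      rw [h7]
      refine sum_le_sum fun i _ => ?_
      refine le_trans (le_of_eq ?_) (single_le_sum (f := fun k => int1 (ρ i - ρ k))
        (fun k _ => int1_nonneg _) (mem_univ i))
      simp [int1_zero]
    rw [hz]
    linarith

/-- The quadratic expression of an Okubo system is not negative. -/
theorem expr_okubo (c : Fin r → Fin n) (μ ρ : Fin r → ℚ) (j1 : Fin n) (N : ℕ) (hN : 0 < N)
    (hμ : ∀ l, ∃ m : ℤ, (N : ℚ) * μ l = m) (hρ : ∀ l, ∃ m : ℤ, (N : ℚ) * ρ l = m)
    (hρ1 : ∀ l, (ρ l).den ≠ 1) (h1 : ∀ l, c l ≠ j1 → (μ l).den ≠ 1)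
    (h2 : ∀ l l', l ≠ l' → c l ≠ j1 → c l' ≠ j1 → (μ l - μ l').den ≠ 1) :
    0 ≤ expr int1 j1 (okLam c μ) ρ (fun _ => 0) ∧
    ((∀ l k, c l = j1 → (μ l - ρ k).den ≠ 1) →
      2 * (∑ l, if c l = j1 then (1 : ℚ) else 0) ≤ expr int1 j1 (okLam c μ) ρ (fun _ => 0)) := by
  obtain ⟨h3, h4⟩ := expr_Y c μ ρ j1 N hN hμ hρ hρ1
  have h5 := expr_X c μ j1 h1 h2
  unfold expr
  simp only [sum_const_zero, add_zero, sub_zero]
  rw [h5]
  refine ⟨by linarith, fun h => ?_⟩
  have := h4 h
  linarith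

end count

end Pool.Agent.R927
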