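import Pool.Agent.R927.GT7
import Pool.Agent.TH571.PCV.Few

set_option autoImplicit false

/-!
The final statements.
-/

namespace Pool.Agent.R927

open Finset Pool.Agent.W432.PC Pool.Agent.TH571.PCV Pool.Agent.Y227.SS

universe u

variable {R : Type u} [CommRing R] [IsDomain R] [CharZero R] [Algebra.FiniteType ℤ R] {n r : ℕ}

lemma NonzeroFor.not_condII {α : Fin n → R} {A : Fin n → Matrix (Fin r) (Fin r) R} {N : ℕ}
    (hN : 0 < N) {S : Finset (ZMod N)ˣ} (h : NonzeroFor α A N S) (hS : S.Nonempty) :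
    ¬ CondII α A := by
  obtain ⟨P₀, hP⟩ := h
  obtain ⟨v, hv⟩ := hS
  exact not_condII_of_class _ _ N hN v P₀ (fun p hp hpP hpv => hP p hp hpP v hv hpv)

lemma BadSome.not_condII {α : Fin n → R} {A : Fin n → Matrix (Fin r) (Fin r) R}
    (h : BadSome α A) : ¬ CondII α A := by
  obtain ⟨B, a, hB, ha, h⟩ := h
  exact not_condII_of α A B hB a ha h

/-- Okubo systems. -/
theorem okubo_final (α : Fin n → R) (hα : ∀ i j, i ≠ j → IsUnit (α i - α j))
    (c : Fin r → Fin n) (M : Matrix (Fin r) (Fin r) R) (μ ρ : Fin r → ℚ)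
    (hμ : ∀ j, HasExponents (okubo c M j) (fun l => if c l = j then μ l else 0))
    (hρ : HasExponents M ρ) (N : ℕ) (hN : 0 < N) (hNμ : ∀ l, ∃ m : ℤ, (N : ℚ) * μ l = m)
    (hNρ : ∀ l, ∃ m : ℤ, (N : ℚ) * ρ l = m) (hρ1 : ∀ l, (ρ l).den ≠ 1) (j1 : Fin n)
    (h1 : ∀ l, c l ≠ j1 → (μ l).den ≠ 1)
    (h2 : ∀ l l', l ≠ l' → c l ≠ j1 → c l' ≠ j1 → (μ l - μ l').den ≠ 1) :
    (N.Prime → AbsIrreducible α (okubo c M) → (∃ l l', l ≠ l' ∧ c l ≠ j1 ∧ c l' ≠ j1) →
      BadSome α (okubo c M)) ∧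
    ((∀ l k, c l = j1 → (μ l - ρ k).den ≠ 1) →
      ∃ S : Finset (ZMod N)ˣ,
        (N.Prime → (N.totient : ℚ) * (2 * (univ.filter fun l => c l = j1).card) ≤
          3 * (r : ℚ) ^ 2 * S.card) ∧
        (∀ D : ℕ, 0 < D → (∀ p : ℕ, p.Prime → p ∣ N → D ≤ p) →
          (N.totient : ℚ) * (2 * (univ.filter fun l => c l = j1).card - 7 * (r : ℚ) ^ 2 / D) ≤
          3 * (r : ℚ) ^ 2 * S.card) ∧
        NonzeroFor α (okubo c M) N S) := by
  obtain ⟨h3, h4⟩ := expr_okubo c μ ρ j1 N hN hNμ hNρ hρ1 h1 h2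
  have hclam : ∀ j l, ∃ m : ℤ, (N : ℚ) * (okLam c μ j l - (fun _ => (0 : ℚ)) j) = m := by
    intro j l
    simp only [sub_zero, okLam]
    split_ifs
    · exact hNμ l
    · exact ⟨0, by simp⟩
  have hcphi : ∀ l, ∃ m : ℤ, (N : ℚ) * (ρ l - ∑ j : Fin n, (fun _ => (0 : ℚ)) j) = m := by
    intro l
    simp only [sum_const_zero, sub_zero]
    exact hNρ l
  have hM : HasExponents (∑ j, okubo c M j) ρ := by
    rw [sum_okubo]
    exact hρ
  have hN0 : (0 : ℚ) < 1 / (N : ℚ) := by
    have : (0 : ℚ) < N := by exact_mod_cast hN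
    positivity
  refine ⟨fun hNp hirr h5 => ?_, fun h5 => ?_⟩
  · have hexpr := expr_prime hNp j1 (okLam c μ) ρ (fun _ => 0) hclam hcphi
    obtain ⟨l, l', hll, hl, hl'⟩ := h5
    exact gen_irr α hα (okubo c M) (okLam c μ) ρ hμ hM j1
      (fun _ => 0) N hN hclam hcphi hirr (by
        rw [hexpr]
        positivity) ⟨c l, mem_erase.2 ⟨hl, mem_univ _⟩, l, c l', mem_erase.2 ⟨hl', mem_univ _⟩, l',
        by simpa [okLam] using h1 l hl, by simpa [okLam] using h1 l' hl',
        by simpa [okLam] using h2 l l' hll hl hl'⟩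
  · obtain ⟨S, hS, hP⟩ := gen_final α hα (okubo c M) (okLam c μ) ρ hμ hM j1 (fun _ => 0) N hN
      hclam hcphi
    have h6 := h4 h5
    have h7 : ∑ l, (if c l = j1 then (1 : ℚ) else 0) =
        ((univ.filter fun l => c l = j1).card : ℚ) := by
      rw [← sum_filter, sum_const, nsmul_eq_mul, mul_one]
    rw [h7] at h6
    have h8 : (0 : ℚ) ≤ N.totient := by positivity
    refine ⟨S, fun hNp => le_trans (mul_le_mul_of_nonneg_left ?_ h8) hS, fun D hD hr =>
      le_trans (mul_le_mul_of_nonneg_left ?_ h8) hS, hP⟩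
    · rw [expr_prime hNp j1 (okLam c μ) ρ (fun _ => 0) hclam hcphi]
      have h10 : 0 ≤ 1 / (N : ℚ) * expr int1 j1 (okLam c μ) ρ (fun _ => 0) :=
        mul_nonneg hN0.le h3
      linarith
    · have h9 := expr_rough hN hD hr j1 (okLam c μ) ρ (fun _ => 0) hclam hcphi
      have h11 : 0 ≤ nontriv j1 (okLam c μ) (fun _ => 0) ∧
          nontriv j1 (okLam c μ) (fun _ => 0) ≤ r := by
        have e1 : nontriv j1 (okLam c μ) (fun _ => 0) = ∑ l, ∑ j ∈ univ.erase j1,
            (1 - int1 (okLam c μ j l)) := by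
          unfold nontriv
          rw [sum_comm]
          simp only [sub_zero]
        have e2 : ∀ l, ∑ j ∈ univ.erase j1, (1 - int1 (okLam c μ j l)) ≤ 1 := by
          intro l
          have e3 : ∀ j ∈ univ.erase j1, 1 - int1 (okLam c μ j l) ≤
              if c l = j then (1 : ℚ) else 0 := by
            intro j _
            unfold okLam
            by_cases h : c l = j
            · rw [if_pos h, if_pos h]
              linarith [int1_nonneg (μ l)]
            · rw [if_neg h, if_neg h, int1_zero, sub_self]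
          refine (sum_le_sum e3).trans ?_
          rw [sum_ne]
          split_ifs <;> norm_num
        refine ⟨?_, ?_⟩
        · unfold nontriv
          exact sum_nonneg fun j _ => sum_nonneg fun l _ => by
            linarith [int1_le_one (okLam c μ j l - (fun _ => (0 : ℚ)) j)]
        · rw [e1]
          refine (sum_le_sum fun l _ => e2 l).trans ?_
          simp
      have h12 : nontriv j1 (okLam c μ) (fun _ => 0) ^ 2 ≤ (r : ℚ) ^ 2 :=
        pow_le_pow_left₀ h11.1 h11.2 2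
      have h13 : (4 * (r : ℚ) ^ 2 + 3 * nontriv j1 (okLam c μ) (fun _ => 0) ^ 2) / D ≤
          7 * (r : ℚ) ^ 2 / D :=
        div_le_div_of_nonneg_right (by linarith) (by positivity)
      linarith

end Pool.Agent.R927
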