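import Pool.Agent.R927.GT5

set_option autoImplicit false

/-!
Denominators without small prime factors.
-/

namespace Pool.Agent.R927

open Finset Pool.Agent.W280.PC Pool.Agent.TH571.PCV

/-- the error `gam - int1` -/
def err (q : ℚ) : ℚ := gam q - int1 q

lemma err_of_den_one {q : ℚ} (h : q.den = 1) : err q = 0 := by
  rw [err, gam_int q h, int1, if_pos h, sub_self]

lemma err_sub_of_den_one (q : ℚ) {q' : ℚ} (h : q'.den = 1) : err (q - q') = err q := by
  have h1 : q' = (q'.num : ℚ) := by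
    conv_lhs => rw [← Rat.num_div_den q', h]
    simp
  have h2 : (q - q').den = q.den := by
    rw [h1]
    exact Rat.sub_intCast_den q _
  unfold err gam int1
  rw [h2]

lemma err_neg (q : ℚ) : err (-q) = err q := by
  unfold err
  rw [gam_neg, int1_neg]

lemma abs_err_le {N D : ℕ} (hN : 0 < N) (hD : 0 < D)
    (hr : ∀ p : ℕ, p.Prime → p ∣ N → D ≤ p) {q : ℚ} (h : ∃ m : ℤ, (N : ℚ) * q = m) :
    |err q| ≤ (1 - int1 q) / D := by
  have hDQ : (0 : ℚ) < D := by exact_mod_cast hD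
  by_cases h1 : q.den = 1
  · rw [err_of_den_one h1, int1, if_pos h1]
    simp
  · have h2 : int1 q = 0 := int1_eq_zero h1
    have hdN : q.den ∣ N := by
      obtain ⟨m, hm⟩ := h
      have hNQ : (N : ℚ) ≠ 0 := by exact_mod_cast hN.ne'
      have h3 : q = (m : ℚ) / ((N : ℤ) : ℚ) := by
        push_cast
        rw [← hm]
        field_simp
      have h4 : (q.den : ℤ) ∣ (N : ℤ) := by
        rw [h3, ← Rat.divInt_eq_div]
        exact Rat.den_dvd m (N : ℤ)
      exact Int.natCast_dvd_natCast.1 h4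
    obtain ⟨p, hp, hpd⟩ := Nat.exists_prime_and_dvd h1
    have hDd : D ≤ q.den := (hr p hp (hpd.trans hdN)).trans (Nat.le_of_dvd q.den_pos hpd)
    rw [err, h2, sub_zero, sub_zero]
    have hdpos : (0 : ℚ) < q.den := by exact_mod_cast q.den_pos
    have h5 : |gam q| ≤ 1 / q.den := by
      unfold gam
      rw [abs_div, abs_of_pos (show (0 : ℚ) < (q.den : ℚ) ^ 2 by positivity),
        div_le_div_iff₀ (by positivity) hdpos, one_mul, abs_prod]
      have h6 : ∏ p ∈ q.den.primeFactors, |(-(p : ℚ))| = ((∏ p ∈ q.den.primeFactors, p : ℕ) : ℚ) := by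
        push_cast
        exact prod_congr rfl fun p _ => by rw [abs_neg, Nat.abs_cast]
      rw [h6, sq]
      have h7 : (∏ p ∈ q.den.primeFactors, p) ≤ q.den :=
        Nat.le_of_dvd q.den_pos (Nat.prod_primeFactors_dvd _)
      have h8 : ((∏ p ∈ q.den.primeFactors, p : ℕ) : ℚ) ≤ q.den := by exact_mod_cast h7
      exact mul_le_mul_of_nonneg_right h8 hdpos.le
    refine h5.trans (one_div_le_one_div_of_le hDQ ?_)
    exact_mod_cast hDd

variable {n r : ℕ}

lemma int1_le_one (q : ℚ) : int1 q ≤ 1 := by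
  unfold int1
  split_ifs <;> norm_num

lemma expr_rough {N D : ℕ} (hN : 0 < N) (hD : 0 < D)
    (hr : ∀ p : ℕ, p.Prime → p ∣ N → D ≤ p) (j1 : Fin n) (lam : Fin n → Fin r → ℚ)
    (phi : Fin r → ℚ) (t : Fin n → ℚ) (hNlam : ∀ j l, ∃ m : ℤ, (N : ℚ) * (lam j l - t j) = m)
    (hNphi : ∀ l, ∃ m : ℤ, (N : ℚ) * (phi l - ∑ j, t j) = m) :
    expr int1 j1 lam phi t - (4 * (r : ℚ) ^ 2 + 3 * nontriv j1 lam t ^ 2) / D ≤
      expr gam j1 lam phi t := by
  have hDQ : (0 : ℚ) < D := by exact_mod_cast hD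
  have hsum : ∑ j, t j = t j1 + ∑ j ∈ univ.erase j1, t j :=
    (add_sum_erase univ t (mem_univ j1)).symm
  have k1 : ∀ i k, |err (lam j1 i - lam j1 k)| ≤ 1 / D := fun i k => by
    obtain ⟨m, hm⟩ := hNlam j1 i
    obtain ⟨m', hm'⟩ := hNlam j1 k
    refine (abs_err_le hN hD hr ⟨m - m', by push_cast; rw [← hm, ← hm']; ring⟩).trans ?_
    exact div_le_div_of_nonneg_right (by linarith [int1_nonneg (lam j1 i - lam j1 k)]) hDQ.le
  have k2 : ∀ i k, |err (phi i - phi k)| ≤ 1 / D := fun i k => by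
    obtain ⟨m, hm⟩ := hNphi i
    obtain ⟨m', hm'⟩ := hNphi k
    refine (abs_err_le hN hD hr ⟨m - m', by push_cast; rw [← hm, ← hm']; ring⟩).trans ?_
    exact div_le_div_of_nonneg_right (by linarith [int1_nonneg (phi i - phi k)]) hDQ.le
  have k3 : ∀ i k, |err (lam j1 i - phi k + ∑ j ∈ univ.erase j1, t j)| ≤ 1 / D := fun i k => by
    obtain ⟨m, hm⟩ := hNlam j1 i
    obtain ⟨m', hm'⟩ := hNphi k
    refine (abs_err_le hN hD hr ⟨m - m', by push_cast; rw [← hm, ← hm', hsum]; ring⟩).trans ?_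
    exact div_le_div_of_nonneg_right
      (by linarith [int1_nonneg (lam j1 i - phi k + ∑ j ∈ univ.erase j1, t j)]) hDQ.le
  have k5 : ∀ j l, |err (lam j l - t j)| ≤ (1 - int1 (lam j l - t j)) / D := fun j l =>
    abs_err_le hN hD hr (hNlam j l)
  have k4 : ∀ j l j' l', err ((lam j l - t j) - (lam j' l' - t j')) - err (lam j l - t j) -
      err (lam j' l' - t j') ≤
      3 * ((1 - int1 (lam j l - t j)) * (1 - int1 (lam j' l' - t j'))) / D := by
    intro j l j' l'
    by_cases h1 : (lam j' l' - t j').den = 1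
    · rw [err_sub_of_den_one _ h1, err_of_den_one h1, int1, int1, if_pos h1]
      simp
    · by_cases h2 : (lam j l - t j).den = 1
      · rw [← neg_sub (lam j' l' - t j'), err_neg, err_sub_of_den_one _ h2, err_of_den_one h2,
          int1, if_pos h2]
        simp
      · obtain ⟨m, hm⟩ := hNlam j l
        obtain ⟨m', hm'⟩ := hNlam j' l'
        have e1 : |err ((lam j l - t j) - (lam j' l' - t j'))| ≤ 1 / D := by
          refine (abs_err_le hN hD hr ⟨m - m', by push_cast; rw [← hm, ← hm']; ring⟩).trans ?_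
          exact div_le_div_of_nonneg_right
            (by linarith [int1_nonneg ((lam j l - t j) - (lam j' l' - t j'))]) hDQ.le
        have e2 := k5 j l
        have e3 := k5 j' l'
        rw [int1_eq_zero h1] at e3 ⊢
        rw [int1_eq_zero h2] at e2 ⊢
        rw [sub_zero] at e2 e3 ⊢
        have f1 := (abs_le.1 e1).2
        have f2 := (abs_le.1 e2).1
        have f3 := (abs_le.1 e3).1
        have f4 : (3 : ℚ) * (1 * 1) / D = 1 / D + 1 / D + 1 / D := by ring
        rw [f4]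
        linarith
  -- sums
  have s1 : -((r : ℚ) ^ 2 / D) ≤ ∑ i, ∑ k, err (lam j1 i - lam j1 k) := by
    have : ∑ i : Fin r, ∑ k : Fin r, (-(1 / (D : ℚ))) = -((r : ℚ) ^ 2 / D) := by
      simp only [sum_const, card_univ, Fintype.card_fin, nsmul_eq_mul]
      ring
    rw [← this]
    exact sum_le_sum fun i _ => sum_le_sum fun k _ => (abs_le.1 (k1 i k)).1
  have s2 : -((r : ℚ) ^ 2 / D) ≤ ∑ i, ∑ k, err (phi i - phi k) := by
    have : ∑ i : Fin r, ∑ k : Fin r, (-(1 / (D : ℚ))) = -((r : ℚ) ^ 2 / D) := by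
      simp only [sum_const, card_univ, Fintype.card_fin, nsmul_eq_mul]
      ring
    rw [← this]
    exact sum_le_sum fun i _ => sum_le_sum fun k _ => (abs_le.1 (k2 i k)).1
  have s3 : ∑ i, ∑ k, err (lam j1 i - phi k + ∑ j ∈ univ.erase j1, t j) ≤ (r : ℚ) ^ 2 / D := by
    have : ∑ i : Fin r, ∑ k : Fin r, (1 / (D : ℚ)) = (r : ℚ) ^ 2 / D := by
      simp only [sum_const, card_univ, Fintype.card_fin, nsmul_eq_mul]
      ring
    rw [← this]
    exact sum_le_sum fun i _ => sum_le_sum fun k _ => (abs_le.1 (k3 i k)).2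
  have s4 : (∑ j ∈ univ.erase j1, ∑ l, ∑ j' ∈ univ.erase j1, ∑ l',
      err ((lam j l - t j) - (lam j' l' - t j'))) -
      2 * ((n - 1 : ℕ) * r) * ∑ j ∈ univ.erase j1, ∑ l, err (lam j l - t j) ≤
      3 * nontriv j1 lam t ^ 2 / D := by
    have h1 : (∑ j ∈ univ.erase j1, ∑ l, ∑ j' ∈ univ.erase j1, ∑ l',
        err ((lam j l - t j) - (lam j' l' - t j'))) -
        2 * ((n - 1 : ℕ) * r) * ∑ j ∈ univ.erase j1, ∑ l, err (lam j l - t j) =
        ∑ j ∈ univ.erase j1, ∑ l, ∑ j' ∈ univ.erase j1, ∑ l',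
          (err ((lam j l - t j) - (lam j' l' - t j')) - err (lam j l - t j) -
            err (lam j' l' - t j')) := by
      simp only [sum_sub_distrib, sum_const, card_univ, Fintype.card_fin, nsmul_eq_mul, card_erase',
        ← mul_sum]
      ring
    have h2 : 3 * nontriv j1 lam t ^ 2 / D = ∑ j ∈ univ.erase j1, ∑ l, ∑ j' ∈ univ.erase j1, ∑ l',
        3 * ((1 - int1 (lam j l - t j)) * (1 - int1 (lam j' l' - t j'))) / D := by
      simp only [← mul_sum, ← sum_div, ← sum_mul]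
      rw [sq]
      rfl
    rw [h1, h2]
    exact sum_le_sum fun j _ => sum_le_sum fun l _ => sum_le_sum fun j' _ =>
      sum_le_sum fun l' _ => k4 j l j' l'
  have hg : ∀ q, gam q = err q + int1 q := fun q => by
    unfold err
    ring
  have h3 : expr gam j1 lam phi t = expr int1 j1 lam phi t +
      (∑ i, ∑ k, err (lam j1 i - lam j1 k) + ∑ i, ∑ k, err (phi i - phi k) -
      2 * ∑ i, ∑ k, err (lam j1 i - phi k + ∑ j ∈ univ.erase j1, t j) -
      ((∑ j ∈ univ.erase j1, ∑ l, ∑ j' ∈ univ.erase j1, ∑ l',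
      err ((lam j l - t j) - (lam j' l' - t j'))) -
      2 * ((n - 1 : ℕ) * r) * ∑ j ∈ univ.erase j1, ∑ l, err (lam j l - t j))) := by
    unfold expr
    simp only [hg, sum_add_distrib]
    ring
  rw [h3, add_div]
  have h4 : 4 * (r : ℚ) ^ 2 / D = (r : ℚ) ^ 2 / D + (r : ℚ) ^ 2 / D + 2 * ((r : ℚ) ^ 2 / D) := by
    ring
  rw [h4]
  linarith

end Pool.Agent.R927
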