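import Pool.Agent.W280.PC.Average

set_option autoImplicit false

/-!
Sums of integral parts over a complete system of residues, and a majorization lemma.
-/

namespace Pool.Agent.R927

open Finset Pool.Agent.W280.PC

section hermite

variable {D : ℕ}

lemma ediv_add_one_sub (hD : 0 < D) (u : ℤ) : (u + 1 - D) / (D : ℤ) = (u + 1) / (D : ℤ) - 1 := by
  have h : (D : ℤ) ≠ 0 := by exact_mod_cast hD.ne'
  rw [show u + 1 - (D : ℤ) = (u + 1) + (D : ℤ) * (-1) by ring, Int.add_mul_ediv_left _ _ h]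
  ring

lemma sum_ediv_succ (hD : 0 < D) (u : ℤ) :
    ∑ s ∈ range D, (u + 1 - (s : ℤ)) / (D : ℤ) = ∑ s ∈ range D, (u - (s : ℤ)) / (D : ℤ) + 1 := by
  have h1 := Finset.sum_range_succ (fun s : ℕ => (u + 1 - (s : ℤ)) / (D : ℤ)) D
  have h2 := Finset.sum_range_succ' (fun s : ℕ => (u + 1 - (s : ℤ)) / (D : ℤ)) D
  rw [h1] at h2
  have h3 : ∑ s ∈ range D, (u + 1 - ((s + 1 : ℕ) : ℤ)) / (D : ℤ) =
      ∑ s ∈ range D, (u - (s : ℤ)) / (D : ℤ) := by
    refine sum_congr rfl fun s _ => ?_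
    congr 1
    push_cast
    ring
  rw [h3] at h2
  rw [ediv_add_one_sub hD] at h2
  simp only [Nat.cast_zero, sub_zero] at h2
  linarith

lemma sum_ediv (hD : 0 < D) (u : ℤ) :
    ∑ s ∈ range D, (u - (s : ℤ)) / (D : ℤ) = u + ∑ s ∈ range D, (0 - (s : ℤ)) / (D : ℤ) := by
  induction u using Int.induction_on with
  | zero => simp
  | succ i ih => rw [sum_ediv_succ hD, ih]; ring
  | pred i ih =>
    have h := sum_ediv_succ hD (-(i : ℤ) - 1)
    rw [sub_add_cancel, ih] at h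
    linarith

lemma sum_ediv_sub (hD : 0 < D) (u v : ℤ) :
    ∑ s ∈ range D, ((u - (s : ℤ)) / (D : ℤ) - (v - (s : ℤ)) / (D : ℤ)) = u - v := by
  rw [sum_sub_distrib, sum_ediv hD u, sum_ediv hD v]
  ring

lemma pos_part (hD : 0 < D) (u v : ℤ) : max (u - v) 0 =
    ∑ s ∈ range D, max ((u - (s : ℤ)) / (D : ℤ) - (v - (s : ℤ)) / (D : ℤ)) 0 := by
  have hD' : (0 : ℤ) < D := by exact_mod_cast hD
  rcases le_total v u with h | h
  · rw [max_eq_left (by linarith), ← sum_ediv_sub hD u v]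
    refine sum_congr rfl fun s _ => ?_
    rw [max_eq_left]
    have := Int.ediv_le_ediv hD' (show v - (s : ℤ) ≤ u - s by linarith)
    linarith
  · rw [max_eq_right (by linarith)]
    symm
    refine sum_eq_zero fun s _ => ?_
    rw [max_eq_right]
    have := Int.ediv_le_ediv hD' (show u - (s : ℤ) ≤ v - s by linarith)
    linarith

lemma sum_sq_succ (hD : 0 < D) (u v : ℤ) :
    ∑ s ∈ range D, ((u + 1 - (s : ℤ)) / (D : ℤ) - (v + 1 - (s : ℤ)) / (D : ℤ)) ^ 2 =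
      ∑ s ∈ range D, ((u - (s : ℤ)) / (D : ℤ) - (v - (s : ℤ)) / (D : ℤ)) ^ 2 := by
  have h1 := Finset.sum_range_succ
    (fun s : ℕ => ((u + 1 - (s : ℤ)) / (D : ℤ) - (v + 1 - (s : ℤ)) / (D : ℤ)) ^ 2) D
  have h2 := Finset.sum_range_succ'
    (fun s : ℕ => ((u + 1 - (s : ℤ)) / (D : ℤ) - (v + 1 - (s : ℤ)) / (D : ℤ)) ^ 2) D
  rw [h1] at h2
  have h3 : ∑ s ∈ range D, ((u + 1 - ((s + 1 : ℕ) : ℤ)) / (D : ℤ) -
      (v + 1 - ((s + 1 : ℕ) : ℤ)) / (D : ℤ)) ^ 2 =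
      ∑ s ∈ range D, ((u - (s : ℤ)) / (D : ℤ) - (v - (s : ℤ)) / (D : ℤ)) ^ 2 := by
    refine sum_congr rfl fun s _ => ?_
    have h4 : ∀ t : ℤ, t + 1 - ((s + 1 : ℕ) : ℤ) = t - s := by
      intro t
      push_cast
      ring
    rw [h4, h4]
  rw [h3, ediv_add_one_sub hD, ediv_add_one_sub hD] at h2
  simp only [Nat.cast_zero, sub_zero] at h2
  rw [show (u + 1) / (D : ℤ) - 1 - ((v + 1) / (D : ℤ) - 1) = (u + 1) / (D : ℤ) - (v + 1) / (D : ℤ) by
    ring] at h2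
  linarith

lemma sum_sq_shift (hD : 0 < D) (u v k : ℤ) :
    ∑ s ∈ range D, ((u + k - (s : ℤ)) / (D : ℤ) - (v + k - (s : ℤ)) / (D : ℤ)) ^ 2 =
      ∑ s ∈ range D, ((u - (s : ℤ)) / (D : ℤ) - (v - (s : ℤ)) / (D : ℤ)) ^ 2 := by
  induction k using Int.induction_on with
  | zero => simp
  | succ i ih =>
    rw [← ih]
    have h := sum_sq_succ hD (u + (i : ℤ)) (v + (i : ℤ))
    rw [add_assoc u, add_assoc v] at h
    exact h
  | pred i ih =>
    rw [← ih]
    have h := sum_sq_succ hD (u + (-(i : ℤ) - 1)) (v + (-(i : ℤ) - 1))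
    rw [show u + (-(i : ℤ) - 1) + 1 = u + -(i : ℤ) by ring,
      show v + (-(i : ℤ) - 1) + 1 = v + -(i : ℤ) by ring] at h
    exact h.symm

lemma ediv_sub_nat (hD : 0 < D) (w : ℤ) {s : ℕ} (hs : s < D) :
    (w - (s : ℤ)) / (D : ℤ) - (0 - (s : ℤ)) / (D : ℤ) =
      w / D + if 1 ≤ s ∧ (s : ℤ) ≤ w % D then 1 else 0 := by
  have hD' : (0 : ℤ) < D := by exact_mod_cast hD
  have h0 := Int.emod_nonneg w hD'.ne'
  have h1 := Int.emod_lt_of_pos w hD'
  have h2 := Int.emod_add_mul_ediv w D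
  have hs' : (s : ℤ) < D := by exact_mod_cast hs
  have e1 : (w - (s : ℤ)) / (D : ℤ) = w / D + (w % D - s) / D := by
    conv_lhs => rw [← h2]
    rw [show w % D + D * (w / D) - (s : ℤ) = (w % D - s) + D * (w / D) by ring,
      Int.add_mul_ediv_left _ _ hD'.ne']
    ring
  have e2 : (w % D - (s : ℤ)) / D = if (s : ℤ) ≤ w % D then 0 else -1 := by
    split_ifs with h
    · exact Int.ediv_eq_zero_of_lt (by linarith) (by linarith [Int.natCast_nonneg s])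
    · rw [Int.ediv_eq_iff_of_pos hD']
      constructor <;> linarith
  have e3 : (0 - (s : ℤ)) / (D : ℤ) = if s = 0 then 0 else -1 := by
    split_ifs with h
    · subst h; simp
    · rw [Int.ediv_eq_iff_of_pos hD']
      have : (1 : ℤ) ≤ s := by exact_mod_cast Nat.one_le_iff_ne_zero.2 h
      constructor <;> linarith
  rw [e1, e2, e3]
  by_cases hs0 : s = 0
  · subst hs0
    simp [h0]
  · rw [if_neg hs0]
    have : 1 ≤ s := Nat.one_le_iff_ne_zero.2 hs0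
    by_cases hs1 : (s : ℤ) ≤ w % D
    · rw [if_pos hs1, if_pos ⟨this, hs1⟩]; ring
    · rw [if_neg hs1, if_neg (fun h => hs1 h.2)]; ring

lemma sum_sq (hD : 0 < D) (u v : ℤ) :
    (D : ℤ) * ∑ s ∈ range D, ((u - (s : ℤ)) / (D : ℤ) - (v - (s : ℤ)) / (D : ℤ)) ^ 2 =
      (u - v) ^ 2 - Q D (u - v) := by
  have hD' : (0 : ℤ) < D := by exact_mod_cast hD
  have h1 := sum_sq_shift hD (u - v) 0 v
  rw [sub_add_cancel, zero_add] at h1
  rw [h1]
  set w := u - v with hw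
  have h2 : ∑ s ∈ range D, ((w - (s : ℤ)) / (D : ℤ) - (0 - (s : ℤ)) / (D : ℤ)) ^ 2 =
      ∑ s ∈ range D, ((w / D) ^ 2 + (2 * (w / D) + 1) *
        (if 1 ≤ s ∧ (s : ℤ) ≤ w % D then 1 else 0)) := by
    refine sum_congr rfl fun s hs => ?_
    rw [ediv_sub_nat hD w (mem_range.1 hs)]
    split_ifs <;> ring
  have h0 := Int.emod_nonneg w hD'.ne'
  have h3 := Int.emod_lt_of_pos w hD'
  have h4 := Int.emod_add_mul_ediv w D
  have h5 : ∑ s ∈ range D, (if 1 ≤ s ∧ (s : ℤ) ≤ w % D then (1 : ℤ) else 0) = w % D := by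
    rw [← sum_filter, sum_const, nsmul_eq_mul, mul_one]
    have h6 : (range D).filter (fun s : ℕ => 1 ≤ s ∧ (s : ℤ) ≤ w % D) = Icc 1 (w % D).toNat := by
      ext s
      simp only [mem_filter, mem_range, mem_Icc]
      omega
    rw [h6, Nat.card_Icc]
    omega
  rw [h2, sum_add_distrib, ← mul_sum, h5, sum_const, card_range, nsmul_eq_mul]
  unfold Q
  have h6 : w ^ 2 = (w % D + D * (w / D)) ^ 2 := by rw [h4]
  rw [h6]
  ring

end hermite

end Pool.Agent.R927
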