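import Pool.Agent.R927.Hinge1

set_option autoImplicit false

/-!
A majorization lemma: hinge inequalities at the values of a monotone function give the inequality
for the sums of squares.
-/

namespace Pool.Agent.R927

open Finset Pool.Agent.W280.PC

lemma sq_eq_sum_aux (t : ℕ) :
    (t : ℤ) ^ 2 = t + 2 * ∑ h ∈ range t, max ((t : ℤ) - ((h : ℤ) + 1)) 0 := by
  induction t with
  | zero => simp
  | succ t ih =>
    rw [Finset.sum_range_succ']
    have h1 : ∑ k ∈ range t, max (((t + 1 : ℕ) : ℤ) - (((k + 1 : ℕ) : ℤ) + 1)) 0 =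
        ∑ k ∈ range t, max ((t : ℤ) - ((k : ℤ) + 1)) 0 := by
      refine sum_congr rfl fun k _ => ?_
      congr 1
      push_cast
      ring
    rw [h1]
    have h2 : max (((t + 1 : ℕ) : ℤ) - (((0 : ℕ) : ℤ) + 1)) 0 = t := by
      push_cast
      rw [max_eq_left (by linarith [Int.natCast_nonneg t])]
      ring
    rw [h2]
    push_cast
    linarith

lemma sq_eq_sum {H : ℕ} {t : ℤ} (h0 : 0 ≤ t) (h1 : t ≤ H) :
    t ^ 2 = t + 2 * ∑ h ∈ range H, max (t - ((h : ℤ) + 1)) 0 := by
  obtain ⟨m, rfl⟩ := Int.eq_ofNat_of_zero_le h0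
  have h1' : m ≤ H := by exact_mod_cast h1
  have h2 : ∑ h ∈ range H, max ((m : ℤ) - ((h : ℤ) + 1)) 0 =
      ∑ h ∈ range m, max ((m : ℤ) - ((h : ℤ) + 1)) 0 := by
    symm
    refine sum_subset (range_subset_range.2 h1') fun k _ hk => ?_
    rw [mem_range, not_lt] at hk
    rw [max_eq_right]
    have : (m : ℤ) ≤ k := by exact_mod_cast hk
    linarith
  have h3 := sq_eq_sum_aux m
  rw [h2]
  exact h3

/-- interpolation of hinge functions -/
lemma interp {m p h t : ℤ} (hm : m ≤ h) (hp : h ≤ p) :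
    (p - m) * max (t - h) 0 ≤ (p - h) * max (t - m) 0 + (h - m) * max (t - p) 0 := by
  rcases le_total t h with h1 | h1
  · rw [max_eq_right (by linarith : t - h ≤ 0), mul_zero]
    have := mul_nonneg (by linarith : 0 ≤ p - h) (le_max_right (t - m) 0)
    have := mul_nonneg (by linarith : 0 ≤ h - m) (le_max_right (t - p) 0)
    linarith
  · rw [max_eq_left (by linarith : 0 ≤ t - h), max_eq_left (by linarith : 0 ≤ t - m)]
    have h2 : t - p ≤ max (t - p) 0 := le_max_left _ _
    have := mul_le_mul_of_nonneg_left h2 (by linarith : 0 ≤ h - m)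
    nlinarith

lemma interp_eq {m p h t : ℤ} (hm : m ≤ h) (hp : h ≤ p) (ht : t ≤ m ∨ p ≤ t) :
    (p - m) * max (t - h) 0 = (p - h) * max (t - m) 0 + (h - m) * max (t - p) 0 := by
  rcases ht with ht | ht
  · rw [max_eq_right (by linarith : t - h ≤ 0), max_eq_right (by linarith : t - m ≤ 0),
      max_eq_right (by linarith : t - p ≤ 0)]
    ring
  · rw [max_eq_left (by linarith : 0 ≤ t - h), max_eq_left (by linarith : 0 ≤ t - m),
      max_eq_left (by linarith : 0 ≤ t - p)]
    ring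

theorem majorize {D : ℕ} (hD : 0 < D) (n M : ℕ → ℤ) (anti : Antitone M)
    (hM : M (D - 1) = 0) (hsum : ∑ s ∈ range D, n s = ∑ k ∈ range D, M k)
    (h : ∀ k ∈ range D, ∑ s ∈ range D, max (n s - M k) 0 ≤ ∑ k' ∈ range D, max (M k' - M k) 0) :
    ∑ s ∈ range D, n s ^ 2 ≤ ∑ k ∈ range D, M k ^ 2 ∧
    ((∃ k ∈ range D, 1 ≤ M k ∧
        ∑ s ∈ range D, max (n s - M k) 0 < ∑ k' ∈ range D, max (M k' - M k) 0) →
      ∑ s ∈ range D, n s ^ 2 < ∑ k ∈ range D, M k ^ 2) := by
  classical
  have hMnn : ∀ k ∈ range D, 0 ≤ M k := by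
    intro k hk
    rw [← hM]
    exact anti (by have := mem_range.1 hk; omega)
  have hMle : ∀ k, M k ≤ M 0 := fun k => anti (Nat.zero_le k)
  have hM0 : 0 ≤ M 0 := hMnn 0 (mem_range.2 hD)
  have hnn : ∀ s ∈ range D, 0 ≤ n s := by
    have h1 := h (D - 1) (mem_range.2 (by omega))
    rw [hM] at h1
    simp only [sub_zero] at h1
    have h2 : ∑ k ∈ range D, max (M k) 0 = ∑ k ∈ range D, M k :=
      sum_congr rfl fun k hk => max_eq_left (hMnn k hk)
    rw [h2, ← hsum] at h1
    intro s hs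
    by_contra hneg
    have h3 : ∑ s ∈ range D, n s < ∑ s ∈ range D, max (n s) 0 :=
      sum_lt_sum (fun k _ => le_max_left _ _) ⟨s, hs, lt_max_of_lt_right (not_le.1 hneg)⟩
    linarith
  have hf0 : ∑ s ∈ range D, max (n s - M 0) 0 = 0 := by
    have h1 := h 0 (mem_range.2 hD)
    have h2 : ∑ k' ∈ range D, max (M k' - M 0) 0 = 0 :=
      sum_eq_zero fun k _ => max_eq_right (by linarith [hMle k])
    rw [h2] at h1
    exact le_antisymm h1 (sum_nonneg fun _ _ => le_max_right _ _)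
  have hnle : ∀ s ∈ range D, n s ≤ M 0 := by
    intro s hs
    have h1 := (sum_eq_zero_iff_of_nonneg fun _ _ => le_max_right _ _).1 hf0 s hs
    have h2 : n s - M 0 ≤ max (n s - M 0) 0 := le_max_left _ _
    rw [h1] at h2
    linarith
  -- the hinge inequalities at all nonnegative integers
  have hall : ∀ x : ℤ, 0 ≤ x →
      ∑ s ∈ range D, max (n s - x) 0 ≤ ∑ k ∈ range D, max (M k - x) 0 := by
    intro x hx
    rcases le_or_gt (M 0) x with hx0 | hx0
    · have h1 : ∑ s ∈ range D, max (n s - x) 0 = 0 :=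
        sum_eq_zero fun s hs => max_eq_right (by linarith [hnle s hs])
      rw [h1]
      exact sum_nonneg fun _ _ => le_max_right _ _
    · have hex : ∃ k, M k ≤ x := ⟨D - 1, by rw [hM]; exact hx⟩
      set k₀ := Nat.find hex with hk₀
      have h1 : M k₀ ≤ x := Nat.find_spec hex
      have h2 : k₀ ≤ D - 1 := Nat.find_min' hex (by rw [hM]; exact hx)
      have h3 : k₀ ≠ 0 := by
        intro h0
        rw [h0] at h1
        linarith
      have h4 : x < M (k₀ - 1) := not_le.1 (Nat.find_min hex (by omega))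
      have h5 := h k₀ (mem_range.2 (by omega))
      have h6 := h (k₀ - 1) (mem_range.2 (by omega))
      have h7 : (M (k₀ - 1) - M k₀) * ∑ s ∈ range D, max (n s - x) 0 ≤
          (M (k₀ - 1) - x) * ∑ s ∈ range D, max (n s - M k₀) 0 +
          (x - M k₀) * ∑ s ∈ range D, max (n s - M (k₀ - 1)) 0 := by
        rw [mul_sum, mul_sum, mul_sum, ← sum_add_distrib]
        exact sum_le_sum fun s _ => interp h1 h4.le
      have h8 : (M (k₀ - 1) - M k₀) * ∑ k ∈ range D, max (M k - x) 0 =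
          (M (k₀ - 1) - x) * ∑ k ∈ range D, max (M k - M k₀) 0 +
          (x - M k₀) * ∑ k ∈ range D, max (M k - M (k₀ - 1)) 0 := by
        rw [mul_sum, mul_sum, mul_sum, ← sum_add_distrib]
        refine sum_congr rfl fun k _ => interp_eq h1 h4.le ?_
        rcases le_or_gt k₀ k with hk | hk
        · exact Or.inl (anti hk)
        · exact Or.inr (anti (by omega))
      have h9 := mul_le_mul_of_nonneg_left h5 (by linarith : 0 ≤ M (k₀ - 1) - x)
      have h10 := mul_le_mul_of_nonneg_left h6 (by linarith : 0 ≤ x - M k₀)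
      have h11 : (M (k₀ - 1) - M k₀) * ∑ s ∈ range D, max (n s - x) 0 ≤
          (M (k₀ - 1) - M k₀) * ∑ k ∈ range D, max (M k - x) 0 := by linarith
      exact le_of_mul_le_mul_left h11 (by linarith)
  obtain ⟨H, hH⟩ := Int.eq_ofNat_of_zero_le hM0
  have e1 : ∑ s ∈ range D, n s ^ 2 =
      ∑ s ∈ range D, n s + 2 * ∑ x ∈ range H, ∑ s ∈ range D, max (n s - ((x : ℤ) + 1)) 0 := by
    rw [sum_comm, mul_sum, ← sum_add_distrib]
    refine sum_congr rfl fun s hs => ?_
    exact sq_eq_sum (hnn s hs) (by rw [← hH]; exact hnle s hs)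
  have e2 : ∑ k ∈ range D, M k ^ 2 =
      ∑ k ∈ range D, M k + 2 * ∑ x ∈ range H, ∑ k ∈ range D, max (M k - ((x : ℤ) + 1)) 0 := by
    rw [sum_comm, mul_sum, ← sum_add_distrib]
    refine sum_congr rfl fun k hk => ?_
    exact sq_eq_sum (hMnn k hk) (by rw [← hH]; exact hMle k)
  rw [e1, e2, hsum]
  refine ⟨?_, ?_⟩
  · have : ∑ x ∈ range H, ∑ s ∈ range D, max (n s - ((x : ℤ) + 1)) 0 ≤
        ∑ x ∈ range H, ∑ k ∈ range D, max (M k - ((x : ℤ) + 1)) 0 :=
      sum_le_sum fun x _ => hall _ (by positivity)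
    linarith
  · rintro ⟨k, hk, hk1, hlt⟩
    have : ∑ x ∈ range H, ∑ s ∈ range D, max (n s - ((x : ℤ) + 1)) 0 <
        ∑ x ∈ range H, ∑ k ∈ range D, max (M k - ((x : ℤ) + 1)) 0 := by
      refine sum_lt_sum (fun x _ => hall _ (by positivity)) ⟨(M k - 1).toNat, ?_, ?_⟩
      · rw [mem_range]
        have := hMle k
        omega
      · have h1 : (((M k - 1).toNat : ℕ) : ℤ) + 1 = M k := by omega
        rw [h1]
        exact hlt
    linarith

end Pool.Agent.R927
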