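import Pool.Agent.R927.Hinge2

set_option autoImplicit false

/-!
The quadratic inequality which follows from the hinge inequalities.
-/

namespace Pool.Agent.R927

open Finset Pool.Agent.W280.PC

section polar

variable {r : ℕ}

lemma polar (f g : Fin r → ℤ) : 2 * (∑ i, f i - ∑ i, g i) ^ 2 =
    2 * ∑ i, ∑ j, (f i - g j) ^ 2 - ∑ i, ∑ j, (f i - f j) ^ 2 - ∑ i, ∑ j, (g i - g j) ^ 2 := by
  have key : ∀ f g : Fin r → ℤ, ∑ i, ∑ j, (f i - g j) ^ 2 =
      r * ∑ i, f i ^ 2 + r * ∑ i, g i ^ 2 - 2 * ((∑ i, f i) * ∑ i, g i) := by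
    intro f g
    have h1 : ∑ i, ∑ j, (f i - g j) ^ 2 =
        ∑ i, ∑ j, (f i ^ 2 + g j ^ 2 - 2 * (f i * g j)) := by
      refine sum_congr rfl fun i _ => sum_congr rfl fun j _ => ?_
      ring
    rw [h1]
    simp only [sum_sub_distrib, sum_add_distrib, sum_const, card_univ, Fintype.card_fin,
      nsmul_eq_mul, ← mul_sum, sum_mul_sum]
  rw [key f g, key f f, key g g]
  ring

lemma two_mul_min {D : ℕ} {p q : ℤ} (hp : 0 ≤ p) (hpD : p < D) (hq : 0 ≤ q) (hqD : q < D) :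
    2 * D * min p q = 2 * p * q + Q D (p - q) - Q D p - Q D q := by
  have hD : 0 < D := by omega
  wlog h : p ≤ q with H
  · have h1 := H hq hqD hp hpD hD (by linarith)
    rw [min_comm, h1, show q - p = -(p - q) by ring, Q_neg hD]
    ring
  · rw [min_eq_left h]
    have h1 : Q D p = p * (p - D) := by
      unfold Q
      rw [Int.emod_eq_of_lt hp hpD]
    have h2 : Q D q = q * (q - D) := by
      unfold Q
      rw [Int.emod_eq_of_lt hq hqD]
    have h3 : Q D (p - q) = (q - p) * (q - p - D) := by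
      rw [show p - q = -(q - p) by ring, Q_neg hD]
      unfold Q
      rw [Int.emod_eq_of_lt (by linarith) (by linarith)]
    rw [h1, h2, h3]
    ring

/-- the sum of the squares -/
lemma sum_n_sq {D : ℕ} (hD : 0 < D) (y v : Fin r → ℤ) (K : ℤ) :
    2 * (D : ℤ) * ∑ s ∈ range D, (∑ i, (y i - (s : ℤ)) / (D : ℤ) - ∑ i, (v i - (s : ℤ)) / (D : ℤ)
      - K) ^ 2 =
    2 * (∑ i, y i - ∑ i, v i - D * K) ^ 2 + ∑ i, ∑ j, Q D (y i - y j) + ∑ i, ∑ j, Q D (v i - v j)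
      - 2 * ∑ i, ∑ j, Q D (y i - v j) := by
  have h1 : ∑ s ∈ range D, (∑ i, (y i - (s : ℤ)) / (D : ℤ) - ∑ i, (v i - (s : ℤ)) / (D : ℤ)) =
      ∑ i, y i - ∑ i, v i := by
    have h2 : ∀ s : ℕ, ∑ i, (y i - (s : ℤ)) / (D : ℤ) - ∑ i, (v i - (s : ℤ)) / (D : ℤ) =
        ∑ i, ((y i - (s : ℤ)) / (D : ℤ) - (v i - (s : ℤ)) / (D : ℤ)) := fun s => by
      rw [sum_sub_distrib]
    simp only [h2]
    rw [sum_comm, ← sum_sub_distrib]
    exact sum_congr rfl fun i _ => sum_ediv_sub hD _ _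
  have key : ∀ f g : Fin r → ℤ, (D : ℤ) * ∑ s ∈ range D, ∑ i, ∑ j,
      ((f i - (s : ℤ)) / (D : ℤ) - (g j - (s : ℤ)) / (D : ℤ)) ^ 2 =
      ∑ i, ∑ j, ((f i - g j) ^ 2 - Q D (f i - g j)) := by
    intro f g
    rw [sum_comm, mul_sum]
    refine sum_congr rfl fun i _ => ?_
    rw [sum_comm, mul_sum]
    exact sum_congr rfl fun j _ => sum_sq hD _ _
  have h2 : 2 * (D : ℤ) * ∑ s ∈ range D,
      (∑ i, (y i - (s : ℤ)) / (D : ℤ) - ∑ i, (v i - (s : ℤ)) / (D : ℤ)) ^ 2 =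
      2 * (∑ i, y i - ∑ i, v i) ^ 2 + ∑ i, ∑ j, Q D (y i - y j) + ∑ i, ∑ j, Q D (v i - v j)
      - 2 * ∑ i, ∑ j, Q D (y i - v j) := by
    have h3 : 2 * (D : ℤ) * ∑ s ∈ range D,
        (∑ i, (y i - (s : ℤ)) / (D : ℤ) - ∑ i, (v i - (s : ℤ)) / (D : ℤ)) ^ 2 =
        D * ∑ s ∈ range D,
        2 * (∑ i, (y i - (s : ℤ)) / (D : ℤ) - ∑ i, (v i - (s : ℤ)) / (D : ℤ)) ^ 2 := by
      rw [← mul_sum]
      ring
    rw [h3]
    have h4 : ∀ s ∈ range D, 2 * (∑ i, (y i - (s : ℤ)) / (D : ℤ) - ∑ i, (v i - (s : ℤ)) / (D : ℤ)) ^ 2 =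
        2 * ∑ i, ∑ j, ((y i - (s : ℤ)) / (D : ℤ) - (v j - (s : ℤ)) / (D : ℤ)) ^ 2 -
        ∑ i, ∑ j, ((y i - (s : ℤ)) / (D : ℤ) - (y j - (s : ℤ)) / (D : ℤ)) ^ 2 -
        ∑ i, ∑ j, ((v i - (s : ℤ)) / (D : ℤ) - (v j - (s : ℤ)) / (D : ℤ)) ^ 2 := fun s _ =>
      polar (fun i => (y i - (s : ℤ)) / (D : ℤ)) (fun i => (v i - (s : ℤ)) / (D : ℤ))
    rw [sum_congr rfl h4, sum_sub_distrib, sum_sub_distrib, ← mul_sum, mul_sub, mul_sub,
      mul_left_comm, key, key, key, polar y v]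
    simp only [sum_sub_distrib]
    ring
  have h5 : ∑ s ∈ range D, (∑ i, (y i - (s : ℤ)) / (D : ℤ) - ∑ i, (v i - (s : ℤ)) / (D : ℤ)
      - K) ^ 2 = ∑ s ∈ range D,
      (∑ i, (y i - (s : ℤ)) / (D : ℤ) - ∑ i, (v i - (s : ℤ)) / (D : ℤ)) ^ 2 -
      2 * K * (∑ i, y i - ∑ i, v i) + D * K ^ 2 := by
    rw [← h1]
    have h6 : ∀ s ∈ range D, (∑ i, (y i - (s : ℤ)) / (D : ℤ) - ∑ i, (v i - (s : ℤ)) / (D : ℤ)
      - K) ^ 2 = (∑ i, (y i - (s : ℤ)) / (D : ℤ) - ∑ i, (v i - (s : ℤ)) / (D : ℤ)) ^ 2 -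
      2 * K * (∑ i, (y i - (s : ℤ)) / (D : ℤ) - ∑ i, (v i - (s : ℤ)) / (D : ℤ)) + K ^ 2 :=
      fun s _ => by ring
    rw [sum_congr rfl h6, sum_add_distrib, sum_sub_distrib, ← mul_sum, sum_const, card_range,
      nsmul_eq_mul]
  rw [h5]
  linear_combination h2

end polar

section layer

variable {r : ℕ}

lemma sum_layer {D : ℕ} (d : Fin r → ℤ) (h0 : ∀ l, 0 ≤ d l) (h1 : ∀ l, d l < D) :
    ∑ k ∈ range D, ((univ.filter fun l => ((k : ℤ) + 1 ≤ d l)).card : ℤ) = ∑ l, d l := by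
  have h2 : ∀ k : ℕ, ((univ.filter fun l => ((k : ℤ) + 1 ≤ d l)).card : ℤ) =
      ∑ l, if (k : ℤ) + 1 ≤ d l then 1 else 0 := fun k => by
    rw [card_filter]
    push_cast
    rfl
  simp only [h2]
  rw [sum_comm]
  refine sum_congr rfl fun l _ => ?_
  rw [← sum_filter, sum_const, nsmul_eq_mul, mul_one]
  have h3 : (range D).filter (fun k : ℕ => (k : ℤ) + 1 ≤ d l) = range (d l).toNat := by
    ext k
    have := h1 l
    simp only [mem_filter, mem_range]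
    omega
  rw [h3, card_range]
  have := h0 l
  omega

lemma sum_layer_sq {D : ℕ} (d : Fin r → ℤ) (h0 : ∀ l, 0 ≤ d l) (h1 : ∀ l, d l < D) :
    ∑ k ∈ range D, ((univ.filter fun l => ((k : ℤ) + 1 ≤ d l)).card : ℤ) ^ 2 =
      ∑ l, ∑ l', min (d l) (d l') := by
  have h2 : ∀ k : ℕ, ((univ.filter fun l => ((k : ℤ) + 1 ≤ d l)).card : ℤ) ^ 2 =
      ∑ l, ∑ l', if (k : ℤ) + 1 ≤ min (d l) (d l') then 1 else 0 := fun k => by
    have h3 : ((univ.filter fun l => ((k : ℤ) + 1 ≤ d l)).card : ℤ) =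
        ∑ l, if (k : ℤ) + 1 ≤ d l then 1 else 0 := by
      rw [card_filter]
      push_cast
      rfl
    rw [h3, sq, sum_mul_sum]
    refine sum_congr rfl fun l _ => sum_congr rfl fun l' _ => ?_
    by_cases h4 : (k : ℤ) + 1 ≤ d l <;> by_cases h5 : (k : ℤ) + 1 ≤ d l' <;>
      simp [h4, h5]
  simp only [h2]
  rw [sum_comm]
  refine sum_congr rfl fun l _ => ?_
  rw [sum_comm]
  refine sum_congr rfl fun l' _ => ?_
  rw [← sum_filter, sum_const, nsmul_eq_mul, mul_one]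
  have h3 : (range D).filter (fun k : ℕ => (k : ℤ) + 1 ≤ min (d l) (d l')) =
      range (min (d l) (d l')).toNat := by
    ext k
    have := h1 l
    have h4 : min (d l) (d l') ≤ d l := min_le_left _ _
    simp only [mem_filter, mem_range]
    omega
  rw [h3, card_range]
  have h4 : 0 ≤ min (d l) (d l') := le_min (h0 l) (h0 l')
  omega

lemma sum_layer_hinge {D : ℕ} (d : Fin r → ℤ) (h0 : ∀ l, 0 ≤ d l) {k : ℕ} (hk : k < D) :
    ∑ k' ∈ range D, max (((univ.filter fun l => ((k' : ℤ) + 1 ≤ d l)).card : ℤ) -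
      ((univ.filter fun l => ((k : ℤ) + 1 ≤ d l)).card : ℤ)) 0 =
      ∑ l, if d l < (k : ℤ) + 1 then d l else 0 := by
  have h2 : ∀ k' ∈ range D, max (((univ.filter fun l => ((k' : ℤ) + 1 ≤ d l)).card : ℤ) -
      ((univ.filter fun l => ((k : ℤ) + 1 ≤ d l)).card : ℤ)) 0 =
      ∑ l, if ((k' : ℤ) + 1 ≤ d l ∧ d l < (k : ℤ) + 1) then 1 else 0 := by
    intro k' _
    have h3 : ∀ k : ℕ, ((univ.filter fun l => ((k : ℤ) + 1 ≤ d l)).card : ℤ) =
        ∑ l, if (k : ℤ) + 1 ≤ d l then 1 else 0 := fun k => by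
      rw [card_filter]
      push_cast
      rfl
    rw [h3, h3, ← sum_sub_distrib]
    rcases le_total k' k with h | h
    · have h' : (k' : ℤ) ≤ k := by exact_mod_cast h
      have h4 : ∑ l, ((if (k' : ℤ) + 1 ≤ d l then (1 : ℤ) else 0) -
          (if (k : ℤ) + 1 ≤ d l then 1 else 0)) =
          ∑ l, if ((k' : ℤ) + 1 ≤ d l ∧ d l < (k : ℤ) + 1) then 1 else 0 := by
        refine sum_congr rfl fun l _ => ?_
        split_ifs <;> omega
      rw [h4, max_eq_left]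
      exact sum_nonneg fun l _ => by split_ifs <;> norm_num
    · have h' : (k : ℤ) ≤ k' := by exact_mod_cast h
      rw [max_eq_right]
      · symm
        refine sum_eq_zero fun l _ => ?_
        rw [if_neg]
        omega
      · refine sum_nonpos fun l _ => ?_
        split_ifs <;> omega
  rw [sum_congr rfl h2, sum_comm]
  refine sum_congr rfl fun l _ => ?_
  rw [← sum_filter, sum_const, nsmul_eq_mul, mul_one]
  split_ifs with h
  · have h3 : (range D).filter (fun k' : ℕ => (k' : ℤ) + 1 ≤ d l ∧ d l < (k : ℤ) + 1) =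
        range (d l).toNat := by
      ext k'
      simp only [mem_filter, mem_range]
      omega
    rw [h3, card_range]
    have := h0 l
    omega
  · rw [filter_false_of_mem, card_empty]
    · rfl
    · intro k' _ h3
      exact h h3.2

end layer

end Pool.Agent.R927
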