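import Pool.Agent.H916R2.Indep

set_option autoImplicit false

/-!
Vanishing sums of sawtooth functions modulo a prime number.
-/

namespace Pool.Agent.R927

open Finset Pool.Agent.H916R2

variable {N : ℕ} [hN : Fact N.Prime]

/-- The Stickelberger sum of an odd character at `1` does not vanish. -/
lemma SS_one_ne_zero (χ : DirichletCharacter ℂ N) (hχ : χ.Odd) : SS χ 1 ≠ 0 := by
  intro h
  obtain ⟨a, ha⟩ := exists_SS_ne_zero χ hχ
  by_cases h0 : a = 0
  · apply ha
    rw [h0]
    unfold SS
    simp [saw_zero]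
  · apply ha
    have h1 := SS_unit χ (Units.mk0 a h0) 1
    rw [Units.val_mk0, mul_one, h, mul_zero] at h1
    exact h1

/-- If the sums of the sawtooth function over all the unit multiples of a tuple of nonzero residues
modulo a prime vanish, then the tuple is symmetric. -/
theorem card_symm {ι : Type*} [Fintype ι] [DecidableEq ι] (D : ι → ZMod N) (hD : ∀ x, D x ≠ 0)
    (hs : ∀ u : (ZMod N)ˣ, ∑ x, saw ((u : ZMod N) * D x) = 0) (b : ZMod N) (hb : b ≠ 0) :
    (univ.filter fun x => D x = b).card = (univ.filter fun x => D x = -b).card := by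
  classical
  have hN0 : (Nat.totient N : ℂ) ≠ 0 := by
    have := Nat.totient_pos.2 hN.out.pos
    exact_mod_cast this.ne'
  -- the relation for odd characters
  have h1 : ∀ χ : DirichletCharacter ℂ N, χ.Odd → ∑ x, (χ (D x))⁻¹ = 0 := by
    intro χ hχ
    have h2 : ∑ x, SS χ (D x) = 0 := by
      unfold SS
      rw [sum_comm]
      apply sum_eq_zero
      intro t _
      rw [← mul_sum]
      have := hs t
      have h3 : ∑ x, ((saw ((t : ZMod N) * D x) : ℤ) : ℂ) = 0 := by exact_mod_cast this
      rw [h3, mul_zero]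
    have h4 : ∀ x, SS χ (D x) = (χ (D x))⁻¹ * SS χ 1 := by
      intro x
      have := SS_unit χ (Units.mk0 (D x) (hD x)) 1
      rw [Units.val_mk0, mul_one] at this
      exact this
    rw [sum_congr rfl fun x _ => h4 x, ← sum_mul] at h2
    exact (mul_eq_zero.1 h2).resolve_right (SS_one_ne_zero χ hχ)
  -- for all characters
  have h5 : ∀ χ : DirichletCharacter ℂ N,
      ∑ x, (χ (b * (D x)⁻¹) - χ (-(b * (D x)⁻¹))) = 0 := by
    intro χ
    rcases χ.even_or_odd with he | ho
    · apply sum_eq_zero
      intro x _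
      have h1 : χ (-1) = 1 := he
      have : χ (-(b * (D x)⁻¹)) = χ (b * (D x)⁻¹) := by
        rw [← neg_one_mul, map_mul, h1, one_mul]
      rw [this, sub_self]
    · have h1' : χ (-1) = -1 := ho
      have h2 : ∀ x, χ (b * (D x)⁻¹) - χ (-(b * (D x)⁻¹)) = 2 * χ b * (χ (D x))⁻¹ := by
        intro x
        have h3 : χ (-(b * (D x)⁻¹)) = - χ (b * (D x)⁻¹) := by
          rw [← neg_one_mul, map_mul, h1', neg_one_mul]
        have h4 : χ ((D x)⁻¹) = (χ (D x))⁻¹ := by
          have : χ (D x) * χ ((D x)⁻¹) = 1 := by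
            rw [← map_mul, mul_inv_cancel₀ (hD x), map_one]
          exact (inv_eq_of_mul_eq_one_right this).symm
        rw [h3, map_mul, h4]
        ring
      rw [sum_congr rfl fun x _ => h2 x, ← mul_sum, h1 χ ho, mul_zero]
  have h6 : ∑ χ : DirichletCharacter ℂ N,
      ∑ x, (χ (b * (D x)⁻¹) - χ (-(b * (D x)⁻¹))) = 0 := sum_eq_zero fun χ _ => h5 χ
  rw [sum_comm] at h6
  simp only [sum_sub_distrib] at h6
  have h7 : ∀ x, ∑ χ : DirichletCharacter ℂ N, χ (b * (D x)⁻¹) =
      if D x = b then (Nat.totient N : ℂ) else 0 := by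
    intro x
    rw [DirichletCharacter.sum_characters_eq]
    refine if_congr ?_ rfl rfl
    constructor
    · intro h
      have := congrArg (fun z => z * D x) h
      simp only [mul_assoc, inv_mul_cancel₀ (hD x), mul_one, one_mul] at this
      exact this.symm
    · intro h
      rw [h, mul_inv_cancel₀ hb]
  have h8 : ∀ x, ∑ χ : DirichletCharacter ℂ N, χ (-(b * (D x)⁻¹)) =
      if D x = -b then (Nat.totient N : ℂ) else 0 := by
    intro x
    rw [DirichletCharacter.sum_characters_eq]
    refine if_congr ?_ rfl rfl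
    constructor
    · intro h
      have := congrArg (fun z => z * D x) h
      simp only [neg_mul, mul_assoc, inv_mul_cancel₀ (hD x), mul_one, one_mul] at this
      exact this.symm
    · intro h
      rw [h, inv_neg, mul_neg, neg_neg, mul_inv_cancel₀ hb]
  rw [sum_congr rfl fun x _ => h7 x, sum_congr rfl fun x _ => h8 x, ← sum_filter, ← sum_filter,
    sum_const, sum_const, nsmul_eq_mul, nsmul_eq_mul, ← sub_mul] at h6
  have h9 := (mul_eq_zero.1 h6).resolve_right hN0
  have h10 := sub_eq_zero.1 h9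
  exact_mod_cast h10

/-- Every entry of such a tuple has a partner. -/
theorem exists_partner {ι : Type*} [Fintype ι] [DecidableEq ι] (D : ι → ZMod N)
    (hD : ∀ x, D x ≠ 0) (hs : ∀ u : (ZMod N)ˣ, ∑ x, saw ((u : ZMod N) * D x) = 0) (hN2 : N ≠ 2)
    (x : ι) : ∃ y, y ≠ x ∧ D y = -D x := by
  have h := card_symm D hD hs (D x) (hD x)
  have h1 : 0 < (univ.filter fun y => D y = D x).card :=
    card_pos.2 ⟨x, by simp⟩
  rw [h] at h1
  obtain ⟨y, hy⟩ := card_pos.1 h1
  rw [mem_filter] at hy
  refine ⟨y, ?_, hy.2⟩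
  rintro rfl
  have h2 := hy.2
  apply hD y
  have h3 : (2 : ZMod N) * D y = 0 := by linear_combination h2
  rcases mul_eq_zero.1 h3 with h4 | h4
  · exfalso
    have h5 : ((2 : ℕ) : ZMod N) = 0 := by exact_mod_cast h4
    rw [ZMod.natCast_eq_zero_iff] at h5
    exact hN2 ((Nat.prime_dvd_prime_iff_eq hN.out Nat.prime_two).1 h5)
  · exact h4

/-- A relation of length two. -/
lemma eq_neg_of_saw {a b : ZMod N} (ha : a ≠ 0) (hb : b ≠ 0) (h : saw a + saw b = 0) : a = -b := by
  unfold saw at h
  rw [if_neg ha, if_neg hb] at h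
  have h1 : a.val + b.val = N := by omega
  have h2 : a + b = 0 := by
    rw [← ZMod.natCast_zmod_val a, ← ZMod.natCast_zmod_val b]
    have : ((a.val + b.val : ℕ) : ZMod N) = ((N : ℕ) : ZMod N) := by rw [h1]
    push_cast at this
    rw [this]
    simp
  linear_combination h2

end Pool.Agent.R927
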