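import Pool.Agent.R927.GB2

set_option autoImplicit false

/-!
Constant subbundles spanned by vectors of large weight: majorization of the weights.
-/

namespace Pool.Agent.R927

open Finset Pool.Agent.Y227.SS

section span

variable {K : Type*} [Field K] {n r : ℕ}

/-- A constant submodule which contains the vectors of the bases which belong to `J`. -/
lemma exists_span (P : Fin n → Matrix (Fin r) (Fin r) K) (hdet : ∀ j, (P j).det ≠ 0)
    (w : Fin n → Fin r → ℝ) (m : Fin n → ℝ) (hm : ∀ j l, m j ≤ w j l)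
    (J : Finset (Fin n × Fin r)) :
    ∃ (s : ℕ) (U : Matrix (Fin s) (Fin r) K), s ≤ J.card ∧ (0 < J.card → 0 < s) ∧
      (∃ J', (U.submatrix id J').det ≠ 0) ∧
      ∀ j (J' : Fin s → Fin r), ((U * P j).submatrix id J').det ≠ 0 →
        ∑ x ∈ J.filter (fun x => x.1 = j), (w j x.2 - m j) + s * m j ≤ ∑ i, w j (J' i) := by
  classical
  let V : Fin n × Fin r → (Fin r → K) := fun x => (P x.1)⁻¹ x.2
  have hV : ∀ x, Matrix.vecMul (V x) (P x.1) = Pi.single x.2 1 := by
    intro x
    have h1 : ((P x.1)⁻¹ * P x.1) = 1 := Matrix.nonsing_inv_mul _ (isUnit_iff_ne_zero.2 (hdet x.1))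
    ext l
    have h2 := congrFun (congrFun h1 x.2) l
    rw [Matrix.one_apply] at h2
    rw [Pi.single_apply]
    simp only [Matrix.mul_apply] at h2
    simp only [Matrix.vecMul, dotProduct, V]
    rw [h2]
    by_cases h : x.2 = l
    · rw [if_pos h, if_pos h.symm]
    · rw [if_neg h, if_neg (fun h' => h h'.symm)]
  set W : Submodule K (Fin r → K) := Submodule.span K ((J.image V : Finset (Fin r → K)) : Set _)
    with hW
  set s := Module.finrank K W with hs
  let b := Module.finBasis K W
  let U : Matrix (Fin s) (Fin r) K := Matrix.of fun i => (b i : Fin r → K)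
  have hVW : ∀ x ∈ J, V x ∈ W := fun x hx => Submodule.subset_span (by
    rw [mem_coe]
    exact mem_image_of_mem V hx)
  have hcomb : ∀ c : Fin s → K, Matrix.vecMul c U = ((∑ i, c i • b i : W) : Fin r → K) := by
    intro c
    ext l
    simp [Matrix.vecMul, dotProduct, U]
  have hind : ∀ c : Fin s → K, Matrix.vecMul c U = 0 → c = 0 := by
    intro c hc
    rw [hcomb] at hc
    have h1 : (∑ i, c i • b i : W) = 0 := Subtype.ext hc
    have h2 := Fintype.linearIndependent_iff.1 b.linearIndependent c h1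
    exact funext h2
  refine ⟨s, U, ?_, ?_, exists_minor U hind, ?_⟩
  · calc s ≤ (J.image V).card := finrank_span_finset_le_card (R := K) (J.image V)
      _ ≤ J.card := card_image_le
  · intro hJ
    obtain ⟨x, hx⟩ := card_pos.1 hJ
    have h1 : V x ≠ 0 := by
      intro h0
      have h2 := hV x
      rw [h0, Matrix.zero_vecMul] at h2
      have h3 := congrFun h2 x.2
      rw [Pi.zero_apply, Pi.single_eq_same] at h3
      exact zero_ne_one h3
    have : Nontrivial W := ⟨⟨⟨V x, hVW x hx⟩, 0, fun h => h1 (congrArg Subtype.val h)⟩⟩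
    exact Module.finrank_pos
  · intro j J' hJ'
    -- the columns which belong to `J` are among the columns of a nonzero minor
    have hinj : Function.Injective J' := by
      intro i i' hii
      by_contra hne
      exact hJ' (Matrix.det_zero_of_column_eq hne fun k => by simp [hii])
    have hmem : ∀ x ∈ J.filter (fun x => x.1 = j), x.2 ∈ univ.image J' := by
      intro x hx
      obtain ⟨hxJ, hxj⟩ := mem_filter.1 hx
      by_contra hcon
      have hne : ∀ i, J' i ≠ x.2 := fun i h => hcon (mem_image.2 ⟨i, mem_univ _, h⟩)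
      set c : Fin s → K := fun i => b.repr ⟨V x, hVW x hxJ⟩ i with hc
      have h1 : Matrix.vecMul c U = V x := by
        rw [hcomb]
        have h2 := b.sum_repr ⟨V x, hVW x hxJ⟩
        rw [hc, h2]
      have h3 : Matrix.vecMul c (U * P j) = Pi.single x.2 1 := by
        rw [← Matrix.vecMul_vecMul, h1, ← hxj]
        exact hV x
      have h4 : Matrix.vecMul c ((U * P j).submatrix id J') = 0 := by
        ext i
        have h5 := congrFun h3 (J' i)
        rw [Pi.single_eq_of_ne (hne i)] at h5
        rw [Pi.zero_apply, ← h5]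
        rfl
      have h6 : c ≠ 0 := by
        intro h0
        rw [h0, Matrix.zero_vecMul] at h3
        have h7 := congrFun h3 x.2
        rw [Pi.zero_apply, Pi.single_eq_same] at h7
        exact zero_ne_one h7
      exact hJ' (Matrix.exists_vecMul_eq_zero_iff.1 ⟨c, h6, h4⟩)
    set S := (J.filter (fun x => x.1 = j)).image Prod.snd with hS
    have hSsum : ∑ x ∈ J.filter (fun x => x.1 = j), (w j x.2 - m j) = ∑ l ∈ S, (w j l - m j) := by
      rw [hS, sum_image]
      intro x hx y hy hxy
      exact Prod.ext (by rw [(mem_filter.1 hx).2, (mem_filter.1 hy).2]) hxy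
    have hSsub : S ⊆ univ.image J' := by
      intro l hl
      obtain ⟨x, hx, rfl⟩ := mem_image.1 hl
      exact hmem x hx
    have h1 : ∑ i, w j (J' i) = ∑ l ∈ univ.image J', (w j l - m j) + s * m j := by
      rw [sum_image fun _ _ _ _ h => hinj h, sum_sub_distrib, sum_const, card_univ,
        Fintype.card_fin, nsmul_eq_mul]
      ring
    rw [h1, hSsum]
    have h2 : ∑ l ∈ S, (w j l - m j) ≤ ∑ l ∈ univ.image J', (w j l - m j) :=
      sum_le_sum_of_subset_of_nonneg hSsub fun l _ _ => sub_nonneg.2 (hm j l)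
    linarith

/-- **Majorization**: the sum of any weights at the finite points is at most a sum of the weights at
infinity. -/
theorem const_major {β : Fin n → K} {P : Fin n → Matrix (Fin r) (Fin r) K}
    {w : Fin n → Fin r → ℝ} {e : Fin r → ℝ} (hdet : ∀ j, (P j).det ≠ 0)
    (hst : Semistable β P w e) {st : Prop} (hs : st → Stable β P w e)
    (m : Fin n → ℝ) (hm : ∀ j l, m j ≤ w j l) (J : Finset (Fin n × Fin r)) :
    ∃ A : Finset (Fin r), A.card ≤ J.card ∧
      ∑ x ∈ J, (w x.1 x.2 - m x.1) + A.card * ∑ j, m j ≤ ∑ k ∈ A, e k ∧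
      (st → 0 < J.card → J.card < r →
        ∑ x ∈ J, (w x.1 x.2 - m x.1) + A.card * ∑ j, m j < ∑ k ∈ A, e k) := by
  classical
  obtain ⟨s, U, hsJ, hs0, ⟨J₁, hJ₁⟩, hU⟩ := exists_span P hdet w m hm J
  have hmul : ∀ j, U.map Polynomial.C * (P j).map Polynomial.C =
      (U * P j).map (Polynomial.C : K →+* Polynomial K) := fun j => by
    rw [Matrix.map_mul]
  let τ : Fin n → ℝ := fun j => ∑ x ∈ J.filter (fun x => x.1 = j), (w j x.2 - m j) + s * m j
  have hτ : ∀ j J', mnr (U.map Polynomial.C * (P j).map Polynomial.C) J' ≠ 0 →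
      τ j ≤ (mnr (U.map Polynomial.C * (P j).map Polynomial.C) J').rootMultiplicity (β j) +
        ∑ i, w j (J' i) := by
    intro j J' hJ'
    rw [hmul] at hJ' ⊢
    have h1 : ((U * P j).submatrix id J').det ≠ 0 := by
      intro h0
      apply hJ'
      have := mnr_C (U * P j) J'
      rw [h0, map_zero] at this
      exact this
    have hrm : (0 : ℝ) ≤ ((mnr ((U * P j).map (Polynomial.C : K →+* Polynomial K)) J').rootMultiplicity
      (β j) : ℝ) := Nat.cast_nonneg _
    have := hU j J' h1
    simp only [τ]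
    linarith
  have hne : ∃ J', mnr (U.map Polynomial.C) J' ≠ 0 := ⟨J₁, by
    rw [mnr_C]
    exact (Polynomial.C_ne_zero).2 hJ₁⟩
  have hτs : ∑ j, τ j = ∑ x ∈ J, (w x.1 x.2 - m x.1) + s * ∑ j, m j := by
    simp only [τ, sum_add_distrib, ← mul_sum]
    congr 1
    rw [← sum_fiberwise J (fun x => x.1) fun x => w x.1 x.2 - m x.1]
    refine sum_congr rfl fun j _ => sum_congr rfl fun x hx => ?_
    rw [(mem_filter.1 hx).2]
  have key : ∀ J', mnr (U.map Polynomial.C) J' ≠ 0 → (mnr (U.map Polynomial.C) J').natDegree = 0 ∧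
      (univ.image J').card = s ∧ ∑ i, e (J' i) = ∑ k ∈ univ.image J', e k := by
    intro J' hJ'
    have hJd : (U.submatrix id J').det ≠ 0 := by
      intro h0
      apply hJ'
      rw [mnr_C, h0, map_zero]
    have hinj : Function.Injective J' := by
      intro i i' hii
      by_contra hne
      exact hJd (Matrix.det_zero_of_column_eq hne fun k => by simp [hii])
    refine ⟨?_, ?_, ?_⟩
    · rw [mnr_C]
      exact Polynomial.natDegree_C _
    · rw [card_image_of_injective _ hinj, card_univ, Fintype.card_fin]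
    · rw [sum_image fun _ _ _ _ h => hinj h]
  by_cases hst' : st ∧ 0 < J.card ∧ J.card < r
  · obtain ⟨h1, h2, h3⟩ := hst'
    obtain ⟨J', hJ', hle⟩ := hs h1 s (hs0 h2) (by omega) (U.map Polynomial.C) hne τ hτ
    obtain ⟨k1, k2, k3⟩ := key J' hJ'
    rw [k1, k3, hτs, Nat.cast_zero, zero_add] at hle
    refine ⟨univ.image J', by rw [k2]; exact hsJ, ?_, fun _ _ _ => ?_⟩
    · rw [k2]
      exact hle.le
    · rw [k2]
      exact hle
  · obtain ⟨J', hJ', hle⟩ := hst s (U.map Polynomial.C) hne τ hτ
    obtain ⟨k1, k2, k3⟩ := key J' hJ'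
    rw [k1, k3, hτs, Nat.cast_zero, zero_add] at hle
    refine ⟨univ.image J', by rw [k2]; exact hsJ, ?_, fun a b c => absurd ⟨a, b, c⟩ hst'⟩
    rw [k2]
    exact hle

/-- the weights at infinity are at least the sum of the minimal weights at the finite points -/
theorem le_weight {β : Fin n → K} {P : Fin n → Matrix (Fin r) (Fin r) K}
    {w : Fin n → Fin r → ℝ} {e : Fin r → ℝ} (hst : Semistable β P w e) {st : Prop}
    (hs : st → Stable β P w e)
    (m : Fin n → ℝ) (hm : ∀ j l, m j ≤ w j l) (k : Fin r) :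
    ∑ j, m j ≤ e k ∧ (st → 1 < r → ∑ j, m j < e k) := by
  classical
  let U : Matrix (Fin 1) (Fin r) K := Matrix.of fun _ l => if l = k then 1 else 0
  have hdetU : ∀ J' : Fin 1 → Fin r, (U.submatrix id J').det = if J' 0 = k then 1 else 0 := by
    intro J'
    rw [Matrix.det_fin_one]
    rfl
  have hne : ∃ J', mnr (U.map Polynomial.C) J' ≠ 0 := ⟨fun _ => k, by
    rw [mnr_C, hdetU]
    simp⟩
  have hord : ∀ j J', mnr (U.map Polynomial.C * (P j).map Polynomial.C) J' ≠ 0 →
      m j ≤ (mnr (U.map Polynomial.C * (P j).map Polynomial.C) J').rootMultiplicity (β j) +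
        ∑ i, w j (J' i) := by
    intro j J' _
    have hrm : (0 : ℝ) ≤ ((mnr (U.map Polynomial.C * (P j).map Polynomial.C) J').rootMultiplicity
      (β j) : ℝ) := Nat.cast_nonneg _
    rw [Fin.sum_univ_one]
    have := hm j (J' 0)
    linarith
  have key : ∀ J', mnr (U.map Polynomial.C) J' ≠ 0 → J' 0 = k := by
    intro J' hJ'
    rw [mnr_C, hdetU] at hJ'
    by_contra h
    apply hJ'
    rw [if_neg h, map_zero]
  refine ⟨?_, fun h hr => ?_⟩
  · obtain ⟨J', hJ', hle⟩ := hst 1 (U.map Polynomial.C) hne m hord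
    rw [mnr_C, Polynomial.natDegree_C, Fin.sum_univ_one, key J' hJ', Nat.cast_zero,
      zero_add] at hle
    exact hle
  · obtain ⟨J', hJ', hle⟩ := hs h 1 one_pos hr (U.map Polynomial.C) hne m hord
    rw [mnr_C, Polynomial.natDegree_C, Fin.sum_univ_one, key J' hJ', Nat.cast_zero,
      zero_add] at hle
    exact hle

end span

end Pool.Agent.R927
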