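import Pool.Agent.R927.OK9
import Pool.Agent.R340.MI.Swap

set_option autoImplicit false

/-!
Majorization with any of the singular points in the role of infinity.
-/

namespace Pool.Agent.R927

open Finset Pool.Agent.Y227.SS Pool.Agent.TH571.PCV Pool.Agent.W280.PC
open Pool.Agent.W432.PC (HasExponents PCurvZeroAt CondII)

universe u

/-- the arithmetic of the irreducible case -/
theorem few_arith {n r : ℕ} {lam : Fin n → Fin r → ℚ} {phi : Fin r → ℚ} {t : Fin n → ℚ}
    {N B : ℕ} (hN : 0 < N) (hB : 0 < B) (hNB : N ∣ B) {e : Fin n → Fin r → ℤ} {e' : Fin r → ℤ}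
    (hl1 : ∀ j l, lam j l = (e j l : ℚ) / N + t j) (hp1 : ∀ l, phi l = (e' l : ℚ) / N + ∑ j, t j)
    (hr : 1 < r)
    (hmaj : ∀ a : ℤ, IsCoprime a (B : ℤ) →
      (univ.filter fun x : Fin n × Fin r => ¬ (N : ℤ) ∣ e x.1 x.2).card = r ∧
      (∀ k, ¬ (N : ℤ) ∣ e' k) ∧
      Major True (fun j l => (a * e j l) % N) (fun k => (a * e' k) % N))
    (h : nonint lam t < r ∨ (∃ k, (phi k - ∑ j, t j).den = 1) ∨ 0 ≤ excess lam phi t ∨
      ∃ j l, (lam j l - t j).den ≠ 1 ∧ ∀ k, (phi k - ∑ j, t j).den ≤ (lam j l - t j).den) :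
    False := by
  classical
  have : NeZero N := ⟨hN.ne'⟩
  have hNZ : (0 : ℤ) < N := by exact_mod_cast hN
  have hcard := nonint_eq hN hl1
  rw [hcard] at h
  have hlt : ∀ j l, lam j l - t j = (e j l : ℚ) / N := fun j l => by
    rw [hl1, add_sub_cancel_right]
  have hpt : ∀ k, phi k - ∑ j, t j = (e' k : ℚ) / N := fun k => by
    rw [hp1, add_sub_cancel_right]
  obtain ⟨h1, h2, -⟩ := hmaj 1 isCoprime_one_left
  rcases h with h | ⟨k, hk⟩ | h | ⟨j, l, hjl, hmax⟩
  · exact absurd h1 h.ne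
  · rw [hpt] at hk
    exact h2 k ((den_div hN _).1 hk)
  · have hne : (univ.filter fun x : Fin n × Fin r => ¬ (N : ℤ) ∣ e x.1 x.2).Nonempty := by
      rw [← card_pos, h1]
      omega
    obtain ⟨x, hx⟩ := hne
    have hx' := (mem_filter.1 hx).2
    have hneg : ∀ u : (ZMod N)ˣ, Phi2 N e e' (((u : ZMod N).val : ℕ) : ℤ) < 0 := by
      intro u
      have hc : IsCoprime (((u : ZMod N).val : ℕ) : ℤ) (N : ℤ) :=
        Nat.isCoprime_iff_coprime.2 (ZMod.val_coe_unit_coprime u)
      obtain ⟨a, ha, hd⟩ := lift_coprime hB hNB hc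
      rw [← Phi2_congr e e' hd]
      have haN : IsCoprime a (N : ℤ) := ha.of_isCoprime_of_dvd_right
        (Int.natCast_dvd_natCast.2 hNB)
      exact (Phi2_of_major hN e e' a (hmaj a ha).2.2).2 trivial hr
        ⟨x.1, x.2, fun h' => hx' (haN.symm.dvd_of_dvd_mul_left h')⟩
    have h4 : ∑ u : (ZMod N)ˣ, Phi2 N e e' (((u : ZMod N).val : ℕ) : ℤ) < 0 :=
      sum_neg (fun u _ => hneg u) univ_nonempty
    have h5 := sum_Phi2 e e' lam phi t hl1 hp1
    have h6 : ((∑ u : (ZMod N)ˣ, Phi2 N e e' (((u : ZMod N).val : ℕ) : ℤ) : ℤ) : ℚ) < 0 := by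
      exact_mod_cast h4
    have h7 : (0 : ℚ) ≤ (N.totient : ℚ) * (N : ℚ) ^ 2 * excess lam phi t := by positivity
    linarith
  · obtain ⟨a, ha, htop⟩ := exists_top hB hN hNB (e j l)
    obtain ⟨-, -, h3⟩ := hmaj a ha
    rw [hlt] at hjl hmax
    have hd2 : 1 < ((e j l : ℚ) / N).den :=
      lt_of_le_of_ne (Nat.succ_le_of_lt (Rat.den_pos _)) (Ne.symm hjl)
    have hx0 : 0 < (a * e j l) % N := by
      have h5 := Int.emod_nonneg (a * e j l) hNZ.ne'
      refine lt_of_le_of_ne h5 fun h0 => ?_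
      rw [← h0, mul_zero] at htop
      have h6 : (0 : ℤ) < N * ((((e j l : ℚ) / N).den : ℤ) - 1) :=
        mul_pos hNZ (by
          have : (1 : ℤ) < (((e j l : ℚ) / N).den : ℤ) := by exact_mod_cast hd2
          linarith)
      linarith
    obtain ⟨k, -, hk⟩ := h3.single j l hx0
    have h7 := hmax k
    rw [hpt] at h7
    exact top_lt htop (den_mul_mod_le hN a (e' k)) (by exact_mod_cast h7)
      (by exact_mod_cast Rat.den_pos _) (Int.emod_lt_of_pos _ hNZ) (hk trivial hr)

lemma WData.to_stable {K : Type*} [Field K] {n r : ℕ} {x : Fin n → Fin r → ℝ} {y : Fin r → ℝ}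
    (h : WData True K x y) : StableWeights K x y := by
  obtain ⟨β, P, w, e, h1, h2, h3, h4, h5, h6, h7, h8⟩ := h
  exact ⟨β, P, w, e, h1, h2, h3, h4, h5, h6, h7, h8 trivial⟩

section swap

variable {n r : ℕ}

/-- the exponents after the exchange of `α j0` and infinity -/
def swE {Z : Type*} [Neg Z] (j0 : Fin n) (e : Fin n → Fin r → Z) (e' : Fin r → Z) :
    Fin n → Fin r → Z := Function.update e j0 (fun l => -e' l)

lemma swapped_wdata (N : ℕ) (a s : ℤ) (j0 : Fin n) (e : Fin n → Fin r → ℤ) (e' : Fin r → ℤ)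
    (hw : WData True ℂ (fun j l => ((a * (2 * e j l + Function.update (fun _ => s) j0
        (-(n * s)) j) : ℤ) : ℝ) / ((2 * N : ℕ) : ℝ))
      (fun l => ((a * (2 * e' l + ∑ j : Fin n, Function.update (fun _ => s) j0 (-(n * s)) j) : ℤ) :
        ℝ) / ((2 * N : ℕ) : ℝ))) :
    WData True ℂ (fun j l => ((a * (2 * swE j0 e e' j l + s) : ℤ) : ℝ) / ((2 * N : ℕ) : ℝ))
      (fun l => ((a * (2 * (-e j0 l) + ∑ _j : Fin n, s) : ℤ) : ℝ) / ((2 * N : ℕ) : ℝ)) := by
  classical
  have h1 := WData.of_stable (Pool.Agent.R340.MI.stableWeights_swap hw.to_stable j0)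
  have hs : ∑ j : Fin n, Function.update (fun _ => s) j0 (-(n * s)) j = -s := by
    rw [sum_update_of_mem (mem_univ j0), sum_const, card_sdiff_of_subset (subset_univ _),
      card_univ, Fintype.card_fin, card_singleton, nsmul_eq_mul]
    have : 1 ≤ n := by
      have := j0.2
      omega
    push_cast [Nat.cast_sub this]
    ring
  have h2 : (Function.update (fun j l => ((a * (2 * e j l + Function.update (fun _ => s) j0
      (-(n * s)) j) : ℤ) : ℝ) / ((2 * N : ℕ) : ℝ)) j0
      (fun l => -(((a * (2 * e' l + ∑ j : Fin n, Function.update (fun _ => s) j0 (-(n * s)) j) : ℤ) :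
        ℝ) / ((2 * N : ℕ) : ℝ)))) =
      fun j l => ((a * (2 * swE j0 e e' j l + s) : ℤ) : ℝ) / ((2 * N : ℕ) : ℝ) := by
    ext j l
    by_cases hj : j = j0
    · subst hj
      rw [Function.update_self, hs]
      unfold swE
      rw [Function.update_self]
      push_cast
      ring
    · rw [Function.update_of_ne hj]
      unfold swE
      rw [Function.update_of_ne hj, Function.update_of_ne hj]
  have h3 : (fun l => -((fun j l => ((a * (2 * e j l + Function.update (fun _ => s) j0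
      (-(n * s)) j) : ℤ) : ℝ) / ((2 * N : ℕ) : ℝ)) j0 l)) =
      fun l => ((a * (2 * (-e j0 l) + ∑ _j : Fin n, s) : ℤ) : ℝ) / ((2 * N : ℕ) : ℝ) := by
    ext l
    simp only [Function.update_self, sum_const, card_univ, Fintype.card_fin, nsmul_eq_mul]
    push_cast
    ring
  rw [h2, h3] at h1
  exact h1

end swap

section systems

variable {R : Type u} [CommRing R] [IsDomain R] [CharZero R] [Algebra.FiniteType ℤ R] {n r : ℕ}

/-- Majorization, with `α j0` in the role of infinity. -/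
theorem sys_major_swap (α : Fin n → R) (hα : ∀ i j, i ≠ j → IsUnit (α i - α j))
    (A : Fin n → Matrix (Fin r) (Fin r) R) (N : ℕ) (hN : 0 < N) (b : ℕ) (hb : 0 < b)
    (t : Fin n → ℤ) (e : Fin n → Fin r → ℤ)
    (e' : Fin r → ℤ) (hlam : ∀ j, HasExponents (A j) (fun l => (e j l : ℚ) / N + (t j : ℚ) / b))
    (hphi : HasExponents (∑ j, A j) (fun l => (e' l : ℚ) / N + ((∑ j, t j : ℤ) : ℚ) / b))
    (a : ℤ) (ha : IsCoprime a ((2 * N * b : ℕ) : ℤ)) (j0 : Fin n)
    (hfew : (univ.filter fun x : Fin n × Fin r => ¬ (N : ℤ) ∣ swE j0 e e' x.1 x.2).card ≤ r)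
    (hirr : AbsIrreducible α A) (hinf : DenseZero α A (2 * N * b) a) (hr : 1 < r) :
    (univ.filter fun x : Fin n × Fin r => ¬ (N : ℤ) ∣ swE j0 e e' x.1 x.2).card = r ∧
      (∀ k, ¬ (N : ℤ) ∣ -e j0 k) ∧
      Major True (fun j l => (a * swE j0 e e' j l) % N) (fun k => (a * (-e j0 k)) % N) := by
  classical
  have haN2 : IsCoprime a ((2 * N : ℕ) : ℤ) := ha.of_isCoprime_of_dvd_right (by
    exact_mod_cast Dvd.intro b rfl)
  have haN : IsCoprime a (N : ℤ) := haN2.of_isCoprime_of_dvd_right (by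
    exact_mod_cast Dvd.intro_left 2 rfl)
  obtain ⟨s, v, hsv⟩ := haN2
  have has : a * s = 1 + 2 * N * (-v) := by
    push_cast at hsv
    linear_combination hsv
  have hlam' : ∀ j, HasExponents (-(A j).transpose)
      (fun l => ((-e j l : ℤ) : ℚ) / N + ((-t j : ℤ) : ℚ) / b) := fun j =>
    hasExponents_dual' (hlam j)
  have hphi' : HasExponents (∑ j, -(A j).transpose)
      (fun l => ((-e' l : ℤ) : ℚ) / N + ((∑ j, -t j : ℤ) : ℚ) / b) := by
    have h1 := hasExponents_dual' hphi
    have h2 : ∑ j, -(A j).transpose = -(∑ j, A j).transpose := by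
      rw [Matrix.transpose_sum, ← sum_neg_distrib]
    rw [h2, sum_neg_distrib]
    exact h1
  obtain ⟨F, hF1, hF2, hF3⟩ := single_mult N hN a s (-v) has (swE j0 e e') (fun l => -e j0 l)
    (swapped_wdata N a s j0 e e'
      (wdata_stable α hα A N hN b hb t e e' hlam hphi hirr a hinf
        (Function.update (fun _ => s) j0 (-(n * s)))))
  have hw' := swapped_wdata N a s j0 (fun j l => -e j l) (fun l => -e' l)
    (wdata_stable α hα (fun j => -(A j).transpose) N hN b hb (fun j => -t j)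
      (fun j l => -e j l) (fun l => -e' l) hlam' hphi' (absIrreducible_dual hirr) a hinf.dual
      (Function.update (fun _ => s) j0 (-(n * s))))
  have hsw : swE j0 (fun j l => -e j l) (fun l => -e' l) = fun j l => -swE j0 e e' j l := by
    ext j l
    unfold swE
    by_cases hj : j = j0
    · subst hj
      rw [Function.update_self, Function.update_self]
    · rw [Function.update_of_ne hj, Function.update_of_ne hj]
  rw [hsw] at hw'
  obtain ⟨F', hF1', hF2', hF3'⟩ := single_mult N hN a s (-v) has (fun j l => -swE j0 e e' j l)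
    (fun l => -(-e j0 l)) hw'
  exact major_of True True N hN a haN (swE j0 e e') (fun l => -e j0 l) F F' hF1 hF2 hF3 hF1' hF2'
    hF3' hfew (Or.inr ⟨trivial, trivial, hr⟩)

/-- Irreducible systems with few exponents away from the finite point `α j0`. The exponents are
`swE j0 lam phi` at the points other than `α j0` and `-lam j0` at `α j0`. -/
theorem few_irr_swap (α : Fin n → R) (hα : ∀ i j, i ≠ j → IsUnit (α i - α j))
    (A : Fin n → Matrix (Fin r) (Fin r) R) (lam : Fin n → Fin r → ℚ) (phi : Fin r → ℚ)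
    (hlam : ∀ j, HasExponents (A j) (lam j)) (hphi : HasExponents (∑ j, A j) phi)
    (hirr : AbsIrreducible α A) (hr : 1 < r) (j0 : Fin n) (t : Fin n → ℚ)
    (hfew : nonint (swE j0 lam phi) t ≤ r)
    (h : nonint (swE j0 lam phi) t < r ∨ (∃ k, (-lam j0 k - ∑ j, t j).den = 1) ∨
      0 ≤ excess (swE j0 lam phi) (fun k => -lam j0 k) t ∨
      ∃ j l, (swE j0 lam phi j l - t j).den ≠ 1 ∧
        ∀ k, (-lam j0 k - ∑ j, t j).den ≤ (swE j0 lam phi j l - t j).den) :
    BadSome α A := by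
  classical
  by_contra hcon
  set t' : Fin n → ℚ := Function.update t j0 (-∑ j, t j) with ht'
  have hts : ∑ j, t' j = -t j0 := by
    rw [ht', sum_update_of_mem (mem_univ j0), sdiff_singleton_eq_erase,
      ← add_sum_erase univ t (mem_univ j0)]
    ring
  obtain ⟨N, hN, hNlam, hNphi⟩ := exists_clear lam phi t'
  have : NeZero N := ⟨hN.ne'⟩
  have hNZ : (0 : ℤ) < N := by exact_mod_cast hN
  have hNQ : (N : ℚ) ≠ 0 := by exact_mod_cast hN.ne'
  obtain ⟨b, T, e, e', hb, hT, hl1, hp1, hlam', hphi', hsum⟩ :=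
    exists_data A lam phi hlam hphi t' N hN hNlam hNphi
  have hB : 0 < 2 * N * b := Nat.mul_pos (by omega) hb
  have hNB : N ∣ 2 * N * b := ⟨2 * b, by ring⟩
  have hl2 : ∀ j l, swE j0 lam phi j l = ((swE j0 e e' j l : ℤ) : ℚ) / N + t j := by
    intro j l
    unfold swE
    by_cases hj : j = j0
    · subst hj
      rw [Function.update_self, Function.update_self, hp1, hts]
      push_cast
      ring
    · rw [Function.update_of_ne hj, Function.update_of_ne hj, hl1, ht', Function.update_of_ne hj]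
  have hp2 : ∀ l, (fun k => -lam j0 k) l = (((fun k => -e j0 k) l : ℤ) : ℚ) / N + ∑ j, t j := by
    intro l
    simp only
    rw [hl1, ht', Function.update_self]
    push_cast
    ring
  have hinf : ∀ a : ℤ, IsCoprime a ((2 * N * b : ℕ) : ℤ) → DenseZero α A (2 * N * b) a := by
    intro a ha g hg P₀
    by_contra h
    apply hcon
    refine ⟨2 * N * b, a, hB, ha, g, hg, P₀, fun p hp hpP hap 𝔪 h𝔪 hpm hgm hpc => h ?_⟩
    exact ⟨p, hp, hpP, hap, 𝔪, h𝔪, hpm, hgm, hpc⟩
  have hfew' := hfew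
  rw [nonint_eq hN hl2] at hfew'
  exact few_arith hN hB hNB hl2 hp2 hr (fun a ha => sys_major_swap α hα A N hN b hb T e e' hlam'
    hphi' a ha j0 hfew' hirr (hinf a ha) hr) h

end systems

end Pool.Agent.R927
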