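import Pool.Agent.R927.OK1

set_option autoImplicit false

/-!
Majorization for integers.
-/

namespace Pool.Agent.R927

open Finset Pool.Agent.Y227.SS

/-- the majorization inequalities for integers -/
theorem int_major {st : Prop} {n r : ℕ} (D : ℕ) (hD : 0 < D) (X : Fin n → Fin r → ℤ)
    (E' : Fin r → ℤ)
    (hst : WData st ℂ (fun j l => (X j l : ℝ) / D) (fun l => (E' l : ℝ) / D))
    (hX0 : ∀ j l, ¬ (D : ℤ) ∣ X j l) :
    ∃ E : Fin r → ℤ, (∀ k, ∃ m : ℤ, E k = E' k + D * m) ∧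
      ∑ j, ∑ l, X j l % D = ∑ k, E k ∧ (∀ k, (n : ℤ) ≤ E k ∧ (st → 1 < r → (n : ℤ) < E k)) ∧
      ∀ J : Finset (Fin n × Fin r), ∃ A : Finset (Fin r), A.card ≤ J.card ∧
        ∑ x ∈ J, (X x.1 x.2 % D - 1) + A.card * (n : ℤ) ≤ ∑ k ∈ A, E k ∧
        (st → 0 < J.card → J.card < r →
          ∑ x ∈ J, (X x.1 x.2 % D - 1) + A.card * (n : ℤ) < ∑ k ∈ A, E k) := by
  classical
  obtain ⟨β, P, w, e, _, hdet, hw, hwx, hey, hsum, hss, hst⟩ := hst
  choose σ hσ using hwx
  choose m hm using hσ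
  obtain ⟨σ', hσ'⟩ := hey
  choose m' hm' using hσ'
  have hDR : (0 : ℝ) < D := by exact_mod_cast hD
  have hD0 : (D : ℝ) ≠ 0 := hDR.ne'
  have hDZ : (0 : ℤ) < D := by exact_mod_cast hD
  let W : Fin n → Fin r → ℤ := fun j l => X j (σ j l) + D * m j l
  let E : Fin r → ℤ := fun l => E' (σ' l) + D * m' l
  have hW : ∀ j l, (D : ℝ) * w j l = W j l := by
    intro j l
    rw [hm j l]
    simp only [W]
    push_cast
    field_simp
  have hE : ∀ l, (D : ℝ) * e l = E l := by
    intro l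
    rw [hm' l]
    simp only [E]
    push_cast
    field_simp
  have hW0 : ∀ j l, W j l = X j (σ j l) % D := by
    intro j l
    have h1 : (0 : ℝ) ≤ W j l := by
      rw [← hW]
      exact mul_nonneg hDR.le (hw j l).1
    have h2 : (W j l : ℝ) ≤ D := by
      rw [← hW]
      calc (D : ℝ) * w j l ≤ D * 1 := mul_le_mul_of_nonneg_left (hw j l).2 hDR.le
        _ = D := mul_one _
    have h1' : 0 ≤ W j l := by exact_mod_cast h1
    have h2' : W j l ≤ D := by exact_mod_cast h2
    have h3 : W j l ≠ D := by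
      intro h
      apply hX0 j (σ j l)
      refine ⟨1 - m j l, ?_⟩
      simp only [W] at h
      linarith
    have h4 : W j l % D = X j (σ j l) % D := by
      simp only [W]
      rw [Int.add_mul_emod_self_left]
    rw [← h4]
    exact (Int.emod_eq_of_lt h1' (lt_of_le_of_ne h2' h3)).symm
  have hW1 : ∀ j l, 1 ≤ W j l := by
    intro j l
    rw [hW0]
    have h1 := Int.emod_nonneg (X j (σ j l)) hDZ.ne'
    have h2 : X j (σ j l) % D ≠ 0 := fun h => hX0 j (σ j l) (Int.dvd_of_emod_eq_zero h)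
    omega
  have hmw : ∀ j l, (1 / D : ℝ) ≤ w j l := by
    intro j l
    rw [div_le_iff₀ hDR, mul_comm, hW]
    exact_mod_cast hW1 j l
  have hsm : (D : ℝ) * ∑ _j : Fin n, (1 / D : ℝ) = n := by
    rw [sum_const, card_univ, Fintype.card_fin, nsmul_eq_mul]
    field_simp
  refine ⟨fun k => E (σ'.symm k), fun k => ⟨m' (σ'.symm k), ?_⟩, ?_, fun k => ?_, fun J => ?_⟩
  · simp only [E]
    rw [Equiv.apply_symm_apply]
  · have h1 : ((∑ j, ∑ l, W j l : ℤ) : ℝ) = ((∑ i, E i : ℤ) : ℝ) := by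
      push_cast
      have h2 : ∑ i, (E i : ℝ) = D * ∑ j, ∑ l, w j l := by
        rw [hsum, mul_sum]
        exact sum_congr rfl fun i _ => (hE i).symm
      rw [h2, mul_sum]
      refine sum_congr rfl fun j _ => ?_
      rw [mul_sum]
      exact sum_congr rfl fun l _ => (hW j l).symm
    have h2 : ∑ j, ∑ l, W j l = ∑ i, E i := by exact_mod_cast h1
    rw [Equiv.sum_comp σ'.symm E, ← h2]
    refine sum_congr rfl fun j _ => ?_
    rw [← Equiv.sum_comp (σ j) fun l => X j l % D]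
    exact sum_congr rfl fun l _ => (hW0 j l).symm
  · obtain ⟨h1, h3⟩ := le_weight hss hst (fun _ => (1 / D : ℝ)) hmw (σ'.symm k)
    refine ⟨?_, fun ht hr => ?_⟩
    · have h2 := mul_le_mul_of_nonneg_left h1 hDR.le
      rw [hsm, hE] at h2
      exact_mod_cast h2
    · have h2 := mul_lt_mul_of_pos_left (h3 ht hr) hDR
      rw [hsm, hE] at h2
      exact_mod_cast h2
  · set J' : Finset (Fin n × Fin r) := J.image fun x => (x.1, (σ x.1).symm x.2) with hJ'
    have hinj : Set.InjOn (fun x : Fin n × Fin r => (x.1, (σ x.1).symm x.2)) J := by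
      intro x _ y _ hxy
      simp only [Prod.mk.injEq] at hxy
      obtain ⟨h1, h2⟩ := hxy
      rw [h1] at h2
      exact Prod.ext h1 ((σ y.1).symm.injective h2)
    have hcard : J'.card = J.card := card_image_of_injOn hinj
    have hsumJ : (D : ℝ) * ∑ x ∈ J', (w x.1 x.2 - 1 / D) =
        ((∑ x ∈ J, (X x.1 x.2 % D - 1) : ℤ) : ℝ) := by
      rw [hJ', sum_image hinj, mul_sum]
      push_cast
      refine sum_congr rfl fun x _ => ?_
      rw [mul_sub, hW, mul_one_div_cancel hD0, hW0, Equiv.apply_symm_apply]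
    obtain ⟨A, hA, h1, h2⟩ := const_major hdet hss hst (fun _ => (1 / D : ℝ)) hmw J'
    have hsumA : (D : ℝ) * ∑ k ∈ A, e k =
        ((∑ k ∈ A.image σ', E (σ'.symm k) : ℤ) : ℝ) := by
      rw [sum_image fun _ _ _ _ h => σ'.injective h, mul_sum]
      push_cast
      refine sum_congr rfl fun k _ => ?_
      rw [hE, Equiv.symm_apply_apply]
    have hcA : (A.image σ').card = A.card := card_image_of_injective _ σ'.injective
    have hl : (D : ℝ) * (∑ x ∈ J', (w x.1 x.2 - 1 / D) + A.card * ∑ _j : Fin n, (1 / D : ℝ)) =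
        ((∑ x ∈ J, (X x.1 x.2 % D - 1) + A.card * (n : ℤ) : ℤ) : ℝ) := by
      rw [mul_add, hsumJ, mul_left_comm, hsm]
      push_cast
      rfl
    refine ⟨A.image σ', by rw [hcA, ← hcard]; exact hA, ?_, fun ht hJ0 hJr => ?_⟩
    · rw [hcA]
      have h3 := mul_le_mul_of_nonneg_left h1 hDR.le
      rw [hl, hsumA] at h3
      exact_mod_cast h3
    · rw [hcA]
      have h3 := mul_lt_mul_of_pos_left (h2 ht (by rw [hcard]; exact hJ0)
        (by rw [hcard]; exact hJr)) hDR
      rw [hl, hsumA] at h3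
      exact_mod_cast h3

end Pool.Agent.R927
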