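import Pool.Agent.R927.OK2

set_option autoImplicit false

/-!
Majorization for one multiplier.
-/

namespace Pool.Agent.R927

open Finset Pool.Agent.Y227.SS

/-- The numbers `x j l` and `z k` have the same sum, and the sum of any set of the `x j l` is at most
the sum of a set of at most as many of the `z k` (strictly smaller, if `st` holds and the set has
more than `0` and less than `r` elements). -/
def Major {n r : ℕ} (st : Prop) (x : Fin n → Fin r → ℤ) (z : Fin r → ℤ) : Prop :=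
  ∑ j, ∑ l, x j l = ∑ k, z k ∧
    ∀ J : Finset (Fin n × Fin r), ∃ A : Finset (Fin r), A.card ≤ J.card ∧
      ∑ i ∈ J, x i.1 i.2 ≤ ∑ k ∈ A, z k ∧
      (st → 0 < J.card → J.card < r → ∑ i ∈ J, x i.1 i.2 < ∑ k ∈ A, z k)

variable {n r : ℕ}

lemma odd_mod {N : ℤ} (hN : 0 < N) (y : ℤ) : (2 * y + 1) % (2 * N) = 2 * (y % N) + 1 := by
  have h1 := Int.emod_nonneg y hN.ne'
  have h2 := Int.emod_lt_of_pos y hN
  have h3 : 2 * y + 1 = 2 * (y % N) + 1 + 2 * N * (y / N) := by
    have := Int.emod_add_mul_ediv y N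
    linear_combination -2 * this
  rw [h3, Int.add_mul_emod_self_left]
  exact Int.emod_eq_of_lt (by omega) (by omega)

/-- The majorization for one multiplier, with unspecified representatives at infinity. -/
lemma single_mult {st : Prop} (N : ℕ) (hN : 0 < N) (a s q : ℤ) (has : a * s = 1 + 2 * N * q)
    (e : Fin n → Fin r → ℤ) (e' : Fin r → ℤ)
    (hw : WData st ℂ (fun j l => ((a * (2 * e j l + s) : ℤ) : ℝ) / ((2 * N : ℕ) : ℝ))
      (fun l => ((a * (2 * e' l + ∑ _j : Fin n, s) : ℤ) : ℝ) / ((2 * N : ℕ) : ℝ))) :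
    ∃ F : Fin r → ℤ, (∀ k, ∃ m : ℤ, F k = a * e' k + N * m) ∧
      (∀ k, 0 ≤ F k ∧ (st → 1 < r → 0 < F k)) ∧
      Major st (fun j l => (a * e j l) % N) F := by
  have hNZ : (0 : ℤ) < N := by exact_mod_cast hN
  have hX : ∀ j l, a * (2 * e j l + s) = (2 * (a * e j l) + 1) + ((2 * N : ℕ) : ℤ) * q := by
    intro j l
    push_cast
    linear_combination has
  have hmod : ∀ j l, (a * (2 * e j l + s)) % ((2 * N : ℕ) : ℤ) = 2 * ((a * e j l) % N) + 1 := by
    intro j l
    rw [hX, Int.add_mul_emod_self_left]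
    push_cast
    exact odd_mod hNZ _
  obtain ⟨E, hE, hsum, hpos, hJ⟩ := int_major (2 * N) (by omega)
    (fun j l => a * (2 * e j l + s)) (fun l => a * (2 * e' l + ∑ _j : Fin n, s)) hw (by
      intro j l hdvd
      have h1 := Int.emod_eq_zero_of_dvd hdvd
      rw [hmod] at h1
      omega)
  simp only [hmod] at hsum hJ
  choose m hm using hE
  set F : Fin r → ℤ := fun k => a * e' k + N * (n * q + m k) with hF
  have hEF : ∀ k, E k = 2 * F k + n := by
    intro k
    rw [hm k, sum_const, card_univ, Fintype.card_fin, nsmul_eq_mul]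
    simp only [hF]
    push_cast
    linear_combination (n : ℤ) * has
  refine ⟨F, fun k => ⟨n * q + m k, rfl⟩, fun k => ⟨?_, fun h1 h2 => ?_⟩, ?_, fun J => ?_⟩
  · have := (hpos k).1
    rw [hEF] at this
    linarith
  · have := (hpos k).2 h1 h2
    rw [hEF] at this
    linarith
  · simp only [hEF, sum_add_distrib, sum_const, card_univ, Fintype.card_fin, nsmul_eq_mul,
      ← mul_sum, mul_one] at hsum
    have h1 : (n : ℤ) * r = r * n := mul_comm _ _
    linarith
  · obtain ⟨A, hA, h1, h2⟩ := hJ J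
    have h3 : ∑ i ∈ J, (2 * ((a * e i.1 i.2) % (N : ℤ)) + 1 - 1) =
        2 * ∑ i ∈ J, (a * e i.1 i.2) % (N : ℤ) := by
      rw [mul_sum]
      exact sum_congr rfl fun i _ => by ring
    have h4 : ∑ k ∈ A, E k = 2 * ∑ k ∈ A, F k + A.card * n := by
      simp only [hEF, sum_add_distrib, sum_const, nsmul_eq_mul, ← mul_sum]
    rw [h3, h4] at h1 h2
    refine ⟨A, hA, ?_, fun a1 a2 a3 => ?_⟩
    · linarith
    · have := h2 a1 a2 a3
      linarith

lemma mod_add_neg_mod {N : ℤ} (hN : 0 < N) (z : ℤ) :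
    z % N + (-z) % N = if N ∣ z then 0 else N := by
  have h1 := Int.emod_nonneg z hN.ne'
  have h2 := Int.emod_lt_of_pos z hN
  have h3 := Int.emod_nonneg (-z) hN.ne'
  have h4 := Int.emod_lt_of_pos (-z) hN
  by_cases h : N ∣ z
  · rw [if_pos h, Int.emod_eq_zero_of_dvd h, Int.emod_eq_zero_of_dvd ((dvd_neg).2 h), add_zero]
  · rw [if_neg h]
    have h5 : z % N ≠ 0 := fun h' => h (Int.dvd_of_emod_eq_zero h')
    have h6 : N ∣ z % N + (-z) % N := by
      have k1 : N ∣ z % N - z := Int.dvd_emod_sub_self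
      have k2 : N ∣ (-z) % N - (-z) := Int.dvd_emod_sub_self
      have k3 := dvd_add k1 k2
      have k4 : z % N - z + ((-z) % N - (-z)) = z % N + (-z) % N := by ring
      rwa [k4] at k3
    obtain ⟨c, hc⟩ := h6
    have h7 : 0 < N * c := by omega
    have h8 : N * c < N * 2 := by omega
    have h9 : 0 < c := by
      by_contra hcon
      have : N * c ≤ 0 := mul_nonpos_of_nonneg_of_nonpos hN.le (not_lt.1 hcon)
      omega
    have h10 : c < 2 := lt_of_mul_lt_mul_left h8 hN.le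
    have h11 : c = 1 := by omega
    rw [hc, h11, mul_one]

/-- **Majorization for one multiplier.** -/
theorem major_of (st st' : Prop) (N : ℕ) (hN : 0 < N) (a : ℤ) (ha : IsCoprime a (N : ℤ))
    (e : Fin n → Fin r → ℤ) (e' F F' : Fin r → ℤ)
    (hF : ∀ k, ∃ m : ℤ, F k = a * e' k + N * m) (hF0 : ∀ k, 0 ≤ F k ∧ (st → 1 < r → 0 < F k))
    (hM : Major st (fun j l => (a * e j l) % N) F)
    (hF' : ∀ k, ∃ m : ℤ, F' k = a * (-e' k) + N * m)
    (hF0' : ∀ k, 0 ≤ F' k ∧ (st' → 1 < r → 0 < F' k))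
    (hM' : Major st' (fun j l => (a * (-e j l)) % N) F')
    (hfew : (univ.filter fun x : Fin n × Fin r => ¬ (N : ℤ) ∣ e x.1 x.2).card ≤ r)
    (hpos : (∀ k, ¬ (N : ℤ) ∣ e' k) ∨ (st ∧ st' ∧ 1 < r)) :
    (univ.filter fun x : Fin n × Fin r => ¬ (N : ℤ) ∣ e x.1 x.2).card = r ∧
      (∀ k, ¬ (N : ℤ) ∣ e' k) ∧
      Major st (fun j l => (a * e j l) % N) (fun k => (a * e' k) % N) := by
  have hNZ : (0 : ℤ) < N := by exact_mod_cast hN
  have hF1 : ∀ k, ¬ (N : ℤ) ∣ e' k → F k % N ≠ 0 := by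
    intro k hk h0
    obtain ⟨m, hm⟩ := hF k
    apply hk
    rw [hm, Int.add_mul_emod_self_left] at h0
    exact ha.symm.dvd_of_dvd_mul_left (Int.dvd_of_emod_eq_zero h0)
  have hpos' : ∀ k, 0 < F k ∧ 0 < F' k := by
    intro k
    rcases hpos with h | ⟨h1, h2, h3⟩
    · refine ⟨lt_of_le_of_ne (hF0 k).1 fun h0 => hF1 k (h k) (by rw [← h0]; simp),
        lt_of_le_of_ne (hF0' k).1 fun h0 => ?_⟩
      obtain ⟨m, hm⟩ := hF' k
      apply h k
      have h4 : (N : ℤ) ∣ a * e' k := ⟨m, by rw [← h0] at hm; linarith⟩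
      exact ha.symm.dvd_of_dvd_mul_left h4
    · exact ⟨(hF0 k).2 h1 h3, (hF0' k).2 h2 h3⟩
  have hNle : ∀ k, (N : ℤ) ≤ F k + F' k := by
    intro k
    obtain ⟨m, hm⟩ := hF k
    obtain ⟨m', hm'⟩ := hF' k
    have h1 : F k + F' k = N * (m + m') := by rw [hm, hm']; ring
    have h2 : 0 < (N : ℤ) * (m + m') := by
      rw [← h1]
      linarith [(hpos' k).1, (hpos' k).2]
    have h3 : 0 < m + m' := by
      by_contra hcon
      have := mul_nonpos_of_nonneg_of_nonpos hNZ.le (not_lt.1 hcon)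
      linarith
    rw [h1]
    nlinarith
  have hcount : ∑ k, (F k + F' k) =
      N * ((univ.filter fun x : Fin n × Fin r => ¬ (N : ℤ) ∣ e x.1 x.2).card : ℤ) := by
    rw [sum_add_distrib, ← hM.1, ← hM'.1, ← sum_add_distrib]
    simp only [← sum_add_distrib]
    have h1 : ∀ j l, (a * e j l) % (N : ℤ) + (a * (-e j l)) % (N : ℤ) =
        if ¬ (N : ℤ) ∣ e j l then (N : ℤ) else 0 := by
      intro j l
      rw [mul_neg, mod_add_neg_mod hNZ]
      by_cases h : (N : ℤ) ∣ e j l
      · rw [if_pos (h.mul_left a), if_neg (not_not.2 h)]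
      · rw [if_neg (fun h' => h (ha.symm.dvd_of_dvd_mul_left h')), if_pos h]
    simp only [h1]
    rw [← Fintype.sum_prod_type' (f := fun (j : Fin n) (l : Fin r) =>
      if ¬ (N : ℤ) ∣ e j l then (N : ℤ) else 0), ← sum_filter, sum_const, nsmul_eq_mul, mul_comm]
  have hlow : (N : ℤ) * r ≤ ∑ k, (F k + F' k) := by
    have : ∑ _k : Fin r, (N : ℤ) ≤ ∑ k, (F k + F' k) := sum_le_sum fun k _ => hNle k
    rw [sum_const, card_univ, Fintype.card_fin, nsmul_eq_mul] at this
    linarith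
  have hcard : (univ.filter fun x : Fin n × Fin r => ¬ (N : ℤ) ∣ e x.1 x.2).card = r := by
    rw [hcount] at hlow
    have h1 : (r : ℤ) ≤ ((univ.filter fun x : Fin n × Fin r => ¬ (N : ℤ) ∣ e x.1 x.2).card : ℤ) :=
      le_of_mul_le_mul_left hlow hNZ
    have h2 : r ≤ (univ.filter fun x : Fin n × Fin r => ¬ (N : ℤ) ∣ e x.1 x.2).card := by
      exact_mod_cast h1
    omega
  have heq : ∀ k, F k + F' k = N := by
    have h1 : ∑ k, (F k + F' k) = ∑ _k : Fin r, (N : ℤ) := by
      rw [hcount, hcard, sum_const, card_univ, Fintype.card_fin, nsmul_eq_mul, mul_comm]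
    have h2 := (sum_eq_sum_iff_of_le (fun k (_ : k ∈ univ) => hNle k)).1 h1.symm
    intro k
    exact (h2 k (mem_univ k)).symm
  have hFmod : ∀ k, F k = (a * e' k) % N := by
    intro k
    obtain ⟨m, hm⟩ := hF k
    have h1 : F k % N = (a * e' k) % N := by
      rw [hm, Int.add_mul_emod_self_left]
    rw [← h1]
    have h2 := heq k
    have h3 := (hpos' k).2
    exact (Int.emod_eq_of_lt (hpos' k).1.le (by linarith)).symm
  refine ⟨hcard, fun k hk => ?_, ?_⟩
  · have h1 := hFmod k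
    rw [Int.emod_eq_zero_of_dvd (hk.mul_left a)] at h1
    exact absurd (hpos' k).1 (by rw [h1]; exact lt_irrefl 0)
  · have : F = fun k => (a * e' k) % N := funext hFmod
    rw [← this]
    exact hM

end Pool.Agent.R927
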