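import Pool.Agent.R927.GDefs
import Pool.Agent.TH571.PCV.Defs

set_option autoImplicit false

/-!
The definitions for the majorization of the exponents.
-/

namespace Pool.Agent.R927

open Finset Pool.Agent.TH571.PCV

/-- The excess of the exponents `phi k - ∑ j, t j` at infinity over the exponents `lam j l - t j` at the
finite points: `∑ (1 - gam (phi k - ∑ j, t j)) - ∑ (1 - gam (lam j l - t j))`. (Integers contribute `0`.) -/
def excess {n r : ℕ} (lam : Fin n → Fin r → ℚ) (phi : Fin r → ℚ) (t : Fin n → ℚ) : ℚ :=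
  ∑ k, (1 - gam (phi k - ∑ j, t j)) - ∑ j, ∑ l, (1 - gam (lam j l - t j))

/-- The number of the `lam j l - t j` which are not integers. -/
def nonint {n r : ℕ} (lam : Fin n → Fin r → ℚ) (t : Fin n → ℚ) : ℕ :=
  (univ.filter fun x : Fin n × Fin r => (lam x.1 x.2 - t x.1).den ≠ 1).card

/-- Majorization: the numbers `x j l` and `z k` have the same sum, and the sum of any set of the
`x j l` is at most the sum of a set of at most as many of the `z k`. -/
def Majorized {n r : ℕ} (x : Fin n → Fin r → ℚ) (z : Fin r → ℚ) : Prop :=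
  ∑ j, ∑ l, x j l = ∑ k, z k ∧
    ∀ J : Finset (Fin n × Fin r), ∃ A : Finset (Fin r), A.card ≤ J.card ∧
      ∑ i ∈ J, x i.1 i.2 ≤ ∑ k ∈ A, z k

end Pool.Agent.R927
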