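import Pool.Agent.R927.OK4
import Pool.Agent.R927.OKDefs
import Pool.Agent.R927.GT2

set_option autoImplicit false

/-!
Consequences of majorization.
-/

namespace Pool.Agent.R927

open Finset Pool.Agent.W280.PC Pool.Agent.TH571.PCV

variable {n r : ℕ}

/-- a single number -/
lemma Major.single {st : Prop} {x : Fin n → Fin r → ℤ} {z : Fin r → ℤ} (h : Major st x z)
    (j : Fin n) (l : Fin r) (hx : 0 < x j l) :
    ∃ k, x j l ≤ z k ∧ (st → 1 < r → x j l < z k) := by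
  classical
  obtain ⟨A, hA, h1, h2⟩ := h.2 {(j, l)}
  rw [card_singleton] at hA
  rw [sum_singleton] at h1
  have hne : A.Nonempty := by
    rw [nonempty_iff_ne_empty]
    rintro rfl
    rw [sum_empty] at h1
    simp only at h1
    omega
  obtain ⟨k, hk⟩ := card_eq_one.1 (le_antisymm hA (card_pos.2 hne))
  rw [hk, sum_singleton] at h1
  refine ⟨k, h1, fun hst hr => ?_⟩
  have h3 := h2 hst (by rw [card_singleton]; exact one_pos) (by rw [card_singleton]; exact hr)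
  rw [hk, sum_singleton, sum_singleton] at h3
  exact h3

lemma sq_layer (N : ℕ) : ∀ x : ℤ, 0 ≤ x → x ≤ N →
    x ^ 2 = 2 * ∑ t ∈ range N, max (x - t) 0 - x := by
  induction N with
  | zero =>
    intro x h0 h1
    have : x = 0 := le_antisymm (by simpa using h1) h0
    subst this
    simp
  | succ N ih =>
    intro x h0 h1
    rw [sum_range_succ]
    rcases (Int.le_iff_lt_or_eq.1 h1) with h2 | h2
    · have h3 : x ≤ N := by
        push_cast at h2
        omega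
      rw [max_eq_right (by linarith), add_zero]
      exact ih x h0 h3
    · push_cast at h2
      have h3 := ih (N : ℤ) (by positivity) le_rfl
      have h4 : ∑ t ∈ range N, max (x - (t : ℤ)) 0 = ∑ t ∈ range N, max ((N : ℤ) - t) 0 + N := by
        have h5 : ∀ t ∈ range N, max (x - (t : ℤ)) 0 = max ((N : ℤ) - t) 0 + 1 := by
          intro t ht
          have h6 : (t : ℤ) < N := by exact_mod_cast mem_range.1 ht
          rw [max_eq_left (by omega), max_eq_left (by omega), h2]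
          ring
        rw [sum_congr rfl h5, sum_add_distrib, sum_const, card_range, nsmul_eq_mul, mul_one]
      rw [h4, max_eq_left (by rw [h2]; ring_nf; norm_num)]
      rw [h2]
      linarith

/-- the hinge inequality -/
lemma Major.hinge {st : Prop} {x : Fin n → Fin r → ℤ} {z : Fin r → ℤ} (h : Major st x z) (t : ℤ)
    (ht : 0 ≤ t) : ∑ i : Fin n × Fin r, max (x i.1 i.2 - t) 0 ≤ ∑ k, max (z k - t) 0 := by
  classical
  set J := univ.filter fun i : Fin n × Fin r => t < x i.1 i.2 with hJ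
  obtain ⟨A, hA, h1, -⟩ := h.2 J
  have h2 : ∑ i : Fin n × Fin r, max (x i.1 i.2 - t) 0 = ∑ i ∈ J, (x i.1 i.2 - t) := by
    rw [hJ, sum_filter]
    refine sum_congr rfl fun i _ => ?_
    split_ifs with h
    · exact max_eq_left (by linarith)
    · exact max_eq_right (by linarith)
  have h3 : ∑ k ∈ A, (z k - t) ≤ ∑ k, max (z k - t) 0 :=
    (sum_le_sum fun k _ => le_max_left _ _).trans
      (sum_le_sum_of_subset_of_nonneg (subset_univ A) fun k _ _ => le_max_right _ _)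
  rw [h2]
  refine le_trans ?_ h3
  rw [sum_sub_distrib, sum_sub_distrib, sum_const, sum_const, nsmul_eq_mul, nsmul_eq_mul]
  have h4 : (A.card : ℤ) * t ≤ J.card * t :=
    mul_le_mul_of_nonneg_right (by exact_mod_cast hA) ht
  linarith

/-- the sums of the squares -/
lemma Major.sq {st : Prop} {x : Fin n → Fin r → ℤ} {z : Fin r → ℤ} (h : Major st x z) (N : ℕ)
    (hx : ∀ j l, 0 ≤ x j l ∧ x j l < N) (hz : ∀ k, 0 ≤ z k ∧ z k < N) :
    ∑ j, ∑ l, x j l ^ 2 ≤ ∑ k, z k ^ 2 ∧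
      (st → 1 < r → (∃ j l, 0 < x j l) → ∑ j, ∑ l, x j l ^ 2 < ∑ k, z k ^ 2) := by
  classical
  have h1 : ∑ j, ∑ l, x j l ^ 2 = 2 * ∑ t ∈ range N, ∑ i : Fin n × Fin r,
      max (x i.1 i.2 - t) 0 - ∑ j, ∑ l, x j l := by
    have h2 : ∀ j l, x j l ^ 2 = 2 * ∑ t ∈ range N, max (x j l - t) 0 - x j l := fun j l =>
      sq_layer N _ (hx j l).1 (hx j l).2.le
    simp only [h2, sum_sub_distrib, ← mul_sum]
    congr 2
    rw [← Fintype.sum_prod_type' (f := fun (j : Fin n) (l : Fin r) =>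
      ∑ t ∈ range N, max (x j l - (t : ℤ)) 0), sum_comm]
  have h2 : ∑ k, z k ^ 2 = 2 * ∑ t ∈ range N, ∑ k, max (z k - t) 0 - ∑ k, z k := by
    have h3 : ∀ k, z k ^ 2 = 2 * ∑ t ∈ range N, max (z k - t) 0 - z k := fun k =>
      sq_layer N _ (hz k).1 (hz k).2.le
    simp only [h3, sum_sub_distrib, ← mul_sum]
    congr 2
    rw [sum_comm]
  rw [h1, h2, h.1]
  have h3 : ∀ t ∈ range N, ∑ i : Fin n × Fin r, max (x i.1 i.2 - (t : ℤ)) 0 ≤
      ∑ k, max (z k - (t : ℤ)) 0 := fun t _ => h.hinge t (by positivity)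
  refine ⟨?_, fun hst hr hpos => ?_⟩
  · have := sum_le_sum h3
    linarith
  · obtain ⟨j0, l0, hjl⟩ := hpos
    obtain ⟨i0, -, hi0⟩ := exists_max_image (univ : Finset (Fin n × Fin r)) (fun i => x i.1 i.2)
      ⟨(j0, l0), mem_univ _⟩
    have hi0p : 0 < x i0.1 i0.2 := lt_of_lt_of_le hjl (hi0 (j0, l0) (mem_univ _))
    obtain ⟨k, -, hk⟩ := h.single i0.1 i0.2 hi0p
    have hk' := hk hst hr
    have h4 : ∑ t ∈ range N, ∑ i : Fin n × Fin r, max (x i.1 i.2 - (t : ℤ)) 0 <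
        ∑ t ∈ range N, ∑ k, max (z k - (t : ℤ)) 0 := by
      refine sum_lt_sum h3 ⟨(x i0.1 i0.2).toNat, ?_, ?_⟩
      · rw [mem_range]
        have := (hx i0.1 i0.2).2
        omega
      · rw [Int.toNat_of_nonneg hi0p.le]
        rw [sum_eq_zero fun i _ => max_eq_right (by linarith [hi0 i (mem_univ i)])]
        refine sum_pos' (fun k _ => le_max_right _ _) ⟨k, mem_univ k, ?_⟩
        exact lt_max_of_lt_left (by linarith)
    linarith

/-- the difference of the quadratic sums for one multiplier -/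
def Phi2 (N : ℕ) (e : Fin n → Fin r → ℤ) (e' : Fin r → ℤ) (a : ℤ) : ℤ :=
  ∑ j, ∑ l, Q N (a * e j l) - ∑ k, Q N (a * e' k)

lemma Phi2_congr {N : ℕ} (e : Fin n → Fin r → ℤ) (e' : Fin r → ℤ) {a b : ℤ}
    (h : (N : ℤ) ∣ a - b) : Phi2 N e e' a = Phi2 N e e' b := by
  have h1 : ∀ z, Q N (a * z) = Q N (b * z) := fun z => Q_congr (by
    rw [← sub_mul]
    exact h.mul_right z)
  unfold Phi2
  simp only [h1]

lemma Phi2_le {N : ℕ} (hN : 0 < N) (e : Fin n → Fin r → ℤ) (e' : Fin r → ℤ) (a : ℤ) :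
    4 * Phi2 N e e' a ≤ r * (N : ℤ) ^ 2 := by
  have h1 : ∑ j, ∑ l, Q N (a * e j l) ≤ 0 :=
    sum_nonpos fun i _ => sum_nonpos fun k _ => Q_nonpos hN _
  have h4 : ∑ _k : Fin r, (-((N : ℤ) ^ 2)) ≤ ∑ k, 4 * Q N (a * e' k) :=
    sum_le_sum fun k _ => Q_ge hN _
  simp only [← mul_sum, sum_const, card_univ, Fintype.card_fin, nsmul_eq_mul] at h4
  unfold Phi2
  linarith

lemma Phi2_of_major {st : Prop} {N : ℕ} (hN : 0 < N) (e : Fin n → Fin r → ℤ) (e' : Fin r → ℤ)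
    (a : ℤ) (h : Major st (fun j l => (a * e j l) % N) (fun k => (a * e' k) % N)) :
    Phi2 N e e' a ≤ 0 ∧ (st → 1 < r → (∃ j l, ¬ (N : ℤ) ∣ a * e j l) → Phi2 N e e' a < 0) := by
  have hNZ : (0 : ℤ) < N := by exact_mod_cast hN
  obtain ⟨h1, h2⟩ := h.sq N
    (fun j l => ⟨Int.emod_nonneg _ hNZ.ne', Int.emod_lt_of_pos _ hNZ⟩)
    (fun k => ⟨Int.emod_nonneg _ hNZ.ne', Int.emod_lt_of_pos _ hNZ⟩)
  have h3 : Phi2 N e e' a = ∑ j, ∑ l, ((a * e j l) % (N : ℤ)) ^ 2 -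
      ∑ k, ((a * e' k) % (N : ℤ)) ^ 2 := by
    have h4 : ∀ z : ℤ, Q N z = (z % (N : ℤ)) ^ 2 - N * (z % (N : ℤ)) := fun z => by
      unfold Q
      ring
    unfold Phi2
    simp only [h4, sum_sub_distrib, ← mul_sum]
    have h5 := h.1
    simp only at h5
    rw [h5]
    ring
  rw [h3]
  refine ⟨by linarith, fun a1 a2 a3 => ?_⟩
  obtain ⟨j, l, hjl⟩ := a3
  have := h2 a1 a2 ⟨j, l, lt_of_le_of_ne (Int.emod_nonneg _ hNZ.ne') fun h0 =>
    hjl (Int.dvd_of_emod_eq_zero h0.symm)⟩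
  linarith

lemma sum_Phi2 {N : ℕ} [NeZero N] (e : Fin n → Fin r → ℤ) (e' : Fin r → ℤ)
    (lam : Fin n → Fin r → ℚ) (phi : Fin r → ℚ) (t : Fin n → ℚ)
    (h1 : ∀ j l, lam j l = (e j l : ℚ) / N + t j)
    (h2 : ∀ l, phi l = (e' l : ℚ) / N + ∑ j, t j) :
    6 * ((∑ u : (ZMod N)ˣ, Phi2 N e e' (((u : ZMod N).val : ℕ) : ℤ) : ℤ) : ℚ) =
      (N.totient : ℚ) * (N : ℚ) ^ 2 * excess lam phi t := by
  have hl : ∀ j l, lam j l - t j = (e j l : ℚ) / N := fun j l => by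
    rw [h1, add_sub_cancel_right]
  have hp : ∀ k, phi k - ∑ j, t j = (e' k : ℚ) / N := fun k => by
    rw [h2, add_sub_cancel_right]
  have k1 : ∀ z : ℤ, (1 - gam ((z : ℚ) / N)) * ((N.totient : ℚ) * (N : ℚ) ^ 2) =
      -(6 * ((∑ u : (ZMod N)ˣ, Q N ((((u : ZMod N).val : ℕ) : ℤ) * z) : ℤ) : ℚ)) := by
    intro z
    rw [six_Q]
    ring
  have k2 : (N.totient : ℚ) * (N : ℚ) ^ 2 * excess lam phi t =
      ∑ k, (1 - gam ((e' k : ℚ) / N)) * ((N.totient : ℚ) * (N : ℚ) ^ 2) -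
      ∑ j, ∑ l, (1 - gam ((e j l : ℚ) / N)) * ((N.totient : ℚ) * (N : ℚ) ^ 2) := by
    unfold excess
    simp only [hl, hp, ← sum_mul]
    ring
  rw [k2]
  simp only [k1, sum_neg_distrib, ← mul_sum]
  unfold Phi2
  rw [sum_sub_distrib, sum_comm (s := univ (α := (ZMod N)ˣ)) (t := univ (α := Fin r))]
  have k3 : ∑ u : (ZMod N)ˣ, ∑ j, ∑ l, Q N ((((u : ZMod N).val : ℕ) : ℤ) * e j l) =
      ∑ j, ∑ l, ∑ u : (ZMod N)ˣ, Q N ((((u : ZMod N).val : ℕ) : ℤ) * e j l) := by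
    rw [sum_comm]
    exact sum_congr rfl fun j _ => sum_comm
  rw [k3]
  push_cast
  ring

end Pool.Agent.R927
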