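import Pool.Agent.R927.OK5
import Pool.Agent.R927.OK3
import Pool.Agent.R927.GT3
import Pool.Agent.TH571.PCV.Few

set_option autoImplicit false

/-!
Majorization for systems with vanishing `p`-curvatures.
-/

namespace Pool.Agent.R927

open Finset Pool.Agent.Y227.SS Pool.Agent.TH571.PCV
open Pool.Agent.W432.PC (HasExponents PCurvZeroAt CondII)

universe u

section dual

variable {R : Type*} [CommRing R] {n r : ℕ} {α : Fin n → R} {A : Fin n → Matrix (Fin r) (Fin r) R}

lemma InfZero.dual {b : ℕ} {a : ℤ} (h : InfZero α A b a) :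
    InfZero α (fun j => -(A j).transpose) b a := by
  intro P₀
  obtain ⟨p, hp, hpP, hap, 𝔪, h𝔪, hpm, hpc⟩ := h P₀
  exact ⟨p, hp, hpP, hap, 𝔪, h𝔪, hpm, pCurvZeroAt_dual hp 𝔪 hpm hpc⟩

lemma DenseZero.dual {b : ℕ} {a : ℤ} (h : DenseZero α A b a) :
    DenseZero α (fun j => -(A j).transpose) b a := by
  intro g hg P₀
  obtain ⟨p, hp, hpP, hap, 𝔪, h𝔪, hpm, hgm, hpc⟩ := h g hg P₀
  exact ⟨p, hp, hpP, hap, 𝔪, h𝔪, hpm, hgm, pCurvZeroAt_dual hp 𝔪 hpm hpc⟩

lemma DenseZero.inf [Nontrivial R] {b : ℕ} {a : ℤ} (h : DenseZero α A b a) : InfZero α A b a := by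
  intro P₀
  obtain ⟨p, hp, hpP, hap, 𝔪, h𝔪, hpm, -, hpc⟩ := h 1 one_ne_zero P₀
  exact ⟨p, hp, hpP, hap, 𝔪, h𝔪, hpm, hpc⟩

end dual

section exps

variable {R : Type*} [CommRing R] [IsDomain R] {n r : ℕ}

lemma hasExponents_dual' {A : Matrix (Fin r) (Fin r) R} {N b : ℕ} {e : Fin r → ℤ} {T : ℤ}
    (h : HasExponents A (fun l => (e l : ℚ) / N + (T : ℚ) / b)) :
    HasExponents (-A.transpose) (fun l => ((-e l : ℤ) : ℚ) / N + ((-T : ℤ) : ℚ) / b) := by
  have h1 := hasExponents_dual h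
  have h2 : (fun l => -((e l : ℚ) / N + (T : ℚ) / b)) =
      fun l => ((-e l : ℤ) : ℚ) / N + ((-T : ℤ) : ℚ) / b := by
    ext l
    push_cast
    ring
  rw [h2] at h1
  exact h1

end exps

section systems

variable {R : Type u} [CommRing R] [IsDomain R] [CharZero R] [Algebra.FiniteType ℤ R] {n r : ℕ}

/-- **Majorization** for a multiplier `a`. -/
theorem sys_major (α : Fin n → R) (hα : ∀ i j, i ≠ j → IsUnit (α i - α j))
    (A : Fin n → Matrix (Fin r) (Fin r) R) (N : ℕ) (hN : 0 < N) (b : ℕ) (hb : 0 < b)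
    (t : Fin n → ℤ) (e : Fin n → Fin r → ℤ)
    (e' : Fin r → ℤ) (hlam : ∀ j, HasExponents (A j) (fun l => (e j l : ℚ) / N + (t j : ℚ) / b))
    (hphi : HasExponents (∑ j, A j) (fun l => (e' l : ℚ) / N + ((∑ j, t j : ℤ) : ℚ) / b))
    (a : ℤ) (ha : IsCoprime a ((2 * N * b : ℕ) : ℤ))
    (hfew : (univ.filter fun x : Fin n × Fin r => ¬ (N : ℤ) ∣ e x.1 x.2).card ≤ r) :
    (InfZero α A (2 * N * b) a → (∀ k, ¬ (N : ℤ) ∣ e' k) →
      (univ.filter fun x : Fin n × Fin r => ¬ (N : ℤ) ∣ e x.1 x.2).card = r ∧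
      Major False (fun j l => (a * e j l) % N) (fun k => (a * e' k) % N)) ∧
    (AbsIrreducible α A → DenseZero α A (2 * N * b) a →
      (∀ k, ¬ (N : ℤ) ∣ e' k) ∨ (AbsIrreducible α (fun j => -(A j).transpose) ∧ 1 < r) →
      (univ.filter fun x : Fin n × Fin r => ¬ (N : ℤ) ∣ e x.1 x.2).card = r ∧
      (∀ k, ¬ (N : ℤ) ∣ e' k) ∧
      Major True (fun j l => (a * e j l) % N) (fun k => (a * e' k) % N)) := by
  have haN2 : IsCoprime a ((2 * N : ℕ) : ℤ) := ha.of_isCoprime_of_dvd_right (by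
    exact_mod_cast Dvd.intro b rfl)
  have haN : IsCoprime a (N : ℤ) := haN2.of_isCoprime_of_dvd_right (by
    exact_mod_cast Dvd.intro_left 2 rfl)
  obtain ⟨s, v, hsv⟩ := haN2
  have has : a * s = 1 + 2 * N * (-v) := by
    push_cast at hsv
    linear_combination hsv
  have hlam' : ∀ j, HasExponents (-(A j).transpose)
      (fun l => ((-e j l : ℤ) : ℚ) / N + ((-t j : ℤ) : ℚ) / b) := fun j =>
    hasExponents_dual' (hlam j)
  have hphi' : HasExponents (∑ j, -(A j).transpose)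
      (fun l => ((-e' l : ℤ) : ℚ) / N + ((∑ j, -t j : ℤ) : ℚ) / b) := by
    have h1 := hasExponents_dual' hphi
    have h2 : ∑ j, -(A j).transpose = -(∑ j, A j).transpose := by
      rw [Matrix.transpose_sum, ← sum_neg_distrib]
    rw [h2, sum_neg_distrib]
    exact h1
  refine ⟨fun hinf hz => ?_, fun hirr hinf hpos => ?_⟩
  · obtain ⟨F, hF1, hF2, hF3⟩ := single_mult N hN a s (-v) has e e'
      (wdata_semi α hα A N hN b hb t e e' hlam hphi a hinf (fun _ => s))
    obtain ⟨F', hF1', hF2', hF3'⟩ := single_mult N hN a s (-v) has (fun j l => -e j l)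
      (fun l => -e' l) (wdata_semi α hα (fun j => -(A j).transpose) N hN b hb (fun j => -t j)
        (fun j l => -e j l) (fun l => -e' l) hlam' hphi' a hinf.dual (fun _ => s))
    obtain ⟨h1, -, h3⟩ := major_of False False N hN a haN e e' F F' hF1 hF2 hF3 hF1' hF2' hF3'
      hfew (Or.inl hz)
    exact ⟨h1, h3⟩
  · obtain ⟨F, hF1, hF2, hF3⟩ := single_mult N hN a s (-v) has e e'
      (wdata_stable α hα A N hN b hb t e e' hlam hphi hirr a hinf (fun _ => s))
    rcases hpos with hz | ⟨hirr', hr⟩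
    · obtain ⟨F', hF1', hF2', hF3'⟩ := single_mult N hN a s (-v) has (fun j l => -e j l)
        (fun l => -e' l) (wdata_semi α hα (fun j => -(A j).transpose) N hN b hb (fun j => -t j)
          (fun j l => -e j l) (fun l => -e' l) hlam' hphi' a hinf.inf.dual (fun _ => s))
      exact major_of True False N hN a haN e e' F F' hF1 hF2 hF3 hF1' hF2' hF3' hfew (Or.inl hz)
    · obtain ⟨F', hF1', hF2', hF3'⟩ := single_mult N hN a s (-v) has (fun j l => -e j l)
        (fun l => -e' l) (wdata_stable α hα (fun j => -(A j).transpose) N hN b hb (fun j => -t j)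
          (fun j l => -e j l) (fun l => -e' l) hlam' hphi' hirr' a hinf.dual (fun _ => s))
      exact major_of True True N hN a haN e e' F F' hF1 hF2 hF3 hF1' hF2' hF3' hfew
        (Or.inr ⟨trivial, trivial, hr⟩)

end systems

end Pool.Agent.R927
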