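import Pool.Agent.Y227.SS.Sub
import Pool.Agent.W432.PC.Dual

set_option autoImplicit false

/-!
The dual of an irreducible system is irreducible.
-/

namespace Pool.Agent.R927

open Polynomial Finset Pool.Agent.Y227.SS Pool.Agent.W432.PC

universe u

section field

variable {K : Type*} [Field K] {n r : ℕ}

lemma map_derivative_mul' {p q s : ℕ} (M : Matrix (Fin p) (Fin q) K[X])
    (N : Matrix (Fin q) (Fin s) K[X]) :
    (M * N).map derivative = M.map derivative * N + M * N.map derivative := by
  ext1 i l
  simp only [Matrix.map_apply, Matrix.mul_apply, Matrix.add_apply, derivative_sum, derivative_mul,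
    Finset.sum_add_distrib]

lemma opRows_eq {s : ℕ} (α : Fin n → K) (A : Fin n → Matrix (Fin r) (Fin r) K)
    (u : Matrix (Fin s) (Fin r) K[X]) :
    opRows α A u = T α • u.map derivative - u * (B α A).transpose := by
  ext1 i l
  simp only [opRows, Matrix.of_apply, Matrix.sub_apply, Matrix.smul_apply, Matrix.map_apply,
    smul_eq_mul, Matrix.mul_apply, Matrix.transpose_apply, Matrix.mulVec, dotProduct]
  congr 1
  exact sum_congr rfl fun m _ => mul_comm _ _

/-- The annihilator of a stable subspace of the dual is stable. -/
theorem stable_dual (α : Fin n → K) (A : Fin n → Matrix (Fin r) (Fin r) K) (s : ℕ) (hs : s ≤ r)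
    (h : HasStableSubspace α (fun j => -(A j).transpose) s) : HasStableSubspace α A (r - s) := by
  classical
  obtain ⟨v, ⟨J, hJ⟩, c, G, hc, hG⟩ := h
  let F := RatFunc K
  let ι : K[X] →+* F := algebraMap K[X] F
  have hι : Function.Injective ι := IsFractionRing.injective K[X] F
  -- the linear map
  set L : (Fin r → F) →ₗ[F] (Fin s → F) := (v.map ι).mulVecLin with hL
  have hLa : ∀ y i, L y i = ∑ l, ι (v i l) * y l := fun y i => rfl
  have hLs : Function.Surjective L := by
    intro w
    set S : Matrix (Fin s) (Fin s) F := (v.map ι).submatrix id J with hS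
    have hSdet : S.det ≠ 0 := by
      have h1 : S.det = ι (mnr v J) := by
        unfold mnr
        rw [RingHom.map_det]
        rfl
      rw [h1]
      exact fun h0 => hJ (hι (by rw [h0, map_zero]))
    refine ⟨∑ i, (S⁻¹.mulVec w) i • Pi.single (J i) (1 : F), ?_⟩
    rw [map_sum]
    have h2 : S.mulVec (S⁻¹.mulVec w) = w := by
      rw [Matrix.mulVec_mulVec, Matrix.mul_nonsing_inv _ (isUnit_iff_ne_zero.2 hSdet),
        Matrix.one_mulVec]
    conv_rhs => rw [← h2]
    ext k
    simp only [map_smul, Finset.sum_apply, Pi.smul_apply, smul_eq_mul, hL, Matrix.mulVecLin_apply,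
      Matrix.mulVec_single_one, Matrix.col_apply]
    simp only [Matrix.mulVec, dotProduct, hS, Matrix.submatrix_apply, id]
    exact sum_congr rfl fun i _ => mul_comm _ _
  have hker : Module.finrank F (LinearMap.ker L) = r - s := by
    have h1 := LinearMap.finrank_range_add_finrank_ker L
    rw [LinearMap.range_eq_top.2 hLs, finrank_top, Module.finrank_fin_fun,
      Module.finrank_fin_fun] at h1
    omega
  let b := Module.finBasisOfFinrankEq F (LinearMap.ker L) hker
  obtain ⟨d, hd⟩ := IsLocalization.exist_integer_multiples_of_finite (nonZeroDivisors K[X])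
    (fun x : Fin (r - s) × Fin r => ((b x.1 : Fin r → F) x.2))
  have hd0 : (d : K[X]) ≠ 0 := nonZeroDivisors.coe_ne_zero d
  choose u' hu' using hd
  let u : Matrix (Fin (r - s)) (Fin r) K[X] := Matrix.of fun i l => u' (i, l)
  have hu : ∀ i l, ι (u i l) = ι d * (b i : Fin r → F) l := by
    intro i l
    have h1 := hu' (i, l)
    rw [Algebra.smul_def] at h1
    exact h1
  have hιd : ι (d : K[X]) ≠ 0 := fun h0 => hd0 (hι (by rw [h0, map_zero]))
  have hbk : ∀ i, L (b i : Fin r → F) = 0 := fun i => LinearMap.mem_ker.1 (b i).2
  -- the annihilator relation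
  have hvu : v * u.transpose = 0 := by
    ext1 i j
    apply hι
    rw [Matrix.zero_apply, map_zero, Matrix.mul_apply, map_sum]
    have h1 := congrFun (hbk j) i
    have h2 : ∑ l, ι (v i l * u.transpose l j) = ι d * L (b j : Fin r → F) i := by
      rw [hLa, mul_sum]
      refine sum_congr rfl fun l _ => ?_
      rw [map_mul, Matrix.transpose_apply, hu]
      ring
    rw [h2, h1, Pi.zero_apply, mul_zero]
  have hmin : ∃ J', mnr u J' ≠ 0 := by
    obtain ⟨J', hJ'⟩ := exists_minor (u.map ι) (by
      intro f hf
      have h1 : (∑ i, f i • b i : LinearMap.ker L) = 0 := by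
        apply Subtype.ext
        ext l
        have h2 := congrFun hf l
        simp only [Matrix.vecMul, dotProduct, Matrix.map_apply, hu, Pi.zero_apply] at h2
        have h3 : ι d * ∑ i, f i * (b i : Fin r → F) l = 0 := by
          rw [mul_sum, ← h2]
          exact sum_congr rfl fun i _ => by ring
        have h4 := (mul_eq_zero.1 h3).resolve_left hιd
        simpa using h4
      exact funext (Fintype.linearIndependent_iff.1 b.linearIndependent f h1))
    refine ⟨J', fun h0 => hJ' ?_⟩
    have h1 : ((u.map ι).submatrix id J').det = ι (mnr u J') := by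
      unfold mnr
      rw [RingHom.map_det]
      rfl
    rw [h1, h0, map_zero]
  -- the image of the annihilator
  set w := opRows α A u with hw
  have hvw : v * w.transpose = 0 := by
    have h1 := congrArg (fun M : Matrix (Fin s) (Fin (r - s)) K[X] => M.map derivative) hvu
    simp only [map_derivative_mul'] at h1
    have h0 : (0 : Matrix (Fin s) (Fin (r - s)) K[X]).map derivative = 0 := by
      ext1 i j
      simp
    rw [h0] at h1
    have h2 : w.transpose = T α • u.transpose.map derivative - B α A * u.transpose := by
      rw [hw, opRows_eq, Matrix.transpose_sub, Matrix.transpose_smul, Matrix.transpose_mul,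
        Matrix.transpose_transpose]
      rfl
    have h3 : opRows α (fun j => -(A j).transpose) v = T α • v.map derivative + v * B α A := by
      rw [opRows_eq, B_neg_transpose, Matrix.transpose_neg, Matrix.transpose_transpose,
        Matrix.mul_neg, sub_neg_eq_add]
    rw [h3] at hG
    have h4 : c • (v * w.transpose) = 0 := by
      have h5 : v * w.transpose = -((T α • v.map derivative + v * B α A) * u.transpose) := by
        have h6 : v * u.transpose.map derivative = -(v.map derivative * u.transpose) :=
          eq_neg_of_add_eq_zero_right h1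
        rw [h2, Matrix.mul_sub, Matrix.mul_smul, h6, Matrix.add_mul, Matrix.smul_mul, smul_neg,
          Matrix.mul_assoc]
        abel
      rw [h5, smul_neg, ← Matrix.smul_mul, hG, Matrix.mul_assoc, hvu, Matrix.mul_zero, neg_zero]
    ext1 i j
    have h7 := congrFun (congrFun h4 i) j
    rw [Matrix.smul_apply, Matrix.zero_apply, smul_eq_mul] at h7
    rw [Matrix.zero_apply]
    exact (mul_eq_zero.1 h7).resolve_left hc
  have hwk : ∀ j, (fun l => ι (w j l)) ∈ LinearMap.ker L := by
    intro j
    rw [LinearMap.mem_ker]
    ext i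
    rw [hLa, Pi.zero_apply]
    have h1 := congrArg ι (congrFun (congrFun hvw i) j)
    rw [Matrix.zero_apply, map_zero, Matrix.mul_apply, map_sum] at h1
    rw [← h1]
    refine sum_congr rfl fun l _ => ?_
    rw [map_mul, Matrix.transpose_apply]
  obtain ⟨d', hd'⟩ := IsLocalization.exist_integer_multiples_of_finite (nonZeroDivisors K[X])
    (fun x : Fin (r - s) × Fin (r - s) => b.repr ⟨_, hwk x.1⟩ x.2)
  have hd0' : (d' : K[X]) ≠ 0 := nonZeroDivisors.coe_ne_zero d'
  choose g' hg' using hd'
  let G' : Matrix (Fin (r - s)) (Fin (r - s)) K[X] := Matrix.of fun i j => g' (i, j)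
  have hG' : ∀ i j, ι (G' i j) = ι d' * b.repr ⟨_, hwk i⟩ j := by
    intro i j
    have h1 := hg' (i, j)
    rw [Algebra.smul_def] at h1
    exact h1
  refine ⟨u, hmin, (d' : K[X]) * d, G', mul_ne_zero hd0' hd0, ?_⟩
  ext1 j l
  apply hι
  rw [Matrix.smul_apply, smul_eq_mul, map_mul, map_mul, Matrix.mul_apply, map_sum]
  have h1 := b.sum_repr ⟨_, hwk j⟩
  have h2 : ι (w j l) = ∑ i, b.repr ⟨_, hwk j⟩ i * (b i : Fin r → F) l := by
    have h3 := congrFun (congrArg Subtype.val h1) l
    simp only [Submodule.coe_sum, Submodule.coe_smul, Finset.sum_apply, Pi.smul_apply,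
      smul_eq_mul] at h3
    exact h3.symm
  rw [← hw, h2, mul_sum]
  refine sum_congr rfl fun i _ => ?_
  rw [map_mul, hG', hu]
  ring

end field

/-- The dual of an irreducible system is irreducible. -/
theorem absIrreducible_dual {R : Type u} [CommRing R] {n r : ℕ} {α : Fin n → R}
    {A : Fin n → Matrix (Fin r) (Fin r) R} (h : AbsIrreducible α A) :
    AbsIrreducible α (fun j => -(A j).transpose) := by
  intro K _ φ hφ s hs0 hsr hst
  refine h K φ hφ (r - s) (by omega) (by omega) (stable_dual _ _ s hsr.le ?_)
  have h1 : (fun j => -((A j).map φ).transpose) = fun j => (-(A j).transpose).map φ := by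
    ext1 j
    ext1 i l
    simp
  rw [h1]
  exact hst

end Pool.Agent.R927
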