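import Pool.Agent.R927.OK6
import Pool.Agent.R927.OK7
import Pool.Agent.R927.GT6

set_option autoImplicit false

/-!
The final statements about majorization.
-/

namespace Pool.Agent.R927

open Finset Pool.Agent.Y227.SS Pool.Agent.TH571.PCV Pool.Agent.W280.PC
open Pool.Agent.W432.PC (HasExponents PCurvZeroAt CondII)

universe u

section arith

variable {n r : ℕ}

lemma den_div {N : ℕ} (hN : 0 < N) (z : ℤ) : ((z : ℚ) / N).den = 1 ↔ (N : ℤ) ∣ z := by
  have hNQ : (N : ℚ) ≠ 0 := by exact_mod_cast hN.ne'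
  constructor
  · intro h
    refine ⟨((z : ℚ) / N).num, ?_⟩
    have h1 : ((z : ℚ) / N) = (((z : ℚ) / N).num : ℚ) := by
      conv_lhs => rw [← Rat.num_div_den ((z : ℚ) / N), h]
      simp
    have h2 : (z : ℚ) = N * (((z : ℚ) / N).num : ℚ) := by
      rw [← h1]
      field_simp
    exact_mod_cast h2
  · rintro ⟨m, rfl⟩
    have : (((N : ℤ) * m : ℤ) : ℚ) / N = (m : ℚ) := by
      push_cast
      field_simp
    rw [this]
    exact Rat.den_intCast m

/-- the residue of `a z` for a multiplier `a` with `a z / N` just below an integer -/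
lemma exists_top {B N : ℕ} (hB : 0 < B) (hN : 0 < N) (hNB : N ∣ B) (z : ℤ) :
    ∃ a : ℤ, IsCoprime a (B : ℤ) ∧
      (((z : ℚ) / N).den : ℤ) * ((a * z) % N) = N * ((((z : ℚ) / N).den : ℤ) - 1) := by
  have hNZ : (0 : ℤ) < N := by exact_mod_cast hN
  have hNQ : (N : ℚ) ≠ 0 := by exact_mod_cast hN.ne'
  set q : ℚ := (z : ℚ) / N with hq
  set d : ℕ := q.den with hd
  have hdpos : 0 < d := q.den_pos
  have hdN : d ∣ N := by
    have h4 : (q.den : ℤ) ∣ (N : ℤ) := by
      have : q = Rat.divInt z (N : ℤ) := by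
        rw [Rat.divInt_eq_div, hq]
        push_cast
        rfl
      rw [this]
      exact Rat.den_dvd z (N : ℤ)
    exact Int.natCast_dvd_natCast.1 h4
  obtain ⟨m, hm⟩ := hdN
  have hmpos : 0 < m := Nat.pos_of_ne_zero fun h0 => hN.ne' (by rw [hm, h0, mul_zero])
  -- z = m * q.num
  have hzm : z = m * q.num := by
    have h1 : (z : ℚ) = m * q.num := by
      have h2 : q * N = z := by
        rw [hq]
        field_simp
      have h3 : q * d = q.num := Rat.mul_den_eq_num q
      rw [← h2, hm]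
      push_cast
      rw [← h3]
      ring
    exact_mod_cast h1
  have hcop : IsCoprime q.num (d : ℤ) := by
    have := q.reduced
    rw [Int.isCoprime_iff_gcd_eq_one]
    exact this
  obtain ⟨x, y, hxy⟩ := hcop
  -- x * num = 1 mod d
  have hxd : IsCoprime (-x) (d : ℤ) := ⟨-q.num, y, by linear_combination hxy⟩
  obtain ⟨a, ha, had⟩ := lift_coprime hB ((Dvd.intro m hm.symm).trans hNB : d ∣ B) hxd
  refine ⟨a, ha, ?_⟩
  have h1 : (a * z) % N = m * ((a * q.num) % d) := by
    rw [hzm, hm]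
    push_cast
    rw [show a * ((m : ℤ) * q.num) = m * (a * q.num) by ring, mul_comm (d : ℤ) m,
      Int.mul_emod_mul_of_pos _ _ (by exact_mod_cast hmpos)]
  have h2 : (a * q.num) % d = d - 1 := by
    obtain ⟨c, hc⟩ := had
    have h3 : a * q.num = (d - 1) + d * (c * q.num + y - 1) := by
      linear_combination q.num * hc - hxy
    have hd1 : (1 : ℤ) ≤ d := by exact_mod_cast hdpos
    rw [h3, Int.add_mul_emod_self_left]
    exact Int.emod_eq_of_lt (by linarith) (by linarith)
  rw [h1, h2, hm]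
  push_cast
  ring

/-- the residues are at most `N (d - 1) / d` -/
lemma den_mul_mod_le {N : ℕ} (hN : 0 < N) (a z : ℤ) :
    (((z : ℚ) / N).den : ℤ) * ((a * z) % N) ≤ N * ((((z : ℚ) / N).den : ℤ) - 1) := by
  have hNZ : (0 : ℤ) < N := by exact_mod_cast hN
  have hNQ : (N : ℚ) ≠ 0 := by exact_mod_cast hN.ne'
  set q : ℚ := (z : ℚ) / N with hq
  set d : ℕ := q.den with hd
  have hdpos : 0 < d := q.den_pos
  have hdN : d ∣ N := by
    have h4 : (q.den : ℤ) ∣ (N : ℤ) := by
      have : q = Rat.divInt z (N : ℤ) := by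
        rw [Rat.divInt_eq_div, hq]
        push_cast
        rfl
      rw [this]
      exact Rat.den_dvd z (N : ℤ)
    exact Int.natCast_dvd_natCast.1 h4
  obtain ⟨m, hm⟩ := hdN
  have hmpos : 0 < m := Nat.pos_of_ne_zero fun h0 => hN.ne' (by rw [hm, h0, mul_zero])
  have hzm : z = m * q.num := by
    have h1 : (z : ℚ) = m * q.num := by
      have h2 : q * N = z := by
        rw [hq]
        field_simp
      have h3 : q * d = q.num := Rat.mul_den_eq_num q
      rw [← h2, hm]
      push_cast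
      rw [← h3]
      ring
    exact_mod_cast h1
  have h1 : (a * z) % N = m * ((a * q.num) % d) := by
    rw [hzm, hm]
    push_cast
    rw [show a * ((m : ℤ) * q.num) = m * (a * q.num) by ring, mul_comm (d : ℤ) m,
      Int.mul_emod_mul_of_pos _ _ (by exact_mod_cast hmpos)]
  have h2 : (a * q.num) % d ≤ d - 1 := by
    have := Int.emod_lt_of_pos (a * q.num) (show (0 : ℤ) < d by exact_mod_cast hdpos)
    omega
  rw [h1, hm]
  push_cast
  have h3 : (0 : ℤ) ≤ (d : ℤ) * m := by positivity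
  calc (d : ℤ) * (m * (a * q.num % d)) = (d * m) * (a * q.num % d) := by ring
    _ ≤ (d * m) * (d - 1) := mul_le_mul_of_nonneg_left h2 h3

lemma fract_eq {N : ℕ} (hN : 0 < N) (a z : ℤ) :
    Int.fract ((a : ℚ) * ((z : ℚ) / N)) = (((a * z) % N : ℤ) : ℚ) / N := by
  have hNZ : (0 : ℤ) < N := by exact_mod_cast hN
  have hNQ : (0 : ℚ) < N := by exact_mod_cast hN
  rw [Int.fract_eq_iff]
  refine ⟨div_nonneg (by exact_mod_cast Int.emod_nonneg _ hNZ.ne') hNQ.le, ?_,
    ⟨(a * z) / N, ?_⟩⟩
  · rw [div_lt_one hNQ]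
    exact_mod_cast Int.emod_lt_of_pos _ hNZ
  · have h1 := Int.emod_add_mul_ediv (a * z) N
    have h2 : ((a * z : ℤ) : ℚ) = ((a * z % N : ℤ) : ℚ) + N * (((a * z) / N : ℤ) : ℚ) := by
      exact_mod_cast h1.symm
    have h3 : (a : ℚ) * ((z : ℚ) / N) = ((a * z : ℤ) : ℚ) / N := by
      push_cast
      ring
    rw [h3, h2]
    field_simp
    ring

end arith

end Pool.Agent.R927
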