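import Pool.Agent.R927.OK8

set_option autoImplicit false

/-!
The final statements about majorization.
-/

namespace Pool.Agent.R927

open Finset Pool.Agent.Y227.SS Pool.Agent.TH571.PCV Pool.Agent.W280.PC
open Pool.Agent.W432.PC (HasExponents PCurvZeroAt CondII)

universe u

lemma mod_mul_congr {N a b : ℤ} (h : N ∣ a - b) (z : ℤ) : (a * z) % N = (b * z) % N := by
  apply Int.ModEq.eq
  exact (Int.ModEq.symm (Int.modEq_iff_dvd.2 (by
    rw [← sub_mul]
    exact h.mul_right z)))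

lemma top_lt {N x y d d' : ℤ} (hd : d * x = N * (d - 1)) (hd' : d' * y ≤ N * (d' - 1))
    (hdd : d' ≤ d) (hd0 : 0 < d') (hxN : x < N) (hxy : x < y) : False := by
  have h1 : d * (N - x) = N := by linear_combination -hd
  have h2 : N ≤ d' * (N - y) := by linarith
  have h3 : d' * (N - y) < d' * (N - x) := by
    apply mul_lt_mul_of_pos_left _ hd0
    linarith
  have h4 : d' * (N - x) ≤ d * (N - x) := mul_le_mul_of_nonneg_right hdd (by linarith)
  linarith

lemma top_le {N x y d d' : ℤ} (hd : d * x = N * (d - 1)) (hd' : d' * y ≤ N * (d' - 1))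
    (hdd : d' < d) (hd0 : 0 < d') (hxN : x < N) (hxy : x ≤ y) : False := by
  have h1 : d * (N - x) = N := by linear_combination -hd
  have h2 : N ≤ d' * (N - y) := by linarith
  have h3 : d' * (N - y) ≤ d' * (N - x) := by
    apply mul_le_mul_of_nonneg_left _ hd0.le
    linarith
  have h4 : d' * (N - x) < d * (N - x) := mul_lt_mul_of_pos_right hdd (by linarith)
  linarith

lemma exists_clear {n r : ℕ} (lam : Fin n → Fin r → ℚ) (phi : Fin r → ℚ) (t : Fin n → ℚ) :
    ∃ N : ℕ, 0 < N ∧ (∀ j l, ∃ m : ℤ, (N : ℚ) * (lam j l - t j) = m) ∧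
      ∀ l, ∃ m : ℤ, (N : ℚ) * (phi l - ∑ j, t j) = m := by
  have key : ∀ (N : ℕ) (q : ℚ), q.den ∣ N → ∃ m : ℤ, (N : ℚ) * q = m := by
    rintro N q ⟨k, rfl⟩
    refine ⟨k * q.num, ?_⟩
    push_cast
    rw [mul_comm (q.den : ℚ) k, mul_assoc, Rat.den_mul_eq_num]
  refine ⟨(∏ j, ∏ l, (lam j l - t j).den) * ∏ l, (phi l - ∑ j, t j).den,
    Nat.mul_pos (prod_pos fun j _ => prod_pos fun l _ => Rat.den_pos _)
      (prod_pos fun l _ => Rat.den_pos _), fun j l => key _ _ ?_, fun l => key _ _ ?_⟩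
  · exact Dvd.dvd.mul_right ((dvd_prod_of_mem (fun l => (lam j l - t j).den) (mem_univ l)).trans
      (dvd_prod_of_mem (fun j => ∏ l, (lam j l - t j).den) (mem_univ j))) _
  · exact Dvd.dvd.mul_left (dvd_prod_of_mem (fun l => (phi l - ∑ j, t j).den) (mem_univ l)) _

section final

variable {R : Type u} [CommRing R] [IsDomain R] [CharZero R] [Algebra.FiniteType ℤ R] {n r : ℕ}

lemma nonint_eq {N : ℕ} (hN : 0 < N) {lam : Fin n → Fin r → ℚ} {t : Fin n → ℚ}
    {e : Fin n → Fin r → ℤ} (hl : ∀ j l, lam j l = (e j l : ℚ) / N + t j) :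
    nonint lam t = (univ.filter fun x : Fin n × Fin r => ¬ (N : ℤ) ∣ e x.1 x.2).card := by
  unfold nonint
  congr 1
  ext x
  simp only [mem_filter, mem_univ, true_and]
  rw [hl, add_sub_cancel_right, ne_eq, den_div hN]

/-- The semistable case: for each unit `u` the `p`-curvatures are nonzero or majorization holds. -/
theorem few_semi (α : Fin n → R) (hα : ∀ i j, i ≠ j → IsUnit (α i - α j))
    (A : Fin n → Matrix (Fin r) (Fin r) R) (lam : Fin n → Fin r → ℚ) (phi : Fin r → ℚ)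
    (hlam : ∀ j, HasExponents (A j) (lam j)) (hphi : HasExponents (∑ j, A j) phi)
    (t : Fin n → ℚ) (hfew : nonint lam t ≤ r) (hz : ∀ k, (phi k - ∑ j, t j).den ≠ 1)
    (N : ℕ) (hN : 0 < N) (hNlam : ∀ j l, ∃ m : ℤ, (N : ℚ) * (lam j l - t j) = m)
    (hNphi : ∀ l, ∃ m : ℤ, (N : ℚ) * (phi l - ∑ j, t j) = m) :
    (∀ u : (ZMod N)ˣ, NonzeroFor α A N {-u⁻¹} ∨ (nonint lam t = r ∧
      Majorized (fun j l => Int.fract ((((u : ZMod N).val : ℕ) : ℚ) * (lam j l - t j)))
        (fun k => Int.fract ((((u : ZMod N).val : ℕ) : ℚ) * (phi k - ∑ j, t j))))) ∧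
    (∃ S : Finset (ZMod N)ˣ, 2 * (N.totient : ℚ) * excess lam phi t ≤ 3 * (r : ℚ) * S.card ∧
      NonzeroFor α A N S) ∧
    (∀ j l, (lam j l - t j).den ≠ 1 → (∀ k, (phi k - ∑ j, t j).den < (lam j l - t j).den) →
      ∃ v : (ZMod N)ˣ, NonzeroFor α A N {v}) := by
  classical
  have : NeZero N := ⟨hN.ne'⟩
  have hNZ : (0 : ℤ) < N := by exact_mod_cast hN
  have hNQ : (0 : ℚ) < N := by exact_mod_cast hN
  obtain ⟨b, T, e, e', hb, hT, hl1, hp1, hlam', hphi', hsum⟩ :=
    exists_data A lam phi hlam hphi t N hN hNlam hNphi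
  have hB : 0 < 2 * N * b := Nat.mul_pos (by omega) hb
  have hcard := nonint_eq hN hl1
  rw [hcard] at hfew
  have hlt : ∀ j l, lam j l - t j = (e j l : ℚ) / N := fun j l => by
    rw [hl1, add_sub_cancel_right]
  have hpt : ∀ k, phi k - ∑ j, t j = (e' k : ℚ) / N := fun k => by
    rw [hp1, add_sub_cancel_right]
  have hz' : ∀ k, ¬ (N : ℤ) ∣ e' k := fun k hk => hz k (by rw [hpt]; exact (den_div hN _).2 hk)
  have hall : ∀ v : (ZMod N)ˣ, ¬ NonzeroFor α A N {v} →
      (univ.filter fun x : Fin n × Fin r => ¬ (N : ℤ) ∣ e x.1 x.2).card = r ∧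
      Major False (fun j l => (((((-v⁻¹ : (ZMod N)ˣ) : ZMod N).val : ℕ) : ℤ) * e j l) % N)
        (fun k => (((((-v⁻¹ : (ZMod N)ˣ) : ZMod N).val : ℕ) : ℤ) * e' k) % N) := by
    intro v hv
    obtain ⟨a, ha, hav, hinf⟩ := exists_multiplier (2 * N * b) N hB
      (⟨2 * b, by ring⟩) v (fun p => ∃ (𝔪 : Ideal R) (_ : 𝔪.IsMaximal), (p : R) ∈ 𝔪 ∧
        PCurvZeroAt α A 𝔪) (by
      intro P₀
      by_contra hcon
      apply hv
      refine ⟨P₀, fun p hp hpP v' hv' hpv 𝔪 h𝔪 hpm hpc => hcon ⟨p, hp, hpP, ?_, 𝔪, h𝔪, hpm, hpc⟩⟩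
      rw [mem_singleton] at hv'
      rw [← hv']
      exact hpv)
    obtain ⟨h1, h3⟩ := (sys_major α hα A N hN b hb T e e' hlam' hphi' a ha hfew).1 hinf hz'
    have h2 : (N : ℤ) ∣ ((((-v⁻¹ : (ZMod N)ˣ) : ZMod N).val : ℕ) : ℤ) - a := by
      rw [← ZMod.intCast_zmod_eq_zero_iff_dvd, Int.cast_sub, Int.cast_natCast,
        ZMod.natCast_zmod_val, hav, sub_self]
    simp only [mod_mul_congr h2]
    exact ⟨h1, h3⟩
  refine ⟨fun u => ?_, ?_, ?_⟩
  · by_cases hu : NonzeroFor α A N {-u⁻¹}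
    · exact Or.inl hu
    · right
      obtain ⟨h1, h2, h3⟩ := hall _ hu
      have h4 : -(-u⁻¹)⁻¹ = u := by
        ext
        simp
      rw [h4] at h2 h3
      have hfx : ∀ j l, Int.fract ((((u : ZMod N).val : ℕ) : ℚ) * (lam j l - t j)) =
          ((((((u : ZMod N).val : ℕ) : ℤ) * e j l) % N : ℤ) : ℚ) / N := fun j l => by
        rw [hlt, ← fract_eq hN]
        push_cast
        rfl
      have hfz : ∀ k, Int.fract ((((u : ZMod N).val : ℕ) : ℚ) * (phi k - ∑ j, t j)) =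
          ((((((u : ZMod N).val : ℕ) : ℤ) * e' k) % N : ℤ) : ℚ) / N := fun k => by
        rw [hpt, ← fract_eq hN]
        push_cast
        rfl
      refine ⟨by rw [hcard]; exact h1, ?_, fun J => ?_⟩
      · simp only [hfx, hfz, ← sum_div]
        congr 1
        exact_mod_cast h2
      · obtain ⟨A', hA', h5, -⟩ := h3 J
        refine ⟨A', hA', ?_⟩
        simp only [hfx, hfz, ← sum_div]
        refine div_le_div_of_nonneg_right ?_ hNQ.le
        exact_mod_cast h5
  · set S : Finset (ZMod N)ˣ := Finset.univ.filter fun v => NonzeroFor α A N {v} with hS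
    refine ⟨S, ?_, ?_⟩
    · have h1 : ∑ u : (ZMod N)ˣ, Phi2 N e e' (((u : ZMod N).val : ℕ) : ℤ) =
          ∑ v : (ZMod N)ˣ, Phi2 N e e' ((((-v⁻¹ : (ZMod N)ˣ) : ZMod N).val : ℕ) : ℤ) :=
        (Equiv.sum_comp ((Equiv.inv (ZMod N)ˣ).trans (Equiv.neg (ZMod N)ˣ))
          (fun u : (ZMod N)ˣ => Phi2 N e e' (((u : ZMod N).val : ℕ) : ℤ))).symm
      have h2 : 4 * ∑ v : (ZMod N)ˣ, Phi2 N e e' ((((-v⁻¹ : (ZMod N)ˣ) : ZMod N).val : ℕ) : ℤ) ≤
          ∑ v : (ZMod N)ˣ, if v ∈ S then (r : ℤ) * (N : ℤ) ^ 2 else 0 := by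
        rw [mul_sum]
        refine Finset.sum_le_sum fun v _ => ?_
        by_cases hv : v ∈ S
        · rw [if_pos hv]
          exact Phi2_le hN e e' _
        · rw [if_neg hv]
          have := (Phi2_of_major hN e e' _
            (hall v (fun h => hv (Finset.mem_filter.2 ⟨Finset.mem_univ _, h⟩))).2).1
          linarith
      rw [← Finset.sum_filter, Finset.filter_mem_eq_inter, Finset.univ_inter,
        Finset.sum_const, nsmul_eq_mul, ← h1] at h2
      have h3 := sum_Phi2 e e' lam phi t hl1 hp1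
      have h4 : ((4 * ∑ u : (ZMod N)ˣ, Phi2 N e e' (((u : ZMod N).val : ℕ) : ℤ) : ℤ) : ℚ) ≤
          (((S.card : ℤ) * ((r : ℤ) * (N : ℤ) ^ 2) : ℤ) : ℚ) := by exact_mod_cast h2
      push_cast at h4 h3
      have h5 : (0 : ℚ) < (N : ℚ) ^ 2 := by positivity
      have h6 : (N : ℚ) ^ 2 * (2 * (N.totient : ℚ) * excess lam phi t) ≤
          (N : ℚ) ^ 2 * (3 * (r : ℚ) * S.card) := by
        linarith
      exact le_of_mul_le_mul_left h6 h5
    · have h1 : ∀ v : (ZMod N)ˣ, ∃ P₀ : ℕ, v ∈ S → ∀ p : ℕ, p.Prime → P₀ < p →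
          (p : ZMod N) = (v : ZMod N) → ∀ (𝔪 : Ideal R) [𝔪.IsMaximal], (p : R) ∈ 𝔪 →
            ¬ PCurvZeroAt α A 𝔪 := by
        intro v
        by_cases hv : v ∈ S
        · obtain ⟨P₀, hP₀⟩ := (Finset.mem_filter.1 hv).2
          exact ⟨P₀, fun _ p hp hpP hpv => hP₀ p hp hpP v (mem_singleton_self v) hpv⟩
        · exact ⟨0, fun h => absurd h hv⟩
      choose P₀ hP₀ using h1
      refine ⟨univ.sup P₀, fun p hp hpP v hv hpv 𝔪 h𝔪 hpm => hP₀ v hv p hp ?_ hpv 𝔪 hpm⟩
      exact lt_of_le_of_lt (le_sup (f := P₀) (mem_univ v)) hpP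
  · intro j l hjl hmax
    by_contra hcon
    push Not at hcon
    obtain ⟨a, ha, htop⟩ := exists_top hN hN (dvd_refl N) (e j l)
    have hau : IsUnit ((a : ℤ) : ZMod N) := (ZMod.coe_int_isUnit_iff_isCoprime a N).2 ha.symm
    obtain ⟨u, hu⟩ := hau
    obtain ⟨-, h3⟩ := hall (-u⁻¹) (hcon _)
    have h4 : -(-u⁻¹)⁻¹ = u := by
      ext
      simp
    rw [h4] at h3
    have h2 : (N : ℤ) ∣ (((u : ZMod N).val : ℕ) : ℤ) - a := by
      rw [← ZMod.intCast_zmod_eq_zero_iff_dvd, Int.cast_sub, Int.cast_natCast,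
        ZMod.natCast_zmod_val, hu, sub_self]
    simp only [mod_mul_congr h2] at h3
    rw [hlt] at hjl hmax
    have hd2 : 1 < ((e j l : ℚ) / N).den :=
      lt_of_le_of_ne (Nat.succ_le_of_lt (Rat.den_pos _)) (Ne.symm hjl)
    have hx0 : 0 < (a * e j l) % N := by
      have h5 := Int.emod_nonneg (a * e j l) hNZ.ne'
      refine lt_of_le_of_ne h5 fun h0 => ?_
      rw [← h0, mul_zero] at htop
      have h6 : (0 : ℤ) < N * ((((e j l : ℚ) / N).den : ℤ) - 1) :=
        mul_pos hNZ (by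
          have : (1 : ℤ) < (((e j l : ℚ) / N).den : ℤ) := by exact_mod_cast hd2
          linarith)
      linarith
    obtain ⟨k, hk, -⟩ := h3.single j l hx0
    have h7 := hmax k
    rw [hpt] at h7
    exact top_le htop (den_mul_mod_le hN a (e' k)) (by exact_mod_cast h7)
      (by exact_mod_cast Rat.den_pos _) (Int.emod_lt_of_pos _ hNZ) hk

/-- Irreducible systems. -/
theorem few_irr (α : Fin n → R) (hα : ∀ i j, i ≠ j → IsUnit (α i - α j))
    (A : Fin n → Matrix (Fin r) (Fin r) R) (lam : Fin n → Fin r → ℚ) (phi : Fin r → ℚ)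
    (hlam : ∀ j, HasExponents (A j) (lam j)) (hphi : HasExponents (∑ j, A j) phi)
    (hirr : AbsIrreducible α A) (hr : 1 < r) (t : Fin n → ℚ) (hfew : nonint lam t ≤ r)
    (h : nonint lam t < r ∨ (∃ k, (phi k - ∑ j, t j).den = 1) ∨ 0 ≤ excess lam phi t ∨
      ∃ j l, (lam j l - t j).den ≠ 1 ∧ ∀ k, (phi k - ∑ j, t j).den ≤ (lam j l - t j).den) :
    BadSome α A := by
  classical
  by_contra hcon
  obtain ⟨N, hN, hNlam, hNphi⟩ := exists_clear lam phi t
  have : NeZero N := ⟨hN.ne'⟩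
  have hNZ : (0 : ℤ) < N := by exact_mod_cast hN
  obtain ⟨b, T, e, e', hb, hT, hl1, hp1, hlam', hphi', hsum⟩ :=
    exists_data A lam phi hlam hphi t N hN hNlam hNphi
  have hB : 0 < 2 * N * b := Nat.mul_pos (by omega) hb
  have hNB : N ∣ 2 * N * b := ⟨2 * b, by ring⟩
  have hcard := nonint_eq hN hl1
  rw [hcard] at hfew h
  have hlt : ∀ j l, lam j l - t j = (e j l : ℚ) / N := fun j l => by
    rw [hl1, add_sub_cancel_right]
  have hpt : ∀ k, phi k - ∑ j, t j = (e' k : ℚ) / N := fun k => by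
    rw [hp1, add_sub_cancel_right]
  have hinf : ∀ a : ℤ, IsCoprime a ((2 * N * b : ℕ) : ℤ) → DenseZero α A (2 * N * b) a := by
    intro a ha g hg P₀
    by_contra h
    apply hcon
    refine ⟨2 * N * b, a, hB, ha, g, hg, P₀, fun p hp hpP hap 𝔪 h𝔪 hpm hgm hpc => h ?_⟩
    exact ⟨p, hp, hpP, hap, 𝔪, h𝔪, hpm, hgm, hpc⟩
  have hmaj : ∀ a : ℤ, IsCoprime a ((2 * N * b : ℕ) : ℤ) →
      (univ.filter fun x : Fin n × Fin r => ¬ (N : ℤ) ∣ e x.1 x.2).card = r ∧
      (∀ k, ¬ (N : ℤ) ∣ e' k) ∧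
      Major True (fun j l => (a * e j l) % N) (fun k => (a * e' k) % N) := fun a ha =>
    (sys_major α hα A N hN b hb T e e' hlam' hphi' a ha hfew).2 hirr (hinf a ha)
      (Or.inr ⟨absIrreducible_dual hirr, hr⟩)
  obtain ⟨h1, h2, -⟩ := hmaj 1 isCoprime_one_left
  rcases h with h | ⟨k, hk⟩ | h | ⟨j, l, hjl, hmax⟩
  · exact absurd h1 h.ne
  · rw [hpt] at hk
    exact h2 k ((den_div hN _).1 hk)
  · -- the average
    have hne : (univ.filter fun x : Fin n × Fin r => ¬ (N : ℤ) ∣ e x.1 x.2).Nonempty := by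
      rw [← card_pos, h1]
      omega
    obtain ⟨x, hx⟩ := hne
    have hx' := (mem_filter.1 hx).2
    have hneg : ∀ u : (ZMod N)ˣ, Phi2 N e e' (((u : ZMod N).val : ℕ) : ℤ) < 0 := by
      intro u
      have hc : IsCoprime (((u : ZMod N).val : ℕ) : ℤ) (N : ℤ) :=
        Nat.isCoprime_iff_coprime.2 (ZMod.val_coe_unit_coprime u)
      obtain ⟨a, ha, hd⟩ := lift_coprime hB hNB hc
      rw [← Phi2_congr e e' hd]
      have haN : IsCoprime a (N : ℤ) := ha.of_isCoprime_of_dvd_right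
        (Int.natCast_dvd_natCast.2 hNB)
      exact (Phi2_of_major hN e e' a (hmaj a ha).2.2).2 trivial hr
        ⟨x.1, x.2, fun h' => hx' (haN.symm.dvd_of_dvd_mul_left h')⟩
    have h4 : ∑ u : (ZMod N)ˣ, Phi2 N e e' (((u : ZMod N).val : ℕ) : ℤ) < 0 :=
      sum_neg (fun u _ => hneg u) univ_nonempty
    have h5 := sum_Phi2 e e' lam phi t hl1 hp1
    have h6 : ((∑ u : (ZMod N)ˣ, Phi2 N e e' (((u : ZMod N).val : ℕ) : ℤ) : ℤ) : ℚ) < 0 := by
      exact_mod_cast h4
    have h7 : (0 : ℚ) ≤ (N.totient : ℚ) * (N : ℚ) ^ 2 * excess lam phi t := by positivity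
    linarith
  · obtain ⟨a, ha, htop⟩ := exists_top hB hN hNB (e j l)
    obtain ⟨-, -, h3⟩ := hmaj a ha
    rw [hlt] at hjl hmax
    have hd2 : 1 < ((e j l : ℚ) / N).den :=
      lt_of_le_of_ne (Nat.succ_le_of_lt (Rat.den_pos _)) (Ne.symm hjl)
    have hx0 : 0 < (a * e j l) % N := by
      have h5 := Int.emod_nonneg (a * e j l) hNZ.ne'
      refine lt_of_le_of_ne h5 fun h0 => ?_
      rw [← h0, mul_zero] at htop
      have h6 : (0 : ℤ) < N * ((((e j l : ℚ) / N).den : ℤ) - 1) :=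
        mul_pos hNZ (by
          have : (1 : ℤ) < (((e j l : ℚ) / N).den : ℤ) := by exact_mod_cast hd2
          linarith)
      linarith
    obtain ⟨k, -, hk⟩ := h3.single j l hx0
    have h7 := hmax k
    rw [hpt] at h7
    exact top_lt htop (den_mul_mod_le hN a (e' k)) (by exact_mod_cast h7)
      (by exact_mod_cast Rat.den_pos _) (Int.emod_lt_of_pos _ hNZ) (hk trivial hr)

/-- the number of exponents of an Okubo system which are not integers -/
lemma nonint_okubo (c : Fin r → Fin n) (μ : Fin r → ℚ) :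
    nonint (fun j l => if c l = j then μ l else 0) (fun _ => 0) =
      (univ.filter fun l => (μ l).den ≠ 1).card := by
  classical
  unfold nonint
  refine card_bij (fun x _ => x.2) ?_ ?_ ?_
  · intro x hx
    have h := (mem_filter.1 hx).2
    simp only [sub_zero] at h
    by_cases hc : c x.2 = x.1
    · rw [if_pos hc] at h
      exact mem_filter.2 ⟨mem_univ _, h⟩
    · rw [if_neg hc] at h
      exact absurd Rat.den_zero h
  · intro x hx y hy hxy
    have key : ∀ z : Fin n × Fin r, z ∈ univ.filter (fun z : Fin n × Fin r =>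
        ((if c z.2 = z.1 then μ z.2 else 0) - 0 : ℚ).den ≠ 1) → c z.2 = z.1 := by
      intro z hz
      have h := (mem_filter.1 hz).2
      simp only [sub_zero] at h
      by_contra hc
      rw [if_neg hc] at h
      exact absurd Rat.den_zero h
    have h1 := key x hx
    have h2 := key y hy
    exact Prod.ext (by rw [← h1, ← h2, hxy]) hxy
  · intro l hl
    refine ⟨(c l, l), mem_filter.2 ⟨mem_univ _, ?_⟩, rfl⟩
    simp only [sub_zero, if_true]
    exact (mem_filter.1 hl).2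

/-- **Irreducible Okubo systems.** -/
theorem okubo_irr (α : Fin n → R) (hα : ∀ i j, i ≠ j → IsUnit (α i - α j))
    (c : Fin r → Fin n) (M : Matrix (Fin r) (Fin r) R) (μ ρ : Fin r → ℚ)
    (hμ : ∀ j, HasExponents (okubo c M j) (fun l => if c l = j then μ l else 0))
    (hρ : HasExponents M ρ) (hirr : AbsIrreducible α (okubo c M)) (hr : 1 < r)
    (h : (∃ l, (μ l).den = 1) ∨ (∃ k, (ρ k).den = 1) ∨ ∑ k, gam (ρ k) ≤ ∑ l, gam (μ l) ∨
      ∃ l, ∀ k, (ρ k).den ≤ (μ l).den) :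
    BadSome α (okubo c M) := by
  classical
  have hM : HasExponents (∑ j, okubo c M j) ρ := by
    rw [sum_okubo]
    exact hρ
  have hcard := nonint_okubo c μ
  have hle : nonint (fun j l => if c l = j then μ l else 0) (fun _ => 0) ≤ r := by
    rw [hcard]
    exact (card_le_univ _).trans (by simp)
  have hlt : (∃ l, (μ l).den = 1) →
      nonint (fun j l => if c l = j then μ l else 0) (fun _ => 0) < r := by
    rintro ⟨l, hl⟩
    rw [hcard]
    have h1 : (univ.filter fun l => (μ l).den ≠ 1) ⊂ univ := by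
      rw [ssubset_univ_iff]
      intro h0
      have := h0 ▸ mem_univ l
      exact (mem_filter.1 this).2 hl
    have h2 := card_lt_card h1
    rw [card_univ, Fintype.card_fin] at h2
    exact h2
  refine few_irr α hα (okubo c M) (fun j l => if c l = j then μ l else 0) ρ hμ hM hirr hr
    (fun _ => 0) hle ?_
  simp only [sum_const_zero, sub_zero]
  rcases h with h | h | h | ⟨l, hl⟩
  · exact Or.inl (hlt h)
  · exact Or.inr (Or.inl h)
  · right; right; left
    unfold excess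
    simp only [sum_const_zero, sub_zero]
    have h1 : ∑ j : Fin n, ∑ l, (1 - gam (if c l = j then μ l else 0)) = ∑ l, (1 - gam (μ l)) := by
      rw [sum_comm]
      refine sum_congr rfl fun l _ => ?_
      rw [sum_eq_single (c l)]
      · rw [if_pos rfl]
      · intro j _ hj
        rw [if_neg (Ne.symm hj)]
        have : gam 0 = 1 := by simpa using Pool.Agent.TH571.PCV.gam_int 0
        rw [this, sub_self]
      · intro h
        exact absurd (mem_univ _) h
    rw [h1]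
    simp only [sum_sub_distrib]
    linarith
  · by_cases h1 : (μ l).den = 1
    · exact Or.inl (hlt ⟨l, h1⟩)
    · right; right; right
      refine ⟨c l, l, ?_, fun k => ?_⟩
      · rw [if_pos rfl]
        exact h1
      · rw [if_pos rfl]
        exact hl k

end final

end Pool.Agent.R927
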