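import Mathlib

set_option autoImplicit false

/-!
Definitions for the majorization of the exponents of operators.
-/

namespace Pool.Agent.R927

open Finset

/-- Strict majorization: the numbers `X x l`, `x ≠ x₀`, and the numbers `z k` have the same sum, and the
sum over any set `J` of pairs `(x, l)` with `x ≠ x₀` is at most the sum of a set of at most as many of
the `z k`, and it is smaller than this sum if `J` has more than `0` and less than `r` elements. -/
def StrictMajor {m r : ℕ} (x₀ : Option (Fin m)) (X : Option (Fin m) → Fin r → ℚ) (z : Fin r → ℚ) :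
    Prop :=
  ∑ x ∈ univ.erase x₀, ∑ l, X x l = ∑ k, z k ∧
    ∀ J : Finset (Option (Fin m) × Fin r), (∀ p ∈ J, p.1 ≠ x₀) → ∃ A : Finset (Fin r),
      A.card ≤ J.card ∧ ∑ p ∈ J, X p.1 p.2 ≤ ∑ k ∈ A, z k ∧
        (0 < J.card → J.card < r → ∑ p ∈ J, X p.1 p.2 < ∑ k ∈ A, z k)

end Pool.Agent.R927
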