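import Pool.Agent.R927.OP
import Pool.Agent.R927.OPDefs
import Pool.Agent.R340.SY.Final

set_option autoImplicit false

/-!
Operators with few nonintegral exponents away from one point.
-/

namespace Pool.Agent.R927

open Finset Polynomial Pool.Agent.Y227.SS Pool.Agent.TH571.PCV
open Pool.Agent.W432.WB Pool.Agent.W432.HK Pool.Agent.Y227.SO
open Pool.Agent.R340.HK (stableWeights_congr)
open Pool.Agent.R340.MI (stableWeights_swap)
open Pool.Agent.R340.SY (expo)

section reindex

variable {m r : ℕ}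

/-- the points other than `x₀` -/
def oth (x₀ : Option (Fin m)) (j : Fin m) : Option (Fin m) := Equiv.swap none x₀ (some j)

lemma oth_ne (x₀ : Option (Fin m)) (j : Fin m) : oth x₀ j ≠ x₀ := by
  intro h
  have h1 : Equiv.swap none x₀ (some j) = Equiv.swap none x₀ none := by
    rw [Equiv.swap_apply_left]
    exact h
  have h2 := (Equiv.swap none x₀).injective h1
  simp at h2

lemma oth_injective (x₀ : Option (Fin m)) : Function.Injective (oth x₀) := fun i j h => by
  have h2 := (Equiv.swap none x₀).injective h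
  exact Option.some.inj h2

lemma exists_oth {x₀ x : Option (Fin m)} (h : x ≠ x₀) : ∃ j, oth x₀ j = x := by
  cases h1 : Equiv.swap none x₀ x with
  | none =>
    exfalso
    apply h
    have h2 : Equiv.swap none x₀ x = Equiv.swap none x₀ x₀ := by
      rw [Equiv.swap_apply_right]
      exact h1
    exact (Equiv.swap none x₀).injective h2
  | some j =>
    refine ⟨j, ?_⟩
    unfold oth
    rw [← h1, Equiv.swap_apply_self]

lemma sum_oth {M : Type*} [AddCommGroup M] (x₀ : Option (Fin m)) (g : Option (Fin m) → M) :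
    ∑ j, g (oth x₀ j) = ∑ x ∈ univ.erase x₀, g x := by
  classical
  have h1 : ∑ x, g x = g x₀ + ∑ j, g (oth x₀ j) := by
    rw [← Equiv.sum_comp (Equiv.swap none x₀) g, Fintype.sum_option, Equiv.swap_apply_left]
    rfl
  have h2 := add_sum_erase univ g (mem_univ x₀)
  rw [h1] at h2
  exact (add_left_cancel h2).symm

lemma card_oth (x₀ : Option (Fin m)) (D : Option (Fin m) → Fin r → ℚ) :
    (univ.filter fun x : Fin m × Fin r => (D (oth x₀ x.1) x.2).den ≠ 1).card =
      ∑ x ∈ univ.erase x₀, (univ.filter fun l => (D x l).den ≠ 1).card := by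
  classical
  have h1 : (univ.filter fun x : Fin m × Fin r => (D (oth x₀ x.1) x.2).den ≠ 1).card =
      ∑ j, (univ.filter fun l => (D (oth x₀ j) l).den ≠ 1).card := by
    simp only [card_filter]
    rw [Fintype.sum_prod_type]
  have h2 := sum_oth x₀ (fun x => (((univ.filter fun l => (D x l).den ≠ 1).card : ℕ) : ℤ))
  rw [h1]
  exact_mod_cast h2

lemma strictMajor_of (x₀ : Option (Fin m)) {N : ℕ} (hN : 0 < N) {X : Option (Fin m) → Fin r → ℚ}
    {z : Fin r → ℚ} {x' : Fin m → Fin r → ℤ} {z' : Fin r → ℤ}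
    (hX : ∀ j l, X (oth x₀ j) l = (x' j l : ℚ) / N) (hz : ∀ k, z k = (z' k : ℚ) / N)
    (h : Major True x' z') : StrictMajor x₀ X z := by
  classical
  have hNQ : (0 : ℚ) < N := by exact_mod_cast hN
  obtain ⟨h1, h2⟩ := h
  refine ⟨?_, fun J hJ => ?_⟩
  · rw [← sum_oth x₀ (fun x => ∑ l, X x l)]
    simp only [hX, hz, ← sum_div]
    congr 1
    exact_mod_cast h1
  · set J' : Finset (Fin m × Fin r) := univ.filter fun i => (oth x₀ i.1, i.2) ∈ J with hJ'
    have hbij : ∀ i, i ∈ J' → (oth x₀ i.1, i.2) ∈ J := fun i hi => (mem_filter.1 hi).2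
    have hinj : ∀ i (_ : i ∈ J') i' (_ : i' ∈ J'), (oth x₀ i.1, i.2) = (oth x₀ i'.1, i'.2) →
        i = i' := by
      intro i _ i' _ h
      have h3 := congrArg Prod.fst h
      have h4 := congrArg Prod.snd h
      exact Prod.ext (oth_injective x₀ h3) h4
    have hsurj : ∀ p ∈ J, ∃ i, ∃ _ : i ∈ J', (oth x₀ i.1, i.2) = p := by
      intro p hp
      obtain ⟨j, hj⟩ := exists_oth (hJ p hp)
      have h5 : (oth x₀ j, p.2) = p := Prod.ext hj rfl
      exact ⟨(j, p.2), mem_filter.2 ⟨mem_univ _, by rw [h5]; exact hp⟩, h5⟩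
    have hcard : J'.card = J.card :=
      card_bij (fun (i : Fin m × Fin r) _ => (oth x₀ i.1, i.2)) hbij hinj
        (fun p hp => hsurj p hp)
    have hsum : ∑ p ∈ J, X p.1 p.2 = ((∑ i ∈ J', x' i.1 i.2 : ℤ) : ℚ) / N := by
      rw [← sum_bij (fun (i : Fin m × Fin r) _ => (oth x₀ i.1, i.2)) hbij hinj
        (fun p hp => hsurj p hp) (f := fun i : Fin m × Fin r => X (oth x₀ i.1) i.2)
        (g := fun p => X p.1 p.2) (fun i _ => rfl)]
      simp only [hX, ← sum_div]
      push_cast
      rfl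
    have hA : ∀ A : Finset (Fin r), ∑ k ∈ A, z k = ((∑ k ∈ A, z' k : ℤ) : ℚ) / N := by
      intro A
      simp only [hz, ← sum_div]
      push_cast
      rfl
    obtain ⟨A, hAc, hA1, hA2⟩ := h2 J'
    rw [hcard] at hAc hA2
    refine ⟨A, hAc, ?_, fun h3 h4 => ?_⟩
    · rw [hsum, hA]
      exact div_le_div_of_nonneg_right (by exact_mod_cast hA1) hNQ.le
    · rw [hsum, hA]
      exact div_lt_div_of_pos_right (by exact_mod_cast hA2 trivial h3 h4) hNQ

end reindex

section op

variable {m r : ℕ} {lam : Fin m → Fin r → ℚ} {phi : Fin r → ℚ} {b : Fin (r + 1) → ℤ[X]}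
  {α : Fin m → AlgebraicClosure ℚ}

/-- The weights, with `x₀` in the role of infinity. -/
theorem op_stable (hm : 1 ≤ m) (hr : 1 ≤ r) (hF : FuchsianWith b α lam phi) (hirr : ¬ Reducible b)
    {B : ℕ} (hB : CommonDen lam phi B) (hbad : ¬ Pool.Agent.W432.HK.BadClass b B) (x₀ : Option (Fin m)) (a : ℤ)
    (ha : IsCoprime a (B : ℤ)) :
    StableWeights ℂ (fun j l => (a : ℝ) * ((expo lam phi (oth x₀ j) l : ℚ) : ℝ))
      (fun l => (a : ℝ) * ((-expo lam phi x₀ l : ℚ) : ℝ)) := by
  have hst : StableWeights ℂ (fun j l => (a : ℝ) * lam j l) (fun l => (a : ℝ) * phi l) := by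
    by_contra hst
    exact hbad ⟨a, ha, bad_class (by omega) (by omega) hF hB a (Or.inr ⟨hirr, hst⟩)⟩
  cases x₀ with
  | none =>
    refine stableWeights_congr hst (fun j l => ⟨0, ?_⟩) (fun l => ⟨0, ?_⟩)
    · simp [oth, expo]
    · simp [expo]
  | some j0 =>
    refine stableWeights_congr (stableWeights_swap hst j0) (fun j l => ⟨0, ?_⟩) (fun l => ⟨0, ?_⟩)
    · by_cases hj : j = j0
      · subst hj
        simp [oth, expo]
      · have h1 : oth (some j0) j = some j := by
          unfold oth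
          rw [Equiv.swap_apply_of_ne_of_ne (by simp) (by simpa using hj)]
        rw [h1]
        simp [expo, hj]
    · simp [expo]

/-- **Operators with few nonintegral exponents away from one point.** -/
theorem op_few (hm : 1 ≤ m) (hr : 2 ≤ r) (hF : FuchsianWith b α lam phi) (hirr : ¬ Reducible b)
    {B : ℕ} (hB : CommonDen lam phi B) (hbad : ¬ Pool.Agent.W432.HK.BadClass b B) (x₀ : Option (Fin m))
    {ε : Option (Fin m) → ℚ} (hε : ∑ x, ε x = 0) {D : Option (Fin m) → Fin r → ℚ}
    (hD : ∀ x l, D x l = expo lam phi x l - ε x)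
    (hfew : ∑ x ∈ univ.erase x₀, (univ.filter fun l => (D x l).den ≠ 1).card ≤ r) :
    ∑ x ∈ univ.erase x₀, (univ.filter fun l => (D x l).den ≠ 1).card = r ∧
    (∀ k, (D x₀ k).den ≠ 1) ∧
    (∀ q : ℕ, 0 < q → (∀ x l, ∃ z : ℤ, (q : ℚ) * D x l = z) → ∀ u : ℤ, IsCoprime u (q : ℤ) →
      StrictMajor x₀ (fun x l => Int.fract ((u : ℚ) * D x l))
        (fun k => Int.fract (-((u : ℚ) * D x₀ k)))) ∧
    ∑ k, (1 - gam (D x₀ k)) < ∑ x ∈ univ.erase x₀, ∑ l, (1 - gam (D x l)) ∧
    ∀ x l, x ≠ x₀ → (D x l).den ≠ 1 → ∃ k, (D x l).den < (D x₀ k).den := by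
  classical
  have hst := op_stable hm (by omega) hF hirr hB hbad x₀
  set lam' : Fin m → Fin r → ℚ := fun j l => expo lam phi (oth x₀ j) l with hlam'
  set phi' : Fin r → ℚ := fun l => -expo lam phi x₀ l with hphi'
  set t : Fin m → ℚ := fun j => ε (oth x₀ j) with ht
  have hsum : ∑ j, t j = -ε x₀ := by
    have h1 := sum_oth x₀ ε
    have h2 := add_sum_erase univ ε (mem_univ x₀)
    rw [hε] at h2
    rw [ht]
    simp only
    rw [h1]
    linarith
  have h1 : ∀ j l, lam' j l - t j = D (oth x₀ j) l := fun j l => by rw [hD]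
  have h2 : ∀ k, phi' k - ∑ j, t j = -D x₀ k := fun k => by
    rw [hsum, hD, hphi']
    ring
  have hnon : nonint lam' t = ∑ x ∈ univ.erase x₀, (univ.filter fun l => (D x l).den ≠ 1).card := by
    unfold nonint
    simp only [h1]
    exact card_oth x₀ D
  have hexc : excess lam' phi' t =
      ∑ k, (1 - gam (D x₀ k)) - ∑ x ∈ univ.erase x₀, ∑ l, (1 - gam (D x l)) := by
    unfold excess
    simp only [h1, h2, gam_neg]
    rw [sum_oth x₀ (fun x => ∑ l, (1 - gam (D x l)))]
  have hfew' : nonint lam' t ≤ r := by rw [hnon]; exact hfew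
  have key := fun h => few_abs (lam := lam') (phi := phi') hB.1 hst (by omega) t hfew' h
  rw [hnon, hexc] at key
  simp only [h1, h2, Rat.den_neg_eq_den] at key
  refine ⟨?_, fun k hk => key (Or.inr (Or.inl ⟨k, hk⟩)), ?_, ?_, ?_⟩
  · by_contra h
    exact key (Or.inl (lt_of_le_of_ne hfew h))
  · intro q hq hqD u hu
    have hqQ : (q : ℚ) ≠ 0 := by exact_mod_cast hq.ne'
    choose E hE using hqD
    have hEq : ∀ x l, D x l = (E x l : ℚ) / q := fun x l => by
      rw [← hE]
      field_simp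
    have hl : ∀ j l, lam' j l = ((E (oth x₀ j) l : ℤ) : ℚ) / q + t j := by
      intro j l
      rw [← hEq, ← h1]
      ring
    have hp : ∀ l, phi' l = ((-E x₀ l : ℤ) : ℚ) / q + ∑ j, t j := by
      intro l
      have h3 := h2 l
      rw [hEq] at h3
      push_cast
      rw [neg_div]
      linarith
    obtain ⟨a, ha, hau⟩ := lift_coprime (D := q) (N := 2 * q) (by omega) (dvd_mul_left _ _) hu
    obtain ⟨-, -, h4⟩ := major_abs (lam := lam') (phi := phi') hB.1 hst hq hl hp (by omega) hfew' a ha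
    have h5 : (fun (j : Fin m) (l : Fin r) => (a * E (oth x₀ j) l) % (q : ℤ)) =
        fun j l => (u * E (oth x₀ j) l) % (q : ℤ) := by
      ext j l
      exact mod_mul_congr hau _
    have h6 : (fun (k : Fin r) => (a * -E x₀ k) % (q : ℤ)) =
        fun k => (u * -E x₀ k) % (q : ℤ) := by
      ext k
      exact mod_mul_congr hau _
    rw [h5, h6] at h4
    refine strictMajor_of x₀ hq (fun j l => ?_) (fun k => ?_) h4
    · rw [hEq, ← fract_eq hq]
    · rw [hEq, ← fract_eq hq]
      congr 1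
      push_cast
      ring
  · by_contra h
    exact key (Or.inr (Or.inr (Or.inl (by linarith [not_lt.1 h]))))
  · intro x l hx hxl
    by_contra h
    push Not at h
    obtain ⟨j, hj⟩ := exists_oth hx
    refine key (Or.inr (Or.inr (Or.inr ⟨j, l, ?_, fun k => ?_⟩)))
    · rw [hj]
      exact hxl
    · rw [hj]
      exact h k

end op

end Pool.Agent.R927
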