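import Pool.Agent.R927.FW

set_option autoImplicit false

/-!
Operators with few nonintegral exponents away from one point.
-/

namespace Pool.Agent.R927

open Finset Polynomial Pool.Agent.Y227.SS Pool.Agent.TH571.PCV
open Pool.Agent.W432.WB Pool.Agent.W432.HK Pool.Agent.Y227.SO

variable {m r : ℕ} {lam : Fin m → Fin r → ℚ} {phi : Fin r → ℚ} {b : Fin (r + 1) → ℤ[X]}
  {α : Fin m → AlgebraicClosure ℚ}

theorem op_stable' (hm : 1 ≤ m) (hr : 1 ≤ r) (hF : FuchsianWith b α lam phi)
    (hirr : ¬ Reducible b) {B : ℕ} (hB : CommonDen lam phi B)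
    (hbad : ¬ Pool.Agent.W432.HK.BadClass b B) (a : ℤ) (ha : IsCoprime a (B : ℤ)) :
    StableWeights ℂ (fun j l => (a : ℝ) * lam j l) (fun l => (a : ℝ) * phi l) := by
  by_contra hst
  exact hbad ⟨a, ha, bad_class (by omega) (by omega) hF hB a (Or.inr ⟨hirr, hst⟩)⟩

/-- Irreducible operators. -/
theorem op_cases (hm : 1 ≤ m) (hr : 2 ≤ r) (hF : FuchsianWith b α lam phi) (hirr : ¬ Reducible b)
    (x₀ : Option (Fin m)) {ε : Option (Fin m) → ℚ} {D : Option (Fin m) → Fin r → ℚ}
    (hD : IsTwist lam phi ε D) (hfew : nonintAway x₀ D ≤ r) :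
    ((∀ N, CommonDen lam phi N → Pool.Agent.W432.HK.BadClass b N) ∨ MajorAll x₀ D) ∧
    (Unbalanced x₀ D → ∀ N, CommonDen lam phi N → Pool.Agent.W432.HK.BadClass b N) := by
  refine ⟨?_, fun h N hN => ?_⟩
  · by_cases h : ∀ N, CommonDen lam phi N → Pool.Agent.W432.HK.BadClass b N
    · exact Or.inl h
    · right
      push Not at h
      obtain ⟨B, hB, hbad⟩ := h
      exact (abs_five hB.1 (op_stable' hm (by omega) hF hirr hB hbad) (by omega) x₀ hD hfew).1
  · by_contra hbad
    obtain ⟨h1, h2, h3⟩ := abs_five hN.1 (op_stable' hm (by omega) hF hirr hN hbad) (by omega) x₀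
      hD hfew
    exact h.false (by omega) h1 h2 h3

end Pool.Agent.R927
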