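import Pool.Agent.R927.PBDefs
import Pool.Agent.R927.OK9
import Pool.Agent.W77.IM.CurvS
import Pool.Agent.TH295.FO.Zero

set_option autoImplicit false

/-!
Pull-backs of Fuchsian systems to curves.
-/

namespace Pool.Agent.R927

open Finset Polynomial Pool.Agent.W77.IM
open Pool.Agent.W432.PC (PCurvZeroAt CondII)

universe u v w

section coords

variable {R : Type u} [CommRing R] {F : Type v} [Field F] [Algebra R F] {V : Type w}
  [AddCommGroup V] [Module F V] {n r : ℕ} {α : Fin n → R} {A : Fin n → Matrix (Fin r) (Fin r) R}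
  {δ : Derivation R F F} {x : F} {nabla : V →+ V} {v : Fin r → V}

lemma HasPullback.conn' (h : HasPullback α A δ x nabla v) (hα : ∀ j, x - algebraMap R F (α j) ≠ 0)
    (l : Fin r) : (aeval x (Pool.Agent.W432.PC.T α) : F) • nabla (v l) =
      -∑ i, (aeval x (Pool.Agent.W432.PC.B α A i l) : F) • v i := by
  have h1 : ∀ j, (aeval x (Pool.Agent.W432.PC.T α) : F) * (x - algebraMap R F (α j))⁻¹ =
      aeval x (Pool.Agent.W432.PC.Tc α j) := by
    intro j
    have h0 : Pool.Agent.W432.PC.T α = (X - C (α j)) * Pool.Agent.W432.PC.Tc α j :=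
      (mul_prod_erase univ (fun i => X - C (α i)) (mem_univ j)).symm
    have := hα j
    rw [h0, map_mul, map_sub, aeval_X, aeval_C]
    field_simp
  rw [h.conn, smul_neg, smul_sum]
  congr 1
  have h2 : ∀ i, (aeval x (Pool.Agent.W432.PC.B α A i l) : F) • v i =
      ∑ j, (aeval x (Pool.Agent.W432.PC.Tc α j) * algebraMap R F (A j i l)) • v i := by
    intro i
    rw [← sum_smul]
    congr 1
    simp only [Pool.Agent.W432.PC.B, Matrix.sum_apply, Matrix.smul_apply, smul_eq_mul,
      Matrix.map_apply, map_sum, map_mul, aeval_C]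
  simp only [h2, smul_sum]
  rw [sum_comm]
  refine sum_congr rfl fun i _ => sum_congr rfl fun j _ => ?_
  rw [smul_smul, ← mul_assoc, h1]

lemma HasPullback.iterate (h : HasPullback α A δ x nabla v) (hx : δ x = 1)
    (hα : ∀ j, x - algebraMap R F (α j) ≠ 0) (m : ℕ) (l : Fin r) :
    (aeval x (Pool.Agent.W432.PC.T α) : F) ^ m • nabla^[m] (v l) =
      ∑ i, (aeval x (Pool.Agent.W432.PC.Q α A m i l) : F) • v i := by
  classical
  induction m with
  | zero =>
    rw [pow_zero, one_smul, Function.iterate_zero, id]
    rw [Finset.sum_eq_single l]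
    · simp [Pool.Agent.W432.PC.Q]
    · intro j _ hj
      simp [Pool.Agent.W432.PC.Q, hj]
    · intro h; exact absurd (mem_univ l) h
  | succ m ih =>
    rw [Function.iterate_succ_apply']
    set t : F := aeval x (Pool.Agent.W432.PC.T α) with ht
    set u : V := nabla^[m] (v l) with hu
    have hd : ∀ f : R[X], δ (aeval x f) = aeval x (derivative f) := der_aeval δ hx
    -- the derivative of the induction hypothesis
    have h1 : nabla (t ^ m • u) = ((m : F) * aeval x (derivative (Pool.Agent.W432.PC.T α)) *
        t ^ (m - 1)) • u + t ^ m • nabla u := by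
      rw [h.leibniz, Derivation.leibniz_pow, ht, hd]
      congr 2
      simp only [smul_eq_mul, nsmul_eq_mul]
      ring
    have h2 : nabla (∑ i, (aeval x (Pool.Agent.W432.PC.Q α A m i l) : F) • v i) =
        ∑ i, (aeval x (derivative (Pool.Agent.W432.PC.Q α A m i l)) : F) • v i +
          ∑ i, (aeval x (Pool.Agent.W432.PC.Q α A m i l) : F) • nabla (v i) := by
      rw [map_sum, ← sum_add_distrib]
      refine sum_congr rfl fun i _ => ?_
      rw [h.leibniz, hd]
    have h3 : t ^ (m + 1) • nabla u = t • nabla (t ^ m • u) -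
        ((m : F) * aeval x (derivative (Pool.Agent.W432.PC.T α))) • (t ^ m • u) := by
      rw [h1, smul_add, smul_smul, smul_smul, smul_smul]
      have h4 : t * ((m : F) * aeval x (derivative (Pool.Agent.W432.PC.T α)) * t ^ (m - 1)) =
          (m : F) * aeval x (derivative (Pool.Agent.W432.PC.T α)) * t ^ m := by
        cases m with
        | zero => simp
        | succ m => rw [Nat.add_sub_cancel]; ring
      rw [h4, pow_succ]
      rw [mul_comm t (t ^ m)]
      abel
    rw [h3, ih, h2, smul_add]
    have h5 : t • ∑ i, (aeval x (Pool.Agent.W432.PC.Q α A m i l) : F) • nabla (v i) =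
        -∑ i, (∑ k, (aeval x (Pool.Agent.W432.PC.B α A i k) : F) *
          aeval x (Pool.Agent.W432.PC.Q α A m k l)) • v i := by
      rw [smul_sum]
      have h6 : ∀ k, t • (aeval x (Pool.Agent.W432.PC.Q α A m k l) : F) • nabla (v k) =
          -∑ i, ((aeval x (Pool.Agent.W432.PC.B α A i k) : F) *
            aeval x (Pool.Agent.W432.PC.Q α A m k l)) • v i := by
        intro k
        rw [smul_comm, ht, h.conn' hα, smul_neg, smul_sum]
        congr 1
        refine sum_congr rfl fun i _ => ?_
        rw [smul_smul, mul_comm]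
      simp only [h6, sum_neg_distrib]
      rw [sum_comm]
      simp only [sum_smul]
    rw [h5, smul_sum, smul_sum]
    have h7 : ∀ i, (aeval x (Pool.Agent.W432.PC.Q α A (m + 1) i l) : F) =
        t * aeval x (derivative (Pool.Agent.W432.PC.Q α A m i l)) -
        (m : F) * aeval x (derivative (Pool.Agent.W432.PC.T α)) *
          aeval x (Pool.Agent.W432.PC.Q α A m i l) -
        ∑ k, (aeval x (Pool.Agent.W432.PC.B α A i k) : F) *
          aeval x (Pool.Agent.W432.PC.Q α A m k l) := by
      intro i
      simp only [Pool.Agent.W432.PC.Q, Matrix.sub_apply, Matrix.smul_apply, smul_eq_mul,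
        Matrix.map_apply, Matrix.mul_apply, map_sub, map_mul, map_sum, map_natCast]
      rfl
    simp only [h7, sub_smul, sum_sub_distrib, smul_smul]
    abel

end coords

end Pool.Agent.R927
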