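import Pool.Agent.R927.PB

set_option autoImplicit false

/-!
The `p`-curvatures of a pull-back determine those of the system.
-/

namespace Pool.Agent.R927

open Finset Polynomial Pool.Agent.W77.IM
open Pool.Agent.W432.PC (PCurvZeroAt CondII)

universe u v w

lemma coeff_mem_iff_map {R : Type u} [CommRing R] (𝔪 : Ideal R) (f : R[X]) :
    (∀ t, f.coeff t ∈ 𝔪) ↔ f.map (Ideal.Quotient.mk 𝔪) = 0 := by
  constructor
  · intro h
    ext t
    rw [coeff_map, coeff_zero]
    exact Ideal.Quotient.eq_zero_iff_mem.2 (h t)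
  · intro h t
    have h1 := congrArg (fun q => q.coeff t) h
    simp only [coeff_map, coeff_zero] at h1
    exact Ideal.Quotient.eq_zero_iff_mem.1 h1

lemma map_ne_zero_of_lc {R : Type u} [CommRing R] {𝔪 : Ideal R} {f : R[X]}
    (h : f.leadingCoeff ∉ 𝔪) : f.map (Ideal.Quotient.mk 𝔪) ≠ 0 := fun h0 =>
  h ((coeff_mem_iff_map 𝔪 f).2 h0 f.natDegree)

/-- The `p`-curvatures of a pull-back determine those of the system. -/
theorem transfer {R : Type u} [CommRing R] [IsDomain R] [CharZero R] [Algebra.FiniteType ℤ R]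
    {F : Type v} [Field F] [Algebra R F] (hRF : Function.Injective (algebraMap R F)) {V : Type w}
    [AddCommGroup V] [Module F V] {n r : ℕ} {α : Fin n → R} {A : Fin n → Matrix (Fin r) (Fin r) R}
    {δ : Derivation R F F} {x : F} (hx : δ x = 1) {nabla : V →+ V} {v : Fin r → V}
    (hpb : HasPullback α A δ x nabla v) (T : R[X]) (hT : T ≠ 0) (E : Submodule (CoordRing x T R) V)
    (hfg : E.FG) (hspan : ∀ u : V, ∃ q : R[X], q ≠ 0 ∧ (aeval x q : F) • u ∈ E) :
    ∃ g : R, g ≠ 0 ∧ ∀ (𝔪 : Ideal R) [𝔪.IsMaximal], g ∉ 𝔪 → VanishAt nabla E 𝔪 →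
      PCurvZeroAt α A 𝔪 := by
  classical
  have hne : ∀ q : R[X], q ≠ 0 → (aeval x q : F) ≠ 0 := fun q hq =>
    aeval_ne_zero hRF (δ.restrictScalars ℤ) (fun a => δ.map_algebraMap a) x hx hq
  have hTx := hne T hT
  have hα : ∀ j, x - algebraMap R F (α j) ≠ 0 := by
    intro j
    have h1 := hne (X - C (α j)) (X_sub_C_ne_zero _)
    rwa [map_sub, aeval_X, aeval_C] at h1
  set Tα : R[X] := Pool.Agent.W432.PC.T α with hTα
  have hTα0 : Tα ≠ 0 := (monic_prod_of_monic _ _ fun i _ => monic_X_sub_C _).ne_zero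
  have hTαx := hne Tα hTα0
  -- the field of constants
  let K := FractionRing R
  have hRK : Function.Injective (algebraMap R K) := IsFractionRing.injective R K
  have hchK : CharZero K := charZero_of_injective_algebraMap (R := R) hRK
  let ι : K →+* F := IsFractionRing.lift hRF
  have hιR : ∀ a, ι (algebraMap R K a) = algebraMap R F a := fun a =>
    IsFractionRing.lift_algebraMap hRF a
  have hιc : ι.comp (algebraMap R K) = algebraMap R F := RingHom.ext hιR
  have hι : ∀ c, (δ.restrictScalars ℤ) (ι c) = 0 := by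
    intro c
    obtain ⟨a, b, hb, hc⟩ := IsFractionRing.div_surjective (A := R) c
    have hb0 : algebraMap R K b ≠ 0 := by
      rw [Ne, map_eq_zero_iff _ hRK]
      exact nonZeroDivisors.ne_zero hb
    have h1 : c * algebraMap R K b = algebraMap R K a := by rw [← hc, div_mul_cancel₀ _ hb0]
    have h2 := congrArg (fun z => (δ.restrictScalars ℤ) (ι z)) h1
    have h4 : ∀ a : R, (δ.restrictScalars ℤ) (algebraMap R F a) = 0 := fun a =>
      δ.map_algebraMap a
    simp only [map_mul, Derivation.leibniz, hιR, h4, smul_eq_mul, mul_zero, zero_add] at h2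
    have h3 : algebraMap R F b ≠ 0 := by
      rw [← hιR, Ne, map_eq_zero]; exact hb0
    exact (mul_eq_zero.mp h2).resolve_left h3
  have he : Function.Injective (eval₂RingHom ι x) :=
    eval_injective (δ.restrictScalars ℤ) ι x hι hx
  have hevR : ∀ f : R[X], eval₂RingHom ι x (f.map (algebraMap R K)) = aeval x f := by
    intro f
    rw [coe_eval₂RingHom, eval₂_map, hιc]
    rfl
  -- generators of the lattice and a basis over the rational functions
  obtain ⟨q, s, hs⟩ := Submodule.fg_iff_exists_fin_generating_family.mp hfg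
  have hEs : E = Submodule.span (CoordRing x T R) (Set.range s) := hs.symm
  obtain ⟨N, b₀, σ₀, -, hσ₀, -, hind₀⟩ := exists_lattice (eval₂RingHom ι x) he s
  obtain ⟨c, hc, g, hg⟩ := clear_poly (R := R) (fun ij : Fin N × Fin q => σ₀ ij.1 ij.2)
  have hcF : algebraMap R F c ≠ 0 := by rw [Ne, map_eq_zero_iff _ hRF]; exact hc
  obtain ⟨b, hb⟩ : ∃ b : Fin N → V, ∀ j, b j = (algebraMap R F c)⁻¹ • b₀ j := ⟨_, fun _ => rfl⟩
  have hσ : ∀ i, s i = ∑ j, (aeval x (g (j, i)) : F) • b j := by
    intro i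
    conv_lhs => rw [hσ₀ i]
    refine sum_congr rfl fun j _ => ?_
    rw [hb, ← hevR, ← hg (j, i), smul_smul, map_mul, coe_eval₂RingHom, eval₂_C, hιR]
    congr 1
    field_simp
  have hind : ∀ f : Fin N → R[X], ∑ j, (aeval x (f j) : F) • b j = 0 → ∀ j, f j = 0 := by
    intro f hf j
    have h1 : ∑ j, eval₂RingHom ι x ((f j).map (algebraMap R K)) • b₀ j =
        algebraMap R F c • ∑ j, (aeval x (f j) : F) • b j := by
      rw [smul_sum]
      refine sum_congr rfl fun j _ => ?_
      rw [hb, hevR, smul_smul, smul_smul]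
      congr 1
      field_simp
    rw [hf, smul_zero] at h1
    have h2 := congrFun (hind₀ (fun j => (f j).map (algebraMap R K)) h1) j
    exact (Polynomial.map_eq_zero_iff hRK).1 h2
  have hsb : ∀ f : Fin q → R[X], ∑ i, (aeval x (f i) : F) • s i =
      ∑ k, (aeval x (∑ i, f i * g (k, i)) : F) • b k := by
    intro f
    have h1 : ∀ i, (aeval x (f i) : F) • s i =
        ∑ k, (aeval x (f i * g (k, i)) : F) • b k := by
      intro i
      conv_lhs => rw [hσ i, smul_sum]
      refine sum_congr rfl fun k _ => ?_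
      rw [smul_smul, map_mul]
    simp only [h1]
    rw [sum_comm]
    refine sum_congr rfl fun k _ => ?_
    rw [← sum_smul, map_sum]
  -- multiples of the basis in the lattice
  choose ql hql0 hqlE using fun l => hspan (v l)
  obtain ⟨Q0, hQ0def⟩ : ∃ Q0 : R[X], Q0 = ∏ l, ql l := ⟨_, rfl⟩
  have hQ0 : Q0 ≠ 0 := by rw [hQ0def]; exact prod_ne_zero_iff.2 fun l _ => hql0 l
  have hQE : ∀ l, (aeval x Q0 : F) • v l ∈ E := by
    intro l
    have h1 : (aeval x Q0 : F) • v l = (⟨aeval x (∏ k ∈ univ.erase l, ql k), aeval_mem x T _⟩ :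
        CoordRing x T R) • ((aeval x (ql l) : F) • v l) := by
      change _ = (aeval x (∏ k ∈ univ.erase l, ql k) : F) • ((aeval x (ql l) : F) • v l)
      rw [smul_smul, ← map_mul, mul_comm, mul_prod_erase _ _ (mem_univ l), hQ0def]
    rw [h1]
    exact E.smul_mem _ (hqlE l)
  have hrep : ∀ l, Rep x T (⊤ : Ideal R) s ((aeval x Q0 : F) • v l) := fun l =>
    rep_of_mem hTx hEs (hQE l)
  choose nn ff _ hff using hrep
  set a : ℕ := ∑ l, nn l with ha
  have hrep' : ∀ l, ∃ f' : Fin q → R[X], (aeval x T : F) ^ a • (aeval x Q0 : F) • v l =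
      ∑ i, (aeval x (f' i) : F) • s i := by
    intro l
    obtain ⟨f', -, hf'⟩ := Rep.raise (I := (⊤ : Ideal R)) (fun _ _ => Submodule.mem_top) (hff l)
      (a - nn l)
    have h1 : nn l ≤ a := single_le_sum (f := nn) (fun _ _ => Nat.zero_le _) (mem_univ l)
    rw [Nat.add_sub_cancel' h1] at hf'
    exact ⟨f', hf'⟩
  choose f' hf' using hrep'
  obtain ⟨H, hH⟩ : ∃ H : Fin N → Fin r → R[X], ∀ k l, H k l = ∑ i, f' l i * g (k, i) :=
    ⟨_, fun _ _ => rfl⟩
  have hHv : ∀ l, (aeval x T : F) ^ a • (aeval x Q0 : F) • v l =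
      ∑ k, (aeval x (H k l) : F) • b k := by
    intro l
    rw [hf', hsb]
    simp only [hH]
  have hHs : ∀ f : Fin r → R[X], ∑ k, (aeval x (∑ l, f l * H k l) : F) • b k =
      ∑ l, (aeval x (f l) : F) • ((aeval x T : F) ^ a • (aeval x Q0 : F) • v l) := by
    intro f
    simp only [hHv, smul_sum, map_sum, sum_smul]
    rw [sum_comm]
    refine sum_congr rfl fun l _ => sum_congr rfl fun k _ => ?_
    rw [smul_smul, map_mul]
  have hHind : ∀ f : Fin r → R[X], (∀ k, ∑ l, (f l).map (algebraMap R R) * H k l = 0) →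
      f = 0 := by
    intro f hf
    have hf2 : ∀ k, ∑ l, f l * H k l = 0 := by
      intro k
      have h1 := hf k
      simpa only [Algebra.algebraMap_self, Polynomial.map_id] using h1
    have h1 := hHs f
    simp only [hf2, map_zero, zero_smul, sum_const_zero] at h1
    have h2 : ∑ l, ((aeval x (f l) : F) * ((aeval x T : F) ^ a * aeval x Q0)) • v l = 0 := by
      rw [h1]
      refine sum_congr rfl fun l _ => ?_
      rw [smul_smul, smul_smul, mul_assoc]
    funext l
    have h3 := (Fintype.linearIndependent_iff.mp hpb.indep) _ h2 l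
    have h4 : (aeval x T : F) ^ a * aeval x Q0 ≠ 0 := mul_ne_zero (pow_ne_zero _ hTx) (hne Q0 hQ0)
    have h5 := (mul_eq_zero.1 h3).resolve_right h4
    by_contra h6
    exact hne _ h6 h5
  obtain ⟨h', hh', hmod⟩ := indep_mod_poly (R₀ := R) (R := R) (fun _ _ h => h) H hHind
    (g := (1 : R)) one_ne_zero
  refine ⟨h' * (T.leadingCoeff * Q0.leadingCoeff), mul_ne_zero hh'
    (mul_ne_zero (leadingCoeff_ne_zero.2 hT) (leadingCoeff_ne_zero.2 hQ0)), ?_⟩
  intro 𝔪 h𝔪 hg𝔪 hvan
  have hm1 : h' ∉ 𝔪 := fun h => hg𝔪 (𝔪.mul_mem_right _ h)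
  have hm2 : T.leadingCoeff ∉ 𝔪 := fun h => hg𝔪 (𝔪.mul_mem_left _ (𝔪.mul_mem_right _ h))
  have hm3 : Q0.leadingCoeff ∉ 𝔪 := fun h => hg𝔪 (𝔪.mul_mem_left _ (𝔪.mul_mem_left _ h))
  let _ : Field (R ⧸ 𝔪) := Ideal.Quotient.field 𝔪
  obtain ⟨p, hp, hchar⟩ := exists_char (Ideal.Quotient.mk 𝔪) Ideal.Quotient.mk_surjective
  have hpm : (p : R) ∈ 𝔪 := by
    rw [← Ideal.Quotient.eq_zero_iff_mem, map_natCast]
    exact CharP.cast_eq_zero _ p
  -- the standard lattice
  let L : Submodule (CoordRing x Tα R) V := Submodule.span (CoordRing x Tα R) (Set.range v)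
  have hvL : ∀ l, v l ∈ L := fun l => Submodule.subset_span ⟨l, rfl⟩
  have hLst : ∀ u ∈ L, nabla u ∈ L := by
    intro u hu
    induction hu using Submodule.span_induction with
    | mem u hu =>
      obtain ⟨l, rfl⟩ := hu
      have h1 := hpb.conn' hα l
      have h2 : nabla (v l) = (⟨(aeval x Tα : F)⁻¹, inv_mem_coord x Tα⟩ : CoordRing x Tα R) •
          -∑ i, (⟨aeval x (Pool.Agent.W432.PC.B α A i l), aeval_mem x Tα _⟩ :
            CoordRing x Tα R) • v i := by
        change nabla (v l) = (aeval x Tα : F)⁻¹ •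
          -∑ i, (aeval x (Pool.Agent.W432.PC.B α A i l) : F) • v i
        rw [← h1, smul_smul, inv_mul_cancel₀ hTαx, one_smul]
      rw [h2]
      exact L.smul_mem _ (L.neg_mem (L.sum_mem fun i _ => L.smul_mem _ (hvL i)))
    | zero => rw [map_zero]; exact L.zero_mem
    | add u w _ _ hu hw => rw [map_add]; exact L.add_mem hu hw
    | smul c u hu' hu =>
      have h1 : nabla (c • u) = (dA δ hx Tα c) • u + c • nabla u := hpb.leibniz c u
      rw [h1]
      exact L.add_mem (L.smul_mem _ hu') (L.smul_mem _ hu)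
  have hQp : Pool.Agent.W432.PC.Q (fun j => Ideal.Quotient.mk 𝔪 (α j))
      (fun j => (A j).map (Ideal.Quotient.mk 𝔪)) p = 0 := by
    rw [← Pool.Agent.W432.PC.Q_map]
    ext1 i l
    rw [Matrix.map_apply, coe_mapRingHom, Matrix.zero_apply]
    -- the three relations
    have h1 := psi_linear δ nabla hx hTαx hpb.leibniz hLst hp hpm 1
      (⟨aeval x Q0, aeval_mem x Tα _⟩ : CoordRing x Tα R) (hvL l)
    rw [mul_one] at h1
    obtain ⟨m, gg, hgg, h2⟩ := rep_of_mem_smul hTαx (s := v) (E := L) rfl 𝔪 h1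
    obtain ⟨n', f, hf, h3⟩ := rep_of_mem_smul hTx hEs 𝔪 (hvan p hp hpm _ (hQE l))
    have h4 := hpb.iterate hx hα p l
    rw [hsb] at h3
    set w : V := nabla^[p] ((aeval x Q0 : F) • v l) with hw
    have h2' : (aeval x Tα : F) ^ m • (w - (aeval x Q0 : F) • nabla^[p] (v l)) =
        ∑ j, (aeval x (gg j) : F) • v j := h2
    have h5 : (aeval x Tα : F) ^ (m + p) • w = ∑ j, (aeval x (Tα ^ p * gg j +
        Tα ^ m * Q0 * Pool.Agent.W432.PC.Q α A p j l) : F) • v j := by
      have h6 : (aeval x Tα : F) ^ (m + p) • w =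
          (aeval x Tα : F) ^ p • ((aeval x Tα : F) ^ m • (w - (aeval x Q0 : F) •
            nabla^[p] (v l))) + ((aeval x Tα : F) ^ m * aeval x Q0) •
              ((aeval x Tα : F) ^ p • nabla^[p] (v l)) := by
        rw [pow_add]
        module
      rw [h6, h2', h4, smul_sum, smul_sum, ← sum_add_distrib]
      refine sum_congr rfl fun j _ => ?_
      rw [smul_smul, smul_smul, ← add_smul]
      simp only [map_add, map_mul, map_pow]
    obtain ⟨Z, hZ⟩ : ∃ Z : Fin r → R[X], ∀ j, Z j = Tα ^ p * gg j +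
      Tα ^ m * Q0 * Pool.Agent.W432.PC.Q α A p j l := ⟨_, fun _ => rfl⟩
    simp only [← hZ] at h5
    have h8 : ∀ k, ∑ j, (T ^ n' * Z j) * H k j = T ^ a * Q0 * Tα ^ (m + p) *
        ∑ i, f i * g (k, i) := by
      intro k
      rw [← sub_eq_zero]
      refine hind (fun k => ∑ j, (T ^ n' * Z j) * H k j - T ^ a * Q0 * Tα ^ (m + p) *
        ∑ i, f i * g (k, i)) ?_ k
      have h9 : ∑ k, (aeval x (T ^ a * Q0 * Tα ^ (m + p) * ∑ i, f i * g (k, i)) : F) • b k =
          ((aeval x T : F) ^ a * aeval x Q0 * (aeval x Tα : F) ^ (m + p)) •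
            ((aeval x T : F) ^ n' • w) := by
        rw [h3, smul_sum]
        refine sum_congr rfl fun k _ => ?_
        rw [smul_smul]
        simp only [map_mul, map_pow]
      have h10 : ∑ k, (aeval x (∑ j, (T ^ n' * Z j) * H k j) : F) • b k =
          ((aeval x T : F) ^ n' * ((aeval x T : F) ^ a * aeval x Q0)) •
            ((aeval x Tα : F) ^ (m + p) • w) := by
        rw [hHs, h5, smul_sum]
        refine sum_congr rfl fun j _ => ?_
        rw [smul_smul, smul_smul, smul_smul]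
        congr 1
        simp only [map_mul, map_pow]
        ring
      simp only [map_sub, sub_smul, sum_sub_distrib]
      rw [h9, h10, smul_smul, smul_smul, sub_eq_zero]
      congr 1
      ring
    have h11 := hmod 𝔪 h𝔪 hm1 (fun j => T ^ n' * Z j) (fun 𝔪' _ hle _ k t => by
      have h12 : (∑ j, (T ^ n' * Z j).map (algebraMap R R) * H k j).coeff t =
          (∑ j, (T ^ n' * Z j) * H k j).coeff t := by
        simp only [Algebra.algebraMap_self, Polynomial.map_id]
      have h20 : (T ^ a * Q0 * Tα ^ (m + p) * ∑ i, f i * g (k, i)).coeff t ∈ 𝔪 := by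
        rw [mul_sum, finsetSum_coeff]
        refine Ideal.sum_mem _ fun i _ => ?_
        have h13 : T ^ a * Q0 * Tα ^ (m + p) * (f i * g (k, i)) =
            (T ^ a * Q0 * Tα ^ (m + p) * g (k, i)) * f i := by ring
        rw [h13, coeff_mul]
        exact Ideal.sum_mem _ fun y _ => Ideal.mul_mem_left _ _ (hf i _)
      rw [h12, h8 k]
      exact hle _ h20) i
    have h14 := (coeff_mem_iff_map 𝔪 _).1 h11
    have h15 := (coeff_mem_iff_map 𝔪 _).1 (hgg i)
    rw [hZ] at h14
    simp only [Polynomial.map_mul, Polynomial.map_add, Polynomial.map_pow, h15, mul_zero,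
      zero_add] at h14
    have k1 := map_ne_zero_of_lc hm2
    have k2 := map_ne_zero_of_lc hm3
    have k3 : Tα.map (Ideal.Quotient.mk 𝔪) ≠ 0 :=
      ((monic_prod_of_monic _ _ fun i _ => monic_X_sub_C _).map _).ne_zero
    have h16 := (mul_eq_zero.1 h14).resolve_left (pow_ne_zero _ k1)
    exact (mul_eq_zero.1 h16).resolve_left (mul_ne_zero (pow_ne_zero _ k3) k2)
  unfold PCurvZeroAt
  exact Pool.Agent.TH295.FO.pCurvZero_of_Q _ _ hp hQp

end Pool.Agent.R927
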