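import Pool.Agent.R927.PB2

set_option autoImplicit false

/-!
Consequences of the transfer.
-/

namespace Pool.Agent.R927

open Finset Polynomial Pool.Agent.W77.IM
open Pool.Agent.W432.PC (PCurvZeroAt CondII)

universe u v w

variable {R : Type u} [CommRing R] [IsDomain R] [CharZero R] [Algebra.FiniteType ℤ R]
    {F : Type v} [Field F] [Algebra R F] {V : Type w}
    [AddCommGroup V] [Module F V] {n r : ℕ} {α : Fin n → R} {A : Fin n → Matrix (Fin r) (Fin r) R}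
    {δ : Derivation R F F} {x : F} {nabla : V →+ V} {v : Fin r → V}
    {T : R[X]} {E : Submodule (CoordRing x T R) V}

lemma HasPullback.condII (hpb : HasPullback α A δ x nabla v)
    (hRF : Function.Injective (algebraMap R F)) (hx : δ x = 1) (hT : T ≠ 0)
    (hE : IsModel x T nabla E) (h : HypH nabla E) : CondII α A := by
  obtain ⟨g, hg, h1⟩ := transfer hRF hx hpb T hT E hE.fg hE.span
  obtain ⟨g', hg', h2⟩ := h
  refine ⟨g * g', mul_ne_zero hg hg', fun 𝔪 h𝔪 hm => h1 𝔪 (fun h3 => hm (𝔪.mul_mem_right _ h3))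
    (h2 𝔪 h𝔪 fun h3 => hm (𝔪.mul_mem_left _ h3))⟩

lemma HasPullback.badModel (hpb : HasPullback α A δ x nabla v)
    (hRF : Function.Injective (algebraMap R F)) (hx : δ x = 1) (hT : T ≠ 0)
    (hE : IsModel x T nabla E) (h : BadSome α A) : BadModel nabla E := by
  obtain ⟨g, hg, h1⟩ := transfer hRF hx hpb T hT E hE.fg hE.span
  obtain ⟨B, a, hB, ha, g', hg', P₀, h2⟩ := h
  refine ⟨B, a, hB, ha, g * g', mul_ne_zero hg hg', P₀, fun p hp hpP hap 𝔪 h𝔪 hpm hm h4 => ?_⟩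
  exact h2 p hp hpP hap 𝔪 hpm (fun h3 => hm (𝔪.mul_mem_left _ h3))
    (h1 𝔪 (fun h3 => hm (𝔪.mul_mem_right _ h3)) h4)

lemma HasPullback.badModelFor (hpb : HasPullback α A δ x nabla v)
    (hRF : Function.Injective (algebraMap R F)) (hx : δ x = 1) (hT : T ≠ 0)
    (hE : IsModel x T nabla E) {N : ℕ} {S : Finset (ZMod N)ˣ} (h : NonzeroFor α A N S) :
    BadModelFor nabla E N S := by
  obtain ⟨g, hg, h1⟩ := transfer hRF hx hpb T hT E hE.fg hE.span
  obtain ⟨P₀, h2⟩ := h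
  refine ⟨g, hg, P₀, fun p hp hpP s hs hps 𝔪 h𝔪 hpm hm h4 => ?_⟩
  exact h2 p hp hpP s hs hps 𝔪 hpm (h1 𝔪 hm h4)

end Pool.Agent.R927
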