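import Pool.Agent.R927.PBDefs

set_option autoImplicit false

/-!
Definition for flat bundles on curves which contain the pull-back of a Fuchsian system.
-/

namespace Pool.Agent.R927

universe u v w

/-- There are a residue class modulo `B`, prime to `B` (the class of the primes `p` with `a p = -1`
modulo `B`), and a nonzero `g` in `R` such that the `p`-curvature of `E` is nonzero at all the closed
points of `Spec R[1/g]` whose residue characteristic is a large prime in that class. -/
def BadModelMod {R : Type u} [CommRing R] {F : Type v} [Field F] [Algebra R F] {V : Type w}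
    [AddCommGroup V] [Module F V] {A : Subalgebra R F} (nabla : V →+ V) (E : Submodule A V)
    (B : ℕ) : Prop :=
  ∃ a : ℤ, IsCoprime a (B : ℤ) ∧ ∃ g : R, g ≠ 0 ∧ ∃ P₀ : ℕ,
    ∀ p : ℕ, p.Prime → P₀ < p → (B : ℤ) ∣ a * p + 1 →
      ∀ 𝔪 : Ideal R, 𝔪.IsMaximal → (p : R) ∈ 𝔪 → g ∉ 𝔪 → ¬ VanishAt nabla E 𝔪

end Pool.Agent.R927
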