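import Pool.Agent.R927.GDefs
import Pool.Agent.W77.IM.Lat

set_option autoImplicit false

/-!
Definitions for flat bundles on curves which contain the pull-back of a Fuchsian system.
-/

namespace Pool.Agent.R927

open Finset Polynomial Pool.Agent.W77.IM

universe u v w

section defs

variable {R : Type u} [CommRing R] {F : Type v} [Field F] [Algebra R F] {V : Type w}
  [AddCommGroup V] [Module F V] {n r : ℕ}

/-- The connection `∇` on the vector space `V` over the function field `F` (`∇` is its value on the
derivation `δ`, with `δ x = 1`) contains the pull-back under `x` of the Fuchsian system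
`d/dx - ∑ j, A j / (x - α j)`: the elements `v l` of `V` are linearly independent over `F`, and `∇` acts on
them by the matrix of the system. -/
structure HasPullback (α : Fin n → R) (A : Fin n → Matrix (Fin r) (Fin r) R)
    (δ : Derivation R F F) (x : F) (nabla : V →+ V) (v : Fin r → V) : Prop where
  leibniz : ∀ (f : F) (u : V), nabla (f • u) = δ f • u + f • nabla u
  indep : LinearIndependent F v
  conn : ∀ l, nabla (v l) =
    -∑ j, ∑ i, ((x - algebraMap R F (α j))⁻¹ * algebraMap R F (A j i l)) • v i

/-- The `R[x, 1/T]`-module `E` in `V` is finitely generated, stable under `∇`, and every element of `V`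
has a multiple by a nonzero polynomial in `x` which is in `E`. (If `F` is the function field of a curve
`C` over `K = Frac R` and `x : C → ℙ¹` is a finite map, étale over `T ≠ 0`, these modules are the direct
images under `x` of the flat bundles on the part `T ≠ 0` of `C`, spread out over `Spec R`.) -/
structure IsModel (x : F) (T : R[X]) (nabla : V →+ V) (E : Submodule (CoordRing x T R) V) : Prop where
  fg : E.FG
  stable : ∀ e ∈ E, nabla e ∈ E
  span : ∀ u : V, ∃ q : R[X], q ≠ 0 ∧ (aeval x q : F) • u ∈ E

/-- The `p`-curvature `∇ ^ p` of `E` vanishes at the closed point `𝔪` of `Spec R` (`p` is the residue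
characteristic): it maps `E` into `𝔪 E`. -/
def VanishAt {A : Subalgebra R F} (nabla : V →+ V) (E : Submodule A V) (𝔪 : Ideal R) : Prop :=
  ∀ p : ℕ, p.Prime → (p : R) ∈ 𝔪 → ∀ e ∈ E, nabla^[p] e ∈ 𝔪.map (algebraMap R A) • E

/-- The `p`-curvatures of `E` vanish at all closed points of a dense open subset of `Spec R`. -/
def HypH {A : Subalgebra R F} (nabla : V →+ V) (E : Submodule A V) : Prop :=
  ∃ g : R, g ≠ 0 ∧ ∀ 𝔪 : Ideal R, 𝔪.IsMaximal → g ∉ 𝔪 → VanishAt nabla E 𝔪

/-- There are a nonzero `g` in `R` such that the `p`-curvature of `E` is nonzero at all the closed points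
of `Spec R[1/g]` whose residue characteristic is a large prime in one of the classes of `S` modulo
`N`. -/
def BadModelFor {A : Subalgebra R F} (nabla : V →+ V) (E : Submodule A V) (N : ℕ)
    (S : Finset (ZMod N)ˣ) : Prop :=
  ∃ g : R, g ≠ 0 ∧ ∃ P₀ : ℕ, ∀ p : ℕ, p.Prime → P₀ < p → ∀ v ∈ S, (p : ZMod N) = (v : ZMod N) →
    ∀ 𝔪 : Ideal R, 𝔪.IsMaximal → (p : R) ∈ 𝔪 → g ∉ 𝔪 → ¬ VanishAt nabla E 𝔪

/-- There are a residue class modulo some `B`, prime to `B` (the class of the primes `p` with
`a p = -1` modulo `B`), and a nonzero `g` in `R` such that the `p`-curvature of `E` is nonzero at all the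
closed points of `Spec R[1/g]` whose residue characteristic is a large prime in that class. -/
def BadModel {A : Subalgebra R F} (nabla : V →+ V) (E : Submodule A V) : Prop :=
  ∃ (B : ℕ) (a : ℤ), 0 < B ∧ IsCoprime a (B : ℤ) ∧ ∃ g : R, g ≠ 0 ∧ ∃ P₀ : ℕ,
    ∀ p : ℕ, p.Prime → P₀ < p → (B : ℤ) ∣ a * p + 1 →
      ∀ 𝔪 : Ideal R, 𝔪.IsMaximal → (p : R) ∈ 𝔪 → g ∉ 𝔪 → ¬ VanishAt nabla E 𝔪

end defs

end Pool.Agent.R927
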