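import Mathlib

set_option autoImplicit false

/-!
Bounds for sums of small integers.
-/

namespace Pool.Agent.R927

open Finset

lemma sum_mul_le {ι : Type*} (s : Finset ι) (f : ι → ℤ) (B C : ℤ) (h : ∀ i ∈ s, f i * B ≤ C) :
    (∑ i ∈ s, f i) * B ≤ s.card * C := by
  rw [sum_mul]
  calc _ ≤ ∑ _i ∈ s, C := sum_le_sum h
    _ = _ := by rw [sum_const, nsmul_eq_mul]

lemma abs_sum_mul_le {ι : Type*} (s : Finset ι) (f : ι → ℤ) (B C : ℤ) (hB : 0 ≤ B)
    (h : ∀ i ∈ s, |f i| * B ≤ C) :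
    |∑ i ∈ s, f i| * B ≤ s.card * C :=
  (mul_le_mul_of_nonneg_right (abs_sum_le_sum_abs _ _) hB).trans (sum_mul_le s (fun i => |f i|) B C h)

lemma diff_bound {t1 t2 B C : ℤ} (h1 : |t1| * B ≤ C) (h2 : |t2| * B ≤ C) (hB : 0 ≤ B) :
    (t1 - t2) * B ≤ 2 * C := by
  have a1 := mul_le_mul_of_nonneg_right (le_abs_self t1) hB
  have a2 := mul_le_mul_of_nonneg_right (neg_le_abs t2) hB
  linarith

/-- The sum of the residues is small. -/
lemma S_bound {X : Type*} [Fintype X] {r : ℕ} (t : X → Fin r → ℤ) (c : X → Fin r) (B C m : ℤ)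
    (hr : 0 < r) (hm : 0 < m) (hcard : (Fintype.card X : ℤ) = m) (hB : B = 4 * r ^ 2 * m)
    (ht : ∀ x l, |t x l| * B ≤ C) :
    2 * ∑ x, ∑ l, (r * (t x l - t x (c x))) ≤ C := by
  have hr' : (0 : ℤ) < r := by exact_mod_cast hr
  have hB0 : 0 ≤ B := by rw [hB]; positivity
  have h1 : (∑ x, ∑ l, (t x l - t x (c x))) * B ≤ m * (r * (2 * C)) := by
    have := sum_mul_le (univ : Finset X) (fun x => ∑ l, (t x l - t x (c x))) B (r * (2 * C))
      (fun x _ => by
        have := sum_mul_le (univ : Finset (Fin r)) (fun l => t x l - t x (c x)) B (2 * C)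
          (fun l _ => diff_bound (ht x l) (ht x (c x)) hB0)
        rwa [card_univ, Fintype.card_fin] at this)
    rwa [card_univ, hcard] at this
  have h2 : (2 * m * r) * (2 * ∑ x, ∑ l, (r * (t x l - t x (c x)))) ≤ (2 * m * r) * C := by
    simp only [← mul_sum]
    rw [hB] at h1
    calc (2 * m * r) * (2 * (r * ∑ x, ∑ l, (t x l - t x (c x))))
        = (∑ x, ∑ l, (t x l - t x (c x))) * (4 * r ^ 2 * m) := by ring
      _ ≤ m * (r * (2 * C)) := h1
      _ = _ := by ring
  exact le_of_mul_le_mul_left h2 (by positivity)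

/-- The correction to the form is small. -/
lemma eta_bound {X : Type*} [Fintype X] {r : ℕ} (t : X → Fin r → ℤ) (c : X → Fin r) (B C m : ℤ)
    (hr : 0 < r) (hm : 0 < m) (hcard : (Fintype.card X : ℤ) = m) (hB : B = 4 * r ^ 2 * m)
    (ht : ∀ x l, |t x l| * B ≤ C) :
    2 * (r * |r * ∑ x, t x (c x) - ∑ x, ∑ l, t x l|) ≤ C := by
  have hr' : (0 : ℤ) < r := by exact_mod_cast hr
  have hB0 : 0 ≤ B := by rw [hB]; positivity
  have b1 : |∑ x, t x (c x)| * B ≤ m * C := by
    have := abs_sum_mul_le (univ : Finset X) (fun x => t x (c x)) B C hB0 (fun x _ => ht x (c x))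
    rwa [card_univ, hcard] at this
  have b2 : |∑ x, ∑ l, t x l| * B ≤ m * (r * C) := by
    have := abs_sum_mul_le (univ : Finset X) (fun x => ∑ l, t x l) B (r * C) hB0
      (fun x _ => by
        have := abs_sum_mul_le (univ : Finset (Fin r)) (fun l => t x l) B C hB0 (fun l _ => ht x l)
        rwa [card_univ, Fintype.card_fin] at this)
    rwa [card_univ, hcard] at this
  have b3 : |r * ∑ x, t x (c x) - ∑ x, ∑ l, t x l| ≤
      r * |∑ x, t x (c x)| + |∑ x, ∑ l, t x l| := by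
    calc _ ≤ |r * ∑ x, t x (c x)| + |∑ x, ∑ l, t x l| := abs_sub _ _
      _ = _ := by rw [abs_mul, abs_of_pos hr']
  have b4 : |r * ∑ x, t x (c x) - ∑ x, ∑ l, t x l| * B ≤ 2 * m * r * C := by
    have b5 := mul_le_mul_of_nonneg_right b3 hB0
    have b6 := mul_le_mul_of_nonneg_left b1 hr'.le
    calc _ ≤ _ := b5
      _ = r * (|∑ x, t x (c x)| * B) + |∑ x, ∑ l, t x l| * B := by ring
      _ ≤ r * (m * C) + m * (r * C) := add_le_add b6 b2
      _ = _ := by ring
  have h6 : (2 * m * r) * (2 * (r * |r * ∑ x, t x (c x) - ∑ x, ∑ l, t x l|)) ≤ (2 * m * r) * C := by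
    calc _ = |r * ∑ x, t x (c x) - ∑ x, ∑ l, t x l| * (4 * r ^ 2 * m) := by ring
      _ ≤ _ := by rw [← hB]; exact b4
  exact le_of_mul_le_mul_left h6 (by positivity)

/-- The final count. -/
lemma final_count {N j r η S C : ℤ} (hN : 0 < N) (hC : C < N) (hj0 : 0 < j) (hj1 : j < r)
    (hη : 2 * (r * |η|) ≤ C) (hS : 2 * S ≤ C) :
    0 < N * j + r * η ∧ N * j + r * η < r * N ∧ S + (N * j + r * η) < r * N := by
  have hr : 0 < r := by linarith
  have e1 : -(r * |η|) ≤ r * η := by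
    have := mul_le_mul_of_nonneg_left (neg_abs_le η) hr.le
    linarith
  have e2 : r * η ≤ r * |η| := mul_le_mul_of_nonneg_left (le_abs_self η) hr.le
  have e3 : N ≤ N * j := le_mul_of_one_le_right hN.le hj0
  have e4 : N * j ≤ N * (r - 1) := mul_le_mul_of_nonneg_left (by omega) hN.le
  have e5 : N * (r - 1) = r * N - N := by ring
  have e6 : 0 ≤ r * |η| := by positivity
  refine ⟨by linarith, by linarith, by linarith⟩

end Pool.Agent.R927
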