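import Pool.Agent.R927.Pigeon1

set_option autoImplicit false
set_option maxHeartbeats 4000000

/-!
The multiplier which violates the inequality.
-/

namespace Pool.Agent.R927

open Finset

/-- All the residues are prescribed by small integers `t`: the abstract computation. -/
theorem viol_core {X : Type*} [Fintype X] {r : ℕ} {q N₀ m : ℤ} (hr : 0 < r) (hm : 0 < m)
    (hcard : (Fintype.card X : ℤ) = m) (hq : 0 < q) (hN₀ : 0 < N₀)
    (E : X → Fin r → ℤ) (htrE : ∑ x, ∑ l, E x l = 0) (c₀ : X → Fin r) (a : ℤ)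
    (t Q : X → Fin r → ℤ)
    (hmain : ∀ x l, a * (E x l - E x (c₀ x)) = N₀ * (r * t x l) + N₀ * q * Q x l)
    (ht : ∀ x l, |t x l| * (4 * r ^ 2 * m) ≤ q - 1)
    (hcop : IsCoprime a N₀) (hΦ3 : ¬ N₀ ∣ ∑ x, E x (c₀ x)) :
    ∃ c : X → Fin r, ¬ (N₀ * q) ∣ a * ∑ x, E x (c x) ∧
      ∑ x, ∑ l, ((a * (E x l - E x (c x))) % (N₀ * q)) +
        r * ((a * ∑ x, E x (c x)) % (N₀ * q)) < r * (N₀ * q) := by
  classical
  have hr' : (0 : ℤ) < r := by exact_mod_cast hr
  have hN0 : 0 < N₀ * q := by positivity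
  have hne : (univ : Finset (Fin r)).Nonempty := ⟨⟨0, hr⟩, mem_univ _⟩
  choose c hc using fun x => exists_min_image univ (t x) hne
  have hcmin : ∀ x l, t x (c x) ≤ t x l := fun x l => (hc x).2 l (mem_univ _)
  have hB0 : (0 : ℤ) ≤ 4 * r ^ 2 * m := by positivity
  have hBr : (4 : ℤ) * r ≤ 4 * r ^ 2 * m := by
    have h1 : (1 : ℤ) ≤ r * m := by
      have : (0 : ℤ) < r * m := by positivity
      omega
    have := mul_le_mul_of_nonneg_left h1 (by positivity : (0 : ℤ) ≤ 4 * r)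
    calc (4 : ℤ) * r = 4 * r * 1 := by ring
      _ ≤ 4 * r * (r * m) := this
      _ = _ := by ring
  have hres : ∀ x l, (a * (E x l - E x (c x))) % (N₀ * q) = N₀ * (r * (t x l - t x (c x))) := by
    intro x l
    have e1 : a * (E x l - E x (c x)) =
        N₀ * (r * (t x l - t x (c x))) + N₀ * q * (Q x l - Q x (c x)) := by
      have h4 := hmain x l
      have h5 := hmain x (c x)
      linear_combination h4 - h5
    rw [e1, Int.add_mul_emod_self_left]
    have h6 : 0 ≤ t x l - t x (c x) := sub_nonneg.2 (hcmin x l)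
    have h7 : (t x l - t x (c x)) * (4 * r) ≤ 2 * (q - 1) :=
      (mul_le_mul_of_nonneg_left hBr h6).trans (diff_bound (ht x l) (ht x (c x)) hB0)
    have h8 : r * (t x l - t x (c x)) < q := by
      have : 4 * (r * (t x l - t x (c x))) ≤ 2 * (q - 1) := by
        calc _ = (t x l - t x (c x)) * (4 * r) := by ring
          _ ≤ _ := h7
      linarith
    exact Int.emod_eq_of_lt (by positivity) (mul_lt_mul_of_pos_left h8 hN₀)
  set G : ℤ := a * (∑ x, E x (c₀ x)) + N₀ * ∑ x, ∑ l, t x l with hG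
  set W : ℤ := -∑ x, ∑ l, Q x l with hW
  have hrG : r * G = N₀ * q * W := by
    have h4 : ∑ x, ∑ l, (a * (E x l - E x (c₀ x))) = -(a * (r * ∑ x, E x (c₀ x))) := by
      simp only [← mul_sum, sum_sub_distrib, sum_const, card_univ, Fintype.card_fin, nsmul_eq_mul]
      rw [htrE]
      ring
    have h5 : ∑ x, ∑ l, (a * (E x l - E x (c₀ x))) =
        N₀ * (r * ∑ x, ∑ l, t x l) + N₀ * q * ∑ x, ∑ l, Q x l := by
      simp only [hmain, sum_add_distrib, ← mul_sum]
    rw [hG, hW]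
    linear_combination h4 - h5
  have hrW : ¬ (r : ℤ) ∣ W := by
    rintro ⟨w, hw⟩
    apply hΦ3
    have h4 : G = N₀ * q * w := by
      have : (r : ℤ) * G = r * (N₀ * q * w) := by rw [hrG, hw]; ring
      exact mul_left_cancel₀ hr'.ne' this
    have h5 : N₀ ∣ a * (∑ x, E x (c₀ x)) := by
      refine ⟨q * w - ∑ x, ∑ l, t x l, ?_⟩
      have : a * (∑ x, E x (c₀ x)) = G - N₀ * ∑ x, ∑ l, t x l := by rw [hG]; ring
      rw [this, h4]; ring
    exact hcop.symm.dvd_of_dvd_mul_left h5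
  set j : ℤ := W % r with hj
  have hj0 : 0 < j := by
    rcases (Int.emod_nonneg W hr'.ne').lt_or_eq with h | h
    · exact h
    · exact absurd (Int.dvd_of_emod_eq_zero h.symm) hrW
  have hj1 : j < r := Int.emod_lt_of_pos _ hr'
  set η : ℤ := N₀ * (r * ∑ x, t x (c x) - ∑ x, ∑ l, t x l) with hη
  have hform2 : a * ∑ x, E x (c x) = G + η + N₀ * q * ∑ x, Q x (c x) := by
    have h4 : a * ∑ x, E x (c x) = a * (∑ x, E x (c₀ x)) + ∑ x, a * (E x (c x) - E x (c₀ x)) := by
      rw [← mul_sum, sum_sub_distrib]; ring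
    rw [h4, sum_congr rfl fun x _ => hmain x (c x), sum_add_distrib, ← mul_sum, ← mul_sum, ← mul_sum,
      hG, hη]
    ring
  have hWdec := Int.mul_ediv_add_emod W r
  rw [← hj] at hWdec
  have hG2 : r * G = N₀ * q * j + r * (N₀ * q * (W / r)) := by
    rw [hrG]
    linear_combination -(N₀ * q) * hWdec
  have hη' : 2 * (r * |η|) ≤ N₀ * (q - 1) := by
    have h := eta_bound t c _ (q - 1) m hr hm hcard rfl ht
    rw [hη, abs_mul, abs_of_pos hN₀]
    have := mul_le_mul_of_nonneg_left h hN₀.le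
    calc _ = N₀ * (2 * (r * |r * ∑ x, t x (c x) - ∑ x, ∑ l, t x l|)) := by ring
      _ ≤ _ := this
  have hS' : 2 * (∑ x, ∑ l, ((a * (E x l - E x (c x))) % (N₀ * q))) ≤ N₀ * (q - 1) := by
    have h := S_bound t c _ (q - 1) m hr hm hcard rfl ht
    have := mul_le_mul_of_nonneg_left h hN₀.le
    simp only [hres, ← mul_sum] at this ⊢
    calc _ = _ := by ring
      _ ≤ _ := this
  have hCN : N₀ * (q - 1) < N₀ * q := mul_lt_mul_of_pos_left (by linarith) hN₀
  obtain ⟨f1, f2, f3⟩ := final_count (η := η) hN0 hCN hj0 hj1 hη' hS'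
  have hrem : r * ((a * ∑ x, E x (c x)) % (N₀ * q)) = N₀ * q * j + r * η := by
    have h4 : r * (a * ∑ x, E x (c x)) = (N₀ * q * j + r * η) +
        (r * (N₀ * q)) * (W / r + ∑ x, Q x (c x)) := by
      rw [hform2]
      linear_combination hG2
    have h5 : (r * (a * ∑ x, E x (c x))) % (r * (N₀ * q)) = N₀ * q * j + r * η := by
      rw [h4, Int.add_mul_emod_self_left, Int.emod_eq_of_lt f1.le f2]
    rw [← h5, Int.mul_emod_mul_of_pos _ _ hr']
  refine ⟨c, ?_, ?_⟩
  · intro hdvd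
    rw [Int.emod_eq_zero_of_dvd hdvd, mul_zero] at hrem
    linarith
  · rw [hrem]
    exact f3

end Pool.Agent.R927
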