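import Pool.Agent.R927.Pigeon3

set_option autoImplicit false

/-!
Systems whose exponent differences have a denominator without small prime factors, and whose exponent
sums have another denominator.
-/

namespace Pool.Agent.R927

open Finset Pool.Agent.W432.PC Pool.Agent.W280.PC

universe u

variable {R : Type u} [CommRing R] [IsDomain R] [CharZero R] {n r : ℕ}

/-- A common denominator of finitely many rational numbers. -/
lemma exists_den {I : Type*} [Fintype I] (v : I → ℚ) :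
    ∃ M : ℕ, 0 < M ∧ ∀ i, ∃ m : ℤ, (M : ℚ) * v i = m := by
  classical
  refine ⟨∏ i, (v i).den, Finset.prod_pos fun i _ => (v i).den_pos, fun i => ?_⟩
  obtain ⟨w, hw⟩ := Finset.dvd_prod_of_mem (fun i => (v i).den) (mem_univ i)
  refine ⟨w * (v i).num, ?_⟩
  rw [hw]
  push_cast
  have := Rat.den_mul_eq_num (v i)
  rw [mul_comm ((v i).den : ℚ), mul_assoc]
  rw [this]

theorem rough_final (hr : 0 < r) (α : Fin n → R) (hα : ∀ i j, i ≠ j → IsUnit (α i - α j))
    (A : Fin n → Matrix (Fin r) (Fin r) R) (lam : Fin n → Fin r → ℚ) (phi : Fin r → ℚ)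
    (hlam : ∀ j, HasExponents (A j) (lam j)) (hphi : HasExponents (∑ j, A j) phi)
    (D : ℕ) (hD : 0 < D)
    (hrough : ∀ q : ℕ, q.Prime → q ∣ D → (4 * r ^ 2 * (n + 1)) ^ ((n + 1) * (r - 1)) < q)
    (hDlam : ∀ j l l', ∃ m : ℤ, (D : ℚ) * (lam j l - lam j l') = m)
    (hDphi : ∀ l l', ∃ m : ℤ, (D : ℚ) * (phi l - phi l') = m)
    (κ : Fin n → Fin r) (s : Fin r)
    (hclass : ¬ ∃ m : ℤ, (D : ℚ) * (∑ j, lam j (κ j) - phi s) = m) :
    ∃ (N : ℕ) (a : ℤ), 0 < N ∧ IsCoprime a (N : ℤ) ∧ ∃ P₀ : ℕ, ∀ p : ℕ, p.Prime → P₀ < p →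
      (N : ℤ) ∣ a * p + 1 → ∀ (𝔪 : Ideal R) [𝔪.IsMaximal], (p : R) ∈ 𝔪 → ¬ PCurvZeroAt α A 𝔪 := by
  obtain ⟨M, hM, hM'⟩ := exists_den (fun x : (Fin n × Fin r) ⊕ Fin r =>
    x.elim (fun y => lam y.1 y.2) phi)
  have hMl : ∀ j l, ∃ m : ℤ, (M : ℚ) * lam j l = m := fun j l => hM' (Sum.inl (j, l))
  have hMp : ∀ l, ∃ m : ℤ, (M : ℚ) * phi l = m := fun l => hM' (Sum.inr l)
  choose f hf using hMl
  choose f' hf' using hMp
  have hMq : (M : ℚ) ≠ 0 := by exact_mod_cast hM.ne'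
  have hDq : (D : ℚ) ≠ 0 := by exact_mod_cast hD.ne'
  -- N = M * D, e = D * f
  set e : Fin n → Fin r → ℤ := fun j l => D * f j l with he
  set e' : Fin r → ℤ := fun l => D * f' l with he'
  have hlam' : ∀ j l, lam j l = (e j l : ℚ) / ((M * D : ℕ) : ℚ) := fun j l => by
    rw [he]; push_cast; rw [← hf j l]; field_simp
  have hphi' : ∀ l, phi l = (e' l : ℚ) / ((M * D : ℕ) : ℚ) := fun l => by
    rw [he']; push_cast; rw [← hf' l]; field_simp
  have h1 : ∀ j l l', (M : ℤ) ∣ e j l - e j l' := by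
    intro j l l'
    obtain ⟨m, hm⟩ := hDlam j l l'
    refine ⟨m, ?_⟩
    have : ((e j l - e j l' : ℤ) : ℚ) = ((M * m : ℤ) : ℚ) := by
      rw [he]; push_cast; rw [← hm, ← hf, ← hf]; ring
    exact_mod_cast this
  have h2 : ∀ l l', (M : ℤ) ∣ e' l - e' l' := by
    intro l l'
    obtain ⟨m, hm⟩ := hDphi l l'
    refine ⟨m, ?_⟩
    have : ((e' l - e' l' : ℤ) : ℚ) = ((M * m : ℤ) : ℚ) := by
      rw [he']; push_cast; rw [← hm, ← hf', ← hf']; ring
    exact_mod_cast this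
  have h3 : ¬ (M : ℤ) ∣ ∑ j, e j (κ j) - e' s := by
    rintro ⟨m, hm⟩
    apply hclass
    refine ⟨m, ?_⟩
    have h4 := congrArg (fun x : ℤ => (x : ℚ)) hm
    rw [he, he'] at h4
    push_cast at h4
    simp only [← hf, ← hf'] at h4
    have h5 : (M : ℚ) * (D * (∑ j, lam j (κ j) - phi s)) = M * m := by
      rw [← h4, mul_sub, mul_sub, mul_sum, mul_sum]
      congr 1
      · exact sum_congr rfl fun j _ => by ring
      · ring
    exact mul_left_cancel₀ hMq h5
  have hN1 : 1 < M * D := by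
    have hM1 : 1 < M := by
      by_contra hcon
      have : M = 1 := by omega
      apply h3
      rw [this]
      exact one_dvd _
    calc 1 < M := hM1
      _ ≤ M * D := Nat.le_mul_of_pos_right _ hD
  have hl : lam = fun j l => (e j l : ℚ) / ((M * D : ℕ) : ℚ) := by
    funext j l; exact hlam' j l
  have hp : phi = fun l => (e' l : ℚ) / ((M * D : ℕ) : ℚ) := by
    funext l; exact hphi' l
  rw [hl] at hlam
  rw [hp] at hphi
  have htr := trace_rel A (M * D) hN1 e e' hlam hphi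
  obtain ⟨a, κ', s', ha, hres, hviol⟩ := exists_viol hr hD hM hrough e e' htr h1 h2 κ s h3
  obtain ⟨P₀, hP⟩ := star_gen hr α hα A (M * D) hN1 e e' hlam hphi a κ' s' hres hviol
  exact ⟨M * D, a, by omega, ha, P₀, hP⟩

end Pool.Agent.R927
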