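import Pool.Agent.R927.NT

set_option autoImplicit false

/-!
Three triples of residues modulo a prime number: the inequalities for the residues of the exponents of
irreducible systems of rank three with three singular points.
-/

namespace Pool.Agent.R927

open Finset Pool.Agent.H916R2

variable {N : ℕ}

/-- The inequalities, for all the units. -/
def Good (x y z : Fin 3 → ZMod N) : Prop :=
  ∀ (u : (ZMod N)ˣ) (i j k : Fin 3),
    3 * N ≤ ∑ l, ((u : ZMod N) * (x l - x i)).val + ∑ l, ((u : ZMod N) * (y l - y j)).val +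
      ∑ l, ((u : ZMod N) * (z l - z k)).val + 3 * ((u : ZMod N) * (x i + y j + z k)).val

lemma Good.rot {x y z : Fin 3 → ZMod N} (h : Good x y z) : Good y z x := by
  intro u i j k
  have := h u k i j
  rw [show y i + z j + x k = x k + y i + z j by ring]
  omega

lemma Good.swap {x y z : Fin 3 → ZMod N} (h : Good x y z) : Good y x z := by
  intro u i j k
  have := h u j i k
  rw [show y i + x j + z k = x j + y i + z k by ring]
  omega

/-- The values of `y` are those of `x` up to a translation. -/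
def Tr (x y : Fin 3 → ZMod N) : Prop := ∃ s, ∀ l, ∃ l', y l' = x l + s

/-- The conclusion. -/
def Concl (x y z : Fin 3 → ZMod N) : Prop :=
  Function.Injective x ∧ Tr x y ∧ Tr x z

lemma Tr.perm {x y : Fin 3 → ZMod N} (hx : Function.Injective x) (h : Tr x y) :
    ∃ (σ : Equiv.Perm (Fin 3)) (s : ZMod N), ∀ l, y (σ l) = x l + s := by
  obtain ⟨s, hs⟩ := h
  choose f hf using hs
  have hinj : Function.Injective f := by
    intro a b hab
    apply hx
    have h1 := hf a
    rw [hab, hf b] at h1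
    exact (add_right_cancel h1).symm
  exact ⟨Equiv.ofBijective f (Finite.injective_iff_bijective.1 hinj), s, hf⟩

lemma Tr.symm' {x y : Fin 3 → ZMod N} (hx : Function.Injective x) (h : Tr x y) :
    Function.Injective y ∧ Tr y x := by
  obtain ⟨σ, s, hs⟩ := h.perm hx
  constructor
  · intro a b hab
    obtain ⟨a', rfl⟩ := σ.surjective a
    obtain ⟨b', rfl⟩ := σ.surjective b
    rw [hs, hs] at hab
    rw [hx (add_right_cancel hab)]
  · refine ⟨-s, fun l => ⟨σ.symm l, ?_⟩⟩
    have := hs (σ.symm l)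
    rw [Equiv.apply_symm_apply] at this
    rw [this]; ring

lemma Tr.trans {x y z : Fin 3 → ZMod N} (h : Tr x y) (h' : Tr y z) : Tr x z := by
  obtain ⟨s, hs⟩ := h
  obtain ⟨t, ht⟩ := h'
  refine ⟨s + t, fun l => ?_⟩
  obtain ⟨l', hl'⟩ := hs l
  obtain ⟨l'', hl''⟩ := ht l'
  exact ⟨l'', by rw [hl'', hl']; ring⟩

lemma Concl.rot {x y z : Fin 3 → ZMod N} (h : Concl x y z) : Concl y z x := by
  obtain ⟨h1, h2, h3⟩ := h
  obtain ⟨h4, h5⟩ := h2.symm' h1
  exact ⟨h4, h5.trans h3, h5⟩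

lemma Concl.swap' {x y z : Fin 3 → ZMod N} (h : Concl x y z) : Concl x z y :=
  ⟨h.1, h.2.2, h.2.1⟩

lemma Concl.swap {x y z : Fin 3 → ZMod N} (h : Concl x y z) : Concl y x z := h.rot.swap'

lemma sum_three {M : Type*} [AddCommMonoid M] {i i1 i2 : Fin 3} (h1 : i ≠ i1) (h2 : i ≠ i2)
    (h3 : i1 ≠ i2) (f : Fin 3 → M) : ∑ l, f l = f i + f i1 + f i2 := by
  have h : (univ : Finset (Fin 3)) = {i, i1, i2} := by
    revert i i1 i2; decide
  rw [h, sum_insert (by simp [h1, h2]), sum_pair h3, add_assoc]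

lemma cover3 {i i1 i2 : Fin 3} (h1 : i ≠ i1) (h2 : i ≠ i2) (h3 : i1 ≠ i2) (l : Fin 3) :
    l = i ∨ l = i1 ∨ l = i2 := by
  revert i i1 i2 l; decide

section

variable [hN : Fact N.Prime]

lemma val_add_neg {t : ZMod N} : t.val + (-t).val = if t = 0 then 0 else N := by
  split_ifs with h
  · rw [h]; simp
  · have : NeZero t := ⟨h⟩
    rw [ZMod.val_neg_of_ne_zero]
    have := (ZMod.val_lt t).le
    omega

/-- The equality case of the inequalities. -/
lemma saw_of_le {ι : Type*} [Fintype ι] {c : ℕ} (hι : Fintype.card ι = 2 * c) (D : ι → ZMod N)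
    (h : ∀ u : (ZMod N)ˣ, c * N ≤ ∑ x, ((u : ZMod N) * D x).val) :
    (∀ x, D x ≠ 0) ∧ ∀ u : (ZMod N)ˣ, ∑ x, saw ((u : ZMod N) * D x) = 0 := by
  classical
  have hN0 := hN.out.pos
  have hpair : ∀ u : (ZMod N)ˣ, ∑ x, ((u : ZMod N) * D x).val + ∑ x, (((-u : (ZMod N)ˣ) : ZMod N) * D x).val
      = ∑ x, (if D x = 0 then 0 else N) := by
    intro u
    rw [← sum_add_distrib]
    refine sum_congr rfl fun x _ => ?_
    rw [Units.val_neg, neg_mul, val_add_neg]
    simp
  have h1 : ∀ x, D x ≠ 0 := by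
    intro x0 hx0
    have h2 := h 1
    have h3 := h (-1)
    have h4 := hpair 1
    have h5 : ∑ x, (if D x = 0 then 0 else N) < ∑ _x : ι, N := by
      apply sum_lt_sum (fun x _ => by split_ifs <;> omega)
      exact ⟨x0, mem_univ _, by rw [if_pos hx0]; exact hN0⟩
    rw [sum_const, card_univ, hι, smul_eq_mul] at h5
    have h6 : 2 * c * N = c * N + c * N := by ring
    omega
  refine ⟨h1, fun u => ?_⟩
  have h2 := h u
  have h3 := h (-u)
  have h4 := hpair u
  have h5 : ∑ x, (if D x = 0 then 0 else N) = 2 * c * N := by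
    rw [sum_congr rfl (fun x _ => if_neg (h1 x)), sum_const, card_univ, hι, smul_eq_mul]
  have h6 : ∑ x, ((u : ZMod N) * D x).val = c * N := by
    have h6 : 2 * c * N = c * N + c * N := by ring
    omega
  have h7 : ∀ x, saw ((u : ZMod N) * D x) = 2 * (((u : ZMod N) * D x).val : ℤ) - N := by
    intro x
    unfold saw
    rw [if_neg]
    exact mul_ne_zero (Units.ne_zero u) (h1 x)
  rw [sum_congr rfl fun x _ => h7 x, sum_sub_distrib, ← mul_sum, sum_const, card_univ, hι,
    nsmul_eq_mul]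
  have h8 : ∑ x, ((((u : ZMod N) * D x).val : ℕ) : ℤ) = c * N := by exact_mod_cast h6
  rw [h8]
  push_cast
  ring

/-- The resonance lemma. -/
lemma res {x y z : Fin 3 → ZMod N} (h : Good x y z) {i i1 i2 j j1 j2 k k1 k2 : Fin 3}
    (hi1 : i ≠ i1) (hi2 : i ≠ i2) (hi : i1 ≠ i2) (hj1 : j ≠ j1) (hj2 : j ≠ j2) (hj : j1 ≠ j2)
    (hk1 : k ≠ k1) (hk2 : k ≠ k2) (hk : k1 ≠ k2) (hr : x i + y j + z k = 0) :
    (∀ a, (![x i1 - x i, x i2 - x i, y j1 - y j, y j2 - y j, z k1 - z k, z k2 - z k] :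
      Fin 6 → ZMod N) a ≠ 0) ∧
    ∀ u : (ZMod N)ˣ, ∑ a, saw ((u : ZMod N) * (![x i1 - x i, x i2 - x i, y j1 - y j, y j2 - y j,
      z k1 - z k, z k2 - z k] : Fin 6 → ZMod N) a) = 0 := by
  refine saw_of_le (c := 3) (by simp) _ fun u => ?_
  have h1 := h u i j k
  rw [sum_three hi1 hi2 hi, sum_three hj1 hj2 hj, sum_three hk1 hk2 hk, hr] at h1
  simp only [sub_self, mul_zero, ZMod.val_zero, zero_add, add_zero] at h1
  simp only [Fin.sum_univ_succ, Fin.sum_univ_zero, Matrix.cons_val_zero, Matrix.cons_val_succ,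
    add_zero]
  omega

end

end Pool.Agent.R927
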