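import Pool.Agent.R927.Six

set_option autoImplicit false

/-!
The cases where all the pairs or no pairs are internal.
-/

namespace Pool.Agent.R927

open Finset Pool.Agent.H916R2

variable {N : ℕ} [hN : Fact N.Prime]

lemma saw_cancel (u a : ZMod N) : saw (u * a) + saw (u * (-a)) = 0 := by
  rw [mul_neg, saw_neg]; ring

/-- The configuration without internal pairs, first solution. -/
lemma T2B {x y z : Fin 3 → ZMod N} {i i1 i2 j j1 j2 k k1 k2 : Fin 3}
    (hi1 : i ≠ i1) (hi2 : i ≠ i2) (hi : i1 ≠ i2)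
    (e1 : y j1 - y j = -(x i1 - x i)) (e2 : z k1 - z k = -(x i2 - x i))
    (e3 : z k2 - z k = -(y j2 - y j)) (hinj : Function.Injective x)
    (e4 : y j2 - y j = x i2 - x i - (x i1 - x i)) : Concl x y z := by
  refine ⟨hinj, ⟨y j1 - x i, fun l => ?_⟩, ⟨z k1 - x i, fun l => ?_⟩⟩
  · rcases cover3 hi1 hi2 hi l with h | h | h
    · exact ⟨j1, by rw [h]; ring⟩
    · exact ⟨j, by rw [h]; linear_combination -e1⟩
    · exact ⟨j2, by rw [h]; linear_combination e4 - e1⟩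
  · rcases cover3 hi1 hi2 hi l with h | h | h
    · exact ⟨k1, by rw [h]; ring⟩
    · exact ⟨k2, by rw [h]; linear_combination e3 - e2 - e4⟩
    · exact ⟨k, by rw [h]; linear_combination -e2⟩

lemma inj3 {x : Fin 3 → ZMod N} {i i1 i2 : Fin 3} (hi1 : i ≠ i1) (hi2 : i ≠ i2) (hi : i1 ≠ i2)
    (h1 : x i1 - x i ≠ 0) (h2 : x i2 - x i ≠ 0) (h3 : x i2 - x i1 ≠ 0) : Function.Injective x := by
  intro a b hab
  rcases cover3 hi1 hi2 hi a with rfl | rfl | rfl <;>
  rcases cover3 hi1 hi2 hi b with rfl | rfl | rfl <;>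
  first
    | rfl
    | exact absurd (sub_eq_zero.2 hab) h1
    | exact absurd (sub_eq_zero.2 hab.symm) h1
    | exact absurd (sub_eq_zero.2 hab) h2
    | exact absurd (sub_eq_zero.2 hab.symm) h2
    | exact absurd (sub_eq_zero.2 hab) h3
    | exact absurd (sub_eq_zero.2 hab.symm) h3

/-- The configuration without internal pairs. -/
lemma T2 (hN2 : N ≠ 2) {x y z : Fin 3 → ZMod N} (h : Good x y z) {i i1 i2 j j1 j2 k k1 k2 : Fin 3}
    (hi1 : i ≠ i1) (hi2 : i ≠ i2) (hi : i1 ≠ i2) (hj1 : j ≠ j1) (hj2 : j ≠ j2) (hj : j1 ≠ j2)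
    (hk1 : k ≠ k1) (hk2 : k ≠ k2) (hk : k1 ≠ k2) (hr : x i + y j + z k = 0)
    (e1 : y j1 - y j = -(x i1 - x i)) (e2 : z k1 - z k = -(x i2 - x i))
    (e3 : z k2 - z k = -(y j2 - y j)) : Concl x y z := by
  obtain ⟨d1, d2⟩ := res h hi1.symm hi hi2 hj1.symm hj hj2 hk1 hk2 hk
    (show x i1 + y j1 + z k = 0 by linear_combination hr + e1)
  set p1 := x i1 - x i with hp1
  set p2 := x i2 - x i with hp2
  set q2 := y j2 - y j with hq2
  have v : (![x i - x i1, x i2 - x i1, y j - y j1, y j2 - y j1, z k1 - z k, z k2 - z k] :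
      Fin 6 → ZMod N) = ![-p1, p2 - p1, p1, q2 + p1, -p2, -q2] := by
    have v1 : x i - x i1 = -p1 := by rw [hp1]; ring
    have v2 : x i2 - x i1 = p2 - p1 := by rw [hp1, hp2]; ring
    have v3 : y j - y j1 = p1 := by linear_combination -e1
    have v4 : y j2 - y j1 = q2 + p1 := by rw [hq2]; linear_combination -e1
    rw [v1, v2, v3, v4, e2, e3]
  rw [v] at d1 d2
  have n1 : -p1 ≠ 0 := d1 0
  have n2 : p2 - p1 ≠ 0 := d1 1
  have n4 : q2 + p1 ≠ 0 := d1 3
  have n5 : -p2 ≠ 0 := d1 4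
  have n6 : -q2 ≠ 0 := d1 5
  have hinj : Function.Injective x := inj3 hi1 hi2 hi (neg_ne_zero.1 n1) (neg_ne_zero.1 n5)
    (by rw [show x i2 - x i1 = p2 - p1 by rw [hp1, hp2]; ring]; exact n2)
  -- four terms
  have s4 : ∀ u : (ZMod N)ˣ, ∑ a, saw ((u : ZMod N) *
      (![p2 - p1, q2 + p1, -p2, -q2] : Fin 4 → ZMod N) a) = 0 := by
    intro u
    have h1 := d2 u
    simp only [Fin.sum_univ_succ, Fin.sum_univ_zero, Matrix.cons_val_zero, Matrix.cons_val_succ,
      add_zero] at h1 ⊢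
    have h2 := saw_cancel (u : ZMod N) p1
    linarith
  have s4n : ∀ a, (![p2 - p1, q2 + p1, -p2, -q2] : Fin 4 → ZMod N) a ≠ 0 := by
    intro a
    fin_cases a
    · exact n2
    · exact n4
    · exact n5
    · exact n6
  obtain ⟨b, hb0, hb⟩ := exists_partner _ s4n s4 hN2 0
  have hB : q2 = p2 - p1 → Concl x y z := fun hh =>
    T2B hi1 hi2 hi e1 e2 e3 hinj hh
  fin_cases b
  · exact absurd rfl hb0
  · -- q2 = - p2
    have hA : q2 + p1 = -(p2 - p1) := hb
    have hq : q2 = -p2 := by linear_combination hA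
    obtain ⟨f1, f2⟩ := res h hi2.symm hi.symm hi1 hj1 hj2 hj hk1.symm hk hk2
      (show x i2 + y j + z k1 = 0 by linear_combination hr + e2)
    have v' : (![x i - x i2, x i1 - x i2, y j1 - y j, y j2 - y j, z k - z k1, z k2 - z k1] :
        Fin 6 → ZMod N) = ![-p2, p1 - p2, -p1, -p2, p2, 2 * p2] := by
      have v1 : x i - x i2 = -p2 := by rw [hp2]; ring
      have v2 : x i1 - x i2 = p1 - p2 := by rw [hp1, hp2]; ring
      have v4 : y j2 - y j = -p2 := by rw [← hq]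
      have v5 : z k - z k1 = p2 := by linear_combination -e2
      have v6 : z k2 - z k1 = 2 * p2 := by linear_combination e3 - e2 - hq
      rw [v1, v2, v4, v5, v6, e1]
    rw [v'] at f1 f2
    have g2 : p1 - p2 ≠ 0 := f1 1
    have g6 : 2 * p2 ≠ 0 := f1 5
    have r4 : ∀ u : (ZMod N)ˣ, ∑ a, saw ((u : ZMod N) *
        (![p1 - p2, -p1, -p2, 2 * p2] : Fin 4 → ZMod N) a) = 0 := by
      intro u
      have h1 := f2 u
      simp only [Fin.sum_univ_succ, Fin.sum_univ_zero, Matrix.cons_val_zero, Matrix.cons_val_succ,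
        add_zero] at h1 ⊢
      have h2 := saw_cancel (u : ZMod N) p2
      linarith
    have r4n : ∀ a, (![p1 - p2, -p1, -p2, 2 * p2] : Fin 4 → ZMod N) a ≠ 0 := by
      intro a
      fin_cases a
      · exact g2
      · exact n1
      · exact n5
      · exact g6
    obtain ⟨c, hc0, hc⟩ := exists_partner _ r4n r4 hN2 1
    fin_cases c
    · have : p1 - p2 = -(-p1) := hc
      exact absurd (show -p2 = 0 by linear_combination this) n5
    · exact absurd rfl hc0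
    · have hc' : -p2 = -(-p1) := hc
      -- p1 = - p2
      refine ⟨hinj, ⟨y j - x i, fun l => ?_⟩, ⟨z k - x i, fun l => ?_⟩⟩
      · rcases cover3 hi1 hi2 hi l with hl | hl | hl
        · exact ⟨j, by rw [hl]; ring⟩
        · exact ⟨j2, by rw [hl]; linear_combination hq + hc'⟩
        · exact ⟨j1, by rw [hl]; linear_combination e1 + hc'⟩
      · rcases cover3 hi1 hi2 hi l with hl | hl | hl
        · exact ⟨k, by rw [hl]; ring⟩
        · exact ⟨k1, by rw [hl]; linear_combination e2 + hc'⟩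
        · exact ⟨k2, by rw [hl]; linear_combination e3 - hq⟩
    · have hc' : 2 * p2 = -(-p1) := hc
      exact hB (by linear_combination hq - hc')
  · have : -p2 = -(p2 - p1) := hb
    exact absurd (show -p1 = 0 by linear_combination this) n1
  · have : -q2 = -(p2 - p1) := hb
    exact hB (by linear_combination -this)

/-- The value of a residue which is known. -/
lemma val_of_cast {t : ZMod N} {v : ℤ} (h0 : 0 ≤ v) (h1 : v < N) (h : ((v : ℤ) : ZMod N) = t) :
    (t.val : ℤ) = v := by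
  rw [← h, ZMod.val_intCast, Int.emod_eq_of_lt h0 h1]

lemma cast_val' (t : ZMod N) : (((t.val : ℕ) : ℤ) : ZMod N) = t := by
  rw [Int.cast_natCast, ZMod.natCast_zmod_val]

/-- The triangle inequality. -/
lemma tri {x y z : Fin 3 → ZMod N} (h : Good x y z) {i i1 i2 j j1 j2 k k1 k2 : Fin 3}
    (hi1 : i ≠ i1) (hi2 : i ≠ i2) (hi : i1 ≠ i2) (hj1 : j ≠ j1) (hj2 : j ≠ j2) (hj : j1 ≠ j2)
    (hk1 : k ≠ k1) (hk2 : k ≠ k2) (hk : k1 ≠ k2) (hr : x i + y j + z k = 0) {p q r : ZMod N}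
    (p1 : x i1 = x i - p) (p2 : x i2 = x i + p) (q1 : y j1 = y j - q) (q2 : y j2 = y j + q)
    (r1 : z k1 = z k - r) (r2 : z k2 = z k + r) (hr0 : r ≠ 0) (u : (ZMod N)ˣ)
    (hp : 2 * ((u : ZMod N) * p).val < N) (hq : 2 * ((u : ZMod N) * q).val < N)
    (hrr : 2 * ((u : ZMod N) * r).val < N) :
    ((u : ZMod N) * r).val < ((u : ZMod N) * p).val + ((u : ZMod N) * q).val := by
  by_contra hcon
  push Not at hcon
  have hur : ((u : ZMod N) * r).val ≠ 0 := by
    rw [Ne, ZMod.val_eq_zero]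
    exact mul_ne_zero (Units.ne_zero u) hr0
  have h1 := h u i1 j1 k2
  rw [sum_three hi1.symm hi hi2, sum_three hj1.symm hj hj2, sum_three hk2.symm hk.symm hk1] at h1
  simp only [sub_self, mul_zero, ZMod.val_zero, zero_add] at h1
  set P := ((u : ZMod N) * p).val with hP
  set Q := ((u : ZMod N) * q).val with hQ
  set R' := ((u : ZMod N) * r).val with hR
  have cP : (((P : ℕ) : ℤ) : ZMod N) = u * p := cast_val' _
  have cQ : (((Q : ℕ) : ℤ) : ZMod N) = u * q := cast_val' _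
  have cR : (((R' : ℕ) : ℤ) : ZMod N) = u * r := cast_val' _
  have a1 : (((u : ZMod N) * (x i - x i1)).val : ℤ) = P :=
    val_of_cast (by positivity) (by omega) (by rw [cP, p1]; ring)
  have a2 : (((u : ZMod N) * (x i2 - x i1)).val : ℤ) = 2 * P :=
    val_of_cast (by positivity) (by omega) (by push_cast; push_cast at cP; rw [cP, p1, p2]; ring)
  have b1 : (((u : ZMod N) * (y j - y j1)).val : ℤ) = Q :=
    val_of_cast (by positivity) (by omega) (by rw [cQ, q1]; ring)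
  have b2 : (((u : ZMod N) * (y j2 - y j1)).val : ℤ) = 2 * Q :=
    val_of_cast (by positivity) (by omega) (by push_cast; push_cast at cQ; rw [cQ, q1, q2]; ring)
  have c1 : (((u : ZMod N) * (z k - z k2)).val : ℤ) = N - R' :=
    val_of_cast (by omega) (by omega) (by push_cast; push_cast at cR; rw [cR, r2]; simp)
  have c2 : (((u : ZMod N) * (z k1 - z k2)).val : ℤ) = N - 2 * R' :=
    val_of_cast (by omega) (by omega) (by push_cast; push_cast at cR; rw [cR, r1, r2]; simp; ring)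
  have d1 : (((u : ZMod N) * (x i1 + y j1 + z k2)).val : ℤ) = R' - P - Q :=
    val_of_cast (by omega) (by omega) (by
      push_cast; push_cast at cR cP cQ; rw [cR, cP, cQ, p1, q1, r2]
      linear_combination -(u : ZMod N) * hr)
  omega

/-- A sign. -/
lemma exists_sign (hN2 : N ≠ 2) {t : ZMod N} (ht : t ≠ 0) :
    2 * t.val < N ∨ 2 * (-t).val < N := by
  have h1 := val_add_neg (t := t)
  rw [if_neg ht] at h1
  have h2 : ¬ 2 ∣ N := fun h => hN2 ((Nat.prime_dvd_prime_iff_eq Nat.prime_two hN.out).1 h).symm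
  omega

/-- The configuration where all the pairs are internal: two of the differences. -/
lemma T0aux (hN2 : N ≠ 2) {x y z : Fin 3 → ZMod N} (h : Good x y z)
    {i i1 i2 j j1 j2 k k1 k2 : Fin 3}
    (hi1 : i ≠ i1) (hi2 : i ≠ i2) (hi : i1 ≠ i2) (hj1 : j ≠ j1) (hj2 : j ≠ j2) (hj : j1 ≠ j2)
    (hk1 : k ≠ k1) (hk2 : k ≠ k2) (hk : k1 ≠ k2) (hr : x i + y j + z k = 0) {p q r : ZMod N}
    (p1 : x i1 = x i - p) (p2 : x i2 = x i + p) (q1 : y j1 = y j - q) (q2 : y j2 = y j + q)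
    (r1 : z k1 = z k - r) (r2 : z k2 = z k + r) (hp0 : p ≠ 0) (hq0 : q ≠ 0) (hr0 : r ≠ 0) :
    q = r ∨ q = -r := by
  have hN3 : 2 < N := lt_of_le_of_ne hN.out.two_le (Ne.symm hN2)
  -- the unit
  set u : (ZMod N)ˣ := Units.mk0 p⁻¹ (inv_ne_zero hp0) with hu
  have hup : ((u : ZMod N) * p).val = 1 := by
    rw [hu, Units.val_mk0, inv_mul_cancel₀ hp0]
    have : Fact (1 < N) := ⟨by omega⟩
    exact ZMod.val_one N
  -- the statement for given signs
  have key : ∀ {j1 j2 k1 k2 : Fin 3} {q r : ZMod N}, j ≠ j1 → j ≠ j2 → j1 ≠ j2 → k ≠ k1 → k ≠ k2 →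
      k1 ≠ k2 → y j1 = y j - q → y j2 = y j + q → z k1 = z k - r → z k2 = z k + r →
      q ≠ 0 → r ≠ 0 → 2 * ((u : ZMod N) * q).val < N → 2 * ((u : ZMod N) * r).val < N → q = r := by
    intro j1 j2 k1 k2 q r hj1 hj2 hj hk1 hk2 hk q1 q2 r1 r2 hq0 hr0 hq hrr
    have t1 := tri h hi1 hi2 hi hj1 hj2 hj hk1 hk2 hk hr p1 p2 q1 q2 r1 r2 hr0 u (by omega) hq hrr
    have t2 := tri h.swap.rot.swap hk1 hk2 hk hi1 hi2 hi hj1 hj2 hj (by rw [← hr]; ring) r1 r2 p1 p2 q1 q2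
      hq0 u hrr (by omega) hq
    have t3 : ((u : ZMod N) * q).val = ((u : ZMod N) * r).val := by omega
    have t4 := ZMod.val_injective N t3
    exact mul_left_cancel₀ (Units.ne_zero u) t4
  have huq : (u : ZMod N) * q ≠ 0 := mul_ne_zero (Units.ne_zero u) hq0
  have hur : (u : ZMod N) * r ≠ 0 := mul_ne_zero (Units.ne_zero u) hr0
  rcases exists_sign hN2 huq with h1 | h1 <;> rcases exists_sign hN2 hur with h2 | h2
  · exact Or.inl (key hj1 hj2 hj hk1 hk2 hk q1 q2 r1 r2 hq0 hr0 h1 h2)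
  · rw [← mul_neg] at h2
    exact Or.inr (key hj1 hj2 hj hk2 hk1 hk.symm q1 q2 (by rw [r2]; ring) (by rw [r1]; ring) hq0
      (neg_ne_zero.2 hr0) h1 h2)
  · rw [← mul_neg] at h1
    have := key hj2 hj1 hj.symm hk1 hk2 hk (by rw [q2]; ring) (by rw [q1]; ring) r1 r2
      (neg_ne_zero.2 hq0) hr0 h1 h2
    exact Or.inr (by rw [← this]; ring)
  · rw [← mul_neg] at h1 h2
    have := key hj2 hj1 hj.symm hk2 hk1 hk.symm (by rw [q2]; ring) (by rw [q1]; ring)
      (by rw [r2]; ring) (by rw [r1]; ring) (neg_ne_zero.2 hq0) (neg_ne_zero.2 hr0) h1 h2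
    exact Or.inl (neg_injective this)

lemma Tr_of_sym {x y : Fin 3 → ZMod N} {i i1 i2 j j1 j2 : Fin 3}
    (hi1 : i ≠ i1) (hi2 : i ≠ i2) (hi : i1 ≠ i2) {p q : ZMod N}
    (p1 : x i1 = x i - p) (p2 : x i2 = x i + p) (q1 : y j1 = y j - q) (q2 : y j2 = y j + q)
    (h : p = q ∨ p = -q) : Tr x y := by
  refine ⟨y j - x i, fun l => ?_⟩
  rcases cover3 hi1 hi2 hi l with hl | hl | hl
  · exact ⟨j, by rw [hl]; ring⟩
  · rcases h with h | h
    · exact ⟨j1, by rw [hl, p1, q1, h]; ring⟩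
    · exact ⟨j2, by rw [hl, p1, q2, h]; ring⟩
  · rcases h with h | h
    · exact ⟨j2, by rw [hl, p2, q2, h]; ring⟩
    · exact ⟨j1, by rw [hl, p2, q1, h]; ring⟩

lemma two_ne (hN2 : N ≠ 2) : (2 : ZMod N) ≠ 0 := by
  intro h
  have h5 : ((2 : ℕ) : ZMod N) = 0 := by exact_mod_cast h
  rw [ZMod.natCast_eq_zero_iff] at h5
  exact hN2 ((Nat.prime_dvd_prime_iff_eq hN.out Nat.prime_two).1 h5)

/-- The configuration where all the pairs are internal. -/
lemma T0 (hN2 : N ≠ 2) {x y z : Fin 3 → ZMod N} (h : Good x y z)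
    {i i1 i2 j j1 j2 k k1 k2 : Fin 3}
    (hi1 : i ≠ i1) (hi2 : i ≠ i2) (hi : i1 ≠ i2) (hj1 : j ≠ j1) (hj2 : j ≠ j2) (hj : j1 ≠ j2)
    (hk1 : k ≠ k1) (hk2 : k ≠ k2) (hk : k1 ≠ k2) (hr : x i + y j + z k = 0) {p q r : ZMod N}
    (p1 : x i1 = x i - p) (p2 : x i2 = x i + p) (q1 : y j1 = y j - q) (q2 : y j2 = y j + q)
    (r1 : z k1 = z k - r) (r2 : z k2 = z k + r) (hp0 : p ≠ 0) (hq0 : q ≠ 0) (hr0 : r ≠ 0) :
    Concl x y z := by
  have h1 := T0aux hN2 h hi1 hi2 hi hj1 hj2 hj hk1 hk2 hk hr p1 p2 q1 q2 r1 r2 hp0 hq0 hr0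
  have h2 := T0aux hN2 h.swap hj1 hj2 hj hi1 hi2 hi hk1 hk2 hk (by rw [← hr]; ring) q1 q2 p1 p2
    r1 r2 hq0 hp0 hr0
  have h3 : p = q ∨ p = -q := by
    rcases h1 with h1 | h1 <;> rcases h2 with h2 | h2 <;> rw [h1, h2] <;> simp
  refine ⟨?_, Tr_of_sym hi1 hi2 hi p1 p2 q1 q2 h3, Tr_of_sym hi1 hi2 hi p1 p2 r1 r2 h2⟩
  refine inj3 hi1 hi2 hi ?_ ?_ ?_
  · rw [p1]; intro h; apply hp0; linear_combination -h
  · rw [p2]; intro h; apply hp0; linear_combination h
  · rw [p1, p2]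
    intro h
    have : (2 : ZMod N) * p = 0 := by linear_combination h
    rcases mul_eq_zero.1 this with h4 | h4
    · exact two_ne hN2 h4
    · exact hp0 h4

end Pool.Agent.R927
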