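import Pool.Agent.R927.Six2

set_option autoImplicit false

/-!
The case of one internal pair, and the theorem on three triples of residues.
-/

namespace Pool.Agent.R927

open Finset Pool.Agent.H916R2

/-- The choice of the multiplier. -/
lemma exists_mult {N b : ℕ} (hodd : N % 2 = 1) (hb : 2 ≤ b) (hbN : 3 * b < N) :
    ∃ w : ℕ, (2 * w + 1) * b < N ∧ N + (2 * w + 1) ≤ (2 * w + 1) * (2 * b) ∧ 2 * w + 3 ≤ N := by
  by_cases h3 : N + 3 ≤ 3 * (2 * b)
  · exact ⟨1, by omega, by omega, by omega⟩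
  · push Not at h3
    have hex : ∃ w : ℕ, N + (2 * w + 1) ≤ (2 * w + 1) * (2 * b) := by
      refine ⟨N, ?_⟩
      nlinarith
    classical
    set w := Nat.find hex with hw
    have h1 : N + (2 * w + 1) ≤ (2 * w + 1) * (2 * b) := Nat.find_spec hex
    have hw1 : 1 < w := by
      by_contra h
      have h4 : w = 0 ∨ w = 1 := by omega
      rcases h4 with h4 | h4
      · rw [h4] at h1; omega
      · rw [h4] at h1; omega
    obtain ⟨v, hv⟩ : ∃ v, w = v + 1 := ⟨w - 1, by omega⟩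
    have h2 : ¬ (N + (2 * v + 1) ≤ (2 * v + 1) * (2 * b)) := Nat.find_min hex (by omega)
    push Not at h2
    rw [hv] at h1
    clear_value w
    -- integers
    have g1 : ((N : ℤ) + (2 * (v + 1) + 1)) ≤ (2 * (v + 1) + 1) * (2 * b) := by exact_mod_cast h1
    have g2 : ((2 * (v : ℤ) + 1) * (2 * b)) < N + (2 * v + 1) := by exact_mod_cast h2
    have g3 : (3 : ℤ) * (2 * b) < N + 3 := by exact_mod_cast h3
    have g4 : (2 : ℤ) ≤ b := by exact_mod_cast hb
    have g5 : (N : ℤ) % 2 = 1 := by omega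
    have g6 : (1 : ℤ) ≤ v := by omega
    -- parity
    have g7 : ((2 * (v : ℤ) + 1) * (2 * b)) ≤ N + (2 * v + 1) - 2 := by
      have : ((2 * (v : ℤ) + 1) * (2 * b)) % 2 = 0 := by
        rw [show (2 * (v : ℤ) + 1) * (2 * b) = 2 * ((2 * v + 1) * b) by ring]
        exact Int.mul_emod_right 2 _
      omega
    have key : (2 * (v : ℤ) + 3) + 2 * (2 * b - 1) ≤ N := by
      by_contra hcon
      push Not at hcon
      have e1 : (N : ℤ) - 1 - 2 * (2 * b - 1) ≤ 2 * v + 1 := by linarith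
      have e2 : ((N : ℤ) - 1 - 2 * (2 * b - 1)) * (2 * b - 1) ≤ (2 * v + 1) * (2 * b - 1) :=
        mul_le_mul_of_nonneg_right e1 (by linarith)
      have e3 : (2 * (v : ℤ) + 1) * (2 * b - 1) ≤ N - 2 := by linarith
      have e4 : (0 : ℤ) ≤ ((2 * b - 1) - 3) * ((N - 1) - 3 * (2 * b - 1)) :=
        mul_nonneg (by linarith) (by linarith)
      have e5 : (0 : ℤ) ≤ (2 * b - 1) * ((N - 1) - 9) := mul_nonneg (by linarith) (by linarith)
      nlinarith
    refine ⟨v + 1, ?_, h1, ?_⟩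
    · have : ((2 * ((v : ℤ) + 1) + 1) * b) < N := by nlinarith
      exact_mod_cast this
    · omega

variable {N : ℕ} [hN : Fact N.Prime]

/-- The gaps of a multiple. -/
lemma gap_mult {Y : Fin 3 → ZMod N}
    (H : ∀ k : ℕ, 1 ≤ k → 2 * k < N → ∀ l l' l'' : Fin 3, l ≠ l' → l ≠ l'' → l' ≠ l'' →
      ((k : ZMod N) * (Y l' - Y l)).val ≤ ((k : ZMod N) * (Y l'' - Y l)).val →
      ((k : ZMod N) * (Y l - Y l'')).val + k < N) (hY : Function.Injective Y)
    {k : ℕ} (hk1 : 1 ≤ k) (hk2 : 2 * k < N) {l0 l1 l2 : Fin 3} (h01 : l0 ≠ l1) (h02 : l0 ≠ l2)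
    (h12 : l1 ≠ l2) :
    (((k : ZMod N) * (Y l1 - Y l0)).val + ((k : ZMod N) * (Y l2 - Y l1)).val +
      ((k : ZMod N) * (Y l0 - Y l2)).val = N ∧ ((k : ZMod N) * (Y l1 - Y l0)).val + k < N) ∨
    (((k : ZMod N) * (Y l1 - Y l0)).val + ((k : ZMod N) * (Y l2 - Y l1)).val +
      ((k : ZMod N) * (Y l0 - Y l2)).val = 2 * N ∧ k < ((k : ZMod N) * (Y l1 - Y l0)).val) := by
  have hk0 : (k : ZMod N) ≠ 0 := by
    rw [Ne, ZMod.natCast_eq_zero_iff]
    intro h
    have := Nat.le_of_dvd hk1 h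
    omega
  have hne : ∀ {a b : Fin 3}, a ≠ b → (k : ZMod N) * (Y a - Y b) ≠ 0 := fun hab =>
    mul_ne_zero hk0 (sub_ne_zero.2 fun h => hab (hY h))
  have hneg : ∀ {a b : Fin 3}, a ≠ b → ((k : ZMod N) * (Y b - Y a)).val +
      ((k : ZMod N) * (Y a - Y b)).val = N := by
    intro a b hab
    have := val_add_neg (t := (k : ZMod N) * (Y b - Y a))
    rw [if_neg (hne hab.symm)] at this
    rw [show -((k : ZMod N) * (Y b - Y a)) = (k : ZMod N) * (Y a - Y b) by ring] at this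
    exact this
  have hpos : ∀ {a b : Fin 3}, a ≠ b → 0 < ((k : ZMod N) * (Y a - Y b)).val := fun hab =>
    Nat.pos_of_ne_zero fun h => hne hab ((ZMod.val_eq_zero _).1 h)
  have hlt : ∀ t : ZMod N, t.val < N := fun t => ZMod.val_lt t
  -- the sum
  have hsum : N ∣ ((k : ZMod N) * (Y l1 - Y l0)).val + ((k : ZMod N) * (Y l2 - Y l1)).val +
      ((k : ZMod N) * (Y l0 - Y l2)).val := by
    rw [← ZMod.natCast_eq_zero_iff]
    push_cast
    simp only [ZMod.natCast_zmod_val]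
    ring
  have a1 := hneg h01
  have a2 := hneg h12
  have a3 := hneg h02
  have b1 := hpos h01.symm
  have b2 := hpos h12.symm
  have b3 := hpos h02
  have c1 := hlt ((k : ZMod N) * (Y l1 - Y l0))
  have c2 := hlt ((k : ZMod N) * (Y l2 - Y l1))
  have c3 := hlt ((k : ZMod N) * (Y l0 - Y l2))
  have d1 := H k hk1 hk2 l1 l2 l0 h12 h01.symm h02.symm
  have d2 := H k hk1 hk2 l0 l2 l1 h02 h01 h12.symm
  generalize ((k : ZMod N) * (Y l1 - Y l0)).val = r1 at *
  generalize ((k : ZMod N) * (Y l2 - Y l1)).val = r2 at *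
  generalize ((k : ZMod N) * (Y l0 - Y l2)).val = r3 at *
  generalize ((k : ZMod N) * (Y l0 - Y l1)).val = r1' at *
  generalize ((k : ZMod N) * (Y l1 - Y l2)).val = r2' at *
  generalize ((k : ZMod N) * (Y l2 - Y l0)).val = r3' at *
  obtain ⟨c, hc⟩ := hsum
  have hc0 : 0 < c := by
    rcases Nat.eq_zero_or_pos c with h | h
    · rw [h] at hc; omega
    · exact h
  have hc3 : c < 3 := by
    by_contra h
    push Not at h
    have := Nat.mul_le_mul_left N h
    omega
  have hc12 : c = 1 ∨ c = 2 := by omega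
  rcases hc12 with rfl | rfl
  · left
    exact ⟨by omega, by have := d1 (by omega); omega⟩
  · right
    exact ⟨by omega, by have := d2 (by omega); omega⟩

/-- The values of the multiples of an odd and an even residue by `h`, `N = 2 h + 1`. -/
lemma half_mult {h : ℕ} (hh : N = 2 * h + 1) {s : ZMod N} :
    (∀ t : ℕ, s.val = 2 * t + 1 → ((h : ZMod N) * s).val + t = h) ∧
    (∀ t : ℕ, 0 < t → s.val = 2 * t → ((h : ZMod N) * s).val + t = N) := by
  have hs := ZMod.val_lt s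
  have hc : (2 * (h : ZMod N) + 1) = 0 := by
    have : ((2 * h + 1 : ℕ) : ZMod N) = 0 := by rw [← hh]; simp
    exact_mod_cast this
  constructor
  · intro t ht
    have : (((h : ZMod N) * s).val : ℤ) = h - t := by
      apply val_of_cast (by omega) (by omega)
      have e : s = ((2 * t + 1 : ℕ) : ZMod N) := by rw [← ht, ZMod.natCast_zmod_val]
      rw [e]
      push_cast
      linear_combination -(t : ZMod N) * hc
    omega
  · intro t ht0 ht
    have : (((h : ZMod N) * s).val : ℤ) = N - t := by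
      apply val_of_cast (by omega) (by omega)
      have e : s = ((2 * t : ℕ) : ZMod N) := by rw [← ht, ZMod.natCast_zmod_val]
      rw [e]
      push_cast
      simp only [CharP.cast_eq_zero, zero_sub]
      linear_combination -(t : ZMod N) * hc
    omega

/-- The gaps are one, except for the largest. -/
lemma gaps_one (hN2 : N ≠ 2) {Y : Fin 3 → ZMod N}
    (H : ∀ k : ℕ, 1 ≤ k → 2 * k < N → ∀ l l' l'' : Fin 3, l ≠ l' → l ≠ l'' → l' ≠ l'' →
      ((k : ZMod N) * (Y l' - Y l)).val ≤ ((k : ZMod N) * (Y l'' - Y l)).val →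
      ((k : ZMod N) * (Y l - Y l'')).val + k < N) (hY : Function.Injective Y)
    {l0 l1 l2 : Fin 3} (h01 : l0 ≠ l1) (h02 : l0 ≠ l2) (h12 : l1 ≠ l2)
    (hs : (Y l1 - Y l0).val + (Y l2 - Y l1).val + (Y l0 - Y l2).val = N)
    (h2 : (Y l2 - Y l1).val ≤ (Y l1 - Y l0).val) (h3 : (Y l0 - Y l2).val ≤ (Y l1 - Y l0).val) :
    (Y l2 - Y l1).val = 1 ∧ (Y l0 - Y l2).val = 1 := by
  have hodd : N % 2 = 1 := by
    rcases hN.out.eq_two_or_odd with h | h
    · exact absurd h hN2
    · exact h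
  have hN3 : 3 ≤ N := by have := hN.out.two_le; omega
  obtain ⟨h, hh⟩ : ∃ h, N = 2 * h + 1 := ⟨N / 2, by omega⟩
  have hpos : ∀ {a b : Fin 3}, a ≠ b → 0 < (Y a - Y b).val := fun hab =>
    Nat.pos_of_ne_zero fun h' => hab (hY (sub_eq_zero.1 ((ZMod.val_eq_zero _).1 h')))
  have q1 := hpos h01.symm
  have q2 := hpos h12.symm
  have q3 := hpos h02
  -- parity
  have K1 := gap_mult H hY (show 1 ≤ h by omega) (show 2 * h < N by omega) h01 h02 h12
  have K2 := gap_mult H hY (show 1 ≤ h by omega) (show 2 * h < N by omega) h12 h01.symm h02.symm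
  have K3 := gap_mult H hY (show 1 ≤ h by omega) (show 2 * h < N by omega) h02.symm h12.symm h01
  obtain ⟨m1, m1'⟩ := half_mult hh (s := Y l1 - Y l0)
  obtain ⟨m2, m2'⟩ := half_mult hh (s := Y l2 - Y l1)
  obtain ⟨m3, m3'⟩ := half_mult hh (s := Y l0 - Y l2)
  have hpar : (Y l1 - Y l0).val % 2 = 1 ∧ (Y l2 - Y l1).val % 2 = 1 ∧
      (Y l0 - Y l2).val % 2 = 1 := by
    rcases Nat.mod_two_eq_zero_or_one (Y l1 - Y l0).val with p1 | p1 <;>
    rcases Nat.mod_two_eq_zero_or_one (Y l2 - Y l1).val with p2 | p2 <;>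
    rcases Nat.mod_two_eq_zero_or_one (Y l0 - Y l2).val with p3 | p3
    · omega
    · exfalso
      have e1 := m1' ((Y l1 - Y l0).val / 2) (by omega) (by omega)
      have e2 := m2' ((Y l2 - Y l1).val / 2) (by omega) (by omega)
      have e3 := m3 ((Y l0 - Y l2).val / 2) (by omega)
      omega
    · exfalso
      have e1 := m1' ((Y l1 - Y l0).val / 2) (by omega) (by omega)
      have e2 := m2 ((Y l2 - Y l1).val / 2) (by omega)
      have e3 := m3' ((Y l0 - Y l2).val / 2) (by omega) (by omega)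
      omega
    · omega
    · exfalso
      have e1 := m1 ((Y l1 - Y l0).val / 2) (by omega)
      have e2 := m2' ((Y l2 - Y l1).val / 2) (by omega) (by omega)
      have e3 := m3' ((Y l0 - Y l2).val / 2) (by omega) (by omega)
      omega
    · omega
    · omega
    · exact ⟨p1, p2, p3⟩
  obtain ⟨p1, p2, p3⟩ := hpar
  obtain ⟨t2, ht2⟩ : ∃ t, (Y l2 - Y l1).val = 2 * t + 1 := ⟨(Y l2 - Y l1).val / 2, by omega⟩
  obtain ⟨t3, ht3⟩ : ∃ t, (Y l0 - Y l2).val = 2 * t + 1 := ⟨(Y l0 - Y l2).val / 2, by omega⟩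
  by_contra hcon
  have hb : 2 ≤ t2 + t3 + 1 := by omega
  have hb3 : 3 * (t2 + t3 + 1) < N := by
    have h1 : 3 * (t2 + t3 + 1) ≤ N := by omega
    rcases h1.lt_or_eq with h1 | h1
    · exact h1
    · exfalso
      have h4 : 3 ∣ N := ⟨_, h1.symm⟩
      have h5 := (Nat.prime_dvd_prime_iff_eq Nat.prime_three hN.out).1 h4
      omega
  obtain ⟨w, w1, w2, w3⟩ := exists_mult hodd hb hb3
  clear K1 K2 K3 m1 m1' m2 m2' m3 m3'
  set b := t2 + t3 + 1 with hbdef
  have hwh : w + 1 ≤ h := by omega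
  obtain ⟨k, hk⟩ : ∃ k, h = w + k := ⟨h - w, by omega⟩
  have hk1 : 1 ≤ k := by omega
  have K1 := gap_mult H hY hk1 (show 2 * k < N by omega) h01 h02 h12
  have K2 := gap_mult H hY hk1 (show 2 * k < N by omega) h12 h01.symm h02.symm
  have K3 := gap_mult H hY hk1 (show 2 * k < N by omega) h02.symm h12.symm h01
  have hc : (2 * (k : ZMod N) + (2 * (w : ZMod N) + 1)) = 0 := by
    have : ((2 * k + (2 * w + 1) : ℕ) : ZMod N) = 0 := by
      rw [show 2 * k + (2 * w + 1) = N by omega]; simp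
    exact_mod_cast this
  -- the residues
  have e2 : (Y l2 - Y l1) = ((2 * t2 + 1 : ℕ) : ZMod N) := by rw [← ht2, ZMod.natCast_zmod_val]
  have e3 : (Y l0 - Y l2) = ((2 * t3 + 1 : ℕ) : ZMod N) := by rw [← ht3, ZMod.natCast_zmod_val]
  have r1 : (((k : ZMod N) * (Y l1 - Y l0)).val : ℤ) = (2 * w + 1) * b := by
    apply val_of_cast (by positivity) (by exact_mod_cast w1)
    have e1 : Y l1 - Y l0 = -((Y l2 - Y l1) + (Y l0 - Y l2)) := by ring
    rw [e1, e2, e3, hbdef]
    push_cast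
    linear_combination ((t2 : ZMod N) + t3 + 1) * hc
  have r2 : ∃ ε : ℤ, (((k : ZMod N) * (Y l2 - Y l1)).val : ℤ) = k - t2 * (2 * w + 1) + N * ε := by
    have : (N : ℤ) ∣ (((k : ZMod N) * (Y l2 - Y l1)).val : ℤ) - (k - t2 * (2 * w + 1)) := by
      rw [← ZMod.intCast_zmod_eq_zero_iff_dvd]
      push_cast
      rw [ZMod.natCast_zmod_val, e2]
      push_cast
      linear_combination (t2 : ZMod N) * hc
    obtain ⟨ε, hε⟩ := this
    exact ⟨ε, by linear_combination hε⟩
  have r3 : ∃ ε : ℤ, (((k : ZMod N) * (Y l0 - Y l2)).val : ℤ) = k - t3 * (2 * w + 1) + N * ε := by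
    have : (N : ℤ) ∣ (((k : ZMod N) * (Y l0 - Y l2)).val : ℤ) - (k - t3 * (2 * w + 1)) := by
      rw [← ZMod.intCast_zmod_eq_zero_iff_dvd]
      push_cast
      rw [ZMod.natCast_zmod_val, e3]
      push_cast
      linear_combination (t3 : ZMod N) * hc
    obtain ⟨ε, hε⟩ := this
    exact ⟨ε, by linear_combination hε⟩
  obtain ⟨ε2, r2⟩ := r2
  obtain ⟨ε3, r3⟩ := r3
  have hNz : (N : ℤ) = 2 * k + (2 * w + 1) := by omega
  have w2' : (N : ℤ) + (2 * w + 1) ≤ (2 * w + 1) * (2 * b) := by exact_mod_cast w2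
  have hbz : (b : ℤ) = t2 + t3 + 1 := by rw [hbdef]; push_cast; ring
  rcases K1 with ⟨s1, g1⟩ | ⟨s1, g1⟩
  · have g1' : (((k : ZMod N) * (Y l1 - Y l0)).val : ℤ) + k < N := by exact_mod_cast g1
    rw [r1] at g1'
    have g1'' : 2 * ((2 * (w : ℤ) + 1) * b) + 2 * k < 2 * N := by linarith
    have : (2 * (w : ℤ) + 1) * (2 * b) = 2 * ((2 * (w : ℤ) + 1) * b) := by ring
    linarith
  · have g2 : (k : ℤ) < ((k : ZMod N) * (Y l2 - Y l1)).val := by
      rcases K2 with ⟨s2, -⟩ | ⟨-, g2⟩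
      · exfalso; omega
      · exact_mod_cast g2
    have g3 : (k : ℤ) < ((k : ZMod N) * (Y l0 - Y l2)).val := by
      rcases K3 with ⟨s2, -⟩ | ⟨-, g2⟩
      · exfalso; omega
      · exact_mod_cast g2
    have s1' : (((k : ZMod N) * (Y l1 - Y l0)).val : ℤ) + ((k : ZMod N) * (Y l2 - Y l1)).val +
      ((k : ZMod N) * (Y l0 - Y l2)).val = 2 * N := by exact_mod_cast s1
    have hNpos : (0 : ℤ) < N := by omega
    have f2 : (N : ℤ) ≤ N * ε2 := by
      refine le_mul_of_one_le_right hNpos.le ?_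
      by_contra hneg
      push Not at hneg
      have h1 : (0 : ℤ) ≤ t2 * (2 * w + 1) := by positivity
      have h2 : (N : ℤ) * ε2 ≤ 0 := mul_nonpos_of_nonneg_of_nonpos hNpos.le (by omega)
      rw [r2] at g2
      linarith
    have f3 : (N : ℤ) ≤ N * ε3 := by
      refine le_mul_of_one_le_right hNpos.le ?_
      by_contra hneg
      push Not at hneg
      have h1 : (0 : ℤ) ≤ t3 * (2 * w + 1) := by positivity
      have h2 : (N : ℤ) * ε3 ≤ 0 := mul_nonpos_of_nonneg_of_nonpos hNpos.le (by omega)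
      rw [r3] at g3
      linarith
    rw [r1, r2, r3, hbz] at s1'
    have : (N : ℤ) + N * ε2 + N * ε3 = 2 * N := by linear_combination s1' + hNz
    linarith

/-- The configuration with one internal pair, in terms of the gaps. -/
lemma T1core (hN2 : N ≠ 2) {X : Fin 3 → ZMod N} (hX : Function.Injective X) {r : ZMod N}
    (hr : r ≠ 0)
    (H : ∀ (u : (ZMod N)ˣ) (l l' l'' : Fin 3), l ≠ l' → l ≠ l'' → l' ≠ l'' →
      2 * ((u : ZMod N) * r).val < N →
      ((u : ZMod N) * (X l' - X l)).val ≤ ((u : ZMod N) * (X l'' - X l)).val →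
      ((u : ZMod N) * (X l - X l'')).val + ((u : ZMod N) * r).val < N) :
    ∃ i i1 i2 : Fin 3, i ≠ i1 ∧ i ≠ i2 ∧ i1 ≠ i2 ∧ X i1 = X i - r ∧ X i2 = X i + r := by
  set Y : Fin 3 → ZMod N := fun l => r⁻¹ * X l with hYdef
  have hr' : r⁻¹ ≠ 0 := inv_ne_zero hr
  have hY : Function.Injective Y := fun a b hab => hX (mul_left_cancel₀ hr' hab)
  have H' : ∀ k : ℕ, 1 ≤ k → 2 * k < N → ∀ l l' l'' : Fin 3, l ≠ l' → l ≠ l'' → l' ≠ l'' →
      ((k : ZMod N) * (Y l' - Y l)).val ≤ ((k : ZMod N) * (Y l'' - Y l)).val →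
      ((k : ZMod N) * (Y l - Y l'')).val + k < N := by
    intro k hk1 hk2 l l' l'' h1 h2 h3 hle
    have hk0 : (k : ZMod N) ≠ 0 := by
      rw [Ne, ZMod.natCast_eq_zero_iff]
      intro h
      have := Nat.le_of_dvd hk1 h
      omega
    have hu : (k : ZMod N) * r⁻¹ ≠ 0 := mul_ne_zero hk0 hr'
    have hur : ((Units.mk0 _ hu : (ZMod N)ˣ) : ZMod N) * r = k := by
      rw [Units.val_mk0, mul_assoc, inv_mul_cancel₀ hr, mul_one]
    have hval : ((k : ℕ) : ZMod N).val = k := ZMod.val_cast_of_lt (by omega)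
    have := H (Units.mk0 _ hu) l l' l'' h1 h2 h3
    rw [hur, hval, Units.val_mk0] at this
    have e : ∀ a b : Fin 3, (k : ZMod N) * (Y a - Y b) = (k : ZMod N) * r⁻¹ * (X a - X b) := by
      intro a b
      simp only [hYdef]; ring
    rw [e, e] at hle
    rw [e]
    exact this hk2 hle
  -- the final step for a good order
  have fin : ∀ l0 l1 l2 : Fin 3, l0 ≠ l1 → l0 ≠ l2 → l1 ≠ l2 →
      (Y l1 - Y l0).val + (Y l2 - Y l1).val + (Y l0 - Y l2).val = N →
      (Y l2 - Y l1).val ≤ (Y l1 - Y l0).val → (Y l0 - Y l2).val ≤ (Y l1 - Y l0).val →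
      ∃ i i1 i2 : Fin 3, i ≠ i1 ∧ i ≠ i2 ∧ i1 ≠ i2 ∧ X i1 = X i - r ∧ X i2 = X i + r := by
    intro l0 l1 l2 h01 h02 h12 hs h2 h3
    obtain ⟨g1, g2⟩ := gaps_one hN2 H' hY h01 h02 h12 hs h2 h3
    refine ⟨l2, l1, l0, h12.symm, h02.symm, h01.symm, ?_, ?_⟩
    · have : Y l2 - Y l1 = 1 := by
        rw [← ZMod.natCast_zmod_val (Y l2 - Y l1), g1, Nat.cast_one]
      have h4 : r⁻¹ * (X l2 - X l1) = 1 := by rw [← this]; simp only [hYdef]; ring
      have h5 : X l2 - X l1 = r := by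
        have := congrArg (fun t => r * t) h4
        simp only [← mul_assoc, mul_inv_cancel₀ hr, one_mul, mul_one] at this
        exact this
      linear_combination -h5
    · have : Y l0 - Y l2 = 1 := by
        rw [← ZMod.natCast_zmod_val (Y l0 - Y l2), g2, Nat.cast_one]
      have h4 : r⁻¹ * (X l0 - X l2) = 1 := by rw [← this]; simp only [hYdef]; ring
      have h5 : X l0 - X l2 = r := by
        have := congrArg (fun t => r * t) h4
        simp only [← mul_assoc, mul_inv_cancel₀ hr, one_mul, mul_one] at this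
        exact this
      linear_combination h5
  -- rotations
  have fin2 : ∀ l0 l1 l2 : Fin 3, l0 ≠ l1 → l0 ≠ l2 → l1 ≠ l2 →
      (Y l1 - Y l0).val + (Y l2 - Y l1).val + (Y l0 - Y l2).val = N →
      ∃ i i1 i2 : Fin 3, i ≠ i1 ∧ i ≠ i2 ∧ i1 ≠ i2 ∧ X i1 = X i - r ∧ X i2 = X i + r := by
    intro l0 l1 l2 h01 h02 h12 hs
    rcases le_total (Y l2 - Y l1).val (Y l1 - Y l0).val with a1 | a1
    · rcases le_total (Y l0 - Y l2).val (Y l1 - Y l0).val with a2 | a2
      · exact fin l0 l1 l2 h01 h02 h12 hs a1 a2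
      · exact fin l2 l0 l1 h02.symm h12.symm h01 (by omega) a2 (a1.trans a2)
    · rcases le_total (Y l0 - Y l2).val (Y l2 - Y l1).val with a2 | a2
      · exact fin l1 l2 l0 h12 h01.symm h02.symm (by omega) a2 a1
      · exact fin l2 l0 l1 h02.symm h12.symm h01 (by omega) (a1.trans a2) a2
  have hneg : ∀ {a b : Fin 3}, a ≠ b → (Y b - Y a).val + (Y a - Y b).val = N := by
    intro a b hab
    have := val_add_neg (t := Y b - Y a)
    rw [if_neg (sub_ne_zero.2 fun h => hab (hY h.symm)),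
      show -(Y b - Y a) = Y a - Y b by ring] at this
    exact this
  have hsum : N ∣ (Y 1 - Y 0).val + (Y 2 - Y 1).val + (Y 0 - Y 2).val := by
    rw [← ZMod.natCast_eq_zero_iff]
    push_cast
    simp only [ZMod.natCast_zmod_val]
    ring
  have a1 := hneg (show (0 : Fin 3) ≠ 1 by decide)
  have a2 := hneg (show (1 : Fin 3) ≠ 2 by decide)
  have a3 := hneg (show (0 : Fin 3) ≠ 2 by decide)
  have hpos : ∀ {a b : Fin 3}, a ≠ b → 0 < (Y a - Y b).val := fun hab =>
    Nat.pos_of_ne_zero fun h' => hab (hY (sub_eq_zero.1 ((ZMod.val_eq_zero _).1 h')))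
  have b1 := hpos (show (1 : Fin 3) ≠ 0 by decide)
  have b2 := hpos (show (2 : Fin 3) ≠ 1 by decide)
  have b3 := hpos (show (0 : Fin 3) ≠ 2 by decide)
  have c1 := ZMod.val_lt (Y 1 - Y 0)
  have c2 := ZMod.val_lt (Y 2 - Y 1)
  have c3 := ZMod.val_lt (Y 0 - Y 2)
  obtain ⟨c, hc⟩ := hsum
  have hc12 : c = 1 ∨ c = 2 := by
    rcases Nat.eq_zero_or_pos c with h | h
    · rw [h] at hc; omega
    · by_contra h'
      have h3 : 3 ≤ c := by omega
      have := Nat.mul_le_mul_left N h3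
      omega
  rcases hc12 with rfl | rfl
  · exact fin2 0 1 2 (by decide) (by decide) (by decide) (by omega)
  · exact fin2 0 2 1 (by decide) (by decide) (by decide) (by omega)

end Pool.Agent.R927
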