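import Pool.Agent.R927.Six3

set_option autoImplicit false

/-!
The theorem on three triples of residues.
-/

namespace Pool.Agent.R927

open Finset Pool.Agent.H916R2

variable {N : ℕ} [hN : Fact N.Prime]

/-- The inequality for the gaps. -/
lemma T1H {x y z : Fin 3 → ZMod N} (h : Good x y z) (hinj : Function.Injective x)
    (σ : Equiv.Perm (Fin 3)) {c r : ZMod N} (hσ : ∀ l, y (σ l) = c - x l) {k k1 k2 : Fin 3}
    (hk1 : k ≠ k1) (hk2 : k ≠ k2) (hk : k1 ≠ k2) (hc : c + z k = 0)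
    (r1 : z k1 = z k - r) (r2 : z k2 = z k + r) (hr0 : r ≠ 0)
    (u : (ZMod N)ˣ) (l l' l'' : Fin 3) (h1 : l ≠ l') (h2 : l ≠ l'') (h3 : l' ≠ l'')
    (hu : 2 * ((u : ZMod N) * r).val < N)
    (hle : ((u : ZMod N) * (x l' - x l)).val ≤ ((u : ZMod N) * (x l'' - x l)).val) :
    ((u : ZMod N) * (x l - x l'')).val + ((u : ZMod N) * r).val < N := by
  by_contra hcon
  push Not at hcon
  have hne : ∀ {a b : Fin 3}, a ≠ b → (u : ZMod N) * (x a - x b) ≠ 0 := fun hab =>
    mul_ne_zero (Units.ne_zero u) (sub_ne_zero.2 fun h => hab (hinj h))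
  have hg := h u l (σ l'') k2
  have hy : ∑ m, ((u : ZMod N) * (y m - y (σ l''))).val =
      ∑ m, ((u : ZMod N) * (x l'' - x m)).val := by
    rw [← Equiv.sum_comp σ]
    refine sum_congr rfl fun m _ => ?_
    rw [hσ, hσ]
    congr 2; ring
  rw [hy, sum_three h1 h2 h3, sum_three h2.symm h3.symm h1 (fun m => ((u : ZMod N) * (x l'' - x m)).val),
    sum_three hk2.symm hk.symm hk1, hσ] at hg
  simp only [sub_self, mul_zero, ZMod.val_zero, zero_add] at hg
  have g1 := val_add_neg (t := (u : ZMod N) * (x l - x l''))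
  rw [if_neg (hne h2), show -((u : ZMod N) * (x l - x l'')) = (u : ZMod N) * (x l'' - x l) by ring]
    at g1
  have g2 : 0 < ((u : ZMod N) * (x l - x l'')).val :=
    Nat.pos_of_ne_zero fun h => hne h2 ((ZMod.val_eq_zero _).1 h)
  have g3 : 0 < ((u : ZMod N) * r).val :=
    Nat.pos_of_ne_zero fun h => mul_ne_zero (Units.ne_zero u) hr0 ((ZMod.val_eq_zero _).1 h)
  have g4 := ZMod.val_lt ((u : ZMod N) * (x l - x l''))
  set G := ((u : ZMod N) * (x l - x l'')).val with hG
  set t := ((u : ZMod N) * (x l' - x l)).val with ht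
  set R' := ((u : ZMod N) * r).val with hR
  have cG : (((G : ℕ) : ℤ) : ZMod N) = u * (x l - x l'') := cast_val' _
  have ct : (((t : ℕ) : ℤ) : ZMod N) = u * (x l' - x l) := cast_val' _
  have cR : (((R' : ℕ) : ℤ) : ZMod N) = u * r := cast_val' _
  have a1 : (((u : ZMod N) * (x l'' - x l')).val : ℤ) = N - G - t :=
    val_of_cast (by omega) (by omega) (by
      push_cast; push_cast at cG ct; rw [cG, ct]; simp; ring)
  have c1 : (((u : ZMod N) * (z k - z k2)).val : ℤ) = N - R' :=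
    val_of_cast (by omega) (by omega) (by push_cast; push_cast at cR; rw [cR, r2]; simp)
  have c2 : (((u : ZMod N) * (z k1 - z k2)).val : ℤ) = N - 2 * R' :=
    val_of_cast (by omega) (by omega) (by push_cast; push_cast at cR; rw [cR, r1, r2]; simp; ring)
  have d1 : (((u : ZMod N) * (x l + (c - x l'') + z k2)).val : ℤ) = G + R' - N :=
    val_of_cast (by omega) (by omega) (by
      push_cast; push_cast at cR cG; rw [cR, cG, r2]; simp
      linear_combination -(u : ZMod N) * hc)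
  omega

lemma perm_of {x y : Fin 3 → ZMod N} {s : ZMod N} (hx : Function.Injective x)
    (hs : ∀ l, ∃ l', y l' = x l + s) : ∃ σ : Equiv.Perm (Fin 3), ∀ l, y (σ l) = x l + s := by
  choose f hf using hs
  have hinj : Function.Injective f := by
    intro a b hab
    apply hx
    have h1 := hf a
    rw [hab, hf b] at h1
    exact (add_right_cancel h1).symm
  exact ⟨Equiv.ofBijective f (Finite.injective_iff_bijective.1 hinj), hf⟩

/-- The configuration with one internal pair. -/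
lemma T1 (hN2 : N ≠ 2) {x y z : Fin 3 → ZMod N} (h : Good x y z) {i i1 i2 j j1 j2 k k1 k2 : Fin 3}
    (hi1 : i ≠ i1) (hi2 : i ≠ i2) (hi : i1 ≠ i2) (hj1 : j ≠ j1) (hj2 : j ≠ j2) (hj : j1 ≠ j2)
    (hk1 : k ≠ k1) (hk2 : k ≠ k2) (hk : k1 ≠ k2) (hr : x i + y j + z k = 0)
    (e1 : y j1 - y j = -(x i1 - x i)) (e2 : y j2 - y j = -(x i2 - x i))
    (e3 : z k1 - z k = -(z k2 - z k)) : Concl x y z := by
  obtain ⟨d1, -⟩ := res h hi1.symm hi hi2 hj1.symm hj hj2 hk1 hk2 hk
    (show x i1 + y j1 + z k = 0 by linear_combination hr + e1)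
  have n2 : x i2 - x i1 ≠ 0 := d1 1
  have n6 : z k2 - z k ≠ 0 := d1 5
  obtain ⟨f1, -⟩ := res h hi1 hi2 hi hj1 hj2 hj hk1 hk2 hk hr
  have m1 : x i1 - x i ≠ 0 := f1 0
  have m2 : x i2 - x i ≠ 0 := f1 1
  have hinj : Function.Injective x := inj3 hi1 hi2 hi m1 m2 n2
  set r := z k2 - z k with hrdef
  have r1 : z k1 = z k - r := by linear_combination e3
  have r2 : z k2 = z k + r := by rw [hrdef]; ring
  obtain ⟨σ, hσ⟩ := perm_of (x := fun l => -x l) (y := y) (s := y j + x i)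
    (fun a b hab => hinj (neg_injective hab)) (fun l => by
      rcases cover3 hi1 hi2 hi l with hl | hl | hl
      · exact ⟨j, by rw [hl]; ring⟩
      · exact ⟨j1, by rw [hl]; linear_combination e1⟩
      · exact ⟨j2, by rw [hl]; linear_combination e2⟩)
  have hσ' : ∀ l, y (σ l) = (y j + x i) - x l := fun l => by rw [hσ]; ring
  obtain ⟨a, a1, a2, h1, h2, h12, hx1, hx2⟩ := T1core hN2 hinj n6 fun u l l' l'' g1 g2 g3 hu hle =>
    T1H h hinj σ hσ' hk1 hk2 hk (by rw [← hr]; ring) r1 r2 n6 u l l' l'' g1 g2 g3 hu hle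
  refine ⟨hinj, ?_, Tr_of_sym h1 h2 h12 hx1 hx2 r1 r2 (Or.inl rfl)⟩
  refine Tr_of_sym (j := σ a) (j1 := σ a2) (j2 := σ a1) h1 h2 h12 hx1 hx2 ?_ ?_ (Or.inl rfl)
  · rw [hσ', hσ', hx2]; ring
  · rw [hσ', hσ', hx1]; ring

lemma saw_two {a b : ZMod N} (ha : a ≠ 0) (hb : b ≠ 0)
    (h : ∀ u : (ZMod N)ˣ, saw ((u : ZMod N) * a) + saw ((u : ZMod N) * b) = 0) : b = -a := by
  have h1 := h 1
  rw [Units.val_one, one_mul, one_mul, add_comm] at h1
  exact eq_neg_of_saw hb ha h1

/-- The case with a pair between the first two triples. -/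
lemma case2 (hN2 : N ≠ 2) {x y z : Fin 3 → ZMod N} (h : Good x y z)
    {i i1 i2 j j1 j2 k k1 k2 : Fin 3}
    (hi1 : i ≠ i1) (hi2 : i ≠ i2) (hi : i1 ≠ i2) (hj1 : j ≠ j1) (hj2 : j ≠ j2) (hj : j1 ≠ j2)
    (hk1 : k ≠ k1) (hk2 : k ≠ k2) (hk : k1 ≠ k2) (hr : x i + y j + z k = 0)
    (e1 : y j1 - y j = -(x i1 - x i)) : Concl x y z := by
  obtain ⟨f1, f2⟩ := res h hi1 hi2 hi hj1 hj2 hj hk1 hk2 hk hr
  have n2 : x i2 - x i ≠ 0 := f1 1
  have n4 : y j2 - y j ≠ 0 := f1 3
  have n5 : z k1 - z k ≠ 0 := f1 4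
  have n6 : z k2 - z k ≠ 0 := f1 5
  have s4 : ∀ u : (ZMod N)ˣ, ∑ a, saw ((u : ZMod N) *
      (![x i2 - x i, y j2 - y j, z k1 - z k, z k2 - z k] : Fin 4 → ZMod N) a) = 0 := by
    intro u
    have h1 := f2 u
    simp only [Fin.sum_univ_succ, Fin.sum_univ_zero, Matrix.cons_val_zero, Matrix.cons_val_succ,
      add_zero] at h1 ⊢
    have h2 := saw_cancel (u : ZMod N) (x i1 - x i)
    rw [e1] at h1
    linarith
  have s4n : ∀ a, (![x i2 - x i, y j2 - y j, z k1 - z k, z k2 - z k] : Fin 4 → ZMod N) a ≠ 0 := by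
    intro a
    fin_cases a
    · exact n2
    · exact n4
    · exact n5
    · exact n6
  obtain ⟨b, hb0, hb⟩ := exists_partner _ s4n s4 hN2 0
  simp only [Fin.sum_univ_succ, Fin.sum_univ_zero, Matrix.cons_val_zero, Matrix.cons_val_succ,
      add_zero] at s4
  fin_cases b
  · exact absurd rfl hb0
  · have hb' : y j2 - y j = -(x i2 - x i) := hb
    have e3 : z k2 - z k = -(z k1 - z k) := saw_two n5 n6 fun u => by
      have h1 := s4 u
      have h2 := saw_cancel (u : ZMod N) (x i2 - x i)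
      rw [hb'] at h1
      linarith
    exact T1 hN2 h hi1 hi2 hi hj1 hj2 hj hk1 hk2 hk hr e1 hb' (by rw [e3]; ring)
  · have hb' : z k1 - z k = -(x i2 - x i) := hb
    have e3 : z k2 - z k = -(y j2 - y j) := saw_two n4 n6 fun u => by
      have h1 := s4 u
      have h2 := saw_cancel (u : ZMod N) (x i2 - x i)
      rw [hb'] at h1
      linarith
    exact T2 hN2 h hi1 hi2 hi hj1 hj2 hj hk1 hk2 hk hr e1 hb' e3
  · have hb' : z k2 - z k = -(x i2 - x i) := hb
    have e3 : z k1 - z k = -(y j2 - y j) := saw_two n4 n5 fun u => by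
      have h1 := s4 u
      have h2 := saw_cancel (u : ZMod N) (x i2 - x i)
      rw [hb'] at h1
      linarith
    exact T2 hN2 h hi1 hi2 hi hj1 hj2 hj hk2 hk1 hk.symm hr e1 hb' e3

lemma exists_others (i : Fin 3) : ∃ i1 i2 : Fin 3, i ≠ i1 ∧ i ≠ i2 ∧ i1 ≠ i2 := by
  revert i; decide

/-- Three triples of residues modulo a prime number which satisfy the inequalities, with a vanishing
sum. -/
theorem six {x y z : Fin 3 → ZMod N} (h : Good x y z) {i j k : Fin 3} (hr : x i + y j + z k = 0) :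
    Concl x y z := by
  obtain ⟨i1, i2, hi1, hi2, hi⟩ := exists_others i
  obtain ⟨j1, j2, hj1, hj2, hj⟩ := exists_others j
  obtain ⟨k1, k2, hk1, hk2, hk⟩ := exists_others k
  obtain ⟨f1, f2⟩ := res h hi1 hi2 hi hj1 hj2 hj hk1 hk2 hk hr
  have n1 : x i1 - x i ≠ 0 := f1 0
  have n2 : x i2 - x i ≠ 0 := f1 1
  have n3 : y j1 - y j ≠ 0 := f1 2
  have n4 : y j2 - y j ≠ 0 := f1 3
  have n5 : z k1 - z k ≠ 0 := f1 4
  have n6 : z k2 - z k ≠ 0 := f1 5
  by_cases hN2 : N = 2
  · exfalso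
    have key : ∀ p q : ZMod 2, p ≠ 0 → q ≠ 0 → q = -p ∧ q - p = 0 := by decide
    subst hN2
    obtain ⟨k1', -⟩ := key _ _ n1 n3
    have k2' := (key _ _ n1 n2).2
    obtain ⟨d1, -⟩ := res h hi1.symm hi hi2 hj1.symm hj hj2 hk1 hk2 hk
      (show x i1 + y j1 + z k = 0 by linear_combination hr + k1')
    have m2 : x i2 - x i1 ≠ 0 := d1 1
    exact m2 (by linear_combination k2')
  obtain ⟨b, hb0, hb⟩ := exists_partner _ f1 f2 hN2 0
  simp only [Fin.sum_univ_succ, Fin.sum_univ_zero, Matrix.cons_val_zero, Matrix.cons_val_succ,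
      add_zero] at f2
  fin_cases b
  · exact absurd rfl hb0
  · -- internal
    have hb' : x i2 - x i = -(x i1 - x i) := hb
    have s4 : ∀ u : (ZMod N)ˣ, ∑ a, saw ((u : ZMod N) *
        (![y j1 - y j, y j2 - y j, z k1 - z k, z k2 - z k] : Fin 4 → ZMod N) a) = 0 := by
      intro u
      have h1 := f2 u
      simp only [Fin.sum_univ_succ, Fin.sum_univ_zero, Matrix.cons_val_zero, Matrix.cons_val_succ,
        add_zero]
      have h2 := saw_cancel (u : ZMod N) (x i1 - x i)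
      rw [hb'] at h1
      linarith
    have s4n : ∀ a, (![y j1 - y j, y j2 - y j, z k1 - z k, z k2 - z k] : Fin 4 → ZMod N) a ≠ 0 := by
      intro a
      fin_cases a
      · exact n3
      · exact n4
      · exact n5
      · exact n6
    obtain ⟨c, hc0, hc⟩ := exists_partner _ s4n s4 hN2 0
    simp only [Fin.sum_univ_succ, Fin.sum_univ_zero, Matrix.cons_val_zero, Matrix.cons_val_succ,
        add_zero] at s4
    fin_cases c
    · exact absurd rfl hc0
    · have hc' : y j2 - y j = -(y j1 - y j) := hc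
      have e3 : z k2 - z k = -(z k1 - z k) := saw_two n5 n6 fun u => by
        have h1 := s4 u
        have h2 := saw_cancel (u : ZMod N) (y j1 - y j)
        rw [hc'] at h1
        linarith
      exact T0 hN2 h hi1 hi2 hi hj1 hj2 hj hk1 hk2 hk hr (p := x i2 - x i) (q := y j2 - y j)
        (r := z k2 - z k) (by linear_combination hb') (by ring) (by linear_combination hc')
        (by ring) (by linear_combination e3) (by ring) n2 n4 n6
    · have hc' : z k1 - z k = -(y j1 - y j) := hc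
      have e3 : z k2 - z k = -(y j2 - y j) := saw_two n4 n6 fun u => by
        have h1 := s4 u
        have h2 := saw_cancel (u : ZMod N) (y j1 - y j)
        rw [hc'] at h1
        linarith
      exact (T1 hN2 h.rot hj1 hj2 hj hk1 hk2 hk hi1 hi2 hi (by rw [← hr]; ring) hc' e3
        (by rw [hb']; ring)).rot.rot
    · have hc' : z k2 - z k = -(y j1 - y j) := hc
      have e3 : z k1 - z k = -(y j2 - y j) := saw_two n4 n5 fun u => by
        have h1 := s4 u
        have h2 := saw_cancel (u : ZMod N) (y j1 - y j)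
        rw [hc'] at h1
        linarith
      exact (T1 hN2 h.rot hj1 hj2 hj hk2 hk1 hk.symm hi1 hi2 hi (by rw [← hr]; ring) hc' e3
        (by rw [hb']; ring)).rot.rot
  · exact case2 hN2 h hi1 hi2 hi hj1 hj2 hj hk1 hk2 hk hr hb
  · exact case2 hN2 h hi1 hi2 hi hj2 hj1 hj.symm hk1 hk2 hk hr hb
  · exact (case2 hN2 h.swap.rot hi1 hi2 hi hk1 hk2 hk hj1 hj2 hj (by rw [← hr]; ring) hb).swap'
  · exact (case2 hN2 h.swap.rot hi1 hi2 hi hk2 hk1 hk.symm hj1 hj2 hj (by rw [← hr]; ring) hb).swap'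

end Pool.Agent.R927
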