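import Pool.Agent.R927.Star

set_option autoImplicit false

/-!
The strict inequalities for irreducible systems, in terms of the residues of the exponents: the main
form.
-/

namespace Pool.Agent.R927

open Finset Pool.Agent.Y227.SS Pool.Agent.W432.PC Pool.Agent.W280.PC Polynomial

universe u

variable {R : Type u} [CommRing R] [IsDomain R] [CharZero R] {n r : ℕ}

/-- Irreducible systems with vanishing `p`-curvatures: the inequality for the exponents `e j (κ j) / N`
and `e' s / N`. -/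
theorem star (α : Fin n → R) (hα : ∀ i j, i ≠ j → IsUnit (α i - α j))
    (A : Fin n → Matrix (Fin r) (Fin r) R) (hr : 1 < r) (hirr : AbsIrreducible α A)
    (N : ℕ) (hN : 1 < N) (e : Fin n → Fin r → ℤ) (e' : Fin r → ℤ)
    (he : ∀ j, HasExponents (A j) (fun l => (e j l : ℚ) / N))
    (he' : HasExponents (∑ j, A j) (fun l => (e' l : ℚ) / N))
    (hno : ¬ BadClass α A N) (a : ℤ) (ha : IsCoprime a (N : ℤ)) (κ : Fin n → Fin r) (s : Fin r) :
    (r : ℤ) * N ≤ ∑ j, ∑ l, ((a * (e j l - e j (κ j))) % N) + ∑ l, ((a * (e' s - e' l)) % N) +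
      r * ((a * (∑ j, e j (κ j) - e' s)) % N) := by
  have hN0 : 0 < N := by omega
  have hN' : (0 : ℤ) < N := by exact_mod_cast hN0
  have hr0 : 0 < r := by omega
  have hr' : (0 : ℤ) < r := by exact_mod_cast hr0
  have htr := trace_rel A N hN e e' he he'
  obtain ⟨σ, τ, m1, m2, hI⟩ := ineq_irr α hα A hr hirr (fun j l => (e j l : ℚ) / N)
    (fun l => (e' l : ℚ) / N) he he' N hN e e' (fun j l => by field_simp)
    (fun l => by field_simp) a ha hno
  -- the integer m
  obtain ⟨m, hm⟩ : ∃ m : ℤ, ∑ j, ∑ l, wI N a (e j l) - ∑ l, wI N a (e' l) = m * N := by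
    have hd : ∀ e : Fin r → ℤ, (N : ℤ) ∣ ∑ l, wI N a (e l) - a * ∑ l, e l := by
      intro e
      rw [Finset.mul_sum, ← Finset.sum_sub_distrib]
      exact Finset.dvd_sum fun l _ => wI_mod a (e l)
    have h1 : (N : ℤ) ∣ ∑ j, (∑ l, wI N a (e j l) - a * ∑ l, e j l) :=
      Finset.dvd_sum fun j _ => hd (e j)
    obtain ⟨u1, h1⟩ := h1
    obtain ⟨u2, h2⟩ := hd e'
    rw [Finset.sum_sub_distrib, ← Finset.mul_sum] at h1
    exact ⟨u1 - u2, by linear_combination h1 - h2 + a * htr⟩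
  have hL := hI m
  -- bounds
  have bnd : ∀ (f : Fin r → ℤ) (ρ : Equiv.Perm (Fin r)) (l l' : Fin r),
      wI N a (f (ρ l)) ≤ wI N a (f (ρ l')) + N := by
    intro f ρ l l'
    have k1 := wI_le hN0 a (f (ρ l))
    have k2 := wI_nonneg hN0 a (f (ρ l'))
    linarith
  -- the staircases
  have hX : ∀ j, ∃ i, ext N hr0 (fun l => wI N a (e j (σ j l))) i = wI N a (e j (κ j)) ∧
      (N : ℤ) * i = r * wI N a (e j (κ j)) + ∑ l, ((a * (e j l - e j (κ j))) % N) -
        ∑ l, wI N a (e j l) := by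
    intro j
    have h0 : ext N hr0 (fun l => wI N a (e j (σ j l))) ((((σ j).symm (κ j) : Fin r) : ℕ) : ℤ) =
        wI N a (e j (κ j)) := by
      have := ext_apply (D := (N : ℤ)) (hr := hr0) (x := fun l => wI N a (e j (σ j l)))
        ((σ j).symm (κ j)) 0
      rw [mul_zero, add_zero, mul_zero, add_zero] at this
      rw [this]
      simp
    obtain ⟨i, h1, h2⟩ := exists_min hN' (m1 j) (fun l l' => bnd (e j) (σ j) l l') h0
    refine ⟨i, h1, ?_⟩
    rw [h2, Equiv.sum_comp (σ j) (fun l => wI N a (e j l)),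
      Equiv.sum_comp (σ j) (fun l => ((wI N a (e j l) - wI N a (e j (κ j))) % (N : ℤ)))]
    congr 2
    refine Finset.sum_congr rfl fun l _ => ?_
    apply Int.ModEq.symm
    rw [Int.modEq_iff_dvd]
    obtain ⟨y1, hy1⟩ := wI_mod (D := N) a (e j l)
    obtain ⟨y2, hy2⟩ := wI_mod (D := N) a (e j (κ j))
    exact ⟨y1 - y2, by linear_combination hy1 - hy2⟩
  choose I hI1 hI2 using hX
  set D0 : ℤ := (a * (∑ j, e j (κ j) - e' s)) % N with hD0
  have hD0' : 0 ≤ D0 := Int.emod_nonneg _ hN'.ne'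
  set v' : ℤ := ∑ j, wI N a (e j (κ j)) - D0 with hv'
  -- v' is a value
  obtain ⟨z, hz⟩ : ∃ z, v' - wI N a (e' s) = N * z := by
    have h1 : (N : ℤ) ∣ ∑ j, (wI N a (e j (κ j)) - a * e j (κ j)) :=
      Finset.dvd_sum fun j _ => wI_mod a _
    obtain ⟨y1, hy1⟩ := h1
    rw [Finset.sum_sub_distrib, ← Finset.mul_sum] at hy1
    obtain ⟨y2, hy2⟩ := wI_mod (D := N) a (e' s)
    have h3 := Int.mul_ediv_add_emod (a * (∑ j, e j (κ j) - e' s)) N
    rw [← hD0] at h3
    exact ⟨y1 - y2 + (a * (∑ j, e j (κ j) - e' s)) / N, by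
      rw [hv']; linear_combination hy1 - hy2 - h3⟩
  have h0 : ext N hr0 (fun l => wI N a (e' (τ l))) (((τ.symm s : Fin r) : ℕ) + r * z) = v' := by
    rw [ext_apply]
    simp only [Equiv.apply_symm_apply]
    linarith
  obtain ⟨k, hkv, -, hk2⟩ := exists_max hN' m2 (fun l l' => bnd e' τ l l') h0
  have hk3 : ∑ l, ((v' - wI N a (e' (τ l))) % (N : ℤ)) = ∑ l, ((a * (e' s - e' l)) % N) := by
    rw [Equiv.sum_comp τ (fun l => ((v' - wI N a (e' l)) % (N : ℤ)))]
    refine Finset.sum_congr rfl fun l _ => ?_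
    apply Int.ModEq.symm
    rw [Int.modEq_iff_dvd]
    obtain ⟨y1, hy1⟩ := wI_mod (D := N) a (e' l)
    obtain ⟨y2, hy2⟩ := wI_mod (D := N) a (e' s)
    exact ⟨z + y2 - y1, by linear_combination hz + hy2 - hy1⟩
  rw [hk3, Equiv.sum_comp τ (fun l => wI N a (e' l))] at hk2
  -- the strict inequality
  have hstrict : ∑ j, wI N a (e j (κ j)) <
      ext N hr0 (fun l => wI N a (e' (τ l))) (∑ j, I j + m) := by
    choose t ht1 ht2 using fun j =>
      ext_eq (D := (N : ℤ)) (hr := hr0) (x := fun l => wI N a (e j (σ j l))) (I j)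
    obtain ⟨t', ht1', ht2'⟩ :=
      ext_eq (D := (N : ℤ)) (hr := hr0) (x := fun l => wI N a (e' (τ l))) (∑ j, I j + m)
    have hdec : ∀ j, I j = r * (I j / r) + (t j : ℕ) := fun j => by
      rw [ht1 j]; exact (Int.mul_ediv_add_emod _ _).symm
    have hdec' : ∑ j, I j + m = r * ((∑ j, I j + m) / r) + (t' : ℕ) := by
      rw [ht1']; exact (Int.mul_ediv_add_emod _ _).symm
    have h1 := hL ((∑ j, I j + m) / r - ∑ j, (I j / r)) t t' hm (by
      have h2 : ∑ j, I j = r * ∑ j, (I j / r) + ∑ j, ((t j : ℕ) : ℤ) := by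
        rw [Finset.mul_sum, ← Finset.sum_add_distrib]
        exact Finset.sum_congr rfl fun j _ => hdec j
      linear_combination hdec' - h2)
    rw [ht2']
    have h3 : ∑ j, wI N a (e j (κ j)) = ∑ j, wI N a (e j (σ j (t j))) + N * ∑ j, (I j / r) := by
      rw [Finset.mul_sum, ← Finset.sum_add_distrib]
      refine Finset.sum_congr rfl fun j _ => ?_
      rw [← hI1 j, ht2 j]
    rw [h3]
    linarith
  have hkm : k + 1 ≤ ∑ j, I j + m := by
    by_contra hcon
    push Not at hcon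
    have h1 : ∑ j, I j + m ≤ k := by linarith
    have hm2 := ext_mono (hr := hr0) hN'.le m2 (fun l l' => bnd e' τ l l')
    linarith [hm2 h1]
  have hfin := mul_le_mul_of_nonneg_left hkm hN'.le
  rw [hk2, mul_add, Finset.mul_sum, Finset.sum_congr rfl (fun j _ => hI2 j),
    Finset.sum_sub_distrib, Finset.sum_add_distrib, ← Finset.mul_sum] at hfin
  rw [hv'] at hfin
  linarith

end Pool.Agent.R927
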