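import Pool.Agent.R927.Six4
import Pool.Agent.R927.Star2

set_option autoImplicit false

/-!
Irreducible systems of rank three with three singular points and exponents of prime denominator.
-/

namespace Pool.Agent.R927

open Finset Pool.Agent.H916R2 Pool.Agent.Y227.SS Pool.Agent.W432.PC

universe u

/-- The exponents `lam 0 l`, `lam 1 l`, `-phi l` of a system of rank three at its three singular
points: at each of the points they are pairwise distinct modulo the integers, and the three triples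
agree modulo the integers, up to the order and up to the addition of constants. -/
def SameExponents (lam : Fin 2 → Fin 3 → ℚ) (phi : Fin 3 → ℚ) : Prop :=
  (∀ l l', l ≠ l' → ¬ ∃ m : ℤ, lam 0 l - lam 0 l' = m) ∧
  (∃ (σ : Equiv.Perm (Fin 3)) (s : ℚ), ∀ l, ∃ m : ℤ, lam 1 (σ l) = lam 0 l + s + m) ∧
  ∃ (τ : Equiv.Perm (Fin 3)) (t : ℚ), ∀ l, ∃ m : ℤ, -phi (τ l) = lam 0 l + t + m

section

variable {R : Type u} [CommRing R] [IsDomain R] [CharZero R]

lemma good_of_star (α : Fin 2 → R) (hα : ∀ i j, i ≠ j → IsUnit (α i - α j))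
    (A : Fin 2 → Matrix (Fin 3) (Fin 3) R) (hirr : AbsIrreducible α A)
    (N : ℕ) (hN : N.Prime) (e : Fin 2 → Fin 3 → ℤ) (e' : Fin 3 → ℤ)
    (he : ∀ j, HasExponents (A j) (fun l => (e j l : ℚ) / N))
    (he' : HasExponents (∑ j, A j) (fun l => (e' l : ℚ) / N))
    (hno : ¬ BadClass α A N) :
    Good (fun l => ((e 0 l : ℤ) : ZMod N)) (fun l => ((e 1 l : ℤ) : ZMod N))
      (fun l => -((e' l : ℤ) : ZMod N)) := by
  have : Fact N.Prime := ⟨hN⟩
  intro u i j k
  have hc : IsCoprime (((u : ZMod N).val : ℕ) : ℤ) (N : ℤ) :=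
    Nat.isCoprime_iff_coprime.2 (ZMod.val_coe_unit_coprime u)
  have h := star α hα A (by norm_num) hirr N hN.one_lt e e' he he' hno _ hc ![i, j] k
  simp only [Fin.sum_univ_two (fun j' : Fin 2 => ∑ l, (((((u : ZMod N).val : ℕ) : ℤ) *
    (e j' l - e j' ((![i, j] : Fin 2 → Fin 3) j'))) % (N : ℤ))),
    Fin.sum_univ_two (fun j' : Fin 2 => e j' ((![i, j] : Fin 2 → Fin 3) j'))] at h
  simp only [Matrix.cons_val_zero, Matrix.cons_val_one] at h
  have conv : ∀ (w : ℤ) (v : ZMod N), ((w : ℤ) : ZMod N) = v →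
      ((((u : ZMod N).val : ℕ) : ℤ) * w) % N = ((u : ZMod N) * v).val := by
    intro w v hv
    rw [← ZMod.val_intCast]
    push_cast
    rw [ZMod.natCast_zmod_val, hv]
  have c1 : ∑ l, (((((u : ZMod N).val : ℕ) : ℤ) * (e 0 l - e 0 i)) % N) =
      ((∑ l, ((u : ZMod N) * (((e 0 l : ℤ) : ZMod N) - ((e 0 i : ℤ) : ZMod N))).val : ℕ) : ℤ) := by
    push_cast
    exact sum_congr rfl fun l _ => conv _ _ (by push_cast; ring)
  have c2 : ∑ l, (((((u : ZMod N).val : ℕ) : ℤ) * (e 1 l - e 1 j)) % N) =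
      ((∑ l, ((u : ZMod N) * (((e 1 l : ℤ) : ZMod N) - ((e 1 j : ℤ) : ZMod N))).val : ℕ) : ℤ) := by
    push_cast
    exact sum_congr rfl fun l _ => conv _ _ (by push_cast; ring)
  have c3 : ∑ l, (((((u : ZMod N).val : ℕ) : ℤ) * (e' k - e' l)) % N) =
      ((∑ l, ((u : ZMod N) * (-((e' l : ℤ) : ZMod N) - -((e' k : ℤ) : ZMod N))).val : ℕ) : ℤ) := by
    push_cast
    exact sum_congr rfl fun l _ => conv _ _ (by push_cast; ring)
  have c4 : ((((u : ZMod N).val : ℕ) : ℤ) * (e 0 i + e 1 j - e' k)) % N =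
      (((u : ZMod N) * (((e 0 i : ℤ) : ZMod N) + ((e 1 j : ℤ) : ZMod N) +
        -((e' k : ℤ) : ZMod N))).val : ℤ) := conv _ _ (by push_cast; ring)
  rw [c1, c2, c3, c4] at h
  beta_reduce
  exact_mod_cast h

theorem six_final [Algebra.FiniteType ℤ R] (α : Fin 2 → R)
    (hα : ∀ i j, i ≠ j → IsUnit (α i - α j))
    (A : Fin 2 → Matrix (Fin 3) (Fin 3) R) (lam : Fin 2 → Fin 3 → ℚ) (phi : Fin 3 → ℚ)
    (hlam : ∀ j, HasExponents (A j) (lam j)) (hphi : HasExponents (∑ j, A j) phi)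
    (N : ℕ) (hN : N.Prime) (hNlam : ∀ j l, ∃ m : ℤ, (N : ℚ) * lam j l = m)
    (hNphi : ∀ l, ∃ m : ℤ, (N : ℚ) * phi l = m) (hirr : AbsIrreducible α A)
    (hsame : ¬ SameExponents lam phi) : BadClass α A N := by
  have hNq : (N : ℚ) ≠ 0 := by exact_mod_cast hN.ne_zero
  choose e he using hNlam
  choose e' he' using hNphi
  obtain rfl : lam = fun j l => (e j l : ℚ) / N := by
    funext j l
    rw [← he j l]; field_simp
  obtain rfl : phi = fun l => (e' l : ℚ) / N := by
    funext l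
    rw [← he' l]; field_simp
  by_cases hres : ∃ (κ : Fin 2 → Fin 3) (s : Fin 3), (N : ℤ) ∣ ∑ j, e j (κ j) - e' s
  · by_contra hcon
    apply hsame
    obtain ⟨κ, s, hc⟩ := hres
    have : Fact N.Prime := ⟨hN⟩
    have hg := good_of_star α hα A hirr N hN e e' hlam hphi hcon
    have hr : ((e 0 (κ 0) : ℤ) : ZMod N) + ((e 1 (κ 1) : ℤ) : ZMod N) + -((e' s : ℤ) : ZMod N) = 0 := by
      rw [← ZMod.intCast_zmod_eq_zero_iff_dvd, Fin.sum_univ_two] at hc
      push_cast at hc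
      linear_combination hc
    obtain ⟨h1, h2, h3⟩ := six hg hr
    -- lifting congruences
    have lift : ∀ (p q : ℤ), ((p : ℤ) : ZMod N) = ((q : ℤ) : ZMod N) →
        ∃ m : ℤ, (p : ℚ) / N = (q : ℚ) / N + m := by
      intro p q hpq
      rw [ZMod.intCast_eq_intCast_iff_dvd_sub] at hpq
      obtain ⟨m, hm⟩ := hpq
      refine ⟨-m, ?_⟩
      have : (q : ℚ) - p = N * m := by exact_mod_cast hm
      field_simp
      push_cast
      linear_combination -this
    refine ⟨fun l l' hll hm => hll (h1 ?_), ?_, ?_⟩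
    · obtain ⟨m, hm⟩ := hm
      have h4 : ((e 0 l - e 0 l' : ℤ) : ℚ) = ((N * m : ℤ) : ℚ) := by
        push_cast
        field_simp at hm
        linear_combination hm
      have h5 : e 0 l - e 0 l' = N * m := by exact_mod_cast h4
      have h6 := congrArg (fun w : ℤ => (w : ZMod N)) h5
      push_cast at h6
      simp only [CharP.cast_eq_zero, zero_mul] at h6
      exact sub_eq_zero.1 h6
    · obtain ⟨σ, s, hs⟩ := h2.perm h1
      refine ⟨σ, ((s.val : ℕ) : ℚ) / N, fun l => ?_⟩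
      obtain ⟨m, hm⟩ := lift (e 1 (σ l)) (e 0 l + (s.val : ℕ)) (by
        push_cast; rw [ZMod.natCast_zmod_val]; exact hs l)
      refine ⟨m, ?_⟩
      beta_reduce
      rw [hm]; push_cast; ring
    · obtain ⟨σ, s, hs⟩ := h3.perm h1
      refine ⟨σ, ((s.val : ℕ) : ℚ) / N, fun l => ?_⟩
      obtain ⟨m, hm⟩ := lift (-e' (σ l)) (e 0 l + (s.val : ℕ)) (by
        push_cast; rw [ZMod.natCast_zmod_val]; exact hs l)
      refine ⟨m, ?_⟩
      have h4 : -((e' (σ l) : ℚ) / N) = ((-e' (σ l) : ℤ) : ℚ) / N := by push_cast; ring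
      beta_reduce
      rw [h4, hm]; push_cast; ring
  · push Not at hres
    obtain ⟨a, ha, P₀, hP⟩ := Pool.Agent.W280.PC.affine (by norm_num) α hα A N hN.one_lt e e' hlam
      hphi (fun j l l' => coprime_or_dvd hN _) (fun l l' => coprime_or_dvd hN _)
      (fun κ s => (coprime_or_dvd hN _).resolve_right (hres κ s))
    exact ⟨a, 1, ha, one_ne_zero, P₀, fun p hp hpP hap 𝔪 _ hpm _ => hP p hp hpP hap 𝔪 hpm⟩

end

end Pool.Agent.R927
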