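import Pool.Agent.W280.PC.Affine
import Pool.Agent.Y227.SS.StableFinal
import Pool.Agent.R927.FourFinal

set_option autoImplicit false

/-!
The strict inequalities for irreducible systems, in terms of the residues of the exponents.
-/

namespace Pool.Agent.R927

open Finset Pool.Agent.Y227.SS Pool.Agent.W432.PC Pool.Agent.W280.PC Polynomial

universe u

section irr

variable {R : Type u} [CommRing R] [IsDomain R] {n r : ℕ}

/-- Irreducible systems of rank at least two have no monomial solutions. -/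
lemma not_monomial {α : Fin n → R} {A : Fin n → Matrix (Fin r) (Fin r) R}
    (hirr : AbsIrreducible α A) (hr : 1 < r) (ν : Fin n → ℚ) : ¬ HasMonomialSolution α A ν := by
  rintro ⟨Z, hZ, h⟩
  refine hirr (FractionRing R) (algebraMap R (FractionRing R))
    (IsFractionRing.injective R (FractionRing R)) 1 one_pos hr ?_
  obtain ⟨l, hl⟩ : ∃ l, Z l ≠ 0 := by
    by_contra hcon
    push Not at hcon
    exact hZ (funext hcon)
  refine ⟨Matrix.of fun _ l => Z l, ⟨fun _ => l, ?_⟩, 1,
    Matrix.of fun _ _ => -(∑ j, C ((ν j : ℚ) : FractionRing R) *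
        Tc (fun j => algebraMap R (FractionRing R) (α j)) j), one_ne_zero, ?_⟩
  · simpa [mnr] using hl
  · rw [one_smul]
    ext1 i l
    have h1 := h l
    have h2 : (Matrix.of (fun (_ : Fin 1) (l : Fin r) => Z l) : Matrix (Fin 1) (Fin r) _) i = Z := rfl
    simp only [opRows, Matrix.of_apply, Matrix.mul_apply, Fin.sum_univ_one]
    rw [h2]
    linear_combination h1

end irr

section ineq

variable {R : Type u} [CommRing R] [IsDomain R] [CharZero R] {n r : ℕ}

/-- The strict inequalities for irreducible systems. -/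
theorem ineq_irr (α : Fin n → R) (hα : ∀ i j, i ≠ j → IsUnit (α i - α j))
    (A : Fin n → Matrix (Fin r) (Fin r) R) (hr : 1 < r) (hirr : AbsIrreducible α A)
    (lam : Fin n → Fin r → ℚ) (phi : Fin r → ℚ)
    (hlam : ∀ j, HasExponents (A j) (lam j)) (hphi : HasExponents (∑ j, A j) phi)
    (N : ℕ) (hN : 1 < N) (e : Fin n → Fin r → ℤ) (e' : Fin r → ℤ)
    (he : ∀ j l, (N : ℚ) * lam j l = e j l) (he' : ∀ l, (N : ℚ) * phi l = e' l)
    (a : ℤ) (ha : IsCoprime a (N : ℤ)) (hno : ¬ BadClass α A N) :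
    ∃ (σ : Fin n → Equiv.Perm (Fin r)) (τ : Equiv.Perm (Fin r)),
      (∀ j, Monotone fun l => wI N a (e j (σ j l))) ∧ (Monotone fun l => wI N a (e' (τ l))) ∧
      ∀ (m q : ℤ) (κ : Fin n → Fin r) (s : Fin r),
        ∑ j, ∑ l, wI N a (e j l) - ∑ l, wI N a (e' l) = m * N →
        m + ∑ j, ((κ j : ℕ) : ℤ) = r * q + (s : ℕ) →
        ∑ j, wI N a (e j (σ j (κ j))) < q * N + wI N a (e' (τ s)) := by
  have hN0 : 0 < N := by omega
  have hNq : (0 : ℚ) < N := by exact_mod_cast hN0
  choose σ hσ using fun j => exists_sorted a (lam j)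
  obtain ⟨τ, hτ⟩ := exists_sorted a phi
  have hmono : ∀ {x y : ℚ} {u v : ℤ}, (N : ℚ) * x = u → (N : ℚ) * y = v → lexLE a x y →
      wI N a u ≤ wI N a v := by
    intro x y u v hx hy hxy
    have h1 : wt a x ≤ wt a y := by
      rcases hxy with h | h
      · exact h.le
      · exact h.1.le
    have h2 := mul_le_mul_of_nonneg_left h1 hNq.le
    rw [wt_wI hN0 hx, wt_wI hN0 hy] at h2
    exact_mod_cast h2
  refine ⟨σ, τ, fun j l l' h => hmono (he j _) (he j _) (hσ j l l' h),
    fun l l' h => hmono (he' _) (he' _) (hτ l l' h), ?_⟩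
  intro m q κ s hm hq
  by_contra hcon
  push Not at hcon
  apply hno
  have hw : ∀ j l, wt a (lam j l) = (wI N a (e j l) : ℚ) / N := fun j l => by
    rw [← wt_wI hN0 (he j l)]; field_simp
  have hw' : ∀ l, wt a (phi l) = (wI N a (e' l) : ℚ) / N := fun l => by
    rw [← wt_wI hN0 (he' l)]; field_simp
  have hq' : ∑ j, ∑ l, wt a (lam j (σ j l)) - ∑ l, wt a (phi (τ l)) + ∑ j, ((κ j : ℕ) : ℚ) =
      q * r + (s : ℕ) := by
    have h1 : ∀ j, ∑ l, wt a (lam j (σ j l)) = ∑ l, wt a (lam j l) := fun j =>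
      Equiv.sum_comp (σ j) (fun l => wt a (lam j l))
    have h2 : ∑ l, wt a (phi (τ l)) = ∑ l, wt a (phi l) :=
      Equiv.sum_comp τ (fun l => wt a (phi l))
    rw [Finset.sum_congr rfl (fun j _ => h1 j), h2]
    simp only [hw, hw']
    have h3 := congrArg (fun x : ℤ => (x : ℚ)) hm
    have h4 := congrArg (fun x : ℤ => (x : ℚ)) hq
    push_cast at h3 h4
    simp only [← Finset.sum_div]
    rw [← sub_div, h3]
    have h5 : (m : ℚ) * N / N = m := by field_simp
    rw [h5]
    linarith
  have hle' : q + wt a (phi (τ s)) ≤ ∑ j, wt a (lam j (σ j (κ j))) := by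
    simp only [hw, hw']
    rw [← Finset.sum_div, le_div_iff₀ hNq]
    have h3 : ((q * N + wI N a (e' (τ s)) : ℤ) : ℚ) ≤ ((∑ j, wI N a (e j (σ j (κ j))) : ℤ) : ℚ) := by
      exact_mod_cast hcon
    push_cast at h3
    calc ((q : ℚ) + (wI N a (e' (τ s)) : ℚ) / N) * N = q * N + wI N a (e' (τ s)) := by field_simp
      _ ≤ _ := h3
  obtain ⟨g, hg, -, P₀, hP⟩ := main α hα A A (Or.inl rfl) (fun j l => lam j (σ j l))
    (fun l => phi (τ l)) (fun j => hasExponents_perm (hlam j) (σ j))
    (hasExponents_perm hphi τ) N hN0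
    (fun j l => ⟨_, he j _⟩) (fun l => ⟨_, he' _⟩) a hσ hτ κ s q hq' hle'
    (fun _ => not_monomial hirr hr _)
  exact ⟨a, g, ha, hg, P₀, hP⟩

end ineq

section ext

variable {r : ℕ}

/-- The periodic extension of a tuple. -/
def ext (D : ℤ) (hr : 0 < r) (x : Fin r → ℤ) (i : ℤ) : ℤ :=
  x ⟨(i % r).toNat, by
    have h1 : (0 : ℤ) < r := by exact_mod_cast hr
    have h2 := Int.emod_nonneg i h1.ne'
    have h3 := Int.emod_lt_of_pos i h1
    omega⟩ + D * (i / r)

variable {D : ℤ} {hr : 0 < r} {x : Fin r → ℤ}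

lemma ext_eq (i : ℤ) : ∃ t : Fin r, ((t : ℕ) : ℤ) = i % r ∧ ext D hr x i = x t + D * (i / r) := by
  have h1 : (0 : ℤ) < r := by exact_mod_cast hr
  have h2 := Int.emod_nonneg i h1.ne'
  exact ⟨⟨(i % r).toNat, _⟩, by simp [h2], rfl⟩

lemma ext_apply (t : Fin r) (q : ℤ) : ext D hr x ((t : ℕ) + r * q) = x t + D * q := by
  have h1 : (0 : ℤ) < r := by exact_mod_cast hr
  obtain ⟨t', h2, h3⟩ := ext_eq (D := D) (hr := hr) (x := x) ((t : ℕ) + r * q)
  have h4 : (((t : ℕ) : ℤ) + r * q) % r = (t : ℕ) := by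
    rw [Int.add_mul_emod_self_left]
    exact Int.emod_eq_of_lt (by positivity) (by exact_mod_cast t.2)
  have h5 : (((t : ℕ) : ℤ) + r * q) / r = q := by
    rw [Int.add_mul_ediv_left _ _ h1.ne', Int.ediv_eq_zero_of_lt (by positivity)
      (by exact_mod_cast t.2), zero_add]
  rw [h4] at h2
  have h6 : t' = t := Fin.ext (by exact_mod_cast h2)
  rw [h3, h5, h6]

lemma ext_add (i q : ℤ) : ext D hr x (i + r * q) = ext D hr x i + D * q := by
  have h1 : (0 : ℤ) < r := by exact_mod_cast hr
  obtain ⟨t, h2, h3⟩ := ext_eq (D := D) (hr := hr) (x := x) i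
  have h4 : i + r * q = (t : ℕ) + r * (i / r + q) := by
    have := Int.mul_ediv_add_emod i r
    rw [h2]
    linear_combination -this
  rw [h4, ext_apply, h3]
  ring

lemma ext_mono (hD : 0 ≤ D) (hx : Monotone x) (hb : ∀ l l', x l ≤ x l' + D) :
    Monotone (ext D hr x) := by
  have h1 : (0 : ℤ) < r := by exact_mod_cast hr
  intro i j hij
  obtain ⟨t, h2, h3⟩ := ext_eq (D := D) (hr := hr) (x := x) i
  obtain ⟨t', h2', h3'⟩ := ext_eq (D := D) (hr := hr) (x := x) j
  rw [h3, h3']
  have hq : i / r ≤ j / r := Int.ediv_le_ediv h1 hij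
  rcases hq.eq_or_lt with h | h
  · rw [h]
    have h4 : t ≤ t' := by
      rw [Fin.le_def]
      have e1 := Int.mul_ediv_add_emod i r
      have e2 := Int.mul_ediv_add_emod j r
      rw [← h2] at e1
      rw [← h2'] at e2
      rw [h] at e1
      have : ((t : ℕ) : ℤ) ≤ (t' : ℕ) := by linarith
      exact_mod_cast this
    linarith [hx h4]
  · have h5 : i / r + 1 ≤ j / r := h
    nlinarith [hb t t', mul_le_mul_of_nonneg_left h5 hD]

lemma window_gen {f : ℤ → ℤ} {d : ℤ} (hf : ∀ i, f (i + r) = f i + d) (i : ℤ) :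
    ∑ t ∈ range r, f (i + t) = ∑ t ∈ range r, f t + d * i := by
  have hstep : ∀ i : ℤ, ∑ t ∈ range r, f (i + 1 + t) = ∑ t ∈ range r, f (i + t) + d := by
    intro i
    have h1 := sum_range_succ' (fun t : ℕ => f (i + t)) r
    have h2 := sum_range_succ (fun t : ℕ => f (i + t)) r
    rw [h1] at h2
    have h3 := hf i
    have h4 : ∑ t ∈ range r, f (i + 1 + t) = ∑ t ∈ range r, f (i + ((t + 1 : ℕ) : ℤ)) := by
      refine sum_congr rfl fun t _ => ?_
      congr 1; push_cast; ring
    rw [h4]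
    simp only [Nat.cast_zero, add_zero] at h2
    linarith
  induction i using Int.induction_on with
  | zero => simp
  | succ i ih => rw [hstep, ih]; ring
  | pred i ih =>
    have := hstep (-(i : ℤ) - 1)
    rw [show -(i : ℤ) - 1 + 1 = -(i : ℤ) by ring, ih] at this
    linarith

lemma window_sum (i : ℤ) : ∑ t ∈ range r, ext D hr x (i + t) = ∑ l, x l + D * i := by
  have h1 : ∀ i, ext D hr x (i + r) = ext D hr x i + D := by
    intro i
    have := ext_add (D := D) (hr := hr) (x := x) i 1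
    rwa [mul_one, mul_one] at this
  rw [window_gen h1 i, ← Fin.sum_univ_eq_sum_range (fun t : ℕ => ext D hr x t) r]
  congr 1
  refine sum_congr rfl fun l _ => ?_
  have := ext_apply (D := D) (hr := hr) (x := x) l 0
  rwa [mul_zero, add_zero, mul_zero, add_zero] at this

lemma window_per {g : ℤ → ℤ} (hg : ∀ v w, D ∣ v - w → g v = g w) (i : ℤ) :
    ∑ t ∈ range r, g (ext D hr x (i + t)) = ∑ l, g (x l) := by
  have h1 : ∀ i, g (ext D hr x (i + r)) = g (ext D hr x i) + 0 := by
    intro i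
    have := ext_add (D := D) (hr := hr) (x := x) i 1
    rw [mul_one, mul_one] at this
    rw [this, add_zero]
    apply hg
    exact ⟨1, by ring⟩
  rw [window_gen (f := fun i => g (ext D hr x i)) h1 i, zero_mul, add_zero,
    ← Fin.sum_univ_eq_sum_range (fun t : ℕ => g (ext D hr x t)) r]
  refine sum_congr rfl fun l _ => ?_
  have := ext_apply (D := D) (hr := hr) (x := x) l 0
  rw [mul_zero, add_zero, mul_zero, add_zero] at this
  rw [this]

lemma ext_small (hx : ∀ l, 0 ≤ x l) (hxD : ∀ l, x l ≤ D) (i : ℤ) :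
    D * (i / r) ≤ ext D hr x i ∧ ext D hr x i ≤ D * (i / r) + D := by
  obtain ⟨t, -, h3⟩ := ext_eq (D := D) (hr := hr) (x := x) i
  rw [h3]
  constructor <;> linarith [hx t, hxD t]

/-- The minimal position of a value. -/
lemma exists_min (hD : 0 < D) (hx : Monotone x) (hb : ∀ l l', x l ≤ x l' + D) {v i0 : ℤ}
    (h0 : ext D hr x i0 = v) :
    ∃ i, ext D hr x i = v ∧ D * i = r * v + ∑ l, ((x l - v) % D) - ∑ l, x l := by
  have hm := ext_mono (hr := hr) hD.le hx hb
  have hr' : (0 : ℤ) < r := by exact_mod_cast hr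
  have hper : ∀ i, ext D hr x (i + r) = ext D hr x i + D := by
    intro i
    have := ext_add (D := D) (hr := hr) (x := x) i 1
    rwa [mul_one, mul_one] at this
  obtain ⟨i, hi1, hi2⟩ : ∃ i, v ≤ ext D hr x i ∧ ∀ z, v ≤ ext D hr x z → i ≤ z := by
    refine Int.exists_least_of_bdd (P := fun i => v ≤ ext D hr x i) ⟨i0 - r, ?_⟩ ⟨i0, h0.ge⟩
    intro z hz
    by_contra hlt
    push Not at hlt
    have h1 := hm hlt.le
    have h2 := hper (i0 - r)
    rw [sub_add_cancel, h0] at h2
    linarith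
  have hiv : ext D hr x i = v := le_antisymm ((hm (hi2 i0 h0.ge)).trans h0.le) hi1
  have hlt : ext D hr x (i - 1) < v := by
    by_contra h
    push Not at h
    have := hi2 _ h
    linarith
  refine ⟨i, hiv, ?_⟩
  have h1 := window_sum (D := D) (hr := hr) (x := x) i
  have h2 := window_per (D := D) (hr := hr) (x := x) (g := fun w => (w - v) % D) (by
    intro w w' h
    exact Int.ModEq.sub_right _ (Int.modEq_iff_dvd.2 (by rw [← neg_sub]; exact (dvd_neg).2 h))) i
  have h3 : ∀ t ∈ range r, ext D hr x (i + t) = v + (ext D hr x (i + t) - v) % D := by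
    intro t ht
    have h4 : v ≤ ext D hr x (i + t) := by
      rw [← hiv]; exact hm (by linarith [Int.natCast_nonneg t])
    have h5 : ext D hr x (i + t) < v + D := by
      have h6 : (t : ℤ) < r := by exact_mod_cast mem_range.1 ht
      have h7 := hm (show i + (t : ℤ) ≤ i - 1 + r by linarith)
      rw [hper] at h7
      linarith
    rw [Int.emod_eq_of_lt (by linarith) (by linarith)]
    ring
  rw [sum_congr rfl h3, sum_add_distrib, h2, sum_const, card_range, nsmul_eq_mul] at h1
  linarith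

/-- The maximal position of a value. -/
lemma exists_max (hD : 0 < D) (hx : Monotone x) (hb : ∀ l l', x l ≤ x l' + D) {v i0 : ℤ}
    (h0 : ext D hr x i0 = v) :
    ∃ i, ext D hr x i = v ∧ (∀ z, ext D hr x z ≤ v → z ≤ i) ∧
      D * (i + 1) = r * v - ∑ l, ((v - x l) % D) - ∑ l, x l + D * r := by
  have hm := ext_mono (hr := hr) hD.le hx hb
  have hr' : (0 : ℤ) < r := by exact_mod_cast hr
  have hper : ∀ i, ext D hr x (i + r) = ext D hr x i + D := by
    intro i
    have := ext_add (D := D) (hr := hr) (x := x) i 1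
    rwa [mul_one, mul_one] at this
  obtain ⟨i, hi1, hi2⟩ : ∃ i, ext D hr x i ≤ v ∧ ∀ z, ext D hr x z ≤ v → z ≤ i := by
    refine Int.exists_greatest_of_bdd (P := fun i => ext D hr x i ≤ v) ⟨i0 + r, ?_⟩ ⟨i0, h0.le⟩
    intro z hz
    by_contra hlt
    push Not at hlt
    have h1 := hm hlt.le
    have h2 := hper i0
    rw [h0] at h2
    linarith
  have hiv : ext D hr x i = v := le_antisymm hi1 (h0.ge.trans (hm (hi2 i0 h0.le)))
  have hlt : v < ext D hr x (i + 1) := by
    by_contra h
    push Not at h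
    have := hi2 _ h
    linarith
  refine ⟨i, hiv, hi2, ?_⟩
  have h1 := window_sum (D := D) (hr := hr) (x := x) (i + 1 - r)
  have h2 := window_per (D := D) (hr := hr) (x := x) (g := fun w => (v - w) % D) (by
    intro w w' h
    exact Int.ModEq.sub_left _ (Int.modEq_iff_dvd.2 (by rw [← neg_sub]; exact (dvd_neg).2 h)))
    (i + 1 - r)
  have h3 : ∀ t ∈ range r, ext D hr x (i + 1 - r + t) =
      v - (v - ext D hr x (i + 1 - r + t)) % D := by
    intro t ht
    have h6 : (t : ℤ) < r := by exact_mod_cast mem_range.1 ht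
    have h4 : ext D hr x (i + 1 - r + t) ≤ v := by
      rw [← hiv]; exact hm (by linarith)
    have h5 : v - D < ext D hr x (i + 1 - r + t) := by
      have h7 := hm (show i + 1 - r ≤ i + 1 - r + (t : ℤ) by linarith [Int.natCast_nonneg t])
      have h8 := hper (i + 1 - r)
      rw [sub_add_cancel] at h8
      linarith
    rw [Int.emod_eq_of_lt (by linarith) (by linarith)]
    ring
  rw [sum_congr rfl h3, sum_sub_distrib, h2, sum_const, card_range, nsmul_eq_mul] at h1
  linarith

end ext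

end Pool.Agent.R927
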