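import Pool.Agent.TH295.FO.Esbt

set_option autoImplicit false

/-!
Vanishing of the `p`-curvature at a closed point is invariant under twists by rational multiples of
rank one systems (the pointwise form of `condII_twist`).
-/

namespace Pool.Agent.R927

open Finset Pool.Agent.W432.PC Polynomial Pool.Agent.W432.TC Pool.Agent.TH571.GP
  Pool.Agent.TH295.FO

variable {R S : Type*} [CommRing R] [CommRing S] [IsDomain S] [CharZero S]
  [Algebra.FiniteType ℤ S] {n r : ℕ}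

theorem pCurvZeroAt_twist (φ : R →+* S) {α : Fin n → R}
    {A : Fin n → Matrix (Fin r) (Fin r) R} (c : Fin n → S) {b : ℕ}
    (a : Fin n → ℤ) (hc : ∀ j, (b : S) * c j = a j) (𝔪 : Ideal R) [h𝔪 : 𝔪.IsMaximal]
    (𝔪' : Ideal S) [h𝔪' : 𝔪'.IsMaximal] (hcm : 𝔪 = 𝔪'.comap φ) (hb1 : (b : S) ∉ 𝔪')
    (h1 : PCurvZeroAt α A 𝔪) :
    PCurvZeroAt (fun j => φ (α j)) (twist (fun j => (A j).map φ) c) 𝔪' := by
  subst hcm
  obtain ⟨p, hp, hpm⟩ := exists_residue_char 𝔪'
  have hpm0 : (p : R) ∈ 𝔪'.comap φ := by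
    rw [Ideal.mem_comap, map_natCast]
    exact hpm
  have hfact : Fact p.Prime := ⟨hp⟩
  have hch : CharP (S ⧸ 𝔪') p := charP_quot 𝔪' hp hpm
  have hch0 : CharP (R ⧸ 𝔪'.comap φ) p := charP_quot' (𝔪'.comap φ) hp hpm0
  let ifld : Field (S ⧸ 𝔪') := Ideal.Quotient.field 𝔪'
  have hQ0 : ∀ l s i, (Pool.Agent.W432.PC.Q α A p l s).coeff i ∈ 𝔪'.comap φ := by
    let ifld0 : Field (R ⧸ 𝔪'.comap φ) := Ideal.Quotient.field (𝔪'.comap φ)
    intro l s i
    have h2 := Q_eq_zero_of_pCurvZero (α := fun j => Ideal.Quotient.mk (𝔪'.comap φ) (α j))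
      (A := fun j => (A j).map (Ideal.Quotient.mk (𝔪'.comap φ))) h1
    rw [ringChar.eq (R ⧸ 𝔪'.comap φ) p, ← Q_map] at h2
    have h3 := congrArg (fun f : (R ⧸ 𝔪'.comap φ)[X] => f.coeff i) (congrFun (congrFun h2 l) s)
    simp only [Matrix.map_apply, coe_mapRingHom, coeff_map, Matrix.zero_apply, coeff_zero] at h3
    exact Ideal.Quotient.eq_zero_iff_mem.1 h3
  have hQ1 : Pool.Agent.W432.PC.Q (fun j => (Ideal.Quotient.mk 𝔪').comp φ (α j))
      (fun j => (A j).map ((Ideal.Quotient.mk 𝔪').comp φ)) p = 0 := by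
    rw [← Q_map]
    ext1 l s
    ext1 i
    simp only [Matrix.map_apply, coe_mapRingHom, coeff_map, Matrix.zero_apply, coeff_zero,
      RingHom.comp_apply]
    exact Ideal.Quotient.eq_zero_iff_mem.2 (hQ0 l s i)
  have hz1 := pCurvZero_of_Q _ _ hp hQ1
  have hbp : (b : ZMod p) ≠ 0 := by
    rw [Ne, CharP.cast_eq_zero_iff (ZMod p) p]
    intro hdvd
    obtain ⟨d, hd⟩ := hdvd
    apply hb1
    rw [hd, Nat.cast_mul]
    exact Ideal.mul_mem_right _ _ hpm
  have hbK : (b : S ⧸ 𝔪') ≠ 0 := by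
    have h2 := (map_ne_zero (ZMod.castHom (dvd_refl p) (S ⧸ 𝔪'))).2 hbp
    rwa [map_natCast] at h2
  have hc' : ∀ j, ((((a j : ℤ) : ZMod p) * (b : ZMod p)⁻¹).val : S ⧸ 𝔪') =
      Ideal.Quotient.mk 𝔪' (c j) := by
    intro j
    apply mul_left_cancel₀ hbK
    have h1 : (b : ZMod p) * (((((a j : ℤ) : ZMod p) * (b : ZMod p)⁻¹).val : ℕ) : ZMod p) =
        ((a j : ℤ) : ZMod p) := by
      rw [ZMod.natCast_zmod_val]
      field_simp
    have h2 := congrArg (ZMod.castHom (dvd_refl p) (S ⧸ 𝔪')) h1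
    rw [map_mul, map_natCast, map_natCast, map_intCast] at h2
    rw [h2]
    have h3 := congrArg (Ideal.Quotient.mk 𝔪') (hc j)
    rw [map_mul, map_natCast, map_intCast] at h3
    exact h3.symm
  have h4 := pCurvZero_twist _ _ (fun j => (((a j : ℤ) : ZMod p) * (b : ZMod p)⁻¹).val) hz1
  unfold PCurvZeroAt
  have h5 : (fun j => (twist (fun j => (A j).map φ) c j).map (Ideal.Quotient.mk 𝔪')) =
      twist (fun j => (A j).map ((Ideal.Quotient.mk 𝔪').comp φ))
        (fun j => ((((a j : ℤ) : ZMod p) * (b : ZMod p)⁻¹).val : S ⧸ 𝔪')) := by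
    ext1 j
    ext1 l s
    simp only [twist, Matrix.map_apply, Matrix.add_apply, Matrix.smul_apply, smul_eq_mul,
      map_add, map_mul, RingHom.comp_apply, hc' j]
    congr 2
    rw [Matrix.one_apply, Matrix.one_apply]
    split_ifs <;> simp
  rw [h5]
  exact h4

end Pool.Agent.R927
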