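import Pool.Agent.R927.TwistTr

set_option autoImplicit false

/-!
Systems of rank two with four and of rank three with three singular points, up to rational twists, and
their projectivizations.
-/

namespace Pool.Agent.R927

open Finset Pool.Agent.W432.PC Pool.Agent.TH295.FO Pool.Agent.Y227.SS Pool.Agent.Y227.RT

universe u

lemma theta_twist {n : ℕ} (lam : Fin n → Fin 2 → ℚ) (phi : Fin 2 → ℚ) (t : Fin n → ℚ) (s : ℚ) :
    theta (fun j l => lam j l - t j) (fun l => phi l - s) = theta lam phi := by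
  funext o
  cases o with
  | none => simp [theta]
  | some j => simp [theta]

theorem four_twist {R : Type u} [CommRing R] [IsDomain R] [CharZero R] [Algebra.FiniteType ℤ R]
    (α : Fin 3 → R) (hα : ∀ i j, i ≠ j → IsUnit (α i - α j))
    (A : Fin 3 → Matrix (Fin 2) (Fin 2) R) (lam : Fin 3 → Fin 2 → ℚ) (phi : Fin 2 → ℚ)
    (hlam : ∀ j, HasExponents (A j) (lam j)) (hphi : HasExponents (∑ j, A j) phi)
    (N : ℕ) (hN : N.Prime) (t : Fin 3 → ℚ) (hNlam : ∀ j l, ∃ m : ℤ, (N : ℚ) * (lam j l - t j) = m)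
    (hNphi : ∀ l, ∃ m : ℤ, (N : ℚ) * (phi l - ∑ j, t j) = m) (hirr : AbsIrreducible α A)
    (hsplit : ¬ Splits (theta lam phi)) :
    ∃ (a : ℤ) (g : R), IsCoprime a (N : ℤ) ∧ g ≠ 0 ∧ ∃ P₀ : ℕ, ∀ p : ℕ, p.Prime → P₀ < p →
      (N : ℤ) ∣ a * p + 1 → ∀ (𝔪 : Ideal R) [𝔪.IsMaximal], (p : R) ∈ 𝔪 → g ∉ 𝔪 →
        ¬ PCurvZeroAt α A 𝔪 := by
  refine twist_transfer α hα A lam phi hlam hphi hirr t N (fun a => IsCoprime a (N : ℤ)) ?_
  intro S _ _ _ _ α' A' hα' hlam' hphi' hirr'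
  exact four_final α' hα' A' (fun j l => lam j l - t j) (fun l => phi l - ∑ j, t j) hlam' hphi' N hN
    hNlam hNphi hirr' (by rwa [theta_twist])

lemma sameExponents_twist {lam : Fin 2 → Fin 3 → ℚ} {phi : Fin 3 → ℚ} {t : Fin 2 → ℚ} {s : ℚ}
    (h : SameExponents (fun j l => lam j l - t j) (fun l => phi l - s)) :
    SameExponents lam phi := by
  obtain ⟨h1, ⟨σ, s1, h2⟩, ⟨τ, s2, h3⟩⟩ := h
  refine ⟨fun l l' hl => ?_, ⟨σ, s1 + t 1 - t 0, fun l => ?_⟩, ⟨τ, s2 - s - t 0, fun l => ?_⟩⟩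
  · have := h1 l l' hl
    rwa [show lam 0 l - t 0 - (lam 0 l' - t 0) = lam 0 l - lam 0 l' by ring] at this
  · obtain ⟨m, hm⟩ := h2 l
    exact ⟨m, by linarith⟩
  · obtain ⟨m, hm⟩ := h3 l
    exact ⟨m, by linarith⟩

theorem six_twist {R : Type u} [CommRing R] [IsDomain R] [CharZero R] [Algebra.FiniteType ℤ R]
    (α : Fin 2 → R) (hα : ∀ i j, i ≠ j → IsUnit (α i - α j))
    (A : Fin 2 → Matrix (Fin 3) (Fin 3) R) (lam : Fin 2 → Fin 3 → ℚ) (phi : Fin 3 → ℚ)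
    (hlam : ∀ j, HasExponents (A j) (lam j)) (hphi : HasExponents (∑ j, A j) phi)
    (N : ℕ) (hN : N.Prime) (t : Fin 2 → ℚ) (hNlam : ∀ j l, ∃ m : ℤ, (N : ℚ) * (lam j l - t j) = m)
    (hNphi : ∀ l, ∃ m : ℤ, (N : ℚ) * (phi l - ∑ j, t j) = m) (hirr : AbsIrreducible α A)
    (hsame : ¬ SameExponents lam phi) :
    ∃ (a : ℤ) (g : R), IsCoprime a (N : ℤ) ∧ g ≠ 0 ∧ ∃ P₀ : ℕ, ∀ p : ℕ, p.Prime → P₀ < p →
      (N : ℤ) ∣ a * p + 1 → ∀ (𝔪 : Ideal R) [𝔪.IsMaximal], (p : R) ∈ 𝔪 → g ∉ 𝔪 →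
        ¬ PCurvZeroAt α A 𝔪 := by
  refine twist_transfer α hα A lam phi hlam hphi hirr t N (fun a => IsCoprime a (N : ℤ)) ?_
  intro S _ _ _ _ α' A' hα' hlam' hphi' hirr'
  exact six_final α' hα' A' (fun j l => lam j l - t j) (fun l => phi l - ∑ j, t j) hlam' hphi' N hN
    hNlam hNphi hirr' (fun h => hsame (sameExponents_twist h))

end Pool.Agent.R927
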