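import Pool.Agent.R927.Three1
import Pool.Agent.R927.FourFinal
import Pool.Agent.R927.SixFinal
import Pool.Agent.R927.Fol3

set_option autoImplicit false

/-!
Transfer of results on systems to twists by systems of rank one with rational exponents.
-/

namespace Pool.Agent.R927

open Finset Pool.Agent.W432.PC Pool.Agent.TH295.FO Pool.Agent.Y227.SS

universe u

theorem twist_transfer {R : Type u} [CommRing R] [IsDomain R] [CharZero R] [Algebra.FiniteType ℤ R]
    {n r : ℕ} (α : Fin n → R) (hα : ∀ i j, i ≠ j → IsUnit (α i - α j))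
    (A : Fin n → Matrix (Fin r) (Fin r) R) (lam : Fin n → Fin r → ℚ) (phi : Fin r → ℚ)
    (hlam : ∀ j, HasExponents (A j) (lam j)) (hphi : HasExponents (∑ j, A j) phi)
    (hirr : AbsIrreducible α A) (t : Fin n → ℚ) (B : ℕ) (P : ℤ → Prop)
    (H : ∀ (S : Type u) [CommRing S] [IsDomain S] [CharZero S] [Algebra.FiniteType ℤ S]
      (α' : Fin n → S) (A' : Fin n → Matrix (Fin r) (Fin r) S),
      (∀ i j, i ≠ j → IsUnit (α' i - α' j)) →
      (∀ j, HasExponents (A' j) (fun l => lam j l - t j)) →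
      HasExponents (∑ j, A' j) (fun l => phi l - ∑ j, t j) → AbsIrreducible α' A' →
      ∃ (a : ℤ) (g : S), P a ∧ g ≠ 0 ∧ ∃ P₀ : ℕ, ∀ p : ℕ, p.Prime → P₀ < p →
        (B : ℤ) ∣ a * p + 1 → ∀ (𝔪 : Ideal S) [𝔪.IsMaximal], (p : S) ∈ 𝔪 → g ∉ 𝔪 →
          ¬ PCurvZeroAt α' A' 𝔪) :
    ∃ (a : ℤ) (g : R), P a ∧ g ≠ 0 ∧ ∃ P₀ : ℕ, ∀ p : ℕ, p.Prime → P₀ < p →
      (B : ℤ) ∣ a * p + 1 → ∀ (𝔪 : Ideal R) [𝔪.IsMaximal], (p : R) ∈ 𝔪 → g ∉ 𝔪 →
        ¬ PCurvZeroAt α A 𝔪 := by
  classical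
  -- the common denominator of `t`
  set b : ℕ := ∏ j, (t j).den with hbdef
  have hb : 0 < b := prod_pos fun j _ => (t j).den_pos
  have hbQ : (b : ℚ) ≠ 0 := by exact_mod_cast hb.ne'
  have hT : ∃ T : Fin n → ℤ, ∀ j, -t j = (T j : ℚ) / b := by
    have h5 : ∀ j, ∃ k : ℤ, -t j = (k : ℚ) / b := by
      intro j
      obtain ⟨c, hc⟩ : (t j).den ∣ b := dvd_prod_of_mem (fun j => (t j).den) (mem_univ j)
      refine ⟨-((t j).num * c), ?_⟩
      rw [eq_div_iff hbQ, hc]
      push_cast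
      rw [neg_mul, ← mul_assoc, Rat.mul_den_eq_num]
    choose T hT using h5
    exact ⟨T, hT⟩
  obtain ⟨T, hT⟩ := hT
  have hTs : -∑ j, t j = ((∑ j, T j : ℤ) : ℚ) / b := by
    push_cast
    rw [sum_div, ← sum_neg_distrib]
    exact sum_congr rfl fun j _ => hT j
  have hb0 : (b : R) ≠ 0 := by exact_mod_cast hb.ne'
  have hle : Submonoid.powers (b : R) ≤ nonZeroDivisors R :=
    powers_le_nonZeroDivisors_of_noZeroDivisors hb0
  obtain ⟨S, iS, iA, iL⟩ : ∃ (S : Type u) (_ : CommRing S) (_ : Algebra R S),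
      IsLocalization.Away (b : R) S :=
    ⟨Localization.Away (b : R), inferInstance, inferInstance, inferInstance⟩
  have hdom : IsDomain S := IsLocalization.isDomain_of_le_nonZeroDivisors S hle
  have hinj : Function.Injective (algebraMap R S) := IsLocalization.injective S hle
  have hch : CharZero S := charZero_of_injective_algebraMap hinj
  have hft0 : Algebra.FiniteType R S :=
    IsLocalization.finiteType_of_monoid_fg (Submonoid.powers (b : R)) S
  have hft : Algebra.FiniteType ℤ S := Algebra.FiniteType.trans (S := R) ‹_› hft0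
  have hbu : IsUnit (b : S) := by
    have := IsLocalization.Away.algebraMap_isUnit (S := S) (b : R)
    rwa [map_natCast] at this
  obtain ⟨v, hv⟩ := hbu.exists_right_inv
  set c : Fin n → S := fun j => (T j : S) * v with hcdef
  have hc : ∀ j, (b : S) * c j = T j := by
    intro j
    rw [hcdef]
    linear_combination (T j : S) * hv
  set α' : Fin n → S := fun j => algebraMap R S (α j) with hα'def
  set A' : Fin n → Matrix (Fin r) (Fin r) S :=
    twist (fun j => (A j).map (algebraMap R S)) c with hA'def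
  have hirr' : AbsIrreducible α' A' := absIrreducible_twist (algebraMap R S) hinj hirr c
  have hα' : ∀ i j, i ≠ j → IsUnit (α' i - α' j) := by
    intro i j hij
    have := (hα i j hij).map (algebraMap R S)
    rwa [map_sub] at this
  have hlam' : ∀ j, HasExponents (A' j) (fun l => lam j l - t j) := fun j => by
    have h1 := hasExponents_twist (algebraMap R S) hinj (hlam j) hb (T j) (hc j)
    simp only [← hT, ← sub_eq_add_neg] at h1
    exact h1
  have hphi' : HasExponents (∑ j, A' j) (fun l => phi l - ∑ j, t j) := by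
    have h1 : ∑ j, A' j = (∑ j, A j).map (algebraMap R S) + (∑ j, c j) • 1 := by
      have h2 : (∑ j, A j).map (algebraMap R S) = ∑ j, (A j).map (algebraMap R S) :=
        map_sum (algebraMap R S).mapMatrix A univ
      rw [h2, hA'def]
      unfold twist
      rw [sum_add_distrib, sum_smul]
    rw [h1]
    have h3 := hasExponents_twist (algebraMap R S) hinj hphi hb (∑ j, T j) (c := ∑ j, c j) (by
      rw [mul_sum, Int.cast_sum]
      exact sum_congr rfl fun j _ => hc j)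
    simp only [← hTs, ← sub_eq_add_neg] at h3
    exact h3
  obtain ⟨a, g', hPa, hg', P₀, hP⟩ := H S α' A' hα' hlam' hphi' hirr'
  obtain ⟨k, x, hx⟩ := IsLocalization.Away.surj (b : R) g'
  have hx0 : x ≠ 0 := by
    rintro rfl
    rw [map_zero, mul_eq_zero] at hx
    rcases hx with h | h
    · exact hg' h
    · rw [map_natCast] at h
      exact (pow_ne_zero k hbu.ne_zero) h
  refine ⟨a, x * b, hPa, mul_ne_zero hx0 hb0, P₀, fun p hp hpP hap 𝔪 h𝔪 hpm hgm hpc => ?_⟩
  have hbm : (b : R) ∉ 𝔪 := fun h => hgm (Ideal.mul_mem_left _ _ h)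
  have hxm : x ∉ 𝔪 := fun h => hgm (Ideal.mul_mem_right _ _ h)
  let ifld : Field (R ⧸ 𝔪) := Ideal.Quotient.field 𝔪
  have hbq : IsUnit (Ideal.Quotient.mk 𝔪 (b : R)) := by
    refine isUnit_iff_ne_zero.2 fun h => hbm (Ideal.Quotient.eq_zero_iff_mem.1 h)
  let ψ : S →+* R ⧸ 𝔪 := IsLocalization.Away.lift (b : R) hbq
  have hψ : ∀ y, ψ (algebraMap R S y) = Ideal.Quotient.mk 𝔪 y := fun y =>
    IsLocalization.Away.lift_eq (b : R) hbq y
  have hsurj : Function.Surjective ψ := by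
    intro y
    obtain ⟨y, rfl⟩ := Ideal.Quotient.mk_surjective y
    exact ⟨algebraMap R S y, hψ y⟩
  have hmax : (RingHom.ker ψ).IsMaximal := RingHom.ker_isMaximal_of_surjective ψ hsurj
  refine hP p hp hpP hap (RingHom.ker ψ) ?_ ?_ ?_
  · rw [RingHom.mem_ker, ← map_natCast (algebraMap R S), hψ]
    exact Ideal.Quotient.eq_zero_iff_mem.2 hpm
  · intro h
    rw [RingHom.mem_ker] at h
    have h2 := congrArg ψ hx
    rw [map_mul, h, zero_mul, hψ] at h2
    exact hxm (Ideal.Quotient.eq_zero_iff_mem.1 h2.symm)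
  · refine pCurvZeroAt_twist (algebraMap R S) c T hc 𝔪 (RingHom.ker ψ) ?_ ?_ hpc
    · ext y
      rw [Ideal.mem_comap, RingHom.mem_ker, hψ, Ideal.Quotient.eq_zero_iff_mem]
    · intro h
      rw [RingHom.mem_ker, ← map_natCast (algebraMap R S), hψ] at h
      exact hbm (Ideal.Quotient.eq_zero_iff_mem.1 h)

/-- consequence for the projectivization of a system of trace zero parts -/
theorem fol_of_bad {R : Type u} [CommRing R] [IsDomain R] [CharZero R] [Algebra.FiniteType ℤ R]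
    {n r : ℕ} (hn : 0 < n) (α : Fin n → R) (hα : ∀ i j, i ≠ j → IsUnit (α i - α j))
    (A : Fin n → Matrix (Fin (r + 1)) (Fin (r + 1)) R) (u : R) (hu : ((r + 1 : ℕ) : R) * u = 1)
    (B : ℕ) (hB : 0 < B)
    (H : ∃ (a : ℤ) (g : R), IsCoprime a (B : ℤ) ∧ g ≠ 0 ∧ ∃ P₀ : ℕ, ∀ p : ℕ, p.Prime → P₀ < p →
      (B : ℤ) ∣ a * p + 1 → ∀ (𝔪 : Ideal R) [𝔪.IsMaximal], (p : R) ∈ 𝔪 → g ∉ 𝔪 →
        ¬ PCurvZeroAt α (fun j => traceless u (A j)) 𝔪) :
    (∃ (a : ℤ) (g : R), IsCoprime a (B : ℤ) ∧ g ≠ 0 ∧ ∃ P₀ : ℕ, ∀ p : ℕ, p.Prime → P₀ < p →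
      (B : ℤ) ∣ a * p + 1 → ∀ (𝔪 : Ideal R) [𝔪.IsMaximal], (p : R) ∈ 𝔪 → g ∉ 𝔪 →
        ¬ PClosed p (fol (fun i => MvPolynomial.map (Ideal.Quotient.mk 𝔪) (projField α A i)))) ∧
    ¬ AlmostAll (projField α A) := by
  obtain ⟨a, g, ha, hg, P₀, hP⟩ := H
  refine ⟨⟨a, g, ha, hg, P₀, fun p hp hpP hap 𝔪 h𝔪 hpm hgm hcl =>
    hP p hp hpP hap 𝔪 hpm hgm ?_⟩, fun hall => ?_⟩
  · rw [← projField_traceless α A u] at hcl
    exact pCurvZeroAt_of_pClosed hn α hα (fun j => traceless u (A j))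
      (fun j => trace_traceless hu (A j)) (IsUnit.of_mul_eq_one u hu) 𝔪 hp hpm hcl
  · rw [← projField_traceless α A u] at hall
    have hQ := qAll_of_almostAll hn α hα (fun j => traceless u (A j))
      (fun j => trace_traceless hu (A j)) (IsUnit.of_mul_eq_one u hu) hall
    exact not_condII_of α (fun j => traceless u (A j)) B hB a ha ⟨g, hg, P₀, hP⟩
      (condII_of_qAll hQ)

end Pool.Agent.R927
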